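import Pool.Agent.Q73.AD.StmG

/-!
# Riemannian surfaces in isothermal charts and the geodesic distance
-/

set_option autoImplicit false
open MeasureTheory Filter Topology Complex Metric
open scoped ContDiff

namespace Pool.Agent.Q73.AD

open Pool.Agent.Q73.NL

noncomputable section

universe u v

/-- the lengths of the piecewise `C¹` curves from `x` to `y`: the `k`-th piece is `φ (i k) ∘ γ k` on
`[0, 1]` and goes from `P k` to `P (k + 1)` -/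
def Lengths {M : Type u} {ι : Type v} (U : ι → Set ℂ) (φ : ι → ℂ → M) (ρ : ι → ℂ → ℝ) (x y : M) :
    Set ℝ :=
  {l | ∃ (n : ℕ) (i : ℕ → ι) (γ : ℕ → ℝ → ℂ) (P : ℕ → M), P 0 = x ∧ P n = y ∧
    (∀ k < n, ContDiff ℝ 1 (γ k) ∧ (∀ t ∈ Set.Icc (0 : ℝ) 1, γ k t ∈ U (i k)) ∧
      φ (i k) (γ k 0) = P k ∧ φ (i k) (γ k 1) = P (k + 1)) ∧
    l = ∑ k ∈ Finset.range n, ∫ t in (0 : ℝ)..1, Real.sqrt (ρ (i k) (γ k t)) * ‖deriv (γ k) t‖}

/-- a Riemannian surface given by isothermal charts: in the chart `φ i : U i → M` the metric is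
`ρ i |dz|²`; the transition maps are isometries; `dist` is the geodesic distance -/
structure Riem {M : Type u} {ι : Type v} [MetricSpace M] (U : ι → Set ℂ) (φ : ι → ℂ → M)
    (ρ : ι → ℂ → ℝ) : Prop where
  dom : ∀ i, IsOpen (U i)
  inj : ∀ i, Set.InjOn (φ i) (U i)
  cont : ∀ i, ContinuousOn (φ i) (U i)
  opn : ∀ i (S : Set ℂ), IsOpen S → S ⊆ U i → IsOpen (φ i '' S)
  cover : ∀ x : M, ∃ i, x ∈ φ i '' U i
  pos : ∀ i, ∀ z ∈ U i, 0 < ρ i z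
  dens : ∀ i, ContDiffOn ℝ 1 (ρ i) (U i)
  trans : ∀ i j, ∀ z ∈ U i, ∀ w ∈ U j, φ i z = φ j w → ∃ τ : ℂ → ℂ, τ z = w ∧
    (∀ᶠ z' in 𝓝 z, τ z' ∈ U j ∧ φ j (τ z') = φ i z') ∧ DifferentiableAt ℝ τ z ∧
    ∀ v : ℂ, ρ j w * ‖fderiv ℝ τ z v‖ ^ 2 = ρ i z * ‖v‖ ^ 2
  geod : ∀ x y : M, dist x y = sInf (Lengths U φ ρ x y)

/-- R1: the geodesic distance is locally comparable with the Euclidean distance in the charts -/
def R1 : Prop := ∀ (M : Type u) (ι : Type v) [MetricSpace M] (U : ι → Set ℂ) (φ : ι → ℂ → M)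
  (ρ : ι → ℂ → ℝ), Riem U φ ρ → Atl U φ ρ

end

end Pool.Agent.Q73.AD
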