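import Pool.Agent.Q73.AD.Stm
import Pool.Agent.Q73.NL.T7

/-!
# A1: the Carleman inequality
-/

set_option autoImplicit false
open MeasureTheory Filter Topology Complex Metric
open scoped ContDiff

namespace Pool.Agent.Q73.AD

open Pool.Agent.Q73.NL

/-- derivative along a line -/
theorem lineD {F : ℂ → ℝ} {z : ℂ} (e : ℂ) (hF : DifferentiableAt ℝ F z) :
    HasDerivAt (fun s : ℝ => F (z + s • e)) (fderiv ℝ F z e) 0 := by
  have h1 : HasFDerivAt F (fderiv ℝ F z) (z + (0 : ℝ) • e) := by
    simpa using hF.hasFDerivAt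
  have h2 : HasDerivAt (fun s : ℝ => z + s • e) e 0 := by
    have := ((hasDerivAt_id (0 : ℝ)).smul_const e).const_add z
    simpa using this
  exact h1.comp_hasDerivAt (0 : ℝ) h2

theorem lineD_iff {F : ℂ → ℝ} {z e : ℂ} {m : ℝ} (hF : DifferentiableAt ℝ F z)
    (h : HasDerivAt (fun s : ℝ => F (z + s • e)) m 0) : fderiv ℝ F z e = m :=
  (lineD e hF).unique h

theorem cd_d {f : ℂ → ℝ} (e : ℂ) (hf : ContDiff ℝ ∞ f) :
    ContDiff ℝ ∞ (fun z => fderiv ℝ f z e) :=
  (hf.fderiv_right (by simp)).clm_apply contDiff_const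

theorem psi_line_one (a : ℝ) (z : ℂ) :
    HasDerivAt (fun s : ℝ => psi a (z + s • (1 : ℂ))) (1 - 2 * a * z.re) 0 := by
  have h1 : (fun s : ℝ => psi a (z + s • (1 : ℂ))) = fun s : ℝ => (z.re + s) - a * (z.re + s) ^ 2 := by
    funext s
    simp [psi]
  rw [h1]
  have h2 : HasDerivAt (fun s : ℝ => z.re + s) 1 0 := (hasDerivAt_id (0 : ℝ)).const_add _
  refine (h2.sub ((h2.pow 2).const_mul a)).congr_deriv ?_
  simp
  ring

theorem psi_line_I (a : ℝ) (z : ℂ) :
    HasDerivAt (fun s : ℝ => psi a (z + s • I)) 0 0 := by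
  have h1 : (fun s : ℝ => psi a (z + s • I)) = fun _ : ℝ => psi a z := by
    funext s
    simp [psi]
  rw [h1]
  exact hasDerivAt_const _ _

theorem psi_smooth (a : ℝ) : ContDiff ℝ ∞ (psi a) := by
  unfold psi
  have h : ContDiff ℝ ∞ (fun z : ℂ => z.re) := Complex.reCLM.contDiff
  exact h.sub (contDiff_const.mul (h.pow 2))

/-- the mixed derivatives commute -/
theorem mixed {v : ℂ → ℝ} (hv : ContDiff ℝ ∞ v) (z : ℂ) : dx (dy v) z = dy (dx v) z := by
  have hs : IsSymmSndFDerivAt ℝ v z := hv.contDiffAt.isSymmSndFDerivAt (by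
    rw [minSmoothness_of_isRCLikeNormedField]
    exact WithTop.coe_le_coe.2 le_top)
  have hd : DifferentiableAt ℝ (fderiv ℝ v) z :=
    ((hv.fderiv_right (m := ∞) (by simp)).differentiable (by simp)) z
  have key : ∀ a b : ℂ, fderiv ℝ (fun w => fderiv ℝ v w a) z b = fderiv ℝ (fderiv ℝ v) z b a := by
    intro a b
    rw [fderiv_clm_apply hd (differentiableAt_const _)]
    simp
  unfold dx dy
  change fderiv ℝ (fun w => fderiv ℝ v w I) z 1 = fderiv ℝ (fun w => fderiv ℝ v w 1) z I
  rw [key, key]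
  exact hs 1 I

theorem alg1 {a N κ p Q Qx V Vx Vy Vxx Vxy Vyy : ℝ} (ha : 0 < a) (hN : 0 < N)
    (hκ : κ ^ 2 ≤ a * N ^ 2) (hp : 1 / 2 ≤ p) (hQ : Qx ≤ κ ^ 2) :
    a * N ^ 3 * V ^ 2 + 2 * (N * (p * (2 * Vx * Vxx) - 2 * a * Vx ^ 2 -
            (p * (2 * Vy * Vxy) - 2 * a * Vy ^ 2) - 2 * a * (Vx ^ 2 + V * Vxx)) +
          N ^ 3 * (p ^ 3 * (2 * V * Vx) - 6 * a * p ^ 2 * V ^ 2) +
          N * (Qx * (p * V ^ 2) + Q * (p * (2 * V * Vx) - 2 * a * V ^ 2)) +
          N * (2 * (p * (Vxy * Vy + Vx * Vyy)) - 2 * a * (Vy ^ 2 + V * Vyy))) ≤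
    (Vxx + Vyy + 2 * N * p * Vx + (N ^ 2 * p ^ 2 - 2 * a * N) * V + Q * V) ^ 2 := by
  have key : (Vxx + Vyy + 2 * N * p * Vx + (N ^ 2 * p ^ 2 - 2 * a * N) * V + Q * V) ^ 2 -
          (a * N ^ 3 * V ^ 2 + 2 * (N * (p * (2 * Vx * Vxx) - 2 * a * Vx ^ 2 -
            (p * (2 * Vy * Vxy) - 2 * a * Vy ^ 2) - 2 * a * (Vx ^ 2 + V * Vxx)) +
          N ^ 3 * (p ^ 3 * (2 * V * Vx) - 6 * a * p ^ 2 * V ^ 2) +
          N * (Qx * (p * V ^ 2) + Q * (p * (2 * V * Vx) - 2 * a * V ^ 2)) +
          N * (2 * (p * (Vxy * Vy + Vx * Vyy)) - 2 * a * (Vy ^ 2 + V * Vyy)))) =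
          (Vxx + Vyy + N ^ 2 * p ^ 2 * V + Q * V) ^ 2 + (2 * N * p * Vx - 2 * a * N * V) ^ 2 +
          8 * a * N * Vx ^ 2 + (a * N ^ 3 * ((2 * p - 1) * (4 * p + 1)) +
            2 * (N * p * (a * N ^ 2 - Qx))) * V ^ 2 := by
    ring
  have h6 : 0 ≤ a * N ^ 2 - Qx := by linarith
  have h7 : 0 ≤ N * p := by positivity
  have h9 : 0 ≤ a * N ^ 3 := by positivity
  have h10 : 0 ≤ (2 * p - 1) * (4 * p + 1) := mul_nonneg (by linarith) (by linarith)
  have h11 : 0 ≤ a * N ^ 3 * ((2 * p - 1) * (4 * p + 1)) +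
      2 * (N * p * (a * N ^ 2 - Qx)) :=
    add_nonneg (mul_nonneg h9 h10) (mul_nonneg two_pos.le (mul_nonneg h7 h6))
  have h12 : 0 ≤ 8 * a * N * Vx ^ 2 := by positivity
  have h13 := mul_nonneg h11 (sq_nonneg V)
  have h14 := sq_nonneg (Vxx + Vyy + N ^ 2 * p ^ 2 * V + Q * V)
  have h15 := sq_nonneg (2 * N * p * Vx - 2 * a * N * V)
  rw [← sub_nonneg, key]
  exact add_nonneg (add_nonneg (add_nonneg h14 h15) h12) h13

theorem ta1 : A1 := by
  intro a N κ R q w ha hN hR haR hκ hw hwc hwR hq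
  set v : ℂ → ℝ := fun z => Real.exp (-N * psi a z) * w z with hv
  have hE : ContDiff ℝ ∞ (fun z => Real.exp (-N * psi a z)) :=
    (contDiff_const.mul (psi_smooth a)).exp
  have hvs : ContDiff ℝ ∞ v := hE.mul hw
  have hp : ContDiff ℝ ∞ (fun z : ℂ => 1 - 2 * a * z.re) :=
    contDiff_const.sub (contDiff_const.mul Complex.reCLM.contDiff)
  have hvx := cd_d 1 hvs
  have hvy := cd_d I hvs
  -- the divergence field
  set X1 : ℂ → ℝ := fun z => N * ((1 - 2 * a * z.re) * dx v z ^ 2 - (1 - 2 * a * z.re) * dy v z ^ 2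
      + -(2 * a) * (v z * dx v z)) + N ^ 3 * ((1 - 2 * a * z.re) ^ 3 * v z ^ 2) +
      N * (q z * ((1 - 2 * a * z.re) * v z ^ 2)) with hX1
  set X2 : ℂ → ℝ := fun z => N * (2 * ((1 - 2 * a * z.re) * (dx v z * dy v z)) +
      -(2 * a) * (v z * dy v z)) with hX2
  -- outside the support
  have hoff : ∀ z, z ∉ tsupport w → v =ᶠ[𝓝 z] fun _ => 0 := by
    intro z hz
    have h1 := notMem_tsupport_iff_eventuallyEq.1 hz
    filter_upwards [h1] with u hu
    simp only [hv, hu, Pi.zero_apply, mul_zero]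
  have hoffx : ∀ z, z ∉ tsupport w → ∀ᶠ u in 𝓝 z, v u = 0 ∧ dx v u = 0 ∧ dy v u = 0 := by
    intro z hz
    have h1 := (hoff z hz).eventuallyEq_nhds
    filter_upwards [h1] with u hu
    refine ⟨hu.self_of_nhds, ?_, ?_⟩
    · unfold dx
      rw [hu.fderiv_eq]
      simp
    · unfold dy
      rw [hu.fderiv_eq]
      simp
  have hX1off : ∀ z, z ∉ tsupport w → X1 =ᶠ[𝓝 z] fun _ => 0 := by
    intro z hz
    filter_upwards [hoffx z hz] with u hu
    obtain ⟨h1, h2, h3⟩ := hu
    simp only [hX1, h1, h2, h3]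
    ring
  have hX2off : ∀ z, z ∉ tsupport w → X2 =ᶠ[𝓝 z] fun _ => 0 := by
    intro z hz
    filter_upwards [hoffx z hz] with u hu
    obtain ⟨h1, h2, h3⟩ := hu
    simp only [hX2, h1, h2, h3]
    ring
  have hX1c : ContDiff ℝ 1 X1 := by
    rw [contDiff_iff_contDiffAt]
    intro z
    by_cases hz : z ∈ tsupport w
    · obtain ⟨hq1, -⟩ := hq z (hwR hz)
      have l1 : ((1 : ℕ∞) : WithTop ℕ∞) ≤ (∞ : WithTop ℕ∞) := by exact_mod_cast le_top
      have c1 : ContDiffAt ℝ 1 v z := (hvs.of_le l1).contDiffAt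
      have c2 : ContDiffAt ℝ 1 (dx v) z := (hvx.of_le l1).contDiffAt
      have c3 : ContDiffAt ℝ 1 (dy v) z := (hvy.of_le l1).contDiffAt
      have c4 : ContDiffAt ℝ 1 (fun z : ℂ => 1 - 2 * a * z.re) z := (hp.of_le l1).contDiffAt
      exact ((contDiffAt_const.mul (((c4.mul (c2.pow 2)).sub (c4.mul (c3.pow 2))).add
        (contDiffAt_const.mul (c1.mul c2)))).add
        (contDiffAt_const.mul ((c4.pow 3).mul (c1.pow 2)))).add
        (contDiffAt_const.mul (hq1.mul (c4.mul (c1.pow 2))))
    · exact contDiffAt_const.congr_of_eventuallyEq (hX1off z hz)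
  have hX2c : ContDiff ℝ 1 X2 := by
    have l1 : ((1 : ℕ∞) : WithTop ℕ∞) ≤ (∞ : WithTop ℕ∞) := by exact_mod_cast le_top
    have c1 : ContDiff ℝ 1 v := (hvs.of_le l1)
    have c2 : ContDiff ℝ 1 (dx v) := (hvx.of_le l1)
    have c3 : ContDiff ℝ 1 (dy v) := (hvy.of_le l1)
    have c4 : ContDiff ℝ 1 (fun z : ℂ => 1 - 2 * a * z.re) := (hp.of_le l1)
    exact contDiff_const.mul ((contDiff_const.mul (c4.mul (c2.mul c3))).add
      (contDiff_const.mul (c1.mul c3)))
  have hX1s : HasCompactSupport X1 := by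
    refine HasCompactSupport.of_support_subset_isCompact hwc ?_
    intro z hz
    by_contra h
    exact hz ((hX1off z h).self_of_nhds)
  have hX2s : HasCompactSupport X2 := by
    refine HasCompactSupport.of_support_subset_isCompact hwc ?_
    intro z hz
    by_contra h
    exact hz ((hX2off z h).self_of_nhds)
  obtain ⟨i1, i1'⟩ := int_der hX1c hX1s 1
  obtain ⟨i2, i2'⟩ := int_der hX2c hX2s I
  -- the equation for `w`
  have hwv : ∀ z, w z = Real.exp (N * psi a z) * v z := by
    intro z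
    simp only [hv]
    rw [← mul_assoc, ← Real.exp_add]
    simp
  have hwv' : w = fun z => Real.exp (N * psi a z) * v z := funext hwv
  have hdv : ∀ z, DifferentiableAt ℝ v z := fun z => (hvs.differentiable (by simp)) z
  have hdvx : ∀ z, DifferentiableAt ℝ (dx v) z := fun z => (hvx.differentiable (by simp)) z
  have hdvy : ∀ z, DifferentiableAt ℝ (dy v) z := fun z => (hvy.differentiable (by simp)) z
  have hdw : ∀ z, DifferentiableAt ℝ w z := fun z => (hw.differentiable (by simp)) z
  have hexp1 : ∀ z : ℂ, HasDerivAt (fun s : ℝ => Real.exp (N * psi a (z + s • (1 : ℂ))))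
      (Real.exp (N * psi a z) * (N * (1 - 2 * a * z.re))) 0 := by
    intro z
    have h := ((psi_line_one a z).const_mul N).exp
    simpa using h
  have hexpI : ∀ z : ℂ, HasDerivAt (fun s : ℝ => Real.exp (N * psi a (z + s • I))) 0 0 := by
    intro z
    have h := ((psi_line_I a z).const_mul N).exp
    simpa using h
  have hwx : dx w = fun z => Real.exp (N * psi a z) * (N * ((1 - 2 * a * z.re) * v z) + dx v z) := by
    funext z
    refine lineD_iff (hdw z) ?_
    rw [hwv']
    have h := (hexp1 z).mul (lineD 1 (hdv z))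
    refine h.congr_deriv ?_
    simp only [zero_smul, add_zero, dx]
    ring
  have hwy : dy w = fun z => Real.exp (N * psi a z) * dy v z := by
    funext z
    refine lineD_iff (hdw z) ?_
    rw [hwv']
    have h := (hexpI z).mul (lineD I (hdv z))
    refine h.congr_deriv ?_
    simp only [zero_smul, add_zero, dy]
    ring
  have hpl : ∀ z : ℂ, HasDerivAt (fun s : ℝ => 1 - 2 * a * (z + s • (1 : ℂ)).re) (-(2 * a)) 0 := by
    intro z
    have h1 : (fun s : ℝ => 1 - 2 * a * (z + s • (1 : ℂ)).re) = fun s : ℝ =>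
        1 - 2 * a * (z.re + s) := by
      funext s
      simp
    rw [h1]
    have h2 : HasDerivAt (fun s : ℝ => z.re + s) 1 0 := (hasDerivAt_id (0 : ℝ)).const_add _
    refine ((h2.const_mul (2 * a)).const_sub 1).congr_deriv ?_
    ring
  have hplI : ∀ z : ℂ, HasDerivAt (fun s : ℝ => 1 - 2 * a * (z + s • I).re) 0 0 := by
    intro z
    have h1 : (fun s : ℝ => 1 - 2 * a * (z + s • I).re) = fun s : ℝ => 1 - 2 * a * z.re := by
      funext s
      simp
    rw [h1]
    exact hasDerivAt_const _ _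
  have hwsx := cd_d 1 hw
  have hwsy := cd_d I hw
  have hlap : ∀ z, lap w z = Real.exp (N * psi a z) * (lap v z +
      2 * N * (1 - 2 * a * z.re) * dx v z + (N ^ 2 * (1 - 2 * a * z.re) ^ 2 - 2 * a * N) * v z) := by
    intro z
    have e1 : dx (dx w) z = Real.exp (N * psi a z) * (dx (dx v) z +
        2 * N * (1 - 2 * a * z.re) * dx v z +
        (N ^ 2 * (1 - 2 * a * z.re) ^ 2 - 2 * a * N) * v z) := by
      refine lineD_iff ((hwsx.differentiable (by simp)) z) ?_
      rw [hwx]
      have h := (hexp1 z).mul ((((hpl z).mul (lineD 1 (hdv z))).const_mul N).add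
        (lineD 1 (hdvx z)))
      refine h.congr_deriv ?_
      simp only [zero_smul, add_zero, dx, Pi.add_apply, Pi.mul_apply]
      ring
    have e2 : dy (dy w) z = Real.exp (N * psi a z) * dy (dy v) z := by
      refine lineD_iff ((hwsy.differentiable (by simp)) z) ?_
      rw [hwy]
      have h := (hexpI z).mul (lineD I (hdvy z))
      refine h.congr_deriv ?_
      simp only [zero_smul, add_zero, dy]
      ring
    unfold lap
    rw [e1, e2]
    ring
  -- integrability
  have hlow : Integrable fun z => Real.exp (-2 * N * psi a z) * w z ^ 2 := by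
    have hc : Continuous fun z => Real.exp (-2 * N * psi a z) * w z ^ 2 :=
      (Real.continuous_exp.comp (continuous_const.mul (psi_smooth a).continuous)).mul
        (hw.continuous.pow 2)
    refine hc.integrable_of_hasCompactSupport ?_
    refine HasCompactSupport.of_support_subset_isCompact hwc ?_
    intro z hz
    by_contra h
    apply hz
    have := image_eq_zero_of_notMem_tsupport h
    simp [this]
  have hoffw : ∀ z, z ∉ tsupport w → ∀ᶠ u in 𝓝 z, w u = 0 ∧ lap w u = 0 := by
    intro z hz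
    have h0 : w =ᶠ[𝓝 z] fun _ => 0 := notMem_tsupport_iff_eventuallyEq.1 hz
    have h1 := h0.eventuallyEq_nhds
    have h2 : ∀ᶠ u in 𝓝 z, dx w u = 0 ∧ dy w u = 0 := by
      filter_upwards [h1] with u hu
      refine ⟨?_, ?_⟩
      · unfold dx
        rw [hu.fderiv_eq]
        simp
      · unfold dy
        rw [hu.fderiv_eq]
        simp
    have h3 := h2.eventually_nhds
    filter_upwards [h1, h3] with u hu hu3
    refine ⟨hu.self_of_nhds, ?_⟩
    have h4 : dx w =ᶠ[𝓝 u] fun _ => 0 := by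
      filter_upwards [hu3] with t ht using ht.1
    have h5 : dy w =ᶠ[𝓝 u] fun _ => 0 := by
      filter_upwards [hu3] with t ht using ht.2
    have h6 : dx (dx w) u = 0 := by
      change fderiv ℝ (dx w) u 1 = 0
      rw [h4.fderiv_eq]
      simp
    have h7 : dy (dy w) u = 0 := by
      change fderiv ℝ (dy w) u I = 0
      rw [h5.fderiv_eq]
      simp
    unfold lap
    rw [h6, h7, add_zero]
  have hhigh : Integrable fun z => Real.exp (-2 * N * psi a z) * (lap w z + q z * w z) ^ 2 := by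
    have hlc : Continuous (lap w) :=
      ((cd_d 1 hwsx).continuous).add ((cd_d I hwsy).continuous)
    have hc : Continuous fun z => Real.exp (-2 * N * psi a z) * (lap w z + q z * w z) ^ 2 := by
      rw [continuous_iff_continuousAt]
      intro z
      by_cases hz : z ∈ tsupport w
      · obtain ⟨hq1, -⟩ := hq z (hwR hz)
        have c1 : ContinuousAt (fun z => Real.exp (-2 * N * psi a z)) z :=
          (Real.continuous_exp.comp (continuous_const.mul (psi_smooth a).continuous)).continuousAt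
        exact c1.mul ((hlc.continuousAt.add (hq1.continuousAt.mul hw.continuous.continuousAt)).pow 2)
      · have h1 : (fun z => Real.exp (-2 * N * psi a z) * (lap w z + q z * w z) ^ 2) =ᶠ[𝓝 z]
            fun _ => 0 := by
          filter_upwards [hoffw z hz] with u hu
          rw [hu.1, hu.2]
          simp
        exact continuousAt_const.congr h1.symm
    refine hc.integrable_of_hasCompactSupport ?_
    refine HasCompactSupport.of_support_subset_isCompact hwc ?_
    intro z hz
    by_contra h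
    apply hz
    have h1 := (hoffw z h).self_of_nhds
    dsimp only
    rw [h1.1, h1.2]
    simp
  -- the pointwise inequality
  have hpt : ∀ z, a * N ^ 3 * (Real.exp (-2 * N * psi a z) * w z ^ 2) +
      2 * (fderiv ℝ X1 z 1 + fderiv ℝ X2 z I) ≤
      Real.exp (-2 * N * psi a z) * (lap w z + q z * w z) ^ 2 := by
    intro z
    by_cases hz : z ∈ tsupport w
    · have hzR := hwR hz
      obtain ⟨hq1, hq2⟩ := hq z hzR
      have hqd : DifferentiableAt ℝ q z := hq1.differentiableAt (by simp)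
      have e1 : fderiv ℝ X1 z 1 = N * ((1 - 2 * a * z.re) * (2 * dx v z * dx (dx v) z) -
          2 * a * dx v z ^ 2 - ((1 - 2 * a * z.re) * (2 * dy v z * dx (dy v) z) -
          2 * a * dy v z ^ 2) - 2 * a * (dx v z ^ 2 + v z * dx (dx v) z)) +
          N ^ 3 * ((1 - 2 * a * z.re) ^ 3 * (2 * v z * dx v z) -
            6 * a * (1 - 2 * a * z.re) ^ 2 * v z ^ 2) +
          N * (dx q z * ((1 - 2 * a * z.re) * v z ^ 2) +
            q z * ((1 - 2 * a * z.re) * (2 * v z * dx v z) - 2 * a * v z ^ 2)) := by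
        refine lineD_iff ((hX1c.differentiable (by simp)) z) ?_
        have p1 := hpl z
        have v1 := lineD 1 (hdv z)
        have vx1 := lineD 1 (hdvx z)
        have vy1 := lineD 1 (hdvy z)
        have q1 := lineD 1 hqd
        have h := ((((p1.mul (vx1.pow 2)).sub (p1.mul (vy1.pow 2))).add
          ((v1.mul vx1).const_mul (-(2 * a)))).const_mul N).add
          (((p1.pow 3).mul (v1.pow 2)).const_mul (N ^ 3)) |>.add
          ((q1.mul (p1.mul (v1.pow 2))).const_mul N)
        refine h.congr_deriv ?_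
        simp only [zero_smul, add_zero, dx, dy, Pi.add_apply, Pi.mul_apply, Pi.pow_apply,
          Pi.sub_apply]
        norm_num
        ring
      have e2 : fderiv ℝ X2 z I = N * (2 * ((1 - 2 * a * z.re) * (dy (dx v) z * dy v z +
          dx v z * dy (dy v) z)) - 2 * a * (dy v z ^ 2 + v z * dy (dy v) z)) := by
        refine lineD_iff ((hX2c.differentiable (by simp)) z) ?_
        have p1 := hplI z
        have v1 := lineD I (hdv z)
        have vx1 := lineD I (hdvx z)
        have vy1 := lineD I (hdvy z)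
        have h := (((p1.mul (vx1.mul vy1)).const_mul 2).add
          ((v1.mul vy1).const_mul (-(2 * a)))).const_mul N
        refine h.congr_deriv ?_
        simp only [zero_smul, add_zero, dx, dy, Pi.add_apply, Pi.mul_apply]
        ring
      have hmix := mixed hvs z
      have hw2 : Real.exp (-2 * N * psi a z) * w z ^ 2 = v z ^ 2 := by
        rw [hwv z, mul_pow, ← mul_assoc, ← Real.exp_nat_mul, ← Real.exp_add]
        have : -2 * N * psi a z + ((2 : ℕ) : ℝ) * (N * psi a z) = 0 := by
          push_cast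
          ring
        rw [this, Real.exp_zero, one_mul]
      have hw3 : Real.exp (-2 * N * psi a z) * (lap w z + q z * w z) ^ 2 =
          (lap v z + 2 * N * (1 - 2 * a * z.re) * dx v z +
            (N ^ 2 * (1 - 2 * a * z.re) ^ 2 - 2 * a * N) * v z + q z * v z) ^ 2 := by
        rw [hlap z]
        have h1 : Real.exp (N * psi a z) * (lap v z + 2 * N * (1 - 2 * a * z.re) * dx v z +
            (N ^ 2 * (1 - 2 * a * z.re) ^ 2 - 2 * a * N) * v z) + q z * w z =
            Real.exp (N * psi a z) * (lap v z + 2 * N * (1 - 2 * a * z.re) * dx v z +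
            (N ^ 2 * (1 - 2 * a * z.re) ^ 2 - 2 * a * N) * v z + q z * v z) := by
          rw [hwv z]
          ring
        rw [h1, mul_pow, ← mul_assoc, ← Real.exp_nat_mul, ← Real.exp_add]
        have : -2 * N * psi a z + ((2 : ℕ) : ℝ) * (N * psi a z) = 0 := by
          push_cast
          ring
        rw [this, Real.exp_zero, one_mul]
      rw [hw2, hw3, e1, e2, hmix]
      have hzr : |z.re| < R := lt_of_le_of_lt (Complex.abs_re_le_norm z) (by simpa using hzR)
      set p : ℝ := 1 - 2 * a * z.re with hpdef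
      have hp1 : 1 / 2 ≤ p := by
        have h1 := (abs_lt.1 hzr).2
        have h2 : 2 * a * z.re ≤ 2 * a * R := by
          apply mul_le_mul_of_nonneg_left h1.le (by positivity)
        rw [hpdef]
        linarith
      have hq3 := abs_le.1 hq2
      unfold lap
      exact alg1 ha hN hκ hp1 hq3.2
    · have h0 : w z = 0 := image_eq_zero_of_notMem_tsupport hz
      have h1 := (hoffw z hz).self_of_nhds
      rw [(hX1off z hz).fderiv_eq, (hX2off z hz).fderiv_eq, h1.1, h1.2]
      simp
  have i3 : Integrable fun z => fderiv ℝ X1 z 1 + fderiv ℝ X2 z I := i1.add i2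
  have hmono := integral_mono ((hlow.const_mul (a * N ^ 3)).add (i3.const_mul 2)) hhigh hpt
  have h1 : ∫ z, (fderiv ℝ X1 z 1 + fderiv ℝ X2 z I) = 0 := by
    have := integral_add i1 i2
    rw [i1', i2', add_zero] at this
    exact this
  have h2 : ∫ z, ((fun z => a * N ^ 3 * (Real.exp (-2 * N * psi a z) * w z ^ 2)) +
      fun z => 2 * (fderiv ℝ X1 z 1 + fderiv ℝ X2 z I)) z =
      a * N ^ 3 * ∫ z, Real.exp (-2 * N * psi a z) * w z ^ 2 := by
    simp only [Pi.add_apply]
    rw [integral_add (hlow.const_mul (a * N ^ 3)) (i3.const_mul 2), integral_const_mul,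
      integral_const_mul, h1, mul_zero, add_zero]
  rw [← h2]
  exact hmono

end Pool.Agent.Q73.AD
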