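import Pool.Agent.Q73.AD.Stm
import Pool.Agent.Q73.NL.T7

/-! Project AD (helper73), job AD-2: the weighted Caccioppoli inequality. -/

set_option autoImplicit false

open MeasureTheory Filter Topology Complex Metric
open scoped ContDiff

namespace Pool.Agent.Q73.AD

open Pool.Agent.Q73.NL

/-- a product with a function supported in the ball -/
lemma ta2_cd {n : WithTop ℕ∞} {c g : ℂ → ℝ} {R : ℝ} (hc : ContDiff ℝ n c)
    (hs : tsupport c ⊆ ball 0 R) (hg : ∀ z ∈ ball (0 : ℂ) R, ContDiffAt ℝ n g z) :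
    ContDiff ℝ n fun z => c z * g z := by
  rw [contDiff_iff_contDiffAt]
  intro z
  by_cases hz : z ∈ tsupport c
  · exact hc.contDiffAt.mul (hg z (hs hz))
  · have h1 : (fun z => c z * g z) =ᶠ[𝓝 z] fun _ => 0 := by
      have h2 : (tsupport c)ᶜ ∈ 𝓝 z := (isClosed_tsupport c).isOpen_compl.mem_nhds hz
      filter_upwards [h2] with y hy
      rw [image_eq_zero_of_notMem_tsupport hy, zero_mul]
    exact contDiffAt_const.congr_of_eventuallyEq h1

lemma ta2_cont {c g : ℂ → ℝ} {R : ℝ} (hc : Continuous c)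
    (hs : tsupport c ⊆ ball 0 R) (hg : ∀ z ∈ ball (0 : ℂ) R, ContinuousAt g z) :
    Continuous fun z => c z * g z := by
  rw [continuous_iff_continuousAt]
  intro z
  by_cases hz : z ∈ tsupport c
  · exact hc.continuousAt.mul (hg z (hs hz))
  · have h1 : (fun z => c z * g z) =ᶠ[𝓝 z] fun _ => 0 := by
      have h2 : (tsupport c)ᶜ ∈ 𝓝 z := (isClosed_tsupport c).isOpen_compl.mem_nhds hz
      filter_upwards [h2] with y hy
      rw [image_eq_zero_of_notMem_tsupport hy, zero_mul]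
    exact continuousAt_const.congr_of_eventuallyEq h1

lemma ta2_int {c g : ℂ → ℝ} {R : ℝ} (hc : Continuous c) (hcs : HasCompactSupport c)
    (hs : tsupport c ⊆ ball 0 R) (hg : ∀ z ∈ ball (0 : ℂ) R, ContinuousAt g z) :
    Integrable fun z => c z * g z :=
  (ta2_cont hc hs hg).integrable_of_hasCompactSupport hcs.mul_right

lemma ta2_psi (a : ℝ) : ContDiff ℝ ∞ (psi a) := by
  unfold psi
  have h : ContDiff ℝ ∞ fun z : ℂ => z.re := Complex.reCLM.contDiff
  exact h.sub (contDiff_const.mul (h.pow 2))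

/-- the derivatives of the weight -/
lemma ta2_psi_der (a : ℝ) (z v : ℂ) : fderiv ℝ (psi a) z v = (1 - 2 * a * z.re) * v.re := by
  have h : HasFDerivAt (fun z : ℂ => z.re) Complex.reCLM z := Complex.reCLM.hasFDerivAt
  have h1 : HasFDerivAt (psi a) _ z := h.sub ((h.pow 2).const_mul a)
  rw [h1.fderiv]
  simp
  ring

/-- the weight -/
noncomputable def wt (a N : ℝ) (z : ℂ) : ℝ := Real.exp (-2 * N * psi a z)

lemma wt_cd (a N : ℝ) : ContDiff ℝ ∞ (wt a N) := by
  unfold wt
  exact (contDiff_const.mul (ta2_psi a)).exp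

lemma wt_der (a N : ℝ) (z v : ℂ) :
    fderiv ℝ (wt a N) z v = -2 * N * (1 - 2 * a * z.re) * v.re * wt a N z := by
  have h1 : HasFDerivAt (psi a) (fderiv ℝ (psi a) z) z :=
    ((ta2_psi a).differentiable (by simp) z).hasFDerivAt
  have h2 : HasFDerivAt (wt a N) _ z := (h1.const_mul (-2 * N)).exp
  rw [h2.fderiv]
  simp only [ContinuousLinearMap.smul_apply, smul_eq_mul, ta2_psi_der]
  unfold wt
  ring

/-- the derivative of the field -/
lemma ta2_field (a N : ℝ) (χ h g : ℂ → ℝ) (z v : ℂ) (hχ : DifferentiableAt ℝ χ z)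
    (hh : DifferentiableAt ℝ h z) (hg : DifferentiableAt ℝ g z) :
    fderiv ℝ (fun z => χ z * (χ z * (wt a N z * (h z * g z)))) z v =
      2 * (χ z * fderiv ℝ χ z v * wt a N z * h z * g z) +
      χ z ^ 2 * (fderiv ℝ (wt a N) z v * h z * g z + wt a N z * (fderiv ℝ h z v * g z +
        h z * fderiv ℝ g z v)) := by
  have hw : DifferentiableAt ℝ (wt a N) z := (wt_cd a N).differentiable (by simp) z
  have h1 := hχ.hasFDerivAt.mul (hχ.hasFDerivAt.mul (hw.hasFDerivAt.mul
    (hh.hasFDerivAt.mul hg.hasFDerivAt)))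
  have h2 : fderiv ℝ (fun z => χ z * (χ z * (wt a N z * (h z * g z)))) z = _ := h1.fderiv
  rw [h2]
  simp only [ContinuousLinearMap.add_apply, ContinuousLinearMap.smul_apply, smul_eq_mul,
    Pi.mul_apply]
  ring

/-- the inequality, also with the weight one -/
theorem ta2_gen (a N κ R : ℝ) (q h χ : ℂ → ℝ) (ha : 0 ≤ a) (haR : 4 * a * R ≤ 1)
    (hχ : ContDiff ℝ ∞ χ) (hχc : HasCompactSupport χ) (hχs : tsupport χ ⊆ ball 0 R)
    (hsol : ∀ z ∈ ball (0 : ℂ) R, ContDiffAt ℝ ∞ h z ∧ |q z| ≤ κ ^ 2 ∧ lap h z + q z * h z = 0) :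
    ∫ z, Real.exp (-2 * N * psi a z) * χ z ^ 2 * (dx h z ^ 2 + dy h z ^ 2) ≤
    ∫ z, Real.exp (-2 * N * psi a z) *
      (8 * (dx χ z ^ 2 + dy χ z ^ 2) + (18 * N ^ 2 + 2 * κ ^ 2) * χ z ^ 2) * h z ^ 2 := by
  -- smoothness in the ball
  have hdx : ∀ z ∈ ball (0 : ℂ) R, ContDiffAt ℝ ∞ (dx h) z := fun z hz =>
    ((hsol z hz).1.fderiv_right (m := ∞) (by simp)).clm_apply contDiffAt_const
  have hdy : ∀ z ∈ ball (0 : ℂ) R, ContDiffAt ℝ ∞ (dy h) z := fun z hz =>
    ((hsol z hz).1.fderiv_right (m := ∞) (by simp)).clm_apply contDiffAt_const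
  have hw : ∀ z, ContDiffAt ℝ ∞ (wt a N) z := fun z => (wt_cd a N).contDiffAt
  have hX : ∀ g : ℂ → ℝ, (∀ z ∈ ball (0 : ℂ) R, ContDiffAt ℝ ∞ g z) →
      ContDiff ℝ 1 (fun z => χ z * (χ z * (wt a N z * (h z * g z)))) := by
    intro g hg
    have := ta2_cd (n := ∞) hχ hχs (g := fun z => χ z * (wt a N z * (h z * g z)))
      fun z hz => hχ.contDiffAt.mul ((hw z).mul ((hsol z hz).1.mul (hg z hz)))
    exact this.of_le (by simp)
  have hX1 := hX (dx h) hdx
  have hX2 := hX (dy h) hdy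
  set X1 : ℂ → ℝ := fun z => χ z * (χ z * (wt a N z * (h z * dx h z))) with hX1d
  set X2 : ℂ → ℝ := fun z => χ z * (χ z * (wt a N z * (h z * dy h z))) with hX2d
  obtain ⟨i1, j1⟩ := int_der hX1 hχc.mul_right 1
  obtain ⟨i2, j2⟩ := int_der hX2 hχc.mul_right I
  -- the pointwise inequality
  have hpt : ∀ z, wt a N z * χ z ^ 2 * (dx h z ^ 2 + dy h z ^ 2) ≤
      2 * (fderiv ℝ X1 z 1 + fderiv ℝ X2 z I) + wt a N z *
      (8 * (dx χ z ^ 2 + dy χ z ^ 2) + (18 * N ^ 2 + 2 * κ ^ 2) * χ z ^ 2) * h z ^ 2 := by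
    intro z
    have hwp : 0 < wt a N z := Real.exp_pos _
    by_cases hz : z ∈ ball (0 : ℂ) R
    · have hd := hsol z hz
      have hhd : DifferentiableAt ℝ h z := hd.1.differentiableAt (by simp)
      have hχd : DifferentiableAt ℝ χ z := hχ.differentiable (by simp) z
      have e1 := ta2_field a N χ h (dx h) z 1 hχd hhd ((hdx z hz).differentiableAt (by simp))
      have e2 := ta2_field a N χ h (dy h) z I hχd hhd ((hdy z hz).differentiableAt (by simp))
      rw [wt_der] at e1 e2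
      simp only [Complex.one_re, Complex.I_re, mul_one, mul_zero, zero_mul] at e1 e2
      have e3 : fderiv ℝ X1 z 1 = _ := e1
      have e4 : fderiv ℝ X2 z I = _ := e2
      rw [e3, e4]
      have hlap : fderiv ℝ (dx h) z 1 + fderiv ℝ (dy h) z I + q z * h z = 0 := hd.2.2
      have d1 : fderiv ℝ h z 1 = dx h z := rfl
      have d2 : fderiv ℝ h z I = dy h z := rfl
      have d3 : fderiv ℝ χ z 1 = dx χ z := rfl
      have d4 : fderiv ℝ χ z I = dy χ z := rfl
      rw [d1, d2, d3, d4]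
      set w := wt a N z
      set c := χ z
      set cx := dx χ z
      set cy := dy χ z
      set u := h z
      set ux := dx h z
      set uy := dy h z
      set uxx := fderiv ℝ (dx h) z 1
      set uyy := fderiv ℝ (dy h) z I
      set p := 1 - 2 * a * z.re with hp
      have huyy : uyy = -q z * u - uxx := by linarith
      rw [huyy]
      have hzr : |z.re| < R := by
        have h1 : ‖z‖ < R := by simpa using hz
        exact lt_of_le_of_lt (abs_re_le_norm z) h1
      have hp2 : p ^ 2 ≤ 9 / 4 := by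
        have h1 := abs_lt.1 hzr
        have h2 : 2 * a * z.re ≤ 1 / 2 := by nlinarith
        have h3 : -(1 / 2) ≤ 2 * a * z.re := by nlinarith
        rw [hp]
        nlinarith
      have hq : q z ≤ κ ^ 2 := (le_abs_self _).trans hd.2.1
      have key : 0 ≤ (1 / 2) * (c * ux + 4 * (u * cx)) ^ 2 + (1 / 2) * (c * ux - 4 * p * (N * c * u)) ^ 2
          + (18 - 8 * p ^ 2) * (N * c * u) ^ 2 + (c * uy + 2 * (u * cy)) ^ 2 + 4 * (cy * u) ^ 2
          + 2 * (κ ^ 2 - q z) * (c * u) ^ 2 := by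
        have h1 : 0 ≤ 18 - 8 * p ^ 2 := by linarith
        have h2 : 0 ≤ κ ^ 2 - q z := by linarith
        positivity
      have key2 := mul_nonneg hwp.le key
      nlinarith [key2]
    · have hz' : z ∉ tsupport χ := fun hh => hz (hχs hh)
      have hc : χ z = 0 := image_eq_zero_of_notMem_tsupport hz'
      have hev : ∀ g : ℂ → ℝ, (fun z => χ z * (χ z * (wt a N z * (h z * g z)))) =ᶠ[𝓝 z] fun _ => 0 := by
        intro g
        have h2 : (tsupport χ)ᶜ ∈ 𝓝 z := (isClosed_tsupport χ).isOpen_compl.mem_nhds hz'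
        filter_upwards [h2] with y hy
        rw [image_eq_zero_of_notMem_tsupport hy, zero_mul]
      have e1 : fderiv ℝ X1 z = 0 := by
        rw [hX1d, (hev (dx h)).fderiv_eq]
        simp
      have e2 : fderiv ℝ X2 z = 0 := by
        rw [hX2d, (hev (dy h)).fderiv_eq]
        simp
      rw [e1, e2, hc]
      simp only [ContinuousLinearMap.zero_apply]
      have : 0 ≤ wt a N z * (8 * (dx χ z ^ 2 + dy χ z ^ 2) + (18 * N ^ 2 + 2 * κ ^ 2) * 0 ^ 2) *
          h z ^ 2 := by positivity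
      linarith
  -- integrability
  have hcχ : Continuous χ := hχ.continuous
  have hcont : ∀ z ∈ ball (0 : ℂ) R, ContinuousAt h z := fun z hz => (hsol z hz).1.continuousAt
  have hwc : ∀ z, ContinuousAt (wt a N) z := fun z => (hw z).continuousAt
  have k1 : Integrable fun z => wt a N z * χ z ^ 2 * (dx h z ^ 2 + dy h z ^ 2) := by
    have := ta2_int hcχ hχc hχs
      (g := fun z => χ z * (wt a N z * (dx h z ^ 2 + dy h z ^ 2))) fun z hz =>
        hcχ.continuousAt.mul ((hwc z).mul (((hdx z hz).continuousAt.pow 2).add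
          ((hdy z hz).continuousAt.pow 2)))
    refine this.congr (Eventually.of_forall fun z => ?_)
    simp only
    ring
  have hder : ∀ v : ℂ, Continuous (fun z => fderiv ℝ χ z v) ∧
      HasCompactSupport (fun z => fderiv ℝ χ z v) ∧ tsupport (fun z => fderiv ℝ χ z v) ⊆ ball 0 R := by
    intro v
    refine ⟨(hχ.continuous_fderiv (by simp)).clm_apply continuous_const, hχc.fderiv_apply ℝ v, ?_⟩
    refine (tsupport_fderiv_apply_subset ℝ v).trans hχs
  have k2a : ∀ v : ℂ, Integrable fun z => fderiv ℝ χ z v ^ 2 * (wt a N z * h z ^ 2) := by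
    intro v
    obtain ⟨h1, h2, h3⟩ := hder v
    have := ta2_int h1 h2 h3 (g := fun z => fderiv ℝ χ z v * (wt a N z * h z ^ 2)) fun z hz =>
      h1.continuousAt.mul ((hwc z).mul ((hcont z hz).pow 2))
    refine this.congr (Eventually.of_forall fun z => ?_)
    simp only
    ring
  have k2b : Integrable fun z => χ z ^ 2 * (wt a N z * h z ^ 2) := by
    have := ta2_int hcχ hχc hχs (g := fun z => χ z * (wt a N z * h z ^ 2)) fun z hz =>
      hcχ.continuousAt.mul ((hwc z).mul ((hcont z hz).pow 2))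
    refine this.congr (Eventually.of_forall fun z => ?_)
    simp only
    ring
  have k2 : Integrable fun z => wt a N z *
      (8 * (dx χ z ^ 2 + dy χ z ^ 2) + (18 * N ^ 2 + 2 * κ ^ 2) * χ z ^ 2) * h z ^ 2 := by
    have := (((k2a 1).const_mul 8).add ((k2a I).const_mul 8)).add
      (k2b.const_mul (18 * N ^ 2 + 2 * κ ^ 2))
    refine this.congr (Eventually.of_forall fun z => ?_)
    simp only [Pi.add_apply, dx, dy]
    ring
  have k3 : Integrable fun z => 2 * (fderiv ℝ X1 z 1 + fderiv ℝ X2 z I) := (i1.add i2).const_mul 2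
  have hmono := integral_mono k1 (k3.add k2) fun z => hpt z
  have e5 : ∫ z, (2 * (fderiv ℝ X1 z 1 + fderiv ℝ X2 z I) + wt a N z *
      (8 * (dx χ z ^ 2 + dy χ z ^ 2) + (18 * N ^ 2 + 2 * κ ^ 2) * χ z ^ 2) * h z ^ 2) =
      ∫ z, wt a N z *
      (8 * (dx χ z ^ 2 + dy χ z ^ 2) + (18 * N ^ 2 + 2 * κ ^ 2) * χ z ^ 2) * h z ^ 2 := by
    have h0 : ∫ z, (fderiv ℝ X1 z 1 + fderiv ℝ X2 z I) = 0 := by
      rw [integral_add i1 i2, j1, j2, add_zero]
    rw [integral_add k3 k2, integral_const_mul, h0]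
    ring
  calc ∫ z, Real.exp (-2 * N * psi a z) * χ z ^ 2 * (dx h z ^ 2 + dy h z ^ 2)
      ≤ ∫ z, (2 * (fderiv ℝ X1 z 1 + fderiv ℝ X2 z I) + wt a N z *
      (8 * (dx χ z ^ 2 + dy χ z ^ 2) + (18 * N ^ 2 + 2 * κ ^ 2) * χ z ^ 2) * h z ^ 2) := hmono
    _ = _ := e5

theorem ta2 : A2 := fun a N κ R q h χ ha _ _ haR hχ hχc hχs hsol =>
  ta2_gen a N κ R q h χ ha.le haR hχ hχc hχs hsol

end Pool.Agent.Q73.AD
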