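import Pool.Agent.Q73.AD.Stm

/-! Project AD (helper73), job AD-5: the Laplacian in a conformal coordinate. -/

set_option autoImplicit false

open Filter Topology Complex Metric
open scoped ContDiff

namespace Pool.Agent.Q73.AD

open Pool.Agent.Q73.NL

/-- the first derivative of a composition with a holomorphic map -/
lemma ta5_first (F : ℂ → ℂ) (h : ℂ → ℝ) (z v : ℂ) (hF : DifferentiableAt ℂ F z)
    (hh : DifferentiableAt ℝ h (F z)) :
    fderiv ℝ (fun ζ => h (F ζ)) z v = fderiv ℝ h (F z) (deriv F z * v) := by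
  have h1 : HasFDerivAt F ((ContinuousLinearMap.toSpanSingleton ℂ (deriv F z)).restrictScalars ℝ) z :=
    hF.hasDerivAt.hasFDerivAt.restrictScalars ℝ
  have h2 := hh.hasFDerivAt.comp z h1
  have h3 : fderiv ℝ (fun ζ => h (F ζ)) z = _ := h2.fderiv
  rw [h3]
  simp [mul_comm]

/-- the second derivative -/
lemma ta5_second (F : ℂ → ℂ) (h : ℂ → ℝ) (z v : ℂ) (hF : AnalyticAt ℂ F z)
    (hh : ContDiffAt ℝ 2 h (F z)) :
    fderiv ℝ (fun ζ => fderiv ℝ (fun ζ => h (F ζ)) ζ v) z v =
      fderiv ℝ (fderiv ℝ h) (F z) (deriv F z * v) (deriv F z * v) +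
        fderiv ℝ h (F z) (deriv (deriv F) z * v * v) := by
  have e1 : ∀ᶠ ζ in 𝓝 z, AnalyticAt ℂ F ζ := hF.eventually_analyticAt
  have e2 : ∀ᶠ ζ in 𝓝 z, ContDiffAt ℝ 2 h (F ζ) := by
    have h0 : ∀ᶠ y in 𝓝 (F z), ContDiffAt ℝ 2 h y := hh.eventually (by simp)
    exact hF.continuousAt.eventually h0
  have e3 : (fun ζ => fderiv ℝ (fun ζ => h (F ζ)) ζ v) =ᶠ[𝓝 z]
      fun ζ => fderiv ℝ h (F ζ) (deriv F ζ * v) := by
    filter_upwards [e1, e2] with ζ h1 h2
    exact ta5_first F h ζ v h1.differentiableAt (h2.differentiableAt (by norm_num))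
  rw [e3.fderiv_eq]
  have hF1 : HasFDerivAt F
      ((ContinuousLinearMap.toSpanSingleton ℂ (deriv F z)).restrictScalars ℝ) z :=
    hF.differentiableAt.hasDerivAt.hasFDerivAt.restrictScalars ℝ
  have hF2 : HasFDerivAt (deriv F)
      ((ContinuousLinearMap.toSpanSingleton ℂ (deriv (deriv F) z)).restrictScalars ℝ) z :=
    hF.deriv.differentiableAt.hasDerivAt.hasFDerivAt.restrictScalars ℝ
  have hd : DifferentiableAt ℝ (fderiv ℝ h) (F z) := by
    have : ContDiffAt ℝ 1 (fderiv ℝ h) (F z) := hh.fderiv_right (by norm_num)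
    exact this.differentiableAt (by norm_num)
  have h1 := hd.hasFDerivAt.comp z hF1
  have h2 := hF2.mul_const v
  have h3 := (h1.clm_apply h2).fderiv
  have e4 : fderiv ℝ (fun ζ => fderiv ℝ h (F ζ) (deriv F ζ * v)) z = _ := h3
  rw [e4]
  simp only [ContinuousLinearMap.add_apply, ContinuousLinearMap.comp_apply,
    ContinuousLinearMap.flip_apply, ContinuousLinearMap.smul_apply,
    ContinuousLinearMap.coe_restrictScalars', ContinuousLinearMap.toSpanSingleton_apply,
    smul_eq_mul]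
  rw [add_comm]
  congr 2
  · rw [mul_comm v (deriv F z)]
  · ring

theorem ta5 : A5 := by
  intro F h z hF hh
  have h1 := ta5_second F h z 1 hF hh
  have h2 := ta5_second F h z I hF hh
  have e0 : lap (fun ζ => h (F ζ)) z = fderiv ℝ (fun ζ => fderiv ℝ (fun ζ => h (F ζ)) ζ 1) z 1 +
      fderiv ℝ (fun ζ => fderiv ℝ (fun ζ => h (F ζ)) ζ I) z I := rfl
  rw [e0, h1, h2]
  have hd : DifferentiableAt ℝ (fderiv ℝ h) (F z) := by
    have : ContDiffAt ℝ 1 (fderiv ℝ h) (F z) := hh.fderiv_right (by norm_num)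
    exact this.differentiableAt (by norm_num)
  have e1 : ∀ v : ℂ, fderiv ℝ (fun ζ => fderiv ℝ h ζ v) (F z) v =
      fderiv ℝ (fderiv ℝ h) (F z) v v := by
    intro v
    have h3 := (hd.hasFDerivAt.clm_apply (hasFDerivAt_const v (F z))).fderiv
    have h4 : fderiv ℝ (fun ζ => fderiv ℝ h ζ v) (F z) = _ := h3
    rw [h4]
    simp
  have e2 : lap h (F z) = fderiv ℝ (fderiv ℝ h) (F z) 1 1 + fderiv ℝ (fderiv ℝ h) (F z) I I := by
    rw [← e1, ← e1]
    rfl
  rw [e2]
  set H := fderiv ℝ (fderiv ℝ h) (F z) with hH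
  set w := deriv F z with hw
  set L := fderiv ℝ h (F z) with hL
  have e3 : deriv (deriv F) z * 1 * 1 = deriv (deriv F) z := by ring
  have e4 : deriv (deriv F) z * I * I = -deriv (deriv F) z := by
    rw [mul_assoc, I_mul_I]; ring
  rw [e3, e4, map_neg]
  have ew : w * 1 = w.re • (1 : ℂ) + w.im • I := by
    rw [mul_one, real_smul, real_smul, mul_one]
    exact (re_add_im w).symm
  have ewi : w * I = w.re • I + (-w.im) • (1 : ℂ) := by
    conv_lhs => rw [← re_add_im w]
    rw [real_smul, real_smul]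
    push_cast
    have := I_mul_I
    linear_combination (w.im : ℂ) * this
  have en : ‖w‖ ^ 2 = w.re ^ 2 + w.im ^ 2 := by
    rw [← normSq_eq_norm_sq, normSq_apply]; ring
  rw [ew, ewi, en]
  simp only [map_add, map_smul, ContinuousLinearMap.add_apply, ContinuousLinearMap.smul_apply,
    smul_eq_mul]
  ring

end Pool.Agent.Q73.AD
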