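import Pool.Agent.Q73.AD.TA2
import Pool.Agent.Q73.AD.TA5

/-! Project AD (helper73), job AD-3: local boundedness of solutions. -/

set_option autoImplicit false

open MeasureTheory Filter Topology Complex Metric Set
open scoped ContDiff

namespace Pool.Agent.Q73.AD

open Pool.Agent.Q73.NL

/-- Cauchy-Schwarz on an interval of length one -/
lemma ta3_cs (u : ℝ → ℝ) (hu : Continuous u) :
    (∫ x in (-1 : ℝ)..0, u x) ^ 2 ≤ ∫ x in (-1 : ℝ)..0, u x ^ 2 := by
  set c := ∫ x in (-1 : ℝ)..0, u x with hc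
  have h0 : 0 ≤ ∫ x in (-1 : ℝ)..0, (u x - c) ^ 2 :=
    intervalIntegral.integral_nonneg (by norm_num) fun x _ => sq_nonneg _
  have e0 : (fun x => (u x - c) ^ 2) = fun x => u x ^ 2 - 2 * c * u x + c ^ 2 := by
    funext x; ring
  have i1 : IntervalIntegrable (fun x => u x ^ 2) volume (-1) 0 := (hu.pow 2).intervalIntegrable _ _
  have i2 : IntervalIntegrable (fun x => 2 * c * u x) volume (-1) 0 :=
    (continuous_const.mul hu).intervalIntegrable _ _
  have i3 : IntervalIntegrable (fun _ : ℝ => c ^ 2) volume (-1) 0 :=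
    continuous_const.intervalIntegrable _ _
  rw [e0, intervalIntegral.integral_add (i1.sub i2) i3, intervalIntegral.integral_sub i1 i2,
    intervalIntegral.integral_const_mul, intervalIntegral.integral_const, ← hc] at h0
  simp only [sub_neg_eq_add, zero_add, one_smul] at h0
  nlinarith

lemma ta3_hx {f : ℂ → ℝ} (hf : Differentiable ℝ f) (x y : ℝ) :
    HasDerivAt (fun t : ℝ => f ⟨t, y⟩) (dx f ⟨x, y⟩) x := by
  have h1 : HasDerivAt (fun t : ℝ => (⟨t, y⟩ : ℂ)) 1 x := by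
    have h2 : HasDerivAt (fun t : ℝ => (t : ℂ) + y * I) 1 x :=
      (Complex.ofRealCLM.hasDerivAt (x := x)).add_const _
    refine h2.congr_of_eventuallyEq (Eventually.of_forall fun t => ?_)
    simp only
    exact (Complex.mk_eq_add_mul_I t y)
  exact (hf _).hasFDerivAt.comp_hasDerivAt x h1

lemma ta3_hy {f : ℂ → ℝ} (hf : Differentiable ℝ f) (x y : ℝ) :
    HasDerivAt (fun t : ℝ => f ⟨x, t⟩) (dy f ⟨x, y⟩) y := by
  have h1 : HasDerivAt (fun t : ℝ => (⟨x, t⟩ : ℂ)) I y := by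
    have h2 : HasDerivAt (fun t : ℝ => (x : ℂ) + t * I) (1 * I) y :=
      ((Complex.ofRealCLM.hasDerivAt (x := y)).mul_const I).const_add _
    rw [one_mul] at h2
    refine h2.congr_of_eventuallyEq (Eventually.of_forall fun t => ?_)
    simp only
    exact (Complex.mk_eq_add_mul_I x t)
  exact (hf _).hasFDerivAt.comp_hasDerivAt y h1

lemma ta3_dx {f : ℂ → ℝ} (hf : ContDiff ℝ ∞ f) : ContDiff ℝ ∞ (dx f) :=
  (hf.fderiv_right (m := ∞) (by simp)).clm_apply contDiff_const

lemma ta3_dy {f : ℂ → ℝ} (hf : ContDiff ℝ ∞ f) : ContDiff ℝ ∞ (dy f) :=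
  (hf.fderiv_right (m := ∞) (by simp)).clm_apply contDiff_const

lemma ta3_off {f : ℂ → ℝ} {z : ℂ} (hz : z ∉ tsupport f) (v : ℂ) : fderiv ℝ f z v = 0 := by
  have h1 : f =ᶠ[𝓝 z] fun _ => 0 := by
    have h2 : (tsupport f)ᶜ ∈ 𝓝 z := (isClosed_tsupport f).isOpen_compl.mem_nhds hz
    filter_upwards [h2] with y hy
    exact image_eq_zero_of_notMem_tsupport hy
  rw [h1.fderiv_eq]
  simp

lemma ta3_sqc {f : ℂ → ℝ} (h : HasCompactSupport f) : HasCompactSupport fun z => f z ^ 2 := by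
  have h1 : HasCompactSupport fun z => f z * f z := h.mul_right
  have e : (fun z => f z ^ 2) = fun z => f z * f z := by funext z; ring
  rw [e]
  exact h1

lemma ta3_mk_cont (g : ℂ → ℝ) (hg : Continuous g) :
    Continuous fun p : ℝ × ℝ => g ⟨p.1, p.2⟩ := by
  refine hg.comp ?_
  exact Complex.equivRealProdCLM.symm.continuous

/-- the value at the origin and the mixed derivative -/
lemma ta3_sob (f : ℂ → ℝ) (hf : ContDiff ℝ ∞ f) (hc : HasCompactSupport f)
    (hs : tsupport f ⊆ ball 0 1) : f 0 ^ 2 ≤ ∫ z, dy (dx f) z ^ 2 := by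
  set g := dy (dx f) with hg
  have hfx := ta3_dx hf
  have hgs : ContDiff ℝ ∞ g := ta3_dy hfx
  have hgc : HasCompactSupport g := (hc.fderiv_apply ℝ 1).fderiv_apply ℝ I
  have hG : Continuous fun p : ℝ × ℝ => g ⟨p.1, p.2⟩ := ta3_mk_cont g hgs.continuous
  have hF : Continuous fun p : ℝ × ℝ => dx f ⟨p.1, p.2⟩ := ta3_mk_cont _ hfx.continuous
  have hout : ∀ z : ℂ, 1 ≤ ‖z‖ → z ∉ tsupport f := by
    intro z hz hz'
    have := hs hz'
    rw [mem_ball, dist_zero_right] at this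
    linarith
  -- first integral
  have h1 : f 0 = ∫ x in (-1 : ℝ)..0, dx f ⟨x, 0⟩ := by
    rw [intervalIntegral.integral_eq_sub_of_hasDerivAt (f := fun t : ℝ => f ⟨t, 0⟩)
      (fun x _ => ta3_hx (hf.differentiable (by simp)) x 0)
      ((hF.comp (Continuous.prodMk continuous_id continuous_const)).intervalIntegrable _ _)]
    have e1 : f ⟨-1, 0⟩ = 0 := by
      refine image_eq_zero_of_notMem_tsupport (hout _ ?_)
      have := abs_re_le_norm (⟨-1, 0⟩ : ℂ)
      simpa using this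
    rw [e1, sub_zero]
    rfl
  have h2 : ∀ x : ℝ, dx f ⟨x, 0⟩ = ∫ y in (-1 : ℝ)..0, g ⟨x, y⟩ := by
    intro x
    rw [intervalIntegral.integral_eq_sub_of_hasDerivAt (f := fun t : ℝ => dx f ⟨x, t⟩)
      (fun y _ => ta3_hy (hfx.differentiable (by simp)) x y)
      ((hG.comp (Continuous.prodMk continuous_const continuous_id)).intervalIntegrable _ _)]
    have e1 : dx f ⟨x, -1⟩ = 0 := by
      refine ta3_off (hout _ ?_) 1
      have := abs_im_le_norm (⟨x, -1⟩ : ℂ)
      simpa using this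
    rw [e1, sub_zero]
  have h3 : f 0 ^ 2 ≤ ∫ x in (-1 : ℝ)..0, dx f ⟨x, 0⟩ ^ 2 := by
    rw [h1]
    exact ta3_cs _ (hF.comp (Continuous.prodMk continuous_id continuous_const))
  have h4 : ∀ x : ℝ, dx f ⟨x, 0⟩ ^ 2 ≤ ∫ y in (-1 : ℝ)..0, g ⟨x, y⟩ ^ 2 := by
    intro x
    rw [h2 x]
    exact ta3_cs _ (hG.comp (Continuous.prodMk continuous_const continuous_id))
  have hGc2 : Integrable (fun z : ℂ => g z ^ 2) := by
    refine (hgs.continuous.pow 2).integrable_of_hasCompactSupport ?_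
    exact ta3_sqc hgc
  have hmp := Complex.volume_preserving_equiv_real_prod.symm
  have hGi : Integrable (fun p : ℝ × ℝ => g ⟨p.1, p.2⟩ ^ 2) := by
    have := (hmp.integrable_comp_emb (MeasurableEquiv.measurableEmbedding _)
      (g := fun z : ℂ => g z ^ 2)).2 hGc2
    exact this
  have hGint : ∫ z, g z ^ 2 = ∫ p : ℝ × ℝ, g ⟨p.1, p.2⟩ ^ 2 := by
    have := hmp.integral_comp (MeasurableEquiv.measurableEmbedding _) (fun z : ℂ => g z ^ 2)
    exact this.symm
  rw [hGint]
  set Q : Set (ℝ × ℝ) := Ioc (-1 : ℝ) 0 ×ˢ Ioc (-1 : ℝ) 0 with hQ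
  have h5 : ∫ p in Q, g ⟨p.1, p.2⟩ ^ 2 ≤ ∫ p : ℝ × ℝ, g ⟨p.1, p.2⟩ ^ 2 :=
    setIntegral_le_integral hGi (Eventually.of_forall fun p => sq_nonneg _)
  refine le_trans ?_ h5
  have h6 : ∫ p in Q, g ⟨p.1, p.2⟩ ^ 2 =
      ∫ x in Ioc (-1 : ℝ) 0, ∫ y in Ioc (-1 : ℝ) 0, g ⟨x, y⟩ ^ 2 :=
    setIntegral_prod (fun p : ℝ × ℝ => g ⟨p.1, p.2⟩ ^ 2) hGi.integrableOn
  rw [h6]
  refine h3.trans ?_
  rw [intervalIntegral.integral_of_le (by norm_num)]
  refine integral_mono ?_ ?_ fun x => ?_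
  · have := ((hF.comp (Continuous.prodMk continuous_id continuous_const)).pow 2 :
      Continuous fun x : ℝ => dx f ⟨x, 0⟩ ^ 2)
    exact (this.intervalIntegrable (-1) 0).1
  · have h7 : Integrable (fun p : ℝ × ℝ => g ⟨p.1, p.2⟩ ^ 2)
        ((volume.restrict (Ioc (-1 : ℝ) 0)).prod (volume.restrict (Ioc (-1 : ℝ) 0))) := by
      rw [Measure.prod_restrict]
      exact hGi.integrableOn
    exact h7.integral_prod_left
  · simp only
    have := h4 x
    rw [intervalIntegral.integral_of_le (by norm_num)] at this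
    exact this

/-- symmetry of the second derivatives -/
lemma ta3_symm {f : ℂ → ℝ} (hf : ContDiff ℝ ∞ f) (z : ℂ) : dx (dy f) z = dy (dx f) z := by
  have hd : DifferentiableAt ℝ (fderiv ℝ f) z :=
    (hf.fderiv_right (m := ∞) (by simp)).differentiable (by simp) z
  have e1 : ∀ v w : ℂ, fderiv ℝ (fun ζ => fderiv ℝ f ζ v) z w = fderiv ℝ (fderiv ℝ f) z w v := by
    intro v w
    have h3 := (hd.hasFDerivAt.clm_apply (hasFDerivAt_const v z)).fderiv
    have h4 : fderiv ℝ (fun ζ => fderiv ℝ f ζ v) z = _ := h3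
    rw [h4]
    simp
  have hsym : IsSymmSndFDerivAt ℝ f z := hf.contDiffAt.isSymmSndFDerivAt
    (by rw [minSmoothness_of_isRCLikeNormedField]; exact WithTop.coe_le_coe.2 le_top)
  have e2 : dx (dy f) z = fderiv ℝ (fderiv ℝ f) z 1 I := e1 I 1
  have e3 : dy (dx f) z = fderiv ℝ (fderiv ℝ f) z I 1 := e1 1 I
  rw [e2, e3]
  exact hsym 1 I

lemma ta3_mulder {f g : ℂ → ℝ} (hf : ContDiff ℝ ∞ f) (hg : ContDiff ℝ ∞ g) (z v : ℂ) :
    fderiv ℝ (fun z => f z * g z) z v = fderiv ℝ f z v * g z + f z * fderiv ℝ g z v := by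
  have h1 := ((hf.differentiable (by simp) z).hasFDerivAt.mul
    (hg.differentiable (by simp) z).hasFDerivAt).fderiv
  have h2 : fderiv ℝ (fun z => f z * g z) z = _ := h1
  rw [h2]
  simp only [add_apply, smul_apply, smul_eq_mul]
  ring

/-- the mixed derivative and the Laplacian -/
lemma ta3_hess (f : ℂ → ℝ) (hf : ContDiff ℝ ∞ f) (hc : HasCompactSupport f) :
    4 * ∫ z, dy (dx f) z ^ 2 ≤ ∫ z, lap f z ^ 2 := by
  have hfx := ta3_dx hf
  have hfy := ta3_dy hf
  have hxx := ta3_dx hfx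
  have hxy := ta3_dy hfx
  have hyy := ta3_dy hfy
  have hxyy := ta3_dy hxy
  have hcx : HasCompactSupport (dx f) := hc.fderiv_apply ℝ 1
  have hX1 : ContDiff ℝ 1 fun z => dx f z * dy (dx f) z := (hfx.mul hxy).of_le (by simp)
  have hY1 : ContDiff ℝ 1 fun z => dx f z * dy (dy f) z := (hfx.mul hyy).of_le (by simp)
  obtain ⟨-, j1⟩ := int_der hX1 hcx.mul_right I
  obtain ⟨-, j2⟩ := int_der hY1 hcx.mul_right 1
  have s1 : ∀ z, dy (dy (dx f)) z = dx (dy (dy f)) z := by
    intro z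
    have e : dy (dx f) = dx (dy f) := by funext w; exact (ta3_symm hf w).symm
    rw [e]
    exact (ta3_symm hfy z).symm
  have e1 : ∀ z, fderiv ℝ (fun z => dx f z * dy (dx f) z) z I =
      dy (dx f) z ^ 2 + dx f z * dy (dy (dx f)) z := by
    intro z
    rw [ta3_mulder hfx hxy]
    have d1 : fderiv ℝ (dx f) z I = dy (dx f) z := rfl
    have d2 : fderiv ℝ (dy (dx f)) z I = dy (dy (dx f)) z := rfl
    rw [d1, d2]
    ring
  have e2 : ∀ z, fderiv ℝ (fun z => dx f z * dy (dy f) z) z 1 =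
      dx (dx f) z * dy (dy f) z + dx f z * dy (dy (dx f)) z := by
    intro z
    rw [ta3_mulder hfx hyy]
    have d1 : fderiv ℝ (dx f) z 1 = dx (dx f) z := rfl
    have d2 : fderiv ℝ (dy (dy f)) z 1 = dx (dy (dy f)) z := rfl
    rw [d1, d2, s1]
  simp_rw [e1] at j1
  simp_rw [e2] at j2
  have i1 : Integrable fun z => dy (dx f) z ^ 2 := by
    refine (hxy.continuous.pow 2).integrable_of_hasCompactSupport ?_
    exact ta3_sqc (f := dy (dx f)) (hcx.fderiv_apply ℝ I)
  have i2 : Integrable fun z => dx f z * dy (dy (dx f)) z :=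
    (hfx.continuous.mul hxyy.continuous).integrable_of_hasCompactSupport hcx.mul_right
  have i3 : Integrable fun z => dx (dx f) z * dy (dy f) z :=
    (hxx.continuous.mul hyy.continuous).integrable_of_hasCompactSupport
      (hcx.fderiv_apply ℝ 1).mul_right
  rw [integral_add i1 i2] at j1
  rw [integral_add i3 i2] at j2
  have e3 : ∫ z, dy (dx f) z ^ 2 = ∫ z, dx (dx f) z * dy (dy f) z := by linarith
  rw [e3, ← integral_const_mul]
  have i4 : Integrable fun z => lap f z ^ 2 := by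
    have hl : Continuous (lap f) := hxx.continuous.add hyy.continuous
    refine (hl.pow 2).integrable_of_hasCompactSupport ?_
    have hlc : HasCompactSupport (lap f) :=
      (hcx.fderiv_apply ℝ 1).add ((hc.fderiv_apply ℝ I).fderiv_apply ℝ I)
    exact ta3_sqc hlc
  refine integral_mono (i3.const_mul 4) i4 fun z => ?_
  simp only [lap]
  nlinarith [sq_nonneg (dx (dx f) z - dy (dy f) z)]

/-- the Laplacian of a product -/
lemma ta3_lapmul {f g : ℂ → ℝ} {z : ℂ} (hf : ContDiff ℝ ∞ f) (hg : ContDiffAt ℝ ∞ g z) :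
    lap (fun z => f z * g z) z = lap f z * g z + 2 * (dx f z * dx g z + dy f z * dy g z) +
      f z * lap g z := by
  have hev : ∀ᶠ w in 𝓝 z, ContDiffAt ℝ 2 g w :=
    (hg.of_le (WithTop.coe_le_coe.2 le_top)).eventually (by simp)
  have hsec : ∀ v : ℂ, fderiv ℝ (fun w => fderiv ℝ (fun z => f z * g z) w v) z v =
      fderiv ℝ (fun w => fderiv ℝ f w v) z v * g z + 2 * (fderiv ℝ f z v * fderiv ℝ g z v) +
        f z * fderiv ℝ (fun w => fderiv ℝ g w v) z v := by
    intro v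
    have e1 : (fun w => fderiv ℝ (fun z => f z * g z) w v) =ᶠ[𝓝 z]
        fun w => fderiv ℝ f w v * g w + f w * fderiv ℝ g w v := by
      filter_upwards [hev] with w hw
      have h1 := ((hf.differentiable (by simp) w).hasFDerivAt.mul
        (hw.differentiableAt (by norm_num)).hasFDerivAt).fderiv
      have h2 : fderiv ℝ (fun z => f z * g z) w = _ := h1
      rw [h2]
      simp only [add_apply, smul_apply, smul_eq_mul]
      ring
    rw [e1.fderiv_eq]
    have hfv : DifferentiableAt ℝ (fun w => fderiv ℝ f w v) z :=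
      ((hf.fderiv_right (m := ∞) (by simp)).clm_apply contDiff_const).differentiable (by simp) z
    have hgv : DifferentiableAt ℝ (fun w => fderiv ℝ g w v) z :=
      ((hg.fderiv_right (m := ∞) (by simp)).clm_apply contDiffAt_const).differentiableAt (by simp)
    have h3 := (hfv.hasFDerivAt.mul (hg.differentiableAt (by simp)).hasFDerivAt).add
      ((hf.differentiable (by simp) z).hasFDerivAt.mul hgv.hasFDerivAt)
    have h4 : fderiv ℝ (fun w => fderiv ℝ f w v * g w + f w * fderiv ℝ g w v) z = _ := h3.fderiv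
    rw [h4]
    simp only [add_apply, smul_apply, smul_eq_mul]
    ring
  have h1 := hsec 1
  have h2 := hsec I
  simp only [lap]
  have e1 : dx (dx fun z => f z * g z) z = _ := h1
  have e2 : dy (dy fun z => f z * g z) z = _ := h2
  rw [e1, e2]
  have d1 : fderiv ℝ (fun w => fderiv ℝ f w 1) z 1 = dx (dx f) z := rfl
  have d2 : fderiv ℝ (fun w => fderiv ℝ f w I) z I = dy (dy f) z := rfl
  have d3 : fderiv ℝ (fun w => fderiv ℝ g w 1) z 1 = dx (dx g) z := rfl
  have d4 : fderiv ℝ (fun w => fderiv ℝ g w I) z I = dy (dy g) z := rfl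
  have d5 : fderiv ℝ f z 1 = dx f z := rfl
  have d6 : fderiv ℝ f z I = dy f z := rfl
  have d7 : fderiv ℝ g z 1 = dx g z := rfl
  have d8 : fderiv ℝ g z I = dy g z := rfl
  rw [d1, d2, d3, d4, d5, d6, d7, d8]
  ring

lemma ta3_unit : ∃ C : ℝ, 0 < C ∧ ∀ (κ : ℝ) (q h : ℂ → ℝ),
    (∀ z ∈ closedBall (0 : ℂ) 1, ContDiffAt ℝ ∞ h z ∧ |q z| ≤ κ ^ 2 ∧ lap h z + q z * h z = 0) →
    h 0 ^ 2 ≤ C * (1 + κ ^ 2) ^ 2 * ∫ z in ball 0 1, h z ^ 2 := by
  let b : ContDiffBump (0 : ℂ) := ⟨1 / 4, 1 / 2, by norm_num, by norm_num⟩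
  obtain ⟨η, hη, hηc, hηs, hη0, hη1⟩ : ∃ η : ℂ → ℝ, ContDiff ℝ ∞ η ∧ HasCompactSupport η ∧
      tsupport η ⊆ ball 0 1 ∧ η 0 = 1 ∧ ∀ z, 0 ≤ η z ∧ η z ≤ 1 := by
    refine ⟨b, b.contDiff, b.hasCompactSupport, ?_, ?_, fun z => ⟨b.nonneg, b.le_one⟩⟩
    · rw [b.tsupport_eq]
      exact closedBall_subset_ball (by norm_num)
    · exact b.one_of_mem_closedBall (mem_closedBall_self b.rIn_pos.le)
  obtain ⟨B, hB⟩ : ∃ B : ℝ, ∀ z, dx η z ^ 2 + dy η z ^ 2 ≤ B := by
    have h1 : Continuous fun z => dx η z ^ 2 + dy η z ^ 2 :=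
      ((ta3_dx hη).continuous.pow 2).add ((ta3_dy hη).continuous.pow 2)
    have h2 : HasCompactSupport fun z => dx η z ^ 2 + dy η z ^ 2 :=
      (ta3_sqc (f := dx η) (hηc.fderiv_apply ℝ 1)).add
        (ta3_sqc (f := dy η) (hηc.fderiv_apply ℝ I))
    obtain ⟨B, hB⟩ := h1.bounded_above_of_compact_support h2
    exact ⟨B, fun z => (le_abs_self _).trans (hB z)⟩
  have hB0 : 0 ≤ B := (add_nonneg (sq_nonneg _) (sq_nonneg _)).trans (hB 0)
  set ζ : ℂ → ℝ := fun z => η z * η z with hζd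
  have hζ : ContDiff ℝ ∞ ζ := hη.mul hη
  have hζc : HasCompactSupport ζ := hηc.mul_right
  have hζs : tsupport ζ ⊆ ball 0 1 := (tsupport_mul_subset_left).trans hηs
  obtain ⟨D, hD⟩ : ∃ D : ℝ, ∀ z, lap ζ z ^ 2 ≤ D := by
    have h1 : Continuous fun z => lap ζ z ^ 2 :=
      ((ta3_dx (ta3_dx hζ)).continuous.add (ta3_dy (ta3_dy hζ)).continuous).pow 2
    have h2 : HasCompactSupport fun z => lap ζ z ^ 2 := by
      refine ta3_sqc ?_
      exact ((hζc.fderiv_apply ℝ 1).fderiv_apply ℝ 1).add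
        ((hζc.fderiv_apply ℝ I).fderiv_apply ℝ I)
    obtain ⟨B, hB⟩ := h1.bounded_above_of_compact_support h2
    exact ⟨B, fun z => (le_abs_self _).trans (hB z)⟩
  have hD0 : 0 ≤ D := (sq_nonneg _).trans (hD 0)
  refine ⟨3 * D + 3 + 384 * B ^ 2 + 96 * B, by positivity, ?_⟩
  intro κ q h hsol
  have hsol' : ∀ z ∈ ball (0 : ℂ) 1, ContDiffAt ℝ ∞ h z ∧ |q z| ≤ κ ^ 2 ∧
      lap h z + q z * h z = 0 := fun z hz => hsol z (ball_subset_closedBall hz)
  have hdx : ∀ z ∈ ball (0 : ℂ) 1, ContDiffAt ℝ ∞ (dx h) z := fun z hz =>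
    ((hsol' z hz).1.fderiv_right (m := ∞) (by simp)).clm_apply contDiffAt_const
  have hdy : ∀ z ∈ ball (0 : ℂ) 1, ContDiffAt ℝ ∞ (dy h) z := fun z hz =>
    ((hsol' z hz).1.fderiv_right (m := ∞) (by simp)).clm_apply contDiffAt_const
  set f : ℂ → ℝ := fun z => ζ z * h z with hfd
  have hf : ContDiff ℝ ∞ f := ta2_cd hζ hζs fun z hz => (hsol' z hz).1
  have hfc : HasCompactSupport f := hζc.mul_right
  have hfs : tsupport f ⊆ ball 0 1 := (tsupport_mul_subset_left).trans hζs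
  have k1 := ta3_sob f hf hfc hfs
  have k2 := ta3_hess f hf hfc
  have hf0 : f 0 = h 0 := by simp [hfd, hζd, hη0]
  rw [hf0] at k1
  -- integrability
  have iS : IntegrableOn (fun z => h z ^ 2) (ball 0 1) := by
    have h1 : ContinuousOn (fun z => h z ^ 2) (closedBall (0 : ℂ) 1) := fun z hz =>
      ((hsol z hz).1.continuousAt.pow 2).continuousWithinAt
    exact (h1.integrableOn_compact (isCompact_closedBall _ _)).mono_set ball_subset_closedBall
  set S := ∫ z in ball (0 : ℂ) 1, h z ^ 2 with hS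
  have hS0 : 0 ≤ S := integral_nonneg fun z => sq_nonneg _
  have iG : Integrable fun z => η z ^ 2 * (dx h z ^ 2 + dy h z ^ 2) := by
    have := ta2_int hη.continuous hηc hηs
      (g := fun z => η z * (dx h z ^ 2 + dy h z ^ 2)) fun z hz =>
        hη.continuous.continuousAt.mul (((hdx z hz).continuousAt.pow 2).add
          ((hdy z hz).continuousAt.pow 2))
    refine this.congr (Eventually.of_forall fun z => ?_)
    simp only
    ring
  have iI : ∀ c : ℝ, Integrable ((ball (0 : ℂ) 1).indicator fun z => c * h z ^ 2) := fun c =>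
    (integrable_indicator_iff measurableSet_ball).2 (iS.const_mul c)
  have eI : ∀ c : ℝ, ∫ z, (ball (0 : ℂ) 1).indicator (fun z => c * h z ^ 2) z = c * S := by
    intro c
    rw [integral_indicator measurableSet_ball, integral_const_mul]
  -- Caccioppoli
  have hcacc : ∫ z, η z ^ 2 * (dx h z ^ 2 + dy h z ^ 2) ≤ (8 * B + 2 * κ ^ 2) * S := by
    have h1 := ta2_gen 0 0 κ 1 q h η le_rfl (by norm_num) hη hηc hηs hsol'
    simp only [mul_zero, zero_mul, Real.exp_zero, one_mul, ne_eq, OfNat.ofNat_ne_zero,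
      not_false_eq_true, zero_pow, zero_add] at h1
    refine h1.trans ?_
    rw [← eI]
    refine integral_mono_of_nonneg (Eventually.of_forall fun z => ?_) (iI _)
      (Eventually.of_forall fun z => ?_)
    · simp only [Pi.zero_apply]
      positivity
    · simp only
      by_cases hz : z ∈ ball (0 : ℂ) 1
      · rw [indicator_of_mem hz]
        have h2 := hB z
        have h3 := hη1 z
        have h4 : η z ^ 2 ≤ 1 := by nlinarith
        have h5 : 0 ≤ κ ^ 2 := sq_nonneg _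
        gcongr ?_ * h z ^ 2
        nlinarith
      · have hz' : z ∉ tsupport η := fun hh => hz (hηs hh)
        have e1 : η z = 0 := image_eq_zero_of_notMem_tsupport hz'
        have e2 : dx η z = 0 := ta3_off hz' 1
        have e3 : dy η z = 0 := ta3_off hz' I
        rw [indicator_of_notMem hz, e1, e2, e3]
        simp
  -- the Laplacian
  have hlap : ∫ z, lap f z ^ 2 ≤ 3 * (D + κ ^ 4) * S + 48 * B * ((8 * B + 2 * κ ^ 2) * S) := by
    have h1 : ∫ z, lap f z ^ 2 ≤ ∫ z, ((ball (0 : ℂ) 1).indicator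
        (fun z => 3 * (D + κ ^ 4) * h z ^ 2) z +
        48 * B * (η z ^ 2 * (dx h z ^ 2 + dy h z ^ 2))) := by
      refine integral_mono_of_nonneg (Eventually.of_forall fun z => sq_nonneg _)
        ((iI _).add (iG.const_mul (48 * B))) (Eventually.of_forall fun z => ?_)
      simp only
      by_cases hz : z ∈ ball (0 : ℂ) 1
      · rw [indicator_of_mem hz]
        have hd := hsol' z hz
        have e1 : lap f z = _ := ta3_lapmul hζ hd.1
        rw [e1]
        have e2 : dx ζ z = 2 * (η z * dx η z) := by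
          have h2 := ta3_mulder hη hη z 1
          have h3 : dx ζ z = _ := h2
          rw [h3]
          simp only [dx]
          ring
        have e3 : dy ζ z = 2 * (η z * dy η z) := by
          have h2 := ta3_mulder hη hη z I
          have h3 : dy ζ z = _ := h2
          rw [h3]
          simp only [dy]
          ring
        have e4 : lap h z = -(q z * h z) := by linarith [hd.2.2]
        rw [e2, e3, e4]
        have e5 : ζ z = η z ^ 2 := by simp only [hζd]; ring
        rw [e5]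
        have hη' := hη1 z
        have hB' := hB z
        have hD' := hD z
        have hq := hd.2.1
        have hq2 : q z ^ 2 ≤ κ ^ 4 := by
          have h4 : |q z| ^ 2 ≤ (κ ^ 2) ^ 2 := by
            have := abs_nonneg (q z)
            gcongr
          rw [sq_abs] at h4
          calc q z ^ 2 ≤ (κ ^ 2) ^ 2 := h4
            _ = κ ^ 4 := by ring
        set A1 := lap ζ z * h z with hA1
        set A2 := 2 * (2 * (η z * dx η z) * dx h z + 2 * (η z * dy η z) * dy h z) with hA2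
        set A3 := η z ^ 2 * -(q z * h z) with hA3
        have t0 : (A1 + A2 + A3) ^ 2 ≤ 3 * (A1 ^ 2 + A2 ^ 2 + A3 ^ 2) := by
          nlinarith [sq_nonneg (A1 - A2), sq_nonneg (A2 - A3), sq_nonneg (A1 - A3)]
        have t1 : A1 ^ 2 ≤ D * h z ^ 2 := by
          rw [hA1, mul_pow]
          gcongr
        have t2 : A2 ^ 2 ≤ 16 * B * (η z ^ 2 * (dx h z ^ 2 + dy h z ^ 2)) := by
          have e6 : A2 ^ 2 = 16 * η z ^ 2 * (dx η z * dx h z + dy η z * dy h z) ^ 2 := by
            rw [hA2]; ring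
          rw [e6]
          have h5 : (dx η z * dx h z + dy η z * dy h z) ^ 2 ≤
              (dx η z ^ 2 + dy η z ^ 2) * (dx h z ^ 2 + dy h z ^ 2) := by
            nlinarith [sq_nonneg (dx η z * dy h z - dy η z * dx h z)]
          calc 16 * η z ^ 2 * (dx η z * dx h z + dy η z * dy h z) ^ 2
              ≤ 16 * η z ^ 2 * ((dx η z ^ 2 + dy η z ^ 2) * (dx h z ^ 2 + dy h z ^ 2)) := by
                gcongr
            _ ≤ 16 * η z ^ 2 * (B * (dx h z ^ 2 + dy h z ^ 2)) := by gcongr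
            _ = _ := by ring
        have t3 : A3 ^ 2 ≤ κ ^ 4 * h z ^ 2 := by
          have e6 : A3 ^ 2 = (η z ^ 2) ^ 2 * (q z ^ 2 * h z ^ 2) := by rw [hA3]; ring
          rw [e6]
          have h5 : (η z ^ 2) ^ 2 ≤ 1 := by
            have h6 : η z ^ 2 ≤ 1 := by nlinarith
            have h7 : 0 ≤ η z ^ 2 := sq_nonneg _
            nlinarith
          calc (η z ^ 2) ^ 2 * (q z ^ 2 * h z ^ 2) ≤ 1 * (κ ^ 4 * h z ^ 2) := by gcongr
            _ = _ := one_mul _
        nlinarith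
      · have hz' : z ∉ tsupport f := fun hh => hz (hfs hh)
        have e1 : lap f z = 0 := by
          have h2 : z ∉ tsupport (dx f) := fun hh => hz' (tsupport_fderiv_apply_subset ℝ 1 hh)
          have h3 : z ∉ tsupport (dy f) := fun hh => hz' (tsupport_fderiv_apply_subset ℝ I hh)
          have h4 : dx (dx f) z = 0 := ta3_off h2 1
          have h5 : dy (dy f) z = 0 := ta3_off h3 I
          simp only [lap]
          rw [h4, h5, add_zero]
        rw [e1, indicator_of_notMem hz]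
        have : 0 ≤ 48 * B * (η z ^ 2 * (dx h z ^ 2 + dy h z ^ 2)) := by positivity
        nlinarith
    rw [integral_add (iI _) (iG.const_mul _), eI, integral_const_mul] at h1
    refine h1.trans ?_
    gcongr
  have hfin : 4 * h 0 ^ 2 ≤ 3 * (D + κ ^ 4) * S + 48 * B * ((8 * B + 2 * κ ^ 2) * S) := by
    linarith
  have hcoef : 3 * (D + κ ^ 4) + 48 * B * (8 * B + 2 * κ ^ 2) ≤
      (3 * D + 3 + 384 * B ^ 2 + 96 * B) * (1 + κ ^ 2) ^ 2 := by
    have e : (3 * D + 3 + 384 * B ^ 2 + 96 * B) * (1 + κ ^ 2) ^ 2 -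
        (3 * (D + κ ^ 4) + 48 * B * (8 * B + 2 * κ ^ 2)) =
        3 * D * (2 * κ ^ 2 + (κ ^ 2) ^ 2) + 3 * (1 + 2 * κ ^ 2) +
        384 * B ^ 2 * (2 * κ ^ 2 + (κ ^ 2) ^ 2) + 96 * B * (1 + κ ^ 2 + (κ ^ 2) ^ 2) := by ring
    have : 0 ≤ 3 * D * (2 * κ ^ 2 + (κ ^ 2) ^ 2) + 3 * (1 + 2 * κ ^ 2) +
        384 * B ^ 2 * (2 * κ ^ 2 + (κ ^ 2) ^ 2) + 96 * B * (1 + κ ^ 2 + (κ ^ 2) ^ 2) := by
      positivity
    linarith
  have hcS := mul_le_mul_of_nonneg_right hcoef hS0
  have h0 := sq_nonneg (h 0)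
  calc h 0 ^ 2 ≤ 4 * h 0 ^ 2 := by linarith
    _ ≤ (3 * (D + κ ^ 4) + 48 * B * (8 * B + 2 * κ ^ 2)) * S := by
      refine hfin.trans (le_of_eq ?_)
      ring
    _ ≤ _ := hcS

theorem ta3 : A3 := by
  obtain ⟨C, hC, hu⟩ := ta3_unit
  refine ⟨C, hC, ?_⟩
  intro z₀ r κ q h hr hsol
  set F : ℂ → ℂ := fun ζ => z₀ + (r : ℂ) * ζ with hF
  have hFd : ∀ ζ, HasDerivAt F (r : ℂ) ζ := by
    intro ζ
    have := ((hasDerivAt_id ζ).const_mul (r : ℂ)).const_add z₀
    rw [mul_one] at this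
    exact this
  have hFa : ∀ ζ, AnalyticAt ℂ F ζ := fun ζ =>
    (analyticAt_const).add (analyticAt_const.mul analyticAt_id)
  have hmem : ∀ ζ ∈ closedBall (0 : ℂ) 1, F ζ ∈ closedBall z₀ r := by
    intro ζ hζ
    rw [mem_closedBall, dist_zero_right] at hζ
    rw [mem_closedBall, dist_eq_norm]
    have e : F ζ - z₀ = (r : ℂ) * ζ := by simp only [hF]; ring
    rw [e, norm_mul, Complex.norm_real, Real.norm_of_nonneg hr.le]
    nlinarith
  have hFs : ContDiff ℝ ∞ F := contDiff_const.add (contDiff_const.mul contDiff_id)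
  have h1 := hu (κ * r) (fun ζ => r ^ 2 * q (F ζ)) (fun ζ => h (F ζ)) ?_
  · have e0 : F 0 = z₀ := by simp [hF]
    simp only [e0] at h1
    refine h1.trans (le_of_eq ?_)
    have e1 : ∫ z in ball (0 : ℂ) 1, h (F z) ^ 2 = (r ^ 2)⁻¹ * ∫ z in ball z₀ r, h z ^ 2 := by
      have h2 := Measure.setIntegral_comp_smul_of_pos (volume : Measure ℂ)
        (fun w : ℂ => h (z₀ + w) ^ 2) (ball (0 : ℂ) 1) hr
      rw [smul_unitBall_of_pos hr, Complex.finrank_real_complex, smul_eq_mul] at h2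
      have e2 : (∫ z in ball (0 : ℂ) 1, h (F z) ^ 2) =
          ∫ x in ball (0 : ℂ) 1, (fun w : ℂ => h (z₀ + w) ^ 2) (r • x) := by
        refine setIntegral_congr_fun measurableSet_ball fun x _ => ?_
        simp only [hF, real_smul]
      rw [e2, h2]
      congr 1
      have h3 := (measurePreserving_add_left (volume : Measure ℂ) z₀).setIntegral_preimage_emb
        (measurableEmbedding_addLeft z₀) (fun w => h w ^ 2) (ball z₀ r)
      rw [← h3]
      congr 1
      congr 1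
      ext x
      simp [dist_eq_norm]
    rw [e1]
    have e3 : (κ * r) ^ 2 = κ ^ 2 * r ^ 2 := by ring
    rw [e3]
    ring
  · intro ζ hζ
    obtain ⟨g1, g2, g3⟩ := hsol _ (hmem ζ hζ)
    refine ⟨g1.comp ζ hFs.contDiffAt, ?_, ?_⟩
    · rw [abs_mul, abs_of_nonneg (by positivity : 0 ≤ r ^ 2), mul_pow]
      nlinarith [sq_nonneg r]
    · have e1 := ta5 F h ζ (hFa ζ) (g1.of_le (WithTop.coe_le_coe.2 le_top))
      rw [e1, (hFd ζ).deriv, Complex.norm_real, Real.norm_of_nonneg hr.le]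
      have : r ^ 2 * lap h (F ζ) + r ^ 2 * q (F ζ) * h (F ζ) =
          r ^ 2 * (lap h (F ζ) + q (F ζ) * h (F ζ)) := by ring
      rw [this, g3, mul_zero]

end Pool.Agent.Q73.AD
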