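import Pool.Agent.Q73.AD.TA1

/-!
# A4: propagation of smallness from an annulus
-/

set_option autoImplicit false
open MeasureTheory Filter Topology Complex Metric
open scoped ContDiff

namespace Pool.Agent.Q73.AD

open Pool.Agent.Q73.NL

theorem ev_const {f : ℂ → ℝ} {z : ℂ} {c : ℝ} (h : f =ᶠ[𝓝 z] fun _ => c) :
    dx f z = 0 ∧ dy f z = 0 ∧ lap f z = 0 := by
  have h1 := h.eventuallyEq_nhds
  have h2 : ∀ᶠ u in 𝓝 z, dx f u = 0 ∧ dy f u = 0 := by
    filter_upwards [h1] with u hu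
    refine ⟨?_, ?_⟩
    · unfold dx
      rw [hu.fderiv_eq]
      simp
    · unfold dy
      rw [hu.fderiv_eq]
      simp
  refine ⟨h2.self_of_nhds.1, h2.self_of_nhds.2, ?_⟩
  have h4 : dx f =ᶠ[𝓝 z] fun _ => 0 := by
    filter_upwards [h2] with t ht using ht.1
  have h5 : dy f =ᶠ[𝓝 z] fun _ => 0 := by
    filter_upwards [h2] with t ht using ht.2
  have h6 : dx (dx f) z = 0 := by
    change fderiv ℝ (dx f) z 1 = 0
    rw [h4.fderiv_eq]
    simp
  have h7 : dy (dy f) z = 0 := by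
    change fderiv ℝ (dy f) z I = 0
    rw [h5.fderiv_eq]
    simp
  unfold lap
  rw [h6, h7, add_zero]

theorem one_le_inf : ((1 : ℕ∞) : WithTop ℕ∞) ≤ (∞ : WithTop ℕ∞) := by exact_mod_cast le_top

theorem cda_ev {h : ℂ → ℝ} {z : ℂ} (hh : ContDiffAt ℝ ∞ h z) :
    ∀ᶠ u in 𝓝 z, DifferentiableAt ℝ h u := by
  have h1 : ContDiffAt ℝ 1 h z := hh.of_le one_le_inf
  filter_upwards [h1.eventually (by simp)] with u hu
  exact hu.differentiableAt (by simp)

theorem cda_d {h : ℂ → ℝ} {z : ℂ} (e : ℂ) (hh : ContDiffAt ℝ ∞ h z) :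
    ContDiffAt ℝ ∞ (fun u => fderiv ℝ h u e) z :=
  (hh.fderiv_right (by simp)).clm_apply contDiffAt_const

theorem fd_mul {f h : ℂ → ℝ} {z : ℂ} (e : ℂ) (hf : DifferentiableAt ℝ f z)
    (hh : DifferentiableAt ℝ h z) :
    fderiv ℝ (fun u => f u * h u) z e = fderiv ℝ f z e * h z + f z * fderiv ℝ h z e := by
  rw [fderiv_fun_mul hf hh]
  simp
  ring

theorem fd_fd_mul {f h : ℂ → ℝ} {z : ℂ} (e : ℂ) (hf : ContDiffAt ℝ ∞ f z)
    (hh : ContDiffAt ℝ ∞ h z) :
    fderiv ℝ (fun u => fderiv ℝ (fun u => f u * h u) u e) z e =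
      fderiv ℝ (fun u => fderiv ℝ f u e) z e * h z + 2 * (fderiv ℝ f z e * fderiv ℝ h z e) +
        f z * fderiv ℝ (fun u => fderiv ℝ h u e) z e := by
  have h1 : (fun u => fderiv ℝ (fun u => f u * h u) u e) =ᶠ[𝓝 z]
      fun u => fderiv ℝ f u e * h u + f u * fderiv ℝ h u e := by
    filter_upwards [cda_ev hf, cda_ev hh] with u h1 h2
    exact fd_mul e h1 h2
  have df := hf.differentiableAt (by simp)
  have dh := hh.differentiableAt (by simp)
  have dfx := (cda_d e hf).differentiableAt (by simp)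
  have dhx := (cda_d e hh).differentiableAt (by simp)
  have e0 := fderiv_fun_add (x := z) (f := fun u => fderiv ℝ f u e * h u)
    (g := fun u => f u * fderiv ℝ h u e) (dfx.mul dh) (df.mul dhx)
  rw [h1.fderiv_eq, e0]
  simp only [ContinuousLinearMap.add_apply]
  rw [fd_mul e dfx dh, fd_mul e df dhx]
  ring

theorem lap_mul {f h : ℂ → ℝ} {z : ℂ} (hf : ContDiffAt ℝ ∞ f z) (hh : ContDiffAt ℝ ∞ h z) :
    lap (fun u => f u * h u) z = lap f z * h z + 2 * (dx f z * dx h z + dy f z * dy h z) +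
      f z * lap h z := by
  have e1 := fd_fd_mul 1 hf hh
  have e2 := fd_fd_mul I hf hh
  have e3 : lap (fun u => f u * h u) z =
      fderiv ℝ (fun u => fderiv ℝ (fun u => f u * h u) u 1) z 1 +
      fderiv ℝ (fun u => fderiv ℝ (fun u => f u * h u) u I) z I := rfl
  have e4 : lap f z = fderiv ℝ (fun u => fderiv ℝ f u 1) z 1 +
      fderiv ℝ (fun u => fderiv ℝ f u I) z I := rfl
  have e5 : lap h z = fderiv ℝ (fun u => fderiv ℝ h u 1) z 1 +
      fderiv ℝ (fun u => fderiv ℝ h u I) z I := rfl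
  rw [e3, e1, e2, e4, e5]
  simp only [dx, dy]
  ring

/-- A smooth function with compact support in the disc has bounded derivatives. -/
theorem bdd_derivs {f : ℂ → ℝ} (hf : ContDiff ℝ ∞ f) (hc : HasCompactSupport f) :
    ∃ c : ℝ, 0 ≤ c ∧ ∀ z, dx f z ^ 2 + dy f z ^ 2 ≤ c ∧ lap f z ^ 2 ≤ c := by
  have c1 : HasCompactSupport (fun z => fderiv ℝ f z (1 : ℂ)) := hc.fderiv_apply ℝ 1
  have c2 : HasCompactSupport (fun z => fderiv ℝ f z I) := hc.fderiv_apply ℝ I
  obtain ⟨C1, h1⟩ := (cd_d 1 hf).continuous.bounded_above_of_compact_support c1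
  obtain ⟨C2, h2⟩ := (cd_d I hf).continuous.bounded_above_of_compact_support c2
  obtain ⟨C3, h3⟩ := (cd_d 1 (cd_d 1 hf)).continuous.bounded_above_of_compact_support
    (c1.fderiv_apply ℝ 1)
  obtain ⟨C4, h4⟩ := (cd_d I (cd_d I hf)).continuous.bounded_above_of_compact_support
    (c2.fderiv_apply ℝ I)
  refine ⟨(C1 ^ 2 + C2 ^ 2) + (C3 + C4) ^ 2, by positivity, fun z => ⟨?_, ?_⟩⟩
  · have e1 := abs_le_abs_of_nonneg (abs_nonneg _) (h1 z)
    have a1 : dx f z ^ 2 ≤ C1 ^ 2 := sq_le_sq' (by linarith [neg_abs_le (dx f z), (show |dx f z| ≤ C1 from h1 z)])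
      ((le_abs_self _).trans (h1 z))
    have a2 : dy f z ^ 2 ≤ C2 ^ 2 := sq_le_sq' (by linarith [neg_abs_le (dy f z), (show |dy f z| ≤ C2 from h2 z)])
      ((le_abs_self _).trans (h2 z))
    nlinarith [sq_nonneg (C3 + C4)]
  · have b1 : |dx (dx f) z| ≤ C3 := h3 z
    have b2 : |dy (dy f) z| ≤ C4 := h4 z
    have b3 : |lap f z| ≤ C3 + C4 := by
      unfold lap
      exact (abs_add_le _ _).trans (add_le_add b1 b2)
    have b4 : lap f z ^ 2 ≤ (C3 + C4) ^ 2 := sq_le_sq' (by linarith [neg_abs_le (lap f z)])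
      ((le_abs_self _).trans b3)
    nlinarith [sq_nonneg C1, sq_nonneg C2]

theorem alg4 {c1 L H A B X Y : ℝ} (hc : 0 ≤ c1) (g1 : A ^ 2 + B ^ 2 ≤ c1) (g2 : L ^ 2 ≤ c1) :
    (L * H + 2 * (A * X + B * Y)) ^ 2 ≤ (8 * c1 + 2 * c1) * (X ^ 2 + Y ^ 2 + H ^ 2) := by
  have f1 : (A * X + B * Y) ^ 2 ≤ (A ^ 2 + B ^ 2) * (X ^ 2 + Y ^ 2) := by
    nlinarith [sq_nonneg (A * Y - B * X)]
  have f2 : (A ^ 2 + B ^ 2) * (X ^ 2 + Y ^ 2) ≤ c1 * (X ^ 2 + Y ^ 2) :=
    mul_le_mul_of_nonneg_right g1 (by positivity)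
  have f3 : L ^ 2 * H ^ 2 ≤ c1 * H ^ 2 := mul_le_mul_of_nonneg_right g2 (sq_nonneg _)
  have f4 : (L * H + 2 * (A * X + B * Y)) ^ 2 ≤ 2 * (L ^ 2 * H ^ 2) + 8 * (A * X + B * Y) ^ 2 := by
    nlinarith [sq_nonneg (L * H - 2 * (A * X + B * Y))]
  have f5 : 0 ≤ c1 * H ^ 2 := by positivity
  have f6 : 0 ≤ c1 * (X ^ 2 + Y ^ 2) := by positivity
  linarith

set_option maxHeartbeats 2000000 in
theorem ta4 (h1 : A1) (h2 : A2) (h3 : A3) : A4 := by
  intro a R ha hR haR
  obtain ⟨C3, hC3, h3⟩ := h3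
  -- the cutoff functions
  let χ : ContDiffBump (0 : ℂ) := ⟨3 * R / 8, R / 2, by positivity, by linarith⟩
  let b1 : ContDiffBump (0 : ℂ) := ⟨R / 2, 5 * R / 8, by positivity, by linarith⟩
  let b2 : ContDiffBump (0 : ℂ) := ⟨5 * R / 16, 3 * R / 8, by positivity, by linarith⟩
  set χ2 : ℂ → ℝ := fun z => b1 z * (1 - b2 z) with hχ2
  have sχ : ContDiff ℝ ∞ (χ : ℂ → ℝ) := χ.contDiff
  have sχ2 : ContDiff ℝ ∞ χ2 := b1.contDiff.mul (contDiff_const.sub b2.contDiff)
  have cχ : HasCompactSupport (χ : ℂ → ℝ) := χ.hasCompactSupport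
  have cχ2 : HasCompactSupport χ2 := b1.hasCompactSupport.mul_right
  have tχ : tsupport (χ : ℂ → ℝ) = closedBall 0 (R / 2) := χ.tsupport_eq
  have tχ2 : tsupport χ2 ⊆ closedBall 0 (5 * R / 8) := by
    refine (tsupport_mul_subset_left (f := (b1 : ℂ → ℝ))).trans ?_
    rw [b1.tsupport_eq]
  have tχ2' : ∀ z : ℂ, z ∈ tsupport χ2 → 5 * R / 16 ≤ ‖z‖ := by
    intro z hz
    by_contra hlt
    rw [not_le] at hlt
    have : χ2 =ᶠ[𝓝 z] 0 := by
      have hb : ball (0 : ℂ) (5 * R / 16) ∈ 𝓝 z := isOpen_ball.mem_nhds (by simpa using hlt)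
      filter_upwards [hb] with u hu
      have : b2 u = 1 := b2.one_of_mem_closedBall (ball_subset_closedBall hu)
      simp [hχ2, this]
    exact (notMem_tsupport_iff_eventuallyEq.2 this) hz
  have one2 : ∀ z : ℂ, 3 * R / 8 ≤ ‖z‖ → ‖z‖ ≤ R / 2 → χ2 z = 1 := by
    intro z hz1 hz2
    have e1 : b1 z = 1 := b1.one_of_mem_closedBall (by simpa using hz2)
    have e2 : b2 z = 0 := b2.zero_of_le_dist (by simpa using hz1)
    simp [hχ2, e1, e2]
  have loc : ∀ z : ℂ, ¬(3 * R / 8 ≤ ‖z‖ ∧ ‖z‖ ≤ R / 2) →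
      dx χ z = 0 ∧ dy χ z = 0 ∧ lap χ z = 0 := by
    intro z hz
    rw [not_and_or, not_le, not_le] at hz
    rcases hz with hz | hz
    · refine ev_const (c := 1) ?_
      have hb : ball (0 : ℂ) (3 * R / 8) ∈ 𝓝 z := isOpen_ball.mem_nhds (by simpa using hz)
      filter_upwards [hb] with u hu
      exact χ.one_of_mem_closedBall (ball_subset_closedBall hu)
    · refine ev_const (c := 0) ?_
      have hb : (closedBall (0 : ℂ) (R / 2))ᶜ ∈ 𝓝 z :=
        isClosed_closedBall.isOpen_compl.mem_nhds (by simpa using hz)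
      filter_upwards [hb] with u hu
      refine χ.zero_of_le_dist ?_
      simp at hu
      simpa using hu.le
  obtain ⟨c1, hc1, hb1⟩ := bdd_derivs sχ cχ
  obtain ⟨c2, hc2, hb2⟩ := bdd_derivs sχ2 cχ2
  set c3 : ℝ := (8 * c1 + 2 * c1) * ((8 * c2 + 21) * (Real.pi * R ^ 2)) with hc3
  have hc3' : 0 ≤ c3 := by positivity
  set C : ℝ := 1 + 1 / a + √(C3 * (c3 / a)) * (1 + R ^ 2) with hC
  have hCa : 0 < 1 / a := by positivity
  have hCs : 0 ≤ √(C3 * (c3 / a)) * (1 + R ^ 2) := by positivity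
  refine ⟨C, by linarith, ?_⟩
  intro N κ B s q h hκ hN hs hsR hh hB z hz
  have hκ0 : 0 < κ := by linarith
  have hN1 : κ ≤ N := by nlinarith
  have hNa : κ / a ≤ N := by
    have : (1 / a) * κ ≤ C * κ := mul_le_mul_of_nonneg_right (by linarith) hκ0.le
    calc κ / a = (1 / a) * κ := by ring
      _ ≤ N := this.trans hN
  have hN0 : 0 < N := by linarith
  have hκN : κ ^ 2 ≤ a * N ^ 2 := by
    rw [div_le_iff₀ ha] at hNa
    nlinarith
  have hB0 : 0 ≤ B := by
    have hn : ‖((R / 2 : ℝ) : ℂ)‖ = R / 2 := by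
      rw [Complex.norm_real, Real.norm_of_nonneg (by positivity)]
    refine le_trans (mul_nonneg (Real.exp_pos _).le (abs_nonneg _))
      (hB ((R / 2 : ℝ) : ℂ) ?_ ?_)
    · rw [hn]
      linarith
    · rw [hn]
      linarith
  -- the cut off solution
  set w : ℂ → ℝ := fun z => χ z * h z with hw
  have hsub : ∀ z, z ∈ tsupport (χ : ℂ → ℝ) → z ∈ ball (0 : ℂ) R := by
    intro z hz
    rw [tχ] at hz
    simp only [mem_closedBall, dist_zero_right, mem_ball] at hz ⊢
    linarith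
  have hχoff : ∀ z, z ∉ tsupport (χ : ℂ → ℝ) → w =ᶠ[𝓝 z] fun _ => 0 := by
    intro z hz
    filter_upwards [notMem_tsupport_iff_eventuallyEq.1 hz] with u hu
    simp only [hw, hu, Pi.zero_apply, zero_mul]
  have sw : ContDiff ℝ ∞ w := by
    rw [contDiff_iff_contDiffAt]
    intro z
    by_cases hz : z ∈ tsupport (χ : ℂ → ℝ)
    · exact sχ.contDiffAt.mul (hh z (hsub z hz)).1
    · exact contDiffAt_const.congr_of_eventuallyEq (hχoff z hz)
  have cw : HasCompactSupport w := cχ.mul_right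
  have tw : tsupport w ⊆ ball (0 : ℂ) R := by
    refine (tsupport_mul_subset_left (f := (χ : ℂ → ℝ))).trans (fun z hz => hsub z hz)
  have k1 := h1 a N κ R q w ha hN0 hR haR hκN sw cw tw (fun z hz => ⟨(hh z hz).2.1, (hh z hz).2.2.2.1⟩)
  have tχ2R : tsupport χ2 ⊆ ball (0 : ℂ) R := by
    intro z hz
    have := tχ2 hz
    simp only [mem_closedBall, dist_zero_right, mem_ball] at this ⊢
    linarith
  have k2 := h2 a N κ R q h χ2 ha hN0 hR haR sχ2 cχ2 tχ2R (fun z hz =>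
    ⟨(hh z hz).1, (hh z hz).2.2.1, (hh z hz).2.2.2.2⟩)
  -- continuity of the products with functions supported in the disc
  have hprod : ∀ (F G : ℂ → ℝ), Continuous F → (∀ z ∈ ball (0 : ℂ) R, ContinuousAt G z) →
      (∀ z, z ∉ tsupport χ2 → F =ᶠ[𝓝 z] fun _ => 0) →
      Integrable fun z => F z * G z := by
    intro F G hF hG hoff
    have hc : Continuous fun z => F z * G z := by
      rw [continuous_iff_continuousAt]
      intro z
      by_cases hz : z ∈ tsupport χ2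
      · exact hF.continuousAt.mul (hG z (tχ2R hz))
      · have : (fun z => F z * G z) =ᶠ[𝓝 z] fun _ => 0 := by
          filter_upwards [hoff z hz] with u hu
          rw [hu, zero_mul]
        exact continuousAt_const.congr this.symm
    refine hc.integrable_of_hasCompactSupport
      (HasCompactSupport.of_support_subset_isCompact cχ2 ?_)
    intro z hz
    by_contra hn
    apply hz
    simp only
    rw [(hoff z hn).self_of_nhds, zero_mul]
  have hE : Continuous fun z => Real.exp (-2 * N * psi a z) :=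
    Real.continuous_exp.comp (continuous_const.mul (psi_smooth a).continuous)
  have hχ2off : ∀ z, z ∉ tsupport χ2 → ∀ᶠ u in 𝓝 z, χ2 u = 0 ∧ dx χ2 u = 0 ∧ dy χ2 u = 0 := by
    intro z hz
    have e1 : χ2 =ᶠ[𝓝 z] fun _ => 0 := notMem_tsupport_iff_eventuallyEq.1 hz
    filter_upwards [e1.eventuallyEq_nhds] with u hu
    obtain ⟨e2, e3, -⟩ := ev_const hu
    exact ⟨hu.self_of_nhds, e2, e3⟩
  have hhc : ∀ z ∈ ball (0 : ℂ) R, ContinuousAt h z := fun z hz => (hh z hz).1.continuousAt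
  have hgc : ∀ z ∈ ball (0 : ℂ) R, ContinuousAt (fun z => dx h z ^ 2 + dy h z ^ 2) z :=
    fun z hz => ((cda_d 1 (hh z hz).1).continuousAt.pow 2).add
      ((cda_d I (hh z hz).1).continuousAt.pow 2)
  have hh2 : ∀ z ∈ ball (0 : ℂ) R, ContinuousAt (fun z => h z ^ 2) z :=
    fun z hz => (hhc z hz).pow 2
  have I1 : Integrable fun z => Real.exp (-2 * N * psi a z) * χ2 z ^ 2 *
      (dx h z ^ 2 + dy h z ^ 2) := by
    refine hprod _ _ (hE.mul (sχ2.continuous.pow 2)) hgc (fun z hz => ?_)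
    filter_upwards [hχ2off z hz] with u hu
    simp [hu.1]
  have I2 : Integrable fun z => Real.exp (-2 * N * psi a z) * χ2 z ^ 2 * h z ^ 2 := by
    refine hprod _ _ (hE.mul (sχ2.continuous.pow 2)) hh2 (fun z hz => ?_)
    filter_upwards [hχ2off z hz] with u hu
    simp [hu.1]
  have I3 : Integrable fun z => Real.exp (-2 * N * psi a z) *
      (8 * (dx χ2 z ^ 2 + dy χ2 z ^ 2) + (18 * N ^ 2 + 2 * κ ^ 2) * χ2 z ^ 2) * h z ^ 2 := by
    refine hprod _ _ (hE.mul ((continuous_const.mul (((cd_d 1 sχ2).continuous.pow 2).add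
      ((cd_d I sχ2).continuous.pow 2))).add (continuous_const.mul (sχ2.continuous.pow 2))))
      hh2 (fun z hz => ?_)
    filter_upwards [hχ2off z hz] with u hu
    obtain ⟨e1, e2, e3⟩ := hu
    change Real.exp (-2 * N * psi a u) * (8 * (dx χ2 u ^ 2 + dy χ2 u ^ 2) +
      (18 * N ^ 2 + 2 * κ ^ 2) * χ2 u ^ 2) = 0
    rw [e1, e2, e3]
    ring
  -- the right side of the Carleman inequality
  have k3 : ∫ z, Real.exp (-2 * N * psi a z) * (lap w z + q z * w z) ^ 2 ≤
      ∫ z, (8 * c1 + 2 * c1) * (Real.exp (-2 * N * psi a z) * χ2 z ^ 2 *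
        (dx h z ^ 2 + dy h z ^ 2) + Real.exp (-2 * N * psi a z) * χ2 z ^ 2 * h z ^ 2) := by
    refine integral_mono_of_nonneg (ae_of_all _ fun z => ?_) ((I1.add I2).const_mul _)
      (ae_of_all _ fun z => ?_)
    · exact mul_nonneg (Real.exp_pos _).le (sq_nonneg _)
    · dsimp only
      have hE0 := Real.exp_pos (-2 * N * psi a z)
      have hr : 0 ≤ (8 * c1 + 2 * c1) * (Real.exp (-2 * N * psi a z) * χ2 z ^ 2 *
          (dx h z ^ 2 + dy h z ^ 2) + Real.exp (-2 * N * psi a z) * χ2 z ^ 2 * h z ^ 2) := by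
        positivity
      by_cases hz : z ∈ ball (0 : ℂ) R
      · obtain ⟨hz1, -, -, -, hz5⟩ := hh z hz
        have e1 : lap w z + q z * w z = lap χ z * h z + 2 * (dx χ z * dx h z + dy χ z * dy h z) := by
          rw [hw, lap_mul sχ.contDiffAt hz1]
          have : lap h z = -(q z * h z) := by linarith
          rw [this]
          ring
        rw [e1]
        by_cases hz' : 3 * R / 8 ≤ ‖z‖ ∧ ‖z‖ ≤ R / 2
        · rw [one2 z hz'.1 hz'.2]
          obtain ⟨g1, g2⟩ := hb1 z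
          have e2 : (lap χ z * h z + 2 * (dx χ z * dx h z + dy χ z * dy h z)) ^ 2 ≤
              (8 * c1 + 2 * c1) * (dx h z ^ 2 + dy h z ^ 2 + h z ^ 2) := by
            exact alg4 hc1 g1 g2
          calc Real.exp (-2 * N * psi a z) *
                (lap χ z * h z + 2 * (dx χ z * dx h z + dy χ z * dy h z)) ^ 2 ≤
              Real.exp (-2 * N * psi a z) *
                ((8 * c1 + 2 * c1) * (dx h z ^ 2 + dy h z ^ 2 + h z ^ 2)) :=
                mul_le_mul_of_nonneg_left e2 hE0.le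
            _ = _ := by ring
        · obtain ⟨e2, e3, e4⟩ := loc z hz'
          rw [e2, e3, e4]
          simpa using hr
      · have hz' : z ∉ tsupport (χ : ℂ → ℝ) := fun hc => hz (hsub z hc)
        have e1 := (ev_const (hχoff z hz')).2.2
        have e2 : w z = 0 := (hχoff z hz').self_of_nhds
        rw [e1, e2]
        simpa using hr
  have k4 : ∫ z, (8 * c1 + 2 * c1) * (Real.exp (-2 * N * psi a z) * χ2 z ^ 2 *
        (dx h z ^ 2 + dy h z ^ 2) + Real.exp (-2 * N * psi a z) * χ2 z ^ 2 * h z ^ 2) ≤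
      (8 * c1 + 2 * c1) * ∫ z, (Real.exp (-2 * N * psi a z) *
      (8 * (dx χ2 z ^ 2 + dy χ2 z ^ 2) + (18 * N ^ 2 + 2 * κ ^ 2) * χ2 z ^ 2) * h z ^ 2 +
      Real.exp (-2 * N * psi a z) * χ2 z ^ 2 * h z ^ 2) := by
    rw [integral_const_mul, integral_add I1 I2, integral_add I3 I2]
    exact mul_le_mul_of_nonneg_left (add_le_add k2 le_rfl) (by positivity)
  have k5 : ∫ z, (Real.exp (-2 * N * psi a z) *
      (8 * (dx χ2 z ^ 2 + dy χ2 z ^ 2) + (18 * N ^ 2 + 2 * κ ^ 2) * χ2 z ^ 2) * h z ^ 2 +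
      Real.exp (-2 * N * psi a z) * χ2 z ^ 2 * h z ^ 2) ≤
      ((8 * c2 + 21) * N ^ 2 * B ^ 2) * (Real.pi * R ^ 2) := by
    have e0 : (volume (ball (0 : ℂ) R)).toReal = Real.pi * R ^ 2 := by
      rw [Complex.volume_ball]
      simp only [ENNReal.toReal_mul, ENNReal.toReal_pow, ENNReal.toReal_ofReal hR.le,
        ENNReal.coe_toReal, NNReal.coe_real_pi]
      ring
    have hfin : volume (ball (0 : ℂ) R) ≠ ⊤ := measure_ball_lt_top.ne
    have e1 : ∫ z, (ball (0 : ℂ) R).indicator (fun _ => (8 * c2 + 21) * N ^ 2 * B ^ 2) z =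
        ((8 * c2 + 21) * N ^ 2 * B ^ 2) * (Real.pi * R ^ 2) := by
      rw [integral_indicator measurableSet_ball, setIntegral_const, measureReal_def, e0, smul_eq_mul]
      ring
    rw [← e1]
    refine integral_mono (I3.add I2)
      ((integrable_indicator_iff measurableSet_ball).2 (integrableOn_const hfin)) (fun z => ?_)
    dsimp only
    have hE0 := Real.exp_pos (-2 * N * psi a z)
    by_cases hz : z ∈ tsupport χ2
    · rw [Set.indicator_of_mem (tχ2R hz)]
      have hz1 := tχ2' z hz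
      have hz2 := tχ2 hz
      simp only [mem_closedBall, dist_zero_right] at hz2
      have e2 := hB z (by linarith) (by linarith)
      have e3 : Real.exp (-2 * N * psi a z) * h z ^ 2 ≤ B ^ 2 := by
        have : Real.exp (-2 * N * psi a z) * h z ^ 2 = (Real.exp (-N * psi a z) * |h z|) ^ 2 := by
          rw [mul_pow, sq_abs, ← Real.exp_nat_mul]
          congr 2
          push_cast
          ring
        rw [this]
        exact pow_le_pow_left₀ (mul_nonneg (Real.exp_pos _).le (abs_nonneg _)) e2 2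
      have e4 : 0 ≤ Real.exp (-2 * N * psi a z) * h z ^ 2 := by positivity
      have hχle : χ2 z ^ 2 ≤ 1 := by
        have g1 : 0 ≤ b1 z := b1.nonneg
        have g2 : b1 z ≤ 1 := b1.le_one
        have g3 : 0 ≤ b2 z := b2.nonneg
        have g4 : b2 z ≤ 1 := b2.le_one
        have g5 : 0 ≤ χ2 z := mul_nonneg g1 (by linarith)
        have g6 : χ2 z ≤ 1 := mul_le_one₀ g2 (by linarith) (by linarith)
        exact pow_le_one₀ g5 g6
      obtain ⟨g1, -⟩ := hb2 z
      have hκN2 : κ ^ 2 ≤ N ^ 2 := pow_le_pow_left₀ hκ0.le hN1 2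
      have hN2 : 1 ≤ N ^ 2 := one_le_pow₀ (by linarith)
      have e5 : 8 * (dx χ2 z ^ 2 + dy χ2 z ^ 2) + (18 * N ^ 2 + 2 * κ ^ 2) * χ2 z ^ 2 +
          χ2 z ^ 2 ≤ (8 * c2 + 21) * N ^ 2 := by
        have f1 : (18 * N ^ 2 + 2 * κ ^ 2) * χ2 z ^ 2 ≤ 18 * N ^ 2 + 2 * κ ^ 2 :=
          mul_le_of_le_one_right (by positivity) hχle
        have f2 : c2 * 1 ≤ c2 * N ^ 2 := mul_le_mul_of_nonneg_left hN2 hc2
        linarith
      have e6 : 0 ≤ 8 * (dx χ2 z ^ 2 + dy χ2 z ^ 2) + (18 * N ^ 2 + 2 * κ ^ 2) * χ2 z ^ 2 +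
          χ2 z ^ 2 := by positivity
      calc Real.exp (-2 * N * psi a z) *
            (8 * (dx χ2 z ^ 2 + dy χ2 z ^ 2) + (18 * N ^ 2 + 2 * κ ^ 2) * χ2 z ^ 2) * h z ^ 2 +
            Real.exp (-2 * N * psi a z) * χ2 z ^ 2 * h z ^ 2 =
          (8 * (dx χ2 z ^ 2 + dy χ2 z ^ 2) + (18 * N ^ 2 + 2 * κ ^ 2) * χ2 z ^ 2 +
            χ2 z ^ 2) * (Real.exp (-2 * N * psi a z) * h z ^ 2) := by ring
        _ ≤ ((8 * c2 + 21) * N ^ 2) * B ^ 2 := mul_le_mul e5 e3 e4 (e6.trans e5)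
    · obtain ⟨e1, e2, e3⟩ := (hχ2off z hz).self_of_nhds
      rw [e1, e2, e3]
      simp only [ne_eq, OfNat.ofNat_ne_zero, not_false_eq_true, zero_pow, mul_zero, add_zero,
        zero_mul]
      refine Set.indicator_nonneg (fun _ _ => ?_) z
      positivity
  have k6 : a * N ^ 3 * ∫ z, Real.exp (-2 * N * psi a z) * w z ^ 2 ≤ c3 * N ^ 2 * B ^ 2 := by
    have := mul_le_mul_of_nonneg_left k5 (show 0 ≤ 8 * c1 + 2 * c1 by positivity)
    calc a * N ^ 3 * ∫ z, Real.exp (-2 * N * psi a z) * w z ^ 2 ≤ _ := k1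
      _ ≤ _ := k3
      _ ≤ _ := k4
      _ ≤ _ := this
      _ = c3 * N ^ 2 * B ^ 2 := by
        rw [hc3]
        ring
  have k7 : ∫ z, Real.exp (-2 * N * psi a z) * w z ^ 2 ≤ c3 / a * B ^ 2 := by
    set J := ∫ z, Real.exp (-2 * N * psi a z) * w z ^ 2 with hJ
    have hJ0 : 0 ≤ J := integral_nonneg fun z => mul_nonneg (Real.exp_pos _).le (sq_nonneg _)
    have e1 : a * J ≤ c3 * B ^ 2 := by
      have e2 : N ^ 2 * (a * J) ≤ N ^ 2 * (c3 * B ^ 2) := by
        have e3 : N ^ 2 * (a * J) * 1 ≤ N ^ 2 * (a * J) * N :=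
          mul_le_mul_of_nonneg_left (by linarith) (by positivity)
        calc N ^ 2 * (a * J) = N ^ 2 * (a * J) * 1 := by ring
          _ ≤ N ^ 2 * (a * J) * N := e3
          _ = a * N ^ 3 * J := by ring
          _ ≤ _ := k6
          _ = N ^ 2 * (c3 * B ^ 2) := by ring
      exact le_of_mul_le_mul_left e2 (by positivity)
    rw [div_mul_eq_mul_div, le_div_iff₀ ha]
    linarith
  -- pointwise bound
  have hzs : ‖z‖ ≤ s := by simpa using hz
  have k8 := h3 z s κ q h hs (fun u hu => by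
    have hu' : u ∈ ball (0 : ℂ) R := by
      simp only [mem_closedBall, dist_zero_right, mem_ball] at hu ⊢
      have e1 : ‖u‖ ≤ ‖u - z‖ + ‖z‖ := by simpa using norm_add_le (u - z) z
      rw [dist_eq_norm] at hu
      linarith
    exact ⟨(hh u hu').1, (hh u hu').2.2.1, (hh u hu').2.2.2.2⟩)
  have k9 : ∫ u in ball z s, h u ^ 2 ≤ Real.exp (4 * N * s) * (c3 / a * B ^ 2) := by
    have hIw : Integrable fun z => Real.exp (-2 * N * psi a z) * w z ^ 2 := by
      have hc : Continuous fun z => Real.exp (-2 * N * psi a z) * w z ^ 2 :=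
        hE.mul (sw.continuous.pow 2)
      refine hc.integrable_of_hasCompactSupport
        (HasCompactSupport.of_support_subset_isCompact cw ?_)
      intro z hz
      by_contra hn
      apply hz
      have := image_eq_zero_of_notMem_tsupport hn
      simp [this]
    have e1 : ∫ u in ball z s, h u ^ 2 ≤
        ∫ u in ball z s, Real.exp (4 * N * s) * (Real.exp (-2 * N * psi a u) * w u ^ 2) := by
      refine integral_mono_of_nonneg (ae_of_all _ fun u => sq_nonneg _)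
        ((hIw.const_mul _).integrableOn) ?_
      refine (ae_restrict_iff' measurableSet_ball).2 (ae_of_all _ fun u hu => ?_)
      dsimp only
      have hu2 : ‖u‖ < 2 * s := by
        rw [mem_ball, dist_eq_norm] at hu
        have e1 : ‖u‖ ≤ ‖u - z‖ + ‖z‖ := by simpa using norm_add_le (u - z) z
        linarith
      have e2 : χ u = 1 := χ.one_of_mem_closedBall (by
        change u ∈ closedBall (0 : ℂ) (3 * R / 8)
        simp only [mem_closedBall, dist_zero_right]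
        linarith)
      have e3 : w u = h u := by simp [hw, e2]
      rw [e3, ← mul_assoc, ← Real.exp_add]
      have e4 : 1 ≤ Real.exp (4 * N * s + -2 * N * psi a u) := by
        rw [Real.one_le_exp_iff]
        have e5 : psi a u ≤ 2 * s := by
          have e6 : u.re ≤ 2 * s := ((Complex.re_le_norm u).trans hu2.le)
          unfold psi
          nlinarith [sq_nonneg u.re]
        nlinarith
      exact le_mul_of_one_le_left (sq_nonneg _) e4
    refine e1.trans ?_
    rw [integral_const_mul]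
    refine mul_le_mul_of_nonneg_left ?_ (Real.exp_pos _).le
    refine le_trans (setIntegral_le_integral hIw (ae_of_all _ fun u =>
      mul_nonneg (Real.exp_pos _).le (sq_nonneg _))) k7
  have k10 : h z ^ 2 ≤ (√(C3 * (c3 / a)) * ((1 + κ ^ 2 * s ^ 2) / s) * Real.exp (2 * N * s) * B) ^ 2 := by
    calc h z ^ 2 ≤ _ := k8
      _ ≤ C3 * (1 + κ ^ 2 * s ^ 2) ^ 2 / s ^ 2 * (Real.exp (4 * N * s) * (c3 / a * B ^ 2)) :=
        mul_le_mul_of_nonneg_left k9 (by positivity)
      _ = _ := by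
        rw [mul_pow, mul_pow, mul_pow, Real.sq_sqrt (by positivity), ← Real.exp_nat_mul, div_pow]
        have : ((2 : ℕ) : ℝ) * (2 * N * s) = 4 * N * s := by
          push_cast
          ring
        rw [this]
        ring
  have k11 := abs_le_of_sq_le_sq k10 (by positivity)
  refine k11.trans ?_
  have k12 : √(C3 * (c3 / a)) * ((1 + κ ^ 2 * s ^ 2) / s) ≤ C * N ^ 2 / s := by
    rw [← mul_div_assoc]
    refine div_le_div_of_nonneg_right ?_ hs.le
    have e1 : 1 + κ ^ 2 * s ^ 2 ≤ (1 + R ^ 2) * N ^ 2 := by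
      have f1 : κ ^ 2 ≤ N ^ 2 := pow_le_pow_left₀ hκ0.le hN1 2
      have f2 : s ^ 2 ≤ R ^ 2 := pow_le_pow_left₀ hs.le (by linarith) 2
      have f3 : κ ^ 2 * s ^ 2 ≤ N ^ 2 * R ^ 2 := mul_le_mul f1 f2 (sq_nonneg _) (sq_nonneg _)
      have f4 : 1 ≤ N ^ 2 := one_le_pow₀ (by linarith)
      linarith
    calc √(C3 * (c3 / a)) * (1 + κ ^ 2 * s ^ 2) ≤ √(C3 * (c3 / a)) * ((1 + R ^ 2) * N ^ 2) :=
          mul_le_mul_of_nonneg_left e1 (Real.sqrt_nonneg _)
      _ = √(C3 * (c3 / a)) * (1 + R ^ 2) * N ^ 2 := by ring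
      _ ≤ C * N ^ 2 := mul_le_mul_of_nonneg_right (by linarith) (sq_nonneg _)
  have := mul_le_mul_of_nonneg_right (mul_le_mul_of_nonneg_right k12
    (Real.exp_pos (2 * N * s)).le) hB0
  exact this

end Pool.Agent.Q73.AD
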