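import Pool.Agent.Q73.AD.Stm

/-!
# B1: limits along an ultrafilter, elementary properties (helper24)
-/

set_option autoImplicit false
open MeasureTheory Filter Topology Complex Metric
open scoped ContDiff

namespace Pool.Agent.Q73.AD

open Pool.Agent.Q73.NL

lemma sn_nonneg' {X : Type*} (f : X → ℝ) (E : Set X) : 0 ≤ sn f E := by
  refine Real.sSup_nonneg ?_
  rintro _ ⟨x, _, rfl⟩
  exact abs_nonneg _

lemma sn_le' {X : Type*} {f : X → ℝ} {E : Set X} {c : ℝ} (hc : 0 ≤ c) (h : ∀ x ∈ E, |f x| ≤ c) : sn f E ≤ c := by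
  refine Real.sSup_le ?_ hc
  rintro _ ⟨x, hx, rfl⟩
  exact h x hx

lemma le_sn' {X : Type*} {f : X → ℝ} {E : Set X} {c : ℝ} (h : ∀ x ∈ E, |f x| ≤ c) {x : X} (hx : x ∈ E) :
    |f x| ≤ sn f E := by
  refine le_csSup ⟨c, ?_⟩ ⟨x, hx, rfl⟩
  rintro _ ⟨y, hy, rfl⟩
  exact h y hy

lemma sn_mono' {X : Type*} {f : X → ℝ} {E F : Set X} {c : ℝ} (h : ∀ x ∈ F, |f x| ≤ c) (hEF : E ⊆ F) :
    sn f E ≤ sn f F :=
  sn_le' (sn_nonneg' f F) fun _ hx => le_sn' h (hEF hx)

lemma sn_union' {X : Type*} {f : X → ℝ} {E F : Set X} {c : ℝ} (h : ∀ x ∈ E ∪ F, |f x| ≤ c) :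
    sn f (E ∪ F) = max (sn f E) (sn f F) := by
  refine le_antisymm (sn_le' (le_max_of_le_left (sn_nonneg' f E)) ?_)
    (max_le (sn_mono' h Set.subset_union_left) (sn_mono' h Set.subset_union_right))
  rintro x (hx | hx)
  · exact le_max_of_le_left (le_sn' (fun y hy => h y (Or.inl hy)) hx)
  · exact le_max_of_le_right (le_sn' (fun y hy => h y (Or.inr hy)) hx)

theorem tb1.{u} : B1.{u} := by
  intro X 𝒰 N φ D hN hb
  have hN0 : ∀ j, 0 < 1 / N j := fun j => one_div_pos.2 (hN j)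
  have h01 : ∀ E ⊆ D, ∀ j, sn (φ j) E ^ (1 / N j) ∈ Set.Icc (0 : ℝ) 1 := by
    intro E hE j
    refine ⟨Real.rpow_nonneg (sn_nonneg' _ _) _, Real.rpow_le_one (sn_nonneg' _ _) ?_ (hN0 j).le⟩
    exact sn_le' zero_le_one fun x hx => hb j x (hE hx)
  constructor
  · have h1 : ∀ E : Set X, ∃ a : ℝ, E ⊆ D → Tendsto (fun j => sn (φ j) E ^ (1 / N j)) 𝒰 (𝓝 a) := by
      intro E
      by_cases hE : E ⊆ D
      · obtain ⟨a, -, ha⟩ := (isCompact_Icc (a := (0 : ℝ)) (b := 1)).ultrafilter_le_nhds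
          (𝒰.map fun j => sn (φ j) E ^ (1 / N j)) (by
            rw [le_principal_iff, Ultrafilter.coe_map, mem_map]
            exact Filter.univ_mem' (h01 E hE))
        exact ⟨a, fun _ => ha⟩
      · exact ⟨0, fun h => absurd h hE⟩
    choose W hW using h1
    exact ⟨W, fun E hE => hW E hE⟩
  · intro W hW
    have hpow : ∀ j (s : ℝ), 0 ≤ s → (s ^ (1 / N j)) ^ N j = s := by
      intro j s hs
      rw [← Real.rpow_mul hs, one_div_mul_cancel (hN j).ne', Real.rpow_one]
    have hpow' : ∀ j (s : ℝ), 0 ≤ s → (s ^ N j) ^ (1 / N j) = s := by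
      intro j s hs
      rw [← Real.rpow_mul hs, mul_one_div_cancel (hN j).ne', Real.rpow_one]
    have hnn : ∀ E ⊆ D, 0 ≤ W E := fun E hE => ge_of_tendsto' (hW E hE) fun j => (h01 E hE j).1
    refine ⟨hnn, fun E hE => le_of_tendsto' (hW E hE) fun j => (h01 E hE j).2, ?_, ?_, ?_, ?_, ?_⟩
    · intro E F hEF hF
      refine le_of_tendsto_of_tendsto' (hW E (hEF.trans hF)) (hW F hF) fun j => ?_
      exact Real.rpow_le_rpow (sn_nonneg' _ _) (sn_mono' (fun x hx => hb j x (hF hx)) hEF) (hN0 j).le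
    · intro E F hE hF
      have h1 := (hW E hE).max (hW F hF)
      have h2 := hW (E ∪ F) (Set.union_subset hE hF)
      refine tendsto_nhds_unique h2 (h1.congr fun j => ?_)
      rw [sn_union' (fun x hx => hb j x (Set.union_subset hE hF hx))]
      rcases le_total (sn (φ j) E) (sn (φ j) F) with h | h
      · rw [max_eq_right h, max_eq_right (Real.rpow_le_rpow (sn_nonneg' _ _) h (hN0 j).le)]
      · rw [max_eq_left h, max_eq_left (Real.rpow_le_rpow (sn_nonneg' _ _) h (hN0 j).le)]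
    · refine tendsto_nhds_unique (hW ∅ (Set.empty_subset _)) ?_
      have : (fun j => sn (φ j) (∅ : Set X) ^ (1 / N j)) = fun _ => (0 : ℝ) := by
        funext j
        have h0 : sn (φ j) (∅ : Set X) = 0 := by unfold sn; simp
        rw [h0, Real.zero_rpow (hN0 j).ne']
      rw [this]
      exact tendsto_const_nhds
    · intro E hE t ht
      filter_upwards [(hW E hE).eventually_lt_const ht] with j hj x hx
      have h1 := le_sn' (fun y hy => hb j y (hE hy)) hx
      refine h1.trans ?_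
      rw [← hpow j _ (sn_nonneg' (φ j) E)]
      exact Real.rpow_le_rpow (h01 E hE j).1 hj.le (hN j).le
    · intro E hE t ht h
      refine le_of_tendsto (hW E hE) ?_
      filter_upwards [h] with j hj
      rw [← hpow' j t ht]
      exact Real.rpow_le_rpow (sn_nonneg' _ _) (sn_le' (Real.rpow_nonneg ht _) hj) (hN0 j).le

end Pool.Agent.Q73.AD
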