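import Pool.Agent.Q73.AD.Stm

/-!
# B2: the density of the limit set function (helper24)
-/

set_option autoImplicit false
open MeasureTheory Filter Topology Complex Metric
open scoped ContDiff

namespace Pool.Agent.Q73.AD

open Pool.Agent.Q73.NL

theorem tb2.{u} : B2.{u} := by
  intro X _ 𝒰 N φ D W hD hL
  constructor
  · refine ⟨fun x => sInf {s | ∃ r : ℝ, 0 < r ∧ ball x r ⊆ D ∧ s = W (ball x r)}, ?_, ?_⟩
    · intro x _ r hr hb
      refine csInf_le ⟨0, ?_⟩ ⟨r, hr, hb, rfl⟩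
      rintro _ ⟨r', _, hb', rfl⟩
      exact hL.nonneg _ hb'
    · intro x hx t ht
      obtain ⟨r0, hr0, hb0⟩ := Metric.isOpen_iff.1 hD x hx
      have hne : {s | ∃ r : ℝ, 0 < r ∧ ball x r ⊆ D ∧ s = W (ball x r)}.Nonempty :=
        ⟨W (ball x r0), r0, hr0, hb0, rfl⟩
      obtain ⟨_, ⟨r, hr, hb, rfl⟩, hlt⟩ := exists_lt_of_csInf_lt hne ht
      exact ⟨r, hr, hb, hlt⟩
  · intro w hw
    have h4 : ∀ K ⊆ D, IsCompact K → ∀ t, 0 < t → (∀ x ∈ K, w x < t) → W K < t := by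
      intro K hK hc t ht h
      obtain ⟨E, hKE, hED, hE⟩ := hc.induction_on (p := fun s => ∃ E, s ⊆ E ∧ E ⊆ D ∧ W E < t)
        ⟨∅, subset_rfl, Set.empty_subset _, by rw [hL.empty]; exact ht⟩
        (fun s s' hs ⟨E, h1, h2, h3⟩ => ⟨E, hs.trans h1, h2, h3⟩)
        (fun s s' ⟨E, h1, h2, h3⟩ ⟨E', h1', h2', h3'⟩ => ⟨E ∪ E', Set.union_subset_union h1 h1',
          Set.union_subset h2 h2', by rw [hL.union E E' h2 h2']; exact max_lt h3 h3'⟩)
        (fun x hx => by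
          obtain ⟨r, hr, hb, hlt⟩ := hw.ex x (hK hx) t (h x hx)
          exact ⟨ball x r, mem_nhdsWithin_of_mem_nhds (ball_mem_nhds x hr), ball x r, subset_rfl, hb, hlt⟩)
      exact (hL.mono K E hKE hED).trans_lt hE
    refine ⟨fun x hx => ⟨?_, ?_⟩, ?_, ?_, h4, ?_⟩
    · by_contra hcon
      rw [not_le] at hcon
      obtain ⟨r, hr, hb, hlt⟩ := hw.ex x hx 0 hcon
      exact absurd (hL.nonneg _ hb) (not_le.2 hlt)
    · obtain ⟨r0, hr0, hb0⟩ := Metric.isOpen_iff.1 hD x hx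
      exact (hw.le x hx r0 hr0 hb0).trans (hL.le_one _ hb0)
    · intro x hx t ht
      obtain ⟨r, hr, hb, hlt⟩ := hw.ex x hx t ht
      filter_upwards [mem_nhdsWithin_of_mem_nhds (ball_mem_nhds x hr)] with y hy
      have hy' : dist y x < r := hy
      have hsub : ball y (r - dist y x) ⊆ ball x r := ball_subset_ball' (by linarith)
      exact ((hw.le y (hb hy) _ (by linarith) (hsub.trans hb)).trans (hL.mono _ _ hsub hb)).trans_lt hlt
    · intro E hE hEo x hx
      obtain ⟨r0, hr0, hb0⟩ := Metric.isOpen_iff.1 hEo x hx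
      exact (hw.le x (hE hx) r0 hr0 (hb0.trans hE)).trans (hL.mono _ _ hb0 hE)
    · intro K hK hc hpos
      by_contra hcon
      push Not at hcon
      exact lt_irrefl _ (h4 K hK hc (W K) hpos hcon)

end Pool.Agent.Q73.AD
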