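import Pool.Agent.Q73.AD.Stm

/-!
# C1: limits of solutions admit no noncritical contact
-/

set_option autoImplicit false
open MeasureTheory Filter Topology Complex Metric
open scoped ContDiff

namespace Pool.Agent.Q73.AD

open Pool.Agent.Q73.NL

/-- the conformal coordinate -/
theorem coord {G : ℂ → ℂ} {x₀ : ℂ} {r : ℝ} (hG : AnalyticAt ℂ G x₀) (hG' : deriv G x₀ ≠ 0)
    (hr : 0 < r) :
    ∃ (F : ℂ → ℂ) (R c C : ℝ), 0 < R ∧ 0 < c ∧ 1 ≤ C ∧ F 0 = x₀ ∧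
      (∀ ζ ∈ ball (0 : ℂ) R, AnalyticAt ℂ F ζ ∧ F ζ ∈ ball x₀ r ∧ G (F ζ) = G x₀ + ζ ∧
        c * ‖ζ‖ ≤ ‖F ζ - x₀‖ ∧ ‖deriv F ζ‖ ≤ C ∧ ‖deriv (deriv F) ζ‖ ≤ C) ∧
      (∀ s, 0 < s → ∃ s', 0 < s' ∧ ∀ x ∈ ball x₀ s', ∃ ζ ∈ closedBall (0 : ℂ) s, F ζ = x) := by
  set L := hG.hasStrictDerivAt.localInverse _ _ _ hG' with hL
  have hLa : AnalyticAt ℂ L (G x₀) := hG.analyticAt_localInverse hG'
  have hleft : ∀ᶠ x in 𝓝 x₀, L (G x) = x := hG.hasStrictDerivAt.eventually_left_inverse hG'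
  have hright : ∀ᶠ y in 𝓝 (G x₀), G (L y) = y := hG.hasStrictDerivAt.eventually_right_inverse hG'
  set F : ℂ → ℂ := fun ζ => L (G x₀ + ζ) with hF
  have hF0 : F 0 = x₀ := by
    simp only [hF, add_zero]
    exact hleft.self_of_nhds
  have hFa : AnalyticAt ℂ F 0 := by
    have h1 : AnalyticAt ℂ (fun ζ : ℂ => G x₀ + ζ) 0 := analyticAt_const.add analyticAt_id
    have h2 : AnalyticAt ℂ L ((fun ζ : ℂ => G x₀ + ζ) 0) := by simpa using hLa
    exact h2.comp h1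
  have ht : Tendsto (fun ζ : ℂ => G x₀ + ζ) (𝓝 0) (𝓝 (G x₀)) := by
    have : Continuous (fun ζ : ℂ => G x₀ + ζ) := by fun_prop
    simpa using this.tendsto 0
  have e1 : ∀ᶠ ζ in 𝓝 (0 : ℂ), AnalyticAt ℂ F ζ := hFa.eventually_analyticAt
  have e2 : ∀ᶠ ζ in 𝓝 (0 : ℂ), F ζ ∈ ball x₀ r := by
    refine hFa.continuousAt (isOpen_ball.mem_nhds ?_)
    rw [hF0]
    exact mem_ball_self hr
  have e3 : ∀ᶠ ζ in 𝓝 (0 : ℂ), G (F ζ) = G x₀ + ζ := ht.eventually hright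
  have e4 : ∀ᶠ ζ in 𝓝 (0 : ℂ), ‖G (F ζ) - G x₀‖ ≤ (‖deriv G x₀‖ + 1) * ‖F ζ - x₀‖ := by
    have h1 : ∀ᶠ x in 𝓝 x₀, ‖G x - G x₀‖ ≤ (‖deriv G x₀‖ + 1) * ‖x - x₀‖ := by
      have h2 := hG.differentiableAt.hasDerivAt
      rw [hasDerivAt_iff_isLittleO] at h2
      filter_upwards [h2.bound one_pos] with x hx
      have h3 : G x - G x₀ = (G x - G x₀ - (x - x₀) • deriv G x₀) + (x - x₀) • deriv G x₀ := by
        ring
      calc ‖G x - G x₀‖ ≤ ‖G x - G x₀ - (x - x₀) • deriv G x₀‖ + ‖(x - x₀) • deriv G x₀‖ := by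
            conv_lhs => rw [h3]
            exact norm_add_le _ _
        _ ≤ 1 * ‖x - x₀‖ + ‖x - x₀‖ * ‖deriv G x₀‖ := add_le_add hx (norm_smul_le _ _)
        _ = _ := by ring
    have h2 : Tendsto F (𝓝 0) (𝓝 x₀) := by
      have := hFa.continuousAt.tendsto
      rwa [hF0] at this
    exact h2.eventually h1
  have e5 : ∀ᶠ ζ in 𝓝 (0 : ℂ), ‖deriv F ζ‖ < ‖deriv F 0‖ + 1 :=
    hFa.deriv.continuousAt.norm.eventually (Iio_mem_nhds (lt_add_one _))
  have e6 : ∀ᶠ ζ in 𝓝 (0 : ℂ), ‖deriv (deriv F) ζ‖ < ‖deriv (deriv F) 0‖ + 1 :=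
    hFa.deriv.deriv.continuousAt.norm.eventually (Iio_mem_nhds (lt_add_one _))
  obtain ⟨R, hR, hall⟩ := Metric.eventually_nhds_iff_ball.1
    (e1.and (e2.and (e3.and (e4.and (e5.and e6)))))
  have hK : 0 < ‖deriv G x₀‖ + 1 := by positivity
  refine ⟨F, R, (‖deriv G x₀‖ + 1)⁻¹, ‖deriv F 0‖ + ‖deriv (deriv F) 0‖ + 1, hR,
    inv_pos.2 hK, by linarith [norm_nonneg (deriv F 0), norm_nonneg (deriv (deriv F) 0)],
    hF0, ?_, ?_⟩
  · intro ζ hζ
    obtain ⟨h1, h2, h3, h4, h5, h6⟩ := hall ζ hζ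
    refine ⟨h1, h2, h3, ?_, ?_, ?_⟩
    · rw [h3, add_sub_cancel_left] at h4
      rw [inv_mul_le_iff₀ hK]
      exact h4
    · linarith [norm_nonneg (deriv (deriv F) 0)]
    · linarith [norm_nonneg (deriv F 0)]
  · intro s hs
    have h1 : ∀ᶠ x in 𝓝 x₀, G x - G x₀ ∈ closedBall (0 : ℂ) s := by
      have h2 : ContinuousAt (fun x => G x - G x₀) x₀ := hG.continuousAt.sub continuousAt_const
      refine h2 ?_
      simp only [sub_self]
      exact closedBall_mem_nhds _ hs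
    obtain ⟨s', hs', h2⟩ := Metric.eventually_nhds_iff_ball.1 (hleft.and h1)
    refine ⟨s', hs', fun x hx => ⟨G x - G x₀, (h2 x hx).2, ?_⟩⟩
    simp only [hF, add_sub_cancel]
    exact (h2 x hx).1

/-- the potential in the conformal coordinate -/
theorem pot {F : ℂ → ℂ} {q : ℂ → ℝ} {ζ : ℂ} {C κ : ℝ} (hF : AnalyticAt ℂ F ζ) (hC : 1 ≤ C)
    (h1 : ‖deriv F ζ‖ ≤ C) (h2 : ‖deriv (deriv F) ζ‖ ≤ C) (hq : ContDiffAt ℝ 1 q (F ζ))
    (hb : |q (F ζ)| ≤ κ ^ 2) (hd : ‖fderiv ℝ q (F ζ)‖ ≤ κ ^ 2) :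
    ContDiffAt ℝ 1 (fun z => ‖deriv F z‖ ^ 2 * q (F z)) ζ ∧
      |‖deriv F ζ‖ ^ 2 * q (F ζ)| ≤ (2 * C ^ 2 * κ) ^ 2 ∧
      |dx (fun z => ‖deriv F z‖ ^ 2 * q (F z)) ζ| ≤ (2 * C ^ 2 * κ) ^ 2 := by
  have hκ : 0 ≤ κ ^ 2 := sq_nonneg κ
  have hC0 : 0 ≤ C := by linarith
  have c1 : ContDiffAt ℝ 1 F ζ := hF.contDiffAt.restrict_scalars ℝ
  have c2 : ContDiffAt ℝ 1 (deriv F) ζ := hF.deriv.contDiffAt.restrict_scalars ℝ
  have d1 : HasFDerivAt F ((ContinuousLinearMap.toSpanSingleton ℂ (deriv F ζ)).restrictScalars ℝ) ζ :=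
    hF.differentiableAt.hasDerivAt.hasFDerivAt.restrictScalars ℝ
  have d2 : HasFDerivAt (deriv F)
      ((ContinuousLinearMap.toSpanSingleton ℂ (deriv (deriv F) ζ)).restrictScalars ℝ) ζ :=
    hF.deriv.differentiableAt.hasDerivAt.hasFDerivAt.restrictScalars ℝ
  have d3 : HasFDerivAt q (fderiv ℝ q (F ζ)) (F ζ) := (hq.differentiableAt (by simp)).hasFDerivAt
  refine ⟨(c2.norm_sq ℝ).mul (hq.comp ζ c1), ?_, ?_⟩
  · rw [abs_mul, abs_of_nonneg (by positivity : 0 ≤ ‖deriv F ζ‖ ^ 2)]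
    calc ‖deriv F ζ‖ ^ 2 * |q (F ζ)| ≤ C ^ 2 * κ ^ 2 :=
          mul_le_mul (pow_le_pow_left₀ (norm_nonneg _) h1 2) hb (abs_nonneg _) (by positivity)
      _ ≤ (4 * C ^ 4) * κ ^ 2 := by
        refine mul_le_mul_of_nonneg_right ?_ hκ
        have e1 : (1 : ℝ) ≤ C ^ 2 := one_le_pow₀ hC
        nlinarith
      _ = _ := by ring
  · have h3 := (d2.norm_sq).mul (d3.comp ζ d1)
    have h4 : fderiv ℝ (fun z => ‖deriv F z‖ ^ 2 * q (F z)) ζ = _ := h3.fderiv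
    unfold dx
    rw [h4]
    simp only [add_apply, smul_apply, ContinuousLinearMap.comp_apply,
      ContinuousLinearMap.coe_restrictScalars', ContinuousLinearMap.toSpanSingleton_apply,
      smul_eq_mul, one_mul, Function.comp_apply, innerSL_apply_apply]
    have b1 : |fderiv ℝ q (F ζ) (deriv F ζ)| ≤ κ ^ 2 * C := by
      refine ((fderiv ℝ q (F ζ)).le_opNorm _).trans ?_
      exact mul_le_mul hd h1 (norm_nonneg _) hκ
    have b2 : |inner ℝ (deriv F ζ) (deriv (deriv F) ζ)| ≤ C * C := by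
      refine (abs_real_inner_le_norm _ _).trans ?_
      exact mul_le_mul h1 h2 (norm_nonneg _) hC0
    have b3 : ‖deriv F ζ‖ ^ 2 ≤ C ^ 2 := pow_le_pow_left₀ (norm_nonneg _) h1 2
    refine (abs_add_le _ _).trans ?_
    rw [abs_mul, abs_mul, abs_of_nonneg (by positivity : 0 ≤ ‖deriv F ζ‖ ^ 2)]
    have b4 : ‖deriv F ζ‖ ^ 2 * |fderiv ℝ q (F ζ) (deriv F ζ)| ≤ C ^ 2 * (κ ^ 2 * C) :=
      mul_le_mul b3 b1 (abs_nonneg _) (by positivity)
    have b5 : |q (F ζ)| * |2 • inner ℝ (deriv F ζ) (deriv (deriv F) ζ)| ≤ κ ^ 2 * (2 * (C * C)) := by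
      refine mul_le_mul hb ?_ (abs_nonneg _) hκ
      rw [nsmul_eq_mul, abs_mul]
      simpa using b2
    have b6 : C ^ 2 * (κ ^ 2 * C) + κ ^ 2 * (2 * (C * C)) ≤ (2 * C ^ 2 * κ) ^ 2 := by
      have e1 : (1 : ℝ) ≤ C ^ 2 := one_le_pow₀ hC
      have e2 : C ^ 3 + 2 * C ^ 2 ≤ 4 * C ^ 4 := by
        have e3 : C ^ 3 ≤ C ^ 4 := pow_le_pow_right₀ hC (by norm_num)
        have e4 : C ^ 2 ≤ C ^ 4 := pow_le_pow_right₀ hC (by norm_num)
        have e5 : 0 ≤ C ^ 4 := by positivity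
        linarith
      have := mul_le_mul_of_nonneg_right e2 hκ
      nlinarith
    exact (add_le_add b4 b5).trans b6

theorem rp {t N y : ℝ} (ht : 0 < t) : (t * Real.exp y) ^ N = t ^ N * Real.exp (N * y) := by
  rw [Real.mul_rpow ht.le (Real.exp_pos _).le, ← Real.exp_mul, mul_comm y N]

/-- the polynomial factor is absorbed -/
theorem absorb {C s δ N : ℝ} (hs : 0 < s) (hδ : 0 < δ) (hN : 0 < N)
    (h : 384 * C / (s * δ ^ 3) ≤ N) : C * N ^ 2 / s ≤ Real.exp (N * δ / 4) := by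
  have h1 := Real.pow_div_factorial_le_exp (N * δ / 4) (by positivity) 3
  refine le_trans ?_ h1
  rw [div_le_iff₀ (by positivity)] at h
  rw [div_le_iff₀ hs]
  have h2 : ((Nat.factorial 3 : ℕ) : ℝ) = 6 := by norm_num [Nat.factorial]
  rw [h2]
  have h3 : N ^ 2 * (384 * C) ≤ N ^ 2 * (N * (s * δ ^ 3)) :=
    mul_le_mul_of_nonneg_left h (by positivity)
  have h4 : (N * δ / 4) ^ 3 / 6 * s = N ^ 2 * (N * (s * δ ^ 3)) / 384 := by ring
  rw [h4, le_div_iff₀ (by norm_num)]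
  linarith

set_option maxHeartbeats 1000000 in
theorem tc1 (h4 : A4) (h5 : A5) : C1 := by
  intro 𝒰 D N κ q φ W w h𝒰 hD hS hW hw x₀ G ε r hx₀ hw0 hG hG' hε hr hrD hcon
  obtain ⟨F, R₀, c, CF, hR₀, hc, hCF, hF0, hF, hFs⟩ := coord hG hG' hr
  -- the constants
  set a : ℝ := ε * c ^ 2 / 2 with ha
  have ha0 : 0 < a := by positivity
  set R : ℝ := min R₀ (1 / (4 * a)) with hR
  have hR0 : 0 < R := lt_min hR₀ (by positivity)
  have hRR : R ≤ R₀ := min_le_left _ _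
  have haR : 4 * a * R ≤ 1 := by
    have h1 : R ≤ 1 / (4 * a) := min_le_right _ _
    calc 4 * a * R ≤ 4 * a * (1 / (4 * a)) := mul_le_mul_of_nonneg_left h1 (by positivity)
      _ = 1 := by field_simp
  obtain ⟨C, hC1, hC⟩ := h4 a R ha0 hR0 haR
  set δ : ℝ := a * (R / 4) ^ 2 / 2 with hδ
  have hδ0 : 0 < δ := by positivity
  set s : ℝ := min (R / 8) (δ / 4) with hs
  have hs0 : 0 < s := lt_min (by positivity) (by positivity)
  have hsR : 8 * s ≤ R := by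
    have : s ≤ R / 8 := min_le_left _ _
    linarith
  have hsδ : s ≤ δ / 4 := min_le_right _ _
  have hsub : ∀ ζ ∈ ball (0 : ℂ) R, ζ ∈ ball (0 : ℂ) R₀ := fun ζ hζ => ball_subset_ball hRR hζ
  -- the exponents are large
  have hNκ : ∀ T : ℝ, ∀ᶠ j in (𝒰 : Filter ℕ), T * κ j ≤ N j := by
    intro T
    have h1 := (hS.ratio.mono_left h𝒰).eventually (eventually_ge_atTop T)
    filter_upwards [h1] with j hj
    have h2 : 0 < κ j := lt_of_lt_of_le one_pos (hS.one j)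
    exact (le_div_iff₀ h2).1 hj
  have hNT : ∀ T : ℝ, ∀ᶠ j in (𝒰 : Filter ℕ), T ≤ N j := by
    intro T
    filter_upwards [hNκ |T|] with j hj
    have h2 := hS.one j
    have h3 : |T| * 1 ≤ |T| * κ j := mul_le_mul_of_nonneg_left h2 (abs_nonneg _)
    linarith [le_abs_self T]
  -- smallness on the annulus
  set A : Set ℂ := {ζ | R / 4 ≤ ‖ζ‖ ∧ ‖ζ‖ ≤ 3 * R / 4} with hA
  have hAc : IsCompact A := by
    have h1 : A = closedBall 0 (3 * R / 4) ∩ {ζ : ℂ | R / 4 ≤ ‖ζ‖} := by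
      ext ζ
      simp [hA, and_comm]
    rw [h1]
    exact (isCompact_closedBall _ _).inter_right (isClosed_le continuous_const continuous_norm)
  have hAR : ∀ ζ ∈ A, ζ ∈ ball (0 : ℂ) R := by
    intro ζ hζ
    rw [mem_ball_zero_iff]
    linarith [hζ.2]
  have hann : ∀ᶠ j in (𝒰 : Filter ℕ), ∀ ζ ∈ A,
      |φ j (F ζ)| ≤ w x₀ ^ N j * Real.exp (N j * (psi a ζ - δ)) := by
    refine hAc.induction_on (p := fun S => ∀ᶠ j in (𝒰 : Filter ℕ), ∀ ζ ∈ S,
      |φ j (F ζ)| ≤ w x₀ ^ N j * Real.exp (N j * (psi a ζ - δ))) ?_ ?_ ?_ ?_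
    · exact Eventually.of_forall fun j ζ hζ => absurd hζ (Set.notMem_empty ζ)
    · intro S T hST hT
      filter_upwards [hT] with j hj ζ hζ using hj ζ (hST hζ)
    · intro S T hS' hT
      filter_upwards [hS', hT] with j h1 h2 ζ hζ
      rcases hζ with hζ | hζ
      · exact h1 ζ hζ
      · exact h2 ζ hζ
    · intro ζ hζ
      obtain ⟨f1, f2, f3, f4, -, -⟩ := hF ζ (hsub ζ (hAR ζ hζ))
      have hlt : w (F ζ) < w x₀ * Real.exp (psi a ζ - 3 * δ / 2) := by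
        have g1 := hcon (F ζ) f2
        rw [f3, add_sub_cancel_left] at g1
        refine g1.trans_lt ?_
        refine mul_lt_mul_of_pos_left (Real.exp_lt_exp.2 ?_) hw0
        have g2 : c ^ 2 * ‖ζ‖ ^ 2 ≤ ‖F ζ - x₀‖ ^ 2 := by
          rw [← mul_pow]
          exact pow_le_pow_left₀ (by positivity) f4 2
        have g3 : ε * (c ^ 2 * ‖ζ‖ ^ 2) ≤ ε * ‖F ζ - x₀‖ ^ 2 :=
          mul_le_mul_of_nonneg_left g2 hε.le
        have g4 : ζ.re ^ 2 ≤ ‖ζ‖ ^ 2 := by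
          rw [← sq_abs]
          exact pow_le_pow_left₀ (abs_nonneg _) (Complex.abs_re_le_norm ζ) 2
        have g5 : a * ζ.re ^ 2 ≤ a * ‖ζ‖ ^ 2 := mul_le_mul_of_nonneg_left g4 ha0.le
        have g6 : (R / 4) ^ 2 ≤ ‖ζ‖ ^ 2 := pow_le_pow_left₀ (by positivity) hζ.1 2
        have g7 : a * (R / 4) ^ 2 ≤ a * ‖ζ‖ ^ 2 := mul_le_mul_of_nonneg_left g6 ha0.le
        have g8 : ε * (c ^ 2 * ‖ζ‖ ^ 2) = 2 * (a * ‖ζ‖ ^ 2) := by
          rw [ha]
          ring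
        have g9 : 2 * δ = a * (R / 4) ^ 2 := by
          rw [hδ]
          ring
        unfold psi
        linarith
      obtain ⟨ρ, hρ, hρD, hρW⟩ := hw.ex (F ζ) (hrD f2) _ hlt
      have g1 := hW.lt (ball (F ζ) ρ) hρD _ hρW
      have g2 : ∀ᶠ η in 𝓝 ζ, F η ∈ ball (F ζ) ρ := f1.continuousAt (ball_mem_nhds _ hρ)
      have g3 : ∀ᶠ η in 𝓝 ζ, psi a ζ - δ / 2 < psi a η := by
        have : Continuous (psi a) := by
          unfold psi
          fun_prop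
        exact this.continuousAt.eventually (Ioi_mem_nhds (by linarith))
      refine ⟨{η | F η ∈ ball (F ζ) ρ ∧ psi a ζ - δ / 2 < psi a η},
        mem_nhdsWithin_of_mem_nhds (g2.and g3), ?_⟩
      filter_upwards [g1, hNT 1] with j hj hNj η hη
      refine (hj _ hη.1).trans ?_
      rw [rp hw0]
      refine mul_le_mul_of_nonneg_left (Real.exp_le_exp.2 ?_) (Real.rpow_nonneg hw0.le _)
      exact mul_le_mul_of_nonneg_left (by linarith [hη.2]) (by linarith)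
  -- propagation to the centre
  obtain ⟨s', hs', hFs'⟩ := hFs s hs0
  have hmin : 0 < min s' r := lt_min hs' hr
  have hballD : ball x₀ (min s' r) ⊆ D := (ball_subset_ball (min_le_right _ _)).trans hrD
  have hfin : ∀ᶠ j in (𝒰 : Filter ℕ), ∀ x ∈ ball x₀ (min s' r),
      |φ j x| ≤ (w x₀ * Real.exp (-(δ / 4))) ^ N j := by
    filter_upwards [hann, hNκ (C * (2 * CF ^ 2)), hNT 1, hNT (384 * C / (s * δ ^ 3))] with
      j hj1 hj2 hj3 hj4 x hx
    obtain ⟨ζ, hζ, rfl⟩ := hFs' x (ball_subset_ball (min_le_left _ _) hx)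
    have hκ1 : 1 ≤ 2 * CF ^ 2 * κ j := by
      have e1 : (1 : ℝ) ≤ CF ^ 2 := one_le_pow₀ hCF
      have e2 := hS.one j
      nlinarith
    have k1 := hC (N j) (2 * CF ^ 2 * κ j) (w x₀ ^ N j * Real.exp (-(N j * δ))) s
      (fun z => ‖deriv F z‖ ^ 2 * q j (F z)) (fun z => φ j (F z)) hκ1
      (by rw [← mul_assoc]; exact hj2) hs0 hsR (fun z hz => by
        obtain ⟨f1, f2, f3, f4, f5, f6⟩ := hF z (hsub z hz)
        have hFD : F z ∈ D := hrD f2
        have hn : D ∈ 𝓝 (F z) := hD.mem_nhds hFD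
        have p1 := pot f1 hCF f5 f6 ((hS.qsmooth j).contDiffAt hn) (hS.qb j _ hFD) (hS.dqb j _ hFD)
        have p2 : ContDiffAt ℝ ∞ (φ j) (F z) := (hS.smooth j).contDiffAt hn
        have p3 : ContDiffAt ℝ ∞ F z := f1.contDiffAt.restrict_scalars ℝ
        refine ⟨p2.comp z p3, p1.1, p1.2.1, p1.2.2, ?_⟩
        rw [h5 F (φ j) z f1 (p2.of_le (by exact WithTop.coe_le_coe.2 le_top))]
        have p4 := hS.eq j _ hFD
        calc ‖deriv F z‖ ^ 2 * lap (φ j) (F z) + ‖deriv F z‖ ^ 2 * q j (F z) * φ j (F z) =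
            ‖deriv F z‖ ^ 2 * (lap (φ j) (F z) + q j (F z) * φ j (F z)) := by ring
          _ = 0 := by rw [p4, mul_zero])
      (fun z hz1 hz2 => by
        have k2 := hj1 z ⟨hz1, hz2⟩
        calc Real.exp (-N j * psi a z) * |φ j (F z)| ≤
            Real.exp (-N j * psi a z) * (w x₀ ^ N j * Real.exp (N j * (psi a z - δ))) :=
              mul_le_mul_of_nonneg_left k2 (Real.exp_pos _).le
          _ = w x₀ ^ N j * (Real.exp (-N j * psi a z) * Real.exp (N j * (psi a z - δ))) := by ring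
          _ = w x₀ ^ N j * Real.exp (-(N j * δ)) := by
            rw [← Real.exp_add]
            congr 2
            ring
          _ ≤ _ := le_rfl) ζ hζ
    refine k1.trans ?_
    have hNpos : 0 < N j := by linarith
    have k3 := absorb (C := C) hs0 hδ0 hNpos hj4
    have hwp : 0 ≤ w x₀ ^ N j := Real.rpow_nonneg hw0.le _
    rw [rp hw0]
    calc C * N j ^ 2 / s * Real.exp (2 * N j * s) * (w x₀ ^ N j * Real.exp (-(N j * δ))) ≤
        Real.exp (N j * δ / 4) * Real.exp (2 * N j * s) *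
          (w x₀ ^ N j * Real.exp (-(N j * δ))) := by
          refine mul_le_mul_of_nonneg_right (mul_le_mul_of_nonneg_right k3 (Real.exp_pos _).le) ?_
          exact mul_nonneg hwp (Real.exp_pos _).le
      _ = w x₀ ^ N j * Real.exp (N j * δ / 4 + 2 * N j * s + -(N j * δ)) := by
          rw [Real.exp_add, Real.exp_add]
          ring
      _ ≤ w x₀ ^ N j * Real.exp (N j * -(δ / 4)) := by
          refine mul_le_mul_of_nonneg_left (Real.exp_le_exp.2 ?_) hwp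
          have k4 : N j * s ≤ N j * (δ / 4) := mul_le_mul_of_nonneg_left hsδ hNpos.le
          linarith
  have e1 := hW.le _ hballD _ (mul_nonneg hw0.le (Real.exp_pos _).le) hfin
  have e2 := hw.le x₀ hx₀ _ hmin hballD
  have e3 : w x₀ * Real.exp (-(δ / 4)) < w x₀ * 1 := by
    refine mul_lt_mul_of_pos_left ?_ hw0
    rw [Real.exp_lt_one_iff]
    linarith
  linarith

end Pool.Agent.Q73.AD
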