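import Pool.Agent.Q73.AD.Stm

/-!
# C2: removal of the condition on the gradient by tilting (helper24)
-/

set_option autoImplicit false
open MeasureTheory Filter Topology Complex Metric
open scoped ContDiff ComplexConjugate

namespace Pool.Agent.Q73.AD

open Pool.Agent.Q73.NL

/-- the product of an upper semicontinuous function and a positive continuous function -/
lemma usc_mul_pos2 {K : Set ℂ} {w g : ℂ → ℝ} (hw : UpperSemicontinuousOn w K)
    (hg : ContinuousOn g K) (hpos : ∀ x ∈ K, 0 < g x) :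
    UpperSemicontinuousOn (fun x => w x * g x) K := by
  intro x hx y hy
  have hgx := hpos x hx
  have h1 : w x < y / g x := by
    rw [lt_div_iff₀ hgx]
    exact hy
  obtain ⟨t, ht1, ht2⟩ := exists_between h1
  have h2 : t * g x < y := by rwa [lt_div_iff₀ hgx] at ht2
  have h3 : ∀ᶠ x' in 𝓝[K] x, w x' < t := hw x hx t ht1
  have h4 : Tendsto (fun x' => t * g x') (𝓝[K] x) (𝓝 (t * g x)) := (hg x hx).const_mul t
  have h5 : ∀ᶠ x' in 𝓝[K] x, t * g x' < y := h4.eventually_lt_const h2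
  filter_upwards [h3, h5, self_mem_nhdsWithin] with x' a b c
  exact lt_of_le_of_lt (mul_le_mul_of_nonneg_right a.le (hpos x' c).le) b

lemma nsq (z : ℂ) : ‖z‖ ^ 2 = z.re ^ 2 + z.im ^ 2 := by
  rw [← Complex.normSq_eq_norm_sq, Complex.normSq_apply]; ring

/-- the quadratic function -/
noncomputable def gq (b : ℂ) (ε : ℝ) (y : ℂ) : ℝ := (b * y ^ 2).re - ε * ‖y‖ ^ 2

lemma gq_cont (b : ℂ) (ε : ℝ) : Continuous (gq b ε) := by
  unfold gq
  fun_prop

lemma gq_add (b : ℂ) (ε : ℝ) (u z : ℂ) :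
    gq b ε (u + z) - gq b ε u = (b * z ^ 2 + (2 * b * u - 2 * ε * conj u) * z).re - ε * ‖z‖ ^ 2 := by
  unfold gq
  rw [nsq, nsq, nsq]
  simp only [Complex.add_re, Complex.add_im, Complex.mul_re, Complex.mul_im, Complex.sub_re, Complex.sub_im, pow_two,
    Complex.conj_re, Complex.conj_im, Complex.ofReal_re, Complex.ofReal_im, Complex.re_ofNat, Complex.im_ofNat]
  ring

lemma gq_shift_le (b : ℂ) (ε : ℝ) (hε : 0 ≤ ε) {y v : ℂ} {ρ : ℝ} (hy : ‖y‖ ≤ ρ) (hv : ‖v‖ ≤ ρ) :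
    gq b ε y - gq b ε (y - v) ≤ (‖b‖ + ε) * (3 * ρ) * ‖v‖ := by
  have hv0 := norm_nonneg v
  have hy0 := norm_nonneg y
  have hb0 := norm_nonneg b
  have e : gq b ε y - gq b ε (y - v) = (b * (2 * y - v) * v).re - ε * (‖y‖ ^ 2 - ‖y - v‖ ^ 2) := by
    unfold gq
    have : b * (2 * y - v) * v = b * y ^ 2 - b * (y - v) ^ 2 := by ring
    rw [this, Complex.sub_re]
    ring
  rw [e]
  have h1 : (b * (2 * y - v) * v).re ≤ ‖b‖ * (3 * ρ) * ‖v‖ := by
    refine (Complex.re_le_norm _).trans ?_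
    rw [norm_mul, norm_mul]
    have h2 : ‖2 * y - v‖ ≤ 3 * ρ := by
      refine (norm_sub_le _ _).trans ?_
      rw [norm_mul, Complex.norm_ofNat]
      linarith
    gcongr
  have h2 : -(ε * (‖y‖ ^ 2 - ‖y - v‖ ^ 2)) ≤ ε * (3 * ρ) * ‖v‖ := by
    have h3 : ‖y - v‖ ≤ ‖y‖ + ‖v‖ := norm_sub_le _ _
    have h4 : ‖y - v‖ ^ 2 ≤ (‖y‖ + ‖v‖) ^ 2 := pow_le_pow_left₀ (norm_nonneg _) h3 2
    have h5 : ‖y - v‖ ^ 2 - ‖y‖ ^ 2 ≤ 3 * ρ * ‖v‖ := by nlinarith
    calc -(ε * (‖y‖ ^ 2 - ‖y - v‖ ^ 2)) = ε * (‖y - v‖ ^ 2 - ‖y‖ ^ 2) := by ring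
      _ ≤ ε * (3 * ρ * ‖v‖) := mul_le_mul_of_nonneg_left h5 hε
      _ = _ := by ring
  nlinarith

lemma exists_dir (b : ℂ) : ∃ e : ℂ, ‖e‖ = 1 ∧ b * e ^ 2 = -(‖b‖ : ℂ) := by
  by_cases hb : b = 0
  · exact ⟨1, by simp, by simp [hb]⟩
  · obtain ⟨e, he⟩ := IsAlgClosed.exists_pow_nat_eq (-(‖b‖ : ℂ) / b) (n := 2) (by norm_num)
    have hnb : ‖b‖ ≠ 0 := norm_ne_zero_iff.2 hb
    refine ⟨e, ?_, ?_⟩
    · have h1 : ‖e‖ ^ 2 = 1 := by
        rw [← norm_pow, he, norm_div, norm_neg, Complex.norm_real, norm_norm, div_self hnb]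
      have h2 := norm_nonneg e
      nlinarith
    · rw [he, mul_div_cancel₀ _ hb]

theorem tc2 : C2 := by
  intro D w hD hw0 husc hNC1 x₀ G ε r hx₀ hwx₀ hG hε hr hball hcon
  by_cases hG' : deriv G x₀ ≠ 0
  · exact hNC1 x₀ G ε r hx₀ hwx₀ hG hG' hε hr hball hcon
  push Not at hG'
  -- the second order expansion
  obtain ⟨H, hHc, hH⟩ : ∃ H : ℂ → ℂ, ContinuousAt H x₀ ∧ ∀ x, G x - G x₀ = (x - x₀) ^ 2 * H x := by
    obtain ⟨p, hp⟩ := hG
    have h1 := hp.has_fpower_series_dslope_fslope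
    have h2 := h1.has_fpower_series_dslope_fslope
    refine ⟨dslope (dslope G x₀) x₀, h2.analyticAt.continuousAt, fun x => ?_⟩
    have h3 := sub_smul_dslope G x₀ x
    have h4 := sub_smul_dslope (dslope G x₀) x₀ x
    rw [dslope_same, hG', sub_zero, smul_eq_mul] at h4
    rw [smul_eq_mul] at h3
    rw [← h3, ← h4]
    ring
  set b : ℂ := H x₀ with hb
  obtain ⟨ε', hε'0, hε'1, hε'b⟩ : ∃ ε' : ℝ, 0 < ε' ∧ ε' ≤ ε / 2 ∧ ε' ≠ ‖b‖ := by
    by_cases h : ‖b‖ = ε / 2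
    · exact ⟨ε / 4, by linarith, by linarith, by rw [h]; intro h'; linarith⟩
    · exact ⟨ε / 2, by linarith, le_rfl, fun h' => h h'.symm⟩
  obtain ⟨ρ, hρ0, hρr, hρH⟩ : ∃ ρ : ℝ, 0 < ρ ∧ ρ < r ∧ ∀ x, ‖x - x₀‖ ≤ ρ → ‖H x - b‖ ≤ ε / 4 := by
    obtain ⟨δ, hδ, h1⟩ := Metric.continuousAt_iff.1 hHc (ε / 4) (by linarith)
    refine ⟨min (δ / 2) (r / 2), by positivity, lt_of_le_of_lt (min_le_right _ _) (by linarith), fun x hx => ?_⟩
    have h2 : dist x x₀ < δ := by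
      rw [dist_eq_norm]
      exact lt_of_le_of_lt (hx.trans (min_le_left _ _)) (by linarith)
    have h3 := h1 h2
    rw [dist_eq_norm] at h3
    exact h3.le
  have hKr : closedBall x₀ ρ ⊆ ball x₀ r := closedBall_subset_ball hρr
  have hKD : closedBall x₀ ρ ⊆ D := hKr.trans hball
  -- the bound with the quadratic function
  have hwb : ∀ x, ‖x - x₀‖ ≤ ρ → w x ≤ w x₀ * Real.exp (gq b ε' (x - x₀) - ε / 4 * ‖x - x₀‖ ^ 2) := by
    intro x hx
    have hxb : x ∈ ball x₀ r := hKr (by rwa [mem_closedBall, dist_eq_norm])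
    refine (hcon x hxb).trans (mul_le_mul_of_nonneg_left (Real.exp_le_exp.2 ?_) hwx₀.le)
    rw [hH x]
    have h1 : (x - x₀) ^ 2 * H x = b * (x - x₀) ^ 2 + (x - x₀) ^ 2 * (H x - b) := by ring
    have h2 : ((x - x₀) ^ 2 * (H x - b)).re ≤ ε / 4 * ‖x - x₀‖ ^ 2 := by
      refine (Complex.re_le_norm _).trans ?_
      rw [norm_mul, norm_pow, mul_comm]
      exact mul_le_mul_of_nonneg_right (hρH x hx) (by positivity)
    rw [h1, Complex.add_re]
    unfold gq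
    have h3 : 0 ≤ ‖x - x₀‖ ^ 2 := by positivity
    have h4 : ε' * ‖x - x₀‖ ^ 2 ≤ ε / 2 * ‖x - x₀‖ ^ 2 := mul_le_mul_of_nonneg_right hε'1 h3
    linarith
  obtain ⟨e, he1, he2⟩ := exists_dir b
  -- the size of the tilt
  obtain ⟨s, hs0, hsρ, hs1⟩ : ∃ s : ℝ, 0 < s ∧ s ≤ ρ ∧ (‖b‖ + ε') * (3 * ρ) * s ≤ ε / 8 * ρ ^ 2 := by
    have hq : 0 < (‖b‖ + ε') * (3 * ρ) := by positivity
    refine ⟨min ρ (ε / 8 * ρ ^ 2 / ((‖b‖ + ε') * (3 * ρ))), by positivity, min_le_left _ _, ?_⟩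
    calc _ ≤ (‖b‖ + ε') * (3 * ρ) * (ε / 8 * ρ ^ 2 / ((‖b‖ + ε') * (3 * ρ))) :=
          mul_le_mul_of_nonneg_left (min_le_right _ _) hq.le
      _ = _ := mul_div_cancel₀ _ hq.ne'
  have hse : ‖(s : ℂ) * e‖ = s := by
    rw [norm_mul, he1, mul_one, Complex.norm_real, Real.norm_eq_abs, abs_of_pos hs0]
  have hgse : ∀ v : ℂ, v ^ 2 = ((s : ℂ) * e) ^ 2 → ‖v‖ = s → gq b ε' v = -((‖b‖ + ε') * s ^ 2) := by
    intro v hv hvn
    unfold gq
    rw [hv, hvn]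
    have : b * ((s : ℂ) * e) ^ 2 = ((-(‖b‖ * s ^ 2) : ℝ) : ℂ) := by
      have : b * ((s : ℂ) * e) ^ 2 = (b * e ^ 2) * (s : ℂ) ^ 2 := by ring
      rw [this, he2]
      push_cast
      ring
    rw [this, Complex.ofReal_re]
    ring
  -- the maximum of the tilted function
  set c : ℂ → ℝ := fun x => Real.exp (-gq b ε' (x - x₀ - s * e)) with hc
  have hccont : Continuous c := by
    rw [hc]
    exact Real.continuous_exp.comp ((gq_cont b ε').comp (by fun_prop)).neg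
  obtain ⟨x₁, hx₁K, hx₁⟩ := UpperSemicontinuousOn.exists_isMaxOn (f := fun x => w x * c x)
    ⟨x₀, mem_closedBall_self hρ0.le⟩ (isCompact_closedBall x₀ ρ)
    (usc_mul_pos2 (husc.mono hKD) hccont.continuousOn fun x _ => Real.exp_pos _)
  have hx₁ρ : ‖x₁ - x₀‖ ≤ ρ := by rwa [mem_closedBall, dist_eq_norm] at hx₁K
  -- the value at `x₀`
  have hv0 : w x₀ < w x₁ * c x₁ := by
    have h1 : w x₀ * c x₀ ≤ w x₁ * c x₁ := hx₁ (mem_closedBall_self hρ0.le)
    refine lt_of_lt_of_le ?_ h1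
    have h2 : gq b ε' (x₀ - x₀ - s * e) = -((‖b‖ + ε') * s ^ 2) :=
      hgse _ (by ring) (by rw [sub_self, zero_sub, norm_neg, hse])
    have h3 : 1 < c x₀ := by
      simp only [hc]
      rw [h2, neg_neg]
      exact Real.one_lt_exp_iff.2 (by positivity)
    calc w x₀ = w x₀ * 1 := (mul_one _).symm
      _ < _ := mul_lt_mul_of_pos_left h3 hwx₀
  have hwx₁ : 0 < w x₁ := by
    have h1 : 0 < w x₁ * c x₁ := hwx₀.trans hv0
    exact pos_of_mul_pos_left h1 (Real.exp_pos _).le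
  -- the bound of the tilted function
  have hub : ∀ x, ‖x - x₀‖ ≤ ρ → w x * c x ≤ w x₀ * Real.exp (gq b ε' (x - x₀) - gq b ε' (x - x₀ - s * e) -
      ε / 4 * ‖x - x₀‖ ^ 2) := by
    intro x hx
    calc w x * c x ≤ (w x₀ * Real.exp (gq b ε' (x - x₀) - ε / 4 * ‖x - x₀‖ ^ 2)) * c x :=
          mul_le_mul_of_nonneg_right (hwb x hx) (Real.exp_pos _).le
      _ = _ := by
          simp only [hc]
          rw [mul_assoc, ← Real.exp_add]
          congr 2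
          ring
  -- the maximum is attained in the interior
  have hx₁lt : ‖x₁ - x₀‖ < ρ := by
    refine lt_of_le_of_ne hx₁ρ fun heq => ?_
    have h1 := hub x₁ hx₁ρ
    have h2 := gq_shift_le b ε' hε'0.le (y := x₁ - x₀) (v := s * e) hx₁ρ (by rw [hse]; exact hsρ)
    rw [hse] at h2
    have h3 : gq b ε' (x₁ - x₀) - gq b ε' (x₁ - x₀ - s * e) - ε / 4 * ‖x₁ - x₀‖ ^ 2 ≤ 0 := by
      rw [heq]
      have : 0 ≤ ε / 8 * ρ ^ 2 := by positivity
      have h4 : ε / 4 * ρ ^ 2 = ε / 8 * ρ ^ 2 + ε / 8 * ρ ^ 2 := by ring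
      linarith
    have h4 : w x₁ * c x₁ ≤ w x₀ := h1.trans (by
      calc _ ≤ w x₀ * 1 := mul_le_mul_of_nonneg_left (Real.exp_le_one_iff.2 h3) hwx₀.le
        _ = _ := mul_one _)
    linarith
  set u : ℂ := x₁ - x₀ - s * e with hu
  set G1 : ℂ → ℂ := fun x => b * (x - x₁) ^ 2 + (2 * b * u - 2 * ε' * conj u) * (x - x₁) with hG1
  have hG1an : AnalyticAt ℂ G1 x₁ := by
    rw [hG1]
    fun_prop
  have hG1d : deriv G1 x₁ = 2 * b * u - 2 * ε' * conj u := by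
    have h1 : HasDerivAt (fun x : ℂ => x - x₁) 1 x₁ := (hasDerivAt_id x₁).sub_const x₁
    have h2 : HasDerivAt G1 (b * (2 * (x₁ - x₁) ^ 1 * 1) + (2 * b * u - 2 * ε' * conj u) * 1) x₁ := by
      have h3 := (h1.pow 2).const_mul b
      have h4 := h1.const_mul (2 * b * u - 2 * ε' * conj u)
      have h5 := h3.add h4
      refine h5.congr_deriv ?_
      push_cast
      ring
    rw [h2.deriv]
    ring
  -- the gradient does not vanish
  have hne : deriv G1 x₁ ≠ 0 := by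
    rw [hG1d]
    intro h0
    have h1 : b * u = ε' * conj u := by linear_combination h0 / 2
    have h2 : ‖b‖ * ‖u‖ = ε' * ‖u‖ := by
      rw [← norm_mul, h1, norm_mul, Complex.norm_real, Real.norm_eq_abs, abs_of_pos hε'0, RCLike.norm_conj]
    have h3 : u = 0 := by
      by_contra hne
      exact hε'b (mul_right_cancel₀ (norm_ne_zero_iff.2 hne) h2).symm
    have h4 := hub x₁ hx₁ρ
    have h5 : x₁ - x₀ = s * e := by
      rw [hu] at h3
      exact sub_eq_zero.1 h3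
    rw [← hu, h3, h5] at h4
    have h6 : gq b ε' 0 = 0 := by unfold gq; simp
    rw [hgse _ rfl hse, h6, hse] at h4
    have h7 : -((‖b‖ + ε') * s ^ 2) - 0 - ε / 4 * s ^ 2 ≤ 0 := by
      have : 0 ≤ (‖b‖ + ε') * s ^ 2 := by positivity
      have : 0 ≤ ε / 4 * s ^ 2 := by positivity
      linarith
    have h8 : w x₁ * c x₁ ≤ w x₀ := h4.trans (by
      calc _ ≤ w x₀ * 1 := mul_le_mul_of_nonneg_left (Real.exp_le_one_iff.2 h7) hwx₀.le
        _ = _ := mul_one _)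
    linarith
  -- the contact at `x₁`
  have hsub : ball x₁ (ρ - ‖x₁ - x₀‖) ⊆ closedBall x₀ ρ := by
    refine (ball_subset_ball' ?_).trans ball_subset_closedBall
    rw [dist_eq_norm]
    linarith
  refine hNC1 x₁ G1 ε' (ρ - ‖x₁ - x₀‖) (hKD hx₁K) hwx₁ hG1an hne hε'0 (by linarith) (hsub.trans hKD) fun x hx => ?_
  have h1 : w x * c x ≤ w x₁ * c x₁ := hx₁ (hsub hx)
  have h2 : gq b ε' (x - x₀ - s * e) - gq b ε' u = (G1 x - G1 x₁).re - ε' * ‖x - x₁‖ ^ 2 := by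
    have h3 : x - x₀ - s * e = u + (x - x₁) := by rw [hu]; ring
    rw [h3, gq_add]
    simp only [hG1, sub_self]
    congr 2
    ring
  rw [← h2]
  have h3 : c x₁ = Real.exp (-gq b ε' u) := rfl
  have h4 : w x = (w x * c x) * Real.exp (gq b ε' (x - x₀ - s * e)) := by
    simp only [hc]
    rw [mul_assoc, ← Real.exp_add, neg_add_cancel, Real.exp_zero, mul_one]
  rw [h4, Real.exp_sub]
  calc (w x * c x) * Real.exp (gq b ε' (x - x₀ - s * e)) ≤ (w x₁ * c x₁) * Real.exp (gq b ε' (x - x₀ - s * e)) :=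
        mul_le_mul_of_nonneg_right h1 (Real.exp_pos _).le
    _ = _ := by
        rw [h3, Real.exp_neg]
        field_simp

end Pool.Agent.Q73.AD
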