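import Pool.Agent.Q73.AD.Stm

/-!
# Jobs AD-10 and AD-11: comparison principles for functions without contact points
-/

set_option autoImplicit false
open MeasureTheory Filter Topology Complex Metric
open scoped ContDiff ComplexConjugate

namespace Pool.Agent.Q73.AD

open Pool.Agent.Q73.NL

/-- the product of an upper semicontinuous function and a positive continuous function -/
lemma usc_mul_pos {K : Set ℂ} {w g : ℂ → ℝ} (hw : UpperSemicontinuousOn w K)
    (hg : ContinuousOn g K) (hpos : ∀ x ∈ K, 0 < g x) :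
    UpperSemicontinuousOn (fun x => w x * g x) K := by
  intro x hx y hy
  have hgx := hpos x hx
  have h1 : w x < y / g x := by
    rw [lt_div_iff₀ hgx]
    exact hy
  obtain ⟨t, ht1, ht2⟩ := exists_between h1
  have h2 : t * g x < y := by rwa [lt_div_iff₀ hgx] at ht2
  have h3 : ∀ᶠ x' in 𝓝[K] x, w x' < t := hw x hx t ht1
  have h4 : Tendsto (fun x' => t * g x') (𝓝[K] x) (𝓝 (t * g x)) := (hg x hx).const_mul t
  have h5 : ∀ᶠ x' in 𝓝[K] x, t * g x' < y := h4.eventually_lt_const h2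
  filter_upwards [h3, h5, self_mem_nhdsWithin] with x' a b c
  exact lt_of_le_of_lt (mul_le_mul_of_nonneg_right a.le (hpos x' c).le) b

/-- the comparison principle -/
lemma comparison {D : Set ℂ} {w : ℂ → ℝ} (hu : UpperSemicontinuousOn w D) (hNC : NC D w)
    {K U : Set ℂ} (hK : IsCompact K) (hKD : K ⊆ D) (hU : IsOpen U) (hUK : U ⊆ K) {f : ℂ → ℝ}
    (hf : ContinuousOn f K)
    (hG : ∀ x₁ ∈ U, ∃ G : ℂ → ℂ, AnalyticAt ℂ G x₁ ∧
      ∀ᶠ x in 𝓝 x₁, (G x - G x₁).re = f x - f x₁)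
    (hb : ∀ x ∈ K, x ∉ U → w x ≤ Real.exp (f x)) (x₀ : ℂ) :
    ∀ x ∈ K, w x ≤ Real.exp (f x) := by
  by_contra hcon
  push Not at hcon
  obtain ⟨x', hx'K, hx'⟩ := hcon
  obtain ⟨R, hR⟩ := hK.isBounded.subset_closedBall x₀
  have hR' : ∀ x ∈ K, ‖x - x₀‖ ≤ max R 1 := fun x hx => by
    have h1 := hR hx
    rw [mem_closedBall, dist_eq_norm] at h1
    exact h1.trans (le_max_left _ _)
  set R₁ : ℝ := max R 1 with hR1
  have hR1pos : 0 < R₁ := lt_of_lt_of_le one_pos (le_max_right _ _)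
  -- the small parameter
  set c : ℝ := w x' * Real.exp (-f x') with hc
  have hc1 : 1 < c := by
    rw [hc, Real.exp_neg, ← div_eq_mul_inv, lt_div_iff₀ (Real.exp_pos _), one_mul]
    exact hx'
  have hlog : 0 < Real.log c := Real.log_pos hc1
  set ε : ℝ := Real.log c / (2 * R₁ ^ 2) with hε
  have hεpos : 0 < ε := by positivity
  have hεc : Real.exp (ε * R₁ ^ 2) < c := by
    have h1 : ε * R₁ ^ 2 = Real.log c / 2 := by
      rw [hε]
      field_simp
    rw [h1]
    calc Real.exp (Real.log c / 2) < Real.exp (Real.log c) := Real.exp_lt_exp.mpr (by linarith)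
      _ = c := Real.exp_log (by linarith)
  set g : ℂ → ℝ := fun x => Real.exp (-f x + ε * ‖x - x₀‖ ^ 2) with hg
  have hgc : ContinuousOn g K := by
    refine Real.continuous_exp.comp_continuousOn (hf.neg.add ?_)
    exact Continuous.continuousOn (by fun_prop)
  obtain ⟨x₁, hx₁K, hmax⟩ := (usc_mul_pos (hu.mono hKD) hgc
    (fun x _ => Real.exp_pos _)).exists_isMaxOn ⟨x', hx'K⟩ hK
  have hΦ : c ≤ w x₁ * g x₁ := by
    have h1 : w x' * g x' ≤ w x₁ * g x₁ := hmax hx'K
    refine le_trans ?_ h1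
    rw [hc, hg]
    simp only
    have h2 : 0 < w x' := lt_trans (Real.exp_pos _) hx'
    refine mul_le_mul_of_nonneg_left (Real.exp_le_exp.mpr ?_) h2.le
    have : 0 ≤ ε * ‖x' - x₀‖ ^ 2 := by positivity
    linarith
  have hw1 : 0 < w x₁ := by
    by_contra h
    push Not at h
    have h1 : w x₁ * g x₁ ≤ 0 := mul_nonpos_of_nonpos_of_nonneg h (Real.exp_pos _).le
    linarith
  have hx₁U : x₁ ∈ U := by
    by_contra h
    have h1 := hb x₁ hx₁K h
    have h2 : w x₁ * g x₁ ≤ Real.exp (ε * R₁ ^ 2) := by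
      calc w x₁ * g x₁ ≤ Real.exp (f x₁) * g x₁ :=
            mul_le_mul_of_nonneg_right h1 (Real.exp_pos _).le
        _ = Real.exp (ε * ‖x₁ - x₀‖ ^ 2) := by
            rw [hg, ← Real.exp_add]
            congr 1
            ring
        _ ≤ Real.exp (ε * R₁ ^ 2) := by
            refine Real.exp_le_exp.mpr (mul_le_mul_of_nonneg_left ?_ hεpos.le)
            exact pow_le_pow_left₀ (norm_nonneg _) (hR' x₁ hx₁K) 2
    linarith
  obtain ⟨G, hGa, hGf⟩ := hG x₁ hx₁U
  have hUnhds : ∀ᶠ x in 𝓝 x₁, x ∈ U := hU.mem_nhds hx₁U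
  obtain ⟨ρ, hρ, hball⟩ := Metric.eventually_nhds_iff_ball.mp (hGf.and hUnhds)
  refine hNC x₁ (fun x => G x - 2 * ε * conj (x₁ - x₀) * (x - x₁)) ε ρ (hKD hx₁K) hw1 ?_ hεpos hρ
    (fun x hx => hKD (hUK (hball x hx).2)) ?_
  · exact hGa.sub (by fun_prop)
  · intro x hx
    obtain ⟨h1, h2⟩ := hball x hx
    have h3 : w x * g x ≤ w x₁ * g x₁ := hmax (hUK h2)
    have h4 : ‖x - x₀‖ ^ 2 = ‖x₁ - x₀‖ ^ 2 + ‖x - x₁‖ ^ 2 +
        2 * (conj (x₁ - x₀) * (x - x₁)).re := by
      rw [← Complex.normSq_eq_norm_sq, ← Complex.normSq_eq_norm_sq, ← Complex.normSq_eq_norm_sq,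
        Complex.normSq_apply, Complex.normSq_apply, Complex.normSq_apply]
      simp only [Complex.sub_re, Complex.sub_im, Complex.mul_re, Complex.conj_re, Complex.conj_im,
        map_sub]
      ring
    have h5 : ((fun x => G x - 2 * ε * conj (x₁ - x₀) * (x - x₁)) x -
        (fun x => G x - 2 * ε * conj (x₁ - x₀) * (x - x₁)) x₁).re =
        f x - f x₁ - 2 * ε * (conj (x₁ - x₀) * (x - x₁)).re := by
      rw [← h1]
      simp only [sub_self, mul_zero, sub_zero]
      have e1 : G x - 2 * ε * conj (x₁ - x₀) * (x - x₁) - G x₁ =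
          (G x - G x₁) - ((2 * ε : ℝ) : ℂ) * (conj (x₁ - x₀) * (x - x₁)) := by
        push_cast
        ring
      rw [e1, Complex.sub_re, Complex.re_ofReal_mul]
    rw [h5]
    have h6 : w x = (w x * g x) * Real.exp (f x - ε * ‖x - x₀‖ ^ 2) := by
      rw [hg, mul_assoc, ← Real.exp_add]
      rw [show -f x + ε * ‖x - x₀‖ ^ 2 + (f x - ε * ‖x - x₀‖ ^ 2) = 0 by ring, Real.exp_zero,
        mul_one]
    rw [h6]
    refine (mul_le_mul_of_nonneg_right h3 (Real.exp_pos _).le).trans (le_of_eq ?_)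
    rw [hg, mul_assoc, ← Real.exp_add]
    congr 2
    rw [h4]
    ring

/-- job AD-10 -/
theorem tc3 : C3 := by
  intro D w x₀ r p _ _ hu hNC hr hD hs
  have h := comparison hu hNC (isCompact_closedBall x₀ r) hD isOpen_ball ball_subset_closedBall
    (f := fun x => (p.eval x).re) (by fun_prop) (fun x₁ _ => ⟨fun x => p.eval x, ?_, ?_⟩) ?_ x₀
    x₀ (mem_closedBall_self hr.le)
  · exact h
  · exact (Polynomial.differentiable p).analyticAt x₁
  · exact Eventually.of_forall fun x => by rw [Complex.sub_re]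
  · intro x hx hxU
    refine hs x ?_
    rw [mem_sphere]
    rw [mem_closedBall] at hx
    rw [mem_ball, not_lt] at hxU
    exact le_antisymm hx hxU

end Pool.Agent.Q73.AD
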