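import Pool.Agent.Q73.AD.TC3

/-!
# Job AD-11: the three circle inequality
-/

set_option autoImplicit false
open MeasureTheory Filter Topology Complex Metric
open scoped ContDiff ComplexConjugate

namespace Pool.Agent.Q73.AD

open Pool.Agent.Q73.NL

/-- job AD-11 -/
theorem tc4 : C4 := by
  intro D w x₀ r R k _ _ hu hNC hr hrR hD hk hw1 hwr x hx hrx
  have hR : 0 < R := hr.trans hrR
  have hlogpos : 0 < Real.log (R / r) := Real.log_pos (by rwa [one_lt_div hr])
  set α : ℝ := k / Real.log (R / r) with hα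
  set K : Set ℂ := closedBall x₀ R ∩ {x | r ≤ ‖x - x₀‖} with hKdef
  set U : Set ℂ := ball x₀ R ∩ {x | r < ‖x - x₀‖} with hUdef
  have hcl : IsClosed {x : ℂ | r ≤ ‖x - x₀‖} :=
    isClosed_le continuous_const (by fun_prop)
  have hop : IsOpen {x : ℂ | r < ‖x - x₀‖} :=
    isOpen_lt continuous_const (by fun_prop)
  have hK : IsCompact K := (isCompact_closedBall x₀ R).inter_right hcl
  have hU : IsOpen U := isOpen_ball.inter hop
  have hUK : U ⊆ K := fun y hy => ⟨ball_subset_closedBall hy.1, le_of_lt (show r < ‖y - x₀‖ from hy.2)⟩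
  have hKpos : ∀ y ∈ K, 0 < ‖y - x₀‖ := fun y hy => lt_of_lt_of_le hr hy.2
  set f : ℂ → ℝ := fun y => α * Real.log (‖y - x₀‖ / R) with hf
  have hfc : ContinuousOn f K := by
    refine continuousOn_const.mul (ContinuousOn.log ?_ ?_)
    · exact Continuous.continuousOn (by fun_prop)
    · intro y hy
      exact (div_pos (hKpos y hy) hR).ne'
  have hmain := comparison hu hNC hK (fun y hy => hD hy.1) hU hUK hfc ?_ ?_ x₀ x ⟨hx, hrx⟩
  · have hpos : 0 < ‖x - x₀‖ / R := div_pos (lt_of_lt_of_le hr hrx) hR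
    rw [Real.rpow_def_of_pos hpos, mul_comm]
    exact hmain
  · intro x₁ hx₁
    have hx₁0 : 0 < ‖x₁ - x₀‖ := hKpos x₁ (hUK hx₁)
    have hne : x₁ - x₀ ≠ 0 := norm_pos_iff.mp hx₁0
    refine ⟨fun y => α * Complex.log ((y - x₀) / (x₁ - x₀)), ?_, ?_⟩
    · refine analyticAt_const.mul (AnalyticAt.clog (by fun_prop (disch := exact hne)) ?_)
      rw [div_self hne]
      exact Complex.one_mem_slitPlane
    · filter_upwards [hU.mem_nhds hx₁] with y hy
      have hy0 : 0 < ‖y - x₀‖ := hKpos y (hUK hy)
      rw [div_self hne, Complex.log_one, mul_zero, sub_zero, Complex.re_ofReal_mul,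
        Complex.log_re, norm_div, hf]
      simp only
      rw [Real.log_div hy0.ne' hx₁0.ne', Real.log_div hy0.ne' hR.ne', Real.log_div hx₁0.ne' hR.ne']
      ring
  · intro y hy hyU
    have hyR : ‖y - x₀‖ ≤ R := by
      have := hy.1
      rwa [mem_closedBall, dist_eq_norm] at this
    by_cases h1 : ‖y - x₀‖ < R
    · have h2 : ‖y - x₀‖ = r := by
        refine le_antisymm ?_ hy.2
        by_contra h3
        push Not at h3
        exact hyU ⟨by rwa [mem_ball, dist_eq_norm], h3⟩
      have h3 : w y ≤ Real.exp (-k) := hwr y (by rw [mem_closedBall, dist_eq_norm, h2])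
      have h4 : f y = -k := by
        rw [hf]
        simp only
        rw [h2, ← inv_div, Real.log_inv, hα]
        field_simp
      rwa [h4]
    · have h2 : ‖y - x₀‖ = R := le_antisymm hyR (not_lt.mp h1)
      have h4 : f y = 0 := by
        rw [hf]
        simp only
        rw [h2, div_self hR.ne', Real.log_one, mul_zero]
      rw [h4, Real.exp_zero]
      exact hw1 y hy.1

end Pool.Agent.Q73.AD
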