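import Pool.Agent.Q73.AD.Stm

/-!
# Job AD-12: the mean value inequality
-/

set_option autoImplicit false
open MeasureTheory Filter Topology Complex Metric
open scoped ContDiff ComplexConjugate

namespace Pool.Agent.Q73.AD

open Pool.Agent.Q73.NL

namespace TC

/-- continuous real functions on the unit circle are approximated by real parts of polynomials -/
lemma approx {h : ℂ → ℝ} (hh : Continuous h) {ε : ℝ} (hε : 0 < ε) :
    ∃ p : Polynomial ℂ, ∀ θ : ℝ, |(p.eval (circleMap 0 1 θ)).re - h (circleMap 0 1 θ)| ≤ ε := by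
  have : Fact (0 < 2 * Real.pi) := ⟨Real.two_pi_pos⟩
  set F : C(AddCircle (2 * Real.pi), ℂ) :=
    ⟨fun x => ((h (AddCircle.toCircle x : ℂ) : ℝ) : ℂ), by
      exact Complex.continuous_ofReal.comp (hh.comp
        (continuous_subtype_val.comp AddCircle.continuous_toCircle))⟩ with hF
  have hmem : F ∈ closure ((Submodule.span ℂ (Set.range (@fourier (2 * Real.pi))) :
      Submodule ℂ C(AddCircle (2 * Real.pi), ℂ)) : Set C(AddCircle (2 * Real.pi), ℂ)) := by
    rw [← Submodule.topologicalClosure_coe, span_fourier_closure_eq_top]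
    exact Set.mem_univ _
  obtain ⟨q, hq, hdist⟩ := Metric.mem_closure_iff.mp hmem ε hε
  have key : ∀ q ∈ Submodule.span ℂ (Set.range (@fourier (2 * Real.pi))), ∀ c : ℂ,
      ∃ p : Polynomial ℂ, ∀ x : AddCircle (2 * Real.pi),
        (c * q x).re = (p.eval (AddCircle.toCircle x : ℂ)).re := by
    intro q hq
    refine Submodule.span_induction ?_ ?_ ?_ ?_ hq
    · rintro _ ⟨n, rfl⟩ c
      rcases Int.eq_nat_or_neg n with ⟨m, hm | hm⟩
      · refine ⟨Polynomial.C c * Polynomial.X ^ m, fun x => ?_⟩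
        rw [hm, fourier_apply, natCast_zsmul, AddCircle.toCircle_nsmul]
        simp
      · refine ⟨Polynomial.C (conj c) * Polynomial.X ^ m, fun x => ?_⟩
        rw [hm, fourier_neg, fourier_apply, natCast_zsmul, AddCircle.toCircle_nsmul]
        simp only [Polynomial.eval_mul, Polynomial.eval_C, Polynomial.eval_pow, Polynomial.eval_X,
          Circle.coe_pow]
        rw [← Complex.conj_re, map_mul, Complex.conj_conj]
    · intro c
      exact ⟨0, fun x => by simp⟩
    · intro a b _ _ ha hb c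
      obtain ⟨p1, h1⟩ := ha c
      obtain ⟨p2, h2⟩ := hb c
      refine ⟨p1 + p2, fun x => ?_⟩
      rw [ContinuousMap.add_apply, mul_add, Complex.add_re, h1, h2, Polynomial.eval_add,
        Complex.add_re]
    · intro a b _ hb c
      obtain ⟨p, h⟩ := hb (c * a)
      refine ⟨p, fun x => ?_⟩
      rw [ContinuousMap.smul_apply, smul_eq_mul, ← mul_assoc]
      exact h x
  obtain ⟨p, hp⟩ := key q hq 1
  refine ⟨p, fun θ => ?_⟩
  have e : (AddCircle.toCircle ((θ : ℝ) : AddCircle (2 * Real.pi)) : ℂ) = circleMap 0 1 θ := by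
    rw [AddCircle.toCircle_apply_mk, Circle.coe_exp, div_self Real.two_pi_pos.ne']
    simp [circleMap]
  have h1 := hp (θ : AddCircle (2 * Real.pi))
  rw [e, one_mul] at h1
  rw [← h1]
  have h2 : F (θ : AddCircle (2 * Real.pi)) = ((h (circleMap 0 1 θ) : ℝ) : ℂ) := by
    rw [hF, ContinuousMap.coe_mk, e]
  have h3 : ‖q (θ : AddCircle (2 * Real.pi)) - F (θ : AddCircle (2 * Real.pi))‖ ≤ ε := by
    rw [← dist_eq_norm, dist_comm]
    exact (ContinuousMap.dist_apply_le_dist _).trans hdist.le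
  rw [h2] at h3
  refine le_trans ?_ h3
  have := Complex.abs_re_le_norm (q (θ : AddCircle (2 * Real.pi)) - ((h (circleMap 0 1 θ) : ℝ) : ℂ))
  rwa [Complex.sub_re, Complex.ofReal_re] at this

/-- the mean of the real part of a polynomial over the unit circle -/
lemma mean_re (p : Polynomial ℂ) :
    ∫ θ in (0 : ℝ)..2 * Real.pi, (p.eval (circleMap 0 1 θ)).re = 2 * Real.pi * (p.eval 0).re := by
  have h1 : Real.circleAverage (fun z => p.eval z) 0 1 = p.eval 0 := by
    have hd : DiffContOnCl ℂ (fun z => p.eval z) (ball 0 |(1 : ℝ)|) :=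
      (Polynomial.differentiable p).diffContOnCl
    exact hd.circleAverage
  rw [Real.circleAverage_def] at h1
  have h2 : ∫ θ in (0 : ℝ)..2 * Real.pi, p.eval (circleMap 0 1 θ) =
      (2 * Real.pi : ℝ) • p.eval 0 := by
    rw [← h1, smul_smul, mul_inv_cancel₀ Real.two_pi_pos.ne', one_smul]
  have hc : Continuous fun θ : ℝ => p.eval (circleMap 0 1 θ) :=
    p.continuous.comp (continuous_circleMap 0 1)
  have h3 := Complex.reCLM.intervalIntegral_comp_comm (μ := volume)
    (hc.intervalIntegrable 0 (2 * Real.pi))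
  rw [h2] at h3
  simpa using h3

/-- the mean value inequality on circles, for continuous majorants -/
lemma circle_le (h3 : C3) {D : Set ℂ} {w : ℂ → ℝ} (hD : IsOpen D) (hw0 : ∀ x ∈ D, 0 ≤ w x)
    (hu : UpperSemicontinuousOn w D) (hNC : NC D w) {x₀ : ℂ} {r : ℝ} (hr : closedBall x₀ r ⊆ D)
    {G : ℂ → ℝ} (hG : Continuous G) (hG0 : ∀ x, 0 < G x) (hwG : ∀ x ∈ closedBall x₀ r, w x ≤ G x)
    {z : ℂ} (hz : z ≠ 0) (hzr : ‖z‖ ≤ r) :
    w x₀ * (2 * Real.pi) ≤ ∫ θ in (0 : ℝ)..2 * Real.pi, G (x₀ + circleMap 0 1 θ * z) := by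
  set M : ℝ := ∫ θ in (0 : ℝ)..2 * Real.pi, G (x₀ + circleMap 0 1 θ * z) with hM
  have hcont : Continuous fun θ : ℝ => G (x₀ + circleMap 0 1 θ * z) :=
    hG.comp (continuous_const.add ((continuous_circleMap 0 1).mul continuous_const))
  have hz0 : 0 < ‖z‖ := norm_pos_iff.mpr hz
  have hstep : ∀ ε : ℝ, 0 < ε → w x₀ * (2 * Real.pi) ≤ Real.exp (2 * ε) * M := by
    intro ε hε
    set h : ℂ → ℝ := fun u => Real.log (G (x₀ + u * z)) with hh
    have hhc : Continuous h := by
      refine Continuous.log ?_ (fun u => (hG0 _).ne')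
      exact hG.comp (by fun_prop)
    obtain ⟨p, hp⟩ := approx hhc hε
    set P : Polynomial ℂ := p.comp (Polynomial.C z⁻¹ * (Polynomial.X - Polynomial.C x₀)) +
      Polynomial.C (ε : ℂ) with hP
    have hPe : ∀ x, (P.eval x).re = (p.eval (z⁻¹ * (x - x₀))).re + ε := by
      intro x
      rw [hP]
      simp [Polynomial.eval_comp]
    have h1 : w x₀ ≤ Real.exp (P.eval x₀).re := by
      refine h3 D w x₀ ‖z‖ P hD hw0 hu hNC hz0 ((closedBall_subset_closedBall hzr).trans hr) ?_
      intro x hx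
      rw [mem_sphere, dist_eq_norm] at hx
      -- the angle
      have hu1 : ‖z⁻¹ * (x - x₀)‖ = 1 := by
        rw [norm_mul, norm_inv, hx, inv_mul_cancel₀ hz0.ne']
      have hu2 : circleMap 0 1 (Complex.arg (z⁻¹ * (x - x₀))) = z⁻¹ * (x - x₀) := by
        have := Complex.norm_mul_exp_arg_mul_I (z⁻¹ * (x - x₀))
        rw [hu1] at this
        simpa [circleMap] using this
      have h4 := hp (Complex.arg (z⁻¹ * (x - x₀)))
      rw [hu2] at h4
      have h5 : x₀ + z⁻¹ * (x - x₀) * z = x := by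
        field_simp
        ring
      have h6 : h (z⁻¹ * (x - x₀)) = Real.log (G x) := by
        rw [hh]
        simp only
        rw [h5]
      rw [h6] at h4
      have h7 := (abs_le.mp h4).1
      have hxD : x ∈ closedBall x₀ r := by
        rw [mem_closedBall, dist_eq_norm, hx]
        exact hzr
      calc w x ≤ G x := hwG x hxD
        _ = Real.exp (Real.log (G x)) := (Real.exp_log (hG0 x)).symm
        _ ≤ Real.exp (P.eval x).re := by
          refine Real.exp_le_exp.mpr ?_
          rw [hPe]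
          linarith
    rw [hPe, sub_self, mul_zero] at h1
    set c : ℝ := (p.eval 0).re with hc
    -- lower bound of the integrand
    have h2 : ∀ θ : ℝ, Real.exp (c - ε) * (1 + ((p.eval (circleMap 0 1 θ)).re - c)) ≤
        G (x₀ + circleMap 0 1 θ * z) := by
      intro θ
      have h4 := (abs_le.mp (hp θ)).2
      have h5 : Real.exp ((p.eval (circleMap 0 1 θ)).re - ε) ≤ G (x₀ + circleMap 0 1 θ * z) := by
        rw [← Real.exp_log (hG0 (x₀ + circleMap 0 1 θ * z))]
        refine Real.exp_le_exp.mpr ?_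
        have h6 : h (circleMap 0 1 θ) = Real.log (G (x₀ + circleMap 0 1 θ * z)) := rfl
        rw [h6] at h4
        linarith
      refine le_trans ?_ h5
      have h6 : Real.exp ((p.eval (circleMap 0 1 θ)).re - ε) =
          Real.exp (c - ε) * Real.exp ((p.eval (circleMap 0 1 θ)).re - c) := by
        rw [← Real.exp_add]
        congr 1
        ring
      rw [h6]
      refine mul_le_mul_of_nonneg_left ?_ (Real.exp_pos _).le
      have := Real.add_one_le_exp ((p.eval (circleMap 0 1 θ)).re - c)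
      linarith
    have hpc : Continuous fun θ : ℝ => (p.eval (circleMap 0 1 θ)).re :=
      Complex.continuous_re.comp (p.continuous.comp (continuous_circleMap 0 1))
    have h4 : ∫ θ in (0 : ℝ)..2 * Real.pi,
        Real.exp (c - ε) * (1 + ((p.eval (circleMap 0 1 θ)).re - c)) ≤ M := by
      refine intervalIntegral.integral_mono_on Real.two_pi_pos.le ?_ ?_ fun θ _ => h2 θ
      · exact Continuous.intervalIntegrable (by fun_prop) _ _
      · exact hcont.intervalIntegrable _ _
    have h5 : ∫ θ in (0 : ℝ)..2 * Real.pi,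
        Real.exp (c - ε) * (1 + ((p.eval (circleMap 0 1 θ)).re - c)) =
        Real.exp (c - ε) * (2 * Real.pi) := by
      rw [intervalIntegral.integral_const_mul]
      congr 1
      have e : ∀ θ : ℝ, 1 + ((p.eval (circleMap 0 1 θ)).re - c) =
          (p.eval (circleMap 0 1 θ)).re + (1 - c) := fun θ => by ring
      simp only [e]
      rw [intervalIntegral.integral_add (hpc.intervalIntegrable _ _)
        (continuous_const.intervalIntegrable _ _), mean_re, intervalIntegral.integral_const]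
      simp only [sub_zero, smul_eq_mul]
      rw [← hc]
      ring
    rw [h5] at h4
    calc w x₀ * (2 * Real.pi) ≤ Real.exp (c + ε) * (2 * Real.pi) :=
          mul_le_mul_of_nonneg_right h1 Real.two_pi_pos.le
      _ = Real.exp (2 * ε) * (Real.exp (c - ε) * (2 * Real.pi)) := by
          have e : Real.exp (c + ε) = Real.exp (2 * ε) * Real.exp (c - ε) := by
            rw [← Real.exp_add]
            congr 1
            ring
          rw [e]
          ring
      _ ≤ Real.exp (2 * ε) * M := mul_le_mul_of_nonneg_left h4 (Real.exp_pos _).le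
  have hlim : Tendsto (fun ε : ℝ => Real.exp (2 * ε) * M) (𝓝[>] 0) (𝓝 M) := by
    have h1 : Tendsto (fun ε : ℝ => Real.exp (2 * ε) * M) (𝓝 0) (𝓝 (Real.exp (2 * 0) * M)) := by
      refine Continuous.tendsto ?_ 0
      fun_prop
    rw [mul_zero, Real.exp_zero, one_mul] at h1
    exact h1.mono_left nhdsWithin_le_nhds
  exact ge_of_tendsto hlim (eventually_nhdsWithin_of_forall fun ε hε => hstep ε hε)

/-- invariance of the integral over a disc -/
lemma int_rot {G : ℂ → ℝ} (x₀ : ℂ) (r : ℝ) (θ : ℝ) :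
    ∫ z in ball (0 : ℂ) r, G (x₀ + circleMap 0 1 θ * z) = ∫ x in ball x₀ r, G x := by
  set g : ℂ → ℝ := (ball (0 : ℂ) r).indicator fun z => G (x₀ + z) with hg
  have hn : ‖circleMap 0 1 θ‖ = 1 := by
    rw [norm_circleMap_zero]
    exact abs_one
  have e1 : ∫ z in ball (0 : ℂ) r, G (x₀ + circleMap 0 1 θ * z) =
      ∫ z, g (circleMap 0 1 θ * z) := by
    rw [← integral_indicator measurableSet_ball]
    refine integral_congr_ae (ae_of_all _ fun z => ?_)
    simp only [hg]
    by_cases hz : z ∈ ball (0 : ℂ) r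
    · have hz2 : circleMap 0 1 θ * z ∈ ball (0 : ℂ) r := by
        rw [mem_ball_zero_iff, norm_mul, hn, one_mul]
        exact mem_ball_zero_iff.mp hz
      rw [Set.indicator_of_mem hz, Set.indicator_of_mem hz2]
    · have hz2 : circleMap 0 1 θ * z ∉ ball (0 : ℂ) r := by
        rw [mem_ball_zero_iff, norm_mul, hn, one_mul]
        exact fun h => hz (mem_ball_zero_iff.mpr h)
      rw [Set.indicator_of_notMem hz, Set.indicator_of_notMem hz2]
  have e2 : ∫ z, g (circleMap 0 1 θ * z) = ∫ z, g z := by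
    have hrot : ∀ z, circleMap 0 1 θ * z = rotation (Circle.exp θ) z := by
      intro z
      rw [rotation_apply, Circle.coe_exp]
      simp [circleMap]
    simp only [hrot]
    exact (rotation (Circle.exp θ)).measurePreserving.integral_comp
      (rotation (Circle.exp θ)).toHomeomorph.measurableEmbedding g
  have e3 : ∫ z, g z = ∫ x in ball x₀ r, G x := by
    rw [← integral_indicator measurableSet_ball,
      ← integral_add_left_eq_self ((ball x₀ r).indicator G) x₀]
    refine integral_congr_ae (ae_of_all _ fun z => ?_)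
    simp only [hg]
    by_cases hz : z ∈ ball (0 : ℂ) r
    · have hz2 : x₀ + z ∈ ball x₀ r := by
        rw [mem_ball, dist_eq_norm, add_sub_cancel_left]
        exact mem_ball_zero_iff.mp hz
      rw [Set.indicator_of_mem hz, Set.indicator_of_mem hz2]
    · have hz2 : x₀ + z ∉ ball x₀ r := by
        rw [mem_ball, dist_eq_norm, add_sub_cancel_left]
        exact fun h => hz (mem_ball_zero_iff.mpr h)
      rw [Set.indicator_of_notMem hz, Set.indicator_of_notMem hz2]
  rw [e1, e2, e3]

/-- the mean value inequality on discs, for continuous majorants -/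
lemma disc_le (h3 : C3) {D : Set ℂ} {w : ℂ → ℝ} (hD : IsOpen D) (hw0 : ∀ x ∈ D, 0 ≤ w x)
    (hu : UpperSemicontinuousOn w D) (hNC : NC D w) {x₀ : ℂ} {r : ℝ} (hr0 : 0 < r)
    (hr : closedBall x₀ r ⊆ D)
    {G : ℂ → ℝ} (hG : Continuous G) (hG0 : ∀ x, 0 < G x)
    (hwG : ∀ x ∈ closedBall x₀ r, w x ≤ G x) :
    w x₀ * (Real.pi * r ^ 2) ≤ ∫ x in ball x₀ r, G x := by
  set F : ℂ → ℝ → ℝ := fun z θ => G (x₀ + circleMap 0 1 θ * z) with hF
  have hFc : Continuous (Function.uncurry F) := by
    refine hG.comp ?_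
    exact continuous_const.add (((continuous_circleMap 0 1).comp continuous_snd).mul continuous_fst)
  have hint : Integrable (Function.uncurry F)
      ((volume.restrict (ball (0 : ℂ) r)).prod (volume.restrict (Set.Ioc 0 (2 * Real.pi)))) := by
    rw [Measure.prod_restrict]
    have hK : IsCompact (closedBall (0 : ℂ) r ×ˢ Set.Icc 0 (2 * Real.pi)) :=
      (isCompact_closedBall 0 r).prod isCompact_Icc
    have h1 : IntegrableOn (Function.uncurry F) (closedBall (0 : ℂ) r ×ˢ Set.Icc 0 (2 * Real.pi))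
        ((volume : Measure ℂ).prod (volume : Measure ℝ)) :=
      hFc.continuousOn.integrableOn_compact hK
    exact h1.mono_set (Set.prod_mono ball_subset_closedBall Set.Ioc_subset_Icc_self)
  have hswap := integral_integral_swap hint
  have hpt : ∀ z ∈ ball (0 : ℂ) r, w x₀ * (2 * Real.pi) ≤ ∫ θ in Set.Ioc 0 (2 * Real.pi), F z θ := by
    intro z hz
    rw [← intervalIntegral.integral_of_le Real.two_pi_pos.le]
    by_cases hz0 : z = 0
    · subst hz0
      have e : ∀ θ : ℝ, F 0 θ = G x₀ := fun θ => by rw [hF]; simp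
      simp only [e]
      rw [intervalIntegral.integral_const, sub_zero, smul_eq_mul, mul_comm (2 * Real.pi)]
      exact mul_le_mul_of_nonneg_right (hwG x₀ (mem_closedBall_self hr0.le)) Real.two_pi_pos.le
    · exact circle_le h3 hD hw0 hu hNC hr hG hG0 hwG hz0 (mem_ball_zero_iff.mp hz).le
  have hvol : (volume : Measure ℂ).real (ball 0 r) = Real.pi * r ^ 2 := by
    rw [Measure.real, Complex.volume_ball, ENNReal.toReal_mul, ENNReal.toReal_pow,
      ENNReal.toReal_ofReal hr0.le, mul_comm]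
    rfl
  have h1 : ∫ z in ball (0 : ℂ) r, (w x₀ * (2 * Real.pi)) ≤
      ∫ z in ball (0 : ℂ) r, ∫ θ in Set.Ioc 0 (2 * Real.pi), F z θ := by
    refine setIntegral_mono_on (integrableOn_const measure_ball_lt_top.ne) hint.integral_prod_left
      measurableSet_ball hpt
  rw [setIntegral_const, hvol, smul_eq_mul, hswap] at h1
  have h2 : ∫ θ in Set.Ioc 0 (2 * Real.pi), (∫ z in ball (0 : ℂ) r, F z θ) =
      2 * Real.pi * ∫ x in ball x₀ r, G x := by
    have e : ∀ θ : ℝ, ∫ z in ball (0 : ℂ) r, F z θ = ∫ x in ball x₀ r, G x := fun θ =>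
      int_rot x₀ r θ
    simp only [e]
    rw [setIntegral_const, smul_eq_mul, Real.volume_real_Ioc_of_le Real.two_pi_pos.le, sub_zero]
  rw [h2] at h1
  have h4 : 2 * Real.pi * (w x₀ * (Real.pi * r ^ 2)) ≤ 2 * Real.pi * ∫ x in ball x₀ r, G x := by
    calc 2 * Real.pi * (w x₀ * (Real.pi * r ^ 2)) = Real.pi * r ^ 2 * (w x₀ * (2 * Real.pi)) := by
          ring
      _ ≤ _ := h1
  exact le_of_mul_le_mul_left h4 Real.two_pi_pos

/-- the Lipschitz envelope -/
noncomputable def env (K : Set ℂ) (w : ℂ → ℝ) (k : ℕ) (x : ℂ) : ℝ :=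
  ⨆ y : K, max 0 (w y - k * ‖x - y‖)

lemma env_bdd {K : Set ℂ} {w : ℂ → ℝ} (hw : ∀ x ∈ K, w x ≤ 1) (k : ℕ) (x : ℂ) :
    BddAbove (Set.range fun y : K => max 0 (w y - k * ‖x - y‖)) := by
  refine ⟨1, ?_⟩
  rintro _ ⟨y, rfl⟩
  refine max_le zero_le_one ?_
  have h1 := hw y y.2
  have h2 : 0 ≤ (k : ℝ) * ‖x - y‖ := by positivity
  linarith

lemma env_nonneg (K : Set ℂ) (w : ℂ → ℝ) (k : ℕ) (x : ℂ) : 0 ≤ env K w k x :=
  Real.iSup_nonneg fun _ => le_max_left _ _

lemma env_ge {K : Set ℂ} {w : ℂ → ℝ} (hw : ∀ x ∈ K, w x ≤ 1) (k : ℕ) {x : ℂ} (hx : x ∈ K) :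
    w x ≤ env K w k x := by
  refine le_trans ?_ (le_ciSup (env_bdd hw k x) ⟨x, hx⟩)
  simp

lemma env_le_one {K : Set ℂ} {w : ℂ → ℝ} (hK : K.Nonempty) (hw : ∀ x ∈ K, w x ≤ 1) (k : ℕ)
    (x : ℂ) : env K w k x ≤ 1 := by
  have : Nonempty K := hK.to_subtype
  refine ciSup_le fun y => max_le zero_le_one ?_
  have h1 := hw y y.2
  have h2 : 0 ≤ (k : ℝ) * ‖x - y‖ := by positivity
  linarith

lemma env_cont {K : Set ℂ} {w : ℂ → ℝ} (hK : K.Nonempty) (hw : ∀ x ∈ K, w x ≤ 1) (k : ℕ) :
    Continuous (env K w k) := by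
  have : Nonempty K := hK.to_subtype
  have h : ∀ x x', env K w k x ≤ env K w k x' + k * ‖x - x'‖ := by
    intro x x'
    refine ciSup_le fun y => ?_
    have h1 := le_ciSup (env_bdd hw k x') y
    have h2 : ‖x' - y‖ ≤ ‖x - y‖ + ‖x - x'‖ := by
      have := norm_add_le (x - y) (x' - x)
      rw [show (x - y : ℂ) + (x' - x) = x' - y by ring, norm_sub_rev x' x] at this
      exact this
    have hk : (0 : ℝ) ≤ k := Nat.cast_nonneg k
    refine max_le ?_ ?_
    · have := env_nonneg K w k x'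
      have h3 : 0 ≤ (k : ℝ) * ‖x - x'‖ := by positivity
      linarith
    · have h4 : w y - k * ‖x' - y‖ ≤ env K w k x' := (le_max_right _ _).trans h1
      have h5 := mul_le_mul_of_nonneg_left h2 hk
      linarith
  refine LipschitzWith.continuous (K := ⟨k, Nat.cast_nonneg k⟩) (LipschitzWith.of_dist_le_mul ?_)
  intro x x'
  rw [Real.dist_eq, abs_le, dist_eq_norm]
  show -((k : ℝ) * ‖x - x'‖) ≤ _ ∧ _ ≤ (k : ℝ) * ‖x - x'‖
  have h1 := h x x'
  have h2 := h x' x
  rw [norm_sub_rev] at h2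
  constructor <;> linarith

lemma env_tendsto {K : Set ℂ} {w : ℂ → ℝ} (hw0 : ∀ x ∈ K, 0 ≤ w x) (hw : ∀ x ∈ K, w x ≤ 1)
    (hu : UpperSemicontinuousOn w K) {x : ℂ} (hx : x ∈ K) :
    Tendsto (fun k : ℕ => env K w k x) atTop (𝓝 (w x)) := by
  have : Nonempty K := ⟨⟨x, hx⟩⟩
  rw [tendsto_order]
  constructor
  · intro a ha
    exact Eventually.of_forall fun k => lt_of_lt_of_le ha (env_ge hw k hx)
  · intro a ha
    obtain ⟨t, ht1, ht2⟩ := exists_between ha
    have h1 : ∀ᶠ y in 𝓝[K] x, w y < t := hu x hx t ht1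
    rw [eventually_nhdsWithin_iff, Metric.eventually_nhds_iff] at h1
    obtain ⟨δ, hδ, h2⟩ := h1
    obtain ⟨k₀, hk₀⟩ := exists_nat_ge (1 / δ)
    filter_upwards [eventually_ge_atTop k₀] with k hk
    refine lt_of_le_of_lt (ciSup_le fun y => ?_) ht2
    have ht0 : 0 ≤ t := (hw0 x hx).trans ht1.le
    refine max_le ht0 ?_
    by_cases hy : dist (y : ℂ) x < δ
    · have h3 := h2 hy y.2
      have h4 : 0 ≤ (k : ℝ) * ‖x - y‖ := by positivity
      linarith
    · rw [not_lt, dist_eq_norm, norm_sub_rev] at hy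
      have h3 : 1 / δ ≤ (k : ℝ) := hk₀.trans (by exact_mod_cast hk)
      have h4 : 1 ≤ (k : ℝ) * ‖x - y‖ := by
        calc (1 : ℝ) = 1 / δ * δ := by field_simp
          _ ≤ (k : ℝ) * ‖x - y‖ := mul_le_mul h3 hy hδ.le (Nat.cast_nonneg k)
      have h5 := hw y y.2
      linarith

end TC

open TC

/-- job AD-12 -/
theorem tc5 (h3 : C3) : C5 := by
  intro D w hD hw hu hNC x₀ r hr hrD
  set K : Set ℂ := closedBall x₀ r with hK
  have hKne : K.Nonempty := ⟨x₀, mem_closedBall_self hr.le⟩
  have hw1 : ∀ x ∈ K, w x ≤ 1 := fun x hx => (hw x (hrD hx)).2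
  have hw0 : ∀ x ∈ K, 0 ≤ w x := fun x hx => (hw x (hrD hx)).1
  set G : ℕ → ℂ → ℝ := fun k x => env K w k x + 1 / ((k : ℝ) + 1) with hG
  have hGc : ∀ k, Continuous (G k) := fun k => (env_cont hKne hw1 k).add continuous_const
  have hGpos : ∀ k x, 0 < G k x := fun k x => by
    have h1 := env_nonneg K w k x
    have h2 : 0 < 1 / ((k : ℝ) + 1) := Nat.one_div_pos_of_nat
    rw [hG]
    simp only
    linarith
  have hle : ∀ k, w x₀ * (Real.pi * r ^ 2) ≤ ∫ x in ball x₀ r, G k x := by
    intro k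
    refine disc_le h3 hD (fun x hx => (hw x hx).1) hu hNC hr hrD (hGc k) (hGpos k) ?_
    intro x hx
    have h1 := env_ge hw1 k (K := K) hx
    have h2 : 0 < 1 / ((k : ℝ) + 1) := Nat.one_div_pos_of_nat
    rw [hG]
    simp only
    linarith
  have hlim : Tendsto (fun k => ∫ x in ball x₀ r, G k x) atTop (𝓝 (∫ x in ball x₀ r, w x)) := by
    refine tendsto_integral_of_dominated_convergence (fun _ => 2)
      (fun k => (hGc k).aestronglyMeasurable) (integrableOn_const measure_ball_lt_top.ne)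
      (fun k => ae_of_all _ fun x => ?_) ?_
    · rw [Real.norm_eq_abs, abs_of_pos (hGpos k x)]
      have h1 := env_le_one hKne hw1 k x
      have h2 : 1 / ((k : ℝ) + 1) ≤ 1 := by
        rw [div_le_one (by positivity)]
        have : (0 : ℝ) ≤ k := Nat.cast_nonneg k
        linarith
      rw [hG]
      simp only
      linarith
    · refine (ae_restrict_iff' measurableSet_ball).mpr (ae_of_all _ fun x hx => ?_)
      have h1 := env_tendsto hw0 hw1 (hu.mono hrD) (ball_subset_closedBall hx)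
      have h2 := h1.add tendsto_one_div_add_atTop_nhds_zero_nat
      rw [add_zero] at h2
      exact h2
  exact ge_of_tendsto' hlim hle

end Pool.Agent.Q73.AD
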