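import Pool.Agent.Q73.AD.TO1a

/-!
# O1: the one step lemma by compactness (helper24)
-/

set_option autoImplicit false
open MeasureTheory Filter Topology Complex Metric
open scoped ContDiff ComplexConjugate

namespace Pool.Agent.Q73.AD

open Pool.Agent.Q73.NL

lemma lap_const_mul' (c : ℝ) (f : ℂ → ℝ) (z : ℂ) : lap (fun x => c * f x) z = c * lap f z := by
  have h : ∀ g : ℂ → ℝ, fderiv ℝ (fun x => c * g x) = fun z => c • fderiv ℝ g z := by
    intro g
    have := fderiv_const_smul_field (𝕜 := ℝ) (f := g) c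
    exact this
  have hx : ∀ g : ℂ → ℝ, dx (fun x => c * g x) = fun z => c * dx g z := by
    intro g
    funext z
    unfold dx
    rw [h]
    simp
  have hy : ∀ g : ℂ → ℝ, dy (fun x => c * g x) = fun z => c * dy g z := by
    intro g
    funext z
    unfold dy
    rw [h]
    simp
  unfold lap
  rw [hx f, hy f, hx (dx f), hy (dy f)]
  ring

open scoped Pointwise in
lemma sn_const_mul' {X : Type*} {c : ℝ} (hc : 0 ≤ c) (f : X → ℝ) (E : Set X) :
    sn (fun x => c * f x) E = c * sn f E := by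
  unfold sn
  have : (fun x => |c * f x|) '' E = c • ((fun x => |f x|) '' E) := by
    ext y
    simp only [Set.mem_image, Set.mem_smul_set, exists_exists_and_eq_and, smul_eq_mul, abs_mul, abs_of_nonneg hc]
  rw [this, Real.sSup_smul_of_nonneg hc, smul_eq_mul]

lemma sn_nonneg2 {X : Type*} (f : X → ℝ) (E : Set X) : 0 ≤ sn f E := by
  refine Real.sSup_nonneg ?_
  rintro _ ⟨x, _, rfl⟩
  exact abs_nonneg _

lemma sn_le2 {X : Type*} {f : X → ℝ} {E : Set X} {c : ℝ} (hc : 0 ≤ c) (h : ∀ x ∈ E, |f x| ≤ c) : sn f E ≤ c := by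
  refine Real.sSup_le ?_ hc
  rintro _ ⟨x, hx, rfl⟩
  exact h x hx

lemma le_sn2 {X : Type*} {f : X → ℝ} {E : Set X} {c : ℝ} (h : ∀ x ∈ E, |f x| ≤ c) {x : X} (hx : x ∈ E) :
    |f x| ≤ sn f E := by
  refine le_csSup ⟨c, ?_⟩ ⟨x, hx, rfl⟩
  rintro _ ⟨y, hy, rfl⟩
  exact h y hy

lemma cen_sub {K : ℝ} (hK : 8 ≤ K) {M : ℕ} (a : Fin M × Fin M) {r : ℝ} (hr : r ≤ K / 2) :
    closedBall (cen M a) r ⊆ ball 0 K := by
  intro x hx
  rw [mem_closedBall, dist_eq_norm] at hx
  rw [mem_ball, dist_zero_right]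
  calc ‖x‖ = ‖(x - cen M a) + cen M a‖ := by rw [sub_add_cancel]
    _ ≤ ‖x - cen M a‖ + ‖cen M a‖ := norm_add_le _ _
    _ < K := by linarith [cen_norm_le a]

/-- **the one step lemma** -/
theorem to1 (hB1 : B1.{0}) (hB2 : B2.{0}) (hC1 : C1) (hC2 : C2) (hC4 : C4) (hC5 : C5) (hP2 : P2) : O1 := by
  intro K hK
  obtain ⟨CP, hCP, hP⟩ := hP2 K hK
  have hK0 : 0 < K := by linarith
  have hl2K : 0 < Real.log (2 * K) := Real.log_pos (by linarith)
  refine ⟨3 * CP * (4 * Real.log (2 * K) + 5) + CP + 2, by positivity, fun M hM => ?_⟩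
  set C : ℝ := 3 * CP * (4 * Real.log (2 * K) + 5) + CP + 2 with hC
  have hCP' : 0 < 3 * CP * (4 * Real.log (2 * K) + 5) := by positivity
  have hM2r : (2 : ℝ) ≤ M := by linarith
  have hM2 : 2 ≤ M := by exact_mod_cast hM2r
  have hM0 : (0 : ℝ) < M := by linarith
  have hCPM : CP ≤ M := by linarith
  have hlM : 0 ≤ Real.log M := Real.log_nonneg (by linarith)
  have hKMle : K / M ≤ K / 2 := div_le_div_of_nonneg_left hK0.le (by norm_num) hM2r
  have h1MK : (1 : ℝ) / M ≤ K / M := div_le_div_of_nonneg_right (by linarith) hM0.le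
  have h1Mle : (1 : ℝ) / M ≤ K / 2 := h1MK.trans hKMle
  by_contra hcon
  push Not at hcon
  have hex := fun j : ℕ => hcon ((j : ℝ) + 1) (by positivity)
  choose κ N q φ hκ hN heq hsn hn using hex
  have hκ0 : ∀ j, 0 < κ j := fun j => by linarith [hκ j]
  have hN0 : ∀ j, 0 < N j := fun j => by
    have h1 := hN j
    have h2 : 0 < ((j : ℝ) + 1) * κ j := mul_pos (by positivity) (hκ0 j)
    linarith
  set D : Set ℂ := ball (0 : ℂ) K with hD
  have hDK : D ⊆ closedBall 0 K := ball_subset_closedBall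
  have h1sub : closedBall (0 : ℂ) 1 ⊆ D := closedBall_subset_ball (by linarith)
  -- boundedness
  have hbd : ∀ j, ∃ B : ℝ, ∀ x ∈ closedBall (0 : ℂ) K, |φ j x| ≤ B := fun j => by
    have h1 : ContinuousOn (φ j) (closedBall (0 : ℂ) K) := fun x hx =>
      (heq j x hx).1.continuousAt.continuousWithinAt
    obtain ⟨B, hB⟩ := (isCompact_closedBall (0 : ℂ) K).exists_bound_of_continuousOn h1
    exact ⟨B, fun x hx => hB x hx⟩
  set S : ℕ → ℝ := fun j => sn (φ j) (closedBall 0 K) with hS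
  have hφS : ∀ j, ∀ x ∈ closedBall (0 : ℂ) K, |φ j x| ≤ S j := fun j x hx => by
    obtain ⟨B, hB⟩ := hbd j
    exact le_sn2 hB hx
  have hS0 : ∀ j, 0 < S j := fun j => by
    by_contra hneg
    rw [not_lt] at hneg
    have h1 : ∀ x ∈ closedBall (0 : ℂ) K, |φ j x| ≤ 0 := fun x hx => (hφS j x hx).trans hneg
    have h2 := hn j (fun _ => 0) fun a => ⟨le_rfl, by
      rw [Real.exp_zero, one_mul]
      refine (sn_le2 le_rfl fun x hx => h1 x (hDK (cen_sub hK a hKMle hx))).trans (sn_nonneg2 _ _)⟩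
    rw [Finset.sum_const_zero] at h2
    have h3 : 0 ≤ C * (1 + Real.log M) * M * N j := by
      have := (hN0 j).le
      have hC0 : 0 < C := by linarith
      positivity
    linarith
  set ψ : ℕ → ℂ → ℝ := fun j x => (S j)⁻¹ * φ j x with hψ
  have hψ1 : ∀ j, ∀ x ∈ closedBall (0 : ℂ) K, |ψ j x| ≤ 1 := fun j x hx => by
    simp only [hψ]
    rw [abs_mul, abs_of_pos (inv_pos.2 (hS0 j)), inv_mul_le_iff₀ (hS0 j), mul_one]
    exact hφS j x hx
  have hsnψ : ∀ j (E : Set ℂ), sn (ψ j) E = (S j)⁻¹ * sn (φ j) E := fun j E =>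
    sn_const_mul' (inv_pos.2 (hS0 j)).le (φ j) E
  -- the sequence
  have hseq : Seq D N κ q ψ := by
    refine ⟨hκ, ?_, fun j z hz => ?_, fun j z hz => ?_, fun j z hz => ?_, fun j z hz => ?_, fun j z hz => ?_,
      fun j z hz => hψ1 j z (hDK hz)⟩
    · refine tendsto_atTop_mono (fun j => ?_) (tendsto_natCast_atTop_atTop (R := ℝ))
      rw [le_div_iff₀ (hκ0 j)]
      refine le_trans ?_ (hN j)
      exact mul_le_mul_of_nonneg_right (by linarith) (hκ0 j).le
    · exact (contDiffAt_const.mul (heq j z (hDK hz)).1).contDiffWithinAt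
    · exact (heq j z (hDK hz)).2.1.contDiffWithinAt
    · exact (heq j z (hDK hz)).2.2.1
    · exact (heq j z (hDK hz)).2.2.2.1
    · have h1 := (heq j z (hDK hz)).2.2.2.2
      simp only [hψ]
      rw [lap_const_mul']
      calc _ = (S j)⁻¹ * (lap (φ j) z + q j z * φ j z) := by ring
        _ = 0 := by rw [h1, mul_zero]
  -- the limit
  set 𝒰 : Ultrafilter ℕ := Filter.hyperfilter ℕ with h𝒰
  have h𝒰le : (𝒰 : Filter ℕ) ≤ atTop := Nat.hyperfilter_le_atTop
  obtain ⟨⟨W, hW⟩, hLP⟩ := hB1 ℂ 𝒰 N ψ D hN0 (fun j x hx => hψ1 j x (hDK hx))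
  have hL := hLP W hW
  obtain ⟨⟨w, hw⟩, hprops⟩ := hB2 ℂ 𝒰 N ψ D W isOpen_ball hL
  obtain ⟨hw01, husc, -⟩ := hprops w hw
  have hNC : NC D w := hC2 D w isOpen_ball (fun x hx => (hw01 x hx).1) husc
    (hC1 𝒰 D N κ q ψ W w h𝒰le isOpen_ball hseq hL hw)
  have hW1 : Real.exp (-1) ≤ W (closedBall 0 1) := by
    refine ge_of_tendsto' (hW _ h1sub) fun j => ?_
    have h1 : Real.exp (-N j) ≤ sn (ψ j) (closedBall 0 1) := by
      rw [hsnψ, Real.exp_neg, ← one_div, ← one_div, one_div_mul_eq_div, div_le_div_iff₀ (Real.exp_pos _) (hS0 j), one_mul,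
        mul_comm]
      exact hsn j
    have h2 := Real.rpow_le_rpow (Real.exp_pos _).le h1 (one_div_pos.2 (hN0 j)).le
    rw [← Real.exp_mul] at h2
    have h3 : -N j * (1 / N j) = -1 := by
      have := (hN0 j).ne'
      field_simp
    rwa [h3] at h2
  obtain ⟨hpos1, hposK, hsum⟩ := core hB2 hC4 hC5 hK hP hCPM hM2 hL hw hNC hW1
  -- the growth exponents
  set L : ℕ → Set ℂ → ℝ := fun j E => Real.log (sn (ψ j) E ^ (1 / N j)) with hLdef
  have hlim : Tendsto (fun j => ∑ a : Fin M × Fin M, (L j (closedBall (cen M a) (K / M)) -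
      L j (closedBall (cen M a) (1 / M)))) 𝒰 (𝓝 (∑ a : Fin M × Fin M,
        (Real.log (W (closedBall (cen M a) (K / M))) - Real.log (W (closedBall (cen M a) (1 / M)))))) := by
    refine tendsto_finsetSum _ fun a _ => Tendsto.sub ?_ ?_
    · exact (hW _ (cen_sub hK a hKMle)).log (hposK a).ne'
    · exact (hW _ (cen_sub hK a h1Mle)).log (hpos1 a).ne'
  have hev : ∀ᶠ j in (𝒰 : Filter ℕ), ∀ a : Fin M × Fin M, 0 < sn (ψ j) (closedBall (cen M a) (1 / M)) := by
    rw [Filter.eventually_all]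
    intro a
    filter_upwards [(hW _ (cen_sub hK a h1Mle)).eventually_const_lt (hpos1 a)] with j hj
    refine lt_of_le_of_ne (sn_nonneg2 _ _) fun h0 => ?_
    rw [← h0, Real.zero_rpow (one_div_pos.2 (hN0 j)).ne'] at hj
    exact lt_irrefl _ hj
  have hev2 : ∀ᶠ j in (𝒰 : Filter ℕ), C * (1 + Real.log M) * M ≤ ∑ a : Fin M × Fin M,
      (L j (closedBall (cen M a) (K / M)) - L j (closedBall (cen M a) (1 / M))) := by
    filter_upwards [hev] with j hj
    have hmono : ∀ a : Fin M × Fin M, sn (ψ j) (closedBall (cen M a) (1 / M)) ≤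
        sn (ψ j) (closedBall (cen M a) (K / M)) := fun a =>
      sn_le2 (sn_nonneg2 _ _) fun x hx => le_sn2
        (fun y hy => hψ1 j y (hDK (cen_sub hK a hKMle hy))) (closedBall_subset_closedBall h1MK hx)
    have hposj : ∀ a : Fin M × Fin M, 0 < sn (ψ j) (closedBall (cen M a) (K / M)) := fun a =>
      (hj a).trans_le (hmono a)
    have h1 := hn j (fun a => Real.log (sn (ψ j) (closedBall (cen M a) (K / M))) -
      Real.log (sn (ψ j) (closedBall (cen M a) (1 / M)))) fun a => ⟨by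
        have := Real.log_le_log (hj a) (hmono a)
        linarith, by
        rw [Real.exp_sub, Real.exp_log (hposj a), Real.exp_log (hj a), hsnψ, hsnψ]
        have h2 : sn (φ j) (closedBall (cen M a) (1 / M)) ≠ 0 := by
          intro h0
          have := hj a
          rw [hsnψ, h0, mul_zero] at this
          exact lt_irrefl _ this
        have h3 := (hS0 j).ne'
        refine le_of_eq ?_
        field_simp⟩
    have h2 : ∑ a : Fin M × Fin M, (Real.log (sn (ψ j) (closedBall (cen M a) (K / M))) -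
        Real.log (sn (ψ j) (closedBall (cen M a) (1 / M)))) = N j * ∑ a : Fin M × Fin M,
        (L j (closedBall (cen M a) (K / M)) - L j (closedBall (cen M a) (1 / M))) := by
      rw [Finset.mul_sum]
      refine Finset.sum_congr rfl fun a _ => ?_
      simp only [hLdef]
      rw [Real.log_rpow (hposj a), Real.log_rpow (hj a)]
      have := (hN0 j).ne'
      field_simp
    rw [h2] at h1
    have h3 : N j * (C * (1 + Real.log M) * M) < N j * ∑ a : Fin M × Fin M,
        (L j (closedBall (cen M a) (K / M)) - L j (closedBall (cen M a) (1 / M))) := by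
      calc _ = C * (1 + Real.log M) * M * N j := by ring
        _ < _ := h1
    exact (lt_of_mul_lt_mul_left h3 (hN0 j).le).le
  have hfin := ge_of_tendsto hlim hev2
  have hfin2 := hfin.trans hsum
  -- comparison of the constants
  have e1 : Real.log (2 * K * M) = Real.log (2 * K) + Real.log M :=
    Real.log_mul (by positivity) hM0.ne'
  have h1 : 4 * Real.log (2 * K * M) + 1 ≤ (4 * Real.log (2 * K) + 5) * (1 + Real.log M) := by
    rw [e1]
    nlinarith [mul_nonneg hl2K.le hlM]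
  have h2 : Real.exp 1 ≤ 3 := by
    have := Real.exp_one_lt_d9
    linarith
  have h3 : (4 * Real.log (2 * K * M) + 1) * Real.exp 1 * (CP * M) ≤
      ((4 * Real.log (2 * K) + 5) * (1 + Real.log M)) * 3 * (CP * M) := by
    refine mul_le_mul_of_nonneg_right ?_ (by positivity)
    exact mul_le_mul h1 h2 (Real.exp_pos _).le (by positivity)
  have h4 : ((4 * Real.log (2 * K) + 5) * (1 + Real.log M)) * 3 * (CP * M) <
      C * (1 + Real.log M) * M := by
    have h5 : 0 < (CP + 2) * (1 + Real.log M) * M := by positivity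
    have h6 : C * (1 + Real.log M) * M = ((4 * Real.log (2 * K) + 5) * (1 + Real.log M)) * 3 * (CP * M) +
        (CP + 2) * (1 + Real.log M) * M := by
      rw [hC]; ring
    linarith
  linarith

end Pool.Agent.Q73.AD
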