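import Pool.Agent.Q73.AD.StmG
import Pool.Agent.Q73.AD.TO1

/-!
# G1: growth at the unit scale on a compact connected surface (helper24)
-/

set_option autoImplicit false
open MeasureTheory Filter Topology Complex Metric
open scoped ContDiff ComplexConjugate

namespace Pool.Agent.Q73.AD

open Pool.Agent.Q73.NL

universe u v

lemma chart_contAt {M : Type u} {ι : Type v} [MetricSpace M] {U : ι → Set ℂ} {φ : ι → ℂ → M}
    {ρ : ι → ℂ → ℝ} (hA : Atl U φ ρ) (i : ι) {z : ℂ} (hz : z ∈ U i) : ContinuousAt (φ i) z := by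
  obtain ⟨r, c, hr, hc, -, hl⟩ := hA.lip i z hz
  rw [Metric.continuousAt_iff]
  intro ε hε
  refine ⟨min r (c * ε), by positivity, fun y hy => ?_⟩
  have h1 : y ∈ ball z r := lt_of_lt_of_le hy (min_le_left _ _)
  have h2 := (hl y h1 z (mem_ball_self hr)).2
  have h3 : ‖y - z‖ < c * ε := by
    rw [← dist_eq_norm]
    exact lt_of_lt_of_le hy (min_le_right _ _)
  have h4 : c * dist (φ i y) (φ i z) < c * ε := lt_of_le_of_lt h2 h3
  exact lt_of_mul_lt_mul_left h4 hc.le

lemma eig_cont {M : Type u} {ι : Type v} [MetricSpace M] {U : ι → Set ℂ} {φ : ι → ℂ → M}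
    {ρ : ι → ℂ → ℝ} (hA : Atl U φ ρ) {lam : ℝ} {f : M → ℝ} (hf : Eig U φ ρ lam f) : Continuous f := by
  rw [continuous_iff_continuousAt]
  intro x
  obtain ⟨i, z, hz, rfl⟩ := hA.cover x
  have h1 : ContinuousOn (fun z => f (φ i z)) (U i) := (hf i).1.continuousOn
  rw [ContinuousAt, tendsto_def]
  intro s hs
  have h2 : (fun z => f (φ i z)) ⁻¹' s ∈ 𝓝 z := (h1.continuousAt ((hA.dom i).mem_nhds hz)) hs
  obtain ⟨V, hV, hVo, hzV⟩ := _root_.mem_nhds_iff.1 (inter_mem h2 ((hA.dom i).mem_nhds hz))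
  have h3 : IsOpen (φ i '' V) := hA.opn i V hVo fun y hy => (hV hy).2
  refine mem_of_superset (h3.mem_nhds ⟨z, hzV, rfl⟩) ?_
  rintro _ ⟨y, hy, rfl⟩
  exact (hV hy).1

lemma vol_ball_real (z : ℂ) {s : ℝ} (hs : 0 ≤ s) : volume.real (ball z s) = Real.pi * s ^ 2 := by
  rw [Measure.real, Complex.volume_ball, ENNReal.toReal_mul, ENNReal.toReal_pow, ENNReal.toReal_ofReal hs]
  simp only [ENNReal.coe_toReal, NNReal.coe_real_pi]
  ring

/-- a function below `1` in a disc, strictly below in a smaller disc -/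
lemma mean_lt {v : ℂ → ℝ} {z z' : ℂ} {s s' t : ℝ} (hs : 0 < s) (hs' : 0 < s') (ht : t < 1)
    (hsub : ball z' s' ⊆ ball z s) (h1 : ∀ x ∈ ball z s, v x ≤ 1) (h2 : ∀ x ∈ ball z' s', v x ≤ t) :
    ∫ x in ball z s, v x < Real.pi * s ^ 2 := by
  classical
  have hpi := Real.pi_pos
  by_cases hi : IntegrableOn v (ball z s)
  · have hfin : volume (ball z s) ≠ ⊤ := measure_ball_lt_top.ne
    have hg1 : IntegrableOn (fun _ : ℂ => (1 : ℝ)) (ball z s) := integrableOn_const hfin
    have hg2 : IntegrableOn ((ball z' s').indicator fun _ : ℂ => (1 - t : ℝ)) (ball z s) :=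
      (integrableOn_const (C := (1 - t : ℝ)) hfin).indicator measurableSet_ball
    have h3 : ∫ x in ball z s, v x ≤ ∫ x in ball z s, (1 - (ball z' s').indicator (fun _ : ℂ => (1 - t : ℝ)) x) := by
      refine setIntegral_mono_on hi (hg1.sub hg2) measurableSet_ball fun x hx => ?_
      by_cases hx' : x ∈ ball z' s'
      · rw [Set.indicator_of_mem hx']
        linarith [h2 x hx']
      · rw [Set.indicator_of_notMem hx', sub_zero]
        exact h1 x hx
    refine h3.trans_lt ?_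
    rw [integral_sub hg1 hg2, setIntegral_indicator measurableSet_ball, Set.inter_eq_right.2 hsub]
    simp only [integral_const, MeasurableSet.univ, measureReal_restrict_apply, Set.univ_inter, smul_eq_mul, mul_one]
    rw [vol_ball_real _ hs.le, vol_ball_real _ hs'.le]
    have : 0 < Real.pi * s' ^ 2 * (1 - t) := by
      have : 0 < 1 - t := by linarith
      positivity
    linarith
  · rw [integral_undef hi]
    positivity

/-- the atlas transports the limit functions to the charts, and the set where `w = 1` is open -/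
lemma open_step (hC1 : C1) (hC2 : C2) (hC5 : C5) {M : Type u} {ι : Type v} [MetricSpace M]
    {U : ι → Set ℂ} {φ : ι → ℂ → M} {ρ : ι → ℂ → ℝ} (hA : Atl U φ ρ) {𝒰 : Ultrafilter ℕ}
    (h𝒰 : (𝒰 : Filter ℕ) ≤ atTop) {lam N S : ℕ → ℝ} {f : ℕ → M → ℝ} (hlam : ∀ j, 0 ≤ lam j)
    (hf : ∀ j, Eig U φ ρ (lam j) (f j)) (hN : ∀ j, N j = ((j : ℝ) + 1) * (1 + Real.sqrt (lam j)))
    (hψ : ∀ j x, |(S j)⁻¹ * f j x| ≤ 1) {W : Set M → ℝ} {w : M → ℝ}
    (hL : LimProp 𝒰 N (fun j x => (S j)⁻¹ * f j x) Set.univ W) (hw : Env Set.univ W w)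
    (hw01 : ∀ x, 0 ≤ w x ∧ w x ≤ 1) (husc : UpperSemicontinuousOn w Set.univ)
    (hopen : ∀ E : Set M, IsOpen E → ∀ x ∈ E, w x ≤ W E) : IsOpen {x | 1 ≤ w x} := by
  rw [isOpen_iff_mem_nhds]
  intro x hx
  obtain ⟨i, z, hz, rfl⟩ := hA.cover x
  obtain ⟨r₁, hr₁, hr₁U⟩ := Metric.isOpen_iff.1 (hA.dom i) z hz
  set r' : ℝ := r₁ / 2 with hr'
  have hr'0 : 0 < r' := by rw [hr']; linarith
  have hcb : closedBall z r' ⊆ U i := (closedBall_subset_ball (by rw [hr']; linarith)).trans hr₁U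
  set D : Set ℂ := ball z r' with hD
  have hDU : D ⊆ U i := ball_subset_closedBall.trans hcb
  have hDo : IsOpen D := isOpen_ball
  -- bounds of the density
  obtain ⟨L, hL1, hLρ, hLd⟩ : ∃ L : ℝ, 1 ≤ L ∧ (∀ y ∈ closedBall z r', |ρ i y| ≤ L) ∧
      ∀ y ∈ closedBall z r', ‖fderiv ℝ (ρ i) y‖ ≤ L := by
    have hc1 : ContinuousOn (ρ i) (closedBall z r') := (hA.dens i).continuousOn.mono hcb
    have hc2 : ContinuousOn (fderiv ℝ (ρ i)) (closedBall z r') :=
      ((hA.dens i).continuousOn_fderiv_of_isOpen (hA.dom i) le_rfl).mono hcb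
    obtain ⟨B1, hB1⟩ := (isCompact_closedBall z r').exists_bound_of_continuousOn hc1
    obtain ⟨B2, hB2⟩ := (isCompact_closedBall z r').exists_bound_of_continuousOn hc2
    exact ⟨max 1 (max B1 B2), le_max_left _ _, fun y hy => (hB1 y hy).trans
      ((le_max_left _ _).trans (le_max_right _ _)), fun y hy => (hB2 y hy).trans
      ((le_max_right _ _).trans (le_max_right _ _))⟩
  have hL0 : 0 < L := by linarith
  have hsL : 1 ≤ Real.sqrt L := Real.one_le_sqrt.2 hL1
  have hsl : ∀ j, 0 ≤ Real.sqrt (lam j) := fun j => Real.sqrt_nonneg _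
  have hκ2 : ∀ j, lam j * L ≤ (Real.sqrt L * (1 + Real.sqrt (lam j))) ^ 2 := by
    intro j
    rw [mul_pow, Real.sq_sqrt hL0.le]
    have h1 : (1 + Real.sqrt (lam j)) ^ 2 = 1 + 2 * Real.sqrt (lam j) + lam j := by
      have := Real.sq_sqrt (hlam j)
      calc _ = 1 + 2 * Real.sqrt (lam j) + Real.sqrt (lam j) ^ 2 := by ring
        _ = _ := by rw [this]
    rw [h1]
    nlinarith [hsl j, mul_nonneg hL0.le (hsl j)]
  have hseq : Seq D N (fun j => Real.sqrt L * (1 + Real.sqrt (lam j))) (fun j y => lam j * ρ i y)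
      (fun j y => (S j)⁻¹ * f j (φ i y)) := by
    refine ⟨fun j => ?_, ?_, fun j => ?_, fun j => ?_, fun j y hy => ?_, fun j y hy => ?_, fun j y hy => ?_,
      fun j y _ => hψ j (φ i y)⟩
    · nlinarith [hsl j]
    · have h1 : ∀ j, N j / (Real.sqrt L * (1 + Real.sqrt (lam j))) = ((j : ℝ) + 1) / Real.sqrt L := by
        intro j
        have h2 : 1 + Real.sqrt (lam j) ≠ 0 := by
          have := hsl j
          positivity
        rw [hN]
        field_simp
      simp only [h1]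
      refine Tendsto.atTop_div_const (by linarith) ?_
      exact tendsto_atTop_add_const_right _ _ tendsto_natCast_atTop_atTop
    · exact contDiffOn_const.mul ((hf j i).1.mono hDU)
    · exact contDiffOn_const.mul ((hA.dens i).mono hDU)
    · rw [abs_mul, abs_of_nonneg (hlam j)]
      exact (mul_le_mul_of_nonneg_left (hLρ y (ball_subset_closedBall hy)) (hlam j)).trans (hκ2 j)
    · have e := congrFun (fderiv_const_smul_field (𝕜 := ℝ) (f := ρ i) (lam j)) y
      have e' : fderiv ℝ (fun y => lam j * ρ i y) y = lam j • fderiv ℝ (ρ i) y := e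
      rw [e', norm_smul, Real.norm_eq_abs, abs_of_nonneg (hlam j)]
      exact (mul_le_mul_of_nonneg_left (hLd y (ball_subset_closedBall hy)) (hlam j)).trans (hκ2 j)
    · have h1 := (hf j i).2 y (hDU hy)
      show lap (fun y => (S j)⁻¹ * f j (φ i y)) y + lam j * ρ i y * ((S j)⁻¹ * f j (φ i y)) = 0
      rw [lap_const_mul' (S j)⁻¹ (fun y => f j (φ i y))]
      calc _ = (S j)⁻¹ * (lap (fun y => f j (φ i y)) y + lam j * ρ i y * f j (φ i y)) := by ring
        _ = 0 := by rw [h1, mul_zero]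
  have hlim : LimProp 𝒰 N (fun j y => (S j)⁻¹ * f j (φ i y)) D (fun E => W (φ i '' E)) := by
    refine ⟨fun E _ => hL.nonneg _ (Set.subset_univ _), fun E _ => hL.le_one _ (Set.subset_univ _),
      fun E F hEF _ => hL.mono _ _ (Set.image_mono hEF) (Set.subset_univ _), fun E F _ _ => ?_, ?_,
      fun E _ t ht => ?_, fun E _ t ht h => ?_⟩
    · simp only [Set.image_union]
      exact hL.union _ _ (Set.subset_univ _) (Set.subset_univ _)
    · simp only [Set.image_empty]
      exact hL.empty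
    · filter_upwards [hL.lt _ (Set.subset_univ _) t ht] with j hj y hy
      exact hj _ ⟨y, hy, rfl⟩
    · refine hL.le _ (Set.subset_univ _) t ht ?_
      filter_upwards [h] with j hj
      rintro _ ⟨y, hy, rfl⟩
      exact hj y hy
  have henv : Env D (fun E => W (φ i '' E)) (fun y => w (φ i y)) := by
    refine ⟨fun y hy s hs hsD => ?_, fun y hy t ht => ?_⟩
    · exact hopen _ (hA.opn i _ isOpen_ball (hsD.trans hDU)) _ ⟨y, mem_ball_self hs, rfl⟩
    · obtain ⟨s, hs, -, hlt⟩ := hw.ex (φ i y) (Set.mem_univ _) t ht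
      have h1 := (chart_contAt hA i (hDU hy)) (ball_mem_nhds _ hs)
      obtain ⟨s₁, hs₁, hs₁'⟩ := Metric.mem_nhds_iff.1 (inter_mem h1 (hDo.mem_nhds hy))
      refine ⟨s₁, hs₁, fun y' hy' => (hs₁' hy').2, ?_⟩
      refine (hL.mono _ _ ?_ (Set.subset_univ _)).trans_lt hlt
      rintro _ ⟨y', hy', rfl⟩
      exact (hs₁' hy').1
  have husc' : UpperSemicontinuousOn (fun y => w (φ i y)) D := by
    intro y hy t ht
    have h1 := husc (φ i y) (Set.mem_univ _) t ht
    rw [nhdsWithin_univ] at h1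
    exact mem_nhdsWithin_of_mem_nhds ((chart_contAt hA i (hDU hy)) h1)
  have hNC : NC D (fun y => w (φ i y)) := hC2 D _ hDo (fun y _ => (hw01 _).1) husc'
    (hC1 𝒰 D N _ _ _ _ _ h𝒰 hDo hseq hlim henv)
  have hmean := hC5 D (fun y => w (φ i y)) hDo (fun y _ => hw01 _) husc' hNC z (r' / 2) (by linarith)
    (closedBall_subset_ball (by linarith))
  have hx1 : 1 ≤ w (φ i z) := hx
  have hone : ∀ y ∈ ball z (r' / 2), 1 ≤ w (φ i y) := by
    intro y hy
    by_contra hcon
    rw [not_le] at hcon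
    obtain ⟨t, ht1, ht2⟩ := exists_between hcon
    have hyD : y ∈ D := ball_subset_ball (by linarith) hy
    have h1 := husc' y hyD t ht1
    rw [hDo.nhdsWithin_eq hyD] at h1
    obtain ⟨s₁, hs₁, hs₁'⟩ := Metric.mem_nhds_iff.1 (inter_mem h1 (isOpen_ball.mem_nhds hy))
    have h2 := mean_lt (v := fun y => w (φ i y)) (z := z) (z' := y) (s := r' / 2) (s' := s₁) (t := t) (by linarith)
      hs₁ ht2 (fun y' hy' => (hs₁' hy').2) (fun y' _ => (hw01 _).2) (fun y' hy' => (hs₁' hy').1.le)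
    have h3 : Real.pi * (r' / 2) ^ 2 ≤ w (φ i z) * (Real.pi * (r' / 2) ^ 2) :=
      le_mul_of_one_le_left (by positivity) hx1
    linarith
  have hsub2 : ball z (r' / 2) ⊆ U i := (ball_subset_ball (by linarith)).trans hDU
  refine mem_of_superset ((hA.opn i _ isOpen_ball hsub2).mem_nhds ⟨z, mem_ball_self (by linarith), rfl⟩) ?_
  rintro _ ⟨y, hy, rfl⟩
  exact hone y hy

theorem tg1 (hB1 : B1.{u}) (hB2 : B2.{u}) (hC1 : C1) (hC2 : C2) (hC5 : C5) : G1.{u, v} := by
  intro M ι _ _ _ U φ ρ hA r hr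
  by_contra hcon
  push Not at hcon
  have hex := fun j : ℕ => hcon ((j : ℝ) + 1) (by positivity)
  choose lam f hlam hf x hx using hex
  have hcont : ∀ j, Continuous (f j) := fun j => eig_cont hA (hf j)
  have hbd : ∀ j, ∃ B : ℝ, ∀ y ∈ (Set.univ : Set M), |f j y| ≤ B := fun j => by
    obtain ⟨B, hB⟩ := (isCompact_univ (X := M)).exists_bound_of_continuousOn (hcont j).continuousOn
    exact ⟨B, fun y hy => hB y hy⟩
  set S : ℕ → ℝ := fun j => sn (f j) Set.univ with hS
  have hfS : ∀ j y, |f j y| ≤ S j := fun j y => by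
    obtain ⟨B, hB⟩ := hbd j
    exact le_sn2 hB (Set.mem_univ y)
  have hS0 : ∀ j, 0 < S j := fun j =>
    lt_of_le_of_lt (mul_nonneg (Real.exp_pos _).le (sn_nonneg2 _ _)) (hx j)
  set N : ℕ → ℝ := fun j => ((j : ℝ) + 1) * (1 + Real.sqrt (lam j)) with hN
  have hN0 : ∀ j, 0 < N j := fun j => by
    have := Real.sqrt_nonneg (lam j)
    simp only [hN]
    positivity
  have hψ : ∀ j y, |(S j)⁻¹ * f j y| ≤ 1 := fun j y => by
    rw [abs_mul, abs_of_pos (inv_pos.2 (hS0 j)), inv_mul_le_iff₀ (hS0 j), mul_one]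
    exact hfS j y
  set ψ : ℕ → M → ℝ := fun j y => (S j)⁻¹ * f j y with hψdef
  have hsnψ : ∀ j (E : Set M), sn (ψ j) E = (S j)⁻¹ * sn (f j) E := fun j E =>
    sn_const_mul' (inv_pos.2 (hS0 j)).le (f j) E
  set 𝒰 : Ultrafilter ℕ := Filter.hyperfilter ℕ with h𝒰
  have h𝒰le : (𝒰 : Filter ℕ) ≤ atTop := Nat.hyperfilter_le_atTop
  obtain ⟨⟨W, hW⟩, hLP⟩ := hB1 M 𝒰 N ψ Set.univ hN0 (fun j y _ => hψ j y)
  have hL := hLP W hW
  obtain ⟨⟨w, hw⟩, hprops⟩ := hB2 M 𝒰 N ψ Set.univ W isOpen_univ hL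
  obtain ⟨hw01, husc, hopen, -, hcomp⟩ := hprops w hw
  -- somewhere `w = 1`
  have hWu : W Set.univ = 1 := by
    refine tendsto_nhds_unique (hW _ subset_rfl) ?_
    have : (fun j => sn (ψ j) (Set.univ : Set M) ^ (1 / N j)) = fun _ => (1 : ℝ) := by
      funext j
      rw [hsnψ]
      have : (S j)⁻¹ * sn (f j) Set.univ = 1 := inv_mul_cancel₀ (hS0 j).ne'
      rw [this, Real.one_rpow]
    rw [this]
    exact tendsto_const_nhds
  obtain ⟨y₁, -, hy₁⟩ := hcomp Set.univ subset_rfl isCompact_univ (by rw [hWu]; exact one_pos)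
  rw [hWu] at hy₁
  -- somewhere `w < 1`
  obtain ⟨xs, -, hxs⟩ := (isCompact_univ (X := M)).ultrafilter_le_nhds (𝒰.map x) (by
    rw [le_principal_iff]
    exact Filter.univ_mem)
  have hxs' : ∀ᶠ j in (𝒰 : Filter ℕ), dist (x j) xs < r / 2 := hxs (ball_mem_nhds xs (by linarith))
  have hWx : W (ball xs (r / 2)) ≤ Real.exp (-1) := by
    refine hL.le _ (Set.subset_univ _) _ (Real.exp_pos _).le ?_
    filter_upwards [hxs'] with j hj y hy
    have h1 : y ∈ ball (x j) r := by
      rw [mem_ball] at hy ⊢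
      have := dist_triangle y xs (x j)
      rw [dist_comm xs (x j)] at this
      linarith
    have h2 : |ψ j y| ≤ sn (ψ j) (ball (x j) r) := le_sn2 (fun y _ => hψ j y) h1
    refine h2.trans ?_
    rw [hsnψ, ← Real.exp_mul, neg_one_mul, inv_mul_le_iff₀ (hS0 j)]
    have h3 := (hx j).le
    rw [Real.exp_neg, ← div_eq_mul_inv, le_div_iff₀ (Real.exp_pos _), mul_comm]
    exact h3
  have hwxs : w xs < 1 := by
    have h1 := hw.le xs (Set.mem_univ _) (r / 2) (by linarith) (Set.subset_univ _)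
    have h2 : Real.exp (-1) < 1 := Real.exp_lt_one_iff.2 (by norm_num)
    linarith
  -- the set where `w = 1` is clopen
  have hZo : IsOpen {y | 1 ≤ w y} := open_step hC1 hC2 hC5 hA h𝒰le hlam hf (fun j => rfl) hψ hL hw
    (fun y => hw01 y (Set.mem_univ _)) husc (fun E hE y hy => hopen E (Set.subset_univ _) hE y hy)
  have hZc : IsClosed {y | 1 ≤ w y} := by
    rw [← isOpen_compl_iff, isOpen_iff_mem_nhds]
    intro y hy
    have hy' : w y < 1 := not_le.1 hy
    have h1 := husc y (Set.mem_univ _) 1 hy'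
    rw [nhdsWithin_univ] at h1
    filter_upwards [h1] with y' hy'
    exact not_le.2 hy'
  rcases isClopen_iff.1 ⟨hZc, hZo⟩ with h | h
  · have : y₁ ∈ {y | 1 ≤ w y} := hy₁
    rw [h] at this
    exact this
  · have : xs ∈ {y | 1 ≤ w y} := by rw [h]; exact Set.mem_univ _
    exact absurd this (not_le.2 hwxs)

end Pool.Agent.Q73.AD
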