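import Pool.Agent.Q73.AD.StmY

/-!
# CJ: limit densities after multiplication by `exp (-N linear)` (helper285)
-/

set_option autoImplicit false
open MeasureTheory Filter Topology Complex Metric
open scoped ContDiff ComplexConjugate

namespace Pool.Agent.Q73.AD

open Pool.Agent.Q73.NL

/-- the linear function of CJ -/
noncomputable def ell (ζ : ℂ) (R : ℝ) (z : ℂ) : ℝ := (conj ζ * z).re + ‖ζ‖ * R

lemma ell_sub_le (ζ : ℂ) (R : ℝ) (z x : ℂ) : ell ζ R z - ell ζ R x ≤ ‖ζ‖ * ‖z - x‖ := by
  unfold ell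
  have h : (conj ζ * z).re + ‖ζ‖ * R - ((conj ζ * x).re + ‖ζ‖ * R) = (conj ζ * (z - x)).re := by
    rw [mul_sub, Complex.sub_re]
    ring
  rw [h]
  refine (Complex.re_le_norm _).trans ?_
  rw [norm_mul, RCLike.norm_conj]

lemma pow_aux {t a n : ℝ} (ht : 0 ≤ t) : (t * Real.exp a) ^ n = t ^ n * Real.exp (n * a) := by
  rw [Real.mul_rpow ht (Real.exp_pos _).le, ← Real.exp_mul, mul_comm a n]

/-- a small radius -/
lemma exists_small {t A b : ℝ} (ht : 0 < t) (hA : t < A) (hb : 0 ≤ b) : ∃ r : ℝ, 0 < r ∧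
    t * Real.exp (b * r) < A := by
  have h1 : 0 < Real.log (A / t) := Real.log_pos (by rwa [one_lt_div ht])
  refine ⟨Real.log (A / t) / (b + 1), by positivity, ?_⟩
  have h2 : b * (Real.log (A / t) / (b + 1)) < Real.log (A / t) := by
    rw [← mul_div_assoc, div_lt_iff₀ (by positivity)]
    nlinarith
  have h3 := Real.exp_lt_exp.2 h2
  rw [Real.exp_log (div_pos (ht.trans hA) ht)] at h3
  calc t * Real.exp (b * (Real.log (A / t) / (b + 1))) < t * (A / t) := mul_lt_mul_of_pos_left h3 ht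
    _ = A := mul_div_cancel₀ _ ht.ne'

theorem tcj : CJ := by
  intro 𝒰 R N ψ W W' w ζ hR hN hψ hW hw hW'
  have hdef : (fun z : ℂ => w z * Real.exp (-((conj ζ * z).re + ‖ζ‖ * R))) =
      fun z => w z * Real.exp (-ell ζ R z) := rfl
  have hdef' : ∀ j z, Real.exp (-(N j * ((conj ζ * z).re + ‖ζ‖ * R))) * ψ j z =
      Real.exp (-(N j * ell ζ R z)) * ψ j z := fun _ _ => rfl
  rw [hdef]
  constructor
  · intro x hx r hr hball
    by_contra hcon
    rw [not_le] at hcon
    obtain ⟨t, ht1, ht2⟩ := exists_between hcon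
    have ht0 : 0 < t := lt_of_le_of_lt (hW'.nonneg _ hball) ht1
    obtain ⟨r', hr', hA⟩ := exists_small ht0 ht2 (norm_nonneg ζ)
    have hsub : ball x (min r r') ⊆ ball x r := ball_subset_ball (min_le_left _ _)
    have h1 := hW'.lt _ hball t ht1
    have h2 : W (ball x (min r r')) ≤ t * Real.exp (ell ζ R x + ‖ζ‖ * r') := by
      refine hW.le _ (hsub.trans hball) _ (by positivity) ?_
      filter_upwards [h1] with j hj z hz
      have h3 := hj z (hsub hz)
      rw [hdef', abs_mul, abs_of_pos (Real.exp_pos _)] at h3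
      rw [pow_aux ht0.le]
      have h4 : |ψ j z| = Real.exp (N j * ell ζ R z) * (Real.exp (-(N j * ell ζ R z)) * |ψ j z|) := by
        rw [← mul_assoc, ← Real.exp_add, add_neg_cancel, Real.exp_zero, one_mul]
      rw [h4]
      have h5 : ell ζ R z ≤ ell ζ R x + ‖ζ‖ * r' := by
        have h6 := ell_sub_le ζ R z x
        have h7 : ‖z - x‖ ≤ r' := by
          rw [mem_ball, dist_eq_norm] at hz
          exact hz.le.trans (min_le_right _ _)
        have h8 : ‖ζ‖ * ‖z - x‖ ≤ ‖ζ‖ * r' := mul_le_mul_of_nonneg_left h7 (norm_nonneg _)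
        linarith
      calc _ ≤ Real.exp (N j * ell ζ R z) * t ^ N j := mul_le_mul_of_nonneg_left h3 (Real.exp_pos _).le
        _ ≤ Real.exp (N j * (ell ζ R x + ‖ζ‖ * r')) * t ^ N j := by
            refine mul_le_mul_of_nonneg_right (Real.exp_le_exp.2 ?_) (Real.rpow_nonneg ht0.le _)
            exact mul_le_mul_of_nonneg_left h5 (hN j).le
        _ = _ := mul_comm _ _
    have h3 := (hw.le x hx _ (lt_min hr hr') (hsub.trans hball)).trans h2
    have h4 : w x * Real.exp (-ell ζ R x) ≤ t * Real.exp (‖ζ‖ * r') := by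
      calc _ ≤ t * Real.exp (ell ζ R x + ‖ζ‖ * r') * Real.exp (-ell ζ R x) :=
            mul_le_mul_of_nonneg_right h3 (Real.exp_pos _).le
        _ = _ := by
            rw [mul_assoc, ← Real.exp_add]
            congr 2
            ring
    exact absurd h4 (not_le.2 hA)
  · intro x hx t ht
    have h0 : w x < t * Real.exp (ell ζ R x) := by
      have h1 := mul_lt_mul_of_pos_right ht (Real.exp_pos (ell ζ R x))
      rwa [mul_assoc, ← Real.exp_add, neg_add_cancel, Real.exp_zero, mul_one] at h1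
    obtain ⟨t1, ht1, ht2⟩ := exists_between h0
    obtain ⟨r1, hr1, hb1, hW1⟩ := hw.ex x hx t1 ht1
    have ht10 : 0 < t1 := lt_of_le_of_lt (hW.nonneg _ hb1) hW1
    obtain ⟨r', hr', hA⟩ := exists_small ht10 ht2 (norm_nonneg ζ)
    have hsub : ball x (min r1 r') ⊆ ball x r1 := ball_subset_ball (min_le_left _ _)
    refine ⟨min r1 r', lt_min hr1 hr', hsub.trans hb1, ?_⟩
    have h1 := hW.lt _ hb1 t1 hW1
    have h2 : W' (ball x (min r1 r')) ≤ t1 * Real.exp (-ell ζ R x + ‖ζ‖ * r') := by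
      refine hW'.le _ (hsub.trans hb1) _ (by positivity) ?_
      filter_upwards [h1] with j hj z hz
      have h3 := hj z (hsub hz)
      rw [hdef', abs_mul, abs_of_pos (Real.exp_pos _), pow_aux ht10.le, mul_comm]
      have h5 : -ell ζ R z ≤ -ell ζ R x + ‖ζ‖ * r' := by
        have h6 := ell_sub_le ζ R x z
        have h7 : ‖x - z‖ ≤ r' := by
          rw [mem_ball, dist_eq_norm, norm_sub_rev] at hz
          exact hz.le.trans (min_le_right _ _)
        have h8 : ‖ζ‖ * ‖x - z‖ ≤ ‖ζ‖ * r' := mul_le_mul_of_nonneg_left h7 (norm_nonneg _)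
        linarith
      refine mul_le_mul h3 (Real.exp_le_exp.2 ?_) (Real.exp_pos _).le (Real.rpow_nonneg ht10.le _)
      have h9 := mul_le_mul_of_nonneg_left h5 (hN j).le
      linarith
    refine lt_of_le_of_lt h2 ?_
    have h3 := mul_lt_mul_of_pos_right hA (Real.exp_pos (-ell ζ R x))
    calc t1 * Real.exp (-ell ζ R x + ‖ζ‖ * r') = t1 * Real.exp (‖ζ‖ * r') * Real.exp (-ell ζ R x) := by
          rw [mul_assoc, ← Real.exp_add]
          congr 2
          ring
      _ < t * Real.exp (ell ζ R x) * Real.exp (-ell ζ R x) := h3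
      _ = t := by rw [mul_assoc, ← Real.exp_add, add_neg_cancel, Real.exp_zero, mul_one]

end Pool.Agent.Q73.AD
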