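import Pool.Agent.Q73.AD.YKa

/-!
# The area of the starts (K1), by helper224
-/

set_option autoImplicit false

namespace Pool.Agent.Q73.AD

section

variable {M : ℕ} {Lin : ℕ → ℕ × ℕ → Prop} {Rel : ℕ → ℕ × ℕ → Finset (ℕ × (ℕ × ℕ))}

open Classical in
theorem k1_base : (∑ _a ∈ (gd (M ^ 0)).filter (fun a => cap M Lin Rel 0 a = none), wtK M 0)
    + (∑ _a ∈ (gd (M ^ 0)).filter (Start M Lin Rel 0), wtK M 0) ≤ 1 := by
  rw [Finset.sum_filter, Finset.sum_filter, ← Finset.sum_add_distrib]
  calc _ ≤ ∑ _a ∈ gd (M ^ 0), (1 : ℝ) := by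
        refine Finset.sum_le_sum fun a _ => ?_
        rw [wt_zero]
        by_cases h1 : cap M Lin Rel 0 a = none
        · have h2 : ¬ Start M Lin Rel 0 a := by
            unfold Start; rw [h1]; simp
          simp [h1, h2]
        · rw [if_neg h1]
          split_ifs <;> norm_num
    _ = 1 := by
        rw [Finset.sum_const, gd_card]
        simp

open Classical in
theorem k1_step (hM : 0 < M) (i : ℕ) :
    (∑ _b ∈ (gd (M ^ (i + 1))).filter (fun b => cap M Lin Rel (i + 1) b = none), wtK M (i + 1))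
    + (∑ _b ∈ (gd (M ^ (i + 1))).filter (Start M Lin Rel (i + 1)), wtK M (i + 1))
    ≤ (∑ _a ∈ (gd (M ^ i)).filter (fun a => cap M Lin Rel i a = none), wtK M i)
    + ∑ _b ∈ (gd (M ^ (i + 1))).filter (Rl M Lin Rel i), wtK M (i + 1) := by
  rw [← sum_child hM i (fun a => cap M Lin Rel i a = none)]
  rw [Finset.sum_filter, Finset.sum_filter, Finset.sum_filter, Finset.sum_filter,
    ← Finset.sum_add_distrib, ← Finset.sum_add_distrib]
  refine Finset.sum_le_sum fun b _ => ?_
  have hw := wt_nonneg M (i + 1)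
  have h0 : (if cap M Lin Rel (i + 1) b = none then wtK M (i + 1) else 0)
      + (if Start M Lin Rel (i + 1) b then wtK M (i + 1) else 0) ≤ wtK M (i + 1) := by
    by_cases h1 : cap M Lin Rel (i + 1) b = none
    · have h2 : ¬ Start M Lin Rel (i + 1) b := by
        unfold Start; rw [h1]; simp
      simp [h1, h2]
    · rw [if_neg h1, zero_add]
      split_ifs
      · exact le_rfl
      · exact hw
  rcases hc : cap M Lin Rel i (anc M b) with _ | P
  · rw [if_pos rfl]
    have h3 : 0 ≤ (if Rl M Lin Rel i b then wtK M (i + 1) else 0) := by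
      split_ifs
      · exact hw
      · exact le_rfl
    linarith
  · rcases k2_cases (M := M) (Lin := Lin) (Rel := Rel) i b with h1 | h1 | ⟨Q, hQ, hQ2, hQ3⟩
    · have : Rl M Lin Rel i b := ⟨P, hc, h1.2.2 P hc⟩
      rw [if_pos this]
      simp only [reduceCtorEq, if_false, zero_add]
      linarith
    · have : Rl M Lin Rel i b := ⟨P, hc, h1.2.2 P hc⟩
      rw [if_pos this]
      simp only [reduceCtorEq, if_false, zero_add]
      linarith
    · rw [hc] at hQ
      cases hQ
      have hP := (k2_claim1 i (anc M b) P hc).1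
      have h4 : ¬ Start M Lin Rel (i + 1) b := by
        unfold Start
        rw [hQ2]
        intro h5
        have h6 := Option.some.inj h5
        rw [h6] at hP
        simp at hP
      rw [hQ2, if_neg (by simp : ¬ (some P = none)), if_neg h4, zero_add]
      simp only [reduceCtorEq, if_false, zero_add]
      split_ifs
      · exact hw
      · exact le_rfl

open Classical in
theorem k1_sum (hM : 0 < M) (J : ℕ) :
    (∑ _a ∈ (gd (M ^ J)).filter (fun a => cap M Lin Rel J a = none), wtK M J)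
    + ws M J (Start M Lin Rel) (fun _ _ => 1) ≤ 1 +
      ∑ i ∈ Finset.range J, ∑ _b ∈ (gd (M ^ (i + 1))).filter (Rl M Lin Rel i), wtK M (i + 1) := by
  rw [ws_eq]
  simp_rw [mul_one]
  induction J with
  | zero =>
    rw [zero_add, Finset.sum_range_one, Finset.sum_range_zero, add_zero]
    exact k1_base
  | succ J ih =>
    rw [Finset.sum_range_succ _ (J + 1), Finset.sum_range_succ (fun i =>
      ∑ _b ∈ (gd (M ^ (i + 1))).filter (Rl M Lin Rel i), wtK M (i + 1)) J]
    have := k1_step (Lin := Lin) (Rel := Rel) hM J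
    linarith

end

theorem k1_theta {θ C₂ : ℝ} (h0 : 0 ≤ θ) (h1 : 1 ≤ C₂) (h2 : θ * (4 * C₂ + 1) ≤ 1 / 2) :
    θ ≤ 1 / 10 := by
  nlinarith

theorem tk1 (_h2 : K2) : K1 := by
  classical
  intro M A l l₁ J G G₂ C₂ C₃ θ θ₁ g Lin x Rel hT
  have hM : 0 < M := by have := hT.two_le; omega
  have h1 := k1_sum (Lin := Lin) (Rel := Rel) hM J
  have h2 := released_sum (M := M) (Lin := Lin) (Rel := Rel) J (fun _ _ => 1)
    (fun _ _ => zero_le_one)
  simp only [mul_one] at h2
  have h3 : ws M J (Start M Lin Rel) (fun i a => ∑ r ∈ Rel i a, ((M : ℝ) ^ (2 * r.1))⁻¹)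
      ≤ θ * ws M J (Start M Lin Rel) (fun _ _ => 1) := by
    rw [ws_eq, ws_eq, Finset.mul_sum]
    refine Finset.sum_le_sum fun i hi => ?_
    rw [Finset.mul_sum]
    refine Finset.sum_le_sum fun a ha => ?_
    rw [Finset.mem_filter] at ha
    rw [Finset.mem_range] at hi
    have hL : Lin i a := (k2_claim1 i a (i, a) ha.2).2.2.1
    have := hT.lin_area i (by omega) a ha.1 hL
    have hw := wt_nonneg M i
    rw [mul_one, mul_comm θ]
    exact mul_le_mul_of_nonneg_left this hw
  have h4 : 0 ≤ ∑ _a ∈ (gd (M ^ J)).filter (fun a => cap M Lin Rel J a = none), wtK M J :=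
    Finset.sum_nonneg fun _ _ => wt_nonneg _ _
  have h5 := k1_theta hT.θ_nonneg hT.one_le_C₂ hT.θ_le
  have h6 : 0 ≤ ws M J (Start M Lin Rel) (fun _ _ => 1) :=
    ws_nonneg J _ _ (fun _ _ => zero_le_one)
  have h7 := hT.θ_nonneg
  nlinarith

end Pool.Agent.Q73.AD
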