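import Pool.Agent.Q73.AD.YK0

/-!
# Structure of the capturing function (K2), by helper224
-/

set_option autoImplicit false

namespace Pool.Agent.Q73.AD

section

variable {M : ℕ} {Lin : ℕ → ℕ × ℕ → Prop} {Rel : ℕ → ℕ × ℕ → Finset (ℕ × (ℕ × ℕ))}

/-- the three cases of the definition of `cap` -/
theorem k2_cases (j : ℕ) (b : ℕ × ℕ) :
    (cap M Lin Rel (j + 1) b = some (j + 1, b) ∧ Lin (j + 1) b ∧
      ∀ P, cap M Lin Rel j (anc M b) = some P →
        (j + 1 - P.1, md (M ^ (j + 1 - P.1)) b) ∈ Rel P.1 P.2) ∨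
    (cap M Lin Rel (j + 1) b = none ∧ ¬ Lin (j + 1) b ∧
      ∀ P, cap M Lin Rel j (anc M b) = some P →
        (j + 1 - P.1, md (M ^ (j + 1 - P.1)) b) ∈ Rel P.1 P.2) ∨
    (∃ P, cap M Lin Rel j (anc M b) = some P ∧ cap M Lin Rel (j + 1) b = some P ∧
      (j + 1 - P.1, md (M ^ (j + 1 - P.1)) b) ∉ Rel P.1 P.2) := by
  classical
  rcases h : cap M Lin Rel j (anc M b) with _ | P
  · by_cases hL : Lin (j + 1) b
    · left
      refine ⟨?_, hL, fun P hP => by cases hP⟩
      simp only [cap, h, if_pos hL]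
    · right; left
      refine ⟨?_, hL, fun P hP => by cases hP⟩
      simp only [cap, h, if_neg hL]
  · by_cases hR : (j + 1 - P.1, md (M ^ (j + 1 - P.1)) b) ∈ Rel P.1 P.2
    · by_cases hL : Lin (j + 1) b
      · left
        refine ⟨?_, hL, fun Q hQ => ?_⟩
        · simp only [cap, h, if_pos hL, if_pos hR]
        · cases hQ; exact hR
      · right; left
        refine ⟨?_, hL, fun Q hQ => ?_⟩
        · simp only [cap, h, if_neg hL, if_pos hR]
        · cases hQ; exact hR
    · right; right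
      refine ⟨P, rfl, ?_, hR⟩
      simp only [cap, h, if_neg hR]

theorem k2_anc_succ (j k : ℕ) (hk : k ≤ j) (b : ℕ × ℕ) :
    anc (M ^ (j - k)) (anc M b) = anc (M ^ (j + 1 - k)) b := by
  rw [anc_anc, Nat.succ_sub hk, pow_succ, mul_comm]

theorem k2_claim1 : ∀ j b P, cap M Lin Rel j b = some P →
    P.1 ≤ j ∧ anc (M ^ (j - P.1)) b = P.2 ∧ Lin P.1 P.2 ∧
    (∀ k, P.1 ≤ k → k ≤ j → cap M Lin Rel k (anc (M ^ (j - k)) b) = some P) ∧
    ∀ k, P.1 < k → k ≤ j →
      (k - P.1, md (M ^ (k - P.1)) (anc (M ^ (j - k)) b)) ∉ Rel P.1 P.2 := by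
  classical
  intro j
  induction j with
  | zero =>
    intro b P h
    have h' := h
    simp only [cap] at h
    split_ifs at h with hL
    · cases h
      refine ⟨le_rfl, ?_, hL, ?_, ?_⟩
      · simp [anc_one]
      · intro k _ hk
        obtain rfl : k = 0 := by omega
        simpa [anc_one] using h'
      · intro k h1 h2
        simp only at h1
        omega
  | succ j ih =>
    intro b P h
    have key : ∀ Q : ℕ × (ℕ × ℕ), Q = (j + 1, b) → Lin (j + 1) b →
        cap M Lin Rel (j + 1) b = some Q →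
        Q.1 ≤ j + 1 ∧ anc (M ^ (j + 1 - Q.1)) b = Q.2 ∧ Lin Q.1 Q.2 ∧
        (∀ k, Q.1 ≤ k → k ≤ j + 1 → cap M Lin Rel k (anc (M ^ (j + 1 - k)) b) = some Q) ∧
        ∀ k, Q.1 < k → k ≤ j + 1 →
          (k - Q.1, md (M ^ (k - Q.1)) (anc (M ^ (j + 1 - k)) b)) ∉ Rel Q.1 Q.2 := by
      rintro Q rfl hL hc
      refine ⟨le_rfl, by simp [anc_one], hL, ?_, ?_⟩
      · intro k h1 h2
        simp only at h1
        obtain rfl : k = j + 1 := by omega
        simpa [anc_one] using hc
      · intro k h1 h2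
        simp only at h1
        omega
    rcases k2_cases (M := M) (Lin := Lin) (Rel := Rel) j b with h1 | h1 | ⟨Q, hQ, hQ2, hQ3⟩
    · have hP : P = (j + 1, b) := by
        rw [h] at h1
        exact Option.some.inj h1.1
      exact key P hP h1.2.1 h
    · rw [h] at h1
      exact absurd h1.1 (by simp)
    · have hPQ : Q = P := by
        rw [h] at hQ2
        exact (Option.some.inj hQ2).symm
      subst hPQ
      obtain ⟨i1, i2, i3, i4, i5⟩ := ih (anc M b) Q hQ
      refine ⟨by omega, ?_, i3, ?_, ?_⟩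
      · rw [← k2_anc_succ j Q.1 i1 b]; exact i2
      · intro k k1 k2
        rcases Nat.lt_or_ge j k with hk | hk
        · obtain rfl : k = j + 1 := by omega
          simpa [anc_one] using h
        · rw [← k2_anc_succ j k hk b]
          exact i4 k k1 hk
      · intro k k1 k2
        rcases Nat.lt_or_ge j k with hk | hk
        · obtain rfl : k = j + 1 := by omega
          simpa [anc_one] using hQ3
        · rw [← k2_anc_succ j k hk b]
          exact i5 k k1 hk

theorem k2_claim2 : ∀ j b, Lin j b → cap M Lin Rel j b ≠ none := by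
  classical
  intro j b hL h
  rcases j with _ | j
  · simp only [cap, if_pos hL] at h
    cases h
  · rcases k2_cases (M := M) (Lin := Lin) (Rel := Rel) j b with h1 | h1 | ⟨Q, hQ, hQ2, hQ3⟩
    · rw [h] at h1; cases h1.1
    · exact h1.2.1 hL
    · rw [h] at hQ2; cases hQ2

theorem k2_claim3 : ∀ j b P, cap M Lin Rel j (anc M b) = some P →
    cap M Lin Rel (j + 1) b ≠ some P →
    (j + 1 - P.1, md (M ^ (j + 1 - P.1)) b) ∈ Rel P.1 P.2 := by
  intro j b P h h2
  rcases k2_cases (M := M) (Lin := Lin) (Rel := Rel) j b with h1 | h1 | ⟨Q, hQ, hQ2, hQ3⟩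
  · exact h1.2.2 P h
  · exact h1.2.2 P h
  · rw [h] at hQ
    cases hQ
    exact absurd hQ2 h2

theorem k2_claim4 : ∀ j b P, cap M Lin Rel (j + 1) b = some P → P ≠ (j + 1, b) →
    cap M Lin Rel j (anc M b) = some P := by
  intro j b P h h2
  rcases k2_cases (M := M) (Lin := Lin) (Rel := Rel) j b with h1 | h1 | ⟨Q, hQ, hQ2, hQ3⟩
  · rw [h] at h1
    exact absurd (Option.some.inj h1.1) h2
  · rw [h] at h1; cases h1.1
  · rw [h] at hQ2
    cases hQ2
    exact hQ

theorem k2_claim5 (i : ℕ) (a : ℕ × ℕ) (hs : cap M Lin Rel i a = some (i, a)) :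
    ∀ j, i ≤ j → ∀ b, anc (M ^ (j - i)) b = a → cap M Lin Rel j b ≠ some (i, a) →
    ∃ k, i < k ∧ k ≤ j ∧ (k - i, md (M ^ (k - i)) (anc (M ^ (j - k)) b)) ∈ Rel i a := by
  intro j hj
  induction j, hj using Nat.le_induction with
  | base =>
    intro b hb h
    rw [Nat.sub_self, pow_zero, anc_one] at hb
    subst hb
    exact absurd hs h
  | succ j hj ih =>
    intro b hb h
    by_cases hc : cap M Lin Rel j (anc M b) = some (i, a)
    · refine ⟨j + 1, by omega, le_rfl, ?_⟩
      have := k2_claim3 j b (i, a) hc h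
      simpa [anc_one] using this
    · rw [← k2_anc_succ j i hj b] at hb
      obtain ⟨k, k1, k2, k3⟩ := ih (anc M b) hb hc
      refine ⟨k, k1, by omega, ?_⟩
      rw [← k2_anc_succ j k k2 b]
      exact k3

end

theorem tk2 : K2 := by
  intro M Lin Rel _
  exact ⟨k2_claim1, k2_claim2, k2_claim3, k2_claim4, k2_claim5⟩

end Pool.Agent.Q73.AD
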