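import Pool.Agent.Q73.AD.YK1

/-!
# The area of the births (K3), by helper224
-/

set_option autoImplicit false

namespace Pool.Agent.Q73.AD

/-- the numbers near to the ends of the interval `[t n, t n + n)` -/
def k3near (A n t : ℕ) : Finset ℕ :=
  Finset.Ico (t * n - A) (t * n + A) ∪ Finset.Ico (t * n + n - A) (t * n + n + A)

/-- the enlarged interval -/
def k3wide (A n t : ℕ) : Finset ℕ := Finset.Ico (t * n - A) (t * n + n + A)

/-- the squares near to the boundary of a block -/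
def k3Fr (A n : ℕ) (e : ℕ × ℕ) : Finset (ℕ × ℕ) :=
  (k3near A n e.1 ×ˢ k3wide A n e.2) ∪ (k3wide A n e.1 ×ˢ k3near A n e.2)

theorem k3near_card (A n t : ℕ) : (k3near A n t).card ≤ 4 * A := by
  unfold k3near
  refine (Finset.card_union_le _ _).trans ?_
  rw [Nat.card_Ico, Nat.card_Ico]
  omega

theorem k3wide_card (A n t : ℕ) : (k3wide A n t).card ≤ n + 2 * A := by
  unfold k3wide
  rw [Nat.card_Ico]
  omega

theorem k3Fr_card {A n : ℕ} (hA : 1 ≤ A) (hn : 1 ≤ n) (e : ℕ × ℕ) :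
    (k3Fr A n e).card ≤ 24 * A ^ 2 * n := by
  unfold k3Fr
  refine (Finset.card_union_le _ _).trans ?_
  rw [Finset.card_product, Finset.card_product]
  have h1 := k3near_card A n e.1
  have h2 := k3near_card A n e.2
  have h3 := k3wide_card A n e.1
  have h4 := k3wide_card A n e.2
  calc (k3near A n e.1).card * (k3wide A n e.2).card + (k3wide A n e.1).card * (k3near A n e.2).card
      ≤ 4 * A * (n + 2 * A) + (n + 2 * A) * (4 * A) := by gcongr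
    _ = 8 * A * n + 16 * A ^ 2 := by ring
    _ ≤ 8 * A ^ 2 * n + 16 * A ^ 2 * n := by
        have h5 : 16 * A ^ 2 ≤ 16 * A ^ 2 * n := Nat.le_mul_of_pos_right _ hn
        have h6 : 8 * A * n ≤ 8 * A ^ 2 * n := by
          have : A ≤ A ^ 2 := by nlinarith
          gcongr
        omega
    _ = _ := by ring

theorem k3_div {n : ℕ} (hn : 0 < n) (y t : ℕ) : y / n = t ↔ t * n ≤ y ∧ y < t * n + n := by
  rw [Nat.div_eq_iff hn]
  constructor
  · rintro ⟨h1, h2⟩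
    constructor
    · nlinarith
    · omega
  · rintro ⟨h1, h2⟩
    constructor
    · nlinarith
    · omega

/-- a square near to a block and outside of it -/
theorem k3_outer {A n : ℕ} (hn : 0 < n) {b c e : ℕ × ℕ} (h1 : |(c.1 : ℤ) - b.1| ≤ A)
    (h2 : |(c.2 : ℤ) - b.2| ≤ A) (hc : anc n c = e) (hb : anc n b ≠ e) : b ∈ k3Fr A n e := by
  subst hc
  have c1 := (k3_div hn c.1 (c.1 / n)).mp rfl
  have c2 := (k3_div hn c.2 (c.2 / n)).mp rfl
  rw [abs_le] at h1 h2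
  have hb' : ¬ (b.1 / n = c.1 / n) ∨ ¬ (b.2 / n = c.2 / n) := by
    by_contra hcon
    push Not at hcon
    exact hb (Prod.ext hcon.1 hcon.2)
  rw [k3_div hn, k3_div hn] at hb'
  unfold k3Fr k3near k3wide
  simp only [anc, Finset.mem_union, Finset.mem_product, Finset.mem_Ico]
  generalize c.1 / n * n = u at *
  generalize c.2 / n * n = v at *
  rcases hb' with h | h
  · left
    constructor
    · omega
    · omega
  · right
    constructor
    · omega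
    · omega

/-- a square of a block and near to its complement -/
theorem k3_inner {A n : ℕ} (hn : 0 < n) {b c e : ℕ × ℕ} (h1 : |(c.1 : ℤ) - b.1| ≤ A)
    (h2 : |(c.2 : ℤ) - b.2| ≤ A) (hb : anc n b = e) (hc : anc n c ≠ e) : b ∈ k3Fr A n e := by
  subst hb
  have c1 := (k3_div hn b.1 (b.1 / n)).mp rfl
  have c2 := (k3_div hn b.2 (b.2 / n)).mp rfl
  rw [abs_le] at h1 h2
  have hb' : ¬ (c.1 / n = b.1 / n) ∨ ¬ (c.2 / n = b.2 / n) := by
    by_contra hcon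
    push Not at hcon
    exact hc (Prod.ext hcon.1 hcon.2)
  rw [k3_div hn, k3_div hn] at hb'
  unfold k3Fr k3near k3wide
  simp only [anc, Finset.mem_union, Finset.mem_product, Finset.mem_Ico]
  generalize b.1 / n * n = u at *
  generalize b.2 / n * n = v at *
  rcases hb' with h | h
  · left
    constructor
    · omega
    · omega
  · right
    constructor
    · omega
    · omega

theorem k3_geom {M : ℕ} (hM : 2 ≤ M) (J : ℕ) :
    ∑ m ∈ Finset.range (J + 1), ((M : ℝ) ^ m) * wtK M m ≤ 2 := by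
  have hM' : (2 : ℝ) ≤ M := by exact_mod_cast hM
  have h1 : ∀ m ∈ Finset.range (J + 1), ((M : ℝ) ^ m) * wtK M m ≤ (1 / 2 : ℝ) ^ m := by
    intro m _
    unfold wtK
    have h2 : ((M : ℝ) ^ m) * ((M : ℝ) ^ (2 * m))⁻¹ = ((M : ℝ)⁻¹) ^ m := by
      rw [two_mul, pow_add, inv_pow]
      have : (M : ℝ) ^ m ≠ 0 := by positivity
      field_simp
    rw [h2]
    refine pow_le_pow_left₀ (by positivity) ?_ m
    rw [one_div]
    exact inv_anti₀ (by norm_num) hM'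
  refine (Finset.sum_le_sum h1).trans ?_
  have h3 := geom_sum_eq (by norm_num : (1 / 2 : ℝ) ≠ 1) (J + 1)
  rw [h3]
  have h4 : (0 : ℝ) ≤ (1 / 2 : ℝ) ^ (J + 1) := by positivity
  linarith [h4, (by ring : ((1 / 2 : ℝ) ^ (J + 1) - 1) / (1 / 2 - 1) = 2 - 2 * (1 / 2 : ℝ) ^ (J + 1))]

/-- the area of the squares near to the boundaries of blocks -/
theorem k3_frame {M A J : ℕ} (hM : 2 ≤ M) (hA : 1 ≤ A) {β : Type*} (T : Finset β) (lev : β → ℕ)
    (e : β → ℕ × ℕ) (S : Finset (Σ _ : ℕ, ℕ × ℕ))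
    (hS : ∀ x ∈ S, x.1 ≤ J ∧ ∃ y ∈ T, lev y ≤ x.1 ∧ x.2 ∈ k3Fr A (M ^ (x.1 - lev y)) (e y)) :
    ∑ x ∈ S, wtK M x.1 ≤ 48 * (A : ℝ) ^ 2 * ∑ y ∈ T, wtK M (lev y) := by
  classical
  have h1 : ∑ x ∈ S, wtK M x.1 ≤ ∑ y ∈ T.sigma (fun y => (Finset.range (J + 1)).sigma
      fun m => k3Fr A (M ^ m) (e y)), wtK M (lev y.1 + y.2.1) := by
    refine sum_cover _ _ _ _ (fun y _ => wt_nonneg _ _) (fun y => ⟨lev y.1 + y.2.1, y.2.2⟩) ?_
    rintro ⟨i, b⟩ hx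
    obtain ⟨hi, y, hy, hl, hb⟩ := hS _ hx
    simp only at hi hl hb
    refine ⟨⟨y, ⟨i - lev y, b⟩⟩, ?_, ?_, ?_⟩
    · simp only [Finset.mem_sigma, Finset.mem_range]
      exact ⟨hy, by omega, hb⟩
    · simp only
      rw [Nat.add_sub_cancel' hl]
    · simp only
      rw [Nat.add_sub_cancel' hl]
  refine h1.trans ?_
  rw [Finset.sum_sigma, Finset.mul_sum]
  refine Finset.sum_le_sum fun y _ => ?_
  rw [Finset.sum_sigma]
  calc ∑ m ∈ Finset.range (J + 1), ∑ _b ∈ k3Fr A (M ^ m) (e y), wtK M (lev y + m)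
      ≤ ∑ m ∈ Finset.range (J + 1), (24 * (A : ℝ) ^ 2 * wtK M (lev y)) * ((M : ℝ) ^ m * wtK M m) := by
        refine Finset.sum_le_sum fun m _ => ?_
        rw [Finset.sum_const, nsmul_eq_mul, wt_add]
        have hc := k3Fr_card hA (Nat.one_le_pow m M (by omega)) (e y)
        have hc' : ((k3Fr A (M ^ m) (e y)).card : ℝ) ≤ 24 * (A : ℝ) ^ 2 * (M : ℝ) ^ m := by
          exact_mod_cast hc
        calc ((k3Fr A (M ^ m) (e y)).card : ℝ) * (wtK M (lev y) * wtK M m)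
            ≤ (24 * (A : ℝ) ^ 2 * (M : ℝ) ^ m) * (wtK M (lev y) * wtK M m) :=
              mul_le_mul_of_nonneg_right hc' (mul_nonneg (wt_nonneg _ _) (wt_nonneg _ _))
          _ = _ := by ring
    _ = (24 * (A : ℝ) ^ 2 * wtK M (lev y)) * ∑ m ∈ Finset.range (J + 1), ((M : ℝ) ^ m * wtK M m) := by
        rw [Finset.mul_sum]
    _ ≤ (24 * (A : ℝ) ^ 2 * wtK M (lev y)) * 2 :=
        mul_le_mul_of_nonneg_left (k3_geom hM J) (mul_nonneg (by positivity) (wt_nonneg _ _))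
    _ = _ := by ring

section

variable {M A l l₁ J : ℕ} {G G₂ C₂ C₃ θ θ₁ : ℝ} {g : ℕ → ℕ × ℕ → ℝ} {Lin : ℕ → ℕ × ℕ → Prop}
  {x : ℕ → ℕ × ℕ → ℝ} {Rel : ℕ → ℕ × ℕ → Finset (ℕ × (ℕ × ℕ))}

/-- classification of the births -/
theorem k3_class (hT : Tree M A l l₁ J G G₂ C₂ C₃ θ θ₁ g Lin x Rel) {i : ℕ} {b : ℕ × ℕ}
    (hi : i + l₁ ≤ J) (hb : b ∈ gd (M ^ i)) (hB : Birth M G g Lin Rel i b) :
    (b ∈ k3Fr A (M ^ (i - 0)) (0, 0)) ∨
    (∃ P : ℕ × (ℕ × ℕ), Start M Lin Rel P.1 P.2 ∧ P.1 ≤ J ∧ P.2 ∈ gd (M ^ P.1) ∧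
      ((P.1 ≤ i ∧ b ∈ k3Fr A (M ^ (i - P.1)) P.2) ∨
       (∃ r ∈ Rel P.1 P.2, P.1 + r.1 ≤ i ∧
          b ∈ k3Fr A (M ^ (i - (P.1 + r.1))) (ch (M ^ r.1) P.2 r.2)) ∨
       (i < P.1 ∧ P.1 ≤ i + l₁ ∧ |((anc (M ^ (P.1 - i)) P.2).1 : ℤ) - b.1| ≤ A ∧
          |((anc (M ^ (P.1 - i)) P.2).2 : ℤ) - b.2| ≤ A))) := by
  have hM : 0 < M := by have := hT.two_le; omega
  have hA := hT.one_le_A
  obtain ⟨hi1, hU, hcap, hgle⟩ := hB
  obtain ⟨i', rfl⟩ : ∃ i', i = i' + 1 := ⟨i - 1, by omega⟩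
  rw [Nat.add_sub_cancel] at hcap hgle
  have ha : anc M b ∈ gd (M ^ i') := anc_mem (by rw [← pow_succ]; exact hb)
  have hch : ch M (anc M b) (md M b) = b := ch_anc_md M b
  have hb' := mem_gd.mp hb
  by_cases hint : A ≤ b.1 ∧ b.1 + A < M ^ (i' + 1) ∧ A ≤ b.2 ∧ b.2 + A < M ^ (i' + 1)
  · right
    have h := hT.birth i' hi (anc M b) ha hgle (md M b) (md_mem hM b)
    rw [hch] at h
    obtain ⟨c', hc'1, hL, hd1, hd2⟩ := h hU.2 hint.1 hint.2.1 hint.2.2.1 hint.2.2.2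
    obtain ⟨P, hP⟩ := Option.ne_none_iff_exists'.mp (k2_claim2 (M := M) (Rel := Rel) _ c' hL)
    obtain ⟨p1, p2, p3, p4, p5⟩ := k2_claim1 _ c' P hP
    have hs := start_of_cap hP
    refine ⟨P, hs, by omega, cap_mem hP hc'1, ?_⟩
    rcases Nat.lt_or_ge (i' + 1) P.1 with hlt | hge
    · right; right
      have e : anc (M ^ (P.1 - (i' + 1))) P.2 = anc (M ^ l₁) c' := by
        rw [← p2, anc_anc, ← pow_add]
        congr 2
        omega
      rw [e]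
      exact ⟨hlt, p1, hd1, hd2⟩
    · have hcc : cap M Lin Rel (i' + 1) (anc (M ^ l₁) c') = some P := by
        have := p4 (i' + 1) hge (by omega)
        have e : i' + 1 + l₁ - (i' + 1) = l₁ := by omega
        rwa [e] at this
      obtain ⟨q1, q2, _, _, q5⟩ := k2_claim1 _ _ P hcc
      by_cases hD : anc (M ^ (i' + 1 - P.1)) b = P.2
      · right; left
        have hne : cap M Lin Rel (i' + 1) b ≠ some (P.1, P.2) := by
          rw [hU.1]; simp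
        obtain ⟨k, k1, k2, k3⟩ := k2_claim5 P.1 P.2 hs (i' + 1) hge b hD hne
        refine ⟨_, k3, ?_, ?_⟩
        · simp only; omega
        · simp only
          have e1 : P.1 + (k - P.1) = k := by omega
          rw [e1]
          have e2 : ch (M ^ (k - P.1)) P.2 (md (M ^ (k - P.1)) (anc (M ^ (i' + 1 - k)) b))
              = anc (M ^ (i' + 1 - k)) b := by
            have e3 : anc (M ^ (k - P.1)) (anc (M ^ (i' + 1 - k)) b) = P.2 := by
              rw [anc_anc, ← pow_add, ← hD]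
              congr 2
              omega
            conv_lhs => rw [← e3]
            exact ch_anc_md _ _
          rw [e2]
          refine k3_inner (pow_pos hM _) hd1 hd2 rfl ?_
          intro hcon
          have := q5 k k1 k2
          rw [hcon] at this
          exact this k3
      · left
        exact ⟨hge, k3_outer (pow_pos hM _) hd1 hd2 q2 hD⟩
  · left
    rw [Nat.sub_zero]
    unfold k3Fr k3near k3wide
    simp only [Finset.mem_union, Finset.mem_product, Finset.mem_Ico]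
    omega

/-- the last levels -/
theorem k3_last {M : ℕ} (hM : 0 < M) (l₁ J : ℕ) (S : Finset (Σ _ : ℕ, ℕ × ℕ))
    (hS : ∀ x ∈ S, x.1 ≤ J ∧ J < x.1 + l₁ ∧ x.2 ∈ gd (M ^ x.1)) : ∑ x ∈ S, wtK M x.1 ≤ l₁ := by
  classical
  have h1 : ∑ x ∈ S, wtK M x.1 ≤ ∑ y ∈ (Finset.Ico (J + 1 - l₁) (J + 1)).sigma
      (fun i => gd (M ^ i)), wtK M y.1 := by
    refine Finset.sum_le_sum_of_subset_of_nonneg ?_ fun _ _ _ => wt_nonneg _ _
    intro x hx
    obtain ⟨h1, h2, h3⟩ := hS x hx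
    rw [Finset.mem_sigma, Finset.mem_Ico]
    exact ⟨by omega, h3⟩
  refine h1.trans ?_
  rw [Finset.sum_sigma]
  have h2 : ∀ i ∈ Finset.Ico (J + 1 - l₁) (J + 1), ∑ _b ∈ gd (M ^ i), wtK M i = 1 := by
    intro i _
    rw [Finset.sum_const, gd_card, nsmul_eq_mul]
    have := wt_mul hM i
    rw [← this]
    push_cast
    rw [← pow_mul, mul_comm i 2]
  rw [Finset.sum_congr rfl h2, Finset.sum_const, Nat.card_Ico, nsmul_eq_mul, mul_one]
  have : J + 1 - (J + 1 - l₁) ≤ l₁ := by omega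
  exact_mod_cast this

/-- the squares near to an ancestor of a start -/
theorem k3_near {M : ℕ} (hM : 0 < M) (A l₁ : ℕ) {β : Type*} (T : Finset β) (lev : β → ℕ)
    (e : β → ℕ × ℕ) (S : Finset (Σ _ : ℕ, ℕ × ℕ))
    (hS : ∀ x ∈ S, ∃ y ∈ T, x.1 < lev y ∧ lev y ≤ x.1 + l₁ ∧
      |((anc (M ^ (lev y - x.1)) (e y)).1 : ℤ) - x.2.1| ≤ A ∧
      |((anc (M ^ (lev y - x.1)) (e y)).2 : ℤ) - x.2.2| ≤ A) :
    ∑ x ∈ S, wtK M x.1 ≤ l₁ * (2 * A + 1) ^ 2 * (M : ℝ) ^ (2 * l₁) * ∑ y ∈ T, wtK M (lev y) := by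
  classical
  have h1 : ∑ x ∈ S, wtK M x.1 ≤ ∑ y ∈ T ×ˢ (Finset.range l₁ ×ˢ gd (2 * A + 1)),
      (M : ℝ) ^ (2 * l₁) * wtK M (lev y.1) := by
    refine sum_cover _ _ _ _ (fun y _ => mul_nonneg (by positivity) (wt_nonneg _ _))
      (fun y => ⟨lev y.1 - (y.2.1 + 1), (anc (M ^ (y.2.1 + 1)) (e y.1)).1 + y.2.2.1 - A,
        (anc (M ^ (y.2.1 + 1)) (e y.1)).2 + y.2.2.2 - A⟩) ?_
    rintro ⟨i, b⟩ hx
    obtain ⟨y, hy, k1, k2, k3, k4⟩ := hS _ hx
    simp only at k1 k2 k3 k4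
    rw [abs_le] at k3 k4
    refine ⟨⟨y, ⟨lev y - i - 1, ⟨b.1 + A - (anc (M ^ (lev y - i)) (e y)).1,
      b.2 + A - (anc (M ^ (lev y - i)) (e y)).2⟩⟩⟩, ?_, ?_, ?_⟩
    · simp only [Finset.mem_product, Finset.mem_range, mem_gd]
      refine ⟨hy, by omega, by omega, by omega⟩
    · have e1 : lev y - i - 1 + 1 = lev y - i := by omega
      simp only [e1]
      have e2 : lev y - (lev y - i) = i := by omega
      have e3 : (anc (M ^ (lev y - i)) (e y)).1 + (b.1 + A - (anc (M ^ (lev y - i)) (e y)).1) - A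
          = b.1 := by omega
      have e4 : (anc (M ^ (lev y - i)) (e y)).2 + (b.2 + A - (anc (M ^ (lev y - i)) (e y)).2) - A
          = b.2 := by omega
      rw [e2, e3, e4]
    · simp only
      have e1 : lev y = i + (lev y - i) := by omega
      rw [e1, wt_add]
      have hM1 : (1 : ℝ) ≤ M := by exact_mod_cast hM
      have h2 : (M : ℝ) ^ (2 * (lev y - i)) ≤ (M : ℝ) ^ (2 * l₁) :=
        pow_le_pow_right₀ hM1 (by omega)
      calc wtK M i = wtK M i * ((M : ℝ) ^ (2 * (lev y - i)) * wtK M (lev y - i)) := by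
            rw [wt_mul hM, mul_one]
        _ ≤ wtK M i * ((M : ℝ) ^ (2 * l₁) * wtK M (lev y - i)) :=
            mul_le_mul_of_nonneg_left (mul_le_mul_of_nonneg_right h2 (wt_nonneg _ _))
              (wt_nonneg _ _)
        _ = _ := by ring
  refine h1.trans (le_of_eq ?_)
  rw [Finset.sum_product, Finset.mul_sum]
  refine Finset.sum_congr rfl fun y _ => ?_
  simp only
  rw [Finset.sum_const, Finset.card_product, Finset.card_range, gd_card, nsmul_eq_mul]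
  push_cast
  ring

end

theorem k3_split {α : Type*} (S : Finset α) (F : α → ℝ) (hF : ∀ y ∈ S, 0 ≤ F y)
    (Q1 Q2 Q3 Q4 Q5 : α → Prop) [DecidablePred Q1] [DecidablePred Q2] [DecidablePred Q3]
    [DecidablePred Q4] [DecidablePred Q5]
    (hcl : ∀ y ∈ S, Q1 y ∨ Q2 y ∨ Q3 y ∨ Q4 y ∨ Q5 y) :
    ∑ y ∈ S, F y ≤ ∑ y ∈ S.filter Q1, F y + ∑ y ∈ S.filter Q2, F y
      + ∑ y ∈ S.filter Q3, F y + ∑ y ∈ S.filter Q4, F y
      + ∑ y ∈ S.filter Q5, F y := by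
  rw [Finset.sum_filter, Finset.sum_filter, Finset.sum_filter, Finset.sum_filter,
    Finset.sum_filter, ← Finset.sum_add_distrib, ← Finset.sum_add_distrib,
    ← Finset.sum_add_distrib, ← Finset.sum_add_distrib]
  refine Finset.sum_le_sum fun y hy => ?_
  have hw := hF y hy
  have n : ∀ (Q : α → Prop) [DecidablePred Q], 0 ≤ if Q y then F y else 0 := by
    intro Q _
    split_ifs
    · exact hw
    · exact le_rfl
  have n1 := n Q1
  have n2 := n Q2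
  have n3 := n Q3
  have n4 := n Q4
  have n5 := n Q5
  rcases hcl y hy with h | h | h | h | h
  · rw [if_pos h] at *; linarith
  · rw [if_pos h] at *; linarith
  · rw [if_pos h] at *; linarith
  · rw [if_pos h] at *; linarith
  · rw [if_pos h] at *; linarith

theorem tk3 (h1 : K1) (_h2 : K2) : K3 := by
  classical
  intro M A l₁
  refine ⟨l₁ + 48 * (A : ℝ) ^ 2 + 48 * (A : ℝ) ^ 2 * 2 + 48 * (A : ℝ) ^ 2 * 2
    + l₁ * (2 * A + 1) ^ 2 * (M : ℝ) ^ (2 * l₁) * 2, by positivity, ?_⟩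
  intro l J G G₂ C₂ C₃ θ θ₁ g Lin x Rel hT
  have hM2 := hT.two_le
  have hM : 0 < M := by omega
  have hA := hT.one_le_A
  -- starts
  let TP : Finset (Σ _ : ℕ, ℕ × ℕ) :=
    (Finset.range (J + 1)).sigma (fun i => (gd (M ^ i)).filter (Start M Lin Rel i))
  let TR : Finset (Σ _ : (Σ _ : ℕ, ℕ × ℕ), ℕ × (ℕ × ℕ)) := TP.sigma (fun p => Rel p.1 p.2)
  have hR := h1 M A l l₁ J G G₂ C₂ C₃ θ θ₁ g Lin x Rel hT
  have hTP : ∑ y ∈ TP, wtK M y.1 ≤ 2 := by
    rw [ws_eq] at hR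
    simp_rw [mul_one] at hR
    rw [Finset.sum_sigma]
    exact hR
  have hTR : ∑ y ∈ TR, wtK M (y.1.1 + y.2.1) ≤ 2 := by
    rw [Finset.sum_sigma]
    refine le_trans ?_ hTP
    refine Finset.sum_le_sum fun y hy => ?_
    rw [Finset.mem_sigma, Finset.mem_filter, Finset.mem_range] at hy
    have hL : Lin y.1 y.2 := (k2_claim1 y.1 y.2 (y.1, y.2) hy.2.2).2.2.1
    have h3 := hT.lin_area y.1 (by omega) y.2 hy.2.1 hL
    have h4 : ∑ r ∈ Rel y.1 y.2, wtK M (y.1 + r.1) = wtK M y.1 *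
        ∑ r ∈ Rel y.1 y.2, ((M : ℝ) ^ (2 * r.1))⁻¹ := by
      rw [Finset.mul_sum]
      refine Finset.sum_congr rfl fun r _ => ?_
      rw [wt_add]
      rfl
    rw [h4]
    have h5 := k1_theta hT.θ_nonneg hT.one_le_C₂ hT.θ_le
    calc wtK M y.1 * ∑ r ∈ Rel y.1 y.2, ((M : ℝ) ^ (2 * r.1))⁻¹ ≤ wtK M y.1 * 1 :=
          mul_le_mul_of_nonneg_left (by linarith) (wt_nonneg _ _)
      _ = _ := mul_one _
  -- births
  let S : Finset (Σ _ : ℕ, ℕ × ℕ) :=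
    (Finset.range (J + 1)).sigma (fun i => (gd (M ^ i)).filter (Birth M G g Lin Rel i))
  have hS : ws M J (Birth M G g Lin Rel) (fun _ _ => 1) = ∑ y ∈ S, wtK M y.1 := by
    rw [ws_eq]
    simp_rw [mul_one]
    rw [Finset.sum_sigma]
  let Q1 : (Σ _ : ℕ, ℕ × ℕ) → Prop := fun y => J < y.1 + l₁
  let Q2 : (Σ _ : ℕ, ℕ × ℕ) → Prop := fun y => y.2 ∈ k3Fr A (M ^ (y.1 - 0)) (0, 0)
  let Q3 : (Σ _ : ℕ, ℕ × ℕ) → Prop := fun y => ∃ p ∈ TP, p.1 ≤ y.1 ∧
    y.2 ∈ k3Fr A (M ^ (y.1 - p.1)) p.2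
  let Q4 : (Σ _ : ℕ, ℕ × ℕ) → Prop := fun y => ∃ p ∈ TR, p.1.1 + p.2.1 ≤ y.1 ∧
    y.2 ∈ k3Fr A (M ^ (y.1 - (p.1.1 + p.2.1))) (ch (M ^ p.2.1) p.1.2 p.2.2)
  let Q5 : (Σ _ : ℕ, ℕ × ℕ) → Prop := fun y => ∃ p ∈ TP, y.1 < p.1 ∧ p.1 ≤ y.1 + l₁ ∧
      |((anc (M ^ (p.1 - y.1)) p.2).1 : ℤ) - y.2.1| ≤ A ∧
      |((anc (M ^ (p.1 - y.1)) p.2).2 : ℤ) - y.2.2| ≤ A
  have hcl : ∀ y ∈ S, Q1 y ∨ Q2 y ∨ Q3 y ∨ Q4 y ∨ Q5 y := by
    rintro ⟨i, b⟩ hy
    rw [Finset.mem_sigma, Finset.mem_filter, Finset.mem_range] at hy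
    by_cases hi : i + l₁ ≤ J
    · rcases k3_class hT hi hy.2.1 hy.2.2 with h | ⟨P, p1, p2, p3, h⟩
      · exact Or.inr (Or.inl h)
      · have hP : (⟨P.1, P.2⟩ : Σ _ : ℕ, ℕ × ℕ) ∈ TP := by
          rw [Finset.mem_sigma, Finset.mem_filter, Finset.mem_range]
          exact ⟨by simpa using by omega, p3, p1⟩
        rcases h with h | ⟨r, hr, r1, r2⟩ | h
        · exact Or.inr (Or.inr (Or.inl ⟨_, hP, h⟩))
        · refine Or.inr (Or.inr (Or.inr (Or.inl ⟨⟨⟨P.1, P.2⟩, r⟩, ?_, r1, r2⟩)))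
          rw [Finset.mem_sigma]
          exact ⟨hP, hr⟩
        · exact Or.inr (Or.inr (Or.inr (Or.inr ⟨_, hP, h⟩)))
    · exact Or.inl (by show J < i + l₁; omega)
  have hJS : ∀ y ∈ S, y.1 ≤ J ∧ y.2 ∈ gd (M ^ y.1) := by
    intro y hy
    rw [Finset.mem_sigma, Finset.mem_filter, Finset.mem_range] at hy
    exact ⟨by omega, hy.2.1⟩
  have hsplit : ∑ y ∈ S, wtK M y.1 ≤ ∑ y ∈ S.filter Q1, wtK M y.1 + ∑ y ∈ S.filter Q2, wtK M y.1
      + ∑ y ∈ S.filter Q3, wtK M y.1 + ∑ y ∈ S.filter Q4, wtK M y.1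
      + ∑ y ∈ S.filter Q5, wtK M y.1 := by
    exact k3_split S _ (fun y _ => wt_nonneg _ _) Q1 Q2 Q3 Q4 Q5 hcl
  have b1 : ∑ y ∈ S.filter Q1, wtK M y.1 ≤ l₁ := by
    refine k3_last hM l₁ J _ fun y hy => ?_
    rw [Finset.mem_filter] at hy
    exact ⟨(hJS y hy.1).1, hy.2, (hJS y hy.1).2⟩
  have b2 : ∑ y ∈ S.filter Q2, wtK M y.1 ≤ 48 * (A : ℝ) ^ 2 := by
    have := k3_frame (J := J) hM2 hA ({()} : Finset Unit) (fun _ => 0) (fun _ => (0, 0))
      (S.filter Q2) (fun y hy => by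
        rw [Finset.mem_filter] at hy
        exact ⟨(hJS y hy.1).1, (), by simp, Nat.zero_le _, hy.2⟩)
    rw [Finset.sum_singleton, wt_zero, mul_one] at this
    exact this
  have b3 : ∑ y ∈ S.filter Q3, wtK M y.1 ≤ 48 * (A : ℝ) ^ 2 * 2 := by
    refine (k3_frame (J := J) hM2 hA TP (fun p => p.1) (fun p => p.2) (S.filter Q3)
      (fun y hy => ?_)).trans (mul_le_mul_of_nonneg_left hTP (by positivity))
    rw [Finset.mem_filter] at hy
    exact ⟨(hJS y hy.1).1, hy.2⟩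
  have b4 : ∑ y ∈ S.filter Q4, wtK M y.1 ≤ 48 * (A : ℝ) ^ 2 * 2 := by
    refine (k3_frame (J := J) hM2 hA TR (fun p => p.1.1 + p.2.1)
      (fun p => ch (M ^ p.2.1) p.1.2 p.2.2) (S.filter Q4)
      (fun y hy => ?_)).trans (mul_le_mul_of_nonneg_left hTR (by positivity))
    rw [Finset.mem_filter] at hy
    exact ⟨(hJS y hy.1).1, hy.2⟩
  have b5 : ∑ y ∈ S.filter Q5, wtK M y.1 ≤
      l₁ * (2 * A + 1) ^ 2 * (M : ℝ) ^ (2 * l₁) * 2 := by
    refine (k3_near hM A l₁ TP (fun p => p.1) (fun p => p.2) (S.filter Q5)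
      (fun y hy => ?_)).trans (mul_le_mul_of_nonneg_left hTP (by positivity))
    rw [Finset.mem_filter] at hy
    exact hy.2
  rw [hS]
  linarith

end Pool.Agent.Q73.AD
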