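import Pool.Agent.Q73.AD.YKa

/-!
# The total rate of the phase starts (K4), by helper224
-/

set_option autoImplicit false

namespace Pool.Agent.Q73.AD

section

variable {M l : ℕ} {G : ℝ} {g : ℕ → ℕ × ℕ → ℝ} {Lin : ℕ → ℕ × ℕ → Prop}
  {Rel : ℕ → ℕ × ℕ → Finset (ℕ × (ℕ × ℕ))}

theorem k4_age_le : ∀ (j : ℕ) (b : ℕ × ℕ), age M G g Lin Rel j b ≤ j := by
  intro j
  induction j with
  | zero => intro b; simp [age]
  | succ j ih =>
    intro b
    unfold age
    split_ifs
    · have := ih (anc M b); omega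
    · omega

theorem k4_age_anc : ∀ (s j : ℕ) (b : ℕ × ℕ), s ≤ age M G g Lin Rel j b →
    s ≤ j ∧ age M G g Lin Rel (j - s) (anc (M ^ s) b) = age M G g Lin Rel j b - s ∧
    (1 ≤ s → US M G g Lin Rel (j - s) (anc (M ^ s) b)) := by
  intro s
  induction s with
  | zero =>
    intro j b _
    refine ⟨Nat.zero_le _, by simp [anc_one], fun h => by omega⟩
  | succ s ih =>
    intro j b hs
    have hj := (k4_age_le (M := M) (G := G) (g := g) (Lin := Lin) (Rel := Rel) j b)
    obtain ⟨j, rfl⟩ : ∃ j', j = j' + 1 := ⟨j - 1, by omega⟩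
    by_cases hU : US M G g Lin Rel j (anc M b)
    · have ha : age M G g Lin Rel (j + 1) b = age M G g Lin Rel j (anc M b) + 1 := by
        conv_lhs => unfold age
        rw [if_pos hU]
      rw [ha] at hs
      obtain ⟨h1, h2, h3⟩ := ih j (anc M b) (by omega)
      have e1 : anc (M ^ s) (anc M b) = anc (M ^ (s + 1)) b := by
        rw [anc_anc, pow_succ, mul_comm]
      have e2 : j + 1 - (s + 1) = j - s := by omega
      rw [e1] at h2 h3
      rw [e2]
      refine ⟨by omega, ?_, fun _ => ?_⟩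
      · rw [h2, ha]; omega
      · rcases Nat.eq_zero_or_pos s with rfl | hs0
        · simpa using hU
        · exact h3 hs0
    · have ha : age M G g Lin Rel (j + 1) b = 0 := by
        unfold age
        rw [if_neg hU]
      omega

end

open Classical in
theorem tk4 (_h2 : K2) : K4 := by
  intro M A l l₁ J G G₂ C₂ C₃ θ θ₁ g Lin x Rel hT
  have hM : 0 < M := by have := hT.two_le; omega
  have hl := hT.one_le_l
  have hG₂ : 0 ≤ G₂ := hT.G_nonneg.trans hT.G_le
  have hg := hT.g_nonneg
  -- the old part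
  let Vl : ℕ → ℝ := fun i => ∑ a ∈ (gd (M ^ i)).filter (Ph M l G g Lin Rel i), wtK M i * g i a
  let Tl : ℕ → ℝ := fun j => ∑ b ∈ (gd (M ^ j)).filter
    (fun b => Ph M l G g Lin Rel j b ∧ 0 < age M G g Lin Rel j b), wtK M j * g j b
  have hVl : ∀ i, 0 ≤ Vl i := fun i =>
    Finset.sum_nonneg fun a _ => mul_nonneg (wt_nonneg _ _) (hg _ _)
  have hV : ws M J (Ph M l G g Lin Rel) g = ∑ i ∈ Finset.range (J + 1), Vl i := by
    rw [ws_eq]
  have hT0 : ∀ j, j < l → Tl j = 0 := by
    intro j hj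
    refine Finset.sum_eq_zero fun b hb => ?_
    rw [Finset.mem_filter] at hb
    obtain ⟨_, ⟨_, hd⟩, hp⟩ := hb
    have := k4_age_le (M := M) (G := G) (g := g) (Lin := Lin) (Rel := Rel) j b
    have := Nat.le_of_dvd hp hd
    omega
  have hT1 : ∀ i, i + l ≤ J → Tl (i + l) ≤ θ₁ * Vl i := by
    intro i hi
    show ∑ b ∈ (gd (M ^ (i + l))).filter
      (fun b => Ph M l G g Lin Rel (i + l) b ∧ 0 < age M G g Lin Rel (i + l) b),
        wtK M (i + l) * g (i + l) b ≤ θ₁ * ∑ a ∈ (gd (M ^ i)).filter (Ph M l G g Lin Rel i),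
          wtK M i * g i a
    rw [Finset.sum_filter, pow_add, sum_gd_mul, Finset.mul_sum, Finset.sum_filter]
    refine Finset.sum_le_sum fun a ha => ?_
    rw [← Finset.sum_filter]
    by_cases hPa : Ph M l G g Lin Rel i a
    · rw [if_pos hPa, ← Finset.mul_sum]
      have h1 := hT.super' i a ha hPa.1.2 hi ((gd (M ^ l)).filter
        (fun c => Ph M l G g Lin Rel (i + l) (ch (M ^ l) a c) ∧
          0 < age M G g Lin Rel (i + l) (ch (M ^ l) a c))) (Finset.filter_subset _ _) (by
        intro c hc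
        rw [Finset.mem_filter] at hc
        refine ⟨hc.2.1.1.2, fun hL => ?_⟩
        exact k2_claim2 _ _ hL hc.2.1.1.1)
      have h2 := mul_le_mul_of_nonneg_left h1 (wt_nonneg M (i + l))
      refine h2.trans (le_of_eq ?_)
      have h3 := wt_mul hM l
      rw [wt_add]
      calc wtK M i * wtK M l * (θ₁ * (M : ℝ) ^ (2 * l) * g i a)
          = ((M : ℝ) ^ (2 * l) * wtK M l) * (θ₁ * (wtK M i * g i a)) := by ring
        _ = _ := by rw [h3, one_mul]
    · rw [if_neg hPa]
      refine le_of_eq (Finset.sum_eq_zero fun c hc => ?_)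
      exfalso
      rw [Finset.mem_filter] at hc
      obtain ⟨hc1, ⟨_, hd⟩, hp⟩ := hc
      apply hPa
      have hle := Nat.le_of_dvd hp hd
      obtain ⟨_, k2, k3⟩ := k4_age_anc l (i + l) (ch (M ^ l) a c) hle
      rw [Nat.add_sub_cancel, anc_ch hc1] at k2 k3
      refine ⟨k3 hl, ?_⟩
      rw [k2]
      exact (Nat.dvd_sub hd (dvd_refl l))
  have hTs : ∑ j ∈ Finset.range (J + 1), Tl j ≤ θ₁ * ws M J (Ph M l G g Lin Rel) g := by
    rw [hV, Finset.mul_sum]
    have e : ∑ j ∈ Finset.range (J + 1), Tl j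
        = ∑ j ∈ (Finset.range (J + 1)).filter (fun j => l ≤ j), Tl j := by
      rw [Finset.sum_filter]
      refine Finset.sum_congr rfl fun j _ => ?_
      split_ifs with h
      · rfl
      · exact hT0 j (by omega)
    rw [e]
    refine sum_cover _ _ _ _ (fun i _ => mul_nonneg hT.θ₁_nonneg (hVl i)) (fun i => i + l) ?_
    intro j hj
    rw [Finset.mem_filter, Finset.mem_range] at hj
    refine ⟨j - l, ?_, by omega, ?_⟩
    · rw [Finset.mem_range]; omega
    · have := hT1 (j - l) (by omega)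
      rwa [Nat.sub_add_cancel hj.2] at this
  -- the released part
  have hR := released_sum (M := M) (Lin := Lin) (Rel := Rel) J g hg
  have hR2 : ws M J (Start M Lin Rel) (fun i a => ∑ r ∈ Rel i a, ((M : ℝ) ^ (2 * r.1))⁻¹ *
        g (i + r.1) (ch (M ^ r.1) a r.2)) ≤ θ * ws M J (Start M Lin Rel) x := by
    rw [ws_eq, ws_eq, Finset.mul_sum]
    refine Finset.sum_le_sum fun i hi => ?_
    rw [Finset.mul_sum]
    refine Finset.sum_le_sum fun a ha => ?_
    rw [Finset.mem_filter] at ha
    rw [Finset.mem_range] at hi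
    have hL : Lin i a := (k2_claim1 i a (i, a) ha.2).2.2.1
    have := hT.lin_mass i (by omega) a ha.1 hL
    have h3 := mul_le_mul_of_nonneg_left this (wt_nonneg M i)
    refine h3.trans (le_of_eq (by ring))
  -- the births
  have hB : ws M J (Birth M G g Lin Rel) (fun _ _ => 1)
      = ∑ i ∈ Finset.range J, ∑ _b ∈ (gd (M ^ (i + 1))).filter (Birth M G g Lin Rel (i + 1)),
        wtK M (i + 1) := by
    rw [ws_eq, Finset.sum_range_succ']
    simp_rw [mul_one]
    have : ∑ _b ∈ (gd (M ^ 0)).filter (Birth M G g Lin Rel 0), wtK M 0 = 0 := by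
      refine Finset.sum_eq_zero fun b hb => ?_
      rw [Finset.mem_filter] at hb
      have := hb.2.1
      omega
    rw [this, add_zero]
  -- level by level
  have hstep : ∀ i, i < J → Vl (i + 1) ≤
      (∑ b ∈ (gd (M ^ (i + 1))).filter (Rl M Lin Rel i), wtK M (i + 1) * g (i + 1) b)
      + G₂ * (∑ _b ∈ (gd (M ^ (i + 1))).filter (Birth M G g Lin Rel (i + 1)), wtK M (i + 1))
      + Tl (i + 1) := by
    intro i hi
    show ∑ a ∈ (gd (M ^ (i + 1))).filter (Ph M l G g Lin Rel (i + 1)), wtK M (i + 1) * g (i + 1) a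
      ≤ _ + _ + ∑ b ∈ (gd (M ^ (i + 1))).filter (fun b => Ph M l G g Lin Rel (i + 1) b ∧
        0 < age M G g Lin Rel (i + 1) b), wtK M (i + 1) * g (i + 1) b
    rw [Finset.mul_sum, Finset.sum_filter, Finset.sum_filter, Finset.sum_filter,
      Finset.sum_filter, ← Finset.sum_add_distrib, ← Finset.sum_add_distrib]
    refine Finset.sum_le_sum fun b hb => ?_
    have hw := wt_nonneg M (i + 1)
    have hwg : 0 ≤ wtK M (i + 1) * g (i + 1) b := mul_nonneg hw (hg _ _)
    have n1 : 0 ≤ (if Rl M Lin Rel i b then wtK M (i + 1) * g (i + 1) b else 0) := by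
      split_ifs
      · exact hwg
      · exact le_rfl
    have n2 : 0 ≤ (if Birth M G g Lin Rel (i + 1) b then G₂ * wtK M (i + 1) else 0) := by
      split_ifs
      · exact mul_nonneg hG₂ hw
      · exact le_rfl
    have n3 : 0 ≤ (if Ph M l G g Lin Rel (i + 1) b ∧ 0 < age M G g Lin Rel (i + 1) b then
        wtK M (i + 1) * g (i + 1) b else 0) := by
      split_ifs
      · exact hwg
      · exact le_rfl
    by_cases hPh : Ph M l G g Lin Rel (i + 1) b
    · rw [if_pos hPh]
      rcases hc : cap M Lin Rel i (anc M b) with _ | P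
      · by_cases hU : US M G g Lin Rel i (anc M b)
        · have ha : age M G g Lin Rel (i + 1) b = age M G g Lin Rel i (anc M b) + 1 := by
            conv_lhs => unfold age
            rw [if_pos hU]
          rw [if_pos (⟨hPh, by omega⟩ : Ph M l G g Lin Rel (i + 1) b ∧
            0 < age M G g Lin Rel (i + 1) b)]
          linarith
        · have hgle : g i (anc M b) ≤ G := by
            by_contra hcon
            exact hU ⟨hc, not_le.mp hcon⟩
          have hbirth : Birth M G g Lin Rel (i + 1) b := ⟨by omega, hPh.1, hc, hgle⟩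
          rw [if_pos hbirth]
          have ha : anc M b ∈ gd (M ^ i) := anc_mem (by rw [← pow_succ]; exact hb)
          have h1 := hT.child i hi (anc M b) ha hgle (md M b) (md_mem hM b)
          rw [ch_anc_md] at h1
          have h2 := mul_le_mul_of_nonneg_left h1 hw
          linarith
      · have hRl : Rl M Lin Rel i b := by
          refine ⟨P, hc, k2_claim3 i b P hc ?_⟩
          rw [hPh.1.1]
          simp
        rw [if_pos hRl]
        linarith
    · rw [if_neg hPh]
      positivity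
  have h0 : Vl 0 ≤ G₂ := by
    show ∑ a ∈ (gd (M ^ 0)).filter (Ph M l G g Lin Rel 0), wtK M 0 * g 0 a ≤ G₂
    rw [Finset.sum_filter, pow_zero, gd_one, Finset.sum_singleton, wt_zero, one_mul]
    split_ifs
    · exact hT.root
    · exact hG₂
  have hsum : ∑ i ∈ Finset.range J, Vl (i + 1) ≤
      (∑ i ∈ Finset.range J, ∑ b ∈ (gd (M ^ (i + 1))).filter (Rl M Lin Rel i),
        wtK M (i + 1) * g (i + 1) b)
      + G₂ * (∑ i ∈ Finset.range J, ∑ _b ∈ (gd (M ^ (i + 1))).filter
        (Birth M G g Lin Rel (i + 1)), wtK M (i + 1))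
      + ∑ i ∈ Finset.range J, Tl (i + 1) := by
    rw [Finset.mul_sum, ← Finset.sum_add_distrib, ← Finset.sum_add_distrib]
    exact Finset.sum_le_sum fun i hi => hstep i (Finset.mem_range.mp hi)
  have hT00 : 0 ≤ Tl 0 := by rw [hT0 0 (by omega)]
  have hTr : ∑ i ∈ Finset.range J, Tl (i + 1) ≤ ∑ j ∈ Finset.range (J + 1), Tl j := by
    rw [Finset.sum_range_succ' Tl J]
    linarith
  have hVr : ws M J (Ph M l G g Lin Rel) g = ∑ i ∈ Finset.range J, Vl (i + 1) + Vl 0 := by
    rw [hV, Finset.sum_range_succ' Vl J]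
  rw [hB]
  nlinarith [hVr, hsum, hTr, hTs, hR, hR2, h0]

end Pool.Agent.Q73.AD
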