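import Pool.Agent.Q73.AD.YK6

/-!
# The total rate of the starts
-/

set_option autoImplicit false

namespace Pool.Agent.Q73.AD

open Finset

lemma k5_one {ι : Type*} (S : Finset ι) (Q : ι → Prop) [DecidablePred Q] (v w : ℝ) (hw : 0 ≤ w)
    (h1 : ∀ p ∈ S, ∀ p' ∈ S, Q p → Q p' → p = p') (h2 : ∀ p ∈ S, Q p → v ≤ w) :
    (∑ p ∈ S, if Q p then v else 0) ≤ w := by
  by_cases h : ∃ p ∈ S, Q p
  · obtain ⟨p, hp, hQ⟩ := h
    rw [Finset.sum_eq_single_of_mem p hp, if_pos hQ]
    · exact h2 p hp hQ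
    · intro p' hp' hne
      exact if_neg (fun hQ' => hne (h1 p' hp' p hp hQ' hQ))
  · push Not at h
    rw [Finset.sum_eq_zero fun p hp => if_neg (h p hp)]
    exact hw

/-- the descendants of a linear square have at least half of the expected total rate -/
lemma k5_low {M A l l₁ J : ℕ} {G G₂ C₂ C₃ θ θ₁ : ℝ} {g : ℕ → ℕ × ℕ → ℝ}
    {Lin : ℕ → ℕ × ℕ → Prop} {x : ℕ → ℕ × ℕ → ℝ} {Rel : ℕ → ℕ × ℕ → Finset (ℕ × (ℕ × ℕ))}
    (T : Tree M A l l₁ J G G₂ C₂ C₃ θ θ₁ g Lin x Rel) {i j : ℕ} {a : ℕ × ℕ} (hij : i ≤ j)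
    (hjJ : j ≤ J) (ha : a ∈ gd (M ^ i)) (hL : Lin i a) :
    (M : ℝ) ^ (2 * (j - i)) * x i a ≤
      2 * ∑ e ∈ gd (M ^ j), if anc (M ^ (j - i)) e = a then g j e else 0 := by
  classical
  have hM : 0 < M := by
    have := T.two_le
    omega
  have hMr : (0 : ℝ) < M := by exact_mod_cast hM
  have hx0 := T.lin_nonneg i (hij.trans hjJ) a ha hL
  have hθ : θ ≤ 1 / 2 := by
    have h1 := T.θ_le
    have h2 := T.θ_nonneg
    have h3 := T.one_le_C₂
    nlinarith
  have hpt : ∀ e ∈ gd (M ^ j), ((if anc (M ^ (j - i)) e = a then x i a else 0) -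
      ∑ r ∈ Rel i a,
        if i + r.1 ≤ j ∧ anc (M ^ (j - (i + r.1))) e = ch (M ^ r.1) a r.2 then x i a else 0) ≤
      if anc (M ^ (j - i)) e = a then g j e else 0 := by
    intro e he
    have hn : ∀ r ∈ Rel i a, 0 ≤
        if i + r.1 ≤ j ∧ anc (M ^ (j - (i + r.1))) e = ch (M ^ r.1) a r.2 then x i a else 0 := by
      intro r _
      split_ifs
      · exact hx0
      · exact le_rfl
    by_cases h : anc (M ^ (j - i)) e = a
    · rw [if_pos h, if_pos h]
      by_cases hb : ∃ k, i < k ∧ k ≤ j ∧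
          (k - i, md (M ^ (k - i)) (anc (M ^ (j - k)) e)) ∈ Rel i a
      · obtain ⟨k, hk1, hk2, hk3⟩ := hb
        have h1 := Finset.single_le_sum hn hk3
        have h2 : i + (k - i) = k := by omega
        simp only [h2] at h1
        have h3 : anc (M ^ (j - k)) e = ch (M ^ (k - i)) a (md (M ^ (k - i)) (anc (M ^ (j - k)) e)) := by
          have h4 : anc (M ^ (k - i)) (anc (M ^ (j - k)) e) = a := by
            rw [anc_anc, ← pow_add, show j - k + (k - i) = j - i by omega]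
            exact h
          conv_lhs => rw [← ch_anc_md (M ^ (k - i)) (anc (M ^ (j - k)) e), h4]
        rw [if_pos ⟨hk2, h3⟩] at h1
        have h5 := T.g_nonneg j e
        linarith
      · have h1 := (T.lin_rate i a ha hL j hij hjJ e he h
          (fun k hk1 hk2 hk3 => hb ⟨k, hk1, hk2, hk3⟩)).1
        have h2 := Finset.sum_nonneg hn
        linarith
    · rw [if_neg h, if_neg h]
      have h2 := Finset.sum_nonneg hn
      linarith
  have hsum := Finset.sum_le_sum hpt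
  rw [Finset.sum_sub_distrib, k6_desc hij ha, k6_const, Finset.sum_comm] at hsum
  have hR : (∑ r ∈ Rel i a, ∑ e ∈ gd (M ^ j),
      if i + r.1 ≤ j ∧ anc (M ^ (j - (i + r.1))) e = ch (M ^ r.1) a r.2 then x i a else 0) ≤
      ∑ r ∈ Rel i a, (M : ℝ) ^ (2 * (j - i)) * (((M : ℝ) ^ (2 * r.1))⁻¹ * x i a) := by
    refine Finset.sum_le_sum fun r hr => ?_
    obtain ⟨r1, r2, r3⟩ := T.lin_rel i (hij.trans hjJ) a ha hL r hr
    by_cases hj : i + r.1 ≤ j
    · have h1 : (∑ e ∈ gd (M ^ j),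
          if i + r.1 ≤ j ∧ anc (M ^ (j - (i + r.1))) e = ch (M ^ r.1) a r.2 then x i a else 0) =
          ∑ e ∈ gd (M ^ j), if anc (M ^ (j - (i + r.1))) e = ch (M ^ r.1) a r.2 then x i a else 0 := by
        refine Finset.sum_congr rfl fun e _ => ?_
        by_cases hc : anc (M ^ (j - (i + r.1))) e = ch (M ^ r.1) a r.2
        · rw [if_pos hc, if_pos ⟨hj, hc⟩]
        · rw [if_neg hc, if_neg (fun h => hc h.2)]
      have h2 : ch (M ^ r.1) a r.2 ∈ gd (M ^ (i + r.1)) := by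
        rw [pow_add]
        exact ch_mem ha r3
      rw [h1, k6_desc hj h2, k6_const]
      have h3 : (M : ℝ) ^ (2 * (j - i)) = (M : ℝ) ^ (2 * (j - (i + r.1))) * (M : ℝ) ^ (2 * r.1) := by
        rw [← pow_add]
        congr 1
        omega
      have h4 : (M : ℝ) ^ (2 * r.1) ≠ 0 := by positivity
      rw [h3, mul_assoc, ← mul_assoc ((M : ℝ) ^ (2 * r.1)), mul_inv_cancel₀ h4, one_mul]
    · rw [Finset.sum_eq_zero fun e _ => if_neg (fun h => hj h.1)]
      positivity
  have hR2 : (∑ r ∈ Rel i a, (M : ℝ) ^ (2 * (j - i)) * (((M : ℝ) ^ (2 * r.1))⁻¹ * x i a)) ≤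
      θ * ((M : ℝ) ^ (2 * (j - i)) * x i a) := by
    rw [← Finset.mul_sum, ← Finset.sum_mul]
    have h1 := T.lin_area i (hij.trans hjJ) a ha hL
    have h2 : 0 ≤ (M : ℝ) ^ (2 * (j - i)) * x i a := by positivity
    have h3 := mul_le_mul_of_nonneg_right h1 h2
    calc (M : ℝ) ^ (2 * (j - i)) * ((∑ r ∈ Rel i a, ((M : ℝ) ^ (2 * r.1))⁻¹) * x i a)
        = (∑ r ∈ Rel i a, ((M : ℝ) ^ (2 * r.1))⁻¹) * ((M : ℝ) ^ (2 * (j - i)) * x i a) := by ring
      _ ≤ _ := h3
  have h6 : 0 ≤ (M : ℝ) ^ (2 * (j - i)) * x i a := by positivity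
  nlinarith

theorem tk5 (h2 : K2) : K5 := by
  intro M A l l₁ J G G₂ C₂ C₃ θ θ₁ g Lin x Rel T
  classical
  have hM : 0 < M := by
    have := T.two_le
    omega
  obtain ⟨e1, -, e3, -, -⟩ := h2 M Lin Rel hM
  have hMr : (0 : ℝ) < M := by exact_mod_cast hM
  have hC₂ : 0 ≤ C₂ := le_trans zero_le_one T.one_le_C₂
  have hG₂ : 0 ≤ G₂ := T.G_nonneg.trans T.G_le
  have hl : 0 < l := T.one_le_l
  have har : ∀ i : ℕ, 0 ≤ ((M : ℝ) ^ (2 * i))⁻¹ := fun i => by positivity
  have hLin : ∀ i a, Start M Lin Rel i a → Lin i a := fun i a hs => (e1 i a (i, a) hs).2.2.1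
  have hx : ∀ i ≤ J, ∀ a ∈ gd (M ^ i), Start M Lin Rel i a → 0 ≤ x i a := fun i hi a ha hs =>
    T.lin_nonneg i hi a ha (hLin i a hs)
  have hxg : ∀ i ≤ J, ∀ a ∈ gd (M ^ i), Start M Lin Rel i a → x i a ≤ g i a := by
    intro i hi a ha hs
    refine (T.lin_rate i a ha (hLin i a hs) i le_rfl hi a ha ?_ ?_).1
    · rw [Nat.sub_self, pow_zero, anc_one]
    · intro k h3 h4
      omega
  -- the index sets
  set S : Finset (Σ _ : ℕ, ℕ × ℕ) :=
    (range (J + 1)).sigma (fun i => (gd (M ^ i)).filter (Start M Lin Rel i)) with hS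
  set Q : Finset (Σ _ : ℕ, ℕ × ℕ) :=
    (range (J + 1)).sigma (fun i => (gd (M ^ i)).filter (Ph M l G g Lin Rel i)) with hQ
  have hmS : ∀ p : Σ _ : ℕ, ℕ × ℕ, p ∈ S ↔ p.1 ≤ J ∧ p.2 ∈ gd (M ^ p.1) ∧ Start M Lin Rel p.1 p.2 := by
    intro p
    rw [hS, Finset.mem_sigma, Finset.mem_filter, Finset.mem_range, Nat.lt_succ_iff]
  have hmQ : ∀ p : Σ _ : ℕ, ℕ × ℕ, p ∈ Q ↔
      p.1 ≤ J ∧ p.2 ∈ gd (M ^ p.1) ∧ Ph M l G g Lin Rel p.1 p.2 := by
    intro p
    rw [hQ, Finset.mem_sigma, Finset.mem_filter, Finset.mem_range, Nat.lt_succ_iff]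
  have hwS : ∀ f : ℕ → ℕ × ℕ → ℝ, ws M J (Start M Lin Rel) f =
      ∑ p ∈ S, ((M : ℝ) ^ (2 * p.1))⁻¹ * f p.1 p.2 := by
    intro f
    rw [ws, Finset.sum_sigma']
  have hwQ : ∀ f : ℕ → ℕ × ℕ → ℝ, ws M J (Ph M l G g Lin Rel) f =
      ∑ p ∈ Q, ((M : ℝ) ^ (2 * p.1))⁻¹ * f p.1 p.2 := by
    intro f
    rw [ws, Finset.sum_sigma']
  -- the relation of the starts of the fourth kind with their phase start
  set D : (Σ _ : ℕ, ℕ × ℕ) → (Σ _ : ℕ, ℕ × ℕ) → Prop := fun p q => q.1 < p.1 ∧ p.1 ≤ q.1 + l ∧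
    anc (M ^ (p.1 - q.1)) p.2 = q.2 ∧
    ∀ k, q.1 ≤ k → k < p.1 → US M G g Lin Rel k (anc (M ^ (p.1 - k)) p.2) with hD
  -- the pointwise bound
  have hpt : ∀ p ∈ S, ((M : ℝ) ^ (2 * p.1))⁻¹ * x p.1 p.2 ≤
      (if p.1 = 0 then G₂ else 0) + G₂ * (((M : ℝ) ^ (2 * p.1))⁻¹ * 1) +
      (∑ q ∈ S, ∑ r ∈ Rel q.1 q.2,
        if q.1 + r.1 = p.1 ∧ ch (M ^ r.1) q.2 r.2 = p.2 then
          ((M : ℝ) ^ (2 * q.1))⁻¹ * (((M : ℝ) ^ (2 * r.1))⁻¹ *
            g (q.1 + r.1) (ch (M ^ r.1) q.2 r.2)) else 0) +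
      ∑ q ∈ Q, if D p q then ((M : ℝ) ^ (2 * p.1))⁻¹ * x p.1 p.2 else 0 := by
    intro p hp
    obtain ⟨hpJ, hpg, hps⟩ := (hmS p).1 hp
    have hx0 := hx p.1 hpJ p.2 hpg hps
    have hxg0 := hxg p.1 hpJ p.2 hpg hps
    have hax : 0 ≤ ((M : ℝ) ^ (2 * p.1))⁻¹ * x p.1 p.2 := mul_nonneg (har _) hx0
    have t1 : (0 : ℝ) ≤ if p.1 = 0 then G₂ else 0 := by
      split_ifs
      · exact hG₂
      · exact le_rfl
    have t2 : 0 ≤ G₂ * (((M : ℝ) ^ (2 * p.1))⁻¹ * 1) := mul_nonneg hG₂ (mul_nonneg (har _) zero_le_one)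
    have n3' : ∀ q ∈ S, ∀ r ∈ Rel q.1 q.2, (0 : ℝ) ≤
        if q.1 + r.1 = p.1 ∧ ch (M ^ r.1) q.2 r.2 = p.2 then
          ((M : ℝ) ^ (2 * q.1))⁻¹ * (((M : ℝ) ^ (2 * r.1))⁻¹ *
            g (q.1 + r.1) (ch (M ^ r.1) q.2 r.2)) else 0 := by
      intro q _ r _
      split_ifs
      · exact mul_nonneg (har _) (mul_nonneg (har _) (T.g_nonneg _ _))
      · exact le_rfl
    have n3 : ∀ q ∈ S, (0 : ℝ) ≤ ∑ r ∈ Rel q.1 q.2,
        if q.1 + r.1 = p.1 ∧ ch (M ^ r.1) q.2 r.2 = p.2 then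
          ((M : ℝ) ^ (2 * q.1))⁻¹ * (((M : ℝ) ^ (2 * r.1))⁻¹ *
            g (q.1 + r.1) (ch (M ^ r.1) q.2 r.2)) else 0 := fun q hq =>
      Finset.sum_nonneg (n3' q hq)
    have t3 := Finset.sum_nonneg n3
    have n4 : ∀ q ∈ Q, (0 : ℝ) ≤
        if D p q then ((M : ℝ) ^ (2 * p.1))⁻¹ * x p.1 p.2 else 0 := by
      intro q _
      split_ifs
      · exact hax
      · exact le_rfl
    have t4 := Finset.sum_nonneg n4
    obtain ⟨i, b⟩ := p
    simp only at *
    rcases i with _ | i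
    · -- the root
      have h0 : b = (0, 0) := by
        rw [pow_zero, gd_one, Finset.mem_singleton] at hpg
        exact hpg
      have h1 := T.root
      have h3 : ((M : ℝ) ^ (2 * 0))⁻¹ = 1 := by simp
      have h4 : ((M : ℝ) ^ (2 * 0))⁻¹ * x 0 b ≤ G₂ := by
        rw [h3, one_mul]
        rw [h0] at hxg0 ⊢
        exact hxg0.trans h1
      rw [if_pos rfl]
      linarith
    · have hancg : anc M b ∈ gd (M ^ i) := anc_mem (by rw [← pow_succ]; exact hpg)
      rcases hcap : cap M Lin Rel i (anc M b) with _ | P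
      · rcases le_or_gt (g i (anc M b)) G with hgG | hgG
        · -- third kind
          have h1 := T.child i (by omega) (anc M b) hancg hgG (md M b) (md_mem hM b)
          rw [ch_anc_md] at h1
          have h3 := mul_le_mul_of_nonneg_left (hxg0.trans h1) (har (i + 1))
          have h4 : ((M : ℝ) ^ (2 * (i + 1)))⁻¹ * G₂ = G₂ * (((M : ℝ) ^ (2 * (i + 1)))⁻¹ * 1) := by ring
          linarith
        · -- fourth kind
          set t := age M G g Lin Rel i (anc M b) with ht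
          obtain ⟨a1, a2, a3⟩ := k6_age M G g Lin Rel i (anc M b) (t % l) (Nat.mod_le _ _)
          have hUS : US M G g Lin Rel i (anc M b) := ⟨hcap, hgG⟩
          have hch : ∀ s, s ≤ t % l → US M G g Lin Rel (i - s) (anc (M ^ s) (anc M b)) := by
            intro s hs
            rcases Nat.eq_zero_or_pos s with h0 | h0
            · rw [h0, pow_zero, anc_one]
              exact hUS
            · exact a3 s h0 hs
          have hPh : Ph M l G g Lin Rel (i - t % l) (anc (M ^ (t % l)) (anc M b)) := by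
            refine ⟨hch _ le_rfl, ?_⟩
            rw [a2]
            exact Nat.dvd_sub_mod t
          have hm : (⟨i - t % l, anc (M ^ (t % l)) (anc M b)⟩ : Σ _ : ℕ, ℕ × ℕ) ∈ Q := by
            rw [hmQ]
            refine ⟨by simp only; omega, ?_, hPh⟩
            refine anc_mem ?_
            rw [← pow_add, show i - t % l + t % l = i by omega]
            exact hancg
          have hDD : D ⟨i + 1, b⟩ ⟨i - t % l, anc (M ^ (t % l)) (anc M b)⟩ := by
            have hlt := Nat.mod_lt t hl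
            refine ⟨by simp only; omega, by simp only; omega, ?_, ?_⟩
            · simp only
              rw [anc_anc, show i + 1 - (i - t % l) = t % l + 1 by omega, pow_succ']
            · intro k hk1 hk2
              simp only at hk1 hk2 ⊢
              have h3 := hch (i - k) (by omega)
              rw [show i - (i - k) = k by omega, anc_anc, ← pow_succ',
                show i - k + 1 = i + 1 - k by omega] at h3
              exact h3
          have h1 := Finset.single_le_sum n4 hm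
          rw [if_pos hDD] at h1
          linarith
      · -- second kind
        have h1 : cap M Lin Rel (i + 1) b = some (i + 1, b) := hps
        obtain ⟨c1, c2, c3, c4, c5⟩ := e1 i (anc M b) P hcap
        have h3 : cap M Lin Rel (i + 1) b ≠ some P := by
          rw [h1]
          intro h
          rw [← Option.some_injective _ h] at c1
          simp only at c1
          omega
        have h4 := e3 i b P hcap h3
        have hP2 : P.2 ∈ gd (M ^ P.1) := by
          rw [← c2]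
          refine anc_mem ?_
          rw [← k6_pow M c1]
          exact hancg
        have hst : Start M Lin Rel P.1 P.2 := by
          have h5 := c4 P.1 le_rfl c1
          rw [c2] at h5
          exact h5
        have hmP : (⟨P.1, P.2⟩ : Σ _ : ℕ, ℕ × ℕ) ∈ S := by
          rw [hmS]
          exact ⟨by simp only; omega, hP2, hst⟩
        have h5 := Finset.single_le_sum n3 hmP
        have h6 := Finset.single_le_sum (n3' ⟨P.1, P.2⟩ hmP) h4
        have h7 : P.1 + (i + 1 - P.1) = i + 1 := by omega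
        have h8 : ch (M ^ (i + 1 - P.1)) P.2 (md (M ^ (i + 1 - P.1)) b) = b := by
          have h9 : anc (M ^ (i + 1 - P.1)) b = P.2 := by
            rw [← c2, anc_anc, ← pow_succ', show i - P.1 + 1 = i + 1 - P.1 by omega]
          rw [← h9]
          exact ch_anc_md _ _
        simp only [h7, h8] at h6
        rw [if_pos ⟨trivial, trivial⟩] at h6
        have h9 : ((M : ℝ) ^ (2 * (i + 1)))⁻¹ * x (i + 1) b ≤
            ((M : ℝ) ^ (2 * P.1))⁻¹ * (((M : ℝ) ^ (2 * (i + 1 - P.1)))⁻¹ * g (i + 1) b) := by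
          rw [← mul_assoc, ← mul_inv, ← pow_add, show 2 * P.1 + 2 * (i + 1 - P.1) = 2 * (i + 1) by omega]
          exact mul_le_mul_of_nonneg_left hxg0 (har _)
        linarith
  -- summation
  rw [hwS x, hwS (fun _ _ => 1), hwQ g]
  have hsum := Finset.sum_le_sum hpt
  refine hsum.trans ?_
  rw [Finset.sum_add_distrib, Finset.sum_add_distrib, Finset.sum_add_distrib, ← Finset.mul_sum]
  have hA : (∑ p ∈ S, if p.1 = 0 then G₂ else 0) ≤ G₂ := by
    refine k5_one S (fun p => p.1 = 0) G₂ G₂ hG₂ ?_ (fun _ _ _ => le_rfl)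
    intro p hp p' hp' h h'
    have h1 : ∀ q : Σ _ : ℕ, ℕ × ℕ, q ∈ S → q.1 = 0 → q = ⟨0, (0, 0)⟩ := by
      intro q hq h0
      have h3 := ((hmS q).1 hq).2.1
      rw [h0, pow_zero, gd_one, Finset.mem_singleton] at h3
      obtain ⟨q1, q2⟩ := q
      simp only at h0 h3
      rw [h0, h3]
    rw [h1 p hp h, h1 p' hp' h']
  have hB : (∑ p ∈ S, ∑ q ∈ S, ∑ r ∈ Rel q.1 q.2,
        if q.1 + r.1 = p.1 ∧ ch (M ^ r.1) q.2 r.2 = p.2 then
          ((M : ℝ) ^ (2 * q.1))⁻¹ * (((M : ℝ) ^ (2 * r.1))⁻¹ *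
            g (q.1 + r.1) (ch (M ^ r.1) q.2 r.2)) else 0) ≤
      θ * ∑ p ∈ S, ((M : ℝ) ^ (2 * p.1))⁻¹ * x p.1 p.2 := by
    rw [Finset.sum_comm, Finset.mul_sum]
    refine Finset.sum_le_sum fun q hq => ?_
    obtain ⟨hqJ, hqg, hqs⟩ := (hmS q).1 hq
    rw [Finset.sum_comm]
    have h1 : (∑ r ∈ Rel q.1 q.2, ∑ p ∈ S,
        if q.1 + r.1 = p.1 ∧ ch (M ^ r.1) q.2 r.2 = p.2 then
          ((M : ℝ) ^ (2 * q.1))⁻¹ * (((M : ℝ) ^ (2 * r.1))⁻¹ *
            g (q.1 + r.1) (ch (M ^ r.1) q.2 r.2)) else 0) ≤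
        ∑ r ∈ Rel q.1 q.2, ((M : ℝ) ^ (2 * q.1))⁻¹ * (((M : ℝ) ^ (2 * r.1))⁻¹ *
            g (q.1 + r.1) (ch (M ^ r.1) q.2 r.2)) := by
      refine Finset.sum_le_sum fun r _ => ?_
      refine k5_one S _ _ _ (mul_nonneg (har _) (mul_nonneg (har _) (T.g_nonneg _ _))) ?_
        (fun _ _ _ => le_rfl)
      intro p _ p' _ h h'
      obtain ⟨p1, p2⟩ := p
      obtain ⟨p1', p2'⟩ := p'
      simp only at h h'
      rw [← h.1, ← h'.1, ← h.2, ← h'.2]
    refine h1.trans ?_
    rw [← Finset.mul_sum]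
    have h3 := T.lin_mass q.1 hqJ q.2 hqg (hLin _ _ hqs)
    have h4 := mul_le_mul_of_nonneg_left h3 (har q.1)
    refine h4.trans (le_of_eq ?_)
    ring
  have hC : (∑ p ∈ S, ∑ q ∈ Q, if D p q then ((M : ℝ) ^ (2 * p.1))⁻¹ * x p.1 p.2 else 0) ≤
      2 * C₂ * ∑ p ∈ Q, ((M : ℝ) ^ (2 * p.1))⁻¹ * g p.1 p.2 := by
    rw [Finset.sum_comm, Finset.mul_sum]
    refine Finset.sum_le_sum fun q hq => ?_
    obtain ⟨hqJ, hqg, hqP⟩ := (hmQ q).1 hq
    have hgq := T.g_nonneg q.1 q.2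
    by_cases hex : ∃ p ∈ S, D p q
    · obtain ⟨p₀, hp₀, hD₀⟩ := hex
      obtain ⟨hp₀J, -, -⟩ := (hmS p₀).1 hp₀
      obtain ⟨d1, d2, -, -⟩ := hD₀
      set j := min J (q.1 + l) with hj
      have hqj : q.1 < j := by
        rw [hj, lt_min_iff]
        omega
      have hjJ : j ≤ J := min_le_left _ _
      have hstep : ∀ p ∈ S, (if D p q then ((M : ℝ) ^ (2 * p.1))⁻¹ * x p.1 p.2 else 0) ≤
          ∑ e ∈ gd (M ^ j), if D p q ∧ anc (M ^ (j - p.1)) e = p.2 then
            2 * (((M : ℝ) ^ (2 * j))⁻¹ * g j e) else 0 := by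
        intro p hp
        obtain ⟨hpJ, hpg, hps⟩ := (hmS p).1 hp
        by_cases hDp : D p q
        · rw [if_pos hDp]
          have hpj : p.1 ≤ j := by
            rw [hj, le_min_iff]
            exact ⟨hpJ, hDp.2.1⟩
          have h1 := k5_low T hpj hjJ hpg (hLin _ _ hps)
          have h3 := mul_le_mul_of_nonneg_left h1 (har j)
          have h4 := k6_area hM hpj
          rw [← mul_assoc, ← h4] at h3
          refine h3.trans (le_of_eq ?_)
          rw [← mul_assoc, Finset.mul_sum]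
          refine Finset.sum_congr rfl fun e _ => ?_
          by_cases he : anc (M ^ (j - p.1)) e = p.2
          · rw [if_pos he, if_pos ⟨hDp, he⟩]
            ring
          · rw [if_neg he, if_neg (fun h => he h.2), mul_zero]
        · rw [if_neg hDp]
          exact Finset.sum_nonneg fun e _ => by
            rw [if_neg (fun h => hDp h.1)]
      refine (Finset.sum_le_sum hstep).trans ?_
      rw [Finset.sum_comm]
      have hcount : ∀ e ∈ gd (M ^ j), (∑ p ∈ S, if D p q ∧ anc (M ^ (j - p.1)) e = p.2 then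
            2 * (((M : ℝ) ^ (2 * j))⁻¹ * g j e) else 0) ≤
          if anc (M ^ (j - q.1)) e = q.2 then 2 * (((M : ℝ) ^ (2 * j))⁻¹ * g j e) else 0 := by
        intro e _
        have he0 : 0 ≤ 2 * (((M : ℝ) ^ (2 * j))⁻¹ * g j e) :=
          mul_nonneg zero_le_two (mul_nonneg (har _) (T.g_nonneg _ _))
        refine k5_one S (fun p => D p q ∧ anc (M ^ (j - p.1)) e = p.2) _ _ ?_ ?_ ?_
        · split_ifs
          · exact he0
          · exact le_rfl
        · have key : ∀ p ∈ S, ∀ p' ∈ S, D p q → anc (M ^ (j - p.1)) e = p.2 → D p' q →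
              anc (M ^ (j - p'.1)) e = p'.2 → ¬ p.1 < p'.1 := by
            intro p hp p' hp' hDp hap hDp' hap' hlt
            have hp'j : p'.1 ≤ j := by
              rw [hj, le_min_iff]
              exact ⟨((hmS p').1 hp').1, hDp'.2.1⟩
            have h1 := hDp'.2.2.2 p.1 hDp.1.le hlt
            have h3 : anc (M ^ (p'.1 - p.1)) p'.2 = p.2 := by
              rw [← hap, ← hap', anc_anc, ← pow_add, show j - p'.1 + (p'.1 - p.1) = j - p.1 by omega]
            rw [h3] at h1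
            have h4 : cap M Lin Rel p.1 p.2 = some (p.1, p.2) := ((hmS p).1 hp).2.2
            rw [h1.1] at h4
            exact absurd h4 (by simp)
          intro p hp p' hp' h h'
          have h1 := key p hp p' hp' h.1 h.2 h'.1 h'.2
          have h3 := key p' hp' p hp h'.1 h'.2 h.1 h.2
          have h4 : p.1 = p'.1 := by omega
          have h5 : p.2 = p'.2 := by rw [← h.2, ← h'.2, h4]
          obtain ⟨p1, p2⟩ := p
          obtain ⟨p1', p2'⟩ := p'
          simp only at h4 h5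
          rw [h4, h5]
        · intro p hp h
          have hpj : p.1 ≤ j := by
            rw [hj, le_min_iff]
            exact ⟨((hmS p).1 hp).1, h.1.2.1⟩
          have h1 : anc (M ^ (j - q.1)) e = q.2 := by
            have h3 := h.1.1
            rw [← h.1.2.2.1, ← h.2, anc_anc, ← pow_add,
              show j - p.1 + (p.1 - q.1) = j - q.1 by omega]
          rw [if_pos h1]
      refine (Finset.sum_le_sum hcount).trans ?_
      rw [k6_desc hqj.le hqg]
      have hsup := T.super q.1 q.2 hqg hqP.1.2 (j - q.1) (by omega)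
        (by have := min_le_right J (q.1 + l); omega) (by omega)
      rw [show q.1 + (j - q.1) = j by omega] at hsup
      rw [← Finset.mul_sum, ← Finset.mul_sum]
      have h3 := mul_le_mul_of_nonneg_left hsup (har j)
      rw [k6_area hM hqj.le]
      nlinarith
    · push Not at hex
      rw [Finset.sum_eq_zero fun p hp => if_neg (hex p hp)]
      positivity
  linarith

end Pool.Agent.Q73.AD
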