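import Pool.Agent.Q73.AD.YK0

/-!
# The mean rate of the squares of the last level
-/

set_option autoImplicit false

namespace Pool.Agent.Q73.AD

open Finset

lemma k6_area {M : ℕ} (hM : 0 < M) {i j : ℕ} (h : i ≤ j) :
    ((M : ℝ) ^ (2 * i))⁻¹ = ((M : ℝ) ^ (2 * j))⁻¹ * (M : ℝ) ^ (2 * (j - i)) := by
  have h1 : (M : ℝ) ^ (2 * (j - i)) ≠ 0 := by positivity
  have h2 : 2 * j = 2 * i + 2 * (j - i) := by omega
  rw [h2, pow_add, mul_inv, mul_assoc, inv_mul_cancel₀ h1, mul_one]

lemma k6_pow (M : ℕ) {i j : ℕ} (h : i ≤ j) : M ^ j = M ^ i * M ^ (j - i) := by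
  rw [← pow_add]
  congr 1
  omega

lemma k6_const (M k : ℕ) (v : ℝ) : ∑ _c ∈ gd (M ^ k), v = (M : ℝ) ^ (2 * k) * v := by
  rw [Finset.sum_const, gd_card, nsmul_eq_mul]
  push_cast
  rw [← pow_mul, mul_comm k 2]

/-- a sum over the descendants of level `j` of a square of level `i` -/
lemma k6_desc {M i j : ℕ} (h : i ≤ j) {a : ℕ × ℕ} (ha : a ∈ gd (M ^ i)) (F : ℕ × ℕ → ℝ) :
    (∑ b ∈ gd (M ^ j), if anc (M ^ (j - i)) b = a then F b else 0) =
      ∑ c ∈ gd (M ^ (j - i)), F (ch (M ^ (j - i)) a c) := by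
  rw [← Finset.sum_filter, k6_pow M h]
  exact sum_desc ha F

lemma k6_age (M : ℕ) (G : ℝ) (g : ℕ → ℕ × ℕ → ℝ) (Lin : ℕ → ℕ × ℕ → Prop)
    (Rel : ℕ → ℕ × ℕ → Finset (ℕ × (ℕ × ℕ))) (i : ℕ) (b : ℕ × ℕ) :
    ∀ s, s ≤ age M G g Lin Rel i b → s ≤ i ∧
      age M G g Lin Rel (i - s) (anc (M ^ s) b) = age M G g Lin Rel i b - s ∧
      ∀ r, 1 ≤ r → r ≤ s → US M G g Lin Rel (i - r) (anc (M ^ r) b) := by
  intro s
  induction s with
  | zero =>
    intro _
    refine ⟨Nat.zero_le _, ?_, ?_⟩
    · rw [pow_zero, anc_one]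
      rfl
    · intro r h1 h2
      omega
  | succ s ih =>
    intro hs
    obtain ⟨h1, h2, h3⟩ := ih (by omega)
    have h4 : i - s ≠ 0 := by
      intro h
      rw [h] at h2
      simp only [age] at h2
      omega
    obtain ⟨m, hm⟩ := Nat.exists_eq_succ_of_ne_zero h4
    have hm' : i - s = m + 1 := hm
    rw [hm'] at h2
    simp only [age] at h2
    have hmi : i - (s + 1) = m := by omega
    have hanc : anc M (anc (M ^ s) b) = anc (M ^ (s + 1)) b := by
      rw [anc_anc, pow_succ]
    by_cases hU : US M G g Lin Rel m (anc M (anc (M ^ s) b))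
    · rw [if_pos hU] at h2
      refine ⟨by omega, ?_, ?_⟩
      · rw [hmi, ← hanc]
        omega
      · intro r hr1 hr2
        rcases Nat.lt_or_ge s r with h | h
        · have : r = s + 1 := by omega
          subst this
          rw [hmi, ← hanc]
          exact hU
        · exact h3 r hr1 h
    · rw [if_neg hU] at h2
      omega

theorem tk6 (h2 : K2) : K6 := by
  intro M A l l₁ J G G₂ C₂ C₃ θ θ₁ g Lin x Rel T
  classical
  have hM : 0 < M := by
    have := T.two_le
    omega
  obtain ⟨e1, -, -, -, -⟩ := h2 M Lin Rel hM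
  have hMr : (0 : ℝ) < M := by exact_mod_cast hM
  have hC₂ : 0 ≤ C₂ := le_trans zero_le_one T.one_le_C₂
  have hC₃ : 0 ≤ C₃ := le_trans zero_le_one T.one_le_C₃
  set u : ℝ := ((M : ℝ) ^ (2 * J))⁻¹ with hu
  have hu0 : 0 ≤ u := by positivity
  have hx : ∀ i ≤ J, ∀ a ∈ gd (M ^ i), Start M Lin Rel i a → 0 ≤ x i a := by
    intro i hi a ha hs
    exact T.lin_nonneg i hi a ha (e1 i a (i, a) hs).2.2.1
  -- the pointwise bound
  have hpt : ∀ b ∈ gd (M ^ J), u * g J b ≤ u * G +
      (∑ i ∈ range (J + 1), ∑ a ∈ (gd (M ^ i)).filter (Start M Lin Rel i),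
        if cap M Lin Rel J b = some (i, a) then u * (C₃ * x i a) else 0) +
      ∑ k ∈ range (J + 1),
        if k < l ∧ Ph M l G g Lin Rel (J - k) (anc (M ^ k) b) then u * g J b else 0 := by
    intro b hb
    have hg0 : 0 ≤ u * g J b := mul_nonneg hu0 (T.g_nonneg J b)
    have hG0 : 0 ≤ u * G := mul_nonneg hu0 T.G_nonneg
    have hinner : ∀ i ∈ range (J + 1), 0 ≤ ∑ a ∈ (gd (M ^ i)).filter (Start M Lin Rel i),
        if cap M Lin Rel J b = some (i, a) then u * (C₃ * x i a) else 0 := by
      intro i hi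
      refine Finset.sum_nonneg fun a ha => ?_
      rw [Finset.mem_filter] at ha
      split_ifs
      · exact mul_nonneg hu0 (mul_nonneg hC₃
          (hx i (by rw [Finset.mem_range] at hi; omega) a ha.1 ha.2))
      · exact le_rfl
    have hS1 : 0 ≤ ∑ i ∈ range (J + 1), ∑ a ∈ (gd (M ^ i)).filter (Start M Lin Rel i),
        if cap M Lin Rel J b = some (i, a) then u * (C₃ * x i a) else 0 := Finset.sum_nonneg hinner
    have hk0 : ∀ k ∈ range (J + 1),
        0 ≤ if k < l ∧ Ph M l G g Lin Rel (J - k) (anc (M ^ k) b) then u * g J b else 0 := by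
      intro k _
      split_ifs
      · exact hg0
      · exact le_rfl
    have hS2 : 0 ≤ ∑ k ∈ range (J + 1),
        if k < l ∧ Ph M l G g Lin Rel (J - k) (anc (M ^ k) b) then u * g J b else 0 :=
      Finset.sum_nonneg hk0
    rcases hcap : cap M Lin Rel J b with _ | P
    · rcases le_or_gt (g J b) G with hgG | hgG
      · have h1 := mul_le_mul_of_nonneg_left hgG hu0
        rw [hcap] at hS1
        linarith
      · -- the uncaptured super squares
        set t := age M G g Lin Rel J b with ht
        have hl : 0 < l := T.one_le_l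
        obtain ⟨a1, a2, a3⟩ := k6_age M G g Lin Rel J b (t % l) (Nat.mod_le _ _)
        have hPh : Ph M l G g Lin Rel (J - t % l) (anc (M ^ (t % l)) b) := by
          refine ⟨?_, ?_⟩
          · rcases Nat.eq_zero_or_pos (t % l) with h0 | h0
            · rw [h0, pow_zero, anc_one]
              exact ⟨hcap, hgG⟩
            · exact a3 _ h0 le_rfl
          · rw [a2]
            exact Nat.dvd_sub_mod t
        have h1 := Finset.single_le_sum hk0 (Finset.mem_range.2 (Nat.lt_succ_of_le a1))
        rw [if_pos ⟨Nat.mod_lt _ hl, hPh⟩] at h1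
        rw [hcap] at hS1
        linarith
    · -- the captured squares
      obtain ⟨c1, c2, c3, c4, c5⟩ := e1 J b P hcap
      have hP2 : P.2 ∈ gd (M ^ P.1) := by
        rw [← c2]
        refine anc_mem ?_
        rw [← k6_pow M c1]
        exact hb
      have hst : Start M Lin Rel P.1 P.2 := by
        have h3 := c4 P.1 le_rfl c1
        rw [c2] at h3
        exact h3
      have hrate := (T.lin_rate P.1 P.2 hP2 c3 J c1 le_rfl b hb c2 c5).2
      have h1 := Finset.single_le_sum hinner (Finset.mem_range.2 (Nat.lt_succ_of_le c1))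
      have hinner2 : ∀ a ∈ (gd (M ^ P.1)).filter (Start M Lin Rel P.1),
          0 ≤ if cap M Lin Rel J b = some (P.1, a) then u * (C₃ * x P.1 a) else 0 := by
        intro a ha
        rw [Finset.mem_filter] at ha
        split_ifs
        · exact mul_nonneg hu0 (mul_nonneg hC₃ (hx P.1 c1 a ha.1 ha.2))
        · exact le_rfl
      have h3 := Finset.single_le_sum hinner2 (Finset.mem_filter.2 ⟨hP2, hst⟩)
      rw [if_pos (by rw [hcap])] at h3
      have h4 := mul_le_mul_of_nonneg_left hrate hu0
      rw [← hcap]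
      linarith
  have hsum := Finset.sum_le_sum hpt
  refine hsum.trans ?_
  rw [Finset.sum_add_distrib, Finset.sum_add_distrib]
  have hA : ∑ _b ∈ gd (M ^ J), u * G = G := by
    rw [k6_const, ← mul_assoc, hu, mul_inv_cancel₀ (by positivity), one_mul]
  have hB : (∑ b ∈ gd (M ^ J), ∑ i ∈ range (J + 1), ∑ a ∈ (gd (M ^ i)).filter (Start M Lin Rel i),
        if cap M Lin Rel J b = some (i, a) then u * (C₃ * x i a) else 0) ≤
      C₃ * ws M J (Start M Lin Rel) x := by
    rw [Finset.sum_comm, ws, Finset.mul_sum]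
    refine Finset.sum_le_sum fun i hi => ?_
    have hi' : i ≤ J := by
      rw [Finset.mem_range] at hi
      omega
    rw [Finset.sum_comm, Finset.mul_sum]
    refine Finset.sum_le_sum fun a ha => ?_
    rw [Finset.mem_filter] at ha
    have hxa := hx i hi' a ha.1 ha.2
    have h1 : (∑ b ∈ gd (M ^ J), if cap M Lin Rel J b = some (i, a) then u * (C₃ * x i a) else 0) ≤
        ∑ b ∈ gd (M ^ J), if anc (M ^ (J - i)) b = a then u * (C₃ * x i a) else 0 := by
      refine Finset.sum_le_sum fun b _ => ?_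
      by_cases hc : cap M Lin Rel J b = some (i, a)
      · have h2 := (e1 J b (i, a) hc).2.1
        rw [if_pos hc, if_pos h2]
      · rw [if_neg hc]
        split_ifs
        · exact mul_nonneg hu0 (mul_nonneg hC₃ hxa)
        · exact le_rfl
    refine h1.trans (le_of_eq ?_)
    rw [k6_desc hi' ha.1, k6_const, k6_area hM hi', hu]
    ring
  have hC : (∑ b ∈ gd (M ^ J), ∑ k ∈ range (J + 1),
        if k < l ∧ Ph M l G g Lin Rel (J - k) (anc (M ^ k) b) then u * g J b else 0) ≤
      (1 + C₂) * ws M J (Ph M l G g Lin Rel) g := by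
    have hterm : ∀ i, 0 ≤ ∑ a ∈ (gd (M ^ i)).filter (Ph M l G g Lin Rel i),
        ((M : ℝ) ^ (2 * i))⁻¹ * g i a := fun i =>
      Finset.sum_nonneg fun a _ => mul_nonneg (by positivity) (T.g_nonneg i a)
    have hws0 : 0 ≤ ws M J (Ph M l G g Lin Rel) g := Finset.sum_nonneg fun i _ => hterm i
    have hmain : (∑ b ∈ gd (M ^ J), ∑ k ∈ range (J + 1),
        if k < l ∧ Ph M l G g Lin Rel (J - k) (anc (M ^ k) b) then u * g J b else 0) ≤
        C₂ * ws M J (Ph M l G g Lin Rel) g := by
      have hws : ws M J (Ph M l G g Lin Rel) g = ∑ k ∈ range (J + 1),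
          ∑ a ∈ (gd (M ^ (J - k))).filter (Ph M l G g Lin Rel (J - k)),
            ((M : ℝ) ^ (2 * (J - k)))⁻¹ * g (J - k) a := by
        rw [ws, ← Finset.sum_range_reflect]
        refine Finset.sum_congr rfl fun k _ => ?_
        rw [show J + 1 - 1 - k = J - k by omega]
      rw [Finset.sum_comm, hws, Finset.mul_sum]
      refine Finset.sum_le_sum fun k hk => ?_
      have hk' : k ≤ J := by
        rw [Finset.mem_range] at hk
        omega
      by_cases hkl : k < l
      · have h1 : (∑ b ∈ gd (M ^ J),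
            if k < l ∧ Ph M l G g Lin Rel (J - k) (anc (M ^ k) b) then u * g J b else 0) =
            ∑ a ∈ (gd (M ^ (J - k))).filter (Ph M l G g Lin Rel (J - k)),
              ∑ c ∈ gd (M ^ k), u * g J (ch (M ^ k) a c) := by
          rw [show M ^ J = M ^ (J - k) * M ^ k by rw [← pow_add]; congr 1; omega, sum_gd_mul,
            Finset.sum_filter]
          refine Finset.sum_congr rfl fun a _ => ?_
          by_cases hP : Ph M l G g Lin Rel (J - k) a
          · rw [if_pos hP]
            refine Finset.sum_congr rfl fun c hc => ?_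
            rw [anc_ch hc, if_pos ⟨hkl, hP⟩]
          · rw [if_neg hP]
            refine Finset.sum_eq_zero fun c hc => ?_
            rw [anc_ch hc, if_neg (fun h => hP h.2)]
        rw [h1, Finset.mul_sum]
        refine Finset.sum_le_sum fun a ha => ?_
        rw [Finset.mem_filter] at ha
        have hg := T.g_nonneg (J - k) a
        rcases Nat.eq_zero_or_pos k with h0 | h0
        · subst h0
          rw [pow_zero, gd_one, Finset.sum_singleton, ch_one, Nat.sub_zero]
          have h3 : u * g J a ≤ C₂ * (u * g J a) := by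
            have h4 := mul_nonneg hu0 (T.g_nonneg J a)
            nlinarith [T.one_le_C₂]
          exact h3
        · have h3 := T.super (J - k) a ha.1 ha.2.1.2 k h0 hkl.le (by omega)
          rw [show J - k + k = J by omega] at h3
          rw [← Finset.mul_sum]
          refine (mul_le_mul_of_nonneg_left h3 hu0).trans (le_of_eq ?_)
          have h4 := k6_area hM (show J - k ≤ J by omega)
          rw [show J - (J - k) = k by omega] at h4
          rw [h4, hu]
          ring
      · have h1 : (∑ b ∈ gd (M ^ J),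
            if k < l ∧ Ph M l G g Lin Rel (J - k) (anc (M ^ k) b) then u * g J b else 0) = 0 :=
          Finset.sum_eq_zero fun b _ => if_neg (fun h => hkl h.1)
        rw [h1]
        exact mul_nonneg hC₂ (hterm _)
    nlinarith
  linarith

end Pool.Agent.Q73.AD
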