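import Pool.Agent.Q73.AD.StmK

/-!
# Elementary facts about the indices of squares
-/

set_option autoImplicit false

namespace Pool.Agent.Q73.AD

lemma mem_gd {m : ℕ} {a : ℕ × ℕ} : a ∈ gd m ↔ a.1 < m ∧ a.2 < m := by
  simp [gd]

lemma gd_card (m : ℕ) : (gd m).card = m ^ 2 := by
  simp [gd, sq]

lemma gd_one : gd 1 = {(0, 0)} := by
  ext ⟨a, b⟩
  simp [gd]

lemma ch_mem {m n : ℕ} {a c : ℕ × ℕ} (ha : a ∈ gd m) (hc : c ∈ gd n) : ch n a c ∈ gd (m * n) := by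
  rw [mem_gd] at *
  obtain ⟨h1, h2⟩ := ha
  obtain ⟨h3, h4⟩ := hc
  constructor
  · calc a.1 * n + c.1 < a.1 * n + n := by omega
      _ = (a.1 + 1) * n := by ring
      _ ≤ m * n := Nat.mul_le_mul_right _ h1
  · calc a.2 * n + c.2 < a.2 * n + n := by omega
      _ = (a.2 + 1) * n := by ring
      _ ≤ m * n := Nat.mul_le_mul_right _ h2

lemma anc_ch {n : ℕ} {a c : ℕ × ℕ} (hc : c ∈ gd n) : anc n (ch n a c) = a := by
  rw [mem_gd] at hc
  have hn : 0 < n := by omega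
  ext
  · show (a.1 * n + c.1) / n = a.1
    rw [mul_comm, Nat.mul_add_div hn, Nat.div_eq_of_lt hc.1, add_zero]
  · show (a.2 * n + c.2) / n = a.2
    rw [mul_comm, Nat.mul_add_div hn, Nat.div_eq_of_lt hc.2, add_zero]

lemma md_ch {n : ℕ} {a c : ℕ × ℕ} (hc : c ∈ gd n) : md n (ch n a c) = c := by
  rw [mem_gd] at hc
  ext
  · show (a.1 * n + c.1) % n = c.1
    rw [mul_comm, Nat.mul_add_mod, Nat.mod_eq_of_lt hc.1]
  · show (a.2 * n + c.2) % n = c.2
    rw [mul_comm, Nat.mul_add_mod, Nat.mod_eq_of_lt hc.2]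

lemma ch_anc_md (n : ℕ) (b : ℕ × ℕ) : ch n (anc n b) (md n b) = b := by
  ext
  · show b.1 / n * n + b.1 % n = b.1
    rw [mul_comm]; exact Nat.div_add_mod _ _
  · show b.2 / n * n + b.2 % n = b.2
    rw [mul_comm]; exact Nat.div_add_mod _ _

lemma md_mem {n : ℕ} (hn : 0 < n) (b : ℕ × ℕ) : md n b ∈ gd n := by
  rw [mem_gd]
  exact ⟨Nat.mod_lt _ hn, Nat.mod_lt _ hn⟩

lemma anc_mem {m n : ℕ} {b : ℕ × ℕ} (hb : b ∈ gd (m * n)) : anc n b ∈ gd m := by
  rw [mem_gd] at *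
  exact ⟨Nat.div_lt_of_lt_mul (by rw [mul_comm]; exact hb.1),
    Nat.div_lt_of_lt_mul (by rw [mul_comm]; exact hb.2)⟩

lemma anc_one (b : ℕ × ℕ) : anc 1 b = b := by
  ext <;> simp [anc]

lemma md_one (b : ℕ × ℕ) : md 1 b = (0, 0) := by
  ext <;> simp [md, Nat.mod_one]

lemma ch_one (a : ℕ × ℕ) : ch 1 a (0, 0) = a := by
  ext <;> simp [ch]

lemma anc_anc (m n : ℕ) (b : ℕ × ℕ) : anc m (anc n b) = anc (n * m) b := by
  ext
  · exact Nat.div_div_eq_div_mul _ _ _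
  · exact Nat.div_div_eq_div_mul _ _ _

lemma ch_ch (m n : ℕ) (a b c : ℕ × ℕ) : ch n (ch m a b) c = ch (m * n) a (ch n b c) := by
  ext
  · show (a.1 * m + b.1) * n + c.1 = a.1 * (m * n) + (b.1 * n + c.1)
    ring
  · show (a.2 * m + b.2) * n + c.2 = a.2 * (m * n) + (b.2 * n + c.2)
    ring

lemma ch_inj {n : ℕ} {a a' c c' : ℕ × ℕ} (hc : c ∈ gd n) (hc' : c' ∈ gd n)
    (h : ch n a c = ch n a' c') : a = a' ∧ c = c' := by
  constructor
  · rw [← anc_ch (a := a) hc, h, anc_ch hc']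
  · rw [← md_ch (a := a) hc, h, md_ch hc']

/-- a sum over the squares of level `m n` is a double sum -/
lemma sum_gd_mul {α : Type*} [AddCommMonoid α] (m n : ℕ) (F : ℕ × ℕ → α) :
    ∑ b ∈ gd (m * n), F b = ∑ a ∈ gd m, ∑ c ∈ gd n, F (ch n a c) := by
  rcases Nat.eq_zero_or_pos n with rfl | hn
  · simp [gd]
  rw [← Finset.sum_product']
  symm
  refine Finset.sum_nbij' (fun x => ch n x.1 x.2) (fun b => (anc n b, md n b)) ?_ ?_ ?_ ?_ ?_
  · intro x hx
    rw [Finset.mem_product] at hx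
    exact ch_mem hx.1 hx.2
  · intro b hb
    rw [Finset.mem_product]
    exact ⟨anc_mem hb, md_mem hn b⟩
  · intro x hx
    rw [Finset.mem_product] at hx
    ext1
    · exact anc_ch hx.2
    · exact md_ch hx.2
  · intro b _
    exact ch_anc_md n b
  · intro x _
    rfl

/-- a sum over the descendants of a square -/
lemma sum_desc {α : Type*} [AddCommMonoid α] {m n : ℕ} {a : ℕ × ℕ} (ha : a ∈ gd m) (F : ℕ × ℕ → α) :
    ∑ b ∈ (gd (m * n)).filter (fun b => anc n b = a), F b = ∑ c ∈ gd n, F (ch n a c) := by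
  rcases Nat.eq_zero_or_pos n with rfl | hn
  · simp [gd]
  symm
  refine Finset.sum_nbij' (fun c => ch n a c) (fun b => md n b) ?_ ?_ ?_ ?_ ?_
  · intro c hc
    rw [Finset.mem_filter]
    exact ⟨ch_mem ha hc, anc_ch hc⟩
  · intro b _
    exact md_mem hn b
  · intro c hc
    exact md_ch hc
  · intro b hb
    rw [Finset.mem_filter] at hb
    rw [← hb.2]
    exact ch_anc_md n b
  · intro c _
    rfl

end Pool.Agent.Q73.AD
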