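import Pool.Agent.Q73.AD.StmK
import Pool.Agent.Q73.AD.YK0

/-!
# K7: the stopping time argument, conclusion
-/

set_option autoImplicit false

namespace Pool.Agent.Q73.AD

theorem tk7 (h1 : K1) (h3 : K3) (h4 : K4) (h5 : K5) (h6 : K6) : K7 := by
  classical
  intro M A l l₁ G G₂ C₂ C₃ θ θ₁
  obtain ⟨CB, hCB, hB⟩ := h3 M A l₁
  refine ⟨G + C₃ * (6 * G₂ + 8 * C₂ * G₂ * (1 + CB)) +
    (1 + C₂) * (2 * G₂ * (1 + CB) + (6 * G₂ + 8 * C₂ * G₂ * (1 + CB))), ?_⟩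
  intro J g Lin x Rel ht
  have hK1 := h1 M A l l₁ J G G₂ C₂ C₃ θ θ₁ g Lin x Rel ht
  have hK3 := hB l J G G₂ C₂ C₃ θ θ₁ g Lin x Rel ht
  have hK4 := h4 M A l l₁ J G G₂ C₂ C₃ θ θ₁ g Lin x Rel ht
  have hK5 := h5 M A l l₁ J G G₂ C₂ C₃ θ θ₁ g Lin x Rel ht
  have hK6 := h6 M A l l₁ J G G₂ C₂ C₃ θ θ₁ g Lin x Rel ht
  have hM : (0 : ℝ) < M := by
    have := ht.two_le
    positivity
  have hV0 : 0 ≤ ws M J (Ph M l G g Lin Rel) g := by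
    unfold ws
    refine Finset.sum_nonneg fun i _ => Finset.sum_nonneg fun a _ => ?_
    exact mul_nonneg (by positivity) (ht.g_nonneg _ _)
  have hG2 : 0 ≤ G₂ := ht.G_nonneg.trans ht.G_le
  have hX : 0 ≤ ws M J (Start M Lin Rel) x ∨ ws M J (Start M Lin Rel) x ≤ 0 := le_total _ _
  set V := ws M J (Ph M l G g Lin Rel) g with hV
  set X := ws M J (Start M Lin Rel) x with hXd
  set R := ws M J (Start M Lin Rel) (fun _ _ => 1) with hR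
  set Bt := ws M J (Birth M G g Lin Rel) (fun _ _ => 1) with hBt
  have hC2 := ht.one_le_C₂
  have hC3 := ht.one_le_C₃
  have hθ := ht.θ_le
  have hθ0 := ht.θ_nonneg
  have hθ1 := ht.θ₁_le
  have hθ10 := ht.θ₁_nonneg
  -- bounds for `V` and `X`
  have e1 : θ₁ * V ≤ V / 2 := by nlinarith
  have e2 : G₂ * (1 + Bt) ≤ G₂ * (1 + CB) := mul_le_mul_of_nonneg_left (by linarith) hG2
  have hVb : V ≤ 2 * G₂ * (1 + CB) + 2 * (θ * X) := by nlinarith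
  have e3 : G₂ * (1 + R) ≤ G₂ * 3 := mul_le_mul_of_nonneg_left (by linarith) hG2
  have e4 : 2 * C₂ * V ≤ 2 * C₂ * (2 * G₂ * (1 + CB) + 2 * (θ * X)) :=
    mul_le_mul_of_nonneg_left hVb (by linarith)
  have hXb : X ≤ 6 * G₂ + 8 * C₂ * G₂ * (1 + CB) := by
    rcases hX with hX0 | hX0
    · have e5 : θ * (4 * C₂ + 1) * X ≤ 1 / 2 * X := mul_le_mul_of_nonneg_right hθ hX0
      nlinarith
    · have : 0 ≤ 8 * C₂ * G₂ * (1 + CB) := by positivity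
      linarith
  have hθX : 2 * (θ * X) ≤ 6 * G₂ + 8 * C₂ * G₂ * (1 + CB) := by
    have hb0 : 0 ≤ 6 * G₂ + 8 * C₂ * G₂ * (1 + CB) := by positivity
    have hθ2 : 2 * θ ≤ 1 := by nlinarith
    calc 2 * (θ * X) ≤ 2 * (θ * (6 * G₂ + 8 * C₂ * G₂ * (1 + CB))) := by gcongr
      _ = 2 * θ * (6 * G₂ + 8 * C₂ * G₂ * (1 + CB)) := by ring
      _ ≤ 1 * (6 * G₂ + 8 * C₂ * G₂ * (1 + CB)) := by gcongr
      _ = _ := one_mul _
  have hfin : ∑ a ∈ gd (M ^ J), ((M : ℝ) ^ (2 * J))⁻¹ * g J a ≤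
      G + C₃ * (6 * G₂ + 8 * C₂ * G₂ * (1 + CB)) +
    (1 + C₂) * (2 * G₂ * (1 + CB) + (6 * G₂ + 8 * C₂ * G₂ * (1 + CB))) := by
    refine hK6.trans ?_
    have f1 : C₃ * X ≤ C₃ * (6 * G₂ + 8 * C₂ * G₂ * (1 + CB)) :=
      mul_le_mul_of_nonneg_left hXb (by linarith)
    have f2 : (1 + C₂) * V ≤ (1 + C₂) * (2 * G₂ * (1 + CB) + (6 * G₂ + 8 * C₂ * G₂ * (1 + CB))) :=
      mul_le_mul_of_nonneg_left (by linarith) (by linarith)
    linarith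
  rw [← Finset.mul_sum] at hfin
  have hpow : (0 : ℝ) < (M : ℝ) ^ (2 * J) := by positivity
  rwa [inv_mul_le_iff₀ hpow, mul_comm] at hfin

end Pool.Agent.Q73.AD
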