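import Pool.Agent.Q73.AD.StmY

/-! Project AY (helper73), job AY-6: regularization of a function with the mean value inequality. -/

set_option autoImplicit false

open MeasureTheory Filter Topology Complex Metric
open scoped ContDiff ComplexConjugate Convolution

namespace Pool.Agent.Q73.AD

open Pool.Agent.Q73.NL

/-! ### The mollifier -/

/-- the bump function -/
noncomputable def pb (δ : ℝ) (y : ℂ) : ℝ :=
  Real.smoothTransition (1 - 4 / δ ^ 2 * (y.re ^ 2 + y.im ^ 2))

lemma pb_cd (δ : ℝ) : ContDiff ℝ ∞ (pb δ) := by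
  have h1 : ContDiff ℝ ∞ (fun z : ℂ => z.re) := Complex.reCLM.contDiff
  have h2 : ContDiff ℝ ∞ (fun z : ℂ => z.im) := Complex.imCLM.contDiff
  unfold pb
  refine (Real.smoothTransition.contDiff (n := ⊤)).comp ?_
  fun_prop

lemma pb_sq (y : ℂ) : y.re ^ 2 + y.im ^ 2 = ‖y‖ ^ 2 := by
  rw [Complex.sq_norm, Complex.normSq_apply]
  ring

lemma pb_nonneg (δ : ℝ) (y : ℂ) : 0 ≤ pb δ y := Real.smoothTransition.nonneg _

lemma pb_off {δ : ℝ} (hδ : 0 < δ) {y : ℂ} (hy : δ / 2 ≤ ‖y‖) : pb δ y = 0 := by
  apply Real.smoothTransition.zero_of_nonpos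
  rw [pb_sq]
  have h1 : (δ / 2) ^ 2 ≤ ‖y‖ ^ 2 := pow_le_pow_left₀ (by positivity) hy 2
  have h2 : 4 / δ ^ 2 * (δ / 2) ^ 2 = 1 := by
    field_simp
    norm_num
  have h3 := mul_le_mul_of_nonneg_left h1 (by positivity : 0 ≤ 4 / δ ^ 2)
  linarith

lemma pb_zero (δ : ℝ) : pb δ 0 = 1 := by
  simp [pb]

lemma pb_anti {δ : ℝ} {y z : ℂ} (h : ‖y‖ ≤ ‖z‖) : pb δ z ≤ pb δ y := by
  apply Real.smoothTransition.monotone
  rw [pb_sq, pb_sq]
  have h1 : ‖y‖ ^ 2 ≤ ‖z‖ ^ 2 := pow_le_pow_left₀ (norm_nonneg _) h 2
  have h3 := mul_le_mul_of_nonneg_left h1 (by positivity : 0 ≤ 4 / δ ^ 2)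
  linarith

lemma pb_supp {δ : ℝ} (hδ : 0 < δ) : HasCompactSupport (pb δ) := by
  refine HasCompactSupport.of_support_subset_isCompact (isCompact_closedBall (0 : ℂ) (δ / 2)) ?_
  intro y hy
  rw [mem_closedBall, dist_zero_right]
  by_contra h
  push Not at h
  exact hy (pb_off hδ h.le)

lemma pb_int_pos {δ : ℝ} (hδ : 0 < δ) : 0 < ∫ y, pb δ y :=
  (pb_cd δ).continuous.integral_pos_of_hasCompactSupport_nonneg_nonzero (pb_supp hδ) (pb_nonneg δ)
    (x := 0) (by rw [pb_zero]; norm_num)

/-- the mollifier -/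
noncomputable def pe (δ : ℝ) (y : ℂ) : ℝ := (∫ y, pb δ y)⁻¹ * pb δ y

lemma pe_cd (δ : ℝ) : ContDiff ℝ ∞ (pe δ) := contDiff_const.mul (pb_cd δ)

lemma pe_nonneg (δ : ℝ) (y : ℂ) : 0 ≤ pe δ y :=
  mul_nonneg (inv_nonneg.2 (integral_nonneg fun y => pb_nonneg δ y)) (pb_nonneg δ y)

lemma pe_off {δ : ℝ} (hδ : 0 < δ) {y : ℂ} (hy : δ / 2 ≤ ‖y‖) : pe δ y = 0 := by
  rw [pe, pb_off hδ hy, mul_zero]

lemma pe_anti {δ : ℝ} {y z : ℂ} (h : ‖y‖ ≤ ‖z‖) : pe δ z ≤ pe δ y :=
  mul_le_mul_of_nonneg_left (pb_anti h) (inv_nonneg.2 (integral_nonneg fun y => pb_nonneg δ y))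

lemma pe_supp {δ : ℝ} (hδ : 0 < δ) : HasCompactSupport (pe δ) := (pb_supp hδ).mul_left

lemma pe_integrable {δ : ℝ} (hδ : 0 < δ) : Integrable (pe δ) :=
  (pe_cd δ).continuous.integrable_of_hasCompactSupport (pe_supp hδ)

lemma pe_int {δ : ℝ} (hδ : 0 < δ) : ∫ y, pe δ y = 1 := by
  unfold pe
  rw [integral_const_mul, inv_mul_cancel₀ (pb_int_pos hδ).ne']

lemma pe_neg (δ : ℝ) (y : ℂ) : pe δ (-y) = pe δ y := by
  simp [pe, pb]

/-- the superlevel sets are balls -/
lemma pe_level {δ : ℝ} (hδ : 0 < δ) (hδ1 : δ ≤ 1 / 2) {s : ℝ} (hs : 0 < s) :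
    ∃ ρ : ℝ, 0 ≤ ρ ∧ ρ ≤ 1 ∧ {t : ℂ | s < pe δ t} = ball 0 ρ := by
  set C : Set ℂ := {t | pe δ t ≤ s} with hC
  have hCc : IsClosed C := isClosed_le (pe_cd δ).continuous continuous_const
  have hmem : ((1 : ℝ) : ℂ) ∈ C := by
    change pe δ ((1 : ℝ) : ℂ) ≤ s
    rw [pe_off hδ]
    · exact hs.le
    · rw [Complex.norm_real, norm_one]
      linarith
  obtain ⟨t₀, ht₀, h0⟩ := hCc.exists_infDist_eq_dist ⟨_, hmem⟩ (0 : ℂ)
  refine ⟨infDist 0 C, infDist_nonneg, ?_, ?_⟩
  · refine (infDist_le_dist_of_mem hmem).trans ?_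
    rw [dist_zero_left, Complex.norm_real, norm_one]
  · ext t
    rw [Set.mem_setOf_eq, mem_ball, dist_zero_right]
    constructor
    · intro h
      by_contra h1
      push Not at h1
      rw [h0, dist_zero_left] at h1
      have h2 := pe_anti (δ := δ) h1
      have h3 : pe δ t₀ ≤ s := ht₀
      linarith
    · intro h
      by_contra h1
      push Not at h1
      have h2 : t ∈ C := h1
      have h3 := infDist_le_dist_of_mem (x := (0 : ℂ)) h2
      rw [dist_zero_left] at h3
      linarith

/-! ### Fubini -/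

section

variable {v : ℂ → ℝ} {b δ : ℝ}

lemma pa_v_int (hv : Measurable v) (hb : ∀ z, -b ≤ v z ∧ v z ≤ 0) {S : Set ℂ} (hS : volume S ≠ ⊤) :
    IntegrableOn v S := by
  have : IsFiniteMeasure (volume.restrict S) := ⟨by rwa [Measure.restrict_apply_univ, lt_top_iff_ne_top]⟩
  refine Integrable.of_bound hv.aestronglyMeasurable b ?_
  refine Eventually.of_forall fun z => ?_
  rw [Real.norm_eq_abs, abs_le]
  exact ⟨(hb z).1, by linarith [(hb z).1, (hb z).2]⟩

lemma pa_sh (v : ℂ → ℝ) (x : ℂ) (ρ : ℝ) : ∫ t in ball (0 : ℂ) ρ, v (x - t) = ∫ y in ball x ρ, v y := by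
  rw [← integral_indicator measurableSet_ball, ← integral_indicator measurableSet_ball]
  have h1 : (ball (0 : ℂ) ρ).indicator (fun t => v (x - t)) = fun t => (ball x ρ).indicator v (x - t) := by
    funext t
    by_cases ht : t ∈ ball (0 : ℂ) ρ
    · have h2 : x - t ∈ ball x ρ := by
        rw [mem_ball, dist_eq_norm] at ht ⊢
        simpa using ht
      rw [Set.indicator_of_mem ht, Set.indicator_of_mem h2]
    · have h2 : x - t ∉ ball x ρ := by
        rw [mem_ball, dist_eq_norm] at ht ⊢
        simpa using ht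
      rw [Set.indicator_of_notMem ht, Set.indicator_of_notMem h2]
  rw [h1]
  exact integral_sub_left_eq_self (fun t => (ball x ρ).indicator v t) volume x

lemma pa_sh2 (v : ℂ → ℝ) (c t : ℂ) (r : ℝ) : ∫ x in ball c r, v (x - t) = ∫ y in ball (c - t) r, v y := by
  rw [← integral_indicator measurableSet_ball, ← integral_indicator measurableSet_ball]
  have h1 : (ball c r).indicator (fun x => v (x - t)) = fun x => (ball (c - t) r).indicator v (x - t) := by
    funext x
    by_cases hx : x ∈ ball c r
    · have h2 : x - t ∈ ball (c - t) r := by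
        rw [mem_ball, dist_eq_norm] at hx ⊢
        simpa using hx
      rw [Set.indicator_of_mem hx, Set.indicator_of_mem h2]
    · have h2 : x - t ∉ ball (c - t) r := by
        rw [mem_ball, dist_eq_norm] at hx ⊢
        simpa using hx
      rw [Set.indicator_of_notMem hx, Set.indicator_of_notMem h2]
  rw [h1]
  exact integral_sub_right_eq_self (fun x => (ball (c - t) r).indicator v x) t

lemma pa_fub (hδ : 0 < δ) (hv : Measurable v) (hb : ∀ z, -b ≤ v z ∧ v z ≤ 0) (c : ℂ) (r : ℝ) :
    Integrable (fun t => pe δ t * ∫ y in ball (c - t) r, v y) ∧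
    ∫ x in ball c r, (∫ t, pe δ t * v (x - t)) = ∫ t, pe δ t * ∫ y in ball (c - t) r, v y := by
  have hfin : IsFiniteMeasure (volume.restrict (ball c r)) := ⟨by
    rw [Measure.restrict_apply_univ]
    exact measure_ball_lt_top⟩
  have hI : Integrable (Function.uncurry fun (x t : ℂ) => pe δ t * v (x - t))
      ((volume.restrict (ball c r)).prod volume) := by
    have h1 : Integrable (fun z : ℂ × ℂ => (fun _ : ℂ => b) z.1 * pe δ z.2)
        ((volume.restrict (ball c r)).prod volume) :=
      Integrable.mul_prod (integrable_const b) (pe_integrable hδ)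
    refine h1.mono' ?_ (Eventually.of_forall fun z => ?_)
    · have h2 : Measurable (pe δ) := (pe_cd δ).continuous.measurable
      exact ((h2.comp measurable_snd).mul (hv.comp (measurable_fst.sub measurable_snd))).aestronglyMeasurable
    · simp only [Function.uncurry]
      rw [norm_mul, Real.norm_of_nonneg (pe_nonneg δ _), mul_comm]
      apply mul_le_mul_of_nonneg_right _ (pe_nonneg δ _)
      rw [Real.norm_eq_abs, abs_le]
      have := hb (z.1 - z.2)
      exact ⟨this.1, by linarith [this.1, this.2]⟩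
  have e1 : ∀ t : ℂ, ∫ x in ball c r, pe δ t * v (x - t) = pe δ t * ∫ y in ball (c - t) r, v y := by
    intro t
    rw [integral_const_mul, pa_sh2]
  refine ⟨?_, ?_⟩
  · have := hI.integral_prod_right
    simp only [Function.uncurry] at this
    refine this.congr (Eventually.of_forall fun t => ?_)
    exact e1 t
  · rw [integral_integral_swap hI]
    exact integral_congr_ae (Eventually.of_forall e1)

lemma pa_eta_v (hδ : 0 < δ) (hv : Measurable v) (hb : ∀ z, -b ≤ v z ∧ v z ≤ 0) (x : ℂ) :
    Integrable fun t => pe δ t * v (x - t) := by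
  refine ((pe_integrable hδ).mul_const b).mono' ?_ (Eventually.of_forall fun t => ?_)
  · have h2 : Measurable (pe δ) := (pe_cd δ).continuous.measurable
    exact (h2.mul (hv.comp (measurable_const.sub measurable_id))).aestronglyMeasurable
  · rw [norm_mul, Real.norm_of_nonneg (pe_nonneg δ _)]
    apply mul_le_mul_of_nonneg_left _ (pe_nonneg δ _)
    rw [Real.norm_eq_abs, abs_le]
    have := hb (x - t)
    exact ⟨this.1, by linarith [this.1, this.2]⟩

/-- the layer cake estimate -/
lemma pa_layer (hδ : 0 < δ) (hδ1 : δ ≤ 1 / 2) (hv : Measurable v) (hb : ∀ z, -b ≤ v z ∧ v z ≤ 0)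
    {x : ℂ} (hm : ∀ r : ℝ, 0 < r → r ≤ 1 → v x * (Real.pi * r ^ 2) ≤ ∫ y in ball x r, v y) :
    v x ≤ ∫ t, pe δ t * v (x - t) := by
  have hpm : Measurable (pe δ) := (pe_cd δ).continuous.measurable
  have hfm : Measurable fun t => ENNReal.ofReal (-v (x - t)) :=
    ((hv.comp (measurable_const.sub measurable_id)).neg).ennreal_ofReal
  have hint := pa_eta_v hδ hv hb x
  have h1 : ∫⁻ t, ENNReal.ofReal (pe δ t) ∂(volume.withDensity fun t => ENNReal.ofReal (-v (x - t))) ≤
      ENNReal.ofReal (-v x) := by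
    rw [lintegral_eq_lintegral_meas_lt _ (Eventually.of_forall fun t => pe_nonneg δ t) hpm.aemeasurable]
    have h2 : ∀ s ∈ Set.Ioi (0 : ℝ), (volume.withDensity fun t => ENNReal.ofReal (-v (x - t)))
        {a | s < pe δ a} ≤ ENNReal.ofReal (-v x) * volume {a : ℂ | s < pe δ a} := by
      intro s hs
      obtain ⟨ρ, hρ0, hρ1, hρ⟩ := pe_level hδ hδ1 hs
      rw [hρ, withDensity_apply _ measurableSet_ball]
      rcases hρ0.eq_or_lt with h | h
      · rw [← h]
        simp
      · have hvi : IntegrableOn (fun t => v (x - t)) (ball 0 ρ) := by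
          have : IsFiniteMeasure (volume.restrict (ball (0 : ℂ) ρ)) := ⟨by
            rw [Measure.restrict_apply_univ]
            exact measure_ball_lt_top⟩
          refine Integrable.of_bound (hv.comp (measurable_const.sub measurable_id)).aestronglyMeasurable b ?_
          refine Eventually.of_forall fun z => ?_
          rw [Real.norm_eq_abs, abs_le]
          have := hb (x - z)
          exact ⟨this.1, by linarith [this.1, this.2]⟩
        have hvi' : Integrable (fun t => -v (x - t)) (volume.restrict (ball 0 ρ)) := hvi.neg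
        rw [← ofReal_integral_eq_lintegral_ofReal hvi' (Eventually.of_forall fun t => by
          simp only [Pi.zero_apply]
          linarith [(hb (x - t)).2])]
        have h3 : volume (ball (0 : ℂ) ρ) = ENNReal.ofReal (Real.pi * ρ ^ 2) := by
          rw [Complex.volume_ball, ENNReal.ofReal_mul Real.pi_pos.le, ENNReal.ofReal_pow hρ0, mul_comm]
          congr 1
          rw [ENNReal.ofReal, ← NNReal.coe_real_pi, Real.toNNReal_coe]
        rw [h3, ← ENNReal.ofReal_mul (by linarith [(hb x).2])]
        apply ENNReal.ofReal_le_ofReal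
        have h4 := hm ρ h hρ1
        rw [← pa_sh v x ρ] at h4
        rw [integral_neg]
        linarith
    calc ∫⁻ s in Set.Ioi 0, (volume.withDensity fun t => ENNReal.ofReal (-v (x - t))) {a | s < pe δ a}
        ≤ ∫⁻ s in Set.Ioi 0, ENNReal.ofReal (-v x) * volume {a : ℂ | s < pe δ a} :=
          setLIntegral_mono' measurableSet_Ioi h2
      _ = ENNReal.ofReal (-v x) * ∫⁻ s in Set.Ioi 0, volume {a : ℂ | s < pe δ a} := by
          rw [lintegral_const_mul']
          exact ENNReal.ofReal_ne_top
      _ = ENNReal.ofReal (-v x) * ∫⁻ t, ENNReal.ofReal (pe δ t) := by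
          rw [lintegral_eq_lintegral_meas_lt volume (Eventually.of_forall fun t => pe_nonneg δ t)
            hpm.aemeasurable]
      _ = ENNReal.ofReal (-v x) := by
          rw [← ofReal_integral_eq_lintegral_ofReal (pe_integrable hδ)
            (Eventually.of_forall fun t => pe_nonneg δ t), pe_int hδ]
          simp
  rw [lintegral_withDensity_eq_lintegral_mul _ hfm hpm.ennreal_ofReal] at h1
  have h2 : ∫⁻ t, ((fun t => ENNReal.ofReal (-v (x - t))) * fun t => ENNReal.ofReal (pe δ t)) t =
      ENNReal.ofReal (∫ t, -(pe δ t * v (x - t))) := by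
    have hint' : Integrable (fun t => -(pe δ t * v (x - t))) volume := hint.neg
    rw [ofReal_integral_eq_lintegral_ofReal hint' (Eventually.of_forall fun t => by
      simp only [Pi.zero_apply]
      have := mul_nonneg (pe_nonneg δ t) (by linarith [(hb (x - t)).2] : 0 ≤ -v (x - t))
      linarith)]
    apply lintegral_congr
    intro t
    simp only [Pi.mul_apply]
    rw [← ENNReal.ofReal_mul (by linarith [(hb (x - t)).2])]
    congr 1
    ring
  rw [h2, ENNReal.ofReal_le_ofReal_iff (by linarith [(hb x).2]), integral_neg] at h1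
  linarith

end

/-! ### The Laplacian -/

/-- second order Taylor formula -/
lemma pa_taylor {V : ℂ → ℝ} (hV : ContDiff ℝ ∞ V) (x : ℂ) {om : ℝ} (hom : 0 < om) :
    ∃ r > 0, ∀ y : ℂ, ‖y‖ < r →
      |V (x + y) - V x - fderiv ℝ V x y - 1 / 2 * fderiv ℝ (fderiv ℝ V) x y y| ≤ om * ‖y‖ ^ 2 := by
  have hF : ContDiff ℝ ∞ (fderiv ℝ V) := hV.fderiv_right (by simp)
  have hFd : HasFDerivAt (fderiv ℝ V) (fderiv ℝ (fderiv ℝ V) x) x :=
    ((hF.differentiable (by simp)) x).hasFDerivAt
  set B := fderiv ℝ (fderiv ℝ V) x with hB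
  have hsymm : ∀ a b, B a b = B b a := by
    have hs : IsSymmSndFDerivAt ℝ V x := hV.contDiffAt.isSymmSndFDerivAt (by
      rw [minSmoothness_of_isRCLikeNormedField]
      exact WithTop.coe_le_coe.2 le_top)
    exact fun a b => hs a b
  have h1 := hFd.isLittleO.def hom
  rw [Metric.eventually_nhds_iff] at h1
  obtain ⟨r, hr, h1⟩ := h1
  refine ⟨r, hr, ?_⟩
  intro y hy
  set G : ℂ → ℝ := fun y => V (x + y) - V x - fderiv ℝ V x y - 1 / 2 * B y y with hG
  have hGd : ∀ u : ℂ, HasFDerivAt G (fderiv ℝ V (x + u) - fderiv ℝ V x - B u) u := by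
    intro u
    have a1 : HasFDerivAt (fun y => V (x + y)) (fderiv ℝ V (x + u)) u := by
      have b1 : HasFDerivAt V (fderiv ℝ V (x + u)) (x + u) :=
        ((hV.differentiable (by simp)) (x + u)).hasFDerivAt
      have b2 : HasFDerivAt (fun y : ℂ => x + y) (ContinuousLinearMap.id ℝ ℂ) u :=
        (hasFDerivAt_id u).const_add x
      have b3 := b1.comp u b2
      rw [ContinuousLinearMap.comp_id] at b3
      exact b3
    have a2 : HasFDerivAt (fun y => fderiv ℝ V x y) (fderiv ℝ V x) u := (fderiv ℝ V x).hasFDerivAt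
    have a3 : HasFDerivAt (fun y => B y y) (B u + B.flip u) u := by
      have b1 : HasFDerivAt (fun y => B y) B u := B.hasFDerivAt
      have b2 := b1.clm_apply (hasFDerivAt_id u)
      refine b2.congr_fderiv ?_
      ext w
      simp
    have a4 := ((a1.sub_const (V x)).sub a2).sub (a3.const_mul (1 / 2))
    refine a4.congr_fderiv ?_
    ext w
    simp only [sub_apply, smul_apply, add_apply, ContinuousLinearMap.flip_apply, smul_eq_mul]
    rw [hsymm w u]
    ring
  have hball : ∀ u ∈ closedBall (0 : ℂ) ‖y‖, ‖fderiv ℝ V (x + u) - fderiv ℝ V x - B u‖ ≤ om * ‖y‖ := by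
    intro u hu
    rw [mem_closedBall, dist_zero_right] at hu
    have h2 := h1 (y := x + u) (by
      rw [dist_eq_norm]
      have : x + u - x = u := by ring
      rw [this]
      exact lt_of_le_of_lt hu hy)
    have h3 : x + u - x = u := by ring
    rw [h3] at h2
    exact h2.trans (mul_le_mul_of_nonneg_left hu hom.le)
  have h2 := (convex_closedBall (0 : ℂ) ‖y‖).norm_image_sub_le_of_norm_hasFDerivWithin_le
    (fun u _ => (hGd u).hasFDerivWithinAt) hball (x := 0) (y := y)
    (mem_closedBall_self (norm_nonneg _)) (by rw [mem_closedBall, dist_zero_right])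
  have h3 : G 0 = 0 := by
    simp [hG]
  rw [h3, sub_zero, sub_zero, Real.norm_eq_abs] at h2
  calc |G y| ≤ om * ‖y‖ * ‖y‖ := h2
    _ = _ := by ring

lemma pa_trace {V : ℂ → ℝ} (hV : ContDiff ℝ ∞ V) (x y : ℂ) :
    fderiv ℝ (fderiv ℝ V) x y y + fderiv ℝ (fderiv ℝ V) x (I * y) (I * y) = ‖y‖ ^ 2 * lap V x := by
  have hF : ContDiff ℝ ∞ (fderiv ℝ V) := hV.fderiv_right (by simp)
  have hd : DifferentiableAt ℝ (fderiv ℝ V) x := (hF.differentiable (by simp)) x
  have key : ∀ a b : ℂ, fderiv ℝ (fun w => fderiv ℝ V w a) x b = fderiv ℝ (fderiv ℝ V) x b a := by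
    intro a b
    rw [fderiv_clm_apply hd (differentiableAt_const _)]
    simp
  have hl : lap V x = fderiv ℝ (fderiv ℝ V) x 1 1 + fderiv ℝ (fderiv ℝ V) x I I := by
    unfold lap dx dy
    change fderiv ℝ (fun w => fderiv ℝ V w 1) x 1 + fderiv ℝ (fun w => fderiv ℝ V w I) x I = _
    rw [key, key]
  rw [hl]
  generalize fderiv ℝ (fderiv ℝ V) x = B
  rw [← pb_sq]
  obtain ⟨a, c, ha, hc, h1, h2⟩ : ∃ a c : ℝ, y.re = a ∧ y.im = c ∧ y = a • (1 : ℂ) + c • I ∧
      I * y = (-c) • (1 : ℂ) + a • I :=
    ⟨y.re, y.im, rfl, rfl, by apply Complex.ext <;> simp, by apply Complex.ext <;> simp⟩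
  rw [ha, hc, h2, h1]
  simp only [map_add, map_smul, add_apply, smul_apply, smul_eq_mul]
  ring

/-- the mean value inequality implies that the Laplacian is nonnegative -/
lemma pa_lap {V : ℂ → ℝ} (hV : ContDiff ℝ ∞ V) {x : ℂ}
    (hm : ∀ r : ℝ, 0 < r → r ≤ 1 → V x * (Real.pi * r ^ 2) ≤ ∫ y in ball x r, V y) : 0 ≤ lap V x := by
  by_contra hneg
  push Not at hneg
  set om : ℝ := -lap V x / 8 with hom
  have hom0 : 0 < om := by rw [hom]; linarith
  obtain ⟨r₀, hr₀, hT⟩ := pa_taylor hV x hom0
  set r : ℝ := min (r₀ / 2) 1 with hr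
  have hr0 : 0 < r := by positivity
  have hr1 : r ≤ 1 := min_le_right _ _
  have hrr : r < r₀ := (min_le_left _ _).trans_lt (by linarith)
  have hmr := hm r hr0 hr1
  -- integrals over the rotated balls
  have hVc : Continuous V := hV.continuous
  have hrot : ∀ u : ℂ, ‖u‖ = 1 → ∫ y in ball (0 : ℂ) r, V (x + u * y) = ∫ y in ball x r, V y := by
    intro u hu
    have hu0 : u ≠ 0 := by
      intro h
      rw [h] at hu
      simp at hu
    have a1 : ∫ y in ball x r, V y = ∫ y in ball (0 : ℂ) r, V (x - y) := (pa_sh V x r).symm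
    rw [a1]
    have hU : ∃ e : ℂ ≃ₗᵢ[ℝ] ℂ, ∀ y, e y = -u * y := by
      refine ⟨rotation ⟨-u, by simp [Submonoid.unitSphere, hu]⟩, fun y => ?_⟩
      simp [rotation_apply]
    obtain ⟨e, he⟩ := hU
    have hmp : MeasurePreserving e volume volume := e.measurePreserving
    have hemb : MeasurableEmbedding e := e.toHomeomorph.measurableEmbedding
    have h3 := hmp.setIntegral_preimage_emb hemb (fun y => V (x - y)) (ball (0 : ℂ) r)
    have h4 : e ⁻¹' ball (0 : ℂ) r = ball 0 r := by
      ext y
      simp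
    rw [h4] at h3
    rw [← h3]
    apply setIntegral_congr_fun measurableSet_ball
    intro y _
    simp only [he]
    congr 1
    ring
  have hI1 : ‖(1 : ℂ)‖ = 1 := norm_one
  have hintV : ∀ u : ℂ, IntegrableOn (fun y => V (x + u * y)) (ball 0 r) := by
    intro u
    have hc : Continuous fun y => V (x + u * y) := hVc.comp (by fun_prop)
    exact (hc.continuousOn.integrableOn_compact (isCompact_closedBall (0 : ℂ) r)).mono_set ball_subset_closedBall
  have hintN : IntegrableOn (fun y : ℂ => ‖y‖ ^ 2) (ball 0 r) := by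
    have hc : Continuous fun y : ℂ => ‖y‖ ^ 2 := by fun_prop
    exact (hc.continuousOn.integrableOn_compact (isCompact_closedBall (0 : ℂ) r)).mono_set ball_subset_closedBall
  -- the pointwise inequality
  have hpt : ∀ y ∈ ball (0 : ℂ) r, V (x + 1 * y) + V (x + I * y) + V (x + (-1) * y) + V (x + (-I) * y) ≤
      4 * V x - 4 * om * ‖y‖ ^ 2 := by
    intro y hy
    have hyn : ‖y‖ < r₀ := by
      rw [mem_ball, dist_zero_right] at hy
      linarith
    have hIy : ‖I * y‖ = ‖y‖ := by simp
    have t1 := (abs_le.1 (hT y hyn)).2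
    have t2 := (abs_le.1 (hT (I * y) (by rwa [hIy]))).2
    have t3 := (abs_le.1 (hT (-y) (by rwa [norm_neg]))).2
    have t4 := (abs_le.1 (hT (-(I * y)) (by rwa [norm_neg, hIy]))).2
    rw [hIy] at t2
    rw [norm_neg] at t3
    rw [norm_neg, hIy] at t4
    simp only [map_neg, neg_apply] at t3 t4
    have htr := pa_trace hV x y
    have e1 : x + 1 * y = x + y := by ring
    have e2 : x + (-1) * y = x + -y := by ring
    have e3 : x + (-I) * y = x + -(I * y) := by ring
    rw [e1, e2, e3]
    have hl : lap V x = -8 * om := by rw [hom]; ring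
    rw [hl] at htr
    linarith
  have hsum : ∫ y in ball (0 : ℂ) r, (V (x + 1 * y) + V (x + I * y) + V (x + (-1) * y) + V (x + (-I) * y)) =
      4 * ∫ y in ball x r, V y := by
    have hii : IntegrableOn (fun y => V (x + 1 * y) + V (x + I * y)) (ball 0 r) := (hintV 1).add (hintV I)
    have hiii : IntegrableOn (fun y => V (x + 1 * y) + V (x + I * y) + V (x + (-1) * y)) (ball 0 r) :=
      hii.add (hintV (-1))
    rw [integral_add hiii (hintV (-I)), integral_add hii (hintV (-1)), integral_add (hintV 1) (hintV I),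
      hrot 1 hI1, hrot I (by simp), hrot (-1) (by simp), hrot (-I) (by simp)]
    ring
  have hmono : ∫ y in ball (0 : ℂ) r, (V (x + 1 * y) + V (x + I * y) + V (x + (-1) * y) + V (x + (-I) * y)) ≤
      ∫ y in ball (0 : ℂ) r, (4 * V x - 4 * om * ‖y‖ ^ 2) := by
    apply setIntegral_mono_on _ _ measurableSet_ball hpt
    · exact (((hintV 1).add (hintV I)).add (hintV (-1))).add (hintV (-I))
    · apply Integrable.sub
      · have : IsFiniteMeasure (volume.restrict (ball (0 : ℂ) r)) := ⟨by
          rw [Measure.restrict_apply_univ]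
          exact measure_ball_lt_top⟩
        exact integrable_const _
      · exact hintN.const_mul (4 * om)
  have hright : ∫ y in ball (0 : ℂ) r, (4 * V x - 4 * om * ‖y‖ ^ 2) =
      4 * V x * (Real.pi * r ^ 2) - 4 * om * ∫ y in ball (0 : ℂ) r, ‖y‖ ^ 2 := by
    have hfin : IsFiniteMeasure (volume.restrict (ball (0 : ℂ) r)) := ⟨by
      rw [Measure.restrict_apply_univ]
      exact measure_ball_lt_top⟩
    have hcm : ∫ y in ball (0 : ℂ) r, 4 * om * ‖y‖ ^ 2 = 4 * om * ∫ y in ball (0 : ℂ) r, ‖y‖ ^ 2 :=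
      integral_const_mul _ _
    rw [integral_sub (integrable_const _) (hintN.const_mul (4 * om)), hcm, setIntegral_const]
    have hvol : volume.real (ball (0 : ℂ) r) = Real.pi * r ^ 2 := by
      rw [Measure.real, Complex.volume_ball, ENNReal.toReal_mul, ENNReal.toReal_pow,
        ENNReal.toReal_ofReal hr0.le]
      simp
      ring
    rw [hvol, smul_eq_mul]
    ring
  have hpos : 0 < ∫ y in ball (0 : ℂ) r, ‖y‖ ^ 2 := by
    rw [setIntegral_pos_iff_support_of_nonneg_ae (Eventually.of_forall fun y => by positivity) hintN]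
    have h1 : ball (((r / 2 : ℝ) : ℂ)) (r / 4) ⊆ Function.support (fun y : ℂ => ‖y‖ ^ 2) ∩ ball 0 r := by
      intro y hy
      rw [mem_ball, dist_eq_norm] at hy
      have h2 : ‖((r / 2 : ℝ) : ℂ)‖ = r / 2 := by
        rw [Complex.norm_real, Real.norm_of_nonneg (by positivity)]
      refine ⟨?_, ?_⟩
      · rw [Function.mem_support]
        intro h3
        have h4 : ‖y‖ = 0 := by
          have := pow_eq_zero_iff (n := 2) (by norm_num) |>.1 h3
          exact this
        have h5 : y = 0 := norm_eq_zero.1 h4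
        rw [h5, zero_sub, norm_neg, h2] at hy
        linarith
      · rw [mem_ball, dist_zero_right]
        have h3 : ‖y‖ ≤ ‖y - ((r / 2 : ℝ) : ℂ)‖ + ‖((r / 2 : ℝ) : ℂ)‖ := by
          have := norm_add_le (y - ((r / 2 : ℝ) : ℂ)) ((r / 2 : ℝ) : ℂ)
          simpa using this
        linarith
    exact lt_of_lt_of_le (measure_ball_pos volume _ (by positivity)) (measure_mono h1)
  rw [hsum, hright] at hmono
  nlinarith

theorem tpa : PA := by
  intro v b δ hδ hδ1 hv hb hmean
  refine ⟨fun x => ∫ t, pe δ t * v (x - t), ?_, ?_, ?_, ?_, ?_⟩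
  · have hloc : LocallyIntegrable v volume := by
      intro x
      exact ⟨ball x 1, ball_mem_nhds x one_pos, pa_v_int hv hb measure_ball_lt_top.ne⟩
    have h1 := (pe_supp hδ).contDiff_convolution_left (n := ⊤) (ContinuousLinearMap.mul ℝ ℝ)
      (pe_cd δ) hloc (μ := volume)
    exact h1
  · intro x
    apply integral_nonpos
    intro t
    exact mul_nonpos_of_nonneg_of_nonpos (pe_nonneg δ t) (hb _).2
  · intro x hx
    rw [mem_ball, dist_zero_right] at hx
    refine ⟨?_, ?_⟩
    · exact pa_layer hδ hδ1 hv hb fun r hr hr1 => hmean x (by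
        rw [mem_ball, dist_zero_right]; linarith) r hr hr1
    · apply pa_lap
      · have hloc : LocallyIntegrable v volume := by
          intro x
          exact ⟨ball x 1, ball_mem_nhds x one_pos, pa_v_int hv hb measure_ball_lt_top.ne⟩
        have h1 := (pe_supp hδ).contDiff_convolution_left (n := ⊤) (ContinuousLinearMap.mul ℝ ℝ)
          (pe_cd δ) hloc (μ := volume)
        exact h1
      · intro r hr hr1
        obtain ⟨i1, e1⟩ := pa_fub hδ hv hb x r
        rw [e1, ← integral_mul_const]
        apply integral_mono ((pa_eta_v hδ hv hb x).mul_const _) i1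
        intro t
        dsimp only
        rw [mul_assoc]
        by_cases ht : ‖t‖ < δ / 2
        · apply mul_le_mul_of_nonneg_left _ (pe_nonneg δ t)
          apply hmean _ _ r hr hr1
          rw [mem_ball, dist_zero_right]
          have := norm_sub_le x t
          linarith
        · push Not at ht
          rw [pe_off hδ ht]
          simp
  · obtain ⟨i1, e1⟩ := pa_fub hδ hv hb 0 5
    rw [integral_neg, e1, ← integral_neg]
    have h1 : ∫ x in ball (0 : ℂ) 8, -v x = ∫ t, pe δ t * ∫ x in ball (0 : ℂ) 8, -v x := by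
      rw [integral_mul_const, pe_int hδ, one_mul]
    rw [h1]
    apply integral_mono i1.neg ((pe_integrable hδ).mul_const _)
    intro t
    simp only [Pi.neg_apply]
    rw [← mul_neg, ← integral_neg]
    by_cases ht : ‖t‖ < δ / 2
    · apply mul_le_mul_of_nonneg_left _ (pe_nonneg δ t)
      apply setIntegral_mono_set (pa_v_int hv hb measure_ball_lt_top.ne).neg
      · exact Eventually.of_forall fun z => by
          simp only [Pi.zero_apply, Pi.neg_apply]
          linarith [(hb z).2]
      · refine Eventually.of_forall ?_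
        intro y hy
        change y ∈ ball (0 : ℂ) 8
        replace hy : y ∈ ball (0 - t) 5 := hy
        rw [mem_ball, dist_eq_norm] at hy ⊢
        rw [sub_zero]
        have h2 : y = (y - (0 - t)) + (0 - t) := by ring
        rw [h2]
        have h3 := norm_add_le (y - (0 - t)) (0 - t)
        rw [zero_sub, norm_neg] at h3
        rw [zero_sub] at hy ⊢
        linarith
    · push Not at ht
      rw [pe_off hδ ht]
      simp
  · intro x hx ζ c hc
    have hl : Integrable fun t => pe δ t * (conj ζ * (x - t)).re := by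
      have hc : Continuous fun t => pe δ t * (conj ζ * (x - t)).re :=
        (pe_cd δ).continuous.mul (by fun_prop)
      exact hc.integrable_of_hasCompactSupport (pe_supp hδ).mul_right
    have hodd : ∫ t, pe δ t * (conj ζ * t).re = 0 := by
      have h1 : ∫ t, pe δ t * (conj ζ * t).re = ∫ t, pe δ (-t) * (conj ζ * (-t)).re :=
        (integral_neg_eq_self (fun t => pe δ t * (conj ζ * t).re) volume).symm
      have h2 : ∫ t, pe δ (-t) * (conj ζ * (-t)).re = -∫ t, pe δ t * (conj ζ * t).re := by
        rw [← integral_neg]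
        apply integral_congr_ae
        refine Eventually.of_forall fun t => ?_
        simp only [pe_neg, mul_neg, Complex.neg_re]
      linarith
    have hlin : ∫ t, pe δ t * (conj ζ * (x - t)).re = (conj ζ * x).re := by
      have hi2 : Integrable fun t => pe δ t * (conj ζ * t).re := by
        have hc : Continuous fun t => pe δ t * (conj ζ * t).re :=
          (pe_cd δ).continuous.mul (by fun_prop)
        exact hc.integrable_of_hasCompactSupport (pe_supp hδ).mul_right
      have h1 : (fun t => pe δ t * (conj ζ * (x - t)).re) = fun t =>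
          pe δ t * (conj ζ * x).re - pe δ t * (conj ζ * t).re := by
        funext t
        rw [mul_sub (conj ζ), Complex.sub_re]
        ring
      rw [h1, integral_sub ((pe_integrable hδ).mul_const _) hi2, hodd, integral_mul_const, pe_int hδ]
      ring
    have h1 : (∫ t, pe δ t * v (x - t)) - (conj ζ * x).re =
        ∫ t, pe δ t * (v (x - t) - (conj ζ * (x - t)).re) := by
      rw [← hlin, ← integral_sub (pa_eta_v hδ hv hb x) hl]
      apply integral_congr_ae
      refine Eventually.of_forall fun t => ?_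
      dsimp only
      ring
    dsimp only
    rw [h1]
    have h2 : c = ∫ t, pe δ t * c := by
      rw [integral_mul_const, pe_int hδ, one_mul]
    rw [h2]
    apply integral_mono _ ((pe_integrable hδ).mul_const c)
    · intro t
      dsimp only
      by_cases ht : ‖t‖ < δ / 2
      · apply mul_le_mul_of_nonneg_left _ (pe_nonneg δ t)
        apply hc
        rw [mem_ball, dist_eq_norm]
        have : x - t - x = -t := by ring
        rw [this, norm_neg]
        linarith
      · push Not at ht
        rw [pe_off hδ ht]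
        simp
    · have := (pa_eta_v hδ hv hb x).sub hl
      refine this.congr (Eventually.of_forall fun t => ?_)
      simp only [Pi.sub_apply]
      ring

end Pool.Agent.Q73.AD
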