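import Pool.Agent.Q73.AD.YPBa

/-!
# PB: representation by a logarithmic potential (helper285)
-/

set_option autoImplicit false
open MeasureTheory Filter Topology Complex Metric
open scoped ContDiff ComplexConjugate

namespace Pool.Agent.Q73.AD

open Pool.Agent.Q73.NL

namespace PBx

/-- the gradient of the cut-off -/
noncomputable def ga (χ : ℂ → ℝ) (y : ℂ) : ℂ := (dx χ y : ℂ) + (dy χ y : ℂ) * I

/-- the kernel -/
noncomputable def KK (χ : ℂ → ℝ) (x y : ℂ) : ℝ :=
  2 * (ga χ y / (y - x)).re + lap χ y * Real.log ‖y - x‖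

/-- its derivative -/
noncomputable def DD (χ : ℂ → ℝ) (p y : ℂ) : ℂ :=
  2 * ga χ y / (y - p) ^ 2 - (lap χ y : ℂ) / (y - p)

/-- cut-off functions -/
structure Cut (χ : ℂ → ℝ) (k : ℝ) : Prop where
  cd : ContDiff ℝ ∞ χ
  cs : HasCompactSupport χ
  nonneg : ∀ x, 0 ≤ χ x
  one : ∀ x ∈ ball (0 : ℂ) 4, χ x = 1
  supp : tsupport χ ⊆ closedBall 0 (9 / 2)
  k0 : 0 ≤ k
  ga_le : ∀ y, ‖ga χ y‖ ≤ k
  lap_le : ∀ y, |lap χ y| ≤ k

theorem exists_cut : ∃ (χ : ℂ → ℝ) (k : ℝ), Cut χ k := by
  let f : ContDiffBump (0 : ℂ) := ⟨4, 9 / 2, by norm_num, by norm_num⟩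
  have hcd : ContDiff ℝ ∞ (f : ℂ → ℝ) := f.contDiff
  obtain ⟨c, hc0, hc⟩ := bdd_derivs hcd f.hasCompactSupport
  refine ⟨f, Real.sqrt c, hcd, f.hasCompactSupport, fun x => f.nonneg, fun x hx => ?_, ?_,
    Real.sqrt_nonneg _, fun y => ?_, fun y => ?_⟩
  · exact f.one_of_mem_closedBall (ball_subset_closedBall hx)
  · rw [f.tsupport_eq]
  · refine Real.le_sqrt_of_sq_le ?_
    have h1 := (hc y).1
    have h2 : ‖ga (f : ℂ → ℝ) y‖ ^ 2 = dx f y ^ 2 + dy f y ^ 2 := by
      rw [← Complex.normSq_eq_norm_sq, Complex.normSq_apply]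
      unfold ga
      simp
      ring
    rw [h2]
    exact h1
  · refine Real.le_sqrt_of_sq_le ?_
    rw [sq_abs]
    exact (hc y).2

variable {χ : ℂ → ℝ} {k : ℝ}

lemma Cut.zero (h : Cut χ k) {y : ℂ} (hy : ¬ (4 ≤ ‖y‖ ∧ ‖y‖ ≤ 9 / 2)) :
    dx χ y = 0 ∧ dy χ y = 0 ∧ lap χ y = 0 := by
  by_cases h4 : 4 ≤ ‖y‖
  · refine lap_zero_of fun h1 => hy ⟨h4, ?_⟩
    have := h.supp h1
    rwa [mem_closedBall, dist_zero_right] at this
  · have h1 : χ =ᶠ[𝓝 y] fun _ => 1 := by
      have : ball (0 : ℂ) 4 ∈ 𝓝 y := isOpen_ball.mem_nhds (by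
        rw [mem_ball, dist_zero_right]
        exact not_le.1 h4)
      filter_upwards [this] with z hz
      exact h.one z hz
    exact ev_const h1

lemma Cut.ga_zero (h : Cut χ k) {y : ℂ} (hy : ¬ (4 ≤ ‖y‖ ∧ ‖y‖ ≤ 9 / 2)) : ga χ y = 0 := by
  unfold ga
  rw [(h.zero hy).1, (h.zero hy).2.1]
  simp

lemma dist_ge {x y : ℂ} (hx : x ∈ ball (0 : ℂ) 3) (hy : 4 ≤ ‖y‖ ∧ ‖y‖ ≤ 9 / 2) :
    1 ≤ ‖y - x‖ ∧ ‖y - x‖ ≤ 8 := by
  rw [mem_ball, dist_zero_right] at hx
  have h1 := norm_sub_norm_le y x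
  have h2 := norm_sub_le y x
  constructor <;> linarith [hy.1, hy.2]

lemma log_le {t : ℝ} (h1 : 1 ≤ t) (h8 : t ≤ 8) : |Real.log t| ≤ 3 := by
  rw [abs_of_nonneg (Real.log_nonneg h1)]
  have h2 := Real.log_le_log (by linarith) h8
  have h3 : Real.log 8 = 3 * Real.log 2 := by
    rw [show (8 : ℝ) = 2 ^ 3 by norm_num, Real.log_pow]
    norm_num
  have h4 := Real.log_two_lt_d9
  linarith

lemma Cut.KK_le (h : Cut χ k) {x : ℂ} (hx : x ∈ ball (0 : ℂ) 3) (y : ℂ) : ‖KK χ x y‖ ≤ 5 * k := by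
  by_cases hy : 4 ≤ ‖y‖ ∧ ‖y‖ ≤ 9 / 2
  · obtain ⟨d1, d2⟩ := dist_ge hx hy
    unfold KK
    refine (norm_add_le _ _).trans ?_
    have h1 : ‖2 * (ga χ y / (y - x)).re‖ ≤ 2 * k := by
      rw [norm_mul, Real.norm_eq_abs, Real.norm_eq_abs, abs_two]
      refine mul_le_mul_of_nonneg_left ?_ (by norm_num)
      refine (Complex.abs_re_le_norm _).trans ?_
      rw [norm_div]
      exact (div_le_self (norm_nonneg _) d1).trans (h.ga_le y)
    have h2 : ‖lap χ y * Real.log ‖y - x‖‖ ≤ k * 3 := by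
      rw [norm_mul]
      exact mul_le_mul (h.lap_le y) (log_le d1 d2) (norm_nonneg _) h.k0
    linarith
  · unfold KK
    rw [h.ga_zero hy, (h.zero hy).2.2]
    simp only [zero_div, Complex.zero_re, mul_zero, zero_mul, add_zero, norm_zero]
    linarith [h.k0]

lemma Cut.DD_le (h : Cut χ k) {x : ℂ} (hx : x ∈ ball (0 : ℂ) 3) (y : ℂ) : ‖DD χ x y‖ ≤ 3 * k := by
  by_cases hy : 4 ≤ ‖y‖ ∧ ‖y‖ ≤ 9 / 2
  · obtain ⟨d1, d2⟩ := dist_ge hx hy
    unfold DD
    refine (norm_sub_le _ _).trans ?_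
    have h1 : ‖2 * ga χ y / (y - x) ^ 2‖ ≤ 2 * k := by
      rw [norm_div, norm_pow, norm_mul, Complex.norm_ofNat]
      refine (div_le_self (by positivity) (one_le_pow₀ d1)).trans ?_
      exact mul_le_mul_of_nonneg_left (h.ga_le y) (by norm_num)
    have h2 : ‖(lap χ y : ℂ) / (y - x)‖ ≤ k := by
      rw [norm_div, Complex.norm_real]
      exact (div_le_self (norm_nonneg _) d1).trans (h.lap_le y)
    linarith
  · unfold DD
    rw [h.ga_zero hy, (h.zero hy).2.2]
    simp only [mul_zero, zero_div, Complex.ofReal_zero, sub_self, norm_zero]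
    linarith [h.k0]

/-- the second order Taylor formula for the logarithm -/
lemma log_taylor {u v : ℂ} (hu : 1 ≤ ‖u‖) (hv : 1 ≤ ‖v‖) (hu8 : ‖u‖ ≤ 8) (hv8 : ‖v‖ ≤ 8) :
    |Real.log ‖u‖ - Real.log ‖v‖ + ((v - u) / v).re| ≤ 36 * ‖v - u‖ ^ 2 := by
  have hv0 : v ≠ 0 := by
    rintro rfl
    rw [norm_zero] at hv
    norm_num at hv
  obtain ⟨s, hs⟩ : ∃ s, s = (v - u) / v := ⟨_, rfl⟩
  have hsv : ‖s‖ ≤ ‖v - u‖ := by
    rw [hs, norm_div]
    exact div_le_self (norm_nonneg _) hv
  by_cases h : ‖s‖ ≤ 1 / 2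
  · have e1 : u = v * (1 + -s) := by
      rw [hs]
      field_simp
      ring
    have h0 : (1 + -s : ℂ) ≠ 0 := by
      intro h1
      rw [h1, mul_zero] at e1
      rw [e1, norm_zero] at hu
      norm_num at hu
    have e2 : Real.log ‖u‖ = Real.log ‖v‖ + (Complex.log (1 + -s)).re := by
      rw [e1, norm_mul, Real.log_mul (norm_ne_zero_iff.2 hv0) (norm_ne_zero_iff.2 h0), Complex.log_re]
    rw [e2, ← hs]
    have e3 : Real.log ‖v‖ + (Complex.log (1 + -s)).re - Real.log ‖v‖ + s.re =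
        (Complex.log (1 + -s) - -s).re := by
      rw [Complex.sub_re, Complex.neg_re]
      ring
    rw [e3]
    refine (Complex.abs_re_le_norm _).trans ?_
    have h3 := Complex.norm_log_one_add_sub_self_le (z := -s) (by rw [norm_neg]; linarith)
    rw [norm_neg] at h3
    refine h3.trans ?_
    have h4 : (1 - ‖s‖)⁻¹ ≤ 2 := by
      rw [inv_le_comm₀ (by linarith) (by norm_num)]
      linarith
    have h5 : ‖s‖ ^ 2 * (1 - ‖s‖)⁻¹ / 2 ≤ ‖s‖ ^ 2 := by
      have := mul_le_mul_of_nonneg_left h4 (sq_nonneg ‖s‖)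
      linarith
    refine h5.trans ((pow_le_pow_left₀ (norm_nonneg _) hsv 2).trans ?_)
    nlinarith [sq_nonneg ‖v - u‖]
  · have h1 : 1 / 2 < ‖v - u‖ := lt_of_lt_of_le (not_le.1 h) hsv
    rw [← hs]
    have h2 : |s.re| ≤ ‖v - u‖ := (Complex.abs_re_le_norm s).trans hsv
    have h3 := log_le hu hu8
    have h4 := log_le hv hv8
    have h5 : |Real.log ‖u‖ - Real.log ‖v‖ + s.re| ≤ |Real.log ‖u‖| + |Real.log ‖v‖| + |s.re| :=
      (abs_add_le _ _).trans (add_le_add_left (abs_sub _ _) _)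
    nlinarith

lemma Cut.taylor (h : Cut χ k) {x p : ℂ} (hx : x ∈ ball (0 : ℂ) 3) (hp : p ∈ ball (0 : ℂ) 3) (y : ℂ) :
    ‖KK χ x y - KK χ p y - (DD χ p y * (x - p)).re‖ ≤ 38 * k * ‖x - p‖ ^ 2 := by
  by_cases hy : 4 ≤ ‖y‖ ∧ ‖y‖ ≤ 9 / 2
  · obtain ⟨d1, d2⟩ := dist_ge hx hy
    obtain ⟨d3, d4⟩ := dist_ge hp hy
    obtain ⟨u, hu⟩ : ∃ u, u = y - x := ⟨_, rfl⟩
    obtain ⟨v, hv⟩ : ∃ v, v = y - p := ⟨_, rfl⟩
    have hh : x - p = v - u := by rw [hu, hv]; ring
    rw [← hu] at d1 d2
    rw [← hv] at d3 d4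
    have hu0 : u ≠ 0 := by
      rintro h0
      rw [h0, norm_zero] at d1
      norm_num at d1
    have hv0 : v ≠ 0 := by
      rintro h0
      rw [h0, norm_zero] at d3
      norm_num at d3
    have e1 : KK χ x y - KK χ p y - (DD χ p y * (x - p)).re =
        2 * (ga χ y * ((v - u) ^ 2 / (u * v ^ 2))).re +
        lap χ y * (Real.log ‖u‖ - Real.log ‖v‖ + ((v - u) / v).re) := by
      unfold KK DD
      rw [← hu, ← hv, hh]
      have e2 : (2 * ga χ y / v ^ 2 - (lap χ y : ℂ) / v) * (v - u) =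
          2 * (ga χ y * ((v - u) / v ^ 2)) - (lap χ y : ℂ) * ((v - u) / v) := by
        field_simp
      have e3 : ga χ y * ((v - u) ^ 2 / (u * v ^ 2)) = ga χ y / u - ga χ y / v -
          ga χ y * ((v - u) / v ^ 2) := by
        field_simp
      rw [e2, e3, Complex.sub_re, Complex.sub_re, Complex.sub_re, Complex.re_ofReal_mul]
      have e4 : (2 * (ga χ y * ((v - u) / v ^ 2))).re = 2 * (ga χ y * ((v - u) / v ^ 2)).re := by
        rw [Complex.mul_re]
        simp
      rw [e4]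
      ring
    rw [e1, hh]
    refine (norm_add_le _ _).trans ?_
    have h1 : ‖2 * (ga χ y * ((v - u) ^ 2 / (u * v ^ 2))).re‖ ≤ 2 * (k * ‖v - u‖ ^ 2) := by
      rw [norm_mul, Real.norm_eq_abs, Real.norm_eq_abs, abs_two]
      refine mul_le_mul_of_nonneg_left ?_ (by norm_num)
      refine (Complex.abs_re_le_norm _).trans ?_
      rw [norm_mul]
      refine mul_le_mul (h.ga_le y) ?_ (norm_nonneg _) h.k0
      rw [norm_div, norm_pow]
      refine div_le_self (by positivity) ?_
      rw [norm_mul, norm_pow]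
      exact one_le_mul_of_one_le_of_one_le d1 (one_le_pow₀ d3)
    have h2 : ‖lap χ y * (Real.log ‖u‖ - Real.log ‖v‖ + ((v - u) / v).re)‖ ≤
        k * (36 * ‖v - u‖ ^ 2) := by
      rw [norm_mul]
      exact mul_le_mul (h.lap_le y) (log_taylor d1 d3 d2 d4) (norm_nonneg _) h.k0
    linarith
  · unfold KK DD
    rw [h.ga_zero hy, (h.zero hy).2.2]
    simp only [zero_div, Complex.zero_re, mul_zero, zero_mul, add_zero, Complex.ofReal_zero, sub_self,
      norm_zero]
    have := h.k0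
    positivity

/-- integrals with a weight in the disc of radius 5 -/
lemma int_bd {E : Type*} [NormedAddCommGroup E] [NormedSpace ℝ E] {V : ℂ → ℝ} {A B : ℝ}
    (hV : Continuous V) (hV0 : ∀ x, V x ≤ 0) (hA : ∫ x in ball (0 : ℂ) 5, -V x ≤ A) (hB : 0 ≤ B)
    {f : ℂ → E} (hf : AEStronglyMeasurable f volume) (hfB : ∀ y, ‖f y‖ ≤ B)
    (hf0 : ∀ y, ¬ (4 ≤ ‖y‖ ∧ ‖y‖ ≤ 9 / 2) → f y = 0) :
    Integrable (fun y => V y • f y) ∧ ‖∫ y, V y • f y‖ ≤ B * A := by
  have hi : IntegrableOn (fun y => -V y) (ball (0 : ℂ) 5) :=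
    (hV.neg.continuousOn.integrableOn_compact (isCompact_closedBall (0 : ℂ) 5)).mono_set
      ball_subset_closedBall
  have hg : Integrable (fun y => B * (ball (0 : ℂ) 5).indicator (fun y => -V y) y) :=
    ((integrable_indicator_iff measurableSet_ball).2 hi).const_mul B
  have hle : ∀ y, ‖V y • f y‖ ≤ B * (ball (0 : ℂ) 5).indicator (fun y => -V y) y := by
    intro y
    by_cases hy : 4 ≤ ‖y‖ ∧ ‖y‖ ≤ 9 / 2
    · rw [Set.indicator_of_mem (by rw [mem_ball, dist_zero_right]; linarith [hy.2]), norm_smul,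
        Real.norm_eq_abs, abs_of_nonpos (hV0 y), mul_comm]
      exact mul_le_mul_of_nonneg_right (hfB y) (by linarith [hV0 y])
    · rw [hf0 y hy, smul_zero, norm_zero]
      refine mul_nonneg hB (Set.indicator_nonneg (fun z _ => ?_) y)
      linarith [hV0 z]
  refine ⟨hg.mono' (hV.aestronglyMeasurable.smul hf) (Eventually.of_forall hle), ?_⟩
  refine (norm_integral_le_of_norm_le hg (Eventually.of_forall hle)).trans ?_
  rw [integral_const_mul, integral_indicator measurableSet_ball]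
  exact mul_le_mul_of_nonneg_left hA hB

lemma ga_cont (hχ : ContDiff ℝ ∞ χ) : Continuous (ga χ) := by
  have h1 : Continuous (dx χ) := (cd_d 1 hχ).continuous
  have h2 : Continuous (dy χ) := (cd_d I hχ).continuous
  unfold ga
  fun_prop

lemma KK_meas (hχ : ContDiff ℝ ∞ χ) (x : ℂ) : Measurable (KK χ x) := by
  have h1 := (ga_cont hχ).measurable
  have h2 := (lap_cd hχ).continuous.measurable
  have h3 : Measurable fun y : ℂ => y - x := measurable_id.sub_const x
  unfold KK
  exact ((Complex.measurable_re.comp (h1.div h3)).const_mul 2).add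
    (h2.mul (Real.measurable_log.comp h3.norm))

lemma DD_meas (hχ : ContDiff ℝ ∞ χ) (x : ℂ) : Measurable (DD χ x) := by
  have h1 := (ga_cont hχ).measurable
  have h2 := (lap_cd hχ).continuous.measurable
  have h3 : Measurable fun y : ℂ => y - x := measurable_id.sub_const x
  unfold DD
  exact ((h1.const_mul 2).div (h3.pow_const 2)).sub ((Complex.measurable_ofReal.comp h2).div h3)

lemma Cut.KK_eq (h : Cut χ k) {x : ℂ} (hx : x ∈ ball (0 : ℂ) 3) (y : ℂ) :
    2 * (dx (psl x) y * dx χ y + dy (psl x) y * dy χ y) + psl x y * lap χ y = KK χ x y := by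
  by_cases hy : 4 ≤ ‖y‖ ∧ ‖y‖ ≤ 9 / 2
  · obtain ⟨d1, d2⟩ := dist_ge hx hy
    have h1 : dx (psl x) y = (1 / (y - x)).re := psl_fderiv (by linarith) 1
    have h2 : dy (psl x) y = (I / (y - x)).re := psl_fderiv (by linarith) I
    have h3 : (ga χ y / (y - x)).re = dx χ y * (1 / (y - x)).re + dy χ y * (I / (y - x)).re := by
      have : ga χ y / (y - x) = (dx χ y : ℂ) * (1 / (y - x)) + (dy χ y : ℂ) * (I / (y - x)) := by
        unfold ga
        ring
      rw [this, Complex.add_re, Complex.re_ofReal_mul, Complex.re_ofReal_mul]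
    unfold KK
    rw [h1, h2, h3, psl_eq (by linarith)]
    ring
  · unfold KK
    rw [h.ga_zero hy, (h.zero hy).1, (h.zero hy).2.1, (h.zero hy).2.2]
    simp

lemma log_int {g : ℂ → ℝ} (hg : Continuous g) (hc : HasCompactSupport g) (x : ℂ) :
    Integrable (fun y => Real.log ‖x - y‖ * g y) := by
  have hg' : Continuous (fun z => g (x + z)) := hg.comp (by fun_prop)
  have hc' : HasCompactSupport (fun z => g (x + z)) := by
    have := hc.comp_homeomorph (Homeomorph.addLeft x)
    exact this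
  have h := Pool.Agent.Helper676.CSLog.locInt_log.integrable_smul_right_of_hasCompactSupport hg' hc'
  have h2 := h.comp_add_left (-x)
  refine h2.congr (Eventually.of_forall fun y => ?_)
  have e1 : ‖-x + y‖ = ‖x - y‖ := by
    rw [← norm_neg]
    ring_nf
  have e2 : x + (-x + y) = y := by ring
  simp only [smul_eq_mul, e1, e2]
  try ring

lemma Cut.repr (h : Cut χ k) {V : ℂ → ℝ} (hV : ContDiff ℝ ∞ V) {x : ℂ} (hx : x ∈ ball (0 : ℂ) 3) :
    2 * Real.pi * V x = (∫ y, Real.log ‖x - y‖ * (χ y * lap V y)) - ∫ y, V y * KK χ x y := by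
  have hF : ContDiff ℝ ∞ (fun y => χ y * V y) := h.cd.mul hV
  have hFc : HasCompactSupport (fun y => χ y * V y) := h.cs.mul_right
  have hG : ContDiff ℝ ∞ (fun y => psl x y * χ y) := (psl_cd x).mul h.cd
  have hGc : HasCompactSupport (fun y => psl x y * χ y) := h.cs.mul_left
  have hx1 : χ x = 1 := h.one x (by
    rw [mem_ball] at hx ⊢
    linarith)
  have f1 := fund hF hFc x
  simp only [hx1, one_mul] at f1
  have f2 := green (psl_cd x) hF hFc
  have f3 := green hV hG hGc
  have cF : Continuous (lap (fun y => χ y * V y)) := (lap_cd hF).continuous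
  have sF : HasCompactSupport (lap (fun y => χ y * V y)) := lap_cs hFc
  have cP : Continuous (psl x) := (psl_cd x).continuous
  have cLP : Continuous (lap (psl x)) := (lap_cd (psl_cd x)).continuous
  have cL : Continuous (fun y => χ y * lap V y) := h.cd.continuous.mul (lap_cd hV).continuous
  have sL : HasCompactSupport (fun y => χ y * lap V y) := h.cs.mul_right
  have i1 : Integrable (fun y => Real.log ‖x - y‖ * (χ y * lap V y)) := log_int cL sL x
  have i2 : Integrable (fun y => Real.log ‖x - y‖ * lap (fun y => χ y * V y) y) := log_int cF sF x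
  have i3 : Integrable (fun y => psl x y * lap (fun y => χ y * V y) y) :=
    (cP.mul cF).integrable_of_hasCompactSupport sF.mul_left
  have i4 : Integrable (fun y => psl x y * (χ y * lap V y)) :=
    (cP.mul cL).integrable_of_hasCompactSupport sL.mul_left
  have i5 : Integrable (fun y => V y * lap (fun y => psl x y * χ y) y) :=
    (hV.continuous.mul (lap_cd hG).continuous).integrable_of_hasCompactSupport (lap_cs hGc).mul_left
  have i6 : Integrable (fun y => lap (psl x) y * (χ y * V y)) :=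
    (cLP.mul hF.continuous).integrable_of_hasCompactSupport hFc.mul_left
  have e1 : ∀ y, Real.log ‖x - y‖ * lap (fun y => χ y * V y) y -
      Real.log ‖x - y‖ * (χ y * lap V y) =
      psl x y * lap (fun y => χ y * V y) y - psl x y * (χ y * lap V y) := by
    intro y
    by_cases hy : 4 ≤ ‖y‖ ∧ ‖y‖ ≤ 9 / 2
    · rw [psl_eq (by linarith [(dist_ge hx hy).1]), norm_sub_rev]
    · have : lap (fun y => χ y * V y) y = χ y * lap V y := by
        rw [lap_mul h.cd.contDiffAt hV.contDiffAt, (h.zero hy).1, (h.zero hy).2.1, (h.zero hy).2.2]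
        ring
      rw [this, sub_self, sub_self]
  have e2 : ∀ y, V y * KK χ x y =
      V y * lap (fun y => psl x y * χ y) y - lap (psl x) y * (χ y * V y) := by
    intro y
    rw [← h.KK_eq hx y, lap_mul (psl_cd x).contDiffAt h.cd.contDiffAt]
    ring
  have e3 : (∫ y, Real.log ‖x - y‖ * lap (fun y => χ y * V y) y) -
      ∫ y, Real.log ‖x - y‖ * (χ y * lap V y) =
      (∫ y, psl x y * lap (fun y => χ y * V y) y) - ∫ y, psl x y * (χ y * lap V y) := by
    rw [← integral_sub i2 i1, ← integral_sub i3 i4]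
    exact integral_congr_ae (Eventually.of_forall e1)
  have e4 : ∫ y, V y * KK χ x y =
      (∫ y, V y * lap (fun y => psl x y * χ y) y) - ∫ y, lap (psl x) y * (χ y * V y) := by
    rw [← integral_sub i5 i6]
    exact integral_congr_ae (Eventually.of_forall e2)
  have e5 : ∫ y, lap V y * (psl x y * χ y) = ∫ y, psl x y * (χ y * lap V y) :=
    integral_congr_ae (Eventually.of_forall fun y => by ring)
  rw [e4, f3, e5, ← f2, ← f1]
  linarith

end PBx

open PBx in
theorem tpb : PB := by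
  obtain ⟨χ, k, h⟩ := exists_cut
  have hk := h.k0
  refine ⟨38 * k + 1, by linarith, fun V A hV hV0 hlap hA => ?_⟩
  have hA0 : 0 ≤ A := le_trans (setIntegral_nonneg measurableSet_ball fun x _ => by linarith [hV0 x]) hA
  have hpi : 0 < Real.pi := Real.pi_pos
  have hpi3 := Real.pi_gt_three
  obtain ⟨c, hc⟩ : ∃ c : ℝ, c = (2 * Real.pi)⁻¹ := ⟨_, rfl⟩
  have hc0 : 0 ≤ c := by rw [hc]; positivity
  have hc1 : c ≤ 1 := by
    rw [hc]
    exact inv_le_one_of_one_le₀ (by linarith)
  have hcc : c * (2 * Real.pi) = 1 := by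
    rw [hc]
    field_simp
  have hkA : 0 ≤ k * A := mul_nonneg hk hA0
  have hm1 : Continuous (fun y => χ y * lap V y) := h.cd.continuous.mul (lap_cd hV).continuous
  have hm2 : HasCompactSupport (fun y => χ y * lap V y) := h.cs.mul_right
  refine ⟨fun y => c * (χ y * lap V y), fun x => -(c * ∫ y, V y * KK χ x y),
    continuous_const.mul hm1, hm2.mul_left, fun y => ?_, ?_, fun x hx => ?_, fun p hp => ?_⟩
  · by_cases hy : y ∈ tsupport χ
    · have h1 := h.supp hy
      have h2 : y ∈ ball (0 : ℂ) 5 := by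
        rw [mem_closedBall] at h1
        rw [mem_ball]
        linarith
      exact mul_nonneg hc0 (mul_nonneg (h.nonneg y) (hlap y h2))
    · simp [image_eq_zero_of_notMem_tsupport hy]
  · obtain ⟨_, h1⟩ := int_bd hV.continuous hV0 hA hk (lap_cd h.cd).continuous.aestronglyMeasurable
      (fun y => (Real.norm_eq_abs _).trans_le (h.lap_le y)) (fun y hy => (h.zero hy).2.2)
    simp only [smul_eq_mul] at h1
    rw [green hV h.cd h.cs] at h1
    rw [integral_const_mul]
    have h2 : ∫ y, χ y * lap V y = ∫ y, lap V y * χ y :=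
      integral_congr_ae (Eventually.of_forall fun y => by ring)
    rw [h2]
    have h3 := (le_abs_self _).trans h1
    have h4 : c * ∫ y, lap V y * χ y ≤ c * (k * A) := mul_le_mul_of_nonneg_left h3 hc0
    have h5 : c * (k * A) ≤ 1 * (k * A) := mul_le_mul_of_nonneg_right hc1 hkA
    nlinarith
  · have h1 := h.repr hV hx
    have h2 : ∫ y, Real.log ‖x - y‖ * (c * (χ y * lap V y)) =
        c * ∫ y, Real.log ‖x - y‖ * (χ y * lap V y) := by
      rw [← integral_const_mul]
      exact integral_congr_ae (Eventually.of_forall fun y => by ring)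
    rw [h2]
    have h3 : V x = c * (2 * Real.pi * V x) := by
      rw [← mul_assoc, hcc, one_mul]
    rw [h3, h1]
    ring
  · have iD := int_bd hV.continuous hV0 hA (by positivity : (0 : ℝ) ≤ 3 * k)
      (DD_meas h.cd p).aestronglyMeasurable (h.DD_le hp) (fun y hy => by
        unfold DD
        rw [h.ga_zero hy, (h.zero hy).2.2]
        simp)
    refine ⟨conj (-((c : ℂ) * ∫ y, V y • DD χ p y)), ?_, fun x hx => ?_⟩
    · rw [RCLike.norm_conj, norm_neg, norm_mul, Complex.norm_real, Real.norm_eq_abs, abs_of_nonneg hc0]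
      have h1 := mul_le_mul hc1 iD.2 (norm_nonneg _) zero_le_one
      nlinarith
    · have hK0 : ∀ x : ℂ, ∀ y, ¬ (4 ≤ ‖y‖ ∧ ‖y‖ ≤ 9 / 2) → KK χ x y = 0 := by
        intro x y hy
        unfold KK
        rw [h.ga_zero hy, (h.zero hy).2.2]
        simp
      have iK : ∀ x ∈ ball (0 : ℂ) 3, Integrable (fun y => V y • KK χ x y) := fun x hx =>
        (int_bd hV.continuous hV0 hA (by positivity : (0 : ℝ) ≤ 5 * k)
          (KK_meas h.cd x).aestronglyMeasurable (h.KK_le hx) (hK0 x)).1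
      have iT := int_bd hV.continuous hV0 hA (f := fun y => KK χ x y - KK χ p y - (DD χ p y * (x - p)).re)
        (by positivity : (0 : ℝ) ≤ 38 * k * ‖x - p‖ ^ 2)
        (((KK_meas h.cd x).sub (KK_meas h.cd p)).sub (Complex.measurable_re.comp
          ((DD_meas h.cd p).mul_const (x - p)))).aestronglyMeasurable (h.taylor hx hp) (fun y hy => by
        unfold DD
        rw [hK0 x y hy, hK0 p y hy, h.ga_zero hy, (h.zero hy).2.2]
        simp)
      have e1 : ((∫ y, V y • DD χ p y) * (x - p)).re = ∫ y, V y * (DD χ p y * (x - p)).re := by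
        rw [← integral_mul_const]
        have h1 := (iD.1.mul_const (x - p))
        rw [← RCLike.re_eq_complex_re, ← integral_re h1]
        refine integral_congr_ae (Eventually.of_forall fun y => ?_)
        simp only [RCLike.re_eq_complex_re, Complex.real_smul, mul_assoc, Complex.re_ofReal_mul]
      have i1 : Integrable (fun y => V y * (DD χ p y * (x - p)).re) := by
        have h1 := (iD.1.mul_const (x - p)).re
        refine h1.congr (Eventually.of_forall fun y => ?_)
        simp only [RCLike.re_eq_complex_re, Complex.real_smul, mul_assoc, Complex.re_ofReal_mul]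
      have e2 : ∫ y, V y • (KK χ x y - KK χ p y - (DD χ p y * (x - p)).re) =
          (∫ y, V y * KK χ x y) - (∫ y, V y * KK χ p y) - ∫ y, V y * (DD χ p y * (x - p)).re := by
        have j1 : Integrable (fun y => V y * KK χ x y) := iK x hx
        have j2 : Integrable (fun y => V y * KK χ p y) := iK p hp
        have j3 : Integrable (fun y => V y * KK χ x y - V y * KK χ p y) := j1.sub j2
        rw [← integral_sub j1 j2, ← integral_sub j3 i1]
        refine integral_congr_ae (Eventually.of_forall fun y => ?_)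
        simp only [smul_eq_mul]
        ring
      have e3 : -(c * ∫ y, V y * KK χ x y) - -(c * ∫ y, V y * KK χ p y) -
          (conj (conj (-((c : ℂ) * ∫ y, V y • DD χ p y))) * (x - p)).re =
          -c * ∫ y, V y • (KK χ x y - KK χ p y - (DD χ p y * (x - p)).re) := by
        rw [Complex.conj_conj, e2, ← e1, neg_mul, Complex.neg_re, mul_assoc, Complex.re_ofReal_mul]
        ring
      rw [e3, abs_mul, abs_neg, abs_of_nonneg hc0]
      have h1 := mul_le_mul hc1 iT.2 (norm_nonneg _) zero_le_one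
      rw [Real.norm_eq_abs] at h1
      have h2 : 0 ≤ A * ‖x - p‖ ^ 2 := by positivity
      nlinarith

end Pool.Agent.Q73.AD
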