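import Pool.Agent.Q73.AD.StmY

/-! Project AY (helper73), job AY-8: sums over separated points in the plane. -/

set_option autoImplicit false

open MeasureTheory Filter Topology Complex Metric

namespace Pool.Agent.Q73.AD

/-- packing -/
lemma pc_count {ι : Type*} (T : Finset ι) (Q : ι → ℂ) (y : ℂ) (D : ℝ) (hD : 1 ≤ D)
    (hsep : ∀ a ∈ T, ∀ b ∈ T, a ≠ b → 1 ≤ ‖Q a - Q b‖) (hT : ∀ a ∈ T, ‖Q a - y‖ ≤ D) :
    (T.card : ℝ) ≤ 9 * D ^ 2 := by
  have hdis : (T : Set ι).PairwiseDisjoint fun a => ball (Q a) (1 / 2) := by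
    intro a ha b hb hab
    apply ball_disjoint_ball
    have := hsep a ha b hb hab
    rw [dist_eq_norm]
    linarith
  have hsub : (⋃ a ∈ T, ball (Q a) (1 / 2)) ⊆ ball y (D + 1 / 2) := by
    intro x hx
    simp only [Set.mem_iUnion] at hx
    obtain ⟨a, ha, hx⟩ := hx
    have h1 := hT a ha
    rw [mem_ball] at hx ⊢
    calc dist x y ≤ dist x (Q a) + dist (Q a) y := dist_triangle _ _ _
      _ < 1 / 2 + D := by
        rw [dist_eq_norm (Q a) y]
        linarith
      _ = D + 1 / 2 := by ring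
  have h2 : volume (⋃ a ∈ T, ball (Q a) (1 / 2)) = ∑ a ∈ T, volume (ball (Q a) (1 / 2)) :=
    measure_biUnion_finset hdis fun b _ => measurableSet_ball
  have h3 : ∑ a ∈ T, volume (ball (Q a) (1 / 2)) ≤ volume (ball y (D + 1 / 2)) := by
    rw [← h2]
    exact measure_mono hsub
  have h4 : ((T.card : ℝ)) * ((1 / 2) ^ 2 * Real.pi) ≤ (D + 1 / 2) ^ 2 * Real.pi := by
    have h5 := ENNReal.toReal_mono (by
      rw [Complex.volume_ball]
      exact ENNReal.mul_ne_top (by simp) (by simp)) h3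
    rw [ENNReal.toReal_sum (fun a _ => by
      rw [Complex.volume_ball]
      exact ENNReal.mul_ne_top (by simp) (by simp))] at h5
    simp only [Complex.volume_ball, ENNReal.toReal_mul, ENNReal.toReal_pow] at h5
    rw [ENNReal.toReal_ofReal (by positivity), ENNReal.toReal_ofReal (by positivity)] at h5
    simpa using h5
  have h6 : (T.card : ℝ) * (1 / 2) ^ 2 ≤ (D + 1 / 2) ^ 2 := by
    have := Real.pi_pos
    by_contra h
    push Not at h
    have := mul_lt_mul_of_pos_right h this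
    linarith
  nlinarith

/-- sums of functions with dyadic majorant -/
lemma pc_sum {ι : Type*} (S : Finset ι) (Q : ι → ℂ) (y : ℂ) (K : ℕ) (f : ℝ → ℝ) (c : ℕ → ℝ)
    (hsep : ∀ a ∈ S, ∀ b ∈ S, a ≠ b → 1 ≤ ‖Q a - Q b‖) (hc : ∀ k, 0 ≤ c k)
    (hf : ∀ t : ℝ, 0 ≤ t → ∀ k : ℕ, t ≤ 2 ^ k → (k = 0 ∨ 2 ^ (k - 1) < t) → f t ≤ c k)
    (hK : ∀ a ∈ S, ‖Q a - y‖ ≤ 2 ^ K) :
    ∑ a ∈ S, f ‖Q a - y‖ ≤ ∑ k ∈ Finset.range (K + 1), c k * (9 * 4 ^ k) := by
  classical
  have h1 : ∀ a ∈ S, f ‖Q a - y‖ ≤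
      ∑ k ∈ Finset.range (K + 1), if ‖Q a - y‖ ≤ 2 ^ k then c k else 0 := by
    intro a ha
    have hex : ∃ k : ℕ, ‖Q a - y‖ ≤ 2 ^ k := ⟨K, hK a ha⟩
    have h2 := Nat.find_spec hex
    have h3 : Nat.find hex ≤ K := Nat.find_min' hex (hK a ha)
    have h4 : f ‖Q a - y‖ ≤ c (Nat.find hex) := by
      apply hf _ (norm_nonneg _) _ h2
      rcases Nat.eq_zero_or_pos (Nat.find hex) with h | h
      · exact Or.inl h
      · right
        have := Nat.find_min hex (m := Nat.find hex - 1) (by omega)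
        push Not at this
        exact this
    refine h4.trans ?_
    have h5 : (if ‖Q a - y‖ ≤ 2 ^ (Nat.find hex) then c (Nat.find hex) else 0) ≤
        ∑ k ∈ Finset.range (K + 1), if ‖Q a - y‖ ≤ 2 ^ k then c k else 0 := by
      apply Finset.single_le_sum (f := fun k => if ‖Q a - y‖ ≤ 2 ^ k then c k else 0)
      · intro i _
        split_ifs
        · exact hc i
        · exact le_rfl
      · rw [Finset.mem_range]
        omega
    rwa [if_pos h2] at h5
  refine (Finset.sum_le_sum h1).trans ?_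
  rw [Finset.sum_comm]
  apply Finset.sum_le_sum
  intro k _
  rw [← Finset.sum_filter, Finset.sum_const, nsmul_eq_mul, mul_comm]
  apply mul_le_mul_of_nonneg_left _ (hc k)
  have h2 : (1 : ℝ) ≤ 2 ^ k := one_le_pow₀ (by norm_num)
  have h3 := pc_count (S.filter fun a => ‖Q a - y‖ ≤ 2 ^ k) Q y (2 ^ k) h2
    (fun a ha b hb hab => hsep a (Finset.mem_filter.1 ha).1 b (Finset.mem_filter.1 hb).1 hab)
    (fun a ha => (Finset.mem_filter.1 ha).2)
  have h4 : ((2 : ℝ) ^ k) ^ 2 = 4 ^ k := by
    rw [← pow_mul, mul_comm, pow_mul]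
    norm_num
  rwa [h4] at h3

theorem tpc : PC := by
  classical
  refine ⟨1000, by norm_num, ?_⟩
  intro M S p hM hp hsep
  have hM1 : (1 : ℝ) ≤ M := by exact_mod_cast hM
  have hM0 : (0 : ℝ) < M := by linarith
  set Q : ℕ × ℕ → ℂ := fun a => (M : ℂ) * p a with hQ
  have hn : ∀ a (y : ℂ), ‖Q a - (M : ℂ) * y‖ = M * ‖p a - y‖ := by
    intro a y
    rw [hQ, ← mul_sub, norm_mul, Complex.norm_natCast]
  have hsepQ : ∀ a ∈ S, ∀ b ∈ S, a ≠ b → 1 ≤ ‖Q a - Q b‖ := by
    intro a ha b hb hab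
    have h1 := hsep a ha b hb hab
    have h2 : ‖Q a - Q b‖ = M * ‖p a - p b‖ := hn a (p b)
    rw [h2]
    rw [div_le_iff₀ hM0] at h1
    linarith
  have hcard : (S.card : ℝ) ≤ 36 * M ^ 2 := by
    have := pc_count S Q 0 (2 * M) (by linarith) hsepQ (by
      intro a ha
      have h1 := hn a 0
      simp only [mul_zero, sub_zero] at h1 ⊢
      rw [h1]
      have := hp a ha
      nlinarith)
    nlinarith
  -- dyadic scale
  obtain ⟨K, hK1, hK2⟩ : ∃ K : ℕ, (2 : ℝ) ^ K ≤ 16 * M ∧ 8 * (M : ℝ) ≤ 2 ^ K := by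
    have hex : ∃ k : ℕ, 8 * (M : ℝ) ≤ 2 ^ k := by
      obtain ⟨k, hk⟩ := pow_unbounded_of_one_lt (8 * (M : ℝ)) (by norm_num : (1 : ℝ) < 2)
      exact ⟨k, hk.le⟩
    refine ⟨Nat.find hex, ?_, Nat.find_spec hex⟩
    rcases Nat.eq_zero_or_pos (Nat.find hex) with h | h
    · rw [h]
      norm_num
      linarith
    · have h1 := Nat.find_min hex (m := Nat.find hex - 1) (by omega)
      push Not at h1
      have h2 : (2 : ℝ) ^ (Nat.find hex) = 2 ^ (Nat.find hex - 1) * 2 := by
        rw [← pow_succ]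
        congr 1
        omega
      rw [h2]
      linarith
  have hKlog : (K : ℝ) + 1 ≤ 10 * (1 + Real.log M) := by
    have h1 : Real.log (2 ^ K) ≤ Real.log (16 * M) := Real.log_le_log (by positivity) hK1
    rw [Real.log_pow, Real.log_mul (by norm_num) hM0.ne'] at h1
    have h2 : Real.log 16 = 4 * Real.log 2 := by
      rw [show (16 : ℝ) = 2 ^ 4 by norm_num, Real.log_pow]
      norm_num
    have h3 := Real.log_two_gt_d9
    have h4 : 0 ≤ Real.log M := Real.log_nonneg hM1
    rw [h2] at h1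
    have h5 : 0 ≤ (K : ℝ) := by positivity
    nlinarith
  have hnear : ∀ y : ℂ, ‖y‖ ≤ 4 → ∀ a ∈ S, ‖Q a - (M : ℂ) * y‖ ≤ 2 ^ K := by
    intro y hy a ha
    rw [hn]
    have h1 : ‖p a - y‖ ≤ 6 := by
      have := norm_sub_le (p a) y
      have := hp a ha
      linarith
    nlinarith
  have hfar : ∀ y : ℂ, ¬ ‖y‖ ≤ 4 → ∀ a ∈ S, 2 * (M : ℝ) ≤ M * ‖p a - y‖ := by
    intro y hy a ha
    push Not at hy
    have h1 : 2 ≤ ‖p a - y‖ := by
      have := norm_sub_norm_le y (p a)
      rw [norm_sub_rev] at this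
      have := hp a ha
      linarith
    nlinarith
  have hlog : 0 ≤ Real.log M := Real.log_nonneg hM1
  refine ⟨by nlinarith, ?_, ?_, ?_⟩
  · intro y
    by_cases hy : ‖y‖ ≤ 4
    · have h1 := pc_sum S Q ((M : ℂ) * y) K (fun t => (1 + t ^ 2)⁻¹) (fun k => 4 * (4 ^ k)⁻¹) hsepQ
        (fun k => by positivity) (by
          intro t ht k h1 h2
          rcases h2 with h2 | h2
          · rw [h2]
            norm_num
            have : (1 + t ^ 2)⁻¹ ≤ 1 := inv_le_one_of_one_le₀ (by nlinarith)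
            linarith
          · rcases Nat.eq_zero_or_pos k with h3 | h3
            · rw [h3]
              norm_num
              have : (1 + t ^ 2)⁻¹ ≤ 1 := inv_le_one_of_one_le₀ (by nlinarith)
              linarith
            · obtain ⟨m, rfl⟩ : ∃ m, k = m + 1 := ⟨k - 1, by omega⟩
              simp only [Nat.add_sub_cancel] at h2
              have h4 : (4 : ℝ) * (4 ^ (m + 1))⁻¹ = (4 ^ m)⁻¹ := by
                rw [pow_succ]
                field_simp
              rw [h4]
              apply inv_anti₀ (by positivity)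
              have h5 : (4 : ℝ) ^ m = (2 ^ m) ^ 2 := by
                rw [← pow_mul, mul_comm, pow_mul]
                norm_num
              rw [h5]
              have h6 : (0 : ℝ) < 2 ^ m := by positivity
              nlinarith)
        (hnear y hy)
      have h2 : ∑ k ∈ Finset.range (K + 1), (4 * ((4 : ℝ) ^ k)⁻¹) * (9 * 4 ^ k) = 36 * ((K : ℝ) + 1) := by
        rw [Finset.sum_congr rfl (g := fun _ => (36 : ℝ))]
        · simp
          ring
        · intro k _
          field_simp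
          norm_num
      rw [h2] at h1
      have h3 : ∑ a ∈ S, (1 + (M * ‖p a - y‖) ^ 2)⁻¹ = ∑ a ∈ S, (1 + ‖Q a - (M : ℂ) * y‖ ^ 2)⁻¹ :=
        Finset.sum_congr rfl fun a _ => by rw [hn]
      rw [h3]
      refine h1.trans ?_
      nlinarith
    · have h1 : ∑ a ∈ S, (1 + (M * ‖p a - y‖) ^ 2)⁻¹ ≤ ∑ a ∈ S, ((M : ℝ) ^ 2)⁻¹ := by
        apply Finset.sum_le_sum
        intro a ha
        apply inv_anti₀ (by positivity)
        have := hfar y hy a ha
        nlinarith
      refine h1.trans ?_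
      rw [Finset.sum_const, nsmul_eq_mul]
      have h2 : (S.card : ℝ) * ((M : ℝ) ^ 2)⁻¹ ≤ 36 := by
        rw [← div_eq_mul_inv, div_le_iff₀ (by positivity)]
        linarith
      nlinarith
  · intro y
    by_cases hy : ‖y‖ ≤ 4
    · have h1 := pc_sum S Q ((M : ℂ) * y) K (fun t => M / (1 + t)) (fun k => 2 * M * (2 ^ k)⁻¹) hsepQ
        (fun k => by positivity) (by
          intro t ht k h1 h2
          rcases Nat.eq_zero_or_pos k with h3 | h3
          · rw [h3]
            norm_num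
            rw [div_le_iff₀ (by positivity)]
            nlinarith
          · have h2' : (2 : ℝ) ^ (k - 1) < t := by
              rcases h2 with h2 | h2
              · omega
              · exact h2
            obtain ⟨m, rfl⟩ : ∃ m, k = m + 1 := ⟨k - 1, by omega⟩
            simp only [Nat.add_sub_cancel] at h2'
            have h4 : 2 * (M : ℝ) * (2 ^ (m + 1))⁻¹ = M / 2 ^ m := by
              rw [pow_succ]
              field_simp
            rw [h4]
            apply div_le_div_of_nonneg_left hM0.le (by positivity)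
            linarith)
        (hnear y hy)
      have h2 : ∑ k ∈ Finset.range (K + 1), (2 * (M : ℝ) * ((2 : ℝ) ^ k)⁻¹) * (9 * 4 ^ k) =
          18 * M * (2 ^ (K + 1) - 1) := by
        have h3 : ∀ k ∈ Finset.range (K + 1), (2 * (M : ℝ) * ((2 : ℝ) ^ k)⁻¹) * (9 * 4 ^ k) =
            18 * M * 2 ^ k := by
          intro k _
          have : (4 : ℝ) ^ k = 2 ^ k * 2 ^ k := by
            rw [← mul_pow]
            norm_num
          rw [this]
          field_simp
          norm_num
        rw [Finset.sum_congr rfl h3, ← Finset.mul_sum]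
        congr 1
        have := geom_sum_eq (by norm_num : (2 : ℝ) ≠ 1) (K + 1)
        rw [this]
        norm_num
      rw [h2] at h1
      have h3 : ∑ a ∈ S, M / (1 + M * ‖p a - y‖) = ∑ a ∈ S, M / (1 + ‖Q a - (M : ℂ) * y‖) :=
        Finset.sum_congr rfl fun a _ => by rw [hn]
      rw [h3]
      refine h1.trans ?_
      rw [pow_succ]
      nlinarith
    · have h1 : ∑ a ∈ S, M / (1 + M * ‖p a - y‖) ≤ ∑ a ∈ S, (1 : ℝ) := by
        apply Finset.sum_le_sum
        intro a ha
        have := hfar y hy a ha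
        rw [div_le_iff₀ (by positivity)]
        nlinarith
      refine h1.trans ?_
      rw [Finset.sum_const, nsmul_eq_mul]
      nlinarith
  · intro y D hD
    have h1 : {a | a ∈ S ∧ M * ‖p a - y‖ ≤ D} = ↑(S.filter fun a => M * ‖p a - y‖ ≤ D) := by
      ext a
      simp
    rw [h1, Set.ncard_coe_finset]
    have h2 := pc_count (S.filter fun a => M * ‖p a - y‖ ≤ D) Q ((M : ℂ) * y) D hD
      (fun a ha b hb hab => hsepQ a (Finset.mem_filter.1 ha).1 b (Finset.mem_filter.1 hb).1 hab)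
      (fun a ha => by
        rw [hn]
        exact (Finset.mem_filter.1 ha).2)
    nlinarith [sq_nonneg D]

end Pool.Agent.Q73.AD
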