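import Pool.Agent.Q73.AD.StmY
import Pool.Agent.Q72.WE.Pot

/-!
# Oscillation of a subharmonic function on small discs after subtracting linear functions
-/

set_option autoImplicit false
open MeasureTheory Filter Topology Complex Metric
open scoped ContDiff ComplexConjugate

namespace Pool.Agent.Q73.AD

open Pool.Agent.Q73.NL

namespace YTR

lemma int_log {m : ℂ → ℝ} (hm : Continuous m) (hs : HasCompactSupport m) (x : ℂ) :
    Integrable (fun y => Real.log ‖x - y‖ * m y) := by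
  have h := (Pool.Agent.Q72.WE.locInt_log x).integrable_smul_right_of_hasCompactSupport hm hs
  refine h.congr (ae_of_all _ fun y => ?_)
  simp only [smul_eq_mul]
  rw [norm_sub_rev]

lemma far_pt {p x y : ℂ} {ρ : ℝ} (hρ : 0 < ρ) (hx : ‖x - p‖ ≤ ρ) (hy : 2 * ρ ≤ ‖p - y‖) :
    |Real.log ‖x - y‖ - Real.log ‖p - y‖ - ((x - p) / (p - y)).re| ≤ ρ ^ 2 / ‖p - y‖ ^ 2 := by
  have hpy : 0 < ‖p - y‖ := by linarith
  have hpy0 : p - y ≠ 0 := norm_pos_iff.1 hpy
  obtain ⟨u, hu⟩ : ∃ u, u = (x - p) / (p - y) := ⟨_, rfl⟩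
  have hun : ‖u‖ ≤ ρ / ‖p - y‖ := by rw [hu, norm_div]; gcongr
  have hu2 : ‖u‖ ≤ 1 / 2 := hun.trans (by rw [div_le_div_iff₀ hpy two_pos]; linarith)
  have hxy : x - y = (p - y) * (1 + u) := by rw [hu]; field_simp; ring
  have h1u : 0 < ‖1 + u‖ := by
    have : ‖(1 : ℂ)‖ ≤ ‖1 + u‖ + ‖u‖ := by
      calc ‖(1 : ℂ)‖ = ‖(1 + u) - u‖ := by congr 1; ring
        _ ≤ _ := norm_sub_le _ _
    rw [norm_one] at this
    linarith
  have h1 : Real.log ‖x - y‖ = Real.log ‖p - y‖ + (Complex.log (1 + u)).re := by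
    rw [hxy, norm_mul, Real.log_mul hpy.ne' h1u.ne', Complex.log_re]
  rw [h1, ← hu]
  have h2 := Complex.norm_log_one_add_sub_self_le (z := u) (by linarith)
  have h3 : ‖u‖ ^ 2 * (1 - ‖u‖)⁻¹ / 2 ≤ ‖u‖ ^ 2 := by
    have h4 : (1 - ‖u‖)⁻¹ ≤ 2 := by
      rw [inv_le_comm₀ (by linarith) two_pos]
      linarith
    have h5 : 0 ≤ ‖u‖ ^ 2 := by positivity
    nlinarith
  calc |Real.log ‖p - y‖ + (Complex.log (1 + u)).re - Real.log ‖p - y‖ - u.re|
      = |(Complex.log (1 + u) - u).re| := by rw [Complex.sub_re]; congr 1; ring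
    _ ≤ ‖Complex.log (1 + u) - u‖ := Complex.abs_re_le_norm _
    _ ≤ ‖u‖ ^ 2 := h2.trans h3
    _ ≤ (ρ / ‖p - y‖) ^ 2 := by gcongr
    _ = _ := div_pow _ _ _

/-- the constant in the lower bound for the means of the logarithm -/
noncomputable def KK : ℝ := ∫ z in ball (0 : ℂ) 1, |Real.log ‖z‖|

lemma KK_nonneg : 0 ≤ KK := integral_nonneg fun _ => abs_nonneg _

/-- the negative part of the logarithm -/
noncomputable def hh (z : ℂ) : ℝ := (ball (0 : ℂ) 1).indicator (fun z => |Real.log ‖z‖|) z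

lemma hh_nonneg (z : ℂ) : 0 ≤ hh z := Set.indicator_nonneg (fun _ _ => abs_nonneg _) z

lemma hh_int : Integrable hh := by
  have h1 : IntegrableOn (fun z : ℂ => Real.log ‖z - 0‖) (closedBall 0 1) :=
    (locallyIntegrable_iff.mp (Pool.Agent.Q72.WE.locInt_log 0)) _ (isCompact_closedBall _ _)
  have h2 : IntegrableOn (fun z : ℂ => |Real.log ‖z‖|) (ball 0 1) := by
    have h3 := (h1.mono_set ball_subset_closedBall).norm
    have h4 : Integrable (fun z : ℂ => |Real.log ‖z‖|) (volume.restrict (ball 0 1)) := by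
      simpa using h3
    exact h4
  exact (integrable_indicator_iff measurableSet_ball).2 h2

lemma hh_integral : ∫ z, hh z = KK := by
  unfold hh KK
  rw [integral_indicator measurableSet_ball]

lemma log_lower {r : ℝ} (hr : 0 < r) (hr1 : r ≤ 1) (x y : ℂ) :
    Real.log r - hh (r⁻¹ • (x - y)) ≤ Real.log ‖x - y‖ := by
  rcases eq_or_ne x y with rfl | hxy
  · rw [sub_self, norm_zero, Real.log_zero]
    have h1 := Real.log_nonpos hr.le hr1
    have h2 := hh_nonneg (r⁻¹ • (0 : ℂ))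
    linarith
  · have h0 : 0 < ‖x - y‖ := norm_pos_iff.2 (sub_ne_zero.2 hxy)
    have hn : ‖r⁻¹ • (x - y)‖ = ‖x - y‖ / r := by
      rw [norm_smul, norm_inv, Real.norm_eq_abs, abs_of_pos hr]
      field_simp
    rcases lt_or_ge ‖x - y‖ r with h | h
    · have h1 : r⁻¹ • (x - y) ∈ ball (0 : ℂ) 1 := by
        rw [mem_ball_zero_iff, hn, div_lt_one hr]
        exact h
      have h2 : hh (r⁻¹ • (x - y)) = |Real.log ‖r⁻¹ • (x - y)‖| := by
        unfold hh
        rw [Set.indicator_of_mem h1]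
      rw [h2, hn, Real.log_div h0.ne' hr.ne']
      linarith [neg_abs_le (Real.log ‖x - y‖ - Real.log r)]
    · have h1 := Real.log_le_log hr h
      have h2 := hh_nonneg (r⁻¹ • (x - y))
      linarith

lemma hh_scaled {r : ℝ} (hr : 0 < r) (y : ℂ) :
    Integrable (fun x => hh (r⁻¹ • (x - y))) ∧ ∫ x, hh (r⁻¹ • (x - y)) = r ^ 2 * KK := by
  constructor
  · exact (hh_int.comp_smul (inv_ne_zero hr.ne')).comp_sub_right y
  · rw [integral_sub_right_eq_self (fun x => hh (r⁻¹ • x)) y,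
      Measure.integral_comp_inv_smul_of_nonneg volume hh hr.le, hh_integral,
      Complex.finrank_real_complex, smul_eq_mul]

lemma vol_ball (p : ℂ) {r : ℝ} (hr : 0 < r) : volume.real (ball p r) = Real.pi * r ^ 2 := by
  rw [Measure.real, Complex.volume_ball, ENNReal.toReal_mul, ENNReal.toReal_pow,
    ENNReal.toReal_ofReal hr.le]
  rw [mul_comm]
  rfl

lemma mean_log {r : ℝ} (hr : 0 < r) (hr1 : r ≤ 1) (p y : ℂ) :
    Real.pi * r ^ 2 * (Real.log r - KK / Real.pi) ≤ ∫ x in ball p r, Real.log ‖x - y‖ := by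
  have hi : IntegrableOn (fun x : ℂ => Real.log ‖x - y‖) (ball p r) :=
    ((locallyIntegrable_iff.mp (Pool.Agent.Q72.WE.locInt_log y)) _
      (isCompact_closedBall p r)).mono_set ball_subset_closedBall
  obtain ⟨h1, h2⟩ := hh_scaled hr y
  have hc : IntegrableOn (fun _ : ℂ => Real.log r) (ball p r) := integrableOn_const (by
    rw [Complex.volume_ball]; exact ENNReal.mul_ne_top ENNReal.coe_ne_top (by simp))
  have h3 : ∫ x in ball p r, (Real.log r - hh (r⁻¹ • (x - y))) ≤ ∫ x in ball p r, Real.log ‖x - y‖ :=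
    setIntegral_mono (hc.sub h1.integrableOn) hi fun x => log_lower hr hr1 x y
  have h4 : ∫ x in ball p r, hh (r⁻¹ • (x - y)) ≤ r ^ 2 * KK := by
    rw [← h2]
    exact setIntegral_le_integral h1 (ae_of_all _ fun x => hh_nonneg _)
  rw [integral_sub hc h1.integrableOn, setIntegral_const, vol_ball p hr, smul_eq_mul] at h3
  have h5 : Real.pi * r ^ 2 * (Real.log r - KK / Real.pi) =
      Real.pi * r ^ 2 * Real.log r - r ^ 2 * KK := by
    have := Real.pi_ne_zero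
    field_simp
  linarith

/-- the near part of the potential is not too small at some point -/
lemma near_lower {m : ℂ → ℝ} (hm : Continuous m) (hs : HasCompactSupport m) (hm0 : ∀ y, 0 ≤ m y)
    {r : ℝ} (hr : 0 < r) (hr1 : r ≤ 1) (p : ℂ) {N : Set ℂ} :
    ∃ x ∈ ball p r, (Real.log r - KK / Real.pi) * ∫ y in N, m y ≤
      ∫ y in N, Real.log ‖x - y‖ * m y := by
  obtain ⟨C, hC⟩ := Pool.Agent.Q72.WE.log_bound hm hs (‖p‖ + r)
  have hmeas : AEStronglyMeasurable (fun q : ℂ × ℂ => Real.log ‖q.1 - q.2‖ * m q.2)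
      ((volume.restrict (ball p r)).prod (volume.restrict N)) := by
    apply Measurable.aestronglyMeasurable
    apply Measurable.mul
    · exact Real.measurable_log.comp (by fun_prop)
    · exact hm.measurable.comp measurable_snd
  have : IsFiniteMeasure (volume.restrict (ball p r)) := ⟨by
    rw [Measure.restrict_apply_univ]; exact measure_ball_lt_top⟩
  have hint : Integrable (fun q : ℂ × ℂ => Real.log ‖q.1 - q.2‖ * m q.2)
      ((volume.restrict (ball p r)).prod (volume.restrict N)) := by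
    rw [integrable_prod_iff hmeas]
    constructor
    · exact Eventually.of_forall fun x => (int_log hm hs x).integrableOn
    · refine Integrable.mono' (integrable_const C) hmeas.norm.integral_prod_right' ?_
      refine (ae_restrict_iff' measurableSet_ball).2 (ae_of_all _ fun x hx => ?_)
      rw [Real.norm_of_nonneg (integral_nonneg fun _ => norm_nonneg _)]
      have hxn : ‖x‖ ≤ ‖p‖ + r := by
        have h2 : ‖x - p‖ < r := by rw [← dist_eq_norm]; exact hx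
        calc ‖x‖ = ‖p + (x - p)‖ := by congr 1; ring
          _ ≤ ‖p‖ + ‖x - p‖ := norm_add_le _ _
          _ ≤ _ := by linarith
      refine le_trans (setIntegral_le_integral (int_log hm hs x).norm
        (ae_of_all _ fun y => norm_nonneg _)) ?_
      refine le_trans (le_of_eq ?_) (hC x hxn)
      congr 1
      ext y
      rw [norm_sub_rev]
  have hf : IntegrableOn (fun x => ∫ y in N, Real.log ‖x - y‖ * m y) (ball p r) := hint.integral_prod_left
  have hvol : volume (ball p r) ≠ 0 := (measure_ball_pos volume p hr).ne'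
  obtain ⟨x, hx, hx2⟩ := exists_setAverage_le hvol measure_ball_lt_top.ne hf
  refine ⟨x, hx, le_trans ?_ hx2⟩
  rw [setAverage_eq, vol_ball p hr, smul_eq_mul]
  have hsw : ∫ x in ball p r, ∫ y in N, Real.log ‖x - y‖ * m y =
      ∫ y in N, ∫ x in ball p r, Real.log ‖x - y‖ * m y := integral_integral_swap hint
  have h1 : Real.pi * r ^ 2 * (Real.log r - KK / Real.pi) * ∫ y in N, m y ≤
      ∫ y in N, ∫ x in ball p r, Real.log ‖x - y‖ * m y := by
    rw [← integral_const_mul]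
    refine integral_mono ((hm.integrable_of_hasCompactSupport hs).integrableOn.const_mul _)
      hint.integral_prod_right fun y => ?_
    simp only
    rw [integral_mul_const]
    exact mul_le_mul_of_nonneg_right (mean_log hr hr1 p y) (hm0 y)
  have hpr : 0 < Real.pi * r ^ 2 := by have := Real.pi_pos; positivity
  rw [hsw, ← div_eq_inv_mul, le_div_iff₀ hpr]
  linarith

lemma near_upper {m : ℂ → ℝ} (hm : Continuous m) (hs : HasCompactSupport m) (hm0 : ∀ y, 0 ≤ m y)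
    {x p : ℂ} {ρ : ℝ} (hx : ‖x - p‖ ≤ ρ) :
    ∫ y in ball p (2 * ρ), Real.log ‖x - y‖ * m y ≤ Real.log (3 * ρ) * ∫ y in ball p (2 * ρ), m y := by
  rw [← integral_const_mul]
  refine setIntegral_mono_on_ae (int_log hm hs x).integrableOn
    ((hm.integrable_of_hasCompactSupport hs).integrableOn.const_mul _) measurableSet_ball ?_
  have hne : ∀ᵐ y : ℂ, y ≠ x := compl_mem_ae_iff.2 (measure_singleton x)
  filter_upwards [hne] with y hy hyb
  refine mul_le_mul_of_nonneg_right ?_ (hm0 y)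
  have h1 : 0 < ‖x - y‖ := norm_pos_iff.2 (sub_ne_zero.2 hy.symm)
  refine Real.log_le_log h1 ?_
  have h2 : ‖y - p‖ < 2 * ρ := by rw [← dist_eq_norm]; exact hyb
  calc ‖x - y‖ = ‖(x - p) - (y - p)‖ := by congr 1; ring
    _ ≤ ‖x - p‖ + ‖y - p‖ := norm_sub_le _ _
    _ ≤ 3 * ρ := by linarith

/-- the far part of the gradient -/
noncomputable def ZZ (m : ℂ → ℝ) (p : ℂ) (ρ : ℝ) : ℂ := ∫ y in (ball p (2 * ρ))ᶜ, (m y : ℂ) / (p - y)

lemma mem_far {p y : ℂ} {ρ : ℝ} (hy : y ∈ (ball p (2 * ρ))ᶜ) : 2 * ρ ≤ ‖p - y‖ := by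
  rw [Set.mem_compl_iff, mem_ball, dist_eq_norm, not_lt, norm_sub_rev] at hy
  exact hy

lemma int_far1 {m : ℂ → ℝ} (hm : Continuous m) (hs : HasCompactSupport m) (hm0 : ∀ y, 0 ≤ m y) (p : ℂ)
    {ρ : ℝ} (hρ : 0 < ρ) : IntegrableOn (fun y => (m y : ℂ) / (p - y)) (ball p (2 * ρ))ᶜ := by
  have h1 := ((hm.integrable_of_hasCompactSupport (μ := volume) hs).integrableOn (s := (ball p (2 * ρ))ᶜ)).const_mul
    (2 * ρ)⁻¹
  refine Integrable.mono' h1 ?_ ?_
  · apply Measurable.aestronglyMeasurable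
    exact (Complex.measurable_ofReal.comp hm.measurable).div (measurable_const.sub measurable_id)
  · refine (ae_restrict_iff' measurableSet_ball.compl).2 (ae_of_all _ fun y hy => ?_)
    have h2 := mem_far hy
    rw [norm_div, Complex.norm_real, Real.norm_of_nonneg (hm0 y), div_eq_inv_mul]
    refine mul_le_mul_of_nonneg_right ?_ (hm0 y)
    exact inv_anti₀ (by linarith) h2

lemma int_far2 {m : ℂ → ℝ} (hm : Continuous m) (hs : HasCompactSupport m) (hm0 : ∀ y, 0 ≤ m y) (p : ℂ)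
    {ρ : ℝ} (hρ : 0 < ρ) : IntegrableOn (fun y => m y / ‖p - y‖ ^ 2) (ball p (2 * ρ))ᶜ := by
  have h1 := ((hm.integrable_of_hasCompactSupport (μ := volume) hs).integrableOn (s := (ball p (2 * ρ))ᶜ)).const_mul
    ((2 * ρ) ^ 2)⁻¹
  refine Integrable.mono' h1 ?_ ?_
  · apply Measurable.aestronglyMeasurable
    exact hm.measurable.div (by fun_prop)
  · refine (ae_restrict_iff' measurableSet_ball.compl).2 (ae_of_all _ fun y hy => ?_)
    have h2 := mem_far hy
    rw [norm_div, Real.norm_of_nonneg (hm0 y), norm_pow, norm_norm, div_eq_inv_mul]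
    refine mul_le_mul_of_nonneg_right ?_ (hm0 y)
    exact inv_anti₀ (by positivity) (pow_le_pow_left₀ (by linarith) h2 2)

lemma far_est {m : ℂ → ℝ} (hm : Continuous m) (hs : HasCompactSupport m) (hm0 : ∀ y, 0 ≤ m y)
    {x p : ℂ} {ρ : ℝ} (hρ : 0 < ρ) (hx : ‖x - p‖ ≤ ρ) :
    |(∫ y in (ball p (2 * ρ))ᶜ, Real.log ‖x - y‖ * m y) -
      (∫ y in (ball p (2 * ρ))ᶜ, Real.log ‖p - y‖ * m y) - (ZZ m p ρ * (x - p)).re| ≤
      ρ ^ 2 * ∫ y in (ball p (2 * ρ))ᶜ, m y / ‖p - y‖ ^ 2 := by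
  have i1 := (int_log hm hs x).integrableOn (s := (ball p (2 * ρ))ᶜ)
  have i2 := (int_log hm hs p).integrableOn (s := (ball p (2 * ρ))ᶜ)
  have i3 := (int_far1 hm hs hm0 p hρ).mul_const (x - p)
  have i4 := int_far2 hm hs hm0 p hρ
  have e1 : (ZZ m p ρ * (x - p)).re =
      ∫ y in (ball p (2 * ρ))ᶜ, ((m y : ℂ) / (p - y) * (x - p)).re := by
    unfold ZZ
    rw [← integral_mul_const]
    exact (Complex.reCLM.integral_comp_comm i3).symm
  have i5 : IntegrableOn (fun y => ((m y : ℂ) / (p - y) * (x - p)).re) (ball p (2 * ρ))ᶜ := i3.re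
  have i12 : Integrable (fun y => Real.log ‖x - y‖ * m y - Real.log ‖p - y‖ * m y)
      (volume.restrict (ball p (2 * ρ))ᶜ) := i1.sub i2
  rw [e1, ← integral_sub i1 i2, ← integral_sub i12 i5, ← integral_const_mul, ← Real.norm_eq_abs]
  refine norm_integral_le_of_norm_le (i4.const_mul _) ?_
  refine (ae_restrict_iff' measurableSet_ball.compl).2 (ae_of_all _ fun y hy => ?_)
  have h1 := far_pt hρ hx (mem_far hy)
  have e2 : ((m y : ℂ) / (p - y) * (x - p)).re = m y * ((x - p) / (p - y)).re := by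
    rw [show (m y : ℂ) / (p - y) * (x - p) = (m y : ℂ) * ((x - p) / (p - y)) by ring,
      Complex.re_ofReal_mul]
  rw [e2, Real.norm_eq_abs]
  calc |Real.log ‖x - y‖ * m y - Real.log ‖p - y‖ * m y - m y * ((x - p) / (p - y)).re|
      = |Real.log ‖x - y‖ - Real.log ‖p - y‖ - ((x - p) / (p - y)).re| * m y := by
        rw [← abs_of_nonneg (hm0 y), ← abs_mul]
        congr 1
        rw [abs_of_nonneg (hm0 y)]
        ring
    _ ≤ ρ ^ 2 / ‖p - y‖ ^ 2 * m y := mul_le_mul_of_nonneg_right h1 (hm0 y)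
    _ = _ := by ring

/-- the function minus the linear part is the near part of the potential, up to an error -/
lemma local_est {V m H : ℂ → ℝ} (hm : Continuous m) (hs : HasCompactSupport m) (hm0 : ∀ y, 0 ≤ m y)
    (hV : ∀ x ∈ ball (0 : ℂ) 3, V x = (∫ y, Real.log ‖x - y‖ * m y) + H x) {p ξ : ℂ} {c ρ : ℝ}
    (hc : 0 ≤ c) (hρ : 0 < ρ) (hp : ‖p‖ + ρ < 3)
    (hH : ∀ x ∈ ball (0 : ℂ) 3, |H x - H p - (conj ξ * (x - p)).re| ≤ c * ‖x - p‖ ^ 2) :
    ∃ k : ℝ, ∀ x : ℂ, ‖x - p‖ ≤ ρ →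
      |V x - (conj (conj (ZZ m p ρ) + ξ) * x).re - (∫ y in ball p (2 * ρ), Real.log ‖x - y‖ * m y) -
        k| ≤ ρ ^ 2 * (∫ y in (ball p (2 * ρ))ᶜ, m y / ‖p - y‖ ^ 2) + c * ρ ^ 2 := by
  refine ⟨(∫ y in (ball p (2 * ρ))ᶜ, Real.log ‖p - y‖ * m y) + H p -
    (conj (conj (ZZ m p ρ) + ξ) * p).re, fun x hx => ?_⟩
  have hx3 : x ∈ ball (0 : ℂ) 3 := by
    rw [mem_ball_zero_iff]
    calc ‖x‖ = ‖p + (x - p)‖ := by congr 1; ring
      _ ≤ ‖p‖ + ‖x - p‖ := norm_add_le _ _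
      _ < 3 := by linarith
  have h1 := hV x hx3
  have h2 := far_est hm hs hm0 hρ hx
  have h3 := hH x hx3
  have h4 : c * ‖x - p‖ ^ 2 ≤ c * ρ ^ 2 := by gcongr
  have h5 : ∫ y, Real.log ‖x - y‖ * m y = (∫ y in ball p (2 * ρ), Real.log ‖x - y‖ * m y) +
      ∫ y in (ball p (2 * ρ))ᶜ, Real.log ‖x - y‖ * m y :=
    (integral_add_compl measurableSet_ball (int_log hm hs x)).symm
  have h6 : (conj (conj (ZZ m p ρ) + ξ) * x).re - (conj (conj (ZZ m p ρ) + ξ) * p).re =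
      (ZZ m p ρ * (x - p)).re + (conj ξ * (x - p)).re := by
    rw [← Complex.sub_re, ← Complex.add_re]
    congr 1
    rw [map_add, Complex.conj_conj]
    ring
  rw [h1, h5]
  rw [abs_le] at h2 h3 ⊢
  constructor <;> linarith [h2.1, h2.2, h3.1, h3.2]

/-- the kernel in the sums over the discs -/
noncomputable def kk (M : ℕ) (p y : ℂ) : ℝ := (1 + (M * ‖p - y‖) ^ 2)⁻¹

lemma kk_nonneg (M : ℕ) (p y : ℂ) : 0 ≤ kk M p y := by unfold kk; positivity

lemma kk_int {m : ℂ → ℝ} (hm : Continuous m) (hs : HasCompactSupport m) (M : ℕ) (p : ℂ) :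
    Integrable (fun y => kk M p y * m y) := by
  refine Continuous.integrable_of_hasCompactSupport ?_ (HasCompactSupport.mul_left hs)
  unfold kk
  refine Continuous.mul (Continuous.inv₀ (by fun_prop) fun y => ?_) hm
  positivity

lemma near_mass {m : ℂ → ℝ} (hm : Continuous m) (hs : HasCompactSupport m) (hm0 : ∀ y, 0 ≤ m y)
    {M : ℕ} (hM : 1 ≤ M) {D : ℝ} (hD : 1 ≤ D) (p : ℂ) :
    ∫ y in ball p (2 * (D / M)), m y ≤ (1 + 4 * D ^ 2) * ∫ y, kk M p y * m y := by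
  have hM0 : (0 : ℝ) < M := by exact_mod_cast hM
  have i1 := (hm.integrable_of_hasCompactSupport (μ := volume) hs).integrableOn
    (s := ball p (2 * (D / M)))
  have i2 := (kk_int hm hs M p).const_mul (1 + 4 * D ^ 2)
  rw [← integral_const_mul]
  refine le_trans (setIntegral_mono_on i1 i2.integrableOn measurableSet_ball fun y hy => ?_)
    (setIntegral_le_integral i2 (ae_of_all _ fun y => ?_))
  · rw [mem_ball, dist_eq_norm, norm_sub_rev] at hy
    have h1 : M * ‖p - y‖ ≤ 2 * D := by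
      calc M * ‖p - y‖ ≤ M * (2 * (D / M)) := by gcongr
        _ = 2 * D := by field_simp
    have h2 : (M * ‖p - y‖) ^ 2 ≤ 4 * D ^ 2 := by
      calc (M * ‖p - y‖) ^ 2 ≤ (2 * D) ^ 2 := by gcongr
        _ = _ := by ring
    have h3 : 1 ≤ (1 + 4 * D ^ 2) * kk M p y := by
      unfold kk
      rw [← div_eq_mul_inv, le_div_iff₀ (by positivity)]
      linarith
    calc m y = 1 * m y := (one_mul _).symm
      _ ≤ (1 + 4 * D ^ 2) * kk M p y * m y := mul_le_mul_of_nonneg_right h3 (hm0 y)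
      _ = _ := by ring
  · have := kk_nonneg M p y
    have := hm0 y
    simp only [Pi.zero_apply]
    positivity

lemma far_mass {m : ℂ → ℝ} (hm : Continuous m) (hs : HasCompactSupport m) (hm0 : ∀ y, 0 ≤ m y)
    {M : ℕ} (hM : 1 ≤ M) {D : ℝ} (hD : 1 ≤ D) (p : ℂ) :
    (D / M) ^ 2 * ∫ y in (ball p (2 * (D / M)))ᶜ, m y / ‖p - y‖ ^ 2 ≤
      2 * D ^ 2 * ∫ y, kk M p y * m y := by
  have hM0 : (0 : ℝ) < M := by exact_mod_cast hM
  have hρ : 0 < D / M := by positivity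
  have i1 := (int_far2 hm hs hm0 p hρ).const_mul ((D / M) ^ 2)
  have i2 := (kk_int hm hs M p).const_mul (2 * D ^ 2)
  rw [← integral_const_mul, ← integral_const_mul]
  refine le_trans (setIntegral_mono_on i1 i2.integrableOn measurableSet_ball.compl fun y hy => ?_)
    (setIntegral_le_integral i2 (ae_of_all _ fun y => ?_))
  · have h0 := mem_far hy
    have h1 : 1 ≤ M * ‖p - y‖ := by
      calc (1 : ℝ) ≤ 2 * D := by linarith
        _ = M * (2 * (D / M)) := by field_simp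
        _ ≤ _ := by gcongr
    have hpy : 0 < ‖p - y‖ := by linarith
    have h2 : (D / M) ^ 2 / ‖p - y‖ ^ 2 ≤ 2 * D ^ 2 * kk M p y := by
      unfold kk
      have h3 : 1 + (M * ‖p - y‖) ^ 2 ≤ 2 * (M * ‖p - y‖) ^ 2 := by nlinarith
      calc (D / M) ^ 2 / ‖p - y‖ ^ 2 = 2 * D ^ 2 * (2 * (M * ‖p - y‖) ^ 2)⁻¹ := by field_simp
        _ ≤ 2 * D ^ 2 * (1 + (M * ‖p - y‖) ^ 2)⁻¹ := by
            refine mul_le_mul_of_nonneg_left (inv_anti₀ (by positivity) h3) (by positivity)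
    calc (D / M) ^ 2 * (m y / ‖p - y‖ ^ 2) = (D / M) ^ 2 / ‖p - y‖ ^ 2 * m y := by ring
      _ ≤ 2 * D ^ 2 * kk M p y * m y := mul_le_mul_of_nonneg_right h2 (hm0 y)
      _ = _ := by ring
  · have := kk_nonneg M p y
    have := hm0 y
    simp only [Pi.zero_apply]
    positivity

lemma l_int {m : ℂ → ℝ} (hm : Continuous m) (hs : HasCompactSupport m) (M : ℕ) (p : ℂ) :
    Integrable (fun y => (M : ℝ) / (1 + M * ‖p - y‖) * m y) := by
  refine Continuous.integrable_of_hasCompactSupport ?_ (HasCompactSupport.mul_left hs)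
  refine Continuous.mul (Continuous.div (by fun_prop) (by fun_prop) fun y => ?_) hm
  positivity

lemma ZZ_le {m : ℂ → ℝ} (hm : Continuous m) (hs : HasCompactSupport m) (hm0 : ∀ y, 0 ≤ m y)
    {M : ℕ} (hM : 1 ≤ M) {D : ℝ} (hD : 1 ≤ D) (p : ℂ) :
    ‖ZZ m p (D / M)‖ ≤ 2 * ∫ y, (M : ℝ) / (1 + M * ‖p - y‖) * m y := by
  have hM0 : (0 : ℝ) < M := by exact_mod_cast hM
  have hρ : 0 < D / M := by positivity
  have i2 := (l_int hm hs M p).const_mul 2
  rw [← integral_const_mul]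
  refine le_trans (norm_integral_le_of_norm_le i2.integrableOn ?_)
    (setIntegral_le_integral i2 (ae_of_all _ fun y => ?_))
  · refine (ae_restrict_iff' measurableSet_ball.compl).2 (ae_of_all _ fun y hy => ?_)
    have h0 := mem_far hy
    have h1 : 1 ≤ M * ‖p - y‖ := by
      calc (1 : ℝ) ≤ 2 * D := by linarith
        _ = M * (2 * (D / M)) := by field_simp
        _ ≤ _ := by gcongr
    have hpy : 0 < ‖p - y‖ := by linarith
    rw [norm_div, Complex.norm_real, Real.norm_of_nonneg (hm0 y)]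
    have h2 : 1 / ‖p - y‖ ≤ 2 * (M / (1 + M * ‖p - y‖)) := by
      rw [← mul_div_assoc, div_le_div_iff₀ hpy (by positivity)]
      linarith
    calc m y / ‖p - y‖ = 1 / ‖p - y‖ * m y := by ring
      _ ≤ 2 * (M / (1 + M * ‖p - y‖)) * m y := mul_le_mul_of_nonneg_right h2 (hm0 y)
      _ = _ := by ring
  · have := hm0 y
    simp only [Pi.zero_apply]
    positivity

/-- the sum of the masses -/
lemma sum_W {m : ℂ → ℝ} (hm : Continuous m) (hs : HasCompactSupport m) (hm0 : ∀ y, 0 ≤ m y) {M : ℕ}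
    {S : Finset (ℕ × ℕ)} {p : ℕ × ℕ → ℂ} {c B : ℝ} (hc : 0 ≤ c) (hB : ∫ y, m y ≤ B)
    (h : ∀ y : ℂ, ∑ a ∈ S, (1 + (M * ‖p a - y‖) ^ 2)⁻¹ ≤ c) :
    ∑ a ∈ S, ∫ y, kk M (p a) y * m y ≤ c * B := by
  rw [← integral_finsetSum S fun a _ => kk_int hm hs M (p a)]
  refine le_trans ?_ (mul_le_mul_of_nonneg_left hB hc)
  rw [← integral_const_mul]
  refine integral_mono (integrable_finsetSum S fun a _ => kk_int hm hs M (p a))
    ((hm.integrable_of_hasCompactSupport hs).const_mul c) fun y => ?_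
  simp only
  rw [← Finset.sum_mul]
  exact mul_le_mul_of_nonneg_right (h y) (hm0 y)

lemma sum_L {m : ℂ → ℝ} (hm : Continuous m) (hs : HasCompactSupport m) (hm0 : ∀ y, 0 ≤ m y) {M : ℕ}
    {S : Finset (ℕ × ℕ)} {p : ℕ × ℕ → ℂ} {c B : ℝ} (hc : 0 ≤ c) (hB : ∫ y, m y ≤ B)
    (h : ∀ y : ℂ, ∑ a ∈ S, M / (1 + M * ‖p a - y‖) ≤ c) :
    ∑ a ∈ S, ∫ y, (M : ℝ) / (1 + M * ‖p a - y‖) * m y ≤ c * B := by
  rw [← integral_finsetSum S fun a _ => l_int hm hs M (p a)]
  refine le_trans ?_ (mul_le_mul_of_nonneg_left hB hc)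
  rw [← integral_const_mul]
  refine integral_mono (integrable_finsetSum S fun a _ => l_int hm hs M (p a))
    ((hm.integrable_of_hasCompactSupport hs).const_mul c) fun y => ?_
  simp only
  rw [← Finset.sum_mul]
  exact mul_le_mul_of_nonneg_right (h y) (hm0 y)

end YTR

open YTR in
/-- oscillation on small discs after subtracting linear functions -/
theorem tptr (hA : PA) (hB : PB) (hC : PC) : PTR := by
  intro D hD
  obtain ⟨C₁, hC1, hB⟩ := hB
  obtain ⟨C₂, hC2, hC⟩ := hC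
  obtain ⟨K, hK⟩ : ∃ K : ℝ, K = KK / Real.pi := ⟨_, rfl⟩
  have hK0 : 0 ≤ K := by rw [hK]; exact div_nonneg KK_nonneg Real.pi_pos.le
  have hlD : 0 ≤ Real.log (6 * D) := Real.log_nonneg (by linarith)
  obtain ⟨Q, hQ⟩ : ∃ Q : ℝ, Q = (Real.log (6 * D) + K) * (1 + 4 * D ^ 2) := ⟨_, rfl⟩
  have hQ0 : 0 ≤ Q := by rw [hQ]; positivity
  have hC12 : 1 ≤ C₁ * C₂ := by nlinarith
  refine ⟨4 * D + C₁ * C₂ * (Q + 6 * D ^ 2 + 1) + 3 * (C₁ * C₂), ?_, ?_⟩
  · have : 0 ≤ C₁ * C₂ * (Q + 6 * D ^ 2 + 1) := by positivity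
    linarith
  intro M A b v S p hCM hA1 hvm hvb hsub hvint hp hsep
  have hbig : 0 ≤ C₁ * C₂ * (Q + 6 * D ^ 2 + 1) := by positivity
  have hM4 : 4 * D ≤ M := by linarith
  have hM0 : (0 : ℝ) < M := by linarith
  have hM1 : 1 ≤ M := by
    have : (0 : ℝ) < M := hM0
    exact_mod_cast this
  have hM1' : (1 : ℝ) ≤ M := by exact_mod_cast hM1
  have hlM : 0 ≤ Real.log M := Real.log_nonneg hM1'
  obtain ⟨δ, hδ⟩ : ∃ δ : ℝ, δ = 1 / (4 * M) := ⟨_, rfl⟩
  have hδ0 : 0 < δ := by rw [hδ]; positivity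
  have hδ1 : δ ≤ 1 / 2 := by
    rw [hδ]
    exact one_div_le_one_div_of_le two_pos (by linarith)
  obtain ⟨V, hVs, hV0, hV1, hV2, hV3⟩ := hA v b δ hδ0 hδ1 hvm hvb hsub
  obtain ⟨m, H, hm, hs, hm0, hmA, hVr, hH⟩ := hB V A hVs hV0 (fun x hx => (hV1 x hx).2)
    (hV2.trans hvint)
  obtain ⟨hc1, hc2, hc3, _⟩ := hC M S p hM1 hp hsep
  have hξ : ∀ a : ℕ × ℕ, ∃ ξ : ℂ, a ∈ S → ‖ξ‖ ≤ C₁ * A ∧
      ∀ x ∈ ball (0 : ℂ) 3, |H x - H (p a) - (conj ξ * (x - p a)).re| ≤ C₁ * A * ‖x - p a‖ ^ 2 := by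
    intro a
    by_cases ha : a ∈ S
    · obtain ⟨ξ, h1, h2⟩ := hH (p a) (by rw [mem_ball_zero_iff]; linarith [hp a ha])
      exact ⟨ξ, fun _ => ⟨h1, h2⟩⟩
    · exact ⟨0, fun h => absurd h ha⟩
  choose ξ hξ using hξ
  obtain ⟨ρ, hρ⟩ : ∃ ρ : ℝ, ρ = D / M := ⟨_, rfl⟩
  have hρ0 : 0 < ρ := by rw [hρ]; positivity
  have hρ4 : ρ ≤ 1 / 4 := by rw [hρ, div_le_iff₀ hM0]; linarith
  obtain ⟨W, hW⟩ : ∃ W : ℕ × ℕ → ℝ, W = fun a => ∫ y, kk M (p a) y * m y := ⟨_, rfl⟩
  have hW0 : ∀ a, 0 ≤ W a := fun a => by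
    rw [hW]
    exact integral_nonneg fun y => mul_nonneg (kk_nonneg M (p a) y) (hm0 y)
  have hC1A : 0 ≤ C₁ * A := by positivity
  have hWs : ∑ a ∈ S, W a ≤ C₂ * (1 + Real.log M) * (C₁ * A) := by
    rw [hW]
    exact sum_W hm hs hm0 (by positivity) hmA hc2
  have hLs := sum_L hm hs hm0 (by positivity : (0:ℝ) ≤ C₂ * (M : ℝ) ^ 2) hmA hc3
  refine ⟨fun a => conj (ZZ m (p a) ρ) + ξ a,
    fun a => Q * W a + 2 * (2 * D ^ 2 * W a + C₁ * A * ρ ^ 2) + 1 / (M : ℝ) ^ 2, ?_, ?_, ?_, ?_⟩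
  · intro a _
    have := hW0 a
    positivity
  · rw [Finset.sum_add_distrib, Finset.sum_add_distrib, ← Finset.mul_sum, ← Finset.mul_sum,
      Finset.sum_add_distrib, ← Finset.mul_sum, Finset.sum_const, Finset.sum_const, nsmul_eq_mul,
      nsmul_eq_mul]
    have h1 : (S.card : ℝ) * (C₁ * A * ρ ^ 2) ≤ C₂ * (C₁ * A) * D ^ 2 := by
      calc (S.card : ℝ) * (C₁ * A * ρ ^ 2) ≤ C₂ * M ^ 2 * (C₁ * A * ρ ^ 2) := by gcongr
        _ = C₂ * (C₁ * A) * D ^ 2 := by rw [hρ]; field_simp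
    have h2 : (S.card : ℝ) * (1 / (M : ℝ) ^ 2) ≤ C₂ := by
      calc (S.card : ℝ) * (1 / (M : ℝ) ^ 2) ≤ C₂ * M ^ 2 * (1 / (M : ℝ) ^ 2) := by gcongr
        _ = C₂ := by field_simp
    have h3 : (Q + 4 * D ^ 2) * ∑ a ∈ S, W a ≤
        (Q + 4 * D ^ 2) * (C₂ * (1 + Real.log M) * (C₁ * A)) := by gcongr
    have h4 : C₂ * (C₁ * A) * D ^ 2 ≤ C₂ * (C₁ * A) * D ^ 2 * (1 + Real.log M) :=
      le_mul_of_one_le_right (by positivity) (by linarith)
    have h5 : C₂ ≤ C₂ * (C₁ * A) * (1 + Real.log M) := by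
      have h6 : 1 ≤ C₁ * A * (1 + Real.log M) := by
        have : 1 ≤ C₁ * A := by nlinarith
        nlinarith
      calc C₂ = C₂ * 1 := (mul_one _).symm
        _ ≤ C₂ * (C₁ * A * (1 + Real.log M)) := mul_le_mul_of_nonneg_left h6 (by linarith)
        _ = _ := by ring
    have h6 : 0 ≤ (4 * D + 3 * (C₁ * C₂)) * A * (1 + Real.log M) := by positivity
    calc Q * ∑ a ∈ S, W a + 2 * (2 * D ^ 2 * ∑ a ∈ S, W a + (S.card : ℝ) * (C₁ * A * ρ ^ 2)) +
          (S.card : ℝ) * (1 / (M : ℝ) ^ 2)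
        = (Q + 4 * D ^ 2) * ∑ a ∈ S, W a + 2 * ((S.card : ℝ) * (C₁ * A * ρ ^ 2)) +
          (S.card : ℝ) * (1 / (M : ℝ) ^ 2) := by ring
      _ ≤ (Q + 4 * D ^ 2) * (C₂ * (1 + Real.log M) * (C₁ * A)) +
          2 * (C₂ * (C₁ * A) * D ^ 2 * (1 + Real.log M)) + C₂ * (C₁ * A) * (1 + Real.log M) := by
          linarith
      _ = C₁ * C₂ * (Q + 6 * D ^ 2 + 1) * A * (1 + Real.log M) := by ring
      _ ≤ C₁ * C₂ * (Q + 6 * D ^ 2 + 1) * A * (1 + Real.log M) +
          (4 * D + 3 * (C₁ * C₂)) * A * (1 + Real.log M) := by linarith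
      _ = _ := by ring
  · have h1 : ∑ a ∈ S, ‖conj (ZZ m (p a) ρ) + ξ a‖ ≤
        ∑ a ∈ S, (2 * (∫ y, (M : ℝ) / (1 + M * ‖p a - y‖) * m y) + C₁ * A) := by
      refine Finset.sum_le_sum fun a ha => ?_
      refine (norm_add_le _ _).trans (add_le_add ?_ (hξ a ha).1)
      rw [RCLike.norm_conj, hρ]
      exact ZZ_le hm hs hm0 hM1 hD (p a)
    rw [Finset.sum_add_distrib, ← Finset.mul_sum, Finset.sum_const, nsmul_eq_mul] at h1
    have h2 : (S.card : ℝ) * (C₁ * A) ≤ C₂ * M ^ 2 * (C₁ * A) := by gcongr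
    have h3 : 0 ≤ (4 * D + C₁ * C₂ * (Q + 6 * D ^ 2 + 1)) * A * M ^ 2 := by positivity
    calc ∑ a ∈ S, ‖conj (ZZ m (p a) ρ) + ξ a‖ ≤ _ := h1
      _ ≤ 2 * (C₂ * M ^ 2 * (C₁ * A)) + C₂ * M ^ 2 * (C₁ * A) := by linarith
      _ = 3 * (C₁ * C₂) * A * M ^ 2 := by ring
      _ ≤ 3 * (C₁ * C₂) * A * M ^ 2 + (4 * D + C₁ * C₂ * (Q + 6 * D ^ 2 + 1)) * A * M ^ 2 := by
          linarith
      _ = _ := by ring
  · intro a ha
    obtain ⟨k, hk⟩ := local_est hm hs hm0 hVr (p := p a) (ξ := ξ a) (c := C₁ * A) (ρ := ρ) hC1A hρ0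
      (by linarith [hp a ha]) (hξ a ha).2
    obtain ⟨ζ, hζ⟩ : ∃ ζ : ℂ, ζ = conj (ZZ m (p a) ρ) + ξ a := ⟨_, rfl⟩
    simp only [← hζ] at hk ⊢
    obtain ⟨x', hx', hx2⟩ := near_lower hm hs hm0 (r := 1 / (2 * M)) (by positivity)
      (by rw [div_le_one (by positivity)]; linarith) (p a) (N := ball (p a) (2 * ρ))
    rw [← hK] at hx2
    have hx'n : ‖x' - p a‖ < 1 / (2 * M) := by rw [← dist_eq_norm]; exact hx'
    have hrρ : 1 / (2 * (M : ℝ)) ≤ ρ := by
      rw [hρ, div_le_div_iff₀ (by positivity) hM0]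
      nlinarith
    have hx'ρ : ‖x' - p a‖ ≤ ρ := by linarith
    have in5 : ∀ x : ℂ, ‖x - p a‖ ≤ ρ → x ∈ ball (0 : ℂ) 5 := by
      intro x hx
      rw [mem_ball_zero_iff]
      calc ‖x‖ = ‖p a + (x - p a)‖ := by congr 1; ring
        _ ≤ ‖p a‖ + ‖x - p a‖ := norm_add_le _ _
        _ < 5 := by linarith [hp a ha]
    -- the point y
    have hy : ∃ y ∈ ball x' δ, V x' - (conj ζ * x').re - 1 / (M : ℝ) ^ 2 ≤ v y - (conj ζ * y).re := by
      by_contra hcon
      push Not at hcon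
      have h1 := hV3 x' (in5 x' hx'ρ) ζ (V x' - (conj ζ * x').re - 1 / (M : ℝ) ^ 2)
        fun y hy => (hcon y hy).le
      have h2 : 0 < 1 / (M : ℝ) ^ 2 := by positivity
      linarith
    obtain ⟨y, hyb, hy⟩ := hy
    refine ⟨y, ?_, fun x hx => ?_⟩
    · rw [mem_ball, dist_eq_norm] at hyb ⊢
      have h1 : δ + 1 / (2 * M) ≤ 1 / (M : ℝ) := by
        rw [hδ]
        have : 1 / (M : ℝ) - (1 / (4 * M) + 1 / (2 * M)) = 1 / (4 * M) := by field_simp; ring
        have h2 : 0 < 1 / (4 * (M : ℝ)) := by positivity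
        linarith
      calc ‖y - p a‖ = ‖(y - x') + (x' - p a)‖ := by congr 1; ring
        _ ≤ ‖y - x'‖ + ‖x' - p a‖ := norm_add_le _ _
        _ < 1 / M := by linarith
    · rw [mem_closedBall, dist_eq_norm, ← hρ] at hx
      have e1 := hk x hx
      have e2 := hk x' hx'ρ
      have e3 := near_upper hm hs hm0 hx
      have e4 := (hV1 x (in5 x hx)).1
      have e5 : ∫ y in ball (p a) (2 * ρ), m y ≤ (1 + 4 * D ^ 2) * W a := by
        rw [hρ, hW]
        exact near_mass hm hs hm0 hM1 hD (p a)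
      have e6 : ρ ^ 2 * ∫ y in (ball (p a) (2 * ρ))ᶜ, m y / ‖p a - y‖ ^ 2 ≤ 2 * D ^ 2 * W a := by
        rw [hρ, hW]
        exact far_mass hm hs hm0 hM1 hD (p a)
      have e7 : Real.log (3 * ρ) = Real.log (6 * D) + Real.log (1 / (2 * M)) := by
        rw [← Real.log_mul (by positivity) (by positivity), hρ]
        congr 1
        field_simp
        ring
      have e8 : (Real.log (6 * D) + K) * ∫ y in ball (p a) (2 * ρ), m y ≤ Q * W a := by
        rw [hQ]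
        calc (Real.log (6 * D) + K) * ∫ y in ball (p a) (2 * ρ), m y ≤
              (Real.log (6 * D) + K) * ((1 + 4 * D ^ 2) * W a) :=
              mul_le_mul_of_nonneg_left e5 (by linarith)
          _ = _ := by ring
      rw [e7] at e3
      rw [abs_le] at e1 e2
      have e9 : (Real.log (6 * D) + Real.log (1 / (2 * M))) * (∫ y in ball (p a) (2 * ρ), m y) -
          (Real.log (1 / (2 * M)) - K) * (∫ y in ball (p a) (2 * ρ), m y) =
          (Real.log (6 * D) + K) * ∫ y in ball (p a) (2 * ρ), m y := by ring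
      linarith [e1.1, e1.2, e2.1, e2.2]

end Pool.Agent.Q73.AD
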