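import Pool.Agent.Q73.AD.StmY
import Pool.Agent.Q73.AD.TA1

/-!
# Y1: the Carleman inequality with a large linear weight and a quadratic perturbation
-/

set_option autoImplicit false
open MeasureTheory Filter Topology Complex Metric
open scoped ContDiff

namespace Pool.Agent.Q73.AD

open Pool.Agent.Q73.NL

/-- the weight -/
noncomputable def wY (a b h k m K N : ℝ) (z : ℂ) : ℝ := K * z.re + N * qp a b h k m z

/-- its first derivatives -/
noncomputable def wx (a h k K N : ℝ) (z : ℂ) : ℝ := K + N * (a + h * z.re + k * z.im)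

noncomputable def wy (b k m N : ℝ) (z : ℂ) : ℝ := N * (b + k * z.re + m * z.im)

theorem wY_smooth (a b h k m K N : ℝ) : ContDiff ℝ ∞ (wY a b h k m K N) := by
  have h1 : ContDiff ℝ ∞ (fun z : ℂ => z.re) := Complex.reCLM.contDiff
  have h2 : ContDiff ℝ ∞ (fun z : ℂ => z.im) := Complex.imCLM.contDiff
  unfold wY qp
  fun_prop

theorem wx_smooth (a h k K N : ℝ) : ContDiff ℝ ∞ (wx a h k K N) := by
  have h1 : ContDiff ℝ ∞ (fun z : ℂ => z.re) := Complex.reCLM.contDiff
  have h2 : ContDiff ℝ ∞ (fun z : ℂ => z.im) := Complex.imCLM.contDiff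
  unfold wx
  fun_prop

theorem wy_smooth (b k m N : ℝ) : ContDiff ℝ ∞ (wy b k m N) := by
  have h1 : ContDiff ℝ ∞ (fun z : ℂ => z.re) := Complex.reCLM.contDiff
  have h2 : ContDiff ℝ ∞ (fun z : ℂ => z.im) := Complex.imCLM.contDiff
  unfold wy
  fun_prop

theorem re_line_one (z : ℂ) : HasDerivAt (fun s : ℝ => (z + s • (1 : ℂ)).re) 1 0 := by
  have h1 : (fun s : ℝ => (z + s • (1 : ℂ)).re) = fun s : ℝ => z.re + s := by
    funext s; simp
  rw [h1]
  exact (hasDerivAt_id (0 : ℝ)).const_add _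

theorem im_line_one (z : ℂ) : HasDerivAt (fun s : ℝ => (z + s • (1 : ℂ)).im) 0 0 := by
  have h1 : (fun s : ℝ => (z + s • (1 : ℂ)).im) = fun _ : ℝ => z.im := by
    funext s; simp
  rw [h1]
  exact hasDerivAt_const _ _

theorem re_line_I (z : ℂ) : HasDerivAt (fun s : ℝ => (z + s • I).re) 0 0 := by
  have h1 : (fun s : ℝ => (z + s • I).re) = fun _ : ℝ => z.re := by
    funext s; simp
  rw [h1]
  exact hasDerivAt_const _ _

theorem im_line_I (z : ℂ) : HasDerivAt (fun s : ℝ => (z + s • I).im) 1 0 := by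
  have h1 : (fun s : ℝ => (z + s • I).im) = fun s : ℝ => z.im + s := by
    funext s; simp
  rw [h1]
  exact (hasDerivAt_id (0 : ℝ)).const_add _

/-- line derivative of the weight, given the ones of the coordinates -/
theorem wY_line (a b h k m K N : ℝ) (z e : ℂ) {r i : ℝ}
    (hr : HasDerivAt (fun s : ℝ => (z + s • e).re) r 0)
    (hi : HasDerivAt (fun s : ℝ => (z + s • e).im) i 0) :
    HasDerivAt (fun s : ℝ => wY a b h k m K N (z + s • e))
      (r * wx a h k K N z + i * wy b k m N z) 0 := by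
  have h1 := (hr.const_mul K).add ((((hr.const_mul a).add (hi.const_mul b)).add
    (((((hr.pow 2).const_mul h).add ((hr.const_mul (2 * k)).mul hi)).add
      ((hi.pow 2).const_mul m)).div_const 2)).const_mul N)
  refine h1.congr_deriv ?_
  simp only [zero_smul, add_zero, wx, wy]
  norm_num
  ring

theorem wx_line (a h k K N : ℝ) (z e : ℂ) {r i : ℝ}
    (hr : HasDerivAt (fun s : ℝ => (z + s • e).re) r 0)
    (hi : HasDerivAt (fun s : ℝ => (z + s • e).im) i 0) :
    HasDerivAt (fun s : ℝ => wx a h k K N (z + s • e)) (N * (h * r + k * i)) 0 :=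
  ((((hr.const_mul h).const_add a).add (hi.const_mul k)).const_mul N).const_add K

theorem wy_line (b k m N : ℝ) (z e : ℂ) {r i : ℝ}
    (hr : HasDerivAt (fun s : ℝ => (z + s • e).re) r 0)
    (hi : HasDerivAt (fun s : ℝ => (z + s • e).im) i 0) :
    HasDerivAt (fun s : ℝ => wy b k m N (z + s • e)) (N * (k * r + m * i)) 0 :=
  (((hr.const_mul k).const_add b).add (hi.const_mul m)).const_mul N

theorem algYA {B K N a1 a2 h k m v vx vy lm A : ℝ} (hB : 1 ≤ B) (hK1 : 1 ≤ K) (hN : 1 ≤ N)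
    (hBN : 200 * (B * N) ≤ K) (hh : |h| ≤ B) (hk : |k| ≤ B) (hm : |m| ≤ B)
    (ha1 : |a1 - K| ≤ 3 * B * N) (ha2sq : a2 ^ 2 ≤ 9 * B ^ 2 * N ^ 2)
    (hlmK : lm * K = 136 * B ^ 2 * N ^ 2)
    (hA : A = 2 * (a1 * vx + a2 * vy) + N * (h + m) * v) :
    -(8 * B ^ 2 * N ^ 2) * v ^ 2 ≤
      A ^ 2 - 4 * N * ((h - m) * vx ^ 2 + 2 * k * vx * vy) + lm * (vx ^ 2 + vy ^ 2) := by
  have hB0 : 0 < B := by linarith
  have hN0 : 0 < N := by linarith
  have hK0 : 0 < K := by linarith
  obtain ⟨a1l, a1u⟩ := abs_le.1 ha1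
  obtain ⟨hl, hu⟩ := abs_le.1 hh
  obtain ⟨ml, mu⟩ := abs_le.1 hm
  have hY : (2 * a2 * vy + N * (h + m) * v) ^ 2 ≤ 72 * B ^ 2 * N ^ 2 * vy ^ 2 + 8 * B ^ 2 * N ^ 2 * v ^ 2 := by
    have h1 : (2 * a2 * vy + N * (h + m) * v) ^ 2 ≤ 2 * (2 * a2 * vy) ^ 2 + 2 * (N * (h + m) * v) ^ 2 := by
      have := sq_nonneg (2 * a2 * vy - N * (h + m) * v)
      linarith
    have h2 : (h + m) ^ 2 ≤ 4 * B ^ 2 := by
      have h3 : |h + m| ≤ 2 * B := (abs_add_le _ _).trans (by linarith)
      rw [← sq_abs]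
      calc |h + m| ^ 2 ≤ (2 * B) ^ 2 := pow_le_pow_left₀ (abs_nonneg _) h3 2
        _ = _ := by ring
    have h3 : 2 * (2 * a2 * vy) ^ 2 = 8 * a2 ^ 2 * vy ^ 2 := by ring
    have h4 : 2 * (N * (h + m) * v) ^ 2 = 2 * N ^ 2 * (h + m) ^ 2 * v ^ 2 := by ring
    have h5 : 8 * a2 ^ 2 * vy ^ 2 ≤ 72 * B ^ 2 * N ^ 2 * vy ^ 2 := by
      apply mul_le_mul_of_nonneg_right _ (sq_nonneg _)
      linarith
    have h6 : 2 * N ^ 2 * (h + m) ^ 2 * v ^ 2 ≤ 8 * B ^ 2 * N ^ 2 * v ^ 2 := by
      apply mul_le_mul_of_nonneg_right _ (sq_nonneg _)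
      calc 2 * N ^ 2 * (h + m) ^ 2 ≤ 2 * N ^ 2 * (4 * B ^ 2) := by
            apply mul_le_mul_of_nonneg_left h2 (by positivity)
        _ = _ := by ring
    linarith
  have hX : K ^ 2 * vx ^ 2 ≤ (2 * a1 * vx) ^ 2 := by
    have h1 : K ≤ 2 * a1 := by
      have : 3 * B * N = 3 * (B * N) := by ring
      linarith
    have h2 : (2 * a1 * vx) ^ 2 = (2 * a1) ^ 2 * vx ^ 2 := by ring
    rw [h2]
    apply mul_le_mul_of_nonneg_right _ (sq_nonneg _)
    exact pow_le_pow_left₀ hK0.le h1 2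
  have hA2 : (2 * a1 * vx) ^ 2 / 2 - (2 * a2 * vy + N * (h + m) * v) ^ 2 ≤ A ^ 2 := by
    have h1 : A = 2 * a1 * vx + (2 * a2 * vy + N * (h + m) * v) := by
      rw [hA]; ring
    rw [h1]
    have := sq_nonneg (2 * a1 * vx + 2 * (2 * a2 * vy + N * (h + m) * v))
    linarith
  have hAK : A ^ 2 ≤ K * A ^ 2 := by
    have := mul_nonneg (by linarith : 0 ≤ K - 1) (sq_nonneg A)
    linarith
  have hcr : 4 * N * ((h - m) * vx ^ 2 + 2 * k * vx * vy) ≤ 8 * B * N * vx ^ 2 + 8 * B * N * (|vx| * |vy|) := by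
    have h1 : (h - m) * vx ^ 2 ≤ 2 * B * vx ^ 2 := mul_le_mul_of_nonneg_right (by linarith) (sq_nonneg _)
    have h2 : 2 * k * vx * vy ≤ 2 * B * (|vx| * |vy|) := by
      have h3 : 2 * k * vx * vy ≤ |2 * k * vx * vy| := le_abs_self _
      rw [abs_mul, abs_mul, abs_mul, abs_two] at h3
      refine h3.trans ?_
      have h4 : 0 ≤ |vx| * |vy| := by positivity
      have h5 : |k| * (|vx| * |vy|) ≤ B * (|vx| * |vy|) := mul_le_mul_of_nonneg_right hk h4
      linarith
    have h3 := mul_le_mul_of_nonneg_left (add_le_add h1 h2) (by positivity : 0 ≤ 4 * N)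
    linarith
  have hKpos : K * (-(8 * B ^ 2 * N ^ 2) * v ^ 2) ≤
      K * (A ^ 2 - 4 * N * ((h - m) * vx ^ 2 + 2 * k * vx * vy) + lm * (vx ^ 2 + vy ^ 2)) := by
    have e1 : K * (A ^ 2 - 4 * N * ((h - m) * vx ^ 2 + 2 * k * vx * vy) + lm * (vx ^ 2 + vy ^ 2)) =
        K * A ^ 2 - K * (4 * N * ((h - m) * vx ^ 2 + 2 * k * vx * vy)) +
          136 * B ^ 2 * N ^ 2 * (vx ^ 2 + vy ^ 2) := by
      rw [← hlmK]; ring
    rw [e1]
    have e2 : K * (4 * N * ((h - m) * vx ^ 2 + 2 * k * vx * vy)) ≤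
        K * (8 * B * N * vx ^ 2 + 8 * B * N * (|vx| * |vy|)) := mul_le_mul_of_nonneg_left hcr hK0.le
    have e3 : K * (8 * B * N * (|vx| * |vy|)) ≤ K ^ 2 / 4 * vx ^ 2 + 64 * B ^ 2 * N ^ 2 * vy ^ 2 := by
      rw [← sq_abs vx, ← sq_abs vy]
      have := sq_nonneg (K / 2 * |vx| - 8 * B * N * |vy|)
      linarith
    have e4 : K * (8 * B * N * vx ^ 2) ≤ K ^ 2 / 4 * vx ^ 2 := by
      have : K * (8 * B * N * vx ^ 2) = K * (8 * (B * N)) * vx ^ 2 := by ring
      rw [this]
      apply mul_le_mul_of_nonneg_right _ (sq_nonneg _)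
      have h5 : 8 * (B * N) ≤ K / 4 := by linarith
      have := mul_le_mul_of_nonneg_left h5 hK0.le
      linarith
    have e5 : 0 ≤ 136 * B ^ 2 * N ^ 2 * vx ^ 2 := by positivity
    have e6 : 0 ≤ (K - 1) * (8 * B ^ 2 * N ^ 2 * v ^ 2) := mul_nonneg (by linarith) (by positivity)
    linarith
  exact le_of_mul_le_mul_left hKpos hK0

theorem algYB {B c₀ C K N a1 a2 h k m q qx qy lm Q : ℝ} (hB : 1 ≤ B) (hc : 0 < c₀)
    (hC1 : 1 ≤ C) (hCc : 200 * B ^ 2 ≤ C * c₀) (hCK : C ≤ K) (hN : 1 ≤ N) (hCN : C * N ≤ K)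
    (hBN : 200 * (B * N) ≤ K) (hlm0 : 0 ≤ lm) (hlmN : lm ≤ B * N)
    (hh : |h| ≤ B) (hk : |k| ≤ B) (hm : |m| ≤ B) (ha1 : |a1 - K| ≤ 3 * B * N) (ha2 : |a2| ≤ 3 * B * N)
    (ha2sq : a2 ^ 2 ≤ 9 * B ^ 2 * N ^ 2)
    (hq0 : 0 ≤ q) (hqK : q ≤ K ^ 2) (hQ : C * Q ≤ N * K) (hqx : |qx| ≤ Q) (hqy : |qy| ≤ Q)
    (hmain : h * K ^ 2 + m * (K ^ 2 + q) ≤ -c₀ * K ^ 2) (hlmK : lm * K = 136 * B ^ 2 * N ^ 2) :
    8 * B ^ 2 * N ^ 2 ≤
      -4 * N * (h * a1 ^ 2 + 2 * k * a1 * a2 + m * a2 ^ 2 + m * (a1 ^ 2 + a2 ^ 2 + q)) -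
        lm * (a1 ^ 2 + a2 ^ 2 + q) - 2 * (a1 * qx + a2 * qy) - (4 * N * m + lm) ^ 2 / 4 - 1 := by
  have hB0 : 0 < B := by linarith
  have hN0 : 0 < N := by linarith
  have hK1 : 1 ≤ K := hC1.trans hCK
  have hK0 : 0 < K := by linarith
  have hB2 : 1 ≤ B ^ 2 := one_le_pow₀ hB
  obtain ⟨p1, hp1⟩ : ∃ p1, a1 = K + p1 := ⟨a1 - K, by ring⟩
  have hp1b : |p1| ≤ 3 * B * N := by
    rw [hp1] at ha1
    simpa using ha1
  have hp1sq : p1 ^ 2 ≤ 9 * B ^ 2 * N ^ 2 := by
    rw [← sq_abs]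
    calc |p1| ^ 2 ≤ (3 * B * N) ^ 2 := pow_le_pow_left₀ (abs_nonneg _) hp1b 2
      _ = _ := by ring
  have hNK : 0 < N * K := by positivity
  have hX1 : B * N ≤ K / 200 := by linarith
  have hE1 : h * (2 * K * p1 + p1 ^ 2) + 2 * k * (K + p1) * a2 + m * a2 ^ 2 +
      m * (2 * K * p1 + p1 ^ 2 + a2 ^ 2) ≤ 20 * B ^ 2 * (N * K) := by
    have f1 : |2 * K * p1 + p1 ^ 2| ≤ 2 * K * (3 * B * N) + 9 * B ^ 2 * N ^ 2 := by
      refine (abs_add_le _ _).trans ?_
      rw [abs_mul, abs_of_pos (by positivity : (0 : ℝ) < 2 * K), abs_of_nonneg (sq_nonneg p1)]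
      have := mul_le_mul_of_nonneg_left hp1b (by positivity : (0 : ℝ) ≤ 2 * K)
      linarith
    have f2 : h * (2 * K * p1 + p1 ^ 2) ≤ B * (2 * K * (3 * B * N) + 9 * B ^ 2 * N ^ 2) := by
      refine (le_abs_self _).trans ?_
      rw [abs_mul]
      exact mul_le_mul hh f1 (abs_nonneg _) hB0.le
    have f3 : |K + p1| ≤ K + 3 * B * N := by
      refine (abs_add_le _ _).trans ?_
      rw [abs_of_pos hK0]
      linarith
    have f4 : 2 * k * (K + p1) * a2 ≤ 2 * B * (K + 3 * B * N) * (3 * B * N) := by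
      refine (le_abs_self _).trans ?_
      rw [abs_mul, abs_mul, abs_mul, abs_two]
      apply mul_le_mul _ ha2 (abs_nonneg _) (by positivity)
      apply mul_le_mul _ f3 (abs_nonneg _) (by positivity)
      linarith
    have f5 : m * a2 ^ 2 ≤ B * (9 * B ^ 2 * N ^ 2) := by
      refine (le_abs_self _).trans ?_
      rw [abs_mul, abs_of_nonneg (sq_nonneg a2)]
      exact mul_le_mul hm ha2sq (sq_nonneg _) hB0.le
    have f6 : m * (2 * K * p1 + p1 ^ 2 + a2 ^ 2) ≤
        B * (2 * K * (3 * B * N) + 9 * B ^ 2 * N ^ 2 + 9 * B ^ 2 * N ^ 2) := by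
      refine (le_abs_self _).trans ?_
      rw [abs_mul]
      apply mul_le_mul hm _ (abs_nonneg _) hB0.le
      refine (abs_add_le _ _).trans ?_
      rw [abs_of_nonneg (sq_nonneg a2)]
      linarith
    have f7 : B ^ 2 * N * (B * N) ≤ B ^ 2 * N * (K / 200) := mul_le_mul_of_nonneg_left hX1 (by positivity)
    have f8 : 0 ≤ B ^ 2 * N * K := by positivity
    linarith
  have hE2 : h * a1 ^ 2 + 2 * k * a1 * a2 + m * a2 ^ 2 + m * (a1 ^ 2 + a2 ^ 2 + q) ≤
      -c₀ * K ^ 2 + 20 * B ^ 2 * (N * K) := by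
    rw [hp1]
    linarith
  have hV0 : 0 ≤ a1 ^ 2 + a2 ^ 2 + q := by positivity
  have hV : a1 ^ 2 + a2 ^ 2 + q ≤ 3 * K ^ 2 := by
    rw [hp1]
    have g1 : 9 * B ^ 2 * N ^ 2 ≤ 9 * (K / 200) ^ 2 := by
      have : (B * N) ^ 2 ≤ (K / 200) ^ 2 := pow_le_pow_left₀ (by positivity) hX1 2
      linarith
    have g2 : p1 ≤ 3 / 200 * K := by
      have := (abs_le.1 hp1b).2
      linarith
    have g3 : K * p1 ≤ K * (3 / 200 * K) := mul_le_mul_of_nonneg_left g2 hK0.le
    have g4 := sq_nonneg K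
    linarith
  have hlV : lm * (a1 ^ 2 + a2 ^ 2 + q) ≤ 408 * B ^ 2 * N * (N * K) := by
    calc lm * (a1 ^ 2 + a2 ^ 2 + q) ≤ lm * (3 * K ^ 2) := mul_le_mul_of_nonneg_left hV hlm0
      _ = (lm * K) * (3 * K) := by ring
      _ = _ := by rw [hlmK]; ring
  have hQ0 : 0 ≤ Q := (abs_nonneg _).trans hqx
  have hgq : 2 * (a1 * qx + a2 * qy) ≤ 4 * K * Q := by
    have g1 : |a1| ≤ K + 3 * B * N := by
      rw [hp1]
      refine (abs_add_le _ _).trans ?_
      rw [abs_of_pos hK0]
      linarith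
    have g2 : a1 * qx ≤ (K + 3 * B * N) * Q := by
      refine (le_abs_self _).trans ?_
      rw [abs_mul]
      exact mul_le_mul g1 hqx (abs_nonneg _) (by positivity)
    have g3 : a2 * qy ≤ (3 * B * N) * Q := by
      refine (le_abs_self _).trans ?_
      rw [abs_mul]
      exact mul_le_mul ha2 hqy (abs_nonneg _) (by positivity)
    have g4 : 6 * (B * N) * Q ≤ K * Q := by
      apply mul_le_mul_of_nonneg_right _ hQ0
      have : 0 < B * N := by positivity
      linarith
    linarith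
  have hmu : (4 * N * m + lm) ^ 2 / 4 ≤ 7 * B ^ 2 * N ^ 2 := by
    have g1 : |4 * N * m + lm| ≤ 5 * (B * N) := by
      refine (abs_add_le _ _).trans ?_
      rw [abs_mul, abs_of_pos (by positivity : (0 : ℝ) < 4 * N), abs_of_nonneg hlm0]
      have := mul_le_mul_of_nonneg_left hm (by positivity : (0 : ℝ) ≤ 4 * N)
      linarith
    have g2 : (4 * N * m + lm) ^ 2 ≤ (5 * (B * N)) ^ 2 := by
      rw [← sq_abs]
      exact pow_le_pow_left₀ (abs_nonneg _) g1 2
    have g3 := sq_nonneg (B * N)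
    linarith
  -- total
  have t1 : 4 * N * (c₀ * K ^ 2 - 20 * B ^ 2 * (N * K)) ≤
      -4 * N * (h * a1 ^ 2 + 2 * k * a1 * a2 + m * a2 ^ 2 + m * (a1 ^ 2 + a2 ^ 2 + q)) := by
    have := mul_le_mul_of_nonneg_left hE2 (by positivity : (0 : ℝ) ≤ 4 * N)
    linarith
  -- multiply with C
  have hC0 : 0 < C := by linarith
  have u1 : C * (B ^ 2 * N * (N * K)) ≤ B ^ 2 * (N * K ^ 2) := by
    calc C * (B ^ 2 * N * (N * K)) = (B ^ 2 * (N * K)) * (C * N) := by ring
      _ ≤ (B ^ 2 * (N * K)) * K := mul_le_mul_of_nonneg_left hCN (by positivity)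
      _ = _ := by ring
  have hKK : K ≤ K ^ 2 := by
    have := mul_le_mul_of_nonneg_left hK1 hK0.le
    linarith
  have u2 : C * (B ^ 2 * N ^ 2) ≤ B ^ 2 * (N * K ^ 2) := by
    calc C * (B ^ 2 * N ^ 2) = (B ^ 2 * N) * (C * N) := by ring
      _ ≤ (B ^ 2 * N) * K := mul_le_mul_of_nonneg_left hCN (by positivity)
      _ ≤ (B ^ 2 * N) * K ^ 2 := mul_le_mul_of_nonneg_left hKK (by positivity)
      _ = _ := by ring
  have u3 : C * (K * Q) ≤ B ^ 2 * (N * K ^ 2) := by
    calc C * (K * Q) = K * (C * Q) := by ring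
      _ ≤ K * (N * K) := mul_le_mul_of_nonneg_left hQ hK0.le
      _ = 1 * (N * K ^ 2) := by ring
      _ ≤ B ^ 2 * (N * K ^ 2) := mul_le_mul_of_nonneg_right hB2 (by positivity)
  have u4 : C * 1 ≤ B ^ 2 * (N * K ^ 2) := by
    calc C * 1 ≤ K := by linarith
      _ ≤ K ^ 2 := hKK
      _ = 1 * K ^ 2 := by ring
      _ ≤ N * K ^ 2 := mul_le_mul_of_nonneg_right hN (sq_nonneg _)
      _ = 1 * (N * K ^ 2) := by ring
      _ ≤ B ^ 2 * (N * K ^ 2) := mul_le_mul_of_nonneg_right hB2 (by positivity)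
  have u5 : 200 * B ^ 2 * (N * K ^ 2) ≤ C * c₀ * (N * K ^ 2) :=
    mul_le_mul_of_nonneg_right hCc (by positivity)
  have fin : C * (8 * B ^ 2 * N ^ 2) ≤ C * (4 * N * (c₀ * K ^ 2 - 20 * B ^ 2 * (N * K)) -
      408 * B ^ 2 * N * (N * K) - 4 * K * Q - 7 * B ^ 2 * N ^ 2 - 1) := by
    have u6 : 0 ≤ B ^ 2 * (N * K ^ 2) := by positivity
    linarith
  have fin2 := le_of_mul_le_mul_left fin hC0
  linarith

/-- the pointwise inequality -/
theorem algY {B c₀ C K N a1 a2 h k m q qx qy v vx vy vxx vxy vyy lm Q : ℝ} (hB : 1 ≤ B) (hc : 0 < c₀)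
    (hC : 200 * B ^ 2 ≤ C) (hCc : 200 * B ^ 2 ≤ C * c₀) (hCK : C ≤ K) (hN : 1 ≤ N) (hCN : C * N ≤ K)
    (hh : |h| ≤ B) (hk : |k| ≤ B) (hm : |m| ≤ B) (ha1 : |a1 - K| ≤ 3 * B * N) (ha2 : |a2| ≤ 3 * B * N)
    (hq0 : 0 ≤ q) (hqK : q ≤ K ^ 2) (hQ : C * Q ≤ N * K) (hqx : |qx| ≤ Q) (hqy : |qy| ≤ Q)
    (hmain : h * K ^ 2 + m * (K ^ 2 + q) ≤ -c₀ * K ^ 2) (hlm : lm = 136 * B ^ 2 * N ^ 2 / K) :
    v ^ 2 + ((4 * ((N * h * vx + a1 * vxx + N * k * vy + a2 * vxy) * vx + (a1 * vx + a2 * vy) * vxx) -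
        2 * ((2 * vx * vxx + 2 * vy * vxy) * a1 + (vx ^ 2 + vy ^ 2) * (N * h)) +
        2 * (N * (h + m)) * (vx ^ 2 + v * vxx) +
        2 * ((2 * a1 * (N * h) + 2 * a2 * (N * k) + qx) * (v ^ 2 * a1) +
          (a1 ^ 2 + a2 ^ 2 + q) * (2 * v * vx * a1 + v ^ 2 * (N * h))) -
        (4 * N * m + lm) * (vx ^ 2 + v * vxx)) +
      (4 * ((N * k * vx + a1 * vxy + N * m * vy + a2 * vyy) * vy + (a1 * vx + a2 * vy) * vyy) -
        2 * ((2 * vx * vxy + 2 * vy * vyy) * a2 + (vx ^ 2 + vy ^ 2) * (N * m)) +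
        2 * (N * (h + m)) * (vy ^ 2 + v * vyy) +
        2 * ((2 * a1 * (N * k) + 2 * a2 * (N * m) + qy) * (v ^ 2 * a2) +
          (a1 ^ 2 + a2 ^ 2 + q) * (2 * v * vy * a2 + v ^ 2 * (N * m))) -
        (4 * N * m + lm) * (vy ^ 2 + v * vyy))) ≤
    (vxx + vyy + 2 * (a1 * vx + a2 * vy) + (N * (h + m) + a1 ^ 2 + a2 ^ 2) * v + q * v) ^ 2 := by
  have hB0 : 0 < B := by linarith
  have hB2 : 1 ≤ B ^ 2 := one_le_pow₀ hB
  have hC1 : 1 ≤ C := by linarith
  have hK1 : 1 ≤ K := hC1.trans hCK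
  have hK0 : 0 < K := by linarith
  have hN0 : 0 < N := by linarith
  have hBN : 200 * (B * N) ≤ K := by
    have h1 : B ≤ B ^ 2 := by nlinarith
    have h2 : 200 * B ≤ C := by linarith
    have h3 := mul_le_mul_of_nonneg_right h2 hN0.le
    linarith
  have hlm0 : 0 ≤ lm := by
    rw [hlm]
    positivity
  have hlmK : lm * K = 136 * B ^ 2 * N ^ 2 := by
    rw [hlm]
    field_simp
  have hlmN : lm ≤ B * N := by
    have h1 : lm * K ≤ (B * N) * K := by
      rw [hlmK]
      have h2 : 136 * (B * N) ≤ K := by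
        have : 0 < B * N := by positivity
        linarith
      have h3 := mul_le_mul_of_nonneg_right h2 (by positivity : (0 : ℝ) ≤ B * N)
      linarith
    exact le_of_mul_le_mul_right h1 hK0
  have ha2sq : a2 ^ 2 ≤ 9 * B ^ 2 * N ^ 2 := by
    rw [← sq_abs]
    calc |a2| ^ 2 ≤ (3 * B * N) ^ 2 := pow_le_pow_left₀ (abs_nonneg _) ha2 2
      _ = _ := by ring
  have part1 := algYA (v := v) (vx := vx) (vy := vy) hB hK1 hN hBN hh hk hm ha1 ha2sq hlmK rfl
  have part2 := algYB hB hc hC1 hCc hCK hN hCN hBN hlm0 hlmN hh hk hm ha1 ha2 ha2sq hq0 hqK hQ hqx hqy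
    hmain hlmK
  have p2 := mul_le_mul_of_nonneg_right part2 (sq_nonneg v)
  have hsq := sq_nonneg ((vxx + vyy + (a1 ^ 2 + a2 ^ 2 + q) * v) + (4 * N * m + lm) * v / 2)
  linarith

theorem ty1 : Y1 := by
  intro B₀ c₀ R hB₀ hc₀ hR hR1
  set B : ℝ := B₀ + 1 with hBd
  have hB : 1 ≤ B := by linarith
  refine ⟨200 * B ^ 2 * (1 + 1 / c₀), ?_, ?_⟩
  · have h1 : 1 ≤ B ^ 2 := one_le_pow₀ hB
    have h2 : 0 < 1 / c₀ := by positivity
    nlinarith
  intro a b h k m K N q w ha hb hh hk hm hCK hN hCN hq hw hwc hwR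
  set C : ℝ := 200 * B ^ 2 * (1 + 1 / c₀) with hCd
  have hC : 200 * B ^ 2 ≤ C := by
    have h1 : 0 ≤ B ^ 2 := sq_nonneg _
    have h2 : 0 < 1 / c₀ := by positivity
    rw [hCd]
    nlinarith [mul_nonneg h1 h2.le]
  have hCc : 200 * B ^ 2 ≤ C * c₀ := by
    have h1 : C * c₀ = 200 * B ^ 2 * (c₀ + 1) := by
      rw [hCd]
      field_simp
    rw [h1]
    nlinarith [mul_nonneg (sq_nonneg B) hc₀.le]
  set lm : ℝ := 136 * B ^ 2 * N ^ 2 / K with hlm
  set v : ℂ → ℝ := fun z => Real.exp (-wY a b h k m K N z) * w z with hv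
  have hWs := wY_smooth a b h k m K N
  have hxs := wx_smooth a h k K N
  have hys := wy_smooth b k m N
  have hE : ContDiff ℝ ∞ (fun z => Real.exp (-wY a b h k m K N z)) := hWs.neg.exp
  have hvs : ContDiff ℝ ∞ v := hE.mul hw
  have hvx := cd_d 1 hvs
  have hvy := cd_d I hvs
  -- the divergence field
  set X : (ℂ → ℝ) → (ℂ → ℝ) → ℂ → ℝ := fun f g z =>
    4 * ((wx a h k K N z * dx v z + wy b k m N z * dy v z) * f z) -
      2 * ((dx v z ^ 2 + dy v z ^ 2) * g z) + 2 * (N * (h + m)) * (v z * f z) +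
      2 * ((wx a h k K N z ^ 2 + wy b k m N z ^ 2 + q z) * (v z ^ 2 * g z)) -
      (4 * N * m + lm) * (v z * f z) with hX
  set X1 : ℂ → ℝ := X (dx v) (wx a h k K N) with hX1
  set X2 : ℂ → ℝ := X (dy v) (wy b k m N) with hX2
  -- outside the support
  have hoff : ∀ z, z ∉ tsupport w → v =ᶠ[𝓝 z] fun _ => 0 := by
    intro z hz
    have h1 := notMem_tsupport_iff_eventuallyEq.1 hz
    filter_upwards [h1] with u hu
    simp only [hv, hu, Pi.zero_apply, mul_zero]
  have hoffx : ∀ z, z ∉ tsupport w → ∀ᶠ u in 𝓝 z, v u = 0 ∧ dx v u = 0 ∧ dy v u = 0 := by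
    intro z hz
    have h1 := (hoff z hz).eventuallyEq_nhds
    filter_upwards [h1] with u hu
    refine ⟨hu.self_of_nhds, ?_, ?_⟩
    · unfold dx
      rw [hu.fderiv_eq]
      simp
    · unfold dy
      rw [hu.fderiv_eq]
      simp
  have hXoff : ∀ f g : ℂ → ℝ, (∀ u, dx v u = 0 → dy v u = 0 → f u = 0) → ∀ z, z ∉ tsupport w →
      X f g =ᶠ[𝓝 z] fun _ => 0 := by
    intro f g hf z hz
    filter_upwards [hoffx z hz] with u hu
    obtain ⟨h1, h2, h3⟩ := hu
    simp only [hX, h1, h2, h3, hf u h2 h3]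
    ring
  have hX1off : ∀ z, z ∉ tsupport w → X1 =ᶠ[𝓝 z] fun _ => 0 :=
    hXoff _ _ fun u h1 _ => h1
  have hX2off : ∀ z, z ∉ tsupport w → X2 =ᶠ[𝓝 z] fun _ => 0 :=
    hXoff _ _ fun u _ h2 => h2
  have l1 : ((1 : ℕ∞) : WithTop ℕ∞) ≤ (∞ : WithTop ℕ∞) := by exact_mod_cast le_top
  have hXc : ∀ f g : ℂ → ℝ, (∀ z, z ∉ tsupport w → X f g =ᶠ[𝓝 z] fun _ => 0) → ContDiff ℝ ∞ f →
      ContDiff ℝ ∞ g → ContDiff ℝ 1 (X f g) := by
    intro f g hfg hf hg
    rw [contDiff_iff_contDiffAt]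
    intro z
    by_cases hz : z ∈ tsupport w
    · obtain ⟨hq1, -⟩ := hq z (hwR hz)
      have c1 : ContDiffAt ℝ 1 v z := (hvs.of_le l1).contDiffAt
      have c2 : ContDiffAt ℝ 1 (dx v) z := (hvx.of_le l1).contDiffAt
      have c3 : ContDiffAt ℝ 1 (dy v) z := (hvy.of_le l1).contDiffAt
      have c4 : ContDiffAt ℝ 1 f z := (hf.of_le l1).contDiffAt
      have c5 : ContDiffAt ℝ 1 g z := (hg.of_le l1).contDiffAt
      have c6 : ContDiffAt ℝ 1 (wx a h k K N) z := (hxs.of_le l1).contDiffAt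
      have c7 : ContDiffAt ℝ 1 (wy b k m N) z := (hys.of_le l1).contDiffAt
      exact ((((contDiffAt_const.mul (((c6.mul c2).add (c7.mul c3)).mul c4)).sub
        (contDiffAt_const.mul (((c2.pow 2).add (c3.pow 2)).mul c5))).add
        (contDiffAt_const.mul (c1.mul c4))).add
        (contDiffAt_const.mul ((((c6.pow 2).add (c7.pow 2)).add hq1).mul ((c1.pow 2).mul c5)))).sub
        (contDiffAt_const.mul (c1.mul c4))
    · exact contDiffAt_const.congr_of_eventuallyEq (hfg z hz)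
  have hX1c : ContDiff ℝ 1 X1 := hXc _ _ hX1off hvx hxs
  have hX2c : ContDiff ℝ 1 X2 := hXc _ _ hX2off hvy hys
  have hX1s : HasCompactSupport X1 := by
    refine HasCompactSupport.of_support_subset_isCompact hwc ?_
    intro z hz
    by_contra h
    exact hz ((hX1off z h).self_of_nhds)
  have hX2s : HasCompactSupport X2 := by
    refine HasCompactSupport.of_support_subset_isCompact hwc ?_
    intro z hz
    by_contra h
    exact hz ((hX2off z h).self_of_nhds)
  obtain ⟨i1, i1'⟩ := int_der hX1c hX1s 1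
  obtain ⟨i2, i2'⟩ := int_der hX2c hX2s I
  -- the equation for `w`
  have hwv : ∀ z, w z = Real.exp (wY a b h k m K N z) * v z := by
    intro z
    simp only [hv]
    rw [← mul_assoc, ← Real.exp_add]
    simp
  have hwv' : w = fun z => Real.exp (wY a b h k m K N z) * v z := funext hwv
  have hdv : ∀ z, DifferentiableAt ℝ v z := fun z => (hvs.differentiable (by simp)) z
  have hdvx : ∀ z, DifferentiableAt ℝ (dx v) z := fun z => (hvx.differentiable (by simp)) z
  have hdvy : ∀ z, DifferentiableAt ℝ (dy v) z := fun z => (hvy.differentiable (by simp)) z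
  have hdw : ∀ z, DifferentiableAt ℝ w z := fun z => (hw.differentiable (by simp)) z
  have hexp : ∀ (z e : ℂ) {r i : ℝ}, HasDerivAt (fun s : ℝ => (z + s • e).re) r 0 →
      HasDerivAt (fun s : ℝ => (z + s • e).im) i 0 →
      HasDerivAt (fun s : ℝ => Real.exp (wY a b h k m K N (z + s • e)))
      (Real.exp (wY a b h k m K N z) * (r * wx a h k K N z + i * wy b k m N z)) 0 := by
    intro z e r i hr hi
    have h := (wY_line a b h k m K N z e hr hi).exp
    simpa using h
  have hwx : dx w = fun z => Real.exp (wY a b h k m K N z) * (wx a h k K N z * v z + dx v z) := by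
    funext z
    refine lineD_iff (hdw z) ?_
    rw [hwv']
    have h := (hexp z 1 (re_line_one z) (im_line_one z)).mul (lineD 1 (hdv z))
    refine h.congr_deriv ?_
    simp only [zero_smul, add_zero, dx]
    ring
  have hwy : dy w = fun z => Real.exp (wY a b h k m K N z) * (wy b k m N z * v z + dy v z) := by
    funext z
    refine lineD_iff (hdw z) ?_
    rw [hwv']
    have h := (hexp z I (re_line_I z) (im_line_I z)).mul (lineD I (hdv z))
    refine h.congr_deriv ?_
    simp only [zero_smul, add_zero, dy]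
    ring
  have hwsx := cd_d 1 hw
  have hwsy := cd_d I hw
  have hlap : ∀ z, lap w z = Real.exp (wY a b h k m K N z) * (lap v z +
      2 * (wx a h k K N z * dx v z + wy b k m N z * dy v z) +
      (N * (h + m) + wx a h k K N z ^ 2 + wy b k m N z ^ 2) * v z) := by
    intro z
    have e1 : dx (dx w) z = Real.exp (wY a b h k m K N z) * (dx (dx v) z +
        2 * wx a h k K N z * dx v z + (N * h + wx a h k K N z ^ 2) * v z) := by
      refine lineD_iff ((hwsx.differentiable (by simp)) z) ?_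
      rw [hwx]
      have h := (hexp z 1 (re_line_one z) (im_line_one z)).mul
        (((wx_line a h k K N z 1 (re_line_one z) (im_line_one z)).mul (lineD 1 (hdv z))).add
        (lineD 1 (hdvx z)))
      refine h.congr_deriv ?_
      simp only [zero_smul, add_zero, dx, Pi.add_apply, Pi.mul_apply]
      ring
    have e2 : dy (dy w) z = Real.exp (wY a b h k m K N z) * (dy (dy v) z +
        2 * wy b k m N z * dy v z + (N * m + wy b k m N z ^ 2) * v z) := by
      refine lineD_iff ((hwsy.differentiable (by simp)) z) ?_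
      rw [hwy]
      have h := (hexp z I (re_line_I z) (im_line_I z)).mul
        (((wy_line b k m N z I (re_line_I z) (im_line_I z)).mul (lineD I (hdv z))).add
        (lineD I (hdvy z)))
      refine h.congr_deriv ?_
      simp only [zero_smul, add_zero, dy, Pi.add_apply, Pi.mul_apply]
      ring
    unfold lap
    rw [e1, e2]
    ring
  -- integrability
  have hlow : Integrable fun z => Real.exp (-2 * wY a b h k m K N z) * w z ^ 2 := by
    have hc : Continuous fun z => Real.exp (-2 * wY a b h k m K N z) * w z ^ 2 :=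
      (Real.continuous_exp.comp (continuous_const.mul hWs.continuous)).mul
        (hw.continuous.pow 2)
    refine hc.integrable_of_hasCompactSupport ?_
    refine HasCompactSupport.of_support_subset_isCompact hwc ?_
    intro z hz
    by_contra h
    apply hz
    have := image_eq_zero_of_notMem_tsupport h
    simp [this]
  have hoffw : ∀ z, z ∉ tsupport w → ∀ᶠ u in 𝓝 z, w u = 0 ∧ lap w u = 0 := by
    intro z hz
    have h0 : w =ᶠ[𝓝 z] fun _ => 0 := notMem_tsupport_iff_eventuallyEq.1 hz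
    have h1 := h0.eventuallyEq_nhds
    have h2 : ∀ᶠ u in 𝓝 z, dx w u = 0 ∧ dy w u = 0 := by
      filter_upwards [h1] with u hu
      refine ⟨?_, ?_⟩
      · unfold dx
        rw [hu.fderiv_eq]
        simp
      · unfold dy
        rw [hu.fderiv_eq]
        simp
    have h3 := h2.eventually_nhds
    filter_upwards [h1, h3] with u hu hu3
    refine ⟨hu.self_of_nhds, ?_⟩
    have h4 : dx w =ᶠ[𝓝 u] fun _ => 0 := by
      filter_upwards [hu3] with t ht using ht.1
    have h5 : dy w =ᶠ[𝓝 u] fun _ => 0 := by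
      filter_upwards [hu3] with t ht using ht.2
    have h6 : dx (dx w) u = 0 := by
      change fderiv ℝ (dx w) u 1 = 0
      rw [h4.fderiv_eq]
      simp
    have h7 : dy (dy w) u = 0 := by
      change fderiv ℝ (dy w) u I = 0
      rw [h5.fderiv_eq]
      simp
    unfold lap
    rw [h6, h7, add_zero]
  have hhigh : Integrable fun z => Real.exp (-2 * wY a b h k m K N z) * (lap w z + q z * w z) ^ 2 := by
    have hlc : Continuous (lap w) :=
      ((cd_d 1 hwsx).continuous).add ((cd_d I hwsy).continuous)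
    have hc : Continuous fun z => Real.exp (-2 * wY a b h k m K N z) * (lap w z + q z * w z) ^ 2 := by
      rw [continuous_iff_continuousAt]
      intro z
      by_cases hz : z ∈ tsupport w
      · obtain ⟨hq1, -⟩ := hq z (hwR hz)
        have c1 : ContinuousAt (fun z => Real.exp (-2 * wY a b h k m K N z)) z :=
          (Real.continuous_exp.comp (continuous_const.mul hWs.continuous)).continuousAt
        exact c1.mul ((hlc.continuousAt.add (hq1.continuousAt.mul hw.continuous.continuousAt)).pow 2)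
      · have h1 : (fun z => Real.exp (-2 * wY a b h k m K N z) * (lap w z + q z * w z) ^ 2) =ᶠ[𝓝 z]
            fun _ => 0 := by
          filter_upwards [hoffw z hz] with u hu
          rw [hu.1, hu.2]
          simp
        exact continuousAt_const.congr h1.symm
    refine hc.integrable_of_hasCompactSupport ?_
    refine HasCompactSupport.of_support_subset_isCompact hwc ?_
    intro z hz
    by_contra h
    apply hz
    have h1 := (hoffw z h).self_of_nhds
    dsimp only
    rw [h1.1, h1.2]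
    simp
  -- the pointwise inequality
  have hpt : ∀ z, Real.exp (-2 * wY a b h k m K N z) * w z ^ 2 +
      (fderiv ℝ X1 z 1 + fderiv ℝ X2 z I) ≤
      Real.exp (-2 * wY a b h k m K N z) * (lap w z + q z * w z) ^ 2 := by
    intro z
    by_cases hz : z ∈ tsupport w
    · have hzR := hwR hz
      obtain ⟨hq1, hq0, hqK, hdq, hmain⟩ := hq z hzR
      have hqd : DifferentiableAt ℝ q z := hq1.differentiableAt (by simp)
      have hmix := mixed hvs z
      have e1 : fderiv ℝ X1 z 1 = (4 * ((N * h * dx v z + wx a h k K N z * dx (dx v) z +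
          N * k * dy v z + wy b k m N z * dy (dx v) z) * dx v z +
          (wx a h k K N z * dx v z + wy b k m N z * dy v z) * dx (dx v) z) -
        2 * ((2 * dx v z * dx (dx v) z + 2 * dy v z * dy (dx v) z) * wx a h k K N z +
          (dx v z ^ 2 + dy v z ^ 2) * (N * h)) +
        2 * (N * (h + m)) * (dx v z ^ 2 + v z * dx (dx v) z) +
        2 * ((2 * wx a h k K N z * (N * h) + 2 * wy b k m N z * (N * k) + dx q z) *
            (v z ^ 2 * wx a h k K N z) +
          (wx a h k K N z ^ 2 + wy b k m N z ^ 2 + q z) * (2 * v z * dx v z * wx a h k K N z +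
            v z ^ 2 * (N * h))) -
        (4 * N * m + lm) * (dx v z ^ 2 + v z * dx (dx v) z)) := by
        refine lineD_iff ((hX1c.differentiable (by simp)) z) ?_
        rw [← hmix]
        have p1 := wx_line a h k K N z 1 (re_line_one z) (im_line_one z)
        have p2 := wy_line b k m N z 1 (re_line_one z) (im_line_one z)
        have v1 := lineD 1 (hdv z)
        have vx1 := lineD 1 (hdvx z)
        have vy1 := lineD 1 (hdvy z)
        have q1 := lineD 1 hqd
        have h := (((((((p1.mul vx1).add (p2.mul vy1)).mul vx1).const_mul 4).sub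
          ((((vx1.pow 2).add (vy1.pow 2)).mul p1).const_mul 2)).add
          ((v1.mul vx1).const_mul (2 * (N * (h + m))))).add
          (((((p1.pow 2).add (p2.pow 2)).add q1).mul ((v1.pow 2).mul p1)).const_mul 2)).sub
          ((v1.mul vx1).const_mul (4 * N * m + lm))
        refine h.congr_deriv ?_
        simp only [zero_smul, add_zero, dx, dy, Pi.add_apply, Pi.mul_apply, Pi.pow_apply,
          Pi.sub_apply]
        norm_num
        ring
      have e2 : fderiv ℝ X2 z I = (4 * ((N * k * dx v z + wx a h k K N z * dy (dx v) z +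
          N * m * dy v z + wy b k m N z * dy (dy v) z) * dy v z +
          (wx a h k K N z * dx v z + wy b k m N z * dy v z) * dy (dy v) z) -
        2 * ((2 * dx v z * dy (dx v) z + 2 * dy v z * dy (dy v) z) * wy b k m N z +
          (dx v z ^ 2 + dy v z ^ 2) * (N * m)) +
        2 * (N * (h + m)) * (dy v z ^ 2 + v z * dy (dy v) z) +
        2 * ((2 * wx a h k K N z * (N * k) + 2 * wy b k m N z * (N * m) + dy q z) *
            (v z ^ 2 * wy b k m N z) +
          (wx a h k K N z ^ 2 + wy b k m N z ^ 2 + q z) * (2 * v z * dy v z * wy b k m N z +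
            v z ^ 2 * (N * m))) -
        (4 * N * m + lm) * (dy v z ^ 2 + v z * dy (dy v) z)) := by
        refine lineD_iff ((hX2c.differentiable (by simp)) z) ?_
        have p1 := wx_line a h k K N z I (re_line_I z) (im_line_I z)
        have p2 := wy_line b k m N z I (re_line_I z) (im_line_I z)
        have v1 := lineD I (hdv z)
        have vx1 := lineD I (hdvx z)
        have vy1 := lineD I (hdvy z)
        have q1 := lineD I hqd
        have h := (((((((p1.mul vx1).add (p2.mul vy1)).mul vy1).const_mul 4).sub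
          ((((vx1.pow 2).add (vy1.pow 2)).mul p2).const_mul 2)).add
          ((v1.mul vy1).const_mul (2 * (N * (h + m))))).add
          (((((p1.pow 2).add (p2.pow 2)).add q1).mul ((v1.pow 2).mul p2)).const_mul 2)).sub
          ((v1.mul vy1).const_mul (4 * N * m + lm))
        refine h.congr_deriv ?_
        simp only [zero_smul, add_zero, dx, dy, Pi.add_apply, Pi.mul_apply, Pi.pow_apply,
          Pi.sub_apply]
        norm_num
        ring
      have hw2 : Real.exp (-2 * wY a b h k m K N z) * w z ^ 2 = v z ^ 2 := by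
        rw [hwv z, mul_pow, ← mul_assoc, ← Real.exp_nat_mul, ← Real.exp_add]
        have : -2 * wY a b h k m K N z + ((2 : ℕ) : ℝ) * (wY a b h k m K N z) = 0 := by
          push_cast
          ring
        rw [this, Real.exp_zero, one_mul]
      have hw3 : Real.exp (-2 * wY a b h k m K N z) * (lap w z + q z * w z) ^ 2 =
          (lap v z + 2 * (wx a h k K N z * dx v z + wy b k m N z * dy v z) +
      (N * (h + m) + wx a h k K N z ^ 2 + wy b k m N z ^ 2) * v z + q z * v z) ^ 2 := by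
        rw [hlap z]
        have h1 : Real.exp (wY a b h k m K N z) * (lap v z +
            2 * (wx a h k K N z * dx v z + wy b k m N z * dy v z) +
            (N * (h + m) + wx a h k K N z ^ 2 + wy b k m N z ^ 2) * v z) + q z * w z =
            Real.exp (wY a b h k m K N z) * (lap v z +
            2 * (wx a h k K N z * dx v z + wy b k m N z * dy v z) +
            (N * (h + m) + wx a h k K N z ^ 2 + wy b k m N z ^ 2) * v z + q z * v z) := by
          rw [hwv z]
          ring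
        rw [h1, mul_pow, ← mul_assoc, ← Real.exp_nat_mul, ← Real.exp_add]
        have : -2 * wY a b h k m K N z + ((2 : ℕ) : ℝ) * (wY a b h k m K N z) = 0 := by
          push_cast
          ring
        rw [this, Real.exp_zero, one_mul]
      rw [hw2, hw3, e1, e2]
      have hzn : ‖z‖ < 1 := by
        have h1 : ‖z‖ < R := by simpa using hzR
        linarith
      have hzr : |z.re| ≤ 1 := (Complex.abs_re_le_norm z).trans hzn.le
      have hzi : |z.im| ≤ 1 := (Complex.abs_im_le_norm z).trans hzn.le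
      have hB0 : 0 ≤ B := by linarith
      have three : ∀ c1 c2 c3 : ℝ, |c1| ≤ B₀ → |c2| ≤ B₀ → |c3| ≤ B₀ →
          |c1 + c2 * z.re + c3 * z.im| ≤ 3 * B := by
        intro c1 c2 c3 h1 h2 h3
        refine (abs_add_three _ _ _).trans ?_
        rw [abs_mul, abs_mul]
        have h4 : |c2| * |z.re| ≤ B₀ * 1 := mul_le_mul h2 hzr (abs_nonneg _) hB₀.le
        have h5 : |c3| * |z.im| ≤ B₀ * 1 := mul_le_mul h3 hzi (abs_nonneg _) hB₀.le
        linarith
      have hN0 : 0 ≤ N := by linarith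
      have g1 : |wx a h k K N z - K| ≤ 3 * B * N := by
        have : wx a h k K N z - K = N * (a + h * z.re + k * z.im) := by
          unfold wx; ring
        rw [this, abs_mul, abs_of_nonneg hN0]
        have := mul_le_mul_of_nonneg_left (three a h k ha hh hk) hN0
        linarith
      have g2 : |wy b k m N z| ≤ 3 * B * N := by
        unfold wy
        rw [abs_mul, abs_of_nonneg hN0]
        have := mul_le_mul_of_nonneg_left (three b k m hb hk hm) hN0
        linarith
      have g3 : |dx q z| ≤ ‖fderiv ℝ q z‖ := by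
        have := (fderiv ℝ q z).le_opNorm 1
        simpa [dx] using this
      have g4 : |dy q z| ≤ ‖fderiv ℝ q z‖ := by
        have := (fderiv ℝ q z).le_opNorm I
        simpa [dy] using this
      unfold lap
      exact algY hB hc₀ hC hCc hCK hN hCN (hh.trans (by linarith)) (hk.trans (by linarith))
        (hm.trans (by linarith)) g1 g2 hq0 hqK hdq g3 g4 hmain rfl
    · have h0 : w z = 0 := image_eq_zero_of_notMem_tsupport hz
      have h1 := (hoffw z hz).self_of_nhds
      rw [(hX1off z hz).fderiv_eq, (hX2off z hz).fderiv_eq, h1.1, h1.2]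
      simp
  have i3 : Integrable fun z => fderiv ℝ X1 z 1 + fderiv ℝ X2 z I := i1.add i2
  have hmono := integral_mono (hlow.add i3) hhigh hpt
  have h1 : ∫ z, (fderiv ℝ X1 z 1 + fderiv ℝ X2 z I) = 0 := by
    have := integral_add i1 i2
    rw [i1', i2', add_zero] at this
    exact this
  have h2 : ∫ z, ((fun z => Real.exp (-2 * wY a b h k m K N z) * w z ^ 2) +
      fun z => (fderiv ℝ X1 z 1 + fderiv ℝ X2 z I)) z =
      ∫ z, Real.exp (-2 * wY a b h k m K N z) * w z ^ 2 := by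
    simp only [Pi.add_apply]
    rw [integral_add hlow i3, h1, add_zero]
  rw [h2] at hmono
  exact hmono

end Pool.Agent.Q73.AD
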