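import Pool.Agent.Q73.AD.YY0

/-! Project AY (helper73), job AY-16: contact with a Gaussian. -/

set_option autoImplicit false

open MeasureTheory Filter Topology Complex Metric
open scoped ContDiff ComplexConjugate

namespace Pool.Agent.Q73.AD

open Pool.Agent.Q73.NL

lemma y10_bdd {f : ℂ → ℝ} {K : Set ℂ} (hK : IsCompact K) (hf : ContinuousOn f K) :
    BddAbove ((fun x => |f x|) '' K) := (hK.image_of_continuousOn hf.abs).bddAbove

lemma y10_le {f : ℂ → ℝ} {K : Set ℂ} (hK : IsCompact K) (hf : ContinuousOn f K) {x : ℂ} (hx : x ∈ K) :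
    |f x| ≤ sn f K := le_csSup (y10_bdd hK hf) ⟨x, hx, rfl⟩

lemma y10_sn_le {f : ℂ → ℝ} {K : Set ℂ} (hK : K.Nonempty) {c : ℝ} (h : ∀ x ∈ K, |f x| ≤ c) :
    sn f K ≤ c := by
  apply csSup_le (hK.image _)
  rintro _ ⟨x, hx, rfl⟩
  exact h x hx

lemma y10_mono {f : ℂ → ℝ} {K K' : Set ℂ} (hK : IsCompact K) (hf : ContinuousOn f K)
    (hn : K'.Nonempty) (hs : K' ⊆ K) : sn f K' ≤ sn f K :=
  y10_sn_le hn fun _ hx => y10_le hK hf (hs hx)

/-- the supremum is attained -/
lemma y10_att {f : ℂ → ℝ} {K : Set ℂ} (hK : IsCompact K) (hf : ContinuousOn f K) (hn : K.Nonempty) :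
    ∃ x ∈ K, |f x| = sn f K := by
  obtain ⟨x, hx, h⟩ := hK.exists_isMaxOn hn hf.abs
  refine ⟨x, hx, le_antisymm (y10_le hK hf hx) (y10_sn_le hn fun y hy => h hy)⟩

lemma y10_norm (a b c : ℂ) :
    ‖a - c‖ ^ 2 - ‖b - c‖ ^ 2 = ‖a - b‖ ^ 2 + 2 * (conj (b - c) * (a - b)).re := by
  rw [Complex.sq_norm, Complex.sq_norm, Complex.sq_norm]
  simp only [Complex.normSq_apply, Complex.sub_re, Complex.sub_im, Complex.mul_re, Complex.conj_re,
    Complex.conj_im, map_sub]
  ring

theorem ty10 : Y10 := by
  intro lam L s G E ε p ρ φ M a hL hM ha hG hε hε1 hE hgrow hgr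
  have hM8 : (8 : ℝ) ≤ M := by exact_mod_cast hM
  have hM0 : (0 : ℝ) < M := by linarith
  have hs := hL.s_pos
  have hκ : 0 < Real.sqrt lam := Real.sqrt_pos.2 hL.lam_pos
  set κ := Real.sqrt lam with hκd
  set sc : ℝ := s / M with hsc
  set pc : ℂ := p + s * ct M a with hpc
  have hsc0 : 0 < sc := by positivity
  have hscs : sc * M = s := by rw [hsc]; field_simp
  have hsc8 : 8 * sc ≤ s := by rw [← hscs]; nlinarith
  have hct := ct_norm ha
  have hs2 : Real.sqrt 2 ≤ 2 := by
    rw [Real.sqrt_le_left (by norm_num)]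
    norm_num
  have hpcp : ‖pc - p‖ ≤ 2 * s := by
    have : pc - p = (s : ℂ) * ct M a := by rw [hpc]; ring
    rw [this, norm_mul, Complex.norm_real, Real.norm_of_nonneg hs.le]
    nlinarith
  have hsub : ∀ (z : ℂ) (r : ℝ), ‖z - pc‖ + r ≤ 30 * s → closedBall z r ⊆ closedBall p (32 * s) := by
    intro z r h x hx
    rw [mem_closedBall, dist_eq_norm] at hx ⊢
    have h1 : x - p = (x - z) + (z - pc) + (pc - p) := by ring
    rw [h1]
    have h2 := norm_add₃_le (a := x - z) (b := z - pc) (c := pc - p)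
    linarith
  have hcontB : ContinuousOn φ (closedBall p (32 * s)) := fun z hz =>
    ((hL.sol z hz).1.continuousAt).continuousWithinAt
  have hpos : ∀ (z : ℂ) (r : ℝ), 0 < r → ‖z - pc‖ + r ≤ 30 * s → 0 < sn φ (closedBall z r) :=
    fun z r hr h => hL.pos z r hr (hsub z r h)
  have hpc0 : ‖pc - pc‖ = 0 := by simp
  have hcomp : ∀ (z : ℂ) (r : ℝ), IsCompact (closedBall z r) := fun z r => isCompact_closedBall z r
  have hne : ∀ (z : ℂ) (r : ℝ), 0 ≤ r → (closedBall z r).Nonempty := fun z r hr =>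
    ⟨z, mem_closedBall_self hr⟩
  set β : ℝ := G * κ / (2048 * sc) with hβ
  have hβ0 : 0 < β := by positivity
  have hβsc : β * sc = G * κ / 2048 := by rw [hβ]; field_simp
  set F : ℂ → ℝ := fun x => |φ x| * Real.exp (-β * ‖x - pc‖ ^ 2) with hF
  have hc16 : ContinuousOn φ (closedBall pc (16 * s)) := hcontB.mono (hsub _ _ (by rw [hpc0]; linarith))
  have hFc : ContinuousOn F (closedBall pc (16 * s)) := by
    apply ContinuousOn.mul hc16.abs
    apply Continuous.continuousOn
    fun_prop
  obtain ⟨y, hy, hymax⟩ := (hcomp pc (16 * s)).exists_isMaxOn (hne pc (16 * s) (by linarith)) hFc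
  -- the point x'
  have hc32 : ContinuousOn φ (closedBall pc (32 * sc)) := hcontB.mono (hsub _ _ (by rw [hpc0]; linarith))
  obtain ⟨x', hx', hx'eq⟩ := y10_att (hcomp pc (32 * sc)) hc32 (hne _ _ (by positivity))
  have hx'16 : x' ∈ closedBall pc (16 * s) := by
    rw [mem_closedBall] at hx' ⊢
    linarith
  have hx'n : ‖x' - pc‖ ≤ 32 * sc := by rwa [mem_closedBall, dist_eq_norm] at hx'
  have hsn2 : 0 < sn φ (closedBall pc (2 * sc)) := hpos pc (2 * sc) (by positivity) (by rw [hpc0]; linarith)
  have hsn32 : 0 < sn φ (closedBall pc (32 * sc)) := hpos pc (32 * sc) (by positivity) (by rw [hpc0]; linarith)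
  have hsn1 : 0 < sn φ (closedBall pc sc) := hpos pc sc (by positivity) (by rw [hpc0]; linarith)
  have hsnp : 0 < sn φ (closedBall p (32 * s)) := hL.pos p (32 * s) (by positivity) subset_rfl
  have hbig : Real.exp (G * κ * sc) * sn φ (closedBall pc (2 * sc)) < sn φ (closedBall pc (32 * sc)) := by
    have h1 : G * κ * sc < Real.log (sn φ (closedBall pc (32 * sc)) / sn φ (closedBall pc (2 * sc))) := hgr
    have h2 := Real.exp_lt_exp.2 h1
    rw [Real.exp_log (by positivity), lt_div_iff₀ hsn2] at h2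
    exact h2
  have hFx' : Real.exp (-(G * κ * sc) / 2) * sn φ (closedBall pc (32 * sc)) ≤ F x' := by
    rw [hF]
    dsimp only
    rw [hx'eq, mul_comm]
    apply mul_le_mul_of_nonneg_left _ hsn32.le
    apply Real.exp_le_exp.2
    have h1 : ‖x' - pc‖ ^ 2 ≤ (32 * sc) ^ 2 := pow_le_pow_left₀ (norm_nonneg _) hx'n 2
    have h2 : β * (32 * sc) ^ 2 = G * κ * sc / 2 := by
      calc β * (32 * sc) ^ 2 = (β * sc) * (1024 * sc) := by ring
        _ = _ := by rw [hβsc]; ring
    nlinarith
  have hFy : Real.exp (-(G * κ * sc) / 2) * sn φ (closedBall pc (32 * sc)) ≤ F y :=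
    hFx'.trans (hymax hx'16)
  -- lower bound of the distance
  have hy2 : 2 * sc < ‖y - pc‖ := by
    by_contra h
    push Not at h
    have hymem : y ∈ closedBall pc (2 * sc) := by
      rwa [mem_closedBall, dist_eq_norm]
    have hc2 : ContinuousOn φ (closedBall pc (2 * sc)) := hcontB.mono (hsub _ _ (by rw [hpc0]; linarith))
    have h1 : F y ≤ sn φ (closedBall pc (2 * sc)) := by
      rw [hF]
      dsimp only
      have h3 : Real.exp (-β * ‖y - pc‖ ^ 2) ≤ 1 := by
        rw [Real.exp_le_one_iff]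
        nlinarith [sq_nonneg ‖y - pc‖]
      calc |φ y| * Real.exp (-β * ‖y - pc‖ ^ 2) ≤ |φ y| * 1 :=
            mul_le_mul_of_nonneg_left h3 (abs_nonneg _)
        _ ≤ _ := by
          rw [mul_one]
          exact y10_le (hcomp _ _) hc2 hymem
    have h2 : Real.exp (-(G * κ * sc) / 2) * (Real.exp (G * κ * sc) * sn φ (closedBall pc (2 * sc))) <
        Real.exp (-(G * κ * sc) / 2) * sn φ (closedBall pc (32 * sc)) :=
      mul_lt_mul_of_pos_left hbig (Real.exp_pos _)
    rw [← mul_assoc, ← Real.exp_add] at h2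
    have h3 : 1 ≤ Real.exp (-(G * κ * sc) / 2 + G * κ * sc) := by
      apply Real.one_le_exp
      have : 0 < G * κ * sc := by positivity
      linarith
    nlinarith
  -- upper bound of the distance
  have hy8 : ‖y - pc‖ < 8 * s := by
    by_contra h
    push Not at h
    have hymem : y ∈ closedBall p (32 * s) := hsub pc (16 * s) (by rw [hpc0]; linarith) hy
    have h1 : F y ≤ sn φ (closedBall p (32 * s)) * Real.exp (-β * (8 * s) ^ 2) := by
      rw [hF]
      dsimp only
      apply mul_le_mul (y10_le (hcomp _ _) hcontB hymem) _ (Real.exp_pos _).le hsnp.le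
      apply Real.exp_le_exp.2
      have : (8 * s) ^ 2 ≤ ‖y - pc‖ ^ 2 := pow_le_pow_left₀ (by positivity) h 2
      nlinarith
    have h2 : sn φ (closedBall p (32 * s)) ≤ Real.exp E * sn φ (closedBall pc sc) := by
      apply hgrow
      rw [mem_closedBall, dist_eq_norm]
      exact hpcp
    have h3 : sn φ (closedBall pc sc) ≤ sn φ (closedBall pc (32 * sc)) :=
      y10_mono (hcomp _ _) hc32 (hne _ _ hsc0.le) (closedBall_subset_closedBall (by linarith))
    have h4 : sn φ (closedBall p (32 * s)) * Real.exp (-(G * κ * sc) / 2 - E) ≤ F y := by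
      refine le_trans ?_ hFy
      calc sn φ (closedBall p (32 * s)) * Real.exp (-(G * κ * sc) / 2 - E)
          ≤ (Real.exp E * sn φ (closedBall pc (32 * sc))) * Real.exp (-(G * κ * sc) / 2 - E) := by
            apply mul_le_mul_of_nonneg_right _ (Real.exp_pos _).le
            exact h2.trans (mul_le_mul_of_nonneg_left h3 (Real.exp_pos _).le)
        _ = Real.exp (-(G * κ * sc) / 2) * sn φ (closedBall pc (32 * sc)) := by
          rw [Real.exp_sub]
          field_simp
    have h5 := h4.trans h1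
    have h6 : Real.exp (-(G * κ * sc) / 2 - E) ≤ Real.exp (-β * (8 * s) ^ 2) := by
      by_contra h7
      push Not at h7
      have := mul_lt_mul_of_pos_left h7 hsnp
      linarith
    have h7 := Real.exp_le_exp.1 h6
    -- 64 β s² = G κ M s / 32
    have h8 : β * (8 * s) ^ 2 = G * κ * s * M / 32 := by
      have : β * (8 * s) ^ 2 = 64 * (β * sc) * (M * s) := by
        have : s ^ 2 = (sc * M) * s := by rw [hscs]; ring
        calc β * (8 * s) ^ 2 = 64 * β * s ^ 2 := by ring
          _ = 64 * β * ((sc * M) * s) := by rw [this]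
          _ = _ := by ring
      rw [this, hβsc]
      ring
    have h9 : G * κ * sc / 2 < G * κ * s * M / 64 := by
      rw [← hscs]
      have h10 : 0 < G * κ * sc := by positivity
      have h11 : 64 ≤ (M : ℝ) * M := by nlinarith
      nlinarith
    have h10 : M / 64 * (G * κ * s) = G * κ * s * M / 64 := by ring
    rw [h10] at hE
    nlinarith
  -- the frequency
  refine ⟨y, 2 * β * (y - pc), hy8.le, ?_, ?_⟩
  · have h1 : ‖(2 * β * (y - pc) : ℂ)‖ = 2 * β * ‖y - pc‖ := by
      rw [norm_mul, norm_mul, Complex.norm_real, Real.norm_of_nonneg hβ0.le]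
      simp
    rw [h1]
    nlinarith
  · have hν : ‖(2 * β * (y - pc) : ℂ)‖ = 2 * β * ‖y - pc‖ := by
      rw [norm_mul, norm_mul, Complex.norm_real, Real.norm_of_nonneg hβ0.le]
      simp
    intro p' s' hs' hs'le hyp'
    rw [hν]
    have hs'sc : 289 * s' ≤ ε * sc := by
      rw [le_div_iff₀ (by norm_num)] at hs'le
      linarith
    have hs'sc2 : 289 * s' ≤ sc := by nlinarith
    set ν : ℂ := 2 * β * (y - pc) with hνd
    -- the pointwise inequality
    have key : ∀ x ∈ closedBall pc (16 * s), |cj ν φ x| ≤ |cj ν φ y| * Real.exp (β * ‖x - y‖ ^ 2) := by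
      intro x hx
      have h1 : F x ≤ F y := hymax hx
      rw [hF] at h1
      dsimp only at h1
      unfold cj
      rw [abs_mul, abs_mul, abs_of_pos (Real.exp_pos _), abs_of_pos (Real.exp_pos _)]
      have h2 := y10_norm x y pc
      have h3 : (conj ν * x).re - (conj ν * y).re = 2 * β * (conj (y - pc) * (x - y)).re := by
        rw [hνd]
        simp only [map_mul, Complex.conj_ofReal, Complex.mul_re, Complex.mul_im, Complex.ofReal_re,
          Complex.ofReal_im, Complex.conj_re, Complex.conj_im, Complex.sub_re, Complex.sub_im, map_ofNat,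
          Complex.re_ofNat, Complex.im_ofNat]
        ring
      have h4 : |φ x| ≤ |φ y| * Real.exp (β * (‖x - pc‖ ^ 2 - ‖y - pc‖ ^ 2)) := by
        have h5 : |φ x| = (|φ x| * Real.exp (-β * ‖x - pc‖ ^ 2)) * Real.exp (β * ‖x - pc‖ ^ 2) := by
          rw [mul_assoc, ← Real.exp_add]
          simp
        rw [h5]
        calc (|φ x| * Real.exp (-β * ‖x - pc‖ ^ 2)) * Real.exp (β * ‖x - pc‖ ^ 2)
            ≤ (|φ y| * Real.exp (-β * ‖y - pc‖ ^ 2)) * Real.exp (β * ‖x - pc‖ ^ 2) :=
              mul_le_mul_of_nonneg_right h1 (Real.exp_pos _).le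
          _ = _ := by
            rw [mul_assoc, ← Real.exp_add]
            congr 2
            ring
      calc Real.exp (-(conj ν * x).re) * |φ x|
          ≤ Real.exp (-(conj ν * x).re) * (|φ y| * Real.exp (β * (‖x - pc‖ ^ 2 - ‖y - pc‖ ^ 2))) :=
            mul_le_mul_of_nonneg_left h4 (Real.exp_pos _).le
        _ = Real.exp (-(conj ν * y).re) * |φ y| * Real.exp (β * ‖x - y‖ ^ 2) := by
          have h6 : Real.exp (-(conj ν * x).re) * Real.exp (β * (‖x - pc‖ ^ 2 - ‖y - pc‖ ^ 2)) =
              Real.exp (-(conj ν * y).re) * Real.exp (β * ‖x - y‖ ^ 2) := by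
            rw [← Real.exp_add, ← Real.exp_add]
            congr 1
            rw [h2]
            linarith
          calc Real.exp (-(conj ν * x).re) * (|φ y| * Real.exp (β * (‖x - pc‖ ^ 2 - ‖y - pc‖ ^ 2)))
              = |φ y| * (Real.exp (-(conj ν * x).re) *
                  Real.exp (β * (‖x - pc‖ ^ 2 - ‖y - pc‖ ^ 2))) := by ring
            _ = |φ y| * (Real.exp (-(conj ν * y).re) * Real.exp (β * ‖x - y‖ ^ 2)) := by rw [h6]
            _ = _ := by ring
    have hcjc : ∀ K : Set ℂ, ContinuousOn φ K → ContinuousOn (cj ν φ) K := by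
      intro K hK
      unfold cj
      apply ContinuousOn.mul _ hK
      apply Continuous.continuousOn
      fun_prop
    have hyp2 : y ∈ closedBall p' (2 * s') := by
      rwa [mem_closedBall, dist_eq_norm]
    have hp'pc : ‖p' - pc‖ ≤ 2 * s' + 8 * s := by
      have h1 : p' - pc = -(y - p') + (y - pc) := by ring
      rw [h1]
      have := norm_add_le (-(y - p')) (y - pc)
      rw [norm_neg] at this
      linarith
    have hcp' : ContinuousOn φ (closedBall p' (2 * s')) := hcontB.mono (hsub _ _ (by linarith))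
    have h1 : |cj ν φ y| ≤ SS ν φ p' (2 * s') := y10_le (hcomp _ _) (hcjc _ hcp') hyp2
    have h2 : SS ν φ p' (32 * s') ≤ |cj ν φ y| * Real.exp (β * (34 * s') ^ 2) := by
      apply y10_sn_le (hne _ _ (by positivity))
      intro x hx
      have hxp : ‖x - p'‖ ≤ 32 * s' := by rwa [mem_closedBall, dist_eq_norm] at hx
      have hx16 : x ∈ closedBall pc (16 * s) := by
        rw [mem_closedBall, dist_eq_norm]
        have h3 : x - pc = (x - p') + (p' - pc) := by ring
        rw [h3]
        have := norm_add_le (x - p') (p' - pc)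
        linarith
      refine (key x hx16).trans ?_
      apply mul_le_mul_of_nonneg_left _ (abs_nonneg _)
      apply Real.exp_le_exp.2
      apply mul_le_mul_of_nonneg_left _ hβ0.le
      apply pow_le_pow_left₀ (norm_nonneg _)
      have h3 : x - y = (x - p') + (-(y - p')) := by ring
      rw [h3]
      have := norm_add_le (x - p') (-(y - p'))
      rw [norm_neg] at this
      linarith
    have h3 : β * (34 * s') ^ 2 ≤ ε * (2 * β * ‖y - pc‖ * s') := by
      have h4 : 1156 * s' ≤ ε * (2 * ‖y - pc‖) := by nlinarith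
      have h5 : 0 < β * s' := by positivity
      nlinarith
    calc SS ν φ p' (32 * s') ≤ |cj ν φ y| * Real.exp (β * (34 * s') ^ 2) := h2
      _ ≤ SS ν φ p' (2 * s') * Real.exp (ε * (2 * β * ‖y - pc‖ * s')) := by
        apply mul_le_mul h1 (Real.exp_le_exp.2 h3) (Real.exp_pos _).le
        exact (abs_nonneg _).trans h1
      _ = _ := mul_comm _ _

end Pool.Agent.Q73.AD
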