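import Pool.Agent.Q73.AD.StmY
import Pool.Agent.Q73.AD.TA2

/-! Project AY (helper73), job AY-2: the weighted Caccioppoli inequality with a general weight. -/

set_option autoImplicit false

open MeasureTheory Filter Topology Complex Metric
open scoped ContDiff

namespace Pool.Agent.Q73.AD

open Pool.Agent.Q73.NL

/-- the weight -/
noncomputable def wg (Ψ : ℂ → ℝ) (z : ℂ) : ℝ := Real.exp (-2 * Ψ z)

lemma wg_cd {Ψ : ℂ → ℝ} (hΨ : ContDiff ℝ ∞ Ψ) : ContDiff ℝ ∞ (wg Ψ) := by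
  unfold wg
  exact (contDiff_const.mul hΨ).exp

lemma wg_der {Ψ : ℂ → ℝ} (hΨ : ContDiff ℝ ∞ Ψ) (z v : ℂ) :
    fderiv ℝ (wg Ψ) z v = -2 * fderiv ℝ Ψ z v * wg Ψ z := by
  have h1 : HasFDerivAt Ψ (fderiv ℝ Ψ z) z := (hΨ.differentiable (by simp) z).hasFDerivAt
  have h2 : HasFDerivAt (wg Ψ) _ z := (h1.const_mul (-2)).exp
  rw [h2.fderiv]
  simp only [ContinuousLinearMap.smul_apply, smul_eq_mul]
  unfold wg
  ring

/-- the derivative of the field -/
lemma ty2_field {Ψ : ℂ → ℝ} (hΨ : ContDiff ℝ ∞ Ψ) (χ h g : ℂ → ℝ) (z v : ℂ) (hχ : DifferentiableAt ℝ χ z)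
    (hh : DifferentiableAt ℝ h z) (hg : DifferentiableAt ℝ g z) :
    fderiv ℝ (fun z => χ z * (χ z * (wg Ψ z * (h z * g z)))) z v =
      2 * (χ z * fderiv ℝ χ z v * wg Ψ z * h z * g z) +
      χ z ^ 2 * (fderiv ℝ (wg Ψ) z v * h z * g z + wg Ψ z * (fderiv ℝ h z v * g z +
        h z * fderiv ℝ g z v)) := by
  have hw : DifferentiableAt ℝ (wg Ψ) z := (wg_cd hΨ).differentiable (by simp) z
  have h1 := hχ.hasFDerivAt.mul (hχ.hasFDerivAt.mul (hw.hasFDerivAt.mul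
    (hh.hasFDerivAt.mul hg.hasFDerivAt)))
  have h2 : fderiv ℝ (fun z => χ z * (χ z * (wg Ψ z * (h z * g z)))) z = _ := h1.fderiv
  rw [h2]
  simp only [ContinuousLinearMap.add_apply, ContinuousLinearMap.smul_apply, smul_eq_mul,
    Pi.mul_apply]
  ring

/-- the inequality, also with the weight one -/
theorem ty2_gen (μ κ R : ℝ) (Ψ q h χ : ℂ → ℝ) (hΨ : ContDiff ℝ ∞ Ψ)
    (hμ : ∀ z ∈ ball (0 : ℂ) R, dx Ψ z ^ 2 + dy Ψ z ^ 2 ≤ μ ^ 2)
    (hχ : ContDiff ℝ ∞ χ) (hχc : HasCompactSupport χ) (hχs : tsupport χ ⊆ ball 0 R)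
    (hsol : ∀ z ∈ ball (0 : ℂ) R, ContDiffAt ℝ ∞ h z ∧ |q z| ≤ κ ^ 2 ∧ lap h z + q z * h z = 0) :
    ∫ z, Real.exp (-2 * Ψ z) * χ z ^ 2 * (dx h z ^ 2 + dy h z ^ 2) ≤
    ∫ z, Real.exp (-2 * Ψ z) *
      (8 * (dx χ z ^ 2 + dy χ z ^ 2) + (8 * μ ^ 2 + 2 * κ ^ 2) * χ z ^ 2) * h z ^ 2 := by
  -- smoothness in the ball
  have hdx : ∀ z ∈ ball (0 : ℂ) R, ContDiffAt ℝ ∞ (dx h) z := fun z hz =>
    ((hsol z hz).1.fderiv_right (m := ∞) (by simp)).clm_apply contDiffAt_const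
  have hdy : ∀ z ∈ ball (0 : ℂ) R, ContDiffAt ℝ ∞ (dy h) z := fun z hz =>
    ((hsol z hz).1.fderiv_right (m := ∞) (by simp)).clm_apply contDiffAt_const
  have hw : ∀ z, ContDiffAt ℝ ∞ (wg Ψ) z := fun z => (wg_cd hΨ).contDiffAt
  have hX : ∀ g : ℂ → ℝ, (∀ z ∈ ball (0 : ℂ) R, ContDiffAt ℝ ∞ g z) →
      ContDiff ℝ 1 (fun z => χ z * (χ z * (wg Ψ z * (h z * g z)))) := by
    intro g hg
    have := ta2_cd (n := ∞) hχ hχs (g := fun z => χ z * (wg Ψ z * (h z * g z)))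
      fun z hz => hχ.contDiffAt.mul ((hw z).mul ((hsol z hz).1.mul (hg z hz)))
    exact this.of_le (by simp)
  have hX1 := hX (dx h) hdx
  have hX2 := hX (dy h) hdy
  set X1 : ℂ → ℝ := fun z => χ z * (χ z * (wg Ψ z * (h z * dx h z))) with hX1d
  set X2 : ℂ → ℝ := fun z => χ z * (χ z * (wg Ψ z * (h z * dy h z))) with hX2d
  obtain ⟨i1, j1⟩ := int_der hX1 hχc.mul_right 1
  obtain ⟨i2, j2⟩ := int_der hX2 hχc.mul_right I
  -- the pointwise inequality
  have hpt : ∀ z, wg Ψ z * χ z ^ 2 * (dx h z ^ 2 + dy h z ^ 2) ≤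
      2 * (fderiv ℝ X1 z 1 + fderiv ℝ X2 z I) + wg Ψ z *
      (8 * (dx χ z ^ 2 + dy χ z ^ 2) + (8 * μ ^ 2 + 2 * κ ^ 2) * χ z ^ 2) * h z ^ 2 := by
    intro z
    have hwp : 0 < wg Ψ z := Real.exp_pos _
    by_cases hz : z ∈ ball (0 : ℂ) R
    · have hd := hsol z hz
      have hhd : DifferentiableAt ℝ h z := hd.1.differentiableAt (by simp)
      have hχd : DifferentiableAt ℝ χ z := hχ.differentiable (by simp) z
      have e1 := ty2_field hΨ χ h (dx h) z 1 hχd hhd ((hdx z hz).differentiableAt (by simp))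
      have e2 := ty2_field hΨ χ h (dy h) z I hχd hhd ((hdy z hz).differentiableAt (by simp))
      rw [wg_der hΨ] at e1 e2
      have e3 : fderiv ℝ X1 z 1 = _ := e1
      have e4 : fderiv ℝ X2 z I = _ := e2
      rw [e3, e4]
      have hlap : fderiv ℝ (dx h) z 1 + fderiv ℝ (dy h) z I + q z * h z = 0 := hd.2.2
      have d1 : fderiv ℝ h z 1 = dx h z := rfl
      have d2 : fderiv ℝ h z I = dy h z := rfl
      have d3 : fderiv ℝ χ z 1 = dx χ z := rfl
      have d4 : fderiv ℝ χ z I = dy χ z := rfl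
      rw [d1, d2, d3, d4]
      set w := wg Ψ z
      set c := χ z
      set cx := dx χ z
      set cy := dy χ z
      set u := h z
      set ux := dx h z
      set uy := dy h z
      set uxx := fderiv ℝ (dx h) z 1
      set uyy := fderiv ℝ (dy h) z I
      have d5 : fderiv ℝ Ψ z 1 = dx Ψ z := rfl
      have d6 : fderiv ℝ Ψ z I = dy Ψ z := rfl
      rw [d5, d6]
      have hμz := hμ z hz
      set px := dx Ψ z
      set py := dy Ψ z
      have huyy : uyy = -q z * u - uxx := by linarith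
      rw [huyy]
      have hq : q z ≤ κ ^ 2 := (le_abs_self _).trans hd.2.1
      have key : 0 ≤ (1 / 2) * (c * ux + 4 * (u * cx)) ^ 2 + (1 / 2) * (c * ux - 4 * px * (c * u)) ^ 2
          + (1 / 2) * (c * uy + 4 * (u * cy)) ^ 2 + (1 / 2) * (c * uy - 4 * py * (c * u)) ^ 2
          + 8 * (μ ^ 2 - (px ^ 2 + py ^ 2)) * (c * u) ^ 2 + 2 * (κ ^ 2 - q z) * (c * u) ^ 2 := by
        have h1 : 0 ≤ μ ^ 2 - (px ^ 2 + py ^ 2) := by linarith
        have h2 : 0 ≤ κ ^ 2 - q z := by linarith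
        positivity
      have key2 := mul_nonneg hwp.le key
      nlinarith [key2]
    · have hz' : z ∉ tsupport χ := fun hh => hz (hχs hh)
      have hc : χ z = 0 := image_eq_zero_of_notMem_tsupport hz'
      have hev : ∀ g : ℂ → ℝ, (fun z => χ z * (χ z * (wg Ψ z * (h z * g z)))) =ᶠ[𝓝 z] fun _ => 0 := by
        intro g
        have h2 : (tsupport χ)ᶜ ∈ 𝓝 z := (isClosed_tsupport χ).isOpen_compl.mem_nhds hz'
        filter_upwards [h2] with y hy
        rw [image_eq_zero_of_notMem_tsupport hy, zero_mul]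
      have e1 : fderiv ℝ X1 z = 0 := by
        rw [hX1d, (hev (dx h)).fderiv_eq]
        simp
      have e2 : fderiv ℝ X2 z = 0 := by
        rw [hX2d, (hev (dy h)).fderiv_eq]
        simp
      rw [e1, e2, hc]
      simp only [ContinuousLinearMap.zero_apply]
      have : 0 ≤ wg Ψ z * (8 * (dx χ z ^ 2 + dy χ z ^ 2) + (8 * μ ^ 2 + 2 * κ ^ 2) * 0 ^ 2) *
          h z ^ 2 := by positivity
      linarith
  -- integrability
  have hcχ : Continuous χ := hχ.continuous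
  have hcont : ∀ z ∈ ball (0 : ℂ) R, ContinuousAt h z := fun z hz => (hsol z hz).1.continuousAt
  have hwc : ∀ z, ContinuousAt (wg Ψ) z := fun z => (hw z).continuousAt
  have k1 : Integrable fun z => wg Ψ z * χ z ^ 2 * (dx h z ^ 2 + dy h z ^ 2) := by
    have := ta2_int hcχ hχc hχs
      (g := fun z => χ z * (wg Ψ z * (dx h z ^ 2 + dy h z ^ 2))) fun z hz =>
        hcχ.continuousAt.mul ((hwc z).mul (((hdx z hz).continuousAt.pow 2).add
          ((hdy z hz).continuousAt.pow 2)))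
    refine this.congr (Eventually.of_forall fun z => ?_)
    simp only
    ring
  have hder : ∀ v : ℂ, Continuous (fun z => fderiv ℝ χ z v) ∧
      HasCompactSupport (fun z => fderiv ℝ χ z v) ∧ tsupport (fun z => fderiv ℝ χ z v) ⊆ ball 0 R := by
    intro v
    refine ⟨(hχ.continuous_fderiv (by simp)).clm_apply continuous_const, hχc.fderiv_apply ℝ v, ?_⟩
    refine (tsupport_fderiv_apply_subset ℝ v).trans hχs
  have k2a : ∀ v : ℂ, Integrable fun z => fderiv ℝ χ z v ^ 2 * (wg Ψ z * h z ^ 2) := by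
    intro v
    obtain ⟨h1, h2, h3⟩ := hder v
    have := ta2_int h1 h2 h3 (g := fun z => fderiv ℝ χ z v * (wg Ψ z * h z ^ 2)) fun z hz =>
      h1.continuousAt.mul ((hwc z).mul ((hcont z hz).pow 2))
    refine this.congr (Eventually.of_forall fun z => ?_)
    simp only
    ring
  have k2b : Integrable fun z => χ z ^ 2 * (wg Ψ z * h z ^ 2) := by
    have := ta2_int hcχ hχc hχs (g := fun z => χ z * (wg Ψ z * h z ^ 2)) fun z hz =>
      hcχ.continuousAt.mul ((hwc z).mul ((hcont z hz).pow 2))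
    refine this.congr (Eventually.of_forall fun z => ?_)
    simp only
    ring
  have k2 : Integrable fun z => wg Ψ z *
      (8 * (dx χ z ^ 2 + dy χ z ^ 2) + (8 * μ ^ 2 + 2 * κ ^ 2) * χ z ^ 2) * h z ^ 2 := by
    have := (((k2a 1).const_mul 8).add ((k2a I).const_mul 8)).add
      (k2b.const_mul (8 * μ ^ 2 + 2 * κ ^ 2))
    refine this.congr (Eventually.of_forall fun z => ?_)
    simp only [Pi.add_apply, dx, dy]
    ring
  have k3 : Integrable fun z => 2 * (fderiv ℝ X1 z 1 + fderiv ℝ X2 z I) := (i1.add i2).const_mul 2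
  have hmono := integral_mono k1 (k3.add k2) fun z => hpt z
  have e5 : ∫ z, (2 * (fderiv ℝ X1 z 1 + fderiv ℝ X2 z I) + wg Ψ z *
      (8 * (dx χ z ^ 2 + dy χ z ^ 2) + (8 * μ ^ 2 + 2 * κ ^ 2) * χ z ^ 2) * h z ^ 2) =
      ∫ z, wg Ψ z *
      (8 * (dx χ z ^ 2 + dy χ z ^ 2) + (8 * μ ^ 2 + 2 * κ ^ 2) * χ z ^ 2) * h z ^ 2 := by
    have h0 : ∫ z, (fderiv ℝ X1 z 1 + fderiv ℝ X2 z I) = 0 := by
      rw [integral_add i1 i2, j1, j2, add_zero]
    rw [integral_add k3 k2, integral_const_mul, h0]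
    ring
  calc ∫ z, Real.exp (-2 * Ψ z) * χ z ^ 2 * (dx h z ^ 2 + dy h z ^ 2)
      ≤ ∫ z, (2 * (fderiv ℝ X1 z 1 + fderiv ℝ X2 z I) + wg Ψ z *
      (8 * (dx χ z ^ 2 + dy χ z ^ 2) + (8 * μ ^ 2 + 2 * κ ^ 2) * χ z ^ 2) * h z ^ 2) := hmono
    _ = _ := e5

theorem ty2 : Y2 := fun μ κ R Ψ q h χ _ hΨ hμ hχ hχc hχs hsol =>
  ty2_gen μ κ R Ψ q h χ hΨ hμ hχ hχc hχs hsol

end Pool.Agent.Q73.AD
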