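import Mathlib

/-!
# Squares and the stopping time argument over the scales: statements

The squares of level `i` are the elements of `gd (M ^ i)`, pairs of natural numbers `< M ^ i`; each square
has `M²` subsquares of the next level.

`g i a` is the rate of the square `a` of level `i`. `Lin i a` says that the square is linear: then it has a
finite set `Rel i a` of released descendants (relative level, relative index) of small area, and the rate of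
all other descendants is comparable with `x i a`.

`cap i b` is the linear square that captures the square `b` of level `i` (if any): going down from the root,
a square that is not captured and linear captures itself and its descendants, until they are released.
-/

set_option autoImplicit false

namespace Pool.Agent.Q73.AD

/-- the indices of the `m²` subsquares of a square -/
def gd (m : ℕ) : Finset (ℕ × ℕ) := Finset.range m ×ˢ Finset.range m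

/-- the ancestor of a square, `m` times larger -/
def anc (m : ℕ) (b : ℕ × ℕ) : ℕ × ℕ := (b.1 / m, b.2 / m)

/-- the relative index of a square in its ancestor, `m` times larger -/
def md (m : ℕ) (b : ℕ × ℕ) : ℕ × ℕ := (b.1 % m, b.2 % m)

/-- the subsquare with the relative index `c` (of `m²`) of the square `a` -/
def ch (m : ℕ) (a c : ℕ × ℕ) : ℕ × ℕ := (a.1 * m + c.1, a.2 * m + c.2)

open Classical in
/-- the capturing square -/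
noncomputable def cap (M : ℕ) (Lin : ℕ → ℕ × ℕ → Prop) (Rel : ℕ → ℕ × ℕ → Finset (ℕ × (ℕ × ℕ))) :
    ℕ → ℕ × ℕ → Option (ℕ × (ℕ × ℕ))
  | 0, b => if Lin 0 b then some (0, b) else none
  | i + 1, b =>
    match cap M Lin Rel i (anc M b) with
    | none => if Lin (i + 1) b then some (i + 1, b) else none
    | some P =>
      if (i + 1 - P.1, md (M ^ (i + 1 - P.1)) b) ∈ Rel P.1 P.2 then
        (if Lin (i + 1) b then some (i + 1, b) else none)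
      else some P

/-- the setting of the stopping time argument: levels `0, …, J` -/
structure Tree (M A l l₁ J : ℕ) (G G₂ C₂ C₃ θ θ₁ : ℝ) (g : ℕ → ℕ × ℕ → ℝ) (Lin : ℕ → ℕ × ℕ → Prop)
    (x : ℕ → ℕ × ℕ → ℝ) (Rel : ℕ → ℕ × ℕ → Finset (ℕ × (ℕ × ℕ))) : Prop where
  two_le : 2 ≤ M
  one_le_A : 1 ≤ A
  one_le_l : 1 ≤ l
  G_nonneg : 0 ≤ G
  G_le : G ≤ G₂
  one_le_C₂ : 1 ≤ C₂
  one_le_C₃ : 1 ≤ C₃
  θ_nonneg : 0 ≤ θ
  θ_le : θ * (4 * C₂ + 1) ≤ 1 / 2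
  θ₁_nonneg : 0 ≤ θ₁
  θ₁_le : θ₁ ≤ 1 / 2
  g_nonneg : ∀ i a, 0 ≤ g i a
  /-- the rate of the root -/
  root : g 0 (0, 0) ≤ G₂
  /-- the children of squares with rate `≤ G` have rate `≤ G₂` -/
  child : ∀ i < J, ∀ a ∈ gd (M ^ i), g i a ≤ G → ∀ c ∈ gd M, g (i + 1) (ch M a c) ≤ G₂
  /-- the mean rate of the descendants of a super square, at most `l` levels below -/
  super : ∀ i, ∀ a ∈ gd (M ^ i), G < g i a → ∀ k, 1 ≤ k → k ≤ l → i + k ≤ J →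
    ∑ c ∈ gd (M ^ k), g (i + k) (ch (M ^ k) a c) ≤ C₂ * (M : ℝ) ^ (2 * k) * g i a
  /-- the nonlinear super descendants of a super square `l` levels below have a small total rate -/
  super' : ∀ i, ∀ a ∈ gd (M ^ i), G < g i a → i + l ≤ J →
    ∀ S ⊆ gd (M ^ l), (∀ c ∈ S, G < g (i + l) (ch (M ^ l) a c) ∧ ¬ Lin (i + l) (ch (M ^ l) a c)) →
      ∑ c ∈ S, g (i + l) (ch (M ^ l) a c) ≤ θ₁ * (M : ℝ) ^ (2 * l) * g i a
  /-- linear squares -/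
  lin_nonneg : ∀ i ≤ J, ∀ a ∈ gd (M ^ i), Lin i a → 0 ≤ x i a
  lin_rel : ∀ i ≤ J, ∀ a ∈ gd (M ^ i), Lin i a → ∀ r ∈ Rel i a,
    1 ≤ r.1 ∧ i + r.1 ≤ J ∧ r.2 ∈ gd (M ^ r.1)
  lin_area : ∀ i ≤ J, ∀ a ∈ gd (M ^ i), Lin i a → ∑ r ∈ Rel i a, ((M : ℝ) ^ (2 * r.1))⁻¹ ≤ θ
  lin_mass : ∀ i ≤ J, ∀ a ∈ gd (M ^ i), Lin i a →
    ∑ r ∈ Rel i a, ((M : ℝ) ^ (2 * r.1))⁻¹ * g (i + r.1) (ch (M ^ r.1) a r.2) ≤ θ * x i a
  lin_rate : ∀ i, ∀ a ∈ gd (M ^ i), Lin i a → ∀ j, i ≤ j → j ≤ J → ∀ b ∈ gd (M ^ j),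
    anc (M ^ (j - i)) b = a →
    (∀ k, i < k → k ≤ j → (k - i, md (M ^ (k - i)) (anc (M ^ (j - k)) b)) ∉ Rel i a) →
    x i a ≤ g j b ∧ g j b ≤ C₃ * x i a
  /-- a super child of a square with rate `≤ G` is near to a linear square -/
  birth : ∀ i, i + 1 + l₁ ≤ J → ∀ a ∈ gd (M ^ i), g i a ≤ G → ∀ c ∈ gd M,
    G < g (i + 1) (ch M a c) → A ≤ (ch M a c).1 → (ch M a c).1 + A < M ^ (i + 1) →
    A ≤ (ch M a c).2 → (ch M a c).2 + A < M ^ (i + 1) →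
    ∃ c' ∈ gd (M ^ (i + 1 + l₁)), Lin (i + 1 + l₁) c' ∧
      |((anc (M ^ l₁) c').1 : ℤ) - (ch M a c).1| ≤ A ∧ |((anc (M ^ l₁) c').2 : ℤ) - (ch M a c).2| ≤ A

section

variable (M : ℕ) (J : ℕ) (l : ℕ) (G : ℝ) (g : ℕ → ℕ × ℕ → ℝ) (Lin : ℕ → ℕ × ℕ → Prop)
  (Rel : ℕ → ℕ × ℕ → Finset (ℕ × (ℕ × ℕ)))

open Classical in
/-- the sum of `area × f` over the squares of the levels `0, …, J` with the property `P` -/
noncomputable def ws (P : ℕ → ℕ × ℕ → Prop) (f : ℕ → ℕ × ℕ → ℝ) : ℝ :=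
  ∑ i ∈ Finset.range (J + 1), ∑ a ∈ (gd (M ^ i)).filter (P i), ((M : ℝ) ^ (2 * i))⁻¹ * f i a

/-- the squares that capture themselves -/
def Start (i : ℕ) (a : ℕ × ℕ) : Prop := cap M Lin Rel i a = some (i, a)

/-- the uncaptured super squares -/
def US (i : ℕ) (a : ℕ × ℕ) : Prop := cap M Lin Rel i a = none ∧ G < g i a

/-- the uncaptured super squares the parent of which is uncaptured and not super -/
def Birth (i : ℕ) (b : ℕ × ℕ) : Prop :=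
  1 ≤ i ∧ US M G g Lin Rel i b ∧ cap M Lin Rel (i - 1) (anc M b) = none ∧ g (i - 1) (anc M b) ≤ G

open Classical in
/-- the number of consecutive proper ancestors that are uncaptured super squares -/
noncomputable def age : ℕ → ℕ × ℕ → ℕ
  | 0, _ => 0
  | i + 1, b => if US M G g Lin Rel i (anc M b) then age i (anc M b) + 1 else 0

/-- the uncaptured super squares with age divisible by `l` -/
def Ph (i : ℕ) (a : ℕ × ℕ) : Prop := US M G g Lin Rel i a ∧ l ∣ age M G g Lin Rel i a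

end

/-- K1: the area of the starts -/
def K1 : Prop := ∀ (M A l l₁ J : ℕ) (G G₂ C₂ C₃ θ θ₁ : ℝ) (g : ℕ → ℕ × ℕ → ℝ)
  (Lin : ℕ → ℕ × ℕ → Prop) (x : ℕ → ℕ × ℕ → ℝ) (Rel : ℕ → ℕ × ℕ → Finset (ℕ × (ℕ × ℕ))),
  Tree M A l l₁ J G G₂ C₂ C₃ θ θ₁ g Lin x Rel →
  ws M J (Start M Lin Rel) (fun _ _ => 1) ≤ 2

/-- K2: structure of `cap` -/
def K2 : Prop := ∀ (M : ℕ) (Lin : ℕ → ℕ × ℕ → Prop) (Rel : ℕ → ℕ × ℕ → Finset (ℕ × (ℕ × ℕ))),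
  0 < M →
  (∀ j b P, cap M Lin Rel j b = some P → P.1 ≤ j ∧ anc (M ^ (j - P.1)) b = P.2 ∧ Lin P.1 P.2 ∧
    (∀ k, P.1 ≤ k → k ≤ j → cap M Lin Rel k (anc (M ^ (j - k)) b) = some P) ∧
    ∀ k, P.1 < k → k ≤ j →
      (k - P.1, md (M ^ (k - P.1)) (anc (M ^ (j - k)) b)) ∉ Rel P.1 P.2) ∧
  (∀ j b, Lin j b → cap M Lin Rel j b ≠ none) ∧
  (∀ j b P, cap M Lin Rel j (anc M b) = some P → cap M Lin Rel (j + 1) b ≠ some P →
    (j + 1 - P.1, md (M ^ (j + 1 - P.1)) b) ∈ Rel P.1 P.2) ∧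
  (∀ j b P, cap M Lin Rel (j + 1) b = some P → P ≠ (j + 1, b) →
    cap M Lin Rel j (anc M b) = some P) ∧
  ∀ i a, cap M Lin Rel i a = some (i, a) → ∀ j, i ≤ j → ∀ b, anc (M ^ (j - i)) b = a →
    cap M Lin Rel j b ≠ some (i, a) →
    ∃ k, i < k ∧ k ≤ j ∧ (k - i, md (M ^ (k - i)) (anc (M ^ (j - k)) b)) ∈ Rel i a

/-- K3: the area of the births -/
def K3 : Prop := ∀ M A l₁ : ℕ, ∃ C : ℝ, 0 ≤ C ∧ ∀ (l J : ℕ) (G G₂ C₂ C₃ θ θ₁ : ℝ) (g : ℕ → ℕ × ℕ → ℝ)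
  (Lin : ℕ → ℕ × ℕ → Prop) (x : ℕ → ℕ × ℕ → ℝ) (Rel : ℕ → ℕ × ℕ → Finset (ℕ × (ℕ × ℕ))),
  Tree M A l l₁ J G G₂ C₂ C₃ θ θ₁ g Lin x Rel →
  ws M J (Birth M G g Lin Rel) (fun _ _ => 1) ≤ C

/-- K4: the total rate of the phase starts -/
def K4 : Prop := ∀ (M A l l₁ J : ℕ) (G G₂ C₂ C₃ θ θ₁ : ℝ) (g : ℕ → ℕ × ℕ → ℝ)
  (Lin : ℕ → ℕ × ℕ → Prop) (x : ℕ → ℕ × ℕ → ℝ) (Rel : ℕ → ℕ × ℕ → Finset (ℕ × (ℕ × ℕ))),
  Tree M A l l₁ J G G₂ C₂ C₃ θ θ₁ g Lin x Rel →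
  ws M J (Ph M l G g Lin Rel) g ≤
    G₂ * (1 + ws M J (Birth M G g Lin Rel) (fun _ _ => 1)) + θ * ws M J (Start M Lin Rel) x +
      θ₁ * ws M J (Ph M l G g Lin Rel) g

/-- K5: the total rate of the starts -/
def K5 : Prop := ∀ (M A l l₁ J : ℕ) (G G₂ C₂ C₃ θ θ₁ : ℝ) (g : ℕ → ℕ × ℕ → ℝ)
  (Lin : ℕ → ℕ × ℕ → Prop) (x : ℕ → ℕ × ℕ → ℝ) (Rel : ℕ → ℕ × ℕ → Finset (ℕ × (ℕ × ℕ))),
  Tree M A l l₁ J G G₂ C₂ C₃ θ θ₁ g Lin x Rel →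
  ws M J (Start M Lin Rel) x ≤
    G₂ * (1 + ws M J (Start M Lin Rel) (fun _ _ => 1)) + θ * ws M J (Start M Lin Rel) x +
      2 * C₂ * ws M J (Ph M l G g Lin Rel) g

/-- K6: the mean rate of the squares of the last level -/
def K6 : Prop := ∀ (M A l l₁ J : ℕ) (G G₂ C₂ C₃ θ θ₁ : ℝ) (g : ℕ → ℕ × ℕ → ℝ)
  (Lin : ℕ → ℕ × ℕ → Prop) (x : ℕ → ℕ × ℕ → ℝ) (Rel : ℕ → ℕ × ℕ → Finset (ℕ × (ℕ × ℕ))),
  Tree M A l l₁ J G G₂ C₂ C₃ θ θ₁ g Lin x Rel →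
  ∑ a ∈ gd (M ^ J), ((M : ℝ) ^ (2 * J))⁻¹ * g J a ≤
    G + C₃ * ws M J (Start M Lin Rel) x + (1 + C₂) * ws M J (Ph M l G g Lin Rel) g

/-- K7: the stopping time argument -/
def K7 : Prop := ∀ (M A l l₁ : ℕ) (G G₂ C₂ C₃ θ θ₁ : ℝ), ∃ C : ℝ, ∀ (J : ℕ) (g : ℕ → ℕ × ℕ → ℝ)
  (Lin : ℕ → ℕ × ℕ → Prop) (x : ℕ → ℕ × ℕ → ℝ) (Rel : ℕ → ℕ × ℕ → Finset (ℕ × (ℕ × ℕ))),
  Tree M A l l₁ J G G₂ C₂ C₃ θ θ₁ g Lin x Rel →
  ∑ a ∈ gd (M ^ J), g J a ≤ C * (M : ℝ) ^ (2 * J)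

end Pool.Agent.Q73.AD
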