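import Pool.Agent.Q73.AD.StmG
import Pool.Agent.Q73.AD.StmK

/-!
# The average doubling index on smooth surfaces is bounded: statements of the lemmas (stage 2)

`ℂ` is the plane; `dx`, `dy`, `lap` are the partial derivatives and the Laplacian (`Pool.Agent.Q73.NL`).

Main idea. The growth rate of a solution at a point is `growth exponent / (√lam · scale)`. On squares on
which the rate is large (super squares) the one-step lemma writes `φ = exp(Re(conj ν z)) · h` on most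
subsquares, where `h` grows much less than the exponential factor (linear squares). On linear squares the
limits of `|h|^(1/N)` are log-subharmonic for an anisotropic Laplacian as soon as `N ≫ log (‖ν‖ s)`, so that
the weight `ν` can be refitted on the subsquares with a summable total change: the rate does not increase
any more. A stopping time argument over the scales gives a bound for the mean rate at the wavelength scale.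
-/

set_option autoImplicit false
open MeasureTheory Filter Topology Complex Metric
open scoped ContDiff ComplexConjugate

namespace Pool.Agent.Q73.AD

open Pool.Agent.Q73.NL

noncomputable section

universe u v

/-! ### The Carleman inequality with a large linear weight and a quadratic perturbation -/

/-- a quadratic polynomial without constant term -/
def qp (a b h k m : ℝ) (z : ℂ) : ℝ :=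
  a * z.re + b * z.im + (h * z.re ^ 2 + 2 * k * z.re * z.im + m * z.im ^ 2) / 2

/-- Y1: Carleman inequality -/
def Y1 : Prop := ∀ B c₀ R : ℝ, 0 < B → 0 < c₀ → 0 < R → R ≤ 1 → ∃ C : ℝ, 1 ≤ C ∧
  ∀ (a b h k m K N : ℝ) (q w : ℂ → ℝ), |a| ≤ B → |b| ≤ B → |h| ≤ B → |k| ≤ B → |m| ≤ B →
  C ≤ K → 1 ≤ N → C * N ≤ K →
  (∀ z ∈ ball (0 : ℂ) R, ContDiffAt ℝ 1 q z ∧ 0 ≤ q z ∧ q z ≤ K ^ 2 ∧ C * ‖fderiv ℝ q z‖ ≤ N * K ∧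
    h * K ^ 2 + m * (K ^ 2 + q z) ≤ -c₀ * K ^ 2) →
  ContDiff ℝ ∞ w → HasCompactSupport w → tsupport w ⊆ ball 0 R →
  ∫ z, Real.exp (-2 * (K * z.re + N * qp a b h k m z)) * w z ^ 2 ≤
    ∫ z, Real.exp (-2 * (K * z.re + N * qp a b h k m z)) * (lap w z + q z * w z) ^ 2

/-- Y2: the weighted Caccioppoli inequality for a general weight -/
def Y2 : Prop := ∀ (μ κ R : ℝ) (Ψ q h χ : ℂ → ℝ), 0 < R → ContDiff ℝ ∞ Ψ →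
  (∀ z ∈ ball (0 : ℂ) R, dx Ψ z ^ 2 + dy Ψ z ^ 2 ≤ μ ^ 2) →
  ContDiff ℝ ∞ χ → HasCompactSupport χ → tsupport χ ⊆ ball 0 R →
  (∀ z ∈ ball (0 : ℂ) R, ContDiffAt ℝ ∞ h z ∧ |q z| ≤ κ ^ 2 ∧ lap h z + q z * h z = 0) →
  ∫ z, Real.exp (-2 * Ψ z) * χ z ^ 2 * (dx h z ^ 2 + dy h z ^ 2) ≤
    ∫ z, Real.exp (-2 * Ψ z) *
      (8 * (dx χ z ^ 2 + dy χ z ^ 2) + (8 * μ ^ 2 + 2 * κ ^ 2) * χ z ^ 2) * h z ^ 2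

/-- Y3: propagation of smallness from an annulus -/
def Y3 : Prop := ∀ B c₀ R : ℝ, 0 < B → 0 < c₀ → 0 < R → R ≤ 1 → ∃ C : ℝ, 1 ≤ C ∧
  ∀ (a b h k m K N Bd s : ℝ) (q f : ℂ → ℝ), |a| ≤ B → |b| ≤ B → |h| ≤ B → |k| ≤ B → |m| ≤ B →
  C ≤ K → 1 ≤ N → C * N ≤ K → 0 < s → 8 * s ≤ R →
  (∀ z ∈ ball (0 : ℂ) R, ContDiffAt ℝ ∞ f z ∧ ContDiffAt ℝ 1 q z ∧ 0 ≤ q z ∧ q z ≤ K ^ 2 ∧
    C * ‖fderiv ℝ q z‖ ≤ N * K ∧ h * K ^ 2 + m * (K ^ 2 + q z) ≤ -c₀ * K ^ 2 ∧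
    lap f z + q z * f z = 0) →
  (∀ z : ℂ, R / 4 ≤ ‖z‖ → ‖z‖ ≤ 3 * R / 4 →
    Real.exp (-(K * z.re + N * qp a b h k m z)) * |f z| ≤ Bd) →
  ∀ z ∈ closedBall (0 : ℂ) s,
    Real.exp (-(K * z.re)) * |f z| ≤ C * K ^ 2 * Real.exp (C * N * s) * Bd

/-! ### Limits of conjugated solutions -/

/-- the function `φ` divided by the exponential with the frequency `ν` -/
def cj (ν : ℂ) (φ : ℂ → ℝ) (z : ℂ) : ℝ := Real.exp (-(conj ν * z).re) * φ z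

/-- stretching in the second variable -/
def st (σ : ℝ) (z : ℂ) : ℂ := ⟨z.re, σ * z.im⟩

/-- a sequence of solutions `φ j` in `ball 0 R`, bounded after division by `exp (K j x)`; the exponents
`N j` are much smaller than `K j` and much larger than `1 + log (K j) + η j K j` -/
structure SeqZ (R : ℝ) (N K η : ℕ → ℝ) (q φ : ℕ → ℂ → ℝ) : Prop where
  oneK : ∀ j, 1 ≤ K j
  oneN : ∀ j, 1 ≤ N j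
  eta : ∀ j, 0 ≤ η j
  small : Tendsto (fun j => N j / K j) atTop (𝓝 0)
  large : Tendsto (fun j => N j / (1 + Real.log (K j) + η j * K j)) atTop atTop
  smooth : ∀ j, ContDiffOn ℝ ∞ (φ j) (ball 0 R)
  qsmooth : ∀ j, ContDiffOn ℝ 1 (q j) (ball 0 R)
  qb : ∀ j, ∀ z ∈ ball (0 : ℂ) R, 0 ≤ q j z ∧ q j z ≤ K j ^ 2
  dqb : ∀ j, ∀ z ∈ ball (0 : ℂ) R, ‖fderiv ℝ (q j) z‖ ≤ η j * K j ^ 2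
  eq : ∀ j, ∀ z ∈ ball (0 : ℂ) R, lap (φ j) z + q j z * φ j z = 0
  bd : ∀ j, ∀ z ∈ ball (0 : ℂ) R, |cj (K j) (φ j) z| ≤ 1

/-- Y4: the limits of `|exp (-K x) φ|^(1/N)` admit no contact from above with `exp` of strictly
superharmonic functions, in stretched coordinates -/
def Y4 : Prop := ∀ (𝒰 : Ultrafilter ℕ) (R : ℝ) (N K η : ℕ → ℝ) (q φ : ℕ → ℂ → ℝ) (W : Set ℂ → ℝ)
  (w : ℂ → ℝ) (σ : ℝ), (𝒰 : Filter ℕ) ≤ atTop → 0 < R → SeqZ R N K η q φ → 1 ≤ σ →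
  Tendsto (fun j => 1 + q j 0 / K j ^ 2) 𝒰 (𝓝 (σ ^ 2)) →
  LimProp 𝒰 N (fun j => cj (K j) (φ j)) (ball (0 : ℂ) R) W → Env (ball (0 : ℂ) R) W w →
  NC {z | st σ z ∈ ball (0 : ℂ) R} (fun z => w (st σ z))

/-- CJ: limits after multiplication with `exp (-N (Re (conj ζ z) + ‖ζ‖ R))` -/
def CJ : Prop := ∀ (𝒰 : Ultrafilter ℕ) (R : ℝ) (N : ℕ → ℝ) (ψ : ℕ → ℂ → ℝ) (W W' : Set ℂ → ℝ)
  (w : ℂ → ℝ) (ζ : ℂ), 0 < R → (∀ j, 0 < N j) → (∀ j, ∀ z ∈ ball (0 : ℂ) R, |ψ j z| ≤ 1) →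
  LimProp 𝒰 N ψ (ball (0 : ℂ) R) W → Env (ball (0 : ℂ) R) W w →
  LimProp 𝒰 N (fun j z => Real.exp (-(N j * ((conj ζ * z).re + ‖ζ‖ * R))) * ψ j z)
    (ball (0 : ℂ) R) W' →
  Env (ball (0 : ℂ) R) W' (fun z => w z * Real.exp (-((conj ζ * z).re + ‖ζ‖ * R)))

/-! ### Potential theory -/

/-- PA: regularization -/
def PA : Prop := ∀ (v : ℂ → ℝ) (b δ : ℝ), 0 < δ → δ ≤ 1 / 2 → Measurable v →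
  (∀ z, -b ≤ v z ∧ v z ≤ 0) →
  (∀ x ∈ ball (0 : ℂ) 6, ∀ r : ℝ, 0 < r → r ≤ 1 →
    v x * (Real.pi * r ^ 2) ≤ ∫ y in ball x r, v y) →
  ∃ V : ℂ → ℝ, ContDiff ℝ ∞ V ∧ (∀ x, V x ≤ 0) ∧ (∀ x ∈ ball (0 : ℂ) 5, v x ≤ V x ∧ 0 ≤ lap V x) ∧
    (∫ x in ball (0 : ℂ) 5, -V x ≤ ∫ x in ball (0 : ℂ) 8, -v x) ∧
    ∀ x ∈ ball (0 : ℂ) 5, ∀ (ζ : ℂ) (c : ℝ), (∀ y ∈ ball x δ, v y - (conj ζ * y).re ≤ c) →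
      V x - (conj ζ * x).re ≤ c

/-- PB: representation by a logarithmic potential -/
def PB : Prop := ∃ C : ℝ, 1 ≤ C ∧ ∀ (V : ℂ → ℝ) (A : ℝ), ContDiff ℝ ∞ V → (∀ x, V x ≤ 0) →
  (∀ x ∈ ball (0 : ℂ) 5, 0 ≤ lap V x) → ∫ x in ball (0 : ℂ) 5, -V x ≤ A →
  ∃ m H : ℂ → ℝ, Continuous m ∧ HasCompactSupport m ∧ (∀ y, 0 ≤ m y) ∧ ∫ y, m y ≤ C * A ∧
    (∀ x ∈ ball (0 : ℂ) 3, V x = (∫ y, Real.log ‖x - y‖ * m y) + H x) ∧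
    ∀ p ∈ ball (0 : ℂ) 3, ∃ ξ : ℂ, ‖ξ‖ ≤ C * A ∧
      ∀ x ∈ ball (0 : ℂ) 3, |H x - H p - (conj ξ * (x - p)).re| ≤ C * A * ‖x - p‖ ^ 2

/-- PC: sums over separated points -/
def PC : Prop := ∃ C : ℝ, 1 ≤ C ∧ ∀ (M : ℕ) (S : Finset (ℕ × ℕ)) (p : ℕ × ℕ → ℂ), 1 ≤ M →
  (∀ a ∈ S, ‖p a‖ ≤ 2) → (∀ a ∈ S, ∀ b ∈ S, a ≠ b → 1 / (M : ℝ) ≤ ‖p a - p b‖) →
  (S.card : ℝ) ≤ C * M ^ 2 ∧
  (∀ y : ℂ, ∑ a ∈ S, (1 + (M * ‖p a - y‖) ^ 2)⁻¹ ≤ C * (1 + Real.log M)) ∧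
  (∀ y : ℂ, ∑ a ∈ S, M / (1 + M * ‖p a - y‖) ≤ C * M ^ 2) ∧
  ∀ (y : ℂ) (D : ℝ), 1 ≤ D → (Set.ncard {a | a ∈ S ∧ M * ‖p a - y‖ ≤ D} : ℝ) ≤ C * D ^ 2

/-- PTR: oscillation of a subharmonic function minus suitable linear functions on small discs -/
def PTR : Prop := ∀ D : ℝ, 1 ≤ D → ∃ C : ℝ, 1 ≤ C ∧ ∀ (M : ℕ) (A b : ℝ) (v : ℂ → ℝ)
  (S : Finset (ℕ × ℕ)) (p : ℕ × ℕ → ℂ), C ≤ M → 1 ≤ A → Measurable v →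
  (∀ z, -b ≤ v z ∧ v z ≤ 0) →
  (∀ x ∈ ball (0 : ℂ) 6, ∀ r : ℝ, 0 < r → r ≤ 1 →
    v x * (Real.pi * r ^ 2) ≤ ∫ y in ball x r, v y) →
  ∫ x in ball (0 : ℂ) 8, -v x ≤ A →
  (∀ a ∈ S, ‖p a‖ ≤ 2) → (∀ a ∈ S, ∀ b ∈ S, a ≠ b → 1 / (M : ℝ) ≤ ‖p a - p b‖) →
  ∃ (ζ : ℕ × ℕ → ℂ) (n : ℕ × ℕ → ℝ), (∀ a ∈ S, 0 ≤ n a) ∧
    ∑ a ∈ S, n a ≤ C * A * (1 + Real.log M) ∧ ∑ a ∈ S, ‖ζ a‖ ≤ C * A * M ^ 2 ∧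
    ∀ a ∈ S, ∃ y ∈ ball (p a) (1 / M), ∀ x ∈ closedBall (p a) (D / M),
      v x - (conj (ζ a) * x).re ≤ n a + (v y - (conj (ζ a) * y).re)

/-! ### Squares -/

/-- the centres of the `m²` subsquares of the square `[-1, 1]²` -/
def ct (m : ℕ) (a : ℕ × ℕ) : ℂ := ⟨-1 + (2 * (a.1 : ℝ) + 1) / m, -1 + (2 * (a.2 : ℝ) + 1) / m⟩

/-! ### The one-step lemmas -/

/-- the supremum of the conjugated function on a disc -/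
def SS (ν : ℂ) (φ : ℂ → ℝ) (p : ℂ) (r : ℝ) : ℝ := sn (cj ν φ) (closedBall p r)

/-- YL: the limit form of the one-step lemmas -/
def YL : Prop := ∃ C : ℝ, 1 ≤ C ∧ ∀ (M : ℕ) (σ : ℝ) (w : ℂ → ℝ) (x₁ : ℂ), C ≤ M → 1 ≤ σ → σ ^ 2 ≤ 2 →
  (∀ x ∈ ball (0 : ℂ) 32, 0 ≤ w x ∧ w x ≤ 1) → UpperSemicontinuousOn w (ball 0 32) →
  NC {z | st σ z ∈ ball (0 : ℂ) 32} (fun z => w (st σ z)) →
  ‖x₁‖ ≤ 2 → Real.exp (-1) ≤ w x₁ →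
  (∀ z : ℂ, ‖z‖ ≤ 8 → ∃ x ∈ ball z (1 / 2), Real.exp (-C) ≤ w x) ∧
  (∀ z : ℂ, ‖z‖ ≤ 2 → ∃ x ∈ ball z (1 / (2 * M)), Real.exp (-(C * (1 + Real.log M))) ≤ w x) ∧
  ∀ (S : Finset (ℕ × ℕ)) (p : ℕ × ℕ → ℂ), (∀ a ∈ S, ‖p a‖ ≤ 2) →
    (∀ a ∈ S, ∀ b ∈ S, a ≠ b → 2 / (M : ℝ) ≤ ‖p a - p b‖) →
    ∃ (ζ : ℕ × ℕ → ℂ) (n : ℕ × ℕ → ℝ), (∀ a ∈ S, 0 ≤ n a) ∧
      ∑ a ∈ S, n a ≤ C * (1 + Real.log M) ∧ ∑ a ∈ S, ‖ζ a‖ ≤ C * M ^ 2 ∧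
      ∀ a ∈ S, ∃ y ∈ ball (p a) (19 / (10 * M)), 0 < w y ∧ ∀ x ∈ closedBall (p a) (33 / M),
        w x * Real.exp (-(conj (ζ a) * x).re) ≤
          Real.exp (n a) * (w y * Real.exp (-(conj (ζ a) * y).re))

/-- Y5: one step for a solution with growth exponent `N ≫ κ` -/
def Y5 : Prop := ∃ C : ℝ, 1 ≤ C ∧ ∀ M : ℕ, C ≤ M → ∃ T : ℝ, 1 ≤ T ∧
  ∀ (κ N : ℝ) (q φ : ℂ → ℝ), 1 ≤ κ → T * κ ≤ N →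
  (∀ z ∈ closedBall (0 : ℂ) 32, ContDiffAt ℝ ∞ φ z ∧ ContDiffAt ℝ 1 q z ∧ |q z| ≤ κ ^ 2 ∧
    ‖fderiv ℝ q z‖ ≤ κ ^ 2 ∧ lap φ z + q z * φ z = 0) →
  sn φ (closedBall 0 32) ≤ Real.exp N * sn φ (closedBall 0 2) →
  (∀ z : ℂ, ‖z‖ ≤ 2 → sn φ (closedBall 0 32) ≤
    Real.exp (C * (1 + Real.log M) * N) * sn φ (closedBall z (1 / M))) ∧
  ∃ (ζ : ℕ × ℕ → ℂ) (n : ℕ × ℕ → ℝ), (∀ a ∈ gd M, 0 ≤ n a ∧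
      SS (N * ζ a) φ (ct M a) (32 / M) ≤ Real.exp (n a) * SS (N * ζ a) φ (ct M a) (2 / M)) ∧
    ∑ a ∈ gd M, n a ≤ C * (1 + Real.log M) * N ∧ ∑ a ∈ gd M, ‖ζ a‖ ≤ C * M ^ 2

/-- Y6: one step for a solution of the form `exp (K x) h`, `h` with growth exponent `N`,
`1 + log K + η K ≪ N ≪ K` -/
def Y6 : Prop := ∃ C : ℝ, 1 ≤ C ∧ ∀ M : ℕ, C ≤ M → ∃ T ε₀ : ℝ, 1 ≤ T ∧ 0 < ε₀ ∧ ε₀ ≤ 1 ∧
  ∀ (K N η : ℝ) (q φ : ℂ → ℝ) (p : ℕ × ℕ → ℂ), 1 ≤ K → 0 ≤ η →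
  T * (1 + Real.log K + η * K) ≤ N → N ≤ ε₀ * K →
  (∀ z ∈ closedBall (0 : ℂ) 32, ContDiffAt ℝ ∞ φ z ∧ ContDiffAt ℝ 1 q z ∧ 0 ≤ q z ∧ q z ≤ K ^ 2 ∧
    ‖fderiv ℝ q z‖ ≤ η * K ^ 2 ∧ lap φ z + q z * φ z = 0) →
  (∀ a ∈ gd M, ‖p a‖ ≤ 2) → (∀ a ∈ gd M, ∀ b ∈ gd M, a ≠ b → 2 / (M : ℝ) ≤ ‖p a - p b‖) →
  SS K φ 0 32 ≤ Real.exp N * SS K φ 0 2 →
  (∀ z : ℂ, ‖z‖ ≤ 8 → SS K φ 0 32 ≤ Real.exp (C * N) * SS K φ z 1) ∧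
  ∃ (ζ : ℕ × ℕ → ℂ) (n : ℕ × ℕ → ℝ), (∀ a ∈ gd M, 0 ≤ n a ∧
      SS (K + N * ζ a) φ (p a) (32 / M) ≤ Real.exp (n a) * SS (K + N * ζ a) φ (p a) (2 / M)) ∧
    ∑ a ∈ gd M, n a ≤ C * (1 + Real.log M) * N ∧ ∑ a ∈ gd M, ‖ζ a‖ ≤ C * M ^ 2

/-- a nontrivial solution of `Δφ + lam ρ φ = 0` in the disc with centre `p` and radius `32 s` -/
structure Loc (lam L s : ℝ) (p : ℂ) (ρ φ : ℂ → ℝ) : Prop where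
  lam_pos : 0 < lam
  s_pos : 0 < s
  s_le : s ≤ 1
  sol : ∀ z ∈ closedBall p (32 * s), ContDiffAt ℝ ∞ φ z ∧ ContDiffAt ℝ 1 ρ z ∧ 0 ≤ ρ z ∧ ρ z ≤ L ∧
    ‖fderiv ℝ ρ z‖ ≤ L ∧ lap φ z + lam * ρ z * φ z = 0
  pos : ∀ (z : ℂ) (r : ℝ), 0 < r → closedBall z r ⊆ closedBall p (32 * s) →
    0 < sn φ (closedBall z r)

/-- Y7: Y5, scaled -/
def Y7 : Prop := ∃ C : ℝ, 1 ≤ C ∧ ∀ M : ℕ, C ≤ M → ∀ L : ℝ, 1 ≤ L → ∃ T : ℝ, 1 ≤ T ∧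
  ∀ (lam s N : ℝ) (p : ℂ) (ρ φ : ℂ → ℝ), Loc lam L s p ρ φ → T * (1 + Real.sqrt lam * s) ≤ N →
  sn φ (closedBall p (32 * s)) ≤ Real.exp N * sn φ (closedBall p (2 * s)) →
  (∀ z ∈ closedBall p (2 * s), sn φ (closedBall p (32 * s)) ≤
    Real.exp (C * (1 + Real.log M) * N) * sn φ (closedBall z (s / M))) ∧
  ∃ (ν : ℕ × ℕ → ℂ) (n : ℕ × ℕ → ℝ), (∀ a ∈ gd M, 0 ≤ n a ∧
      SS (ν a) φ (p + s * ct M a) (32 * (s / M)) ≤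
        Real.exp (n a) * SS (ν a) φ (p + s * ct M a) (2 * (s / M))) ∧
    ∑ a ∈ gd M, n a ≤ C * (1 + Real.log M) * N ∧ ∑ a ∈ gd M, ‖ν a‖ ≤ C * M ^ 2 * (N / s)

/-- Y8: Y6, scaled and rotated -/
def Y8 : Prop := ∃ C : ℝ, 1 ≤ C ∧ ∀ M : ℕ, C ≤ M → ∃ T ε₀ : ℝ, 1 ≤ T ∧ 0 < ε₀ ∧ ε₀ ≤ 1 ∧
  ∀ (lam L s N : ℝ) (p ν : ℂ) (ρ φ : ℂ → ℝ), Loc lam L s p ρ φ → lam * L ≤ ‖ν‖ ^ 2 →
  1 ≤ ‖ν‖ * s → T * (1 + Real.log (‖ν‖ * s) + s * (‖ν‖ * s)) ≤ N → N ≤ ε₀ * (‖ν‖ * s) →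
  SS ν φ p (32 * s) ≤ Real.exp N * SS ν φ p (2 * s) →
  (∀ z : ℂ, ‖z - p‖ ≤ 8 * s → SS ν φ p (32 * s) ≤ Real.exp (C * N) * SS ν φ z s) ∧
  ∃ (ν' : ℕ × ℕ → ℂ) (n : ℕ × ℕ → ℝ), (∀ a ∈ gd M, 0 ≤ n a ∧
      SS (ν' a) φ (p + s * ct M a) (32 * (s / M)) ≤
        Real.exp (n a) * SS (ν' a) φ (p + s * ct M a) (2 * (s / M))) ∧
    ∑ a ∈ gd M, n a ≤ C * (1 + Real.log M) * N ∧ ∑ a ∈ gd M, ‖ν' a - ν‖ ≤ C * M ^ 2 * (N / s)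

/-- the growth exponent of `φ` on the square with centre `p` and half side `s` -/
def gr (φ : ℂ → ℝ) (p : ℂ) (s : ℝ) : ℝ :=
  Real.log (sn φ (closedBall p (32 * s)) / sn φ (closedBall p (2 * s)))

/-- Y9: descendants of a linear square: most of them have rate comparable with `‖ν₀‖` -/
def Y9 : Prop := ∃ M₀ : ℕ, 2 ≤ M₀ ∧ ∀ (θ : ℝ) (M : ℕ), 0 < θ → θ ≤ 1 → M₀ ≤ M →
  ∃ ε B s₁ : ℝ, 0 < ε ∧ ε ≤ 1 ∧ 1 ≤ B ∧ 0 < s₁ ∧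
  ∀ (lam L s : ℝ) (p ν₀ : ℂ) (ρ φ : ℂ → ℝ) (J : ℕ), Loc lam L s p ρ φ → s ≤ s₁ →
  4 * (lam * L) ≤ ‖ν₀‖ ^ 2 → B ≤ ‖ν₀‖ * (s / M ^ J) →
  SS ν₀ φ p (32 * s) ≤ Real.exp (ε * (‖ν₀‖ * s)) * SS ν₀ φ p (2 * s) →
  ∃ Rel : Finset (ℕ × (ℕ × ℕ)), (∀ r ∈ Rel, 1 ≤ r.1 ∧ r.1 ≤ J ∧ r.2 ∈ gd (M ^ r.1)) ∧
    ∑ r ∈ Rel, ((M : ℝ) ^ (2 * r.1))⁻¹ ≤ θ ∧
    ∑ r ∈ Rel, ((M : ℝ) ^ (2 * r.1))⁻¹ *
      (gr φ (p + s * ct (M ^ r.1) r.2) (s / M ^ r.1) / (s / M ^ r.1)) ≤ θ * ‖ν₀‖ ∧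
    ∀ k ≤ J, ∀ b ∈ gd (M ^ k), (∀ k' ≤ k, (k', anc (M ^ (k - k')) b) ∉ Rel) →
      ‖ν₀‖ * (s / M ^ k) ≤ gr φ (p + s * ct (M ^ k) b) (s / M ^ k) ∧
      gr φ (p + s * ct (M ^ k) b) (s / M ^ k) ≤ 52 * (‖ν₀‖ * (s / M ^ k))

/-- Y10: a subsquare with large rate of a square with small rate is near to linear squares -/
def Y10 : Prop := ∀ (lam L s G E ε : ℝ) (p : ℂ) (ρ φ : ℂ → ℝ) (M : ℕ) (a : ℕ × ℕ),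
  Loc lam L s p ρ φ → 8 ≤ M → a ∈ gd M → 0 < G → 0 < ε → ε ≤ 1 →
  E ≤ M / 64 * (G * Real.sqrt lam * s) →
  (∀ z ∈ closedBall p (2 * s), sn φ (closedBall p (32 * s)) ≤
    Real.exp E * sn φ (closedBall z (s / M))) →
  G * Real.sqrt lam * (s / M) < gr φ (p + s * ct M a) (s / M) →
  ∃ y ν : ℂ, ‖y - (p + s * ct M a)‖ ≤ 8 * s ∧ G * Real.sqrt lam / 512 ≤ ‖ν‖ ∧
    ∀ (p' : ℂ) (s' : ℝ), 0 < s' → s' ≤ ε * (s / M) / 289 → ‖y - p'‖ ≤ 2 * s' →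
      SS ν φ p' (32 * s') ≤ Real.exp (ε * (‖ν‖ * s')) * SS ν φ p' (2 * s')

end

end Pool.Agent.Q73.AD
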