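import Pool.Agent.Q73.AD.TA4
import Pool.Agent.Q73.AD.StmY

/-!
# Y3: propagation of smallness from an annulus, large linear weight (helper198)
-/

set_option autoImplicit false
open MeasureTheory Filter Topology Complex Metric
open scoped ContDiff ComplexConjugate

namespace Pool.Agent.Q73.AD

open Pool.Agent.Q73.NL

/-- the weight function -/
noncomputable def Psw (a b h k m K N : ℝ) (z : ℂ) : ℝ := K * z.re + N * qp a b h k m z

theorem Psw_smooth (a b h k m K N : ℝ) : ContDiff ℝ ∞ (Psw a b h k m K N) := by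
  unfold Psw qp
  have hr : ContDiff ℝ ∞ (fun z : ℂ => z.re) := Complex.reCLM.contDiff
  have hi : ContDiff ℝ ∞ (fun z : ℂ => z.im) := Complex.imCLM.contDiff
  fun_prop

theorem Psw_fd (a b h k m K N : ℝ) (z : ℂ) : HasFDerivAt (Psw a b h k m K N)
    ((K + N * (a + h * z.re + k * z.im)) • Complex.reCLM + (N * (b + k * z.re + m * z.im)) • Complex.imCLM) z := by
  have hr : HasFDerivAt (fun z : ℂ => z.re) Complex.reCLM z := Complex.reCLM.hasFDerivAt
  have hi : HasFDerivAt (fun z : ℂ => z.im) Complex.imCLM z := Complex.imCLM.hasFDerivAt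
  have h1 := (hr.const_mul K).add ((((hr.const_mul a).add (hi.const_mul b)).add
    (((((hr.pow 2).const_mul h).add ((hr.const_mul (2 * k)).mul hi)).add
      ((hi.pow 2).const_mul m)).mul_const (1 / 2))).const_mul N)
  refine (h1.congr_fderiv ?_).congr_of_eventuallyEq (Eventually.of_forall fun u => ?_)
  · ext; simp; ring
  · simp only [Psw, qp, Pi.add_apply, Pi.mul_apply]
    ring

theorem Psw_dx (a b h k m K N : ℝ) (z : ℂ) :
    dx (Psw a b h k m K N) z = K + N * (a + h * z.re + k * z.im) := by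
  unfold dx
  rw [(Psw_fd a b h k m K N z).fderiv]
  simp

theorem Psw_dy (a b h k m K N : ℝ) (z : ℂ) :
    dy (Psw a b h k m K N) z = N * (b + k * z.re + m * z.im) := by
  unfold dy
  rw [(Psw_fd a b h k m K N z).fderiv]
  simp

/-- bound for the quadratic polynomial -/
theorem qp_abs {a b h k m B : ℝ} (ha : |a| ≤ B) (hb : |b| ≤ B) (hh : |h| ≤ B) (hk : |k| ≤ B)
    (hm : |m| ≤ B) {z : ℂ} (hz : ‖z‖ ≤ 1) : |qp a b h k m z| ≤ 4 * B * ‖z‖ := by
  have hB : 0 ≤ B := (abs_nonneg _).trans ha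
  have hx := Complex.abs_re_le_norm z
  have hy := Complex.abs_im_le_norm z
  have hn := norm_nonneg z
  have e1 : |a * z.re| ≤ B * ‖z‖ := by rw [abs_mul]; exact mul_le_mul ha hx (abs_nonneg _) hB
  have e2 : |b * z.im| ≤ B * ‖z‖ := by rw [abs_mul]; exact mul_le_mul hb hy (abs_nonneg _) hB
  have sx : |z.re ^ 2| ≤ ‖z‖ := by
    rw [abs_pow]
    calc |z.re| ^ 2 ≤ ‖z‖ ^ 2 := pow_le_pow_left₀ (abs_nonneg _) hx 2
      _ ≤ ‖z‖ := by nlinarith
  have sy : |z.im ^ 2| ≤ ‖z‖ := by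
    rw [abs_pow]
    calc |z.im| ^ 2 ≤ ‖z‖ ^ 2 := pow_le_pow_left₀ (abs_nonneg _) hy 2
      _ ≤ ‖z‖ := by nlinarith
  have sxy : |z.re * z.im| ≤ ‖z‖ := by
    rw [abs_mul]
    calc |z.re| * |z.im| ≤ ‖z‖ * ‖z‖ := mul_le_mul hx hy (abs_nonneg _) hn
      _ ≤ ‖z‖ := by nlinarith
  have e3 : |h * z.re ^ 2| ≤ B * ‖z‖ := by rw [abs_mul]; exact mul_le_mul hh sx (abs_nonneg _) hB
  have e4 : |k * (z.re * z.im)| ≤ B * ‖z‖ := by
    rw [abs_mul]; exact mul_le_mul hk sxy (abs_nonneg _) hB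
  have e5 : |m * z.im ^ 2| ≤ B * ‖z‖ := by rw [abs_mul]; exact mul_le_mul hm sy (abs_nonneg _) hB
  have e6 : qp a b h k m z = a * z.re + b * z.im + (h * z.re ^ 2 + 2 * (k * (z.re * z.im)) + m * z.im ^ 2) / 2 := by
    unfold qp; ring
  rw [e6, abs_le]
  rw [abs_le] at e1 e2 e3 e4 e5
  constructor <;> linarith [e1.1, e1.2, e2.1, e2.2, e3.1, e3.2, e4.1, e4.2, e5.1, e5.2]

/-- bound for the gradient -/
theorem Psw_grad {a b h k m K N B : ℝ} (ha : |a| ≤ B) (hb : |b| ≤ B) (hh : |h| ≤ B) (hk : |k| ≤ B)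
    (hm : |m| ≤ B) (hK : 0 ≤ K) (hN : 0 ≤ N) (hNK : 6 * B * N ≤ K) {z : ℂ} (hz : ‖z‖ ≤ 1) :
    dx (Psw a b h k m K N) z ^ 2 + dy (Psw a b h k m K N) z ^ 2 ≤ (2 * K) ^ 2 := by
  have hB : 0 ≤ B := (abs_nonneg _).trans ha
  have hx := (Complex.abs_re_le_norm z).trans hz
  have hy := (Complex.abs_im_le_norm z).trans hz
  have e3 : |h * z.re| ≤ B * 1 := by rw [abs_mul]; exact mul_le_mul hh hx (abs_nonneg _) hB
  have e4 : |k * z.im| ≤ B * 1 := by rw [abs_mul]; exact mul_le_mul hk hy (abs_nonneg _) hB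
  have e5 : |k * z.re| ≤ B * 1 := by rw [abs_mul]; exact mul_le_mul hk hx (abs_nonneg _) hB
  have e6 : |m * z.im| ≤ B * 1 := by rw [abs_mul]; exact mul_le_mul hm hy (abs_nonneg _) hB
  have e7 : |a + h * z.re + k * z.im| ≤ 3 * B := by
    rw [abs_le] at *
    constructor <;> linarith [ha.1, ha.2, e3.1, e3.2, e4.1, e4.2]
  have e8 : |b + k * z.re + m * z.im| ≤ 3 * B := by
    rw [abs_le] at *
    constructor <;> linarith [hb.1, hb.2, e5.1, e5.2, e6.1, e6.2]
  have f1 : |N * (a + h * z.re + k * z.im)| ≤ K / 2 := by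
    rw [abs_mul, abs_of_nonneg hN]
    calc N * |a + h * z.re + k * z.im| ≤ N * (3 * B) := mul_le_mul_of_nonneg_left e7 hN
      _ ≤ K / 2 := by linarith
  have f2 : |N * (b + k * z.re + m * z.im)| ≤ K / 2 := by
    rw [abs_mul, abs_of_nonneg hN]
    calc N * |b + k * z.re + m * z.im| ≤ N * (3 * B) := mul_le_mul_of_nonneg_left e8 hN
      _ ≤ K / 2 := by linarith
  rw [Psw_dx, Psw_dy]
  rw [abs_le] at f1 f2
  nlinarith [f1.1, f1.2, f2.1, f2.2, mul_nonneg hK hK]

set_option maxHeartbeats 2000000 in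
theorem ty3 (h1 : Y1) (h2 : Y2) (h3 : A3) : Y3 := by
  intro B c₀ R hB hc₀ hR hR1
  obtain ⟨C3, hC3, h3⟩ := h3
  obtain ⟨CY, hCY, h1⟩ := h1 B c₀ R hB hc₀ hR hR1
  -- the cutoff functions
  let χ : ContDiffBump (0 : ℂ) := ⟨3 * R / 8, R / 2, by positivity, by linarith⟩
  let b1 : ContDiffBump (0 : ℂ) := ⟨R / 2, 5 * R / 8, by positivity, by linarith⟩
  let b2 : ContDiffBump (0 : ℂ) := ⟨5 * R / 16, 3 * R / 8, by positivity, by linarith⟩
  set χ2 : ℂ → ℝ := fun z => b1 z * (1 - b2 z) with hχ2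
  have sχ : ContDiff ℝ ∞ (χ : ℂ → ℝ) := χ.contDiff
  have sχ2 : ContDiff ℝ ∞ χ2 := b1.contDiff.mul (contDiff_const.sub b2.contDiff)
  have cχ : HasCompactSupport (χ : ℂ → ℝ) := χ.hasCompactSupport
  have cχ2 : HasCompactSupport χ2 := b1.hasCompactSupport.mul_right
  have tχ : tsupport (χ : ℂ → ℝ) = closedBall 0 (R / 2) := χ.tsupport_eq
  have tχ2 : tsupport χ2 ⊆ closedBall 0 (5 * R / 8) := by
    refine (tsupport_mul_subset_left (f := (b1 : ℂ → ℝ))).trans ?_
    rw [b1.tsupport_eq]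
  have tχ2' : ∀ z : ℂ, z ∈ tsupport χ2 → 5 * R / 16 ≤ ‖z‖ := by
    intro z hz
    by_contra hlt
    rw [not_le] at hlt
    have : χ2 =ᶠ[𝓝 z] 0 := by
      have hb : ball (0 : ℂ) (5 * R / 16) ∈ 𝓝 z := isOpen_ball.mem_nhds (by simpa using hlt)
      filter_upwards [hb] with u hu
      have : b2 u = 1 := b2.one_of_mem_closedBall (ball_subset_closedBall hu)
      simp [hχ2, this]
    exact (notMem_tsupport_iff_eventuallyEq.2 this) hz
  have one2 : ∀ z : ℂ, 3 * R / 8 ≤ ‖z‖ → ‖z‖ ≤ R / 2 → χ2 z = 1 := by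
    intro z hz1 hz2
    have e1 : b1 z = 1 := b1.one_of_mem_closedBall (by simpa using hz2)
    have e2 : b2 z = 0 := b2.zero_of_le_dist (by simpa using hz1)
    simp [hχ2, e1, e2]
  have loc : ∀ z : ℂ, ¬(3 * R / 8 ≤ ‖z‖ ∧ ‖z‖ ≤ R / 2) →
      dx χ z = 0 ∧ dy χ z = 0 ∧ lap χ z = 0 := by
    intro z hz
    rw [not_and_or, not_le, not_le] at hz
    rcases hz with hz | hz
    · refine ev_const (c := 1) ?_
      have hb : ball (0 : ℂ) (3 * R / 8) ∈ 𝓝 z := isOpen_ball.mem_nhds (by simpa using hz)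
      filter_upwards [hb] with u hu
      exact χ.one_of_mem_closedBall (ball_subset_closedBall hu)
    · refine ev_const (c := 0) ?_
      have hb : (closedBall (0 : ℂ) (R / 2))ᶜ ∈ 𝓝 z :=
        isClosed_closedBall.isOpen_compl.mem_nhds (by simpa using hz)
      filter_upwards [hb] with u hu
      refine χ.zero_of_le_dist ?_
      simp at hu
      simpa using hu.le
  obtain ⟨c1, hc1, hb1⟩ := bdd_derivs sχ cχ
  obtain ⟨c2, hc2, hb2⟩ := bdd_derivs sχ2 cχ2
  set c3 : ℝ := (8 * c1 + 2 * c1) * ((8 * c2 + 35) * (Real.pi * R ^ 2)) with hc3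
  have hc3' : 0 ≤ c3 := by positivity
  set C : ℝ := CY + 8 / R + 6 * B + 2 * √(C3 * c3) * Real.exp 2 with hC
  have hC1' : 0 < 8 / R := by positivity
  have hCs : 0 ≤ 2 * √(C3 * c3) * Real.exp 2 := by positivity
  refine ⟨C, by linarith, ?_⟩
  intro a b h k m K N Bd s q f ha hb hh hk hm hCK hN hCN hs hsR hf hBd z hz
  have hN0 : 0 < N := by linarith
  have hK1 : 1 ≤ K := by linarith
  have hK0 : 0 < K := by linarith
  have hCYK : CY ≤ K := by linarith
  have hCYN : CY * N ≤ K := (mul_le_mul_of_nonneg_right (by linarith) hN0.le).trans hCN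
  have hBN : 6 * B * N ≤ K := (mul_le_mul_of_nonneg_right (by linarith) hN0.le).trans hCN
  have h8K : 8 / R ≤ K := by linarith
  have hKi : 1 / K ≤ R / 8 := by
    rw [div_le_iff₀ hR] at h8K
    rw [div_le_div_iff₀ hK0 (by norm_num)]
    linarith
  have hKi0 : 0 < 1 / K := by positivity
  have hB0 : 0 ≤ Bd := by
    have hn : ‖((R / 2 : ℝ) : ℂ)‖ = R / 2 := by
      rw [Complex.norm_real, Real.norm_of_nonneg (by positivity)]
    refine le_trans (mul_nonneg (Real.exp_pos _).le (abs_nonneg _))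
      (hBd ((R / 2 : ℝ) : ℂ) ?_ ?_)
    · rw [hn]
      linarith
    · rw [hn]
      linarith
  obtain ⟨Ψ, hΨ⟩ : ∃ Ψ : ℂ → ℝ, Ψ = Psw a b h k m K N := ⟨_, rfl⟩
  have hΨe : ∀ z, K * z.re + N * qp a b h k m z = Ψ z := by intro z; rw [hΨ]; rfl
  have hΨs : ContDiff ℝ ∞ Ψ := by rw [hΨ]; exact Psw_smooth a b h k m K N
  simp only [hΨe] at h1 hBd
  have hball1 : ∀ z ∈ ball (0 : ℂ) R, ‖z‖ ≤ 1 := by
    intro z hz
    rw [mem_ball_zero_iff] at hz
    linarith
  have hgrad : ∀ z ∈ ball (0 : ℂ) R, dx Ψ z ^ 2 + dy Ψ z ^ 2 ≤ (2 * K) ^ 2 := by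
    intro z hz
    rw [hΨ]
    exact Psw_grad ha hb hh hk hm hK0.le hN0.le hBN (hball1 z hz)
  -- the cut off solution
  set w : ℂ → ℝ := fun z => χ z * f z with hw
  have hsub : ∀ z, z ∈ tsupport (χ : ℂ → ℝ) → z ∈ ball (0 : ℂ) R := by
    intro z hz
    rw [tχ] at hz
    simp only [mem_closedBall, dist_zero_right, mem_ball] at hz ⊢
    linarith
  have hχoff : ∀ z, z ∉ tsupport (χ : ℂ → ℝ) → w =ᶠ[𝓝 z] fun _ => 0 := by
    intro z hz
    filter_upwards [notMem_tsupport_iff_eventuallyEq.1 hz] with u hu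
    simp only [hw, hu, Pi.zero_apply, zero_mul]
  have sw : ContDiff ℝ ∞ w := by
    rw [contDiff_iff_contDiffAt]
    intro z
    by_cases hz : z ∈ tsupport (χ : ℂ → ℝ)
    · exact sχ.contDiffAt.mul (hf z (hsub z hz)).1
    · exact contDiffAt_const.congr_of_eventuallyEq (hχoff z hz)
  have cw : HasCompactSupport w := cχ.mul_right
  have tw : tsupport w ⊆ ball (0 : ℂ) R := by
    refine (tsupport_mul_subset_left (f := (χ : ℂ → ℝ))).trans (fun z hz => hsub z hz)
  have k1 := h1 a b h k m K N q w ha hb hh hk hm hCYK hN hCYN (fun z hz => by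
    obtain ⟨g1, g2, g3, g4, g5, g6, g7⟩ := hf z hz
    exact ⟨g2, g3, g4, (mul_le_mul_of_nonneg_right (by linarith) (norm_nonneg _)).trans g5, g6⟩)
    sw cw tw
  simp only [hΨe] at k1
  have habsq : ∀ z ∈ ball (0 : ℂ) R, |q z| ≤ K ^ 2 := by
    intro z hz
    obtain ⟨g1, g2, g3, g4, g5, g6, g7⟩ := hf z hz
    rw [abs_of_nonneg g3]; exact g4
  have tχ2R : tsupport χ2 ⊆ ball (0 : ℂ) R := by
    intro z hz
    have := tχ2 hz
    simp only [mem_closedBall, dist_zero_right, mem_ball] at this ⊢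
    linarith
  have k2 := h2 (2 * K) K R Ψ q f χ2 hR hΨs hgrad sχ2 cχ2 tχ2R (fun z hz =>
    ⟨(hf z hz).1, habsq z hz, (hf z hz).2.2.2.2.2.2⟩)
  have hcoef : 8 * (2 * K) ^ 2 + 2 * K ^ 2 = 34 * K ^ 2 := by ring
  rw [hcoef] at k2
  -- continuity of the products with functions supported in the disc
  have hprod : ∀ (F G : ℂ → ℝ), Continuous F → (∀ z ∈ ball (0 : ℂ) R, ContinuousAt G z) →
      (∀ z, z ∉ tsupport χ2 → F =ᶠ[𝓝 z] fun _ => 0) →
      Integrable fun z => F z * G z := by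
    intro F G hF hG hoff
    have hc : Continuous fun z => F z * G z := by
      rw [continuous_iff_continuousAt]
      intro z
      by_cases hz : z ∈ tsupport χ2
      · exact hF.continuousAt.mul (hG z (tχ2R hz))
      · have : (fun z => F z * G z) =ᶠ[𝓝 z] fun _ => 0 := by
          filter_upwards [hoff z hz] with u hu
          rw [hu, zero_mul]
        exact continuousAt_const.congr this.symm
    refine hc.integrable_of_hasCompactSupport
      (HasCompactSupport.of_support_subset_isCompact cχ2 ?_)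
    intro z hz
    by_contra hn
    apply hz
    simp only
    rw [(hoff z hn).self_of_nhds, zero_mul]
  have hE : Continuous fun z => Real.exp (-2 * Ψ z) :=
    Real.continuous_exp.comp (continuous_const.mul hΨs.continuous)
  have hχ2off : ∀ z, z ∉ tsupport χ2 → ∀ᶠ u in 𝓝 z, χ2 u = 0 ∧ dx χ2 u = 0 ∧ dy χ2 u = 0 := by
    intro z hz
    have e1 : χ2 =ᶠ[𝓝 z] fun _ => 0 := notMem_tsupport_iff_eventuallyEq.1 hz
    filter_upwards [e1.eventuallyEq_nhds] with u hu
    obtain ⟨e2, e3, -⟩ := ev_const hu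
    exact ⟨hu.self_of_nhds, e2, e3⟩
  have hhc : ∀ z ∈ ball (0 : ℂ) R, ContinuousAt f z := fun z hz => (hf z hz).1.continuousAt
  have hgc : ∀ z ∈ ball (0 : ℂ) R, ContinuousAt (fun z => dx f z ^ 2 + dy f z ^ 2) z :=
    fun z hz => ((cda_d 1 (hf z hz).1).continuousAt.pow 2).add
      ((cda_d I (hf z hz).1).continuousAt.pow 2)
  have hh2 : ∀ z ∈ ball (0 : ℂ) R, ContinuousAt (fun z => f z ^ 2) z :=
    fun z hz => (hhc z hz).pow 2
  have I1 : Integrable fun z => Real.exp (-2 * Ψ z) * χ2 z ^ 2 * (dx f z ^ 2 + dy f z ^ 2) := by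
    refine hprod _ _ (hE.mul (sχ2.continuous.pow 2)) hgc (fun z hz => ?_)
    filter_upwards [hχ2off z hz] with u hu
    simp [hu.1]
  have I2 : Integrable fun z => Real.exp (-2 * Ψ z) * χ2 z ^ 2 * f z ^ 2 := by
    refine hprod _ _ (hE.mul (sχ2.continuous.pow 2)) hh2 (fun z hz => ?_)
    filter_upwards [hχ2off z hz] with u hu
    simp [hu.1]
  have I3 : Integrable fun z => Real.exp (-2 * Ψ z) *
      (8 * (dx χ2 z ^ 2 + dy χ2 z ^ 2) + 34 * K ^ 2 * χ2 z ^ 2) * f z ^ 2 := by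
    refine hprod _ _ (hE.mul ((continuous_const.mul (((cd_d 1 sχ2).continuous.pow 2).add
      ((cd_d I sχ2).continuous.pow 2))).add (continuous_const.mul (sχ2.continuous.pow 2))))
      hh2 (fun z hz => ?_)
    filter_upwards [hχ2off z hz] with u hu
    obtain ⟨e1, e2, e3⟩ := hu
    rw [e1, e2, e3]
    ring
  -- the right side of the Carleman inequality
  have k3 : ∫ z, Real.exp (-2 * Ψ z) * (lap w z + q z * w z) ^ 2 ≤
      ∫ z, (8 * c1 + 2 * c1) * (Real.exp (-2 * Ψ z) * χ2 z ^ 2 *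
        (dx f z ^ 2 + dy f z ^ 2) + Real.exp (-2 * Ψ z) * χ2 z ^ 2 * f z ^ 2) := by
    refine integral_mono_of_nonneg (ae_of_all _ fun z => ?_) ((I1.add I2).const_mul _)
      (ae_of_all _ fun z => ?_)
    · exact mul_nonneg (Real.exp_pos _).le (sq_nonneg _)
    · dsimp only
      have hE0 := Real.exp_pos (-2 * Ψ z)
      have hr : 0 ≤ (8 * c1 + 2 * c1) * (Real.exp (-2 * Ψ z) * χ2 z ^ 2 *
          (dx f z ^ 2 + dy f z ^ 2) + Real.exp (-2 * Ψ z) * χ2 z ^ 2 * f z ^ 2) := by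
        positivity
      by_cases hz : z ∈ ball (0 : ℂ) R
      · obtain ⟨hz1, -, -, -, -, -, hz5⟩ := hf z hz
        have e1 : lap w z + q z * w z = lap χ z * f z + 2 * (dx χ z * dx f z + dy χ z * dy f z) := by
          rw [hw, lap_mul sχ.contDiffAt hz1]
          have : lap f z = -(q z * f z) := by linarith
          rw [this]
          ring
        rw [e1]
        by_cases hz' : 3 * R / 8 ≤ ‖z‖ ∧ ‖z‖ ≤ R / 2
        · rw [one2 z hz'.1 hz'.2]
          obtain ⟨g1, g2⟩ := hb1 z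
          have e2 : (lap χ z * f z + 2 * (dx χ z * dx f z + dy χ z * dy f z)) ^ 2 ≤
              (8 * c1 + 2 * c1) * (dx f z ^ 2 + dy f z ^ 2 + f z ^ 2) := by
            exact alg4 hc1 g1 g2
          calc Real.exp (-2 * Ψ z) *
                (lap χ z * f z + 2 * (dx χ z * dx f z + dy χ z * dy f z)) ^ 2 ≤
              Real.exp (-2 * Ψ z) *
                ((8 * c1 + 2 * c1) * (dx f z ^ 2 + dy f z ^ 2 + f z ^ 2)) :=
                mul_le_mul_of_nonneg_left e2 hE0.le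
            _ = _ := by ring
        · obtain ⟨e2, e3, e4⟩ := loc z hz'
          rw [e2, e3, e4]
          simpa using hr
      · have hz' : z ∉ tsupport (χ : ℂ → ℝ) := fun hc => hz (hsub z hc)
        have e1 := (ev_const (hχoff z hz')).2.2
        have e2 : w z = 0 := (hχoff z hz').self_of_nhds
        rw [e1, e2]
        simpa using hr
  have k4 : ∫ z, (8 * c1 + 2 * c1) * (Real.exp (-2 * Ψ z) * χ2 z ^ 2 *
        (dx f z ^ 2 + dy f z ^ 2) + Real.exp (-2 * Ψ z) * χ2 z ^ 2 * f z ^ 2) ≤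
      (8 * c1 + 2 * c1) * ∫ z, (Real.exp (-2 * Ψ z) *
      (8 * (dx χ2 z ^ 2 + dy χ2 z ^ 2) + 34 * K ^ 2 * χ2 z ^ 2) * f z ^ 2 +
      Real.exp (-2 * Ψ z) * χ2 z ^ 2 * f z ^ 2) := by
    rw [integral_const_mul, integral_add I1 I2, integral_add I3 I2]
    exact mul_le_mul_of_nonneg_left (add_le_add k2 le_rfl) (by positivity)
  have k5 : ∫ z, (Real.exp (-2 * Ψ z) *
      (8 * (dx χ2 z ^ 2 + dy χ2 z ^ 2) + 34 * K ^ 2 * χ2 z ^ 2) * f z ^ 2 +
      Real.exp (-2 * Ψ z) * χ2 z ^ 2 * f z ^ 2) ≤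
      ((8 * c2 + 35) * K ^ 2 * Bd ^ 2) * (Real.pi * R ^ 2) := by
    have e0 : (volume (ball (0 : ℂ) R)).toReal = Real.pi * R ^ 2 := by
      rw [Complex.volume_ball]
      simp only [ENNReal.toReal_mul, ENNReal.toReal_pow, ENNReal.toReal_ofReal hR.le,
        ENNReal.coe_toReal, NNReal.coe_real_pi]
      ring
    have hfin : volume (ball (0 : ℂ) R) ≠ ⊤ := measure_ball_lt_top.ne
    have e1 : ∫ z, (ball (0 : ℂ) R).indicator (fun _ => (8 * c2 + 35) * K ^ 2 * Bd ^ 2) z =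
        ((8 * c2 + 35) * K ^ 2 * Bd ^ 2) * (Real.pi * R ^ 2) := by
      rw [integral_indicator measurableSet_ball, setIntegral_const, measureReal_def, e0, smul_eq_mul]
      ring
    rw [← e1]
    refine integral_mono (I3.add I2)
      ((integrable_indicator_iff measurableSet_ball).2 (integrableOn_const hfin)) (fun z => ?_)
    dsimp only
    have hE0 := Real.exp_pos (-2 * Ψ z)
    by_cases hz : z ∈ tsupport χ2
    · rw [Set.indicator_of_mem (tχ2R hz)]
      have hz1 := tχ2' z hz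
      have hz2 := tχ2 hz
      simp only [mem_closedBall, dist_zero_right] at hz2
      have e2 := hBd z (by linarith) (by linarith)
      have e3 : Real.exp (-2 * Ψ z) * f z ^ 2 ≤ Bd ^ 2 := by
        have : Real.exp (-2 * Ψ z) * f z ^ 2 = (Real.exp (-Ψ z) * |f z|) ^ 2 := by
          rw [mul_pow, sq_abs, ← Real.exp_nat_mul]
          congr 2
          push_cast
          ring
        rw [this]
        exact pow_le_pow_left₀ (mul_nonneg (Real.exp_pos _).le (abs_nonneg _)) e2 2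
      have e4 : 0 ≤ Real.exp (-2 * Ψ z) * f z ^ 2 := by positivity
      have hχle : χ2 z ^ 2 ≤ 1 := by
        have g1 : 0 ≤ b1 z := b1.nonneg
        have g2 : b1 z ≤ 1 := b1.le_one
        have g3 : 0 ≤ b2 z := b2.nonneg
        have g4 : b2 z ≤ 1 := b2.le_one
        have g5 : 0 ≤ χ2 z := mul_nonneg g1 (by linarith)
        have g6 : χ2 z ≤ 1 := mul_le_one₀ g2 (by linarith) (by linarith)
        exact pow_le_one₀ g5 g6
      obtain ⟨g1, -⟩ := hb2 z
      have hN2 : 1 ≤ K ^ 2 := one_le_pow₀ (by linarith)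
      have e5 : 8 * (dx χ2 z ^ 2 + dy χ2 z ^ 2) + 34 * K ^ 2 * χ2 z ^ 2 +
          χ2 z ^ 2 ≤ (8 * c2 + 35) * K ^ 2 := by
        have f1 : 34 * K ^ 2 * χ2 z ^ 2 ≤ 34 * K ^ 2 :=
          mul_le_of_le_one_right (by positivity) hχle
        have f2 : c2 * 1 ≤ c2 * K ^ 2 := mul_le_mul_of_nonneg_left hN2 hc2
        linarith
      have e6 : 0 ≤ 8 * (dx χ2 z ^ 2 + dy χ2 z ^ 2) + 34 * K ^ 2 * χ2 z ^ 2 +
          χ2 z ^ 2 := by positivity
      calc Real.exp (-2 * Ψ z) *
            (8 * (dx χ2 z ^ 2 + dy χ2 z ^ 2) + 34 * K ^ 2 * χ2 z ^ 2) * f z ^ 2 +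
            Real.exp (-2 * Ψ z) * χ2 z ^ 2 * f z ^ 2 =
          (8 * (dx χ2 z ^ 2 + dy χ2 z ^ 2) + 34 * K ^ 2 * χ2 z ^ 2 +
            χ2 z ^ 2) * (Real.exp (-2 * Ψ z) * f z ^ 2) := by ring
        _ ≤ ((8 * c2 + 35) * K ^ 2) * Bd ^ 2 := mul_le_mul e5 e3 e4 (e6.trans e5)
    · obtain ⟨e1, e2, e3⟩ := (hχ2off z hz).self_of_nhds
      rw [e1, e2, e3]
      simp only [ne_eq, OfNat.ofNat_ne_zero, not_false_eq_true, zero_pow, mul_zero, add_zero,
        zero_mul]
      refine Set.indicator_nonneg (fun _ _ => ?_) z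
      positivity
  have k7 : ∫ z, Real.exp (-2 * Ψ z) * w z ^ 2 ≤ c3 * K ^ 2 * Bd ^ 2 := by
    have := mul_le_mul_of_nonneg_left k5 (show 0 ≤ 8 * c1 + 2 * c1 by positivity)
    calc ∫ z, Real.exp (-2 * Ψ z) * w z ^ 2 ≤ _ := k1
      _ ≤ _ := k3
      _ ≤ _ := k4
      _ ≤ _ := this
      _ = c3 * K ^ 2 * Bd ^ 2 := by
        rw [hc3]
        ring
  -- pointwise bound
  have hzs : ‖z‖ ≤ s := by simpa using hz
  have k8 := h3 z (1 / K) K q f hKi0 (fun u hu => by
    have hu' : u ∈ ball (0 : ℂ) R := by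
      simp only [mem_closedBall, mem_ball, dist_zero_right] at hu ⊢
      have e1 : ‖u‖ ≤ ‖u - z‖ + ‖z‖ := by simpa using norm_add_le (u - z) z
      rw [dist_eq_norm] at hu
      linarith
    exact ⟨(hf u hu').1, habsq u hu', (hf u hu').2.2.2.2.2.2⟩)
  have hcf : C3 * (1 + K ^ 2 * (1 / K) ^ 2) ^ 2 / (1 / K) ^ 2 = 4 * C3 * K ^ 2 := by
    field_simp
    ring
  rw [hcf] at k8
  set Ez : ℝ := 2 * (K * z.re) + 4 + 8 * B * N * s with hEz
  have k9 : ∫ u in ball z (1 / K), f u ^ 2 ≤ Real.exp Ez * (c3 * K ^ 2 * Bd ^ 2) := by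
    have hIw : Integrable fun z => Real.exp (-2 * Ψ z) * w z ^ 2 := by
      have hc : Continuous fun z => Real.exp (-2 * Ψ z) * w z ^ 2 :=
        hE.mul (sw.continuous.pow 2)
      refine hc.integrable_of_hasCompactSupport
        (HasCompactSupport.of_support_subset_isCompact cw ?_)
      intro z hz
      by_contra hn
      apply hz
      have := image_eq_zero_of_notMem_tsupport hn
      simp [this]
    have e1 : ∫ u in ball z (1 / K), f u ^ 2 ≤
        ∫ u in ball z (1 / K), Real.exp Ez * (Real.exp (-2 * Ψ u) * w u ^ 2) := by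
      refine integral_mono_of_nonneg (ae_of_all _ fun u => sq_nonneg _)
        ((hIw.const_mul _).integrableOn) ?_
      refine (ae_restrict_iff' measurableSet_ball).2 (ae_of_all _ fun u hu => ?_)
      dsimp only
      rw [mem_ball, dist_eq_norm] at hu
      have hu2 : ‖u‖ < s + 1 / K := by
        have e1 : ‖u‖ ≤ ‖u - z‖ + ‖z‖ := by simpa using norm_add_le (u - z) z
        linarith
      have e2 : χ u = 1 := χ.one_of_mem_closedBall (by
        change u ∈ closedBall (0 : ℂ) (3 * R / 8)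
        simp only [mem_closedBall, dist_zero_right]
        linarith)
      have e3 : w u = f u := by simp [hw, e2]
      rw [e3, ← mul_assoc, ← Real.exp_add]
      have e4 : 1 ≤ Real.exp (Ez + -2 * Ψ u) := by
        rw [Real.one_le_exp_iff]
        have e5 : u.re ≤ z.re + 1 / K := by
          have := (Complex.re_le_norm (u - z)).trans hu.le
          rw [Complex.sub_re] at this
          linarith
        have e6 : K * u.re ≤ K * z.re + 1 := by
          calc K * u.re ≤ K * (z.re + 1 / K) := mul_le_mul_of_nonneg_left e5 hK0.le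
            _ = K * z.re + 1 := by field_simp
        have e7 := (abs_le.1 (qp_abs ha hb hh hk hm (z := u) (by linarith))).2
        have e8 : N * qp a b h k m u ≤ 4 * B * N * s + 1 := by
          have g1 : 4 * B * ‖u‖ ≤ 4 * B * (s + 1 / K) :=
            mul_le_mul_of_nonneg_left hu2.le (by positivity)
          have g2 : N * qp a b h k m u ≤ N * (4 * B * (s + 1 / K)) :=
            mul_le_mul_of_nonneg_left (e7.trans g1) hN0.le
          have g3 : 4 * B * N * (1 / K) ≤ 1 := by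
            rw [mul_one_div, div_le_one hK0]
            have : 0 ≤ B * N := by positivity
            linarith
          calc N * qp a b h k m u ≤ N * (4 * B * (s + 1 / K)) := g2
            _ = 4 * B * N * s + 4 * B * N * (1 / K) := by ring
            _ ≤ _ := by linarith
        rw [← hΨe, hEz]
        linarith
      exact le_mul_of_one_le_left (sq_nonneg _) e4
    refine e1.trans ?_
    rw [integral_const_mul]
    refine mul_le_mul_of_nonneg_left ?_ (Real.exp_pos _).le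
    refine le_trans (setIntegral_le_integral hIw (ae_of_all _ fun u =>
      mul_nonneg (Real.exp_pos _).le (sq_nonneg _))) k7
  have k10 : f z ^ 2 ≤ (2 * √(C3 * c3) * K ^ 2 * Real.exp (Ez / 2) * Bd) ^ 2 := by
    calc f z ^ 2 ≤ _ := k8
      _ ≤ 4 * C3 * K ^ 2 * (Real.exp Ez * (c3 * K ^ 2 * Bd ^ 2)) :=
        mul_le_mul_of_nonneg_left k9 (by positivity)
      _ = _ := by
        rw [mul_pow, mul_pow, mul_pow, mul_pow, Real.sq_sqrt (by positivity), ← Real.exp_nat_mul]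
        have : ((2 : ℕ) : ℝ) * (Ez / 2) = Ez := by
          push_cast
          ring
        rw [this]
        ring
  have k11 := abs_le_of_sq_le_sq k10 (by positivity)
  have k12 : Real.exp (-(K * z.re)) * Real.exp (Ez / 2) = Real.exp 2 * Real.exp (4 * B * N * s) := by
    rw [← Real.exp_add, ← Real.exp_add, hEz]
    congr 1
    ring
  have k13 : Real.exp (4 * B * N * s) ≤ Real.exp (C * N * s) := by
    refine Real.exp_le_exp.2 ?_
    have : 4 * B ≤ C := by linarith
    have := mul_le_mul_of_nonneg_right this (show 0 ≤ N * s by positivity)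
    linarith
  calc Real.exp (-(K * z.re)) * |f z| ≤
        Real.exp (-(K * z.re)) * (2 * √(C3 * c3) * K ^ 2 * Real.exp (Ez / 2) * Bd) :=
        mul_le_mul_of_nonneg_left k11 (Real.exp_pos _).le
    _ = 2 * √(C3 * c3) * K ^ 2 * (Real.exp (-(K * z.re)) * Real.exp (Ez / 2)) * Bd := by ring
    _ = (2 * √(C3 * c3) * Real.exp 2) * (K ^ 2 * Real.exp (4 * B * N * s) * Bd) := by
        rw [k12]; ring
    _ ≤ C * (K ^ 2 * Real.exp (C * N * s) * Bd) := by
        refine mul_le_mul (by linarith) ?_ (by positivity) (by linarith)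
        exact mul_le_mul_of_nonneg_right (mul_le_mul_of_nonneg_left k13 (by positivity)) hB0
    _ = _ := by ring

end Pool.Agent.Q73.AD
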