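import Pool.Agent.Q73.AD.TC1
import Pool.Agent.Q73.AD.StmY

/-!
# Y4: no contact for the limits of conjugated solutions (helper198)
-/

set_option autoImplicit false
open MeasureTheory Filter Topology Complex Metric
open scoped ContDiff ComplexConjugate

namespace Pool.Agent.Q73.AD

open Pool.Agent.Q73.NL

/-- Taylor expansion of order two of an analytic function -/
theorem taylor2 {G : ℂ → ℂ} {z₀ : ℂ} (hG : AnalyticAt ℂ G z₀) {e : ℝ} (he : 0 < e) :
    ∃ (c1 c2 : ℂ) (ρ : ℝ), 0 < ρ ∧ ∀ ζ : ℂ, ‖ζ‖ < ρ →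
      ‖G (z₀ + ζ) - G z₀ - (c1 * ζ + c2 * ζ ^ 2)‖ ≤ e * ‖ζ‖ ^ 2 := by
  obtain ⟨p, hp⟩ := hG
  have h1 := hp.isBigO_sub_partialSum_pow 3
  obtain ⟨c, hc0, hc⟩ := h1.exists_pos
  have h2 := hc.bound
  have h3 : ∀ᶠ y : ℂ in 𝓝 0, ‖y‖ < e / c := by
    have : ball (0 : ℂ) (e / c) ∈ 𝓝 (0 : ℂ) := ball_mem_nhds _ (by positivity)
    filter_upwards [this] with y hy
    simpa using hy
  obtain ⟨ρ, hρ, hρb⟩ := Metric.eventually_nhds_iff_ball.1 (h2.and h3)
  refine ⟨p.coeff 1, p.coeff 2, ρ, hρ, fun ζ hζ => ?_⟩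
  obtain ⟨h4, h5⟩ := hρb ζ (by simpa using hζ)
  have h6 : p.partialSum 3 ζ = G z₀ + (p.coeff 1 * ζ + p.coeff 2 * ζ ^ 2) := by
    unfold FormalMultilinearSeries.partialSum
    rw [Finset.sum_range_succ, Finset.sum_range_succ, Finset.sum_range_one]
    simp only [FormalMultilinearSeries.apply_eq_pow_smul_coeff, smul_eq_mul]
    have h7 : p.coeff 0 = G z₀ := hp.coeff_zero _
    rw [h7]
    ring
  have h8 : G (z₀ + ζ) - G z₀ - (p.coeff 1 * ζ + p.coeff 2 * ζ ^ 2) = G (z₀ + ζ) - p.partialSum 3 ζ := by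
    rw [h6]; ring
  rw [h8]
  refine h4.trans ?_
  rw [Real.norm_of_nonneg (by positivity)]
  calc c * ‖ζ‖ ^ 3 = (c * ‖ζ‖) * ‖ζ‖ ^ 2 := by ring
    _ ≤ e * ‖ζ‖ ^ 2 := by
        refine mul_le_mul_of_nonneg_right ?_ (by positivity)
        rw [lt_div_iff₀ hc0] at h5
        linarith

theorem lap_translate (f : ℂ → ℝ) (x z : ℂ) : lap (fun u => f (x + u)) z = lap f (x + z) := by
  have h1 : dx (fun u => f (x + u)) = fun u => dx f (x + u) := by
    funext u
    unfold dx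
    rw [fderiv_comp_add_left]
  have h2 : dy (fun u => f (x + u)) = fun u => dy f (x + u) := by
    funext u
    unfold dy
    rw [fderiv_comp_add_left]
  unfold lap
  rw [h1, h2]
  have h3 : ∀ g : ℂ → ℝ, dx (fun u => g (x + u)) z = dx g (x + z) := by
    intro g; unfold dx; rw [fderiv_comp_add_left]
  have h4 : ∀ g : ℂ → ℝ, dy (fun u => g (x + u)) z = dy g (x + z) := by
    intro g; unfold dy; rw [fderiv_comp_add_left]
  rw [h3, h4]

theorem cj_real (K : ℝ) (φ : ℂ → ℝ) (z : ℂ) : cj (K : ℂ) φ z = Real.exp (-(K * z.re)) * φ z := by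
  unfold cj
  rw [Complex.conj_ofReal, Complex.re_ofReal_mul]

/-- the quadratic polynomial in the stretched coordinates -/
theorem qp_stretch {σ : ℝ} (hσ : 1 ≤ σ) (c1 c2 : ℂ) (ε : ℝ) (u : ℂ) :
    qp c1.re (-c1.im / σ) (2 * c2.re - ε) (-(2 * c2.im) / σ) ((-(2 * c2.re) - ε) / σ ^ 2) u =
      (c1 * (⟨u.re, u.im / σ⟩ : ℂ) + c2 * (⟨u.re, u.im / σ⟩ : ℂ) ^ 2).re -
        ε / 2 * ‖(⟨u.re, u.im / σ⟩ : ℂ)‖ ^ 2 := by
  have hσ0 : σ ≠ 0 := by positivity
  rw [← Complex.normSq_eq_norm_sq, Complex.normSq_apply]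
  simp only [qp, pow_two, Complex.add_re, Complex.mul_re, Complex.mul_im]
  field_simp
  ring

theorem st_add {σ : ℝ} (hσ : 1 ≤ σ) (z u : ℂ) : st σ (z + ⟨u.re, u.im / σ⟩) = st σ z + u := by
  have hσ0 : σ ≠ 0 := by positivity
  apply Complex.ext
  · simp [st]
  · simp only [st, Complex.add_im]
    field_simp

theorem stretch_norm {σ : ℝ} (hσ : 1 ≤ σ) (u : ℂ) :
    ‖(⟨u.re, u.im / σ⟩ : ℂ)‖ ≤ ‖u‖ ∧ ‖u‖ ^ 2 ≤ σ ^ 2 * ‖(⟨u.re, u.im / σ⟩ : ℂ)‖ ^ 2 := by
  have hσ0 : 0 < σ := by linarith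
  have h1 : ‖(⟨u.re, u.im / σ⟩ : ℂ)‖ ^ 2 = u.re ^ 2 + (u.im / σ) ^ 2 := by
    rw [← Complex.normSq_eq_norm_sq, Complex.normSq_apply]; ring
  have h2 : ‖u‖ ^ 2 = u.re ^ 2 + u.im ^ 2 := by
    rw [← Complex.normSq_eq_norm_sq, Complex.normSq_apply]; ring
  have h3 : (u.im / σ) ^ 2 ≤ u.im ^ 2 := by
    rw [div_pow]
    exact div_le_self (sq_nonneg _) (one_le_pow₀ hσ)
  have h4 : σ ^ 2 * (u.im / σ) ^ 2 = u.im ^ 2 := by field_simp
  have h5 : 1 ≤ σ ^ 2 := one_le_pow₀ hσ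
  constructor
  · refine le_of_sq_le_sq ?_ (norm_nonneg _)
    rw [h1, h2]; linarith
  · rw [h1, h2, mul_add, h4]
    nlinarith [sq_nonneg u.re]

set_option maxHeartbeats 1000000 in
theorem ty4 (h3 : Y3) : Y4 := by
  intro 𝒰 R N K η q φ W w σ h𝒰 hR hS hσ hq0 hW hw z₀ G ε r hz₀ hw0 hG hε hr hrD hcon
  obtain ⟨x₀, hx₀⟩ : ∃ x₀, x₀ = st σ z₀ := ⟨_, rfl⟩
  have hx₀D : x₀ ∈ ball (0 : ℂ) R := by rw [hx₀]; exact hz₀
  simp only [← hx₀] at hw0 hcon
  have hσ0 : 0 < σ := by linarith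
  obtain ⟨c1, c2, ρ, hρ, hT⟩ := taylor2 hG (show 0 < ε / 4 by positivity)
  -- the radius
  obtain ⟨ρ', hρ', hρ'R⟩ := Metric.isOpen_iff.1 isOpen_ball x₀ hx₀D
  obtain ⟨R', hR'⟩ : ∃ R', R' = min (min 1 ρ') (min r ρ) := ⟨_, rfl⟩
  have hR'0 : 0 < R' := by rw [hR']; exact lt_min (lt_min one_pos hρ') (lt_min hr hρ)
  have hR'1 : R' ≤ 1 := by rw [hR']; exact (min_le_left _ _).trans (min_le_left _ _)
  have hR'ρ' : R' ≤ ρ' := by rw [hR']; exact (min_le_left _ _).trans (min_le_right _ _)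
  have hR'r : R' ≤ r := by rw [hR']; exact (min_le_right _ _).trans (min_le_left _ _)
  have hR'ρ : R' ≤ ρ := by rw [hR']; exact (min_le_right _ _).trans (min_le_right _ _)
  have hsubD : ∀ u : ℂ, ‖u‖ < R' → x₀ + u ∈ ball (0 : ℂ) R := fun u hu =>
    hρ'R (by rw [mem_ball, dist_eq_norm, add_sub_cancel_left]; linarith)
  -- the quadratic polynomial
  obtain ⟨a, ha⟩ : ∃ a, a = c1.re := ⟨_, rfl⟩
  obtain ⟨b, hb⟩ : ∃ b, b = -c1.im / σ := ⟨_, rfl⟩
  obtain ⟨h, hh⟩ : ∃ h, h = 2 * c2.re - ε := ⟨_, rfl⟩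
  obtain ⟨k, hk⟩ : ∃ k, k = -(2 * c2.im) / σ := ⟨_, rfl⟩
  obtain ⟨m, hm⟩ : ∃ m, m = (-(2 * c2.re) - ε) / σ ^ 2 := ⟨_, rfl⟩
  have hhm : h + m * σ ^ 2 = -2 * ε := by
    rw [hh, hm]; field_simp; ring
  obtain ⟨B, hB⟩ : ∃ B, B = 1 + |a| + |b| + |h| + |k| + |m| := ⟨_, rfl⟩
  have na := abs_nonneg a
  have nb := abs_nonneg b
  have nh := abs_nonneg h
  have nk := abs_nonneg k
  have nm := abs_nonneg m
  have hB0 : 0 < B := by rw [hB]; linarith
  obtain ⟨C, hC1, hC⟩ := h3 B ε R' hB0 hε hR'0 hR'1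
  have hC0 : 0 < C := by linarith
  obtain ⟨δ, hδ⟩ : ∃ δ, δ = ε * R' ^ 2 / (128 * σ ^ 2) := ⟨_, rfl⟩
  have hδ0 : 0 < δ := by rw [hδ]; positivity
  obtain ⟨s, hs⟩ : ∃ s, s = min (R' / 8) (δ / (4 * C)) := ⟨_, rfl⟩
  have hs0 : 0 < s := by rw [hs]; exact lt_min (by positivity) (by positivity)
  have hsR : 8 * s ≤ R' := by
    have : s ≤ R' / 8 := by rw [hs]; exact min_le_left _ _
    linarith
  have hsδ : C * s ≤ δ / 4 := by
    have : s ≤ δ / (4 * C) := by rw [hs]; exact min_le_right _ _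
    rw [le_div_iff₀ (by positivity)] at this
    linarith
  -- asymptotics
  have hden : ∀ j, 1 ≤ 1 + Real.log (K j) + η j * K j := by
    intro j
    have := Real.log_nonneg (hS.oneK j)
    have := mul_nonneg (hS.eta j) (zero_le_one.trans (hS.oneK j))
    linarith
  have hlarge : ∀ T : ℝ, ∀ᶠ j in (𝒰 : Filter ℕ), T * (1 + Real.log (K j) + η j * K j) ≤ N j := by
    intro T
    filter_upwards [(hS.large.mono_left h𝒰).eventually (eventually_ge_atTop T)] with j hj
    exact (le_div_iff₀ (by linarith [hden j])).1 hj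
  have hsmall : ∀ T : ℝ, 0 < T → ∀ᶠ j in (𝒰 : Filter ℕ), T * N j ≤ K j := by
    intro T hT
    filter_upwards [(hS.small.mono_left h𝒰).eventually (Iio_mem_nhds (show (0 : ℝ) < 1 / T by positivity))]
      with j hj
    have hKj := hS.oneK j
    have h1 : N j / K j < 1 / T := hj
    rw [div_lt_div_iff₀ (by linarith) hT] at h1
    linarith
  -- smallness on the annulus
  obtain ⟨P, hP⟩ : ∃ P : ℂ → ℝ, P = qp a b h k m := ⟨_, rfl⟩
  have hPc : Continuous P := by
    rw [hP]; unfold qp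
    fun_prop
  set A : Set ℂ := {ζ | R' / 4 ≤ ‖ζ‖ ∧ ‖ζ‖ ≤ 3 * R' / 4} with hA
  have hAc : IsCompact A := by
    have h1 : A = closedBall 0 (3 * R' / 4) ∩ {ζ : ℂ | R' / 4 ≤ ‖ζ‖} := by
      ext ζ
      simp [hA, and_comm]
    rw [h1]
    exact (isCompact_closedBall _ _).inter_right (isClosed_le continuous_const continuous_norm)
  have hann : ∀ᶠ j in (𝒰 : Filter ℕ), ∀ u ∈ A,
      |cj (K j) (φ j) (x₀ + u)| ≤ w x₀ ^ N j * Real.exp (N j * (P u - δ)) := by
    refine hAc.induction_on (p := fun S => ∀ᶠ j in (𝒰 : Filter ℕ), ∀ u ∈ S,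
      |cj (K j) (φ j) (x₀ + u)| ≤ w x₀ ^ N j * Real.exp (N j * (P u - δ))) ?_ ?_ ?_ ?_
    · exact Eventually.of_forall fun j ζ hζ => absurd hζ (Set.notMem_empty ζ)
    · intro S T hST hT
      filter_upwards [hT] with j hj ζ hζ using hj ζ (hST hζ)
    · intro S T hS' hT
      filter_upwards [hS', hT] with j h1 h2 ζ hζ
      rcases hζ with hζ | hζ
      · exact h1 ζ hζ
      · exact h2 ζ hζ
    · intro u hu
      obtain ⟨n1, n2⟩ := stretch_norm hσ u
      obtain ⟨ζ, hζ⟩ : ∃ ζ : ℂ, ζ = ⟨u.re, u.im / σ⟩ := ⟨_, rfl⟩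
      have huR : ‖u‖ < R' := by linarith [hu.2]
      rw [← hζ] at n1 n2
      have hlt : w (x₀ + u) < w x₀ * Real.exp (P u - 3 * δ / 2) := by
        have g1 := hcon (z₀ + ζ) (by rw [mem_ball, dist_eq_norm, add_sub_cancel_left]; linarith)
        rw [hζ, st_add hσ, ← hx₀, ← hζ, add_sub_cancel_left] at g1
        refine g1.trans_lt ?_
        refine mul_lt_mul_of_pos_left (Real.exp_lt_exp.2 ?_) hw0
        have g2 := hT ζ (by linarith)
        have g3 := (Complex.re_le_norm _).trans g2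
        rw [Complex.sub_re] at g3
        have g4 : P u = (c1 * ζ + c2 * ζ ^ 2).re - ε / 2 * ‖ζ‖ ^ 2 := by
          rw [hP, ha, hb, hh, hk, hm, hζ]
          exact qp_stretch hσ c1 c2 ε u
        have g5 : 2 * δ ≤ ε / 4 * ‖ζ‖ ^ 2 := by
          have g6 : (R' / 4) ^ 2 ≤ ‖u‖ ^ 2 := pow_le_pow_left₀ (by positivity) hu.1 2
          have g7 : (R' / 4) ^ 2 ≤ σ ^ 2 * ‖ζ‖ ^ 2 := g6.trans n2
          rw [hδ, ← mul_div_assoc, div_le_iff₀ (by positivity)]
          nlinarith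
        linarith
      obtain ⟨ρ₁, hρ₁, hρD, hρW⟩ := hw.ex (x₀ + u) (hsubD u huR) _ hlt
      have g1 := hW.lt (ball (x₀ + u) ρ₁) hρD _ hρW
      have g2 : ∀ᶠ v in 𝓝 u, x₀ + v ∈ ball (x₀ + u) ρ₁ := by
        have : ContinuousAt (fun v : ℂ => x₀ + v) u := by fun_prop
        exact this (ball_mem_nhds _ hρ₁)
      have g3 : ∀ᶠ v in 𝓝 u, P u - δ / 2 < P v :=
        hPc.continuousAt.eventually (Ioi_mem_nhds (by linarith))
      refine ⟨{v | x₀ + v ∈ ball (x₀ + u) ρ₁ ∧ P u - δ / 2 < P v},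
        mem_nhdsWithin_of_mem_nhds (g2.and g3), ?_⟩
      filter_upwards [g1] with j hj v hv
      refine (hj _ hv.1).trans ?_
      rw [rp hw0]
      refine mul_le_mul_of_nonneg_left (Real.exp_le_exp.2 ?_) (Real.rpow_nonneg hw0.le _)
      exact mul_le_mul_of_nonneg_left (by linarith [hv.2]) (by linarith [hS.oneN j])
  -- the potential
  obtain ⟨τ, hτ⟩ : ∃ τ, τ = ε / (2 * (|m| + 1)) := ⟨_, rfl⟩
  have hτ0 : 0 < τ := by rw [hτ]; positivity
  have hmτ : |m| * τ ≤ ε / 2 := by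
    rw [hτ, ← mul_div_assoc, div_le_div_iff₀ (by positivity) (by norm_num)]
    nlinarith
  have hpot : ∀ᶠ j in (𝒰 : Filter ℕ), ∀ z ∈ ball (0 : ℂ) R,
      h * K j ^ 2 + m * (K j ^ 2 + q j z) ≤ -ε * K j ^ 2 := by
    have e1 : ∀ᶠ j in (𝒰 : Filter ℕ), |1 + q j 0 / K j ^ 2 - σ ^ 2| < τ := by
      have := hq0.eventually (Metric.ball_mem_nhds _ hτ0)
      filter_upwards [this] with j hj
      rw [Real.dist_eq] at hj
      exact hj
    filter_upwards [e1, hlarge 1, hsmall (R / τ) (by positivity)] with j h1 h2 h3 z hz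
    have hK1 := hS.oneK j
    have hK0 : 0 < K j := by linarith
    have hKK : 0 < K j ^ 2 := by positivity
    have hlog := Real.log_nonneg hK1
    have hη := hS.eta j
    have h4 : R * η j ≤ τ := by
      have h5 : η j * K j ≤ N j := by linarith
      have h6 : R / τ * (η j * K j) ≤ K j := (mul_le_mul_of_nonneg_left h5 (by positivity)).trans h3
      have h7 : R / τ * η j ≤ 1 := by
        have : R / τ * η j * K j ≤ 1 * K j := by linarith
        exact le_of_mul_le_mul_right this hK0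
      rw [div_mul_eq_mul_div, div_le_one hτ0] at h7
      exact h7
    have h5 : |q j z - q j 0| ≤ τ * K j ^ 2 := by
      have h6 := (convex_ball (0 : ℂ) R).norm_image_sub_le_of_norm_fderiv_le (𝕜 := ℝ) (f := q j)
        (C := η j * K j ^ 2) (fun y hy => ((hS.qsmooth j).contDiffAt (isOpen_ball.mem_nhds hy)).differentiableAt
          (by simp)) (fun y hy => hS.dqb j y hy) (mem_ball_self hR) hz
      rw [Real.norm_eq_abs, sub_zero] at h6
      refine h6.trans ?_
      have hzR : ‖z‖ ≤ R := by rw [mem_ball_zero_iff] at hz; exact hz.le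
      calc η j * K j ^ 2 * ‖z‖ ≤ η j * K j ^ 2 * R := mul_le_mul_of_nonneg_left hzR (by positivity)
        _ = (R * η j) * K j ^ 2 := by ring
        _ ≤ τ * K j ^ 2 := mul_le_mul_of_nonneg_right h4 hKK.le
    have h6 : |(1 + q j 0 / K j ^ 2 - σ ^ 2) * K j ^ 2| ≤ τ * K j ^ 2 := by
      rw [abs_mul, abs_of_pos hKK]
      exact mul_le_mul_of_nonneg_right h1.le hKK.le
    have h7 : (1 + q j 0 / K j ^ 2 - σ ^ 2) * K j ^ 2 = K j ^ 2 + q j 0 - σ ^ 2 * K j ^ 2 := by
      field_simp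
    rw [h7] at h6
    have h8 : m * (K j ^ 2 + q j 0 - σ ^ 2 * K j ^ 2) ≤ |m| * (τ * K j ^ 2) :=
      (le_abs_self _).trans (by rw [abs_mul]; exact mul_le_mul_of_nonneg_left h6 nm)
    have h9 : m * (q j z - q j 0) ≤ |m| * (τ * K j ^ 2) :=
      (le_abs_self _).trans (by rw [abs_mul]; exact mul_le_mul_of_nonneg_left h5 nm)
    have h10 : |m| * (τ * K j ^ 2) ≤ ε / 2 * K j ^ 2 := by
      rw [← mul_assoc]; exact mul_le_mul_of_nonneg_right hmτ hKK.le
    have h11 : h * K j ^ 2 + m * (σ ^ 2 * K j ^ 2) = -2 * ε * K j ^ 2 := by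
      rw [← hhm]; ring
    linarith
  -- propagation to the centre
  have hballD : ball x₀ s ⊆ ball (0 : ℂ) R := by
    intro x hx
    have := hsubD (x - x₀) (by rw [mem_ball, dist_eq_norm] at hx; linarith)
    simpa using this
  have hfin : ∀ᶠ j in (𝒰 : Filter ℕ), ∀ x ∈ ball x₀ s,
      |cj (K j) (φ j) x| ≤ (w x₀ * Real.exp (-(δ / 2))) ^ N j := by
    filter_upwards [hann, hpot, hlarge C, hlarge (4 / δ * (2 + Real.log C)), hsmall C hC0] with
      j hj1 hj2 hj3 hj4 hj5 x hx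
    obtain ⟨u, rfl⟩ : ∃ u, x = x₀ + u := ⟨x - x₀, by ring⟩
    have hus : ‖u‖ < s := by
      rw [mem_ball, dist_eq_norm, add_sub_cancel_left] at hx; exact hx
    have hK1 := hS.oneK j
    have hK0 : 0 < K j := by linarith
    have hN1 := hS.oneN j
    have hN0 : 0 < N j := by linarith
    have hlog := Real.log_nonneg hK1
    have hη := hS.eta j
    have hwp : 0 ≤ w x₀ ^ N j := Real.rpow_nonneg hw0.le _
    have k1 := hC a b h k m (K j) (N j) (Real.exp (K j * x₀.re) * (w x₀ ^ N j * Real.exp (-(N j * δ)))) s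
      (fun u => q j (x₀ + u)) (fun u => φ j (x₀ + u)) (by rw [hB]; linarith) (by rw [hB]; linarith)
      (by rw [hB]; linarith) (by rw [hB]; linarith) (by rw [hB]; linarith)
      (by nlinarith) hN1 hj5 hs0 hsR (fun z hz => by
        rw [mem_ball_zero_iff] at hz
        have hzD := hsubD z hz
        have hn : ball (0 : ℂ) R ∈ 𝓝 (x₀ + z) := isOpen_ball.mem_nhds hzD
        have hadd : ContDiffAt ℝ ∞ (fun u : ℂ => x₀ + u) z := by fun_prop
        have p2 : ContDiffAt ℝ ∞ (φ j) (x₀ + z) := (hS.smooth j).contDiffAt hn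
        have p1 : ContDiffAt ℝ 1 (q j) (x₀ + z) := (hS.qsmooth j).contDiffAt hn
        refine ⟨p2.comp z hadd, p1.comp z (by fun_prop), (hS.qb j _ hzD).1, (hS.qb j _ hzD).2, ?_, ?_, ?_⟩
        · rw [fderiv_comp_add_left]
          have p3 := hS.dqb j _ hzD
          have p4 : C * (η j * K j) ≤ N j := by nlinarith
          calc C * ‖fderiv ℝ (q j) (x₀ + z)‖ ≤ C * (η j * K j ^ 2) :=
                mul_le_mul_of_nonneg_left p3 hC0.le
            _ = C * (η j * K j) * K j := by ring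
            _ ≤ N j * K j := mul_le_mul_of_nonneg_right p4 hK0.le
        · exact hj2 _ hzD
        · rw [lap_translate]
          exact hS.eq j _ hzD)
      (fun z hz1 hz2 => by
        have k2 := hj1 z ⟨hz1, hz2⟩
        rw [cj_real, abs_mul, abs_of_pos (Real.exp_pos _)] at k2
        have e1 : |φ j (x₀ + z)| = Real.exp (K j * (x₀ + z).re) *
            (Real.exp (-(K j * (x₀ + z).re)) * |φ j (x₀ + z)|) := by
          rw [← mul_assoc, ← Real.exp_add, add_neg_cancel, Real.exp_zero, one_mul]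
        rw [e1]
        have hPz : qp a b h k m z = P z := by rw [hP]
        rw [hPz]
        calc Real.exp (-(K j * z.re + N j * P z)) * (Real.exp (K j * (x₀ + z).re) *
              (Real.exp (-(K j * (x₀ + z).re)) * |φ j (x₀ + z)|)) ≤
            Real.exp (-(K j * z.re + N j * P z)) * (Real.exp (K j * (x₀ + z).re) *
              (w x₀ ^ N j * Real.exp (N j * (P z - δ)))) := by gcongr
          _ = (Real.exp (-(K j * z.re + N j * P z)) * Real.exp (K j * (x₀ + z).re) *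
              Real.exp (N j * (P z - δ))) * w x₀ ^ N j := by ring
          _ = (Real.exp (K j * x₀.re) * Real.exp (-(N j * δ))) * w x₀ ^ N j := by
              rw [← Real.exp_add, ← Real.exp_add, ← Real.exp_add, Complex.add_re]
              congr 2
              ring
          _ = Real.exp (K j * x₀.re) * (w x₀ ^ N j * Real.exp (-(N j * δ))) := by ring
          _ ≤ _ := le_rfl) u (by simpa using hus.le)
    have k3 : C * K j ^ 2 ≤ Real.exp (N j * δ / 4) := by
      have e1 : (2 + Real.log C) * (1 + Real.log (K j) + η j * K j) ≤ N j * δ / 4 := by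
        have e2 := mul_le_mul_of_nonneg_right hj4 (show 0 ≤ δ / 4 by positivity)
        have e3 : 4 / δ * (2 + Real.log C) * (1 + Real.log (K j) + η j * K j) * (δ / 4) =
          (2 + Real.log C) * (1 + Real.log (K j) + η j * K j) := by field_simp
        rw [e3] at e2
        linarith
      have e4 : 0 ≤ Real.log C := Real.log_nonneg hC1
      have e5 : Real.log C + 2 * Real.log (K j) ≤ N j * δ / 4 := by
        have e6 : 0 ≤ η j * K j := by positivity
        have e7 : Real.log C + 2 * Real.log (K j) ≤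
            (2 + Real.log C) * (1 + Real.log (K j) + η j * K j) := by
          nlinarith [mul_nonneg e4 hlog, mul_nonneg e4 e6]
        exact e7.trans e1
      have e8 : C * K j ^ 2 = Real.exp (Real.log C + 2 * Real.log (K j)) := by
        rw [Real.exp_add, Real.exp_log hC0, two_mul, Real.exp_add, Real.exp_log hK0]; ring
      rw [e8]
      exact Real.exp_le_exp.2 e5
    have k4 : Real.exp (C * N j * s) ≤ Real.exp (N j * δ / 4) := by
      refine Real.exp_le_exp.2 ?_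
      have := mul_le_mul_of_nonneg_left hsδ hN0.le
      linarith
    rw [cj_real, abs_mul, abs_of_pos (Real.exp_pos _), rp hw0]
    have e9 : Real.exp (-(K j * (x₀ + u).re)) = Real.exp (-(K j * x₀.re)) * Real.exp (-(K j * u.re)) := by
      rw [← Real.exp_add, Complex.add_re]; congr 1; ring
    rw [e9, mul_assoc]
    calc Real.exp (-(K j * x₀.re)) * (Real.exp (-(K j * u.re)) * |φ j (x₀ + u)|) ≤
          Real.exp (-(K j * x₀.re)) * (C * K j ^ 2 * Real.exp (C * N j * s) *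
            (Real.exp (K j * x₀.re) * (w x₀ ^ N j * Real.exp (-(N j * δ))))) :=
          mul_le_mul_of_nonneg_left k1 (Real.exp_pos _).le
      _ = (Real.exp (-(K j * x₀.re)) * Real.exp (K j * x₀.re)) * ((C * K j ^ 2) * Real.exp (C * N j * s) *
            (w x₀ ^ N j * Real.exp (-(N j * δ)))) := by ring
      _ = (C * K j ^ 2) * Real.exp (C * N j * s) * (w x₀ ^ N j * Real.exp (-(N j * δ))) := by
          rw [← Real.exp_add, neg_add_cancel, Real.exp_zero, one_mul]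
      _ ≤ Real.exp (N j * δ / 4) * Real.exp (N j * δ / 4) * (w x₀ ^ N j * Real.exp (-(N j * δ))) := by
          gcongr
      _ = w x₀ ^ N j * Real.exp (N j * -(δ / 2)) := by
          rw [← Real.exp_add]
          have : Real.exp (N j * δ / 4 + N j * δ / 4) * (w x₀ ^ N j * Real.exp (-(N j * δ))) =
            w x₀ ^ N j * (Real.exp (N j * δ / 4 + N j * δ / 4) * Real.exp (-(N j * δ))) := by ring
          rw [this, ← Real.exp_add]
          congr 2
          ring
  have e1 := hW.le _ hballD _ (mul_nonneg hw0.le (Real.exp_pos _).le) hfin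
  have e2 := hw.le x₀ hx₀D _ hs0 hballD
  have e3 : w x₀ * Real.exp (-(δ / 2)) < w x₀ * 1 := by
    refine mul_lt_mul_of_pos_left ?_ hw0
    rw [Real.exp_lt_one_iff]
    linarith
  linarith

end Pool.Agent.Q73.AD
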