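import Pool.Agent.Q73.AD.StmY
import Pool.Agent.Q73.AD.YK0

/-!
# Centres of subsquares
-/

set_option autoImplicit false

namespace Pool.Agent.Q73.AD

/-- the centre of a subsquare of a subsquare -/
lemma ct_ch {m n : ℕ} (hm : 0 < m) (hn : 0 < n) (a c : ℕ × ℕ) :
    ct (m * n) (ch n a c) = ct m a + (1 / (m : ℝ) : ℝ) * ct n c := by
  have h1 : (m : ℝ) ≠ 0 := by positivity
  have h2 : (n : ℝ) ≠ 0 := by positivity
  apply Complex.ext
  · simp only [ct, ch, Complex.add_re, Complex.re_ofReal_mul]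
    push_cast
    field_simp
    ring
  · simp only [ct, ch, Complex.add_im, Complex.im_ofReal_mul]
    push_cast
    field_simp
    ring

lemma ct_one (a : ℕ × ℕ) (ha : a ∈ gd 1) : ct 1 a = 0 := by
  rw [mem_gd] at ha
  have h1 : a.1 = 0 := by omega
  have h2 : a.2 = 0 := by omega
  apply Complex.ext <;> simp [ct, h1, h2]

/-- the centres of the subsquares are in the square -/
lemma ct_abs {m : ℕ} {a : ℕ × ℕ} (ha : a ∈ gd m) :
    |(ct m a).re| ≤ 1 - 1 / m ∧ |(ct m a).im| ≤ 1 - 1 / m := by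
  rw [mem_gd] at ha
  have hm : (0 : ℝ) < m := by
    have : 0 < m := by omega
    exact_mod_cast this
  have key : ∀ t : ℕ, t < m → |(-1 : ℝ) + (2 * (t : ℝ) + 1) / m| ≤ 1 - 1 / m := by
    intro t ht
    have h1 : (t : ℝ) + 1 ≤ m := by exact_mod_cast ht
    have h0 : (0 : ℝ) ≤ t := by positivity
    rw [abs_le]
    constructor
    · have : (1 : ℝ) / m ≤ (2 * t + 1) / m := by
        gcongr
        linarith
      linarith
    · have : (2 * (t : ℝ) + 1) / m ≤ 2 - 1 / m := by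
        rw [div_le_iff₀ hm, sub_mul, div_mul_cancel₀ _ hm.ne']
        linarith
      linarith
  exact ⟨key _ ha.1, key _ ha.2⟩

lemma ct_norm {m : ℕ} {a : ℕ × ℕ} (ha : a ∈ gd m) : ‖ct m a‖ ≤ Real.sqrt 2 := by
  obtain ⟨h1, h2⟩ := ct_abs ha
  rw [mem_gd] at ha
  have hm : (0 : ℝ) < m := by
    have : 0 < m := by omega
    exact_mod_cast this
  have h3 : 0 < 1 / (m : ℝ) := by positivity
  rw [Complex.norm_def]
  apply Real.sqrt_le_sqrt
  rw [Complex.normSq_apply]
  have h4 : (ct m a).re ^ 2 ≤ 1 := by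
    rw [← sq_abs]
    nlinarith [abs_nonneg (ct m a).re]
  have h5 : (ct m a).im ^ 2 ≤ 1 := by
    rw [← sq_abs]
    nlinarith [abs_nonneg (ct m a).im]
  nlinarith

/-- the centres of different subsquares have distance at least `2 / m` -/
lemma ct_sep {m : ℕ} {a b : ℕ × ℕ} (hm : 0 < m) (hab : a ≠ b) : 2 / (m : ℝ) ≤ ‖ct m a - ct m b‖ := by
  have hm' : (0 : ℝ) < m := by exact_mod_cast hm
  have key : ∀ s t : ℕ, s ≠ t → 2 / (m : ℝ) ≤ |((-1 : ℝ) + (2 * (s : ℝ) + 1) / m) - (-1 + (2 * (t : ℝ) + 1) / m)| := by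
    intro s t hst
    have h1 : ((-1 : ℝ) + (2 * (s : ℝ) + 1) / m) - (-1 + (2 * (t : ℝ) + 1) / m) = 2 * ((s : ℝ) - t) / m := by
      ring
    rw [h1, abs_div, abs_mul, abs_of_pos hm', abs_two]
    have h2 : (1 : ℝ) ≤ |(s : ℝ) - t| := by
      have h3 : (1 : ℤ) ≤ |(s : ℤ) - t| := Int.one_le_abs (by omega)
      exact_mod_cast h3
    gcongr
    linarith
  rcases ne_or_eq a.1 b.1 with h | h
  · exact (key _ _ h).trans (Complex.abs_re_le_norm (ct m a - ct m b))
  · have h' : a.2 ≠ b.2 := fun h2 => hab (Prod.ext h h2)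
    exact (key _ _ h').trans (Complex.abs_im_le_norm (ct m a - ct m b))

end Pool.Agent.Q73.AD
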