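import Pool.Agent.Q73.AD.Stm

/-!
# O1, first part: the limit functions (helper24)
-/

set_option autoImplicit false
open MeasureTheory Filter Topology Complex Metric
open scoped ContDiff ComplexConjugate

namespace Pool.Agent.Q73.AD

open Pool.Agent.Q73.NL

lemma cen_norm_le {M : ℕ} (a : Fin M × Fin M) : ‖cen M a‖ ≤ 2 := by
  have hM : 0 < M := lt_of_le_of_lt (Nat.zero_le _) a.1.2
  have hMr : (0 : ℝ) < M := by exact_mod_cast hM
  have key : ∀ i : Fin M, |-1 + (2 * (i : ℝ) + 1) / M| ≤ 1 := by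
    intro i
    have h1 : ((i : ℕ) : ℝ) + 1 ≤ M := by
      have := i.2
      exact_mod_cast this
    have h2 : (0 : ℝ) ≤ (i : ℕ) := Nat.cast_nonneg _
    have h3 : 0 ≤ (2 * (i : ℝ) + 1) / M := by positivity
    have h4 : (2 * (i : ℝ) + 1) / M ≤ 2 := by
      rw [div_le_iff₀ hMr]
      linarith
    rw [abs_le]
    constructor <;> linarith
  refine (Complex.norm_le_abs_re_add_abs_im _).trans ?_
  have h1 := key a.1
  have h2 := key a.2
  have e1 : (cen M a).re = -1 + (2 * ((a.1 : ℕ) : ℝ) + 1) / M := rfl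
  have e2 : (cen M a).im = -1 + (2 * ((a.2 : ℕ) : ℝ) + 1) / M := rfl
  rw [e1, e2]
  linarith

/-- the root of `w` on `D`, zero outside -/
noncomputable def om (D : Set ℂ) [DecidablePred (· ∈ D)] (w : ℂ → ℝ) (T : ℝ) (x : ℂ) : ℝ :=
  if x ∈ D then w x ^ (1 / T) else 0

section om

variable {D : Set ℂ} [DecidablePred (· ∈ D)] {w : ℂ → ℝ} {T : ℝ}

lemma om_mem {x : ℂ} (hx : x ∈ D) : om D w T x = w x ^ (1 / T) := if_pos hx

lemma om_nonneg (hw : ∀ x ∈ D, 0 ≤ w x ∧ w x ≤ 1) (x : ℂ) : 0 ≤ om D w T x := by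
  unfold om
  split_ifs with h
  · exact Real.rpow_nonneg (hw x h).1 _
  · exact le_rfl

lemma om_le (hT : 0 < T) (hw : ∀ x ∈ D, 0 ≤ w x ∧ w x ≤ 1) (x : ℂ) : om D w T x ≤ 1 := by
  unfold om
  split_ifs with h
  · exact Real.rpow_le_one (hw x h).1 (hw x h).2 (one_div_pos.2 hT).le
  · exact zero_le_one

lemma om_usc (hT : 0 < T) (hw : ∀ x ∈ D, 0 ≤ w x ∧ w x ≤ 1) (hu : UpperSemicontinuousOn w D) :
    UpperSemicontinuousOn (om D w T) D := by
  intro x hx t ht
  have h0 : 0 ≤ om D w T x := om_nonneg hw x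
  have ht0 : 0 < t := lt_of_le_of_lt h0 ht
  rw [om_mem hx] at ht
  have h1 : w x < t ^ T := by
    have h2 := Real.rpow_lt_rpow (Real.rpow_nonneg (hw x hx).1 _) ht hT
    rwa [← Real.rpow_mul (hw x hx).1, one_div_mul_cancel hT.ne', Real.rpow_one] at h2
  filter_upwards [hu x hx _ h1, self_mem_nhdsWithin] with y hy hyD
  rw [om_mem hyD]
  have h3 := Real.rpow_lt_rpow (hw y hyD).1 hy (one_div_pos.2 hT)
  rwa [← Real.rpow_mul ht0.le, mul_one_div_cancel hT.ne', Real.rpow_one] at h3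

lemma om_meas (hD : IsOpen D) (hT : 0 < T) (hw : ∀ x ∈ D, 0 ≤ w x ∧ w x ≤ 1) (hu : UpperSemicontinuousOn w D) :
    Measurable (om D w T) := by
  refine measurable_of_Iio fun t => ?_
  by_cases ht : t ≤ 0
  · have : om D w T ⁻¹' Set.Iio t = ∅ := by
      ext x
      simp only [Set.mem_preimage, Set.mem_Iio, Set.mem_empty_iff_false, iff_false, not_lt]
      exact ht.trans (om_nonneg hw x)
    rw [this]
    exact MeasurableSet.empty
  · rw [not_le] at ht
    have h1 : om D w T ⁻¹' Set.Iio t = Dᶜ ∪ {x | x ∈ D ∧ om D w T x < t} := by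
      ext x
      simp only [Set.mem_preimage, Set.mem_Iio, Set.mem_union, Set.mem_compl_iff, Set.mem_ofPred_eq]
      by_cases hx : x ∈ D
      · simp [hx]
      · simp only [hx, not_false_eq_true, false_and, or_false, iff_true]
        unfold om
        rw [if_neg hx]
        exact ht
    rw [h1]
    refine hD.measurableSet.compl.union (IsOpen.measurableSet ?_)
    rw [isOpen_iff_mem_nhds]
    rintro x ⟨hx, hxt⟩
    have h2 := om_usc hT hw hu x hx t hxt
    rw [hD.nhdsWithin_eq hx] at h2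
    filter_upwards [h2, hD.mem_nhds hx] with y hy hyD
    exact ⟨hyD, hy⟩

lemma om_NC (hT : 0 < T) (hw : ∀ x ∈ D, 0 ≤ w x ∧ w x ≤ 1) (h : NC D w) : NC D (om D w T) := by
  intro x₀ G ε r hx₀ hpos hG hε hr hb hcon
  have hw0 := hw x₀ hx₀
  have hback : ∀ x ∈ D, om D w T x ^ T = w x := by
    intro x hx
    rw [om_mem hx, ← Real.rpow_mul (hw x hx).1, one_div_mul_cancel hT.ne', Real.rpow_one]
  have hpos' : 0 < w x₀ := by
    rw [← hback x₀ hx₀]
    exact Real.rpow_pos_of_pos hpos _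
  refine h x₀ (fun x => T * G x) (T * ε) r hx₀ hpos' (by fun_prop) (by positivity) hr hb fun x hx => ?_
  have h1 := Real.rpow_le_rpow (om_nonneg hw x) (hcon x hx) hT.le
  rw [hback x (hb hx), Real.mul_rpow hpos.le (Real.exp_pos _).le, hback x₀ hx₀, ← Real.exp_mul] at h1
  refine h1.trans (le_of_eq ?_)
  congr 2
  rw [← mul_sub, Complex.re_ofReal_mul]
  ring

end om

/-- the limit part of the one step lemma -/
theorem core (hB2 : B2.{0}) (hC4 : C4) (hC5 : C5) {K CP : ℝ} (hK : 8 ≤ K)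
    (hP : ∀ (M : ℕ) (w : ℂ → ℝ) (s t : Fin M × Fin M → ℝ),
      CP ≤ M → Measurable w → (∀ x, 0 ≤ w x ∧ w x ≤ 1) →
      (∀ (x : ℂ) (r : ℝ), x ∈ ball (0 : ℂ) 3 → 0 < r → r ≤ 1 →
        w x * (Real.pi * r ^ 2) ≤ ∫ y in ball x r, w y) →
      (∀ a, ∃ x ∈ closedBall (cen M a) (K / M), s a ≤ w x) →
      (∀ a, ∀ x ∈ ball (cen M a) (1 / M), w x ≤ t a) →
      ∑ a, (s a - t a) ≤ CP * M)
    {M : ℕ} (hM : CP ≤ M) (hM2 : 2 ≤ M) {𝒰 : Ultrafilter ℕ} {N : ℕ → ℝ} {ψ : ℕ → ℂ → ℝ} {W : Set ℂ → ℝ}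
    {w : ℂ → ℝ} (hL : LimProp 𝒰 N ψ (ball (0 : ℂ) K) W) (hw : Env (ball (0 : ℂ) K) W w)
    (hNC : NC (ball (0 : ℂ) K) w) (hW1 : Real.exp (-1) ≤ W (closedBall 0 1)) :
    (∀ a, 0 < W (closedBall (cen M a) (1 / M))) ∧
    (∀ a, 0 < W (closedBall (cen M a) (K / M))) ∧
    ∑ a, (Real.log (W (closedBall (cen M a) (K / M))) - Real.log (W (closedBall (cen M a) (1 / M)))) ≤
      (4 * Real.log (2 * K * M) + 1) * Real.exp 1 * (CP * M) := by
  classical
  set D : Set ℂ := ball (0 : ℂ) K with hD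
  have hDo : IsOpen D := isOpen_ball
  obtain ⟨hw01, husc, hopen, -, hcomp⟩ := (hB2 ℂ 𝒰 N ψ D W hDo hL).2 w hw
  have hMr : (2 : ℝ) ≤ M := by exact_mod_cast hM2
  have hM0 : (0 : ℝ) < M := by linarith
  have hK0 : 0 < K := by linarith
  -- sizes
  have hKM1 : 1 < K * M := by nlinarith
  have hlKM : 0 < Real.log (K * M) := Real.log_pos hKM1
  have hl2 : Real.log (K * M) ≤ Real.log (2 * K * M) := by
    refine Real.log_le_log (by linarith) ?_
    nlinarith
  set T : ℝ := 4 * Real.log (2 * K * M) + 1 with hT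
  have hT0 : 0 < T := by rw [hT]; linarith
  have hT1 : 1 < T := by rw [hT]; linarith
  have hsub : ∀ (a : Fin M × Fin M) (r : ℝ), r ≤ K / 2 → closedBall (cen M a) r ⊆ D := by
    intro a r hr
    rw [hD]
    intro x hx
    rw [mem_closedBall, dist_eq_norm] at hx
    rw [mem_ball, dist_zero_right]
    calc ‖x‖ = ‖(x - cen M a) + cen M a‖ := by rw [sub_add_cancel]
      _ ≤ ‖x - cen M a‖ + ‖cen M a‖ := norm_add_le _ _
      _ < K := by linarith [cen_norm_le a]
  have hKMle : K / M ≤ K / 2 := div_le_div_of_nonneg_left hK0.le (by norm_num) hMr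
  have h1Mle : (1 : ℝ) / M ≤ K / 2 := by
    calc (1 : ℝ) / M ≤ K / M := div_le_div_of_nonneg_right (by linarith) hM0.le
      _ ≤ _ := hKMle
  have h1sub : closedBall (0 : ℂ) 1 ⊆ D := closedBall_subset_ball (by linarith)
  -- the point where `w` is large
  obtain ⟨x₁, hx₁, hwx₁⟩ := hcomp _ h1sub (isCompact_closedBall _ _) ((Real.exp_pos _).trans_le hW1)
  have hwx₁' : Real.exp (-1) ≤ w x₁ := hW1.trans hwx₁
  rw [mem_closedBall, dist_zero_right] at hx₁
  -- the claim
  have hclaim : ∀ a : Fin M × Fin M, ∃ y ∈ closedBall (cen M a) (1 / (2 * M)), Real.exp (-T) < w y := by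
    intro a
    by_contra hcon
    push Not at hcon
    set p := cen M a with hp
    have hp2 : ‖p‖ ≤ 2 := cen_norm_le a
    have hd : ‖x₁ - p‖ ≤ 3 := (norm_sub_le _ _).trans (by linarith)
    have hr0 : (0 : ℝ) < 1 / (2 * M) := by positivity
    have hrR : (1 : ℝ) / (2 * M) < K / 2 := by
      have : (1 : ℝ) / (2 * M) ≤ 1 / M := by
        apply one_div_le_one_div_of_le hM0
        linarith
      have h3 : (1 : ℝ) / M ≤ 1 / 2 := one_div_le_one_div_of_le (by norm_num) hMr
      linarith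
    have h4 := hC4 D w p (1 / (2 * M)) (K / 2) T hDo (fun x hx => (hw01 x hx).1) husc hNC hr0 hrR
      (hsub a _ le_rfl) hT0.le (fun x hx => (hw01 x (hsub a _ le_rfl hx)).2) hcon
    have hx₁in : x₁ ∈ closedBall p (K / 2) := by
      rw [mem_closedBall, dist_eq_norm]; linarith
    rcases lt_or_ge ‖x₁ - p‖ (1 / (2 * M)) with hlt | hge
    · have h5 := hcon x₁ (by rw [mem_closedBall, dist_eq_norm]; exact hlt.le)
      have h6 : Real.exp (-T) < Real.exp (-1) := Real.exp_lt_exp.2 (by linarith)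
      linarith
    · have h5 := h4 x₁ hx₁in hge
      have h6 : K / 2 / (1 / (2 * M)) = K * M := by field_simp
      rw [h6] at h5
      set α : ℝ := T / Real.log (K * M) with hα
      have hα4 : 4 < α := by
        rw [hα, lt_div_iff₀ hlKM, hT]
        linarith
      have h7 : ‖x₁ - p‖ / (K / 2) ≤ Real.exp (-(1 / 4)) := by
        have h8 : ‖x₁ - p‖ / (K / 2) ≤ 3 / 4 := by
          rw [div_le_iff₀ (by positivity)]
          linarith
        have h9 := Real.add_one_le_exp (-(1 / 4 : ℝ))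
        linarith
      have h8 : (‖x₁ - p‖ / (K / 2)) ^ α ≤ Real.exp (-(1 / 4)) ^ α :=
        Real.rpow_le_rpow (by positivity) h7 (by linarith)
      rw [← Real.exp_mul] at h8
      have h9 : Real.exp (-(1 / 4) * α) < Real.exp (-1) := Real.exp_lt_exp.2 (by linarith)
      linarith
  -- lower bounds for `W`
  have hsmall : ∀ a : Fin M × Fin M, Real.exp (-T) < W (closedBall (cen M a) (1 / M)) := by
    intro a
    obtain ⟨y, hy, hwy⟩ := hclaim a
    refine hwy.trans_le ?_
    have hb : ball y (1 / (2 * M)) ⊆ closedBall (cen M a) (1 / M) := by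
      refine (ball_subset_ball' (ε₂ := 1 / M) ?_).trans ball_subset_closedBall
      rw [mem_closedBall] at hy
      have : (1 : ℝ) / (2 * M) + 1 / (2 * M) = 1 / M := by field_simp; norm_num
      linarith
    have hyD : y ∈ D := hsub a _ h1Mle (hb (mem_ball_self (by positivity)))
    exact (hw.le y hyD _ (by positivity) (hb.trans (hsub a _ h1Mle))).trans (hL.mono _ _ hb (hsub a _ h1Mle))
  have hmono : ∀ a : Fin M × Fin M, W (closedBall (cen M a) (1 / M)) ≤ W (closedBall (cen M a) (K / M)) := fun a =>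
    hL.mono _ _ (closedBall_subset_closedBall (div_le_div_of_nonneg_right (by linarith) hM0.le)) (hsub a _ hKMle)
  have hpos1 : ∀ a : Fin M × Fin M, 0 < W (closedBall (cen M a) (1 / M)) := fun a => (Real.exp_pos _).trans (hsmall a)
  have hposK : ∀ a : Fin M × Fin M, 0 < W (closedBall (cen M a) (K / M)) := fun a => (hpos1 a).trans_le (hmono a)
  refine ⟨hpos1, hposK, ?_⟩
  -- the root
  have hT' : 0 < 1 / T := one_div_pos.2 hT0
  have hmean := hC5 D (om D w T) hDo (fun x _ => ⟨om_nonneg hw01 x, om_le hT0 hw01 x⟩) (om_usc hT0 hw01 husc)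
    (om_NC hT0 hw01 hNC)
  have hsum := hP M (om D w T) (fun a => W (closedBall (cen M a) (K / M)) ^ (1 / T))
    (fun a => W (closedBall (cen M a) (1 / M)) ^ (1 / T)) hM (om_meas hDo hT0 hw01 husc)
    (fun x => ⟨om_nonneg hw01 x, om_le hT0 hw01 x⟩) (fun x r hx hr hr1 => hmean x r hr (by
      rw [hD]
      intro y hy
      rw [mem_closedBall, dist_eq_norm] at hy
      rw [mem_ball, dist_zero_right] at hx ⊢
      calc ‖y‖ = ‖(y - x) + x‖ := by rw [sub_add_cancel]
        _ ≤ ‖y - x‖ + ‖x‖ := norm_add_le _ _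
        _ < K := by linarith))
    (fun a => by
      obtain ⟨y, hy, hwy⟩ := hcomp _ (hsub a _ hKMle) (isCompact_closedBall _ _) (hposK a)
      refine ⟨y, hy, ?_⟩
      rw [om_mem (hsub a _ hKMle hy)]
      exact Real.rpow_le_rpow (hposK a).le hwy hT'.le)
    (fun a x hx => by
      have hxD : x ∈ D := hsub a _ h1Mle (ball_subset_closedBall hx)
      rw [om_mem hxD]
      refine Real.rpow_le_rpow (hw01 x hxD).1 ?_ hT'.le
      exact (hopen _ (ball_subset_closedBall.trans (hsub a _ h1Mle)) isOpen_ball x hx).trans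
        (hL.mono _ _ ball_subset_closedBall (hsub a _ h1Mle)))
  -- the logarithms
  have hterm : ∀ a : Fin M × Fin M, Real.log (W (closedBall (cen M a) (K / M))) -
      Real.log (W (closedBall (cen M a) (1 / M))) ≤ T * Real.exp 1 *
        (W (closedBall (cen M a) (K / M)) ^ (1 / T) - W (closedBall (cen M a) (1 / M)) ^ (1 / T)) := by
    intro a
    set A := W (closedBall (cen M a) (K / M)) with hA
    set B := W (closedBall (cen M a) (1 / M)) with hB
    have hA0 : 0 < A := hposK a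
    have hB0 : 0 < B := hpos1 a
    set s := A ^ (1 / T) with hs
    set t := B ^ (1 / T) with ht
    have hs0 : 0 < s := Real.rpow_pos_of_pos hA0 _
    have ht0 : 0 < t := Real.rpow_pos_of_pos hB0 _
    have hst : t ≤ s := Real.rpow_le_rpow hB0.le (hmono a) hT'.le
    have ht1 : Real.exp (-1) ≤ t := by
      have h1 := Real.rpow_le_rpow (Real.exp_pos _).le (hsmall a).le hT'.le
      rw [← Real.exp_mul] at h1
      have h2 : -T * (1 / T) = -1 := by field_simp
      rwa [h2] at h1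
    have hlA : Real.log A = T * Real.log s := by
      rw [hs, Real.log_rpow hA0]; field_simp
    have hlB : Real.log B = T * Real.log t := by
      rw [ht, Real.log_rpow hB0]; field_simp
    rw [hlA, hlB, ← mul_sub, mul_assoc]
    refine mul_le_mul_of_nonneg_left ?_ hT0.le
    have h3 : Real.log s - Real.log t = Real.log (s / t) := (Real.log_div hs0.ne' ht0.ne').symm
    have h4 : Real.log (s / t) ≤ s / t - 1 := Real.log_le_sub_one_of_pos (by positivity)
    have h5 : s / t - 1 = (s - t) * (1 / t) := by field_simp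
    have h6 : 1 / t ≤ Real.exp 1 := by
      rw [div_le_iff₀ ht0]
      calc (1 : ℝ) = Real.exp 1 * Real.exp (-1) := by rw [← Real.exp_add]; norm_num
        _ ≤ _ := mul_le_mul_of_nonneg_left ht1 (Real.exp_pos _).le
    rw [h3]
    calc Real.log (s / t) ≤ (s - t) * (1 / t) := by rw [← h5]; exact h4
      _ ≤ (s - t) * Real.exp 1 := mul_le_mul_of_nonneg_left h6 (by linarith)
      _ = _ := mul_comm _ _
  calc _ ≤ ∑ a : Fin M × Fin M, T * Real.exp 1 *
        (W (closedBall (cen M a) (K / M)) ^ (1 / T) - W (closedBall (cen M a) (1 / M)) ^ (1 / T)) :=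
        Finset.sum_le_sum fun a _ => hterm a
    _ = T * Real.exp 1 * ∑ a : Fin M × Fin M,
        (W (closedBall (cen M a) (K / M)) ^ (1 / T) - W (closedBall (cen M a) (1 / M)) ^ (1 / T)) :=
        (Finset.mul_sum _ _ _).symm
    _ ≤ T * Real.exp 1 * (CP * M) := mul_le_mul_of_nonneg_left hsum (by positivity)

end Pool.Agent.Q73.AD
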