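import Pool.Agent.Q73.AD.StmY
import Pool.Agent.Q73.AD.TO1a

/-!
# YL: the limit form of the one-step lemmas (helper280)
-/

set_option autoImplicit false
open MeasureTheory Filter Topology Complex Metric
open scoped ContDiff ComplexConjugate

namespace Pool.Agent.Q73.AD

open Pool.Agent.Q73.NL

namespace YLaux

lemma st_st {σ : ℝ} (h : 0 < σ) (z : ℂ) : st σ (st σ⁻¹ z) = z := by
  apply Complex.ext
  · rfl
  · show σ * (σ⁻¹ * z.im) = z.im
    field_simp

lemma st_st' {σ : ℝ} (h : 0 < σ) (z : ℂ) : st σ⁻¹ (st σ z) = z := by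
  apply Complex.ext
  · rfl
  · show σ⁻¹ * (σ * z.im) = z.im
    field_simp

lemma st_sub (σ : ℝ) (z y : ℂ) : st σ (z - y) = st σ z - st σ y := by
  apply Complex.ext
  · rfl
  · show σ * (z.im - y.im) = σ * z.im - σ * y.im
    ring

lemma norm_le_st {σ : ℝ} (h : 1 ≤ σ) (z : ℂ) : ‖z‖ ≤ ‖st σ z‖ := by
  rw [Complex.norm_def, Complex.norm_def]
  apply Real.sqrt_le_sqrt
  rw [Complex.normSq_apply, Complex.normSq_apply]
  show z.re * z.re + z.im * z.im ≤ z.re * z.re + σ * z.im * (σ * z.im)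
  have h1 : 1 ≤ σ ^ 2 := by nlinarith
  nlinarith [sq_nonneg z.im, mul_nonneg (sub_nonneg.2 h1) (sq_nonneg z.im)]

lemma norm_st_le {σ : ℝ} (_h1 : 1 ≤ σ) (h : σ ^ 2 ≤ 2) (z : ℂ) : ‖st σ z‖ ≤ 29 / 20 * ‖z‖ := by
  have h2 : ‖st σ z‖ ^ 2 ≤ (29 / 20 * ‖z‖) ^ 2 := by
    rw [mul_pow, Complex.sq_norm, Complex.sq_norm, Complex.normSq_apply, Complex.normSq_apply]
    show z.re * z.re + σ * z.im * (σ * z.im) ≤ (29 / 20) ^ 2 * (z.re * z.re + z.im * z.im)
    nlinarith [sq_nonneg z.im, sq_nonneg z.re, mul_nonneg (sub_nonneg.2 h) (sq_nonneg z.im)]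
  exact le_of_sq_le_sq h2 (by positivity)
where
  le_of_sq_le_sq {a b : ℝ} (h : a ^ 2 ≤ b ^ 2) (hb : 0 ≤ b) : a ≤ b := abs_le_of_sq_le_sq' h hb |>.2

lemma norm_st_inv_le {σ : ℝ} (h : 1 ≤ σ) (z : ℂ) : ‖st σ⁻¹ z‖ ≤ ‖z‖ := by
  have h1 := norm_le_st h (st σ⁻¹ z)
  rwa [st_st (by linarith)] at h1

lemma le_norm_st_inv {σ : ℝ} (h1 : 1 ≤ σ) (h : σ ^ 2 ≤ 2) (z : ℂ) : ‖z‖ ≤ 29 / 20 * ‖st σ⁻¹ z‖ := by
  have h1 := norm_st_le h1 h (st σ⁻¹ z)
  rwa [st_st (by linarith)] at h1

lemma st_cont (σ : ℝ) : Continuous (st σ) := by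
  have h : (st σ) = fun z => ((z.re : ℝ) : ℂ) + ((σ * z.im : ℝ) : ℂ) * I := by
    funext z
    apply Complex.ext <;> simp [st]
  rw [h]
  fun_prop

lemma st_inner {σ : ℝ} (h : 0 < σ) (ζ z : ℂ) :
    (conj (st σ⁻¹ ζ) * st σ z).re = (conj ζ * z).re := by
  simp only [Complex.mul_re, Complex.conj_re, Complex.conj_im, st]
  field_simp

lemma exp_third : (5 : ℝ) / 7 ≤ Real.exp (-(1 / 3)) := by
  rw [Real.exp_neg]
  have h1 : Real.exp (1 / 3) ≤ 7 / 5 := by
    have h2 : Real.exp (1 / 3) ^ 3 ≤ (7 / 5 : ℝ) ^ 3 := by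
      rw [← Real.exp_nat_mul]
      have := Real.exp_one_lt_d9
      norm_num at *
      linarith
    exact le_of_pow_le_pow_left₀ (by norm_num) (by norm_num) h2
  rw [show (5 : ℝ) / 7 = (7 / 5)⁻¹ by norm_num]
  exact inv_anti₀ (Real.exp_pos _) h1

/-- a point where `w` is not small, by the three circle inequality -/
lemma three (h4 : C4) {D : Set ℂ} {w : ℂ → ℝ} (hD : IsOpen D) (hw : ∀ x ∈ D, 0 ≤ w x ∧ w x ≤ 1)
    (hu : UpperSemicontinuousOn w D) (hN : NC D w) {z z₁ : ℂ} {r : ℝ} (hr : 0 < r) (hr1 : r ≤ 1)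
    (hb : closedBall z 14 ⊆ D) (hz : ‖z₁ - z‖ ≤ 10) (h1 : Real.exp (-1) ≤ w z₁) :
    ∃ y ∈ closedBall z r, Real.exp (-(3 * Real.log (14 / r) + 1)) < w y := by
  by_contra hcon
  push Not at hcon
  have h14 : (14 : ℝ) ≤ 14 / r := by
    rw [le_div_iff₀ hr]
    nlinarith
  have hL : 0 < Real.log (14 / r) := Real.log_pos (by linarith)
  set k : ℝ := 3 * Real.log (14 / r) + 1 with hk
  have hk1 : 1 < k := by linarith
  rcases lt_or_ge ‖z₁ - z‖ r with hlt | hge
  · have h5 := hcon z₁ (by rw [mem_closedBall, dist_eq_norm]; exact hlt.le)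
    have h6 : Real.exp (-k) < Real.exp (-1) := Real.exp_lt_exp.2 (by linarith)
    linarith
  · have h5 := h4 D w z r 14 k hD (fun x hx => (hw x hx).1) hu hN hr (by linarith) hb (by linarith)
      (fun x hx => (hw x (hb hx)).2) hcon z₁ (by rw [mem_closedBall, dist_eq_norm]; linarith) hge
    have h6 : ‖z₁ - z‖ / 14 ≤ Real.exp (-(1 / 3)) := by
      refine le_trans ?_ exp_third
      rw [div_le_iff₀ (by norm_num)]
      linarith
    have h7 : (‖z₁ - z‖ / 14) ^ (k / Real.log (14 / r)) ≤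
        Real.exp (-(1 / 3)) ^ (k / Real.log (14 / r)) :=
      Real.rpow_le_rpow (by positivity) h6 (by positivity)
    rw [← Real.exp_mul] at h7
    have h8 : 3 < k / Real.log (14 / r) := by
      rw [lt_div_iff₀ hL]
      linarith
    have h9 : Real.exp (-(1 / 3) * (k / Real.log (14 / r))) < Real.exp (-1) :=
      Real.exp_lt_exp.2 (by linarith)
    linarith

lemma log42 : Real.log 42 ≤ 4 := by
  rw [Real.log_le_iff_le_exp (by norm_num)]
  have h1 : Real.exp 4 = Real.exp 1 ^ 4 := by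
    rw [← Real.exp_nat_mul]
    norm_num
  rw [h1]
  have h2 := Real.exp_one_gt_d9
  have h3 : (2.7 : ℝ) ^ 4 ≤ Real.exp 1 ^ 4 := pow_le_pow_left₀ (by norm_num) (by linarith) 4
  norm_num at h3
  linarith

/-- elementary inequality for the logarithm -/
lemma log_lower {t : ℝ} (h1 : -(1 / 2) ≤ t) (_h2 : t ≤ 0) : t - 2 * t ^ 2 ≤ Real.log (1 + t) := by
  have h0 : 0 < 1 + t := by linarith
  have h3 := Real.one_sub_inv_le_log_of_pos h0
  refine le_trans ?_ h3
  have h4 : 1 - (1 + t)⁻¹ = t / (1 + t) := by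
    field_simp
    ring
  rw [h4, le_div_iff₀ h0]
  nlinarith [mul_nonneg (sq_nonneg t) (by linarith : 0 ≤ 1 + 2 * t)]

lemma pow_lower {V T DM k : ℝ} (hk : 0 ≤ k) (hDM : 0 < DM) (hT : T = 2 * DM ^ 2 * (k + 1) + 2 * DM)
    (h1 : -DM ≤ V) (h2 : V ≤ 0) : Real.exp (V - 1 / (k + 1)) ≤ (1 + V / T) ^ T := by
  have hk1 : 0 < k + 1 := by linarith
  have hT0 : 0 < T := by rw [hT]; positivity
  have ht0 : V / T ≤ 0 := div_nonpos_of_nonpos_of_nonneg h2 hT0.le
  have hth : -(1 / 2) ≤ V / T := by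
    rw [le_div_iff₀ hT0]
    have h3 : 0 ≤ 2 * DM ^ 2 * (k + 1) := by positivity
    rw [hT]
    linarith
  rw [Real.rpow_def_of_pos (by linarith)]
  apply Real.exp_le_exp.2
  have h3 := log_lower hth ht0
  have h4 : (V / T - 2 * (V / T) ^ 2) * T = V - 2 * V ^ 2 / T := by
    field_simp
  have h5 : 2 * V ^ 2 / T ≤ 1 / (k + 1) := by
    rw [div_le_div_iff₀ hT0 hk1]
    have h6 : V ^ 2 ≤ DM ^ 2 := by nlinarith
    rw [hT]
    nlinarith [mul_le_mul_of_nonneg_right h6 hk1.le]
  calc V - 1 / (k + 1) ≤ V - 2 * V ^ 2 / T := by linarith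
    _ = (V / T - 2 * (V / T) ^ 2) * T := h4.symm
    _ ≤ _ := mul_le_mul_of_nonneg_right h3 hT0.le

lemma fin_step {ux vx a n vy b uy δ : ℝ} (h2 : ux ≤ Real.exp vx) (h1 : vx - a ≤ n + (vy - b))
    (huy : Real.exp (vy - δ) ≤ uy) :
    ux * Real.exp (-a) ≤ Real.exp (n + δ) * (uy * Real.exp (-b)) := by
  calc ux * Real.exp (-a) ≤ Real.exp vx * Real.exp (-a) :=
        mul_le_mul_of_nonneg_right h2 (Real.exp_pos _).le
    _ = Real.exp (vx - a) := by rw [← Real.exp_add]; rfl
    _ ≤ Real.exp (n + (vy - b)) := Real.exp_le_exp.2 h1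
    _ = Real.exp (n + δ) * (Real.exp (vy - δ) * Real.exp (-b)) := by
      rw [← Real.exp_add, ← Real.exp_add]
      congr 1
      ring
    _ ≤ _ := mul_le_mul_of_nonneg_left (mul_le_mul_of_nonneg_right huy (Real.exp_pos _).le)
      (Real.exp_pos _).le

lemma vol_ball (x : ℂ) {r : ℝ} (hr : 0 < r) : volume.real (ball x r) = Real.pi * r ^ 2 := by
  rw [Measure.real, Complex.volume_ball, ENNReal.toReal_mul, ENNReal.toReal_pow,
    ENNReal.toReal_ofReal hr.le, mul_comm]
  rfl

lemma int_om {D : Set ℂ} [DecidablePred (· ∈ D)] {w : ℂ → ℝ} {T : ℝ} (hD : IsOpen D) (hT : 0 < T)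
    (hw : ∀ x ∈ D, 0 ≤ w x ∧ w x ≤ 1) (hu : UpperSemicontinuousOn w D) (x : ℂ) (r : ℝ) :
    IntegrableOn (om D w T) (ball x r) := by
  refine Measure.integrableOn_of_bounded (M := 1) measure_ball_lt_top.ne
    (om_meas hD hT hw hu).aestronglyMeasurable ?_
  filter_upwards with y
  rw [Real.norm_eq_abs, abs_of_nonneg (om_nonneg hw y)]
  exact om_le hT hw y

lemma int_v {D : Set ℂ} [DecidablePred (· ∈ D)] {w : ℂ → ℝ} {T : ℝ} (hD : IsOpen D) (hT : 0 < T)
    (hw : ∀ x ∈ D, 0 ≤ w x ∧ w x ≤ 1) (hu : UpperSemicontinuousOn w D) (x : ℂ) {r : ℝ} (hr : 0 < r) :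
    ∫ y in ball x r, T * (om D w T y - 1) = T * ((∫ y in ball x r, om D w T y) - Real.pi * r ^ 2) := by
  rw [integral_const_mul, integral_sub (int_om hD hT hw hu x r)
    (integrableOn_const (hs := measure_ball_lt_top.ne)), setIntegral_const, vol_ball x hr, smul_eq_mul, mul_one]

end YLaux

open YLaux

/-- **YL**: the limit form of the one-step lemmas -/
theorem tyl (hP : PTR) (h4 : C4) (h5 : C5) : YL := by
  classical
  obtain ⟨CP, hCP, hP⟩ := hP 33 (by norm_num)
  set A : ℝ := 144 * Real.pi with hA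
  have hpi := Real.pi_gt_three
  have hA1 : 1 ≤ A := by rw [hA]; linarith
  have hCPA : CP ≤ CP * A := by nlinarith
  refine ⟨40 + CP * A, by nlinarith, fun M σ w x₁ hM hσ1 hσ2 hw husc hNC hx₁ hwx₁ => ?_⟩
  have hσ0 : 0 < σ := by linarith
  have hCPA0 : 0 < CP * A := by positivity
  have hMr : (40 : ℝ) ≤ M := by linarith
  have hM0 : (0 : ℝ) < M := by linarith
  have hlM : 0 ≤ Real.log M := Real.log_nonneg (by linarith)
  -- the stretched function
  obtain ⟨u, hu⟩ : ∃ u : ℂ → ℝ, ∀ z, u z = w (st σ z) := ⟨_, fun _ => rfl⟩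
  have hNC : NC {z | st σ z ∈ ball (0 : ℂ) 32} u := by
    rw [show u = fun z => w (st σ z) from funext hu]
    exact hNC
  obtain ⟨D, hDdef⟩ : ∃ D : Set ℂ, D = {z | st σ z ∈ ball (0 : ℂ) 32} := ⟨_, rfl⟩
  rw [← hDdef] at hNC
  have hD' : ∀ z, z ∈ D ↔ st σ z ∈ ball (0 : ℂ) 32 := fun z => by rw [hDdef]; rfl
  have hDo : IsOpen D := by rw [hDdef]; exact isOpen_ball.preimage (st_cont σ)
  have hmemD : ∀ z : ℂ, ‖z‖ ≤ 22 → z ∈ D := fun z hz => by
    rw [hD', mem_ball, dist_zero_right]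
    have := norm_st_le hσ1 hσ2 z
    linarith
  have hu01 : ∀ x ∈ D, 0 ≤ u x ∧ u x ≤ 1 := fun x hx => by
    rw [hu]
    exact hw _ ((hD' x).1 hx)
  have husc' : UpperSemicontinuousOn u D := by
    intro x hx t ht
    rw [hu] at ht
    have h1 := husc (st σ x) ((hD' x).1 hx) t ht
    have h2 : Tendsto (st σ) (𝓝[D] x) (𝓝[ball (0 : ℂ) 32] (st σ x)) :=
      ((st_cont σ).continuousWithinAt).tendsto_nhdsWithin fun y hy => (hD' y).1 hy
    filter_upwards [h2.eventually h1] with y hy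
    rw [hu]
    exact hy
  obtain ⟨z₁, hz₁⟩ : ∃ z₁ : ℂ, z₁ = st σ⁻¹ x₁ := ⟨_, rfl⟩
  have hz₁n : ‖z₁‖ ≤ 2 := by rw [hz₁]; exact (norm_st_inv_le hσ1 x₁).trans hx₁
  have huz₁ : Real.exp (-1) ≤ u z₁ := by
    rw [hu, hz₁, st_st hσ0]
    exact hwx₁
  -- points where `u` is not small
  have key : ∀ z : ℂ, ‖z‖ ≤ 8 → ∀ r : ℝ, 0 < r → r ≤ 1 → ∃ y ∈ closedBall z r,
      Real.exp (-(3 * Real.log (14 / r) + 1)) < u y := by
    intro z hz r hr hr1
    refine three h4 hDo hu01 husc' hNC hr hr1 (fun y hy => hmemD y ?_) ?_ huz₁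
    · rw [mem_closedBall, dist_eq_norm] at hy
      calc ‖y‖ = ‖(y - z) + z‖ := by rw [sub_add_cancel]
        _ ≤ ‖y - z‖ + ‖z‖ := norm_add_le _ _
        _ ≤ 22 := by linarith
    · calc ‖z₁ - z‖ ≤ ‖z₁‖ + ‖z‖ := norm_sub_le _ _
        _ ≤ 10 := by linarith
  have hl42 := log42
  refine ⟨fun z hz => ?_, fun z hz => ?_, fun S p hp hsep => ?_⟩
  · -- (i)
    obtain ⟨y, hy, hwy⟩ := key (st σ⁻¹ z) ((norm_st_inv_le hσ1 z).trans hz) (1 / 3) (by norm_num)
      (by norm_num)
    rw [mem_closedBall, dist_eq_norm] at hy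
    rw [hu] at hwy
    refine ⟨st σ y, ?_, le_trans ?_ hwy.le⟩
    · rw [mem_ball, dist_eq_norm]
      have h1 : st σ y - z = st σ (y - st σ⁻¹ z) := by rw [st_sub, st_st hσ0]
      rw [h1]
      have := norm_st_le hσ1 hσ2 (y - st σ⁻¹ z)
      linarith
    · apply Real.exp_le_exp.2
      rw [show (14 : ℝ) / (1 / 3) = 42 by norm_num]
      linarith
  · -- (ii)
    have hr0 : (0 : ℝ) < 1 / (3 * M) := by positivity
    have hr1 : (1 : ℝ) / (3 * M) ≤ 1 := by
      rw [div_le_one (by positivity)]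
      linarith
    obtain ⟨y, hy, hwy⟩ := key (st σ⁻¹ z) ((norm_st_inv_le hσ1 z).trans (by linarith)) (1 / (3 * M)) hr0 hr1
    rw [mem_closedBall, dist_eq_norm] at hy
    rw [hu] at hwy
    refine ⟨st σ y, ?_, le_trans ?_ hwy.le⟩
    · rw [mem_ball, dist_eq_norm]
      have h1 : st σ y - z = st σ (y - st σ⁻¹ z) := by rw [st_sub, st_st hσ0]
      rw [h1]
      have h2 := norm_st_le hσ1 hσ2 (y - st σ⁻¹ z)
      have h3 : 29 / 20 * (1 / (3 * (M : ℝ))) < 1 / (2 * M) := by
        rw [div_mul_div_comm, div_lt_div_iff₀ (by positivity) (by positivity)]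
        nlinarith
      have h4 : 29 / 20 * ‖y - st σ⁻¹ z‖ ≤ 29 / 20 * (1 / (3 * (M : ℝ))) := by linarith
      linarith
    · apply Real.exp_le_exp.2
      have h1 : (14 : ℝ) / (1 / (3 * M)) = 42 * M := by field_simp; norm_num
      rw [h1, Real.log_mul (by norm_num) hM0.ne']
      nlinarith
  · -- (iii)
    obtain ⟨DM, hDM⟩ : ∃ DM : ℝ, DM = 13 * (1 + Real.log M) + CP * A * (1 + Real.log M) +
      2 * (CP * A * M ^ 2) := ⟨_, rfl⟩
    have hDM0 : 0 < DM := by rw [hDM]; positivity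
    obtain ⟨T, hT⟩ : ∃ T : ℝ, T = 2 * DM ^ 2 * (S.card + 1) + 2 * DM := ⟨_, rfl⟩
    have hT0 : 0 < T := by rw [hT]; positivity
    obtain ⟨v, hv⟩ : ∃ v : ℂ → ℝ, v = fun x => T * (om D u T x - 1) := ⟨_, rfl⟩
    have hom0 := fun x => om_nonneg (T := T) hu01 x
    have hom1 := fun x => om_le hT0 hu01 x
    have hmeas : Measurable v := by
      rw [hv]
      exact ((om_meas hDo hT0 hu01 husc').sub_const 1).const_mul T
    have hvb : ∀ z, -T ≤ v z ∧ v z ≤ 0 := fun z => by
      constructor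
      · have := mul_nonneg hT0.le (hom0 z)
        simp only [hv]
        linarith
      · have := mul_nonneg hT0.le (sub_nonneg.2 (hom1 z))
        simp only [hv]
        linarith
    have hmv : ∀ (x : ℂ) (r : ℝ), 0 < r → closedBall x r ⊆ D →
        v x * (Real.pi * r ^ 2) ≤ ∫ y in ball x r, v y := fun x r hr hx => by
      have h1 := h5 D (om D u T) hDo (fun x _ => ⟨hom0 x, hom1 x⟩) (om_usc hT0 hu01 husc')
        (om_NC hT0 hu01 hNC) x r hr hx
      simp only [hv]
      rw [int_v hDo hT0 hu01 husc' x hr]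
      nlinarith
    -- relation between `u` and `v`
    have hlow : ∀ x ∈ D, 0 < u x → Real.log (u x) ≤ v x := fun x hx h0 => by
      simp only [hv]
      rw [om_mem hx, Real.rpow_def_of_pos h0]
      have h1 := Real.add_one_le_exp (Real.log (u x) * (1 / T))
      have h2 : T * (Real.log (u x) * (1 / T)) = Real.log (u x) := by field_simp
      nlinarith [mul_le_mul_of_nonneg_left h1 hT0.le]
    have hback : ∀ x ∈ D, u x = (1 + v x / T) ^ T := fun x hx => by
      have h1 : 1 + v x / T = om D u T x := by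
        simp only [hv]
        field_simp
        ring
      rw [h1, om_mem hx, ← Real.rpow_mul (hu01 x hx).1, one_div_mul_cancel hT0.ne', Real.rpow_one]
    have hupp : ∀ x ∈ D, u x ≤ Real.exp (v x) := fun x hx => by
      rw [hback x hx]
      have h0 : 0 ≤ 1 + v x / T := by
        have h1 : 1 + v x / T = om D u T x := by
          simp only [hv]
          field_simp
          ring
        rw [h1]
        exact hom0 x
      have h1 := Real.add_one_le_exp (v x / T)
      calc (1 + v x / T) ^ T ≤ Real.exp (v x / T) ^ T := Real.rpow_le_rpow h0 (by linarith) hT0.le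
        _ = Real.exp (v x) := by
          rw [← Real.exp_mul]
          congr 1
          field_simp
    have hvz₁ : -1 ≤ v z₁ := by
      refine le_trans ?_ (hlow z₁ (hmemD _ (by linarith)) ((Real.exp_pos _).trans_le huz₁))
      rw [Real.le_log_iff_exp_le ((Real.exp_pos _).trans_le huz₁)]
      exact huz₁
    have hint : ∫ x in ball (0 : ℂ) 8, -v x ≤ A := by
      have h1 := hmv z₁ 12 (by norm_num) (fun y hy => hmemD y (by
        rw [mem_closedBall, dist_eq_norm] at hy
        calc ‖y‖ = ‖(y - z₁) + z₁‖ := by rw [sub_add_cancel]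
          _ ≤ ‖y - z₁‖ + ‖z₁‖ := norm_add_le _ _
          _ ≤ 22 := by linarith))
      have hvint : IntegrableOn v (ball z₁ 12) := by
        have := ((int_om hDo hT0 hu01 husc' z₁ 12).sub
          (integrableOn_const (C := (1 : ℝ)) (hs := measure_ball_lt_top.ne))).const_mul T
        rw [hv]
        exact this
      have hsub : ball (0 : ℂ) 8 ⊆ ball z₁ 12 := by
        intro y hy
        rw [mem_ball, dist_zero_right] at hy
        rw [mem_ball, dist_eq_norm]
        calc ‖y - z₁‖ ≤ ‖y‖ + ‖z₁‖ := norm_sub_le _ _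
          _ < 12 := by linarith
      calc ∫ x in ball (0 : ℂ) 8, -v x ≤ ∫ x in ball z₁ 12, -v x := by
            refine setIntegral_mono_set hvint.neg ?_ (Filter.Eventually.of_forall hsub)
            filter_upwards with x
            simp only [Pi.zero_apply]
            linarith [(hvb x).2]
        _ = -∫ x in ball z₁ 12, v x := integral_neg _
        _ ≤ A := by
          rw [hA]
          nlinarith
    -- the centres
    obtain ⟨p', hp'⟩ : ∃ p' : ℕ × ℕ → ℂ, ∀ a, p' a = st σ⁻¹ (p a) := ⟨_, fun _ => rfl⟩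
    have hp'n : ∀ a ∈ S, ‖p' a‖ ≤ 2 := fun a ha => by
      rw [hp']
      exact (norm_st_inv_le hσ1 _).trans (hp a ha)
    have hp'sep : ∀ a ∈ S, ∀ b ∈ S, a ≠ b → 1 / (M : ℝ) ≤ ‖p' a - p' b‖ := by
      intro a ha b hb hab
      have h1 := hsep a ha b hb hab
      have h2 := le_norm_st_inv hσ1 hσ2 (p a - p b)
      rw [st_sub] at h2
      have h3 : 2 / (M : ℝ) = 2 * (1 / M) := by ring
      rw [h3] at h1
      have h4 : 0 < 1 / (M : ℝ) := by positivity
      rw [hp', hp']
      linarith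
    obtain ⟨ζ', n, hn0, hnsum, hζsum, hmain⟩ := hP M A T v S p' (by linarith) hA1 hmeas hvb
      (fun x hx r hr hr1 => hmv x r hr (fun y hy => hmemD y (by
        rw [mem_closedBall, dist_eq_norm] at hy
        rw [mem_ball, dist_zero_right] at hx
        calc ‖y‖ = ‖(y - x) + x‖ := by rw [sub_add_cancel]
          _ ≤ ‖y - x‖ + ‖x‖ := norm_add_le _ _
          _ ≤ 22 := by linarith))) hint hp'n hp'sep
    have hδ0 : (0 : ℝ) < 1 / (S.card + 1) := by positivity
    refine ⟨fun a => st σ⁻¹ (ζ' a), fun a => n a + 1 / (S.card + 1), fun a ha => ?_, ?_, ?_,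
      fun a ha => ?_⟩
    · have := hn0 a ha
      show 0 ≤ n a + 1 / ((S.card : ℝ) + 1)
      linarith
    · rw [Finset.sum_add_distrib, Finset.sum_const, nsmul_eq_mul]
      have h1 : (S.card : ℝ) * (1 / (S.card + 1)) ≤ 1 := by
        rw [mul_one_div, div_le_one (by positivity)]
        linarith
      nlinarith
    · calc ∑ a ∈ S, ‖st σ⁻¹ (ζ' a)‖ ≤ ∑ a ∈ S, ‖ζ' a‖ :=
            Finset.sum_le_sum fun a _ => norm_st_inv_le hσ1 _
        _ ≤ CP * A * M ^ 2 := hζsum
        _ ≤ (40 + CP * A) * M ^ 2 := by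
          have : (0 : ℝ) ≤ M ^ 2 := by positivity
          nlinarith
    · obtain ⟨y', hy', hmain⟩ := hmain a ha
      rw [mem_ball, dist_eq_norm] at hy'
      have h1M : 1 / (M : ℝ) ≤ 1 / 40 := one_div_le_one_div_of_le (by norm_num) hMr
      have h33 : 33 / (M : ℝ) ≤ 1 := by
        rw [div_le_one hM0]
        linarith
      have hp'a := hp'n a ha
      have hy'n : ‖y'‖ ≤ 3 := by
        calc ‖y'‖ = ‖(y' - p' a) + p' a‖ := by rw [sub_add_cancel]
          _ ≤ ‖y' - p' a‖ + ‖p' a‖ := norm_add_le _ _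
          _ ≤ 3 := by linarith
      have hy'D : y' ∈ D := hmemD y' (by linarith)
      -- lower bound of `v y'`
      have hvy : -DM ≤ v y' := by
        have hr0 : (0 : ℝ) < 1 / (3 * M) := by positivity
        have hr1 : (1 : ℝ) / (3 * M) ≤ 1 / M := by
          apply one_div_le_one_div_of_le hM0
          linarith
        obtain ⟨x, hx, hwx⟩ := key (p' a) (by linarith) (1 / (3 * M)) hr0 (by linarith)
        have hx33 : x ∈ closedBall (p' a) (33 / M) := by
          refine closedBall_subset_closedBall ?_ hx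
          have : 33 / (M : ℝ) = 33 * (1 / M) := by ring
          rw [this]
          linarith
        rw [mem_closedBall, dist_eq_norm] at hx
        have hxD : x ∈ D := hmemD x (by
          calc ‖x‖ = ‖(x - p' a) + p' a‖ := by rw [sub_add_cancel]
            _ ≤ ‖x - p' a‖ + ‖p' a‖ := norm_add_le _ _
            _ ≤ 22 := by linarith)
        have h1 := hlow x hxD ((Real.exp_pos _).trans hwx)
        have h2 : -(3 * Real.log (14 / (1 / (3 * M))) + 1) ≤ Real.log (u x) := by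
          rw [Real.le_log_iff_exp_le ((Real.exp_pos _).trans hwx)]
          exact hwx.le
        have h3 : (14 : ℝ) / (1 / (3 * M)) = 42 * M := by field_simp; norm_num
        rw [h3, Real.log_mul (by norm_num) hM0.ne'] at h2
        have h4 := hmain x hx33
        have h5 : (conj (ζ' a) * x).re - (conj (ζ' a) * y').re ≤ ‖ζ' a‖ * 2 := by
          have h6 : (conj (ζ' a) * x).re - (conj (ζ' a) * y').re = (conj (ζ' a) * (x - y')).re := by
            rw [mul_sub, Complex.sub_re]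
          rw [h6]
          refine (Complex.re_le_norm _).trans ?_
          rw [norm_mul, Complex.norm_conj]
          refine mul_le_mul_of_nonneg_left ?_ (norm_nonneg _)
          calc ‖x - y'‖ = ‖(x - p' a) - (y' - p' a)‖ := by congr 1; ring
            _ ≤ ‖x - p' a‖ + ‖y' - p' a‖ := norm_sub_le _ _
            _ ≤ 2 := by linarith
        have h6 : ‖ζ' a‖ ≤ CP * A * M ^ 2 :=
          (Finset.single_le_sum (f := fun a => ‖ζ' a‖) (fun _ _ => norm_nonneg _) ha).trans hζsum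
        have h7 : n a ≤ CP * A * (1 + Real.log M) :=
          (Finset.single_le_sum (f := n) hn0 ha).trans hnsum
        rw [hDM]
        linarith
      -- the value `u y'`
      have huy : Real.exp (v y' - 1 / (S.card + 1)) ≤ u y' := by
        rw [hback y' hy'D]
        exact pow_lower (Nat.cast_nonneg _) hDM0 hT hvy (hvb y').2
      have hupos : 0 < u y' := (Real.exp_pos _).trans_le huy
      refine ⟨st σ y', ?_, by rw [← hu]; exact hupos, fun x hx => ?_⟩
      · rw [mem_ball, dist_eq_norm]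
        have h1 : st σ y' - p a = st σ (y' - p' a) := by rw [st_sub, hp', st_st hσ0]
        rw [h1]
        have h2 := norm_st_le hσ1 hσ2 (y' - p' a)
        have h3 : 19 / (10 * (M : ℝ)) = 19 / 10 * (1 / M) := by field_simp
        rw [h3]
        have : 0 < 1 / (M : ℝ) := by positivity
        linarith
      · obtain ⟨x', hx'⟩ : ∃ x' : ℂ, x' = st σ⁻¹ x := ⟨_, rfl⟩
        have hxx : st σ x' = x := by rw [hx']; exact st_st hσ0 x
        have hx'33 : x' ∈ closedBall (p' a) (33 / M) := by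
          rw [mem_closedBall, dist_eq_norm] at hx ⊢
          have h1 : x' - p' a = st σ⁻¹ (x - p a) := by rw [st_sub, hx', hp']
          rw [h1]
          exact (norm_st_inv_le hσ1 _).trans hx
        have hx'D : x' ∈ D := by
          rw [hD', hxx]
          rw [mem_closedBall, dist_eq_norm] at hx
          rw [mem_ball, dist_zero_right]
          calc ‖x‖ = ‖(x - p a) + p a‖ := by rw [sub_add_cancel]
            _ ≤ ‖x - p a‖ + ‖p a‖ := norm_add_le _ _
            _ < 32 := by linarith [hp a ha]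
        have h1 := hmain x' hx'33
        have h2 := hupp x' hx'D
        have h3 : w x = u x' := by
          rw [hu, hxx]
        have e1 : (conj (st σ⁻¹ (ζ' a)) * x).re = (conj (ζ' a) * x').re := by
          have := st_inner hσ0 (ζ' a) x'
          rwa [hxx] at this
        have e2 : (conj (st σ⁻¹ (ζ' a)) * st σ y').re = (conj (ζ' a) * y').re := st_inner hσ0 (ζ' a) y'
        have e3 : w (st σ y') = u y' := by rw [hu]
        rw [h3, e1, e2, e3]
        exact fin_step h2 h1 huy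

end Pool.Agent.Q73.AD
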