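import Pool.Agent.Q73.AD.StmZ
import Pool.Agent.Q73.AD.YY0

/-!
# Assembly of the local theorem: the total growth exponent of the squares at the wavelength scale
-/

set_option autoImplicit false
open MeasureTheory Filter Topology Complex Metric
open scoped ContDiff ComplexConjugate

namespace Pool.Agent.Q73.AD

open Pool.Agent.Q73.NL

namespace YZ1

/-- the centre of a square of level `i` -/
noncomputable def pp (p : ℂ) (s : ℝ) (M i : ℕ) (a : ℕ × ℕ) : ℂ := p + s * ct (M ^ i) a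

/-- the half side of the squares of level `i` -/
noncomputable def sc (s : ℝ) (M i : ℕ) : ℝ := s / (M : ℝ) ^ i

lemma sc_pos {s : ℝ} {M : ℕ} (hs : 0 < s) (hM : 0 < M) (i : ℕ) : 0 < sc s M i := by
  have : (0 : ℝ) < M := by exact_mod_cast hM
  unfold sc; positivity

lemma sc_add {s : ℝ} {M : ℕ} (i k : ℕ) : sc s M i / (M : ℝ) ^ k = sc s M (i + k) := by
  unfold sc
  rw [div_div, pow_add]

lemma pp_ch {p : ℂ} {s : ℝ} {M : ℕ} (hM : 0 < M) (i k : ℕ) (a c : ℕ × ℕ) :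
    pp p s M i a + (sc s M i : ℝ) * ct (M ^ k) c = pp p s M (i + k) (ch (M ^ k) a c) := by
  unfold pp
  have h1 : M ^ (i + k) = M ^ i * M ^ k := pow_add _ _ _
  rw [h1, ct_ch (pow_pos hM i) (pow_pos hM k)]
  have h2 : ((sc s M i : ℝ) : ℂ) = (s : ℂ) * ((1 / ((M ^ i : ℕ) : ℝ) : ℝ) : ℂ) := by
    unfold sc
    push_cast
    ring
  rw [h2]
  ring

lemma pp_zero {p : ℂ} {s : ℝ} {M : ℕ} {a : ℕ × ℕ} (ha : a ∈ gd (M ^ 0)) : pp p s M 0 a = p := by
  unfold pp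
  rw [pow_zero] at *
  rw [ct_one a ha]
  simp

lemma sub_ball {p : ℂ} {s : ℝ} {M i : ℕ} {a : ℕ × ℕ} (hs : 0 < s) (hM : 2 ≤ M)
    (ha : a ∈ gd (M ^ i)) :
    closedBall (pp p s M i a) (32 * sc s M i) ⊆ closedBall p (32 * s) := by
  rcases Nat.eq_zero_or_pos i with rfl | hi
  · rw [pp_zero ha]
    simp [sc]
  · apply closedBall_subset_closedBall'
    have h1 : dist (pp p s M i a) p = s * ‖ct (M ^ i) a‖ := by
      unfold pp
      rw [dist_eq_norm]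
      simp [abs_of_pos hs]
    have h2 : ‖ct (M ^ i) a‖ ≤ Real.sqrt 2 := ct_norm ha
    have h3 : Real.sqrt 2 ≤ 2 := by
      rw [Real.sqrt_le_left (by norm_num)]; norm_num
    have h4 : (2 : ℝ) ≤ (M : ℝ) ^ i := by
      have : (2 : ℝ) ≤ M := by exact_mod_cast hM
      calc (2 : ℝ) ≤ M := this
        _ = (M : ℝ) ^ 1 := (pow_one _).symm
        _ ≤ (M : ℝ) ^ i := pow_le_pow_right₀ (by linarith) hi
    have h5 : sc s M i ≤ s / 2 := by
      unfold sc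
      gcongr
    rw [h1]
    nlinarith [norm_nonneg (ct (M ^ i) a)]

lemma loc {lam L s : ℝ} {p : ℂ} {ρ φ : ℂ → ℝ} (h : Loc lam L s p ρ φ) {M i : ℕ} {a : ℕ × ℕ}
    (hM : 2 ≤ M) (ha : a ∈ gd (M ^ i)) : Loc lam L (sc s M i) (pp p s M i a) ρ φ where
  lam_pos := h.lam_pos
  s_pos := sc_pos h.s_pos (by omega) i
  s_le := by
    have h4 : (1 : ℝ) ≤ (M : ℝ) ^ i := one_le_pow₀ (by
      have : (2 : ℝ) ≤ M := by exact_mod_cast hM
      linarith)
    unfold sc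
    rw [div_le_one (by linarith)]
    linarith [h.s_le]
  sol := fun z hz => h.sol z (sub_ball h.s_pos hM ha hz)
  pos := fun z r hr hzr => h.pos z r hr (hzr.trans (sub_ball h.s_pos hM ha))


lemma sc_anti {s : ℝ} {M : ℕ} (hs : 0 < s) (hM : 2 ≤ M) {i j : ℕ} (hij : i ≤ j) :
    sc s M j ≤ sc s M i := by
  have h : (1 : ℝ) ≤ M := by
    have : (2 : ℝ) ≤ M := by exact_mod_cast hM
    linarith
  unfold sc
  apply div_le_div_of_nonneg_left hs.le (by positivity)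
  exact pow_le_pow_right₀ h hij

lemma gr_nonneg {lam L s : ℝ} {p : ℂ} {ρ φ : ℂ → ℝ} (h : Loc lam L s p ρ φ) : 0 ≤ gr φ p s := by
  have hs := h.s_pos
  have hsub : closedBall p (2 * s) ⊆ closedBall p (32 * s) :=
    closedBall_subset_closedBall (by linarith)
  have hpos : 0 < sn φ (closedBall p (2 * s)) := h.pos p (2 * s) (by linarith) hsub
  unfold gr
  apply Real.log_nonneg
  rw [one_le_div hpos]
  have hc : ContinuousOn (fun x => |φ x|) (closedBall p (32 * s)) := fun z hz =>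
    ((h.sol z hz).1.continuousAt.abs).continuousWithinAt
  apply csSup_le_csSup
  · exact (isCompact_closedBall p (32 * s)).bddAbove_image hc
  · exact ⟨_, Set.mem_image_of_mem _ (mem_closedBall_self (by linarith))⟩
  · exact Set.image_mono hsub

/-- the rate of a square -/
noncomputable def gg (lam s : ℝ) (p : ℂ) (φ : ℂ → ℝ) (M J i : ℕ) (a : ℕ × ℕ) : ℝ :=
  open Classical in
  if i ≤ J ∧ a ∈ gd (M ^ i) then
    gr φ (pp p s M i a) (sc s M i) / (Real.sqrt lam * sc s M i) else 0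

/-- linear squares -/
def LL (lam s G ε : ℝ) (p : ℂ) (φ : ℂ → ℝ) (M J i : ℕ) (a : ℕ × ℕ) : Prop :=
  i ≤ J ∧ a ∈ gd (M ^ i) ∧ ∃ ν : ℂ, G * Real.sqrt lam / 512 ≤ ‖ν‖ ∧
    SS ν φ (pp p s M i a) (32 * sc s M i) ≤
      Real.exp (ε * (‖ν‖ * sc s M i)) * SS ν φ (pp p s M i a) (2 * sc s M i)

/-- the conclusion of Z2 -/
def Z2P (C : ℝ) (m : ℕ) (L T : ℝ) : Prop :=
  ∀ (lam s N : ℝ) (p : ℂ) (ρ φ : ℂ → ℝ), Loc lam L s p ρ φ → T * (1 + Real.sqrt lam * s) ≤ N →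
  gr φ p s ≤ N →
  (∀ z ∈ closedBall p (2 * s), sn φ (closedBall p (32 * s)) ≤
    Real.exp (C * (1 + Real.log m) * N) * sn φ (closedBall z (s / m))) ∧
  (∀ c ∈ gd m, gr φ (p + s * ct m c) (s / m) ≤ C * (1 + Real.log m) * N) ∧
  (∑ c ∈ gd m, gr φ (p + s * ct m c) (s / m) ≤ 35 * C * m * N) ∧
  ∀ (ε H : ℝ), 0 < ε → ε ≤ 1 → 0 ≤ H → ∀ S ⊆ gd m,
    (∀ c ∈ S, 68 * H * (s / m) < gr φ (p + s * ct m c) (s / m) ∧
      ∀ ν : ℂ, H ≤ ‖ν‖ → Real.exp (ε * (‖ν‖ * (s / m))) * SS ν φ (p + s * ct m c) (2 * (s / m)) <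
        SS ν φ (p + s * ct m c) (32 * (s / m))) →
    ∑ c ∈ S, gr φ (p + s * ct m c) (s / m) ≤ (2 + 34 / ε) * (C * (1 + Real.log m) * N)

section

variable {lam L s G T C ε : ℝ} {p : ℂ} {ρ φ : ℂ → ℝ} {M J : ℕ}

lemma gg_eq {i : ℕ} {a : ℕ × ℕ} (hi : i ≤ J) (ha : a ∈ gd (M ^ i)) :
    gg lam s p φ M J i a = gr φ (pp p s M i a) (sc s M i) / (Real.sqrt lam * sc s M i) := by
  unfold gg
  rw [if_pos ⟨hi, ha⟩]

lemma gg_nonneg (h : Loc lam L s p ρ φ) (hM : 2 ≤ M) (i : ℕ) (a : ℕ × ℕ) :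
    0 ≤ gg lam s p φ M J i a := by
  unfold gg
  split_ifs with hia
  · have := gr_nonneg (loc h hM hia.2)
    have h2 : 0 < sc s M i := sc_pos h.s_pos (by omega) i
    have h3 := Real.sqrt_nonneg lam
    positivity
  · exact le_rfl

lemma kpos (h : Loc lam L s p ρ φ) (hM : 2 ≤ M) (i : ℕ) : 0 < Real.sqrt lam * sc s M i := by
  have h2 : 0 < sc s M i := sc_pos h.s_pos (by omega) i
  have h3 := Real.sqrt_pos.2 h.lam_pos
  positivity

lemma kone (h : Loc lam L s p ρ φ) (hM : 2 ≤ M) (hκ : 1 ≤ Real.sqrt lam * sc s M J) {i : ℕ}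
    (hi : i ≤ J) : 1 ≤ Real.sqrt lam * sc s M i := by
  refine hκ.trans ?_
  have h3 := Real.sqrt_nonneg lam
  exact mul_le_mul_of_nonneg_left (sc_anti h.s_pos hM hi) h3

/-- `gr = g κ s` -/
lemma gg_mul (h : Loc lam L s p ρ φ) (hM : 2 ≤ M) {i : ℕ} {a : ℕ × ℕ} (hi : i ≤ J)
    (ha : a ∈ gd (M ^ i)) :
    gg lam s p φ M J i a * (Real.sqrt lam * sc s M i) = gr φ (pp p s M i a) (sc s M i) := by
  rw [gg_eq hi ha, div_mul_cancel₀ _ (kpos h hM i).ne']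

lemma Nbig (hT : 1 ≤ T) (hG : 2 * T ≤ G) {t : ℝ} (ht : 1 ≤ t) : T * (1 + t) ≤ G * t := by
  nlinarith

lemma child_ (h : Loc lam L s p ρ φ) (hM : 2 ≤ M) (hκ : 1 ≤ Real.sqrt lam * sc s M J)
    (hT : 1 ≤ T) (hG : 2 * T ≤ G) (hZ : Z2P C M L T) {i : ℕ} (hi : i < J) {a : ℕ × ℕ}
    (ha : a ∈ gd (M ^ i)) (hg : gg lam s p φ M J i a ≤ G) {c : ℕ × ℕ} (hc : c ∈ gd M) :
    gg lam s p φ M J (i + 1) (ch M a c) ≤ C * (1 + Real.log M) * M * G := by
  have hM0 : (0 : ℝ) < M := by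
    have : 0 < M := by omega
    exact_mod_cast this
  have hloc := loc h hM ha
  have hk := kone h hM hκ hi.le
  obtain ⟨-, h2, -⟩ := hZ lam (sc s M i) (G * (Real.sqrt lam * sc s M i)) (pp p s M i a) ρ φ hloc
    (Nbig hT hG hk) (by
      rw [← gg_mul h hM hi.le ha]
      exact mul_le_mul_of_nonneg_right hg (by linarith))
  have h3 := h2 c hc
  have h4 := pp_ch (p := p) (s := s) (M := M) (by omega) i 1 a c
  have h5 := sc_add (s := s) (M := M) i 1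
  rw [pow_one] at h4 h5
  rw [h4, h5] at h3
  have hmem : ch M a c ∈ gd (M ^ (i + 1)) := by
    rw [pow_succ]; exact ch_mem ha hc
  rw [gg_eq (by omega) hmem, div_le_iff₀ (kpos h hM _)]
  refine h3.trans (le_of_eq ?_)
  rw [← h5]
  field_simp

lemma super_ (h : Loc lam L s p ρ φ) (hM : 2 ≤ M) (hκ : 1 ≤ Real.sqrt lam * sc s M J)
    (hT : 1 ≤ T) (hG : 2 * T ≤ G) {i k : ℕ} (hZ : Z2P C (M ^ k) L T) {a : ℕ × ℕ}
    (ha : a ∈ gd (M ^ i)) (hg : G < gg lam s p φ M J i a) (hik : i + k ≤ J) :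
    ∑ c ∈ gd (M ^ k), gg lam s p φ M J (i + k) (ch (M ^ k) a c) ≤
      35 * C * (M : ℝ) ^ (2 * k) * gg lam s p φ M J i a := by
  have hM0 : (0 : ℝ) < M := by
    have : 0 < M := by omega
    exact_mod_cast this
  have hloc := loc h hM ha
  have hi : i ≤ J := by omega
  have hk := kone h hM hκ hi
  obtain ⟨-, -, h2, -⟩ := hZ lam (sc s M i) (gr φ (pp p s M i a) (sc s M i)) (pp p s M i a) ρ φ hloc
    (by
      rw [← gg_mul h hM hi ha]
      exact (Nbig hT hG hk).trans (mul_le_mul_of_nonneg_right hg.le (by linarith))) le_rfl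
  have h5 := sc_add (s := s) (M := M) i k
  push_cast at h2
  have h3 : ∑ c ∈ gd (M ^ k), gg lam s p φ M J (i + k) (ch (M ^ k) a c) =
      (∑ c ∈ gd (M ^ k), gr φ (pp p s M i a + (sc s M i : ℝ) * ct (M ^ k) c)
        (sc s M i / (M : ℝ) ^ k)) / (Real.sqrt lam * sc s M (i + k)) := by
    rw [Finset.sum_div]
    apply Finset.sum_congr rfl
    intro c hc
    have hmem : ch (M ^ k) a c ∈ gd (M ^ (i + k)) := by
      rw [pow_add]; exact ch_mem ha hc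
    rw [gg_eq hik hmem, pp_ch (by omega), h5]
  rw [h3, div_le_iff₀ (kpos h hM _)]
  refine h2.trans (le_of_eq ?_)
  rw [← gg_mul h hM hi ha, ← h5]
  field_simp
  ring

lemma super'_ (h : Loc lam L s p ρ φ) (hM : 2 ≤ M) (hκ : 1 ≤ Real.sqrt lam * sc s M J)
    (hT : 1 ≤ T) (hG : 2 * T ≤ G) {i l : ℕ} (hZ : Z2P C (M ^ l) L T) {a : ℕ × ℕ}
    (hε : 0 < ε) (hε1 : ε ≤ 1)
    (hl : (2 + 34 / ε) * (C * (1 + Real.log ((M ^ l : ℕ) : ℝ))) ≤ (M : ℝ) ^ l / 2)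
    (ha : a ∈ gd (M ^ i)) (hg : G < gg lam s p φ M J i a) (hik : i + l ≤ J)
    (S : Finset (ℕ × ℕ)) (hS : S ⊆ gd (M ^ l))
    (hSc : ∀ c ∈ S, G < gg lam s p φ M J (i + l) (ch (M ^ l) a c) ∧
      ¬ LL lam s G ε p φ M J (i + l) (ch (M ^ l) a c)) :
    ∑ c ∈ S, gg lam s p φ M J (i + l) (ch (M ^ l) a c) ≤
      1 / 2 * (M : ℝ) ^ (2 * l) * gg lam s p φ M J i a := by
  have hM0 : (0 : ℝ) < M := by
    have : 0 < M := by omega
    exact_mod_cast this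
  have hG0 : 0 < G := by linarith
  have hloc := loc h hM ha
  have hi : i ≤ J := by omega
  have hk := kone h hM hκ hi
  obtain ⟨-, -, -, h2⟩ := hZ lam (sc s M i) (gr φ (pp p s M i a) (sc s M i)) (pp p s M i a) ρ φ hloc
    (by
      rw [← gg_mul h hM hi ha]
      exact (Nbig hT hG hk).trans (mul_le_mul_of_nonneg_right hg.le (by linarith))) le_rfl
  have h5 := sc_add (s := s) (M := M) i l
  have hk0 := Real.sqrt_pos.2 h.lam_pos
  have hscl : 0 < sc s M (i + l) := sc_pos h.s_pos (by omega) _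
  have hlogM : 0 ≤ Real.log ((M ^ l : ℕ) : ℝ) := Real.log_natCast_nonneg _
  have h2' := h2 ε (G * Real.sqrt lam / 512) hε hε1 (by positivity) S hS (by
    intro c hc
    have hmem : ch (M ^ l) a c ∈ gd (M ^ (i + l)) := by
      rw [pow_add]; exact ch_mem ha (hS hc)
    obtain ⟨h6, h7⟩ := hSc c hc
    push_cast
    rw [pp_ch (by omega), h5]
    constructor
    · rw [← gg_mul h hM hik hmem]
      have h8 : G * (Real.sqrt lam * sc s M (i + l)) <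
          gg lam s p φ M J (i + l) (ch (M ^ l) a c) * (Real.sqrt lam * sc s M (i + l)) :=
        mul_lt_mul_of_pos_right h6 (by positivity)
      refine lt_of_le_of_lt ?_ h8
      have h9 : 0 ≤ G * (Real.sqrt lam * sc s M (i + l)) := by positivity
      nlinarith
    · intro ν hν
      by_contra hcon
      push Not at hcon
      exact h7 ⟨hik, hmem, ν, hν, hcon⟩)
  push_cast at h2' hl
  have h3 : ∑ c ∈ S, gg lam s p φ M J (i + l) (ch (M ^ l) a c) =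
      (∑ c ∈ S, gr φ (pp p s M i a + (sc s M i : ℝ) * ct (M ^ l) c)
        (sc s M i / (M : ℝ) ^ l)) / (Real.sqrt lam * sc s M (i + l)) := by
    rw [Finset.sum_div]
    apply Finset.sum_congr rfl
    intro c hc
    have hmem : ch (M ^ l) a c ∈ gd (M ^ (i + l)) := by
      rw [pow_add]; exact ch_mem ha (hS hc)
    rw [gg_eq hik hmem, pp_ch (by omega), h5]
  rw [h3, div_le_iff₀ (kpos h hM _)]
  have hgr := gr_nonneg hloc
  refine h2'.trans ?_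
  calc (2 + 34 / ε) * (C * (1 + Real.log ((M : ℝ) ^ l)) * gr φ (pp p s M i a) (sc s M i))
      = ((2 + 34 / ε) * (C * (1 + Real.log ((M : ℝ) ^ l)))) * gr φ (pp p s M i a) (sc s M i) := by
        ring
    _ ≤ ((M : ℝ) ^ l / 2) * gr φ (pp p s M i a) (sc s M i) :=
        mul_le_mul_of_nonneg_right hl hgr
    _ = _ := by
        rw [← gg_mul h hM hi ha, ← h5]
        field_simp
        ring


/-- the conclusion of Y9 -/
def Y9P (θ : ℝ) (M : ℕ) (ε B s₁ : ℝ) : Prop :=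
  ∀ (lam L s : ℝ) (p ν₀ : ℂ) (ρ φ : ℂ → ℝ) (J : ℕ), Loc lam L s p ρ φ → s ≤ s₁ →
  4 * (lam * L) ≤ ‖ν₀‖ ^ 2 → B ≤ ‖ν₀‖ * (s / M ^ J) →
  SS ν₀ φ p (32 * s) ≤ Real.exp (ε * (‖ν₀‖ * s)) * SS ν₀ φ p (2 * s) →
  ∃ Rel : Finset (ℕ × (ℕ × ℕ)), (∀ r ∈ Rel, 1 ≤ r.1 ∧ r.1 ≤ J ∧ r.2 ∈ gd (M ^ r.1)) ∧
    ∑ r ∈ Rel, ((M : ℝ) ^ (2 * r.1))⁻¹ ≤ θ ∧
    ∑ r ∈ Rel, ((M : ℝ) ^ (2 * r.1))⁻¹ *
      (gr φ (p + s * ct (M ^ r.1) r.2) (s / M ^ r.1) / (s / M ^ r.1)) ≤ θ * ‖ν₀‖ ∧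
    ∀ k ≤ J, ∀ b ∈ gd (M ^ k), (∀ k' ≤ k, (k', anc (M ^ (k - k')) b) ∉ Rel) →
      ‖ν₀‖ * (s / M ^ k) ≤ gr φ (p + s * ct (M ^ k) b) (s / M ^ k) ∧
      gr φ (p + s * ct (M ^ k) b) (s / M ^ k) ≤ 52 * (‖ν₀‖ * (s / M ^ k))

lemma anc_md_comm (M n k : ℕ) (b : ℕ × ℕ) :
    anc (M ^ n) (md (M ^ (n + k)) b) = md (M ^ k) (anc (M ^ n) b) := by
  ext
  · show b.1 % M ^ (n + k) / M ^ n = b.1 / M ^ n % M ^ k
    rw [pow_add]; exact Nat.mod_mul_right_div_self _ _ _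
  · show b.2 % M ^ (n + k) / M ^ n = b.2 / M ^ n % M ^ k
    rw [pow_add]; exact Nat.mod_mul_right_div_self _ _ _

lemma lin_ {θ B s₁ : ℝ} (h : Loc lam L s p ρ φ) (hs1 : s ≤ s₁) (hM : 2 ≤ M)
    (hL1 : 1 ≤ L) (hG1 : 1 ≤ G) (hGL : 1024 * Real.sqrt L ≤ G)
    (hB : 512 * B ≤ Real.sqrt lam * sc s M J) (hY : Y9P θ M ε B s₁) (_hB1 : 1 ≤ B)
    {i : ℕ} {a : ℕ × ℕ} (hLin : LL lam s G ε p φ M J i a) :
    ∃ (x : ℝ) (R : Finset (ℕ × (ℕ × ℕ))), 0 ≤ x ∧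
      (∀ r ∈ R, 1 ≤ r.1 ∧ i + r.1 ≤ J ∧ r.2 ∈ gd (M ^ r.1)) ∧
      ∑ r ∈ R, ((M : ℝ) ^ (2 * r.1))⁻¹ ≤ θ ∧
      ∑ r ∈ R, ((M : ℝ) ^ (2 * r.1))⁻¹ * gg lam s p φ M J (i + r.1) (ch (M ^ r.1) a r.2) ≤
        θ * x ∧
      ∀ j, i ≤ j → j ≤ J → ∀ b ∈ gd (M ^ j), anc (M ^ (j - i)) b = a →
        (∀ k, i < k → k ≤ j → (k - i, md (M ^ (k - i)) (anc (M ^ (j - k)) b)) ∉ R) →
        x ≤ gg lam s p φ M J j b ∧ gg lam s p φ M J j b ≤ 52 * x := by
  obtain ⟨hi, ha, ν, hν, hS⟩ := hLin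
  have hloc := loc h hM ha
  have hk0 : 0 < Real.sqrt lam := Real.sqrt_pos.2 h.lam_pos
  have hJ : sc s M i / (M : ℝ) ^ (J - i) = sc s M J := by
    rw [sc_add]; congr 1; omega
  have hM0 : (0 : ℝ) < M := by
    have : 0 < M := by omega
    exact_mod_cast this
  have hscJ : 0 < sc s M J := sc_pos h.s_pos (by omega) _
  have h1 : 4 * (lam * L) ≤ ‖ν‖ ^ 2 := by
    have h2 : 2 * (Real.sqrt L * Real.sqrt lam) ≤ ‖ν‖ := by
      refine le_trans ?_ hν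
      have : 2 * Real.sqrt L ≤ G / 512 := by linarith
      have h3 := mul_le_mul_of_nonneg_right this hk0.le
      linarith
    have h3 : (2 * (Real.sqrt L * Real.sqrt lam)) ^ 2 ≤ ‖ν‖ ^ 2 := by
      apply pow_le_pow_left₀ (by positivity) h2
    refine le_trans (le_of_eq ?_) h3
    have h4 := Real.sq_sqrt (show 0 ≤ L by linarith)
    have h5 := Real.sq_sqrt h.lam_pos.le
    calc 4 * (lam * L) = 4 * (Real.sqrt lam ^ 2 * Real.sqrt L ^ 2) := by rw [h4, h5]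
      _ = _ := by ring
  have h2 : B ≤ ‖ν‖ * (sc s M i / (M : ℝ) ^ (J - i)) := by
    rw [hJ]
    have h3 : Real.sqrt lam / 512 ≤ ‖ν‖ := by
      refine le_trans ?_ hν
      have := mul_le_mul_of_nonneg_right hG1 hk0.le
      linarith
    have h4 := mul_le_mul_of_nonneg_right h3 hscJ.le
    have h5 : Real.sqrt lam / 512 * sc s M J = (Real.sqrt lam * sc s M J) / 512 := by ring
    rw [h5] at h4
    linarith
  have h3 : sc s M i ≤ s₁ := by
    refine le_trans (sc_anti h.s_pos hM (Nat.zero_le i)) ?_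
    simpa [sc] using hs1
  obtain ⟨R, hR1, hR2, hR3, hR4⟩ := hY lam L (sc s M i) (pp p s M i a) ν ρ φ (J - i) hloc h3 h1 h2 hS
  have hRm : ∀ r ∈ R, 1 ≤ r.1 ∧ i + r.1 ≤ J ∧ r.2 ∈ gd (M ^ r.1) := by
    intro r hr
    obtain ⟨h4, h5, h6⟩ := hR1 r hr
    exact ⟨h4, by omega, h6⟩
  refine ⟨‖ν‖ / Real.sqrt lam, R, by positivity, hRm, hR2, ?_, ?_⟩
  · have h4 : ∑ r ∈ R, ((M : ℝ) ^ (2 * r.1))⁻¹ *
        gg lam s p φ M J (i + r.1) (ch (M ^ r.1) a r.2) =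
        (∑ r ∈ R, ((M : ℝ) ^ (2 * r.1))⁻¹ *
      (gr φ (pp p s M i a + (sc s M i : ℝ) * ct (M ^ r.1) r.2) (sc s M i / M ^ r.1) /
        (sc s M i / M ^ r.1))) / Real.sqrt lam := by
      rw [Finset.sum_div]
      apply Finset.sum_congr rfl
      intro r hr
      obtain ⟨h4, h5, h6⟩ := hRm r hr
      have hmem : ch (M ^ r.1) a r.2 ∈ gd (M ^ (i + r.1)) := by
        rw [pow_add]; exact ch_mem ha h6
      rw [gg_eq h5 hmem, pp_ch (by omega), sc_add]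
      have h7 : 0 < sc s M (i + r.1) := sc_pos h.s_pos (by omega) _
      field_simp
    rw [h4, div_le_iff₀ hk0]
    refine hR3.trans (le_of_eq ?_)
    field_simp
  · intro j hij hjJ b hb hanc hnot
    have hpos : 0 < M ^ (j - i) := pow_pos (by omega) _
    have hb' : md (M ^ (j - i)) b ∈ gd (M ^ (j - i)) := md_mem hpos b
    have h4 := hR4 (j - i) (by omega) (md (M ^ (j - i)) b) hb' (by
      intro k' hk' hmem
      rcases Nat.eq_zero_or_pos k' with rfl | hk0'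
      · have := (hR1 _ hmem).1
        simp at this
      · apply hnot (i + k') (by omega) (by omega)
        have e1 : i + k' - i = k' := by omega
        have e2 : j - i = (j - (i + k')) + k' := by omega
        have e3 : j - i - k' = j - (i + k') := by omega
        rw [e1, ← anc_md_comm, ← e2, ← e3]
        exact hmem)
    have h5 : ch (M ^ (j - i)) a (md (M ^ (j - i)) b) = b := by
      rw [← hanc]; exact ch_anc_md _ b
    have h6 := pp_ch (p := p) (s := s) (M := M) (by omega) i (j - i) a (md (M ^ (j - i)) b)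
    have h7 := sc_add (s := s) (M := M) i (j - i)
    have h8 : i + (j - i) = j := by omega
    rw [h5] at h6
    rw [h8] at h6 h7
    rw [h6, h7] at h4
    have hscj : 0 < sc s M j := sc_pos h.s_pos (by omega) _
    rw [gg_eq hjJ hb]
    constructor
    · rw [div_le_div_iff₀ hk0 (by positivity)]
      nlinarith [mul_le_mul_of_nonneg_right h4.1 hk0.le]
    · rw [div_le_iff₀ (by positivity)]
      refine h4.2.trans (le_of_eq ?_)
      field_simp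

lemma birth_ {l₁ : ℕ} (h : Loc lam L s p ρ φ) (hM : 8 ≤ M) (hκ : 1 ≤ Real.sqrt lam * sc s M J)
    (hT : 1 ≤ T) (hG : 2 * T ≤ G) (hZ : Z2P C M L T) (h10 : Y10) (h3 : Z3)
    (hε : 0 < ε) (hε1 : ε ≤ 1) (hC : C * (1 + Real.log M) ≤ M / 64)
    (hl₁ : 289 / ε ≤ (M : ℝ) ^ l₁) {i : ℕ} (hi : i + 1 + l₁ ≤ J) {a : ℕ × ℕ}
    (ha : a ∈ gd (M ^ i)) (hg : gg lam s p φ M J i a ≤ G) {c : ℕ × ℕ} (hc : c ∈ gd M)
    (hgc : G < gg lam s p φ M J (i + 1) (ch M a c)) (hc1 : 5 * M ≤ (ch M a c).1)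
    (hc2 : (ch M a c).1 + 5 * M < M ^ (i + 1)) (hc3 : 5 * M ≤ (ch M a c).2)
    (hc4 : (ch M a c).2 + 5 * M < M ^ (i + 1)) :
    ∃ c' ∈ gd (M ^ (i + 1 + l₁)), LL lam s G ε p φ M J (i + 1 + l₁) c' ∧
      |((anc (M ^ l₁) c').1 : ℤ) - (ch M a c).1| ≤ 5 * M ∧
      |((anc (M ^ l₁) c').2 : ℤ) - (ch M a c).2| ≤ 5 * M := by
  have hM2 : 2 ≤ M := by omega
  have hM0 : (0 : ℝ) < M := by
    have : 0 < M := by omega
    exact_mod_cast this
  have hloc := loc h hM2 ha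
  have hk := kone h hM2 hκ (show i ≤ J by omega)
  have hk0 : 0 < Real.sqrt lam := Real.sqrt_pos.2 h.lam_pos
  have hG0 : 0 < G := by linarith
  obtain ⟨h1, -⟩ := hZ lam (sc s M i) (G * (Real.sqrt lam * sc s M i)) (pp p s M i a) ρ φ hloc
    (Nbig hT hG hk) (by
      rw [← gg_mul h hM2 (show i ≤ J by omega) ha]
      exact mul_le_mul_of_nonneg_right hg (by linarith))
  have h4 := pp_ch (p := p) (s := s) (M := M) (by omega) i 1 a c
  have h5 := sc_add (s := s) (M := M) i 1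
  rw [pow_one] at h4 h5
  have hmem : ch M a c ∈ gd (M ^ (i + 1)) := by
    rw [pow_succ]; exact ch_mem ha hc
  obtain ⟨y, ν, hy, hν, hlin⟩ := h10 lam L (sc s M i) G
    (C * (1 + Real.log M) * (G * (Real.sqrt lam * sc s M i))) ε (pp p s M i a) ρ φ M c hloc hM hc hG0
    hε hε1 (by
      have h6 : 0 ≤ G * Real.sqrt lam * sc s M i := by
        have := sc_pos h.s_pos (show 0 < M by omega) i
        positivity
      calc C * (1 + Real.log M) * (G * (Real.sqrt lam * sc s M i))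
          = C * (1 + Real.log M) * (G * Real.sqrt lam * sc s M i) := by ring
        _ ≤ _ := mul_le_mul_of_nonneg_right hC h6) h1 (by
      rw [h4, h5, ← gg_mul h hM2 (show i + 1 ≤ J by omega) hmem, mul_assoc]
      exact mul_lt_mul_of_pos_right hgc (kpos h hM2 _))
  rw [h4] at hy
  obtain ⟨c', hc', hyc, hd1, hd2⟩ := h3 M i l₁ s p y (ch M a c) hM2 h.s_pos hmem hc1 hc2 hc3 hc4 hy
  refine ⟨c', hc', ⟨hi, hc', ν, hν, ?_⟩, hd1, hd2⟩
  apply hlin (pp p s M (i + 1 + l₁) c') (sc s M (i + 1 + l₁)) (sc_pos h.s_pos (by omega) _) _ hyc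
  rw [h5, ← sc_add (i + 1) l₁]
  have h6 : 0 < sc s M (i + 1) := sc_pos h.s_pos (by omega) _
  have h7 : 289 ≤ (M : ℝ) ^ l₁ * ε := by rwa [div_le_iff₀ hε] at hl₁
  rw [div_le_div_iff₀ (by positivity) (by norm_num)]
  nlinarith

end

/-! ### Existence of the constants -/

lemma log_small (K : ℝ) : ∀ᶠ n : ℕ in atTop, K * (1 + Real.log n) ≤ n := by
  have h1 : Tendsto (fun x : ℝ => (1 + Real.log x) / x) atTop (𝓝 0) := by
    have h2 : Tendsto (fun x : ℝ => x⁻¹ + Real.log x / x) atTop (𝓝 (0 + 0)) := by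
      apply tendsto_inv_atTop_zero.add
      exact Real.isLittleO_log_id_atTop.tendsto_div_nhds_zero
    rw [add_zero] at h2
    refine h2.congr (fun x => ?_)
    ring
  have h3 : Tendsto (fun n : ℕ => (1 + Real.log n) / (n : ℝ)) atTop (𝓝 0) :=
    h1.comp tendsto_natCast_atTop_atTop
  have h4 : Tendsto (fun n : ℕ => K * ((1 + Real.log n) / (n : ℝ))) atTop (𝓝 0) := by
    simpa using h3.const_mul K
  filter_upwards [h4.eventually_lt_const (show (0 : ℝ) < 1 by norm_num), eventually_gt_atTop 0] with n hn hn0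
  have hn0' : (0 : ℝ) < n := by exact_mod_cast hn0
  have : K * (1 + Real.log n) / n < 1 := by
    rw [← mul_div_assoc] at hn; exact hn
  rw [div_lt_one hn0'] at this
  exact this.le

lemma ex_M (C : ℝ) (M₀ : ℕ) : ∃ M : ℕ, M₀ ≤ M ∧ C ≤ M ∧ 8 ≤ M ∧ C * (1 + Real.log M) ≤ M / 64 := by
  obtain ⟨M, h1, h2, h3, h4⟩ := ((log_small (64 * C)).and ((eventually_ge_atTop M₀).and
    ((eventually_ge_atTop 8).and (eventually_ge_atTop ⌈C⌉₊)))).exists
  refine ⟨M, h2, ?_, h3, ?_⟩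
  · exact (Nat.le_ceil C).trans (by exact_mod_cast h4)
  · linarith

lemma ex_l (K : ℝ) {M : ℕ} (hM : 2 ≤ M) : ∃ l : ℕ, 1 ≤ l ∧
    K * (1 + Real.log ((M ^ l : ℕ) : ℝ)) ≤ (M : ℝ) ^ l / 2 := by
  have h1 : Tendsto (fun l : ℕ => M ^ l) atTop atTop := tendsto_pow_atTop_atTop_of_one_lt (show 1 < M by omega)
  obtain ⟨l, h2, h3⟩ := ((h1.eventually (log_small (2 * K))).and (eventually_ge_atTop 1)).exists
  refine ⟨l, h3, ?_⟩
  have h4 : ((M ^ l : ℕ) : ℝ) = (M : ℝ) ^ l := by push_cast; rfl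
  rw [← h4]
  linarith

lemma ex_l₁ (K : ℝ) {M : ℕ} (hM : 2 ≤ M) : ∃ l : ℕ, K ≤ (M : ℝ) ^ l := by
  have hM' : (1 : ℝ) < M := by
    have : (2 : ℝ) ≤ M := by exact_mod_cast hM
    linarith
  obtain ⟨l, hl⟩ := pow_unbounded_of_one_lt K hM'
  exact ⟨l, hl.le⟩

end YZ1

open YZ1 in
/-- AY-26: assembly of the local theorem -/
theorem tz1 (h2 : Z2) (h9 : Y9) (h10 : Y10) (h3 : Z3) (h7 : K7) : Z1 := by
  obtain ⟨C, hC1, h2⟩ := h2
  obtain ⟨M₀, hM₀, h9⟩ := h9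
  set θ : ℝ := 1 / (2 * (4 * (35 * C) + 1)) with hθ
  have hθ0 : 0 < θ := by positivity
  have hθ1 : θ ≤ 1 := by
    rw [hθ, div_le_one (by positivity)]
    linarith
  have hθ2 : θ * (4 * (35 * C) + 1) ≤ 1 / 2 := by
    rw [hθ]
    have : (4 * (35 * C) + 1) ≠ 0 := by positivity
    field_simp
    exact le_refl _
  obtain ⟨M, hM0, hMC, hM8, hMl⟩ := ex_M C M₀
  have hM2 : 2 ≤ M := by omega
  have hM1' : (1 : ℝ) ≤ M := by
    have : 1 ≤ M := by omega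
    exact_mod_cast this
  have hlog : 0 ≤ Real.log (M : ℝ) := Real.log_natCast_nonneg _
  obtain ⟨ε, B, s₁, hε, hε1, hB1, hs₁, hY9⟩ := h9 θ M hθ0 hθ1 hM0
  obtain ⟨l, hl1, hl⟩ := ex_l ((2 + 34 / ε) * C) hM2
  obtain ⟨l₁, hl₁⟩ := ex_l₁ (289 / ε) hM2
  refine ⟨M, s₁, hM2, hs₁, fun L G₀ hL hG₀ => ?_⟩
  -- the constants T for the powers of M
  have hT : ∀ k : ℕ, ∃ T : ℝ, 1 ≤ T ∧ (1 ≤ k → Z2P C (M ^ k) L T) := by
    intro k
    rcases Nat.eq_zero_or_pos k with rfl | hk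
    · exact ⟨1, le_rfl, fun h => absurd h (by norm_num)⟩
    · obtain ⟨T, hT1, hT⟩ := h2 (M ^ k) (by
        push_cast
        refine hMC.trans ?_
        calc (M : ℝ) = (M : ℝ) ^ 1 := (pow_one _).symm
          _ ≤ (M : ℝ) ^ k := pow_le_pow_right₀ hM1' hk) L hL
      exact ⟨T, hT1, fun _ => hT⟩
  choose T hT1 hTZ using hT
  set TT : ℝ := ∑ k ∈ Finset.range (l + 1), T k with hTT
  have hTle : ∀ k, k ≤ l → T k ≤ TT := by
    intro k hk
    exact Finset.single_le_sum (f := T) (fun j _ => by linarith [hT1 j]) (Finset.mem_range.2 (by omega))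
  have hTT1 : 1 ≤ TT := (hT1 0).trans (hTle 0 (Nat.zero_le _))
  have hsL := Real.sqrt_nonneg L
  set G : ℝ := 2 * TT + G₀ + 1024 * Real.sqrt L + 1 with hG
  set G₂ : ℝ := C * (1 + Real.log M) * M * G with hG₂
  have hGG : G ≤ G₂ := by
    have h1 : 1 ≤ C * (1 + Real.log M) * M := by
      have h4 : 1 ≤ C * (1 + Real.log M) := by nlinarith
      nlinarith
    have h5 : 0 ≤ G := by positivity
    rw [hG₂]
    nlinarith
  have hT1l : TT ≤ G := by rw [hG]; linarith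
  obtain ⟨Cf, hCf⟩ := h7 M (5 * M) l l₁ G G₂ (35 * C) 52 θ (1 / 2)
  refine ⟨512 * B, max 1 Cf, by linarith, le_max_left _ _, ?_⟩
  intro lam s p ρ φ J hloc hs hκ hroot
  have hκ' : 512 * B ≤ Real.sqrt lam * sc s M J := hκ
  have hκ1 : 1 ≤ Real.sqrt lam * sc s M J := by linarith
  have hZk : ∀ k, 1 ≤ k → k ≤ l → ∃ T', 1 ≤ T' ∧ 2 * T' ≤ G ∧ Z2P C (M ^ k) L T' := by
    intro k hk hkl
    refine ⟨T k, hT1 k, ?_, hTZ k hk⟩
    have := hTle k hkl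
    rw [hG]; linarith
  obtain ⟨T₁, hT₁1, hT₁G, hT₁Z⟩ := hZk 1 le_rfl hl1
  rw [pow_one] at hT₁Z
  have hlin : ∀ (i : ℕ) (a : ℕ × ℕ), ∃ (x : ℝ) (R : Finset (ℕ × (ℕ × ℕ))),
      LL lam s G ε p φ M J i a → 0 ≤ x ∧
      (∀ r ∈ R, 1 ≤ r.1 ∧ i + r.1 ≤ J ∧ r.2 ∈ gd (M ^ r.1)) ∧
      ∑ r ∈ R, ((M : ℝ) ^ (2 * r.1))⁻¹ ≤ θ ∧
      ∑ r ∈ R, ((M : ℝ) ^ (2 * r.1))⁻¹ * gg lam s p φ M J (i + r.1) (ch (M ^ r.1) a r.2) ≤
        θ * x ∧
      ∀ j, i ≤ j → j ≤ J → ∀ b ∈ gd (M ^ j), anc (M ^ (j - i)) b = a →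
        (∀ k, i < k → k ≤ j → (k - i, md (M ^ (k - i)) (anc (M ^ (j - k)) b)) ∉ R) →
        x ≤ gg lam s p φ M J j b ∧ gg lam s p φ M J j b ≤ 52 * x := by
    intro i a
    by_cases hL' : LL lam s G ε p φ M J i a
    · obtain ⟨x, R, hx⟩ := lin_ (B := B) (s₁ := s₁) (θ := θ) hloc hs hM2 hL (by rw [hG]; linarith)
        (by rw [hG]; linarith) hκ' hY9 hB1 hL'
      exact ⟨x, R, fun _ => hx⟩
    · exact ⟨0, ∅, fun h => absurd h hL'⟩
  choose x R hxR using hlin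
  have htree : Tree M (5 * M) l l₁ J G G₂ (35 * C) 52 θ (1 / 2) (gg lam s p φ M J)
      (LL lam s G ε p φ M J) x R := by
    refine ⟨hM2, by omega, hl1, by positivity, hGG, by linarith, by norm_num, hθ0.le, hθ2,
      by norm_num, le_rfl, gg_nonneg hloc hM2, ?_, ?_, ?_, ?_, ?_, ?_, ?_, ?_, ?_, ?_⟩
    · -- root
      have hmem : ((0, 0) : ℕ × ℕ) ∈ gd (M ^ 0) := by rw [pow_zero, mem_gd]; simp
      rw [gg_eq (Nat.zero_le _) hmem, pp_zero hmem]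
      have h0 : sc s M 0 = s := by simp [sc]
      have h1 := kpos hloc hM2 0
      rw [h0] at h1 ⊢
      rw [div_le_iff₀ h1]
      refine hroot.trans (mul_le_mul_of_nonneg_right ?_ h1.le)
      refine le_trans ?_ hGG
      rw [hG]; linarith
    · intro i hi a ha hg c hc
      exact child_ hloc hM2 hκ1 hT₁1 hT₁G hT₁Z hi ha hg hc
    · intro i a ha hg k hk hkl hik
      obtain ⟨T', h4, h5, h6⟩ := hZk k hk hkl
      exact super_ hloc hM2 hκ1 h4 h5 h6 ha hg hik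
    · intro i a ha hg hik S hS hSc
      obtain ⟨T', h4, h5, h6⟩ := hZk l hl1 le_rfl
      refine super'_ hloc hM2 hκ1 h4 h5 h6 hε hε1 ?_ ha hg hik S hS hSc
      rw [← mul_assoc]; exact hl
    · intro i _ a _ hL'
      exact (hxR i a hL').1
    · intro i _ a _ hL'
      exact (hxR i a hL').2.1
    · intro i _ a _ hL'
      exact (hxR i a hL').2.2.1
    · intro i _ a _ hL'
      exact (hxR i a hL').2.2.2.1
    · intro i a _ hL'
      exact (hxR i a hL').2.2.2.2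
    · intro i hi a ha hg c hc hgc h4 h5 h6 h8
      have := birth_ hloc hM8 hκ1 hT₁1 hT₁G hT₁Z h10 h3 hε hε1 hMl hl₁ hi ha hg hc hgc h4 h5 h6 h8
      push_cast
      exact this
  have hfin := hCf J _ _ _ _ htree
  have h4 : ∑ a ∈ gd (M ^ J), gr φ (p + s * ct (M ^ J) a) (s / M ^ J) =
      (∑ a ∈ gd (M ^ J), gg lam s p φ M J J a) * (Real.sqrt lam * sc s M J) := by
    rw [Finset.sum_mul]
    apply Finset.sum_congr rfl
    intro a ha
    rw [gg_mul hloc hM2 le_rfl ha]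
    rfl
  rw [h4]
  show _ ≤ max 1 Cf * (M : ℝ) ^ (2 * J) * (Real.sqrt lam * sc s M J)
  apply mul_le_mul_of_nonneg_right _ (kpos hloc hM2 J).le
  refine hfin.trans (mul_le_mul_of_nonneg_right (le_max_right _ _) (by positivity))

end Pool.Agent.Q73.AD
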