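import Pool.Agent.Q73.AD.StmZ
import Pool.Agent.Q73.AD.YY0
import Pool.Agent.Q73.AD.TO1

/-!
# Z2: the growth exponents of the subsquares (helper251)
-/

set_option autoImplicit false
open MeasureTheory Filter Topology Complex Metric
open scoped ContDiff ComplexConjugate

namespace Pool.Agent.Q73.AD

open Pool.Agent.Q73.NL

/-- solutions are bounded on the disc -/
lemma loc_bd {lam L s : ℝ} {p : ℂ} {ρ φ : ℂ → ℝ} (h : Loc lam L s p ρ φ) :
    ∃ B : ℝ, 0 ≤ B ∧ ∀ x ∈ closedBall p (32 * s), |φ x| ≤ B := by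
  have hc : ContinuousOn φ (closedBall p (32 * s)) := fun x hx =>
    ((h.sol x hx).1.continuousAt).continuousWithinAt
  obtain ⟨B, hB⟩ := (isCompact_closedBall p (32 * s)).exists_bound_of_continuousOn hc
  exact ⟨max B 0, le_max_right _ _, fun x hx => (hB x hx).trans (le_max_left _ _)⟩

lemma re_conj_le (ν x y : ℂ) : (conj ν * x).re ≤ (conj ν * y).re + ‖ν‖ * ‖x - y‖ := by
  have h1 : (conj ν * x).re - (conj ν * y).re = (conj ν * (x - y)).re := by
    rw [mul_sub, Complex.sub_re]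
  have h2 : (conj ν * (x - y)).re ≤ ‖ν‖ * ‖x - y‖ := by
    refine (Complex.re_le_norm _).trans (le_of_eq ?_)
    rw [norm_mul, Complex.norm_conj]
  linarith

/-- comparison of the growth exponent with the growth exponent of the conjugated function -/
lemma gr_le {φ : ℂ → ℝ} {q ν : ℂ} {r n B : ℝ} (hr : 0 < r)
    (hB : ∀ x ∈ closedBall q (32 * r), |φ x| ≤ B) (h2 : 0 < sn φ (closedBall q (2 * r)))
    (h32 : 0 < sn φ (closedBall q (32 * r)))
    (h : SS ν φ q (32 * r) ≤ Real.exp n * SS ν φ q (2 * r)) :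
    gr φ q r ≤ n + 34 * ‖ν‖ * r := by
  have hsub : closedBall q (2 * r) ⊆ closedBall q (32 * r) := closedBall_subset_closedBall (by linarith)
  have hq : q ∈ closedBall q (32 * r) := mem_closedBall_self (by positivity)
  have hB0 : 0 ≤ B := (abs_nonneg _).trans (hB q hq)
  set u : ℝ := (conj ν * q).re with hu
  have hexp : ∀ x ∈ closedBall q (32 * r), |cj ν φ x| ≤ Real.exp (-u + 32 * (‖ν‖ * r)) * B := by
    intro x hx
    unfold cj
    rw [abs_mul, abs_of_pos (Real.exp_pos _)]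
    have h1 := re_conj_le ν q x
    have h3 : ‖ν‖ * ‖q - x‖ ≤ ‖ν‖ * (32 * r) := by
      refine mul_le_mul_of_nonneg_left ?_ (norm_nonneg _)
      rw [mem_closedBall, dist_eq_norm] at hx
      rwa [norm_sub_rev]
    exact mul_le_mul (Real.exp_le_exp.2 (by linarith)) (hB x hx) (abs_nonneg _) (Real.exp_pos _).le
  have h3 : SS ν φ q (2 * r) ≤ Real.exp (-u + 2 * (‖ν‖ * r)) * sn φ (closedBall q (2 * r)) := by
    unfold SS
    refine sn_le2 (mul_nonneg (Real.exp_pos _).le (sn_nonneg2 _ _)) fun x hx => ?_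
    unfold cj
    rw [abs_mul, abs_of_pos (Real.exp_pos _)]
    have h1 := re_conj_le ν q x
    have h4 : ‖ν‖ * ‖q - x‖ ≤ ‖ν‖ * (2 * r) := by
      refine mul_le_mul_of_nonneg_left ?_ (norm_nonneg _)
      rw [mem_closedBall, dist_eq_norm] at hx
      rwa [norm_sub_rev]
    exact mul_le_mul (Real.exp_le_exp.2 (by linarith))
      (le_sn2 (fun y hy => hB y (hsub hy)) hx) (abs_nonneg _) (Real.exp_pos _).le
  have h4 : sn φ (closedBall q (32 * r)) ≤ Real.exp (u + 32 * (‖ν‖ * r)) * SS ν φ q (32 * r) := by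
    refine sn_le2 (mul_nonneg (Real.exp_pos _).le (sn_nonneg2 _ _)) fun x hx => ?_
    have h5 : |cj ν φ x| ≤ SS ν φ q (32 * r) := le_sn2 hexp hx
    have h6 : |φ x| = Real.exp ((conj ν * x).re) * |cj ν φ x| := by
      unfold cj
      rw [abs_mul, abs_of_pos (Real.exp_pos _), ← mul_assoc, ← Real.exp_add]
      simp
    rw [h6]
    have h1 := re_conj_le ν x q
    have h7 : ‖ν‖ * ‖x - q‖ ≤ ‖ν‖ * (32 * r) := by
      refine mul_le_mul_of_nonneg_left ?_ (norm_nonneg _)
      rwa [mem_closedBall, dist_eq_norm] at hx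
    exact mul_le_mul (Real.exp_le_exp.2 (by linarith)) h5 (abs_nonneg _) (Real.exp_pos _).le
  have h5 : sn φ (closedBall q (32 * r)) ≤
      Real.exp (n + 34 * ‖ν‖ * r) * sn φ (closedBall q (2 * r)) := by
    calc _ ≤ _ := h4
      _ ≤ Real.exp (u + 32 * (‖ν‖ * r)) * (Real.exp n *
          (Real.exp (-u + 2 * (‖ν‖ * r)) * sn φ (closedBall q (2 * r)))) :=
        mul_le_mul_of_nonneg_left (h.trans (mul_le_mul_of_nonneg_left h3 (Real.exp_pos _).le))
          (Real.exp_pos _).le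
      _ = (Real.exp (u + 32 * (‖ν‖ * r)) * Real.exp n * Real.exp (-u + 2 * (‖ν‖ * r))) *
          sn φ (closedBall q (2 * r)) := by ring
      _ = _ := by
        rw [← Real.exp_add, ← Real.exp_add]
        congr 2
        ring
  unfold gr
  have h6 : sn φ (closedBall q (32 * r)) / sn φ (closedBall q (2 * r)) ≤ Real.exp (n + 34 * ‖ν‖ * r) := by
    rwa [div_le_iff₀ h2]
  have h7 := Real.log_le_log (div_pos h32 h2) h6
  rwa [Real.log_exp] at h7

theorem tz2 (h : Y7) : Z2 := by
  obtain ⟨C₇, hC₇, H7⟩ := h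
  refine ⟨max C₇ 2, le_max_of_le_left hC₇, fun M hM L hL => ?_⟩
  have hM7 : C₇ ≤ M := (le_max_left _ _).trans hM
  have hM2 : (2 : ℝ) ≤ M := (le_max_right _ _).trans hM
  have hM0 : (0 : ℝ) < M := by linarith
  have hMn : 0 < M := by exact_mod_cast hM0
  obtain ⟨T, hT, H⟩ := H7 M hM7 L hL
  refine ⟨T, hT, ?_⟩
  intro lam s N p ρ φ hloc hTN hgr
  set C : ℝ := max C₇ 2 with hCdef
  have hCC : C₇ ≤ C := le_max_left _ _
  have hs := hloc.s_pos
  have hsl : 0 ≤ Real.sqrt lam * s := mul_nonneg (Real.sqrt_nonneg _) hs.le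
  have hN0 : 0 ≤ N := by nlinarith
  have hlog : 0 ≤ Real.log M := Real.log_nonneg (by linarith)
  have hlogM : 1 + Real.log M ≤ M := by
    have := Real.log_le_sub_one_of_pos hM0
    linarith
  obtain ⟨B, hB0, hB⟩ := loc_bd hloc
  have hposp : 0 < sn φ (closedBall p (2 * s)) :=
    hloc.pos p (2 * s) (by linarith) (closedBall_subset_closedBall (by linarith))
  have hposP : 0 < sn φ (closedBall p (32 * s)) := hloc.pos p (32 * s) (by linarith) subset_rfl
  have hstart : sn φ (closedBall p (32 * s)) ≤ Real.exp N * sn φ (closedBall p (2 * s)) := by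
    rw [← div_le_iff₀ hposp]
    have h1 := Real.exp_le_exp.2 hgr
    unfold gr at h1
    rwa [Real.exp_log (div_pos hposP hposp)] at h1
  obtain ⟨H1, ν, n, H2, H3, H4⟩ := H lam s N p ρ φ hloc hTN hstart
  set r : ℝ := s / M with hr
  have hr0 : 0 < r := div_pos hs hM0
  have hrs : 2 * r ≤ s := by
    rw [hr, ← mul_div_assoc, div_le_iff₀ hM0]
    nlinarith
  have hsq2 : Real.sqrt 2 ≤ 2 := by
    rw [show (2 : ℝ) = Real.sqrt 4 by
      rw [show (4 : ℝ) = 2 ^ 2 by norm_num]; exact (Real.sqrt_sq (by norm_num)).symm]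
    exact Real.sqrt_le_sqrt (by
      rw [show (4 : ℝ) = 2 ^ 2 by norm_num, Real.sqrt_sq (by norm_num)]; norm_num)
  have hcn : ∀ c ∈ gd M, ‖(s : ℂ) * ct M c‖ ≤ 2 * s := by
    intro c hc
    rw [norm_mul, Complex.norm_real, Real.norm_of_nonneg hs.le]
    have := (ct_norm hc).trans hsq2
    nlinarith
  have hcin : ∀ c ∈ gd M, p + s * ct M c ∈ closedBall p (2 * s) := by
    intro c hc
    rw [mem_closedBall, dist_eq_norm]
    have e : p + s * ct M c - p = s * ct M c := by ring
    rw [e]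
    exact hcn c hc
  have hcsub : ∀ c ∈ gd M, closedBall (p + s * ct M c) (32 * r) ⊆ closedBall p (32 * s) := by
    intro c hc
    refine closedBall_subset_closedBall' ?_
    have := hcin c hc
    rw [mem_closedBall] at this
    linarith
  have hcpos : ∀ c ∈ gd M, ∀ t, 0 < t → t ≤ 32 * r → 0 < sn φ (closedBall (p + s * ct M c) t) := by
    intro c hc t ht ht'
    exact hloc.pos _ t ht ((closedBall_subset_closedBall ht').trans (hcsub c hc))
  have hCN : C₇ * (1 + Real.log M) * N ≤ C * (1 + Real.log M) * N := by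
    have : 0 ≤ (1 + Real.log M) * N := by positivity
    nlinarith
  have hsingle : ∀ c ∈ gd M, gr φ (p + s * ct M c) r ≤ n c + 34 * ‖ν c‖ * r := by
    intro c hc
    exact gr_le hr0 (fun x hx => hB x (hcsub c hc hx)) (hcpos c hc _ (by linarith) (by linarith))
      (hcpos c hc _ (by linarith) le_rfl) (H2 c hc).2
  have hsum : ∀ S ⊆ gd M, ∑ c ∈ S, n c ≤ C * (1 + Real.log M) * N := by
    intro S hS
    exact ((Finset.sum_le_sum_of_subset_of_nonneg hS fun c hc _ => (H2 c hc).1).trans H3).trans hCN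
  refine ⟨?_, ?_, ?_, ?_⟩
  · intro z hz
    refine (H1 z hz).trans (mul_le_mul_of_nonneg_right (Real.exp_le_exp.2 hCN) (sn_nonneg2 _ _))
  · intro c hc
    have h1 := H1 _ (hcin c hc)
    have h2 : sn φ (closedBall (p + s * ct M c) (32 * r)) ≤ sn φ (closedBall p (32 * s)) :=
      sn_le2 (sn_nonneg2 _ _) fun x hx => le_sn2 hB (hcsub c hc hx)
    have h3 : sn φ (closedBall (p + s * ct M c) r) ≤ sn φ (closedBall (p + s * ct M c) (2 * r)) :=
      sn_le2 (sn_nonneg2 _ _) fun x hx =>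
        le_sn2 (fun y hy => hB y (hcsub c hc (closedBall_subset_closedBall (by linarith) hy)))
          (closedBall_subset_closedBall (by linarith) hx)
    have hp2 := hcpos c hc (2 * r) (by linarith) (by linarith)
    have hp32 := hcpos c hc (32 * r) (by linarith) le_rfl
    have h4 : sn φ (closedBall (p + s * ct M c) (32 * r)) / sn φ (closedBall (p + s * ct M c) (2 * r)) ≤
        Real.exp (C₇ * (1 + Real.log M) * N) := by
      rw [div_le_iff₀ hp2]
      exact (h2.trans h1).trans (mul_le_mul_of_nonneg_left h3 (Real.exp_pos _).le)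
    have h5 := Real.log_le_log (div_pos hp32 hp2) h4
    rw [Real.log_exp] at h5
    exact h5.trans hCN
  · have h1 : ∑ c ∈ gd M, gr φ (p + s * ct M c) r ≤ ∑ c ∈ gd M, (n c + 34 * ‖ν c‖ * r) :=
      Finset.sum_le_sum hsingle
    have h2 : ∑ c ∈ gd M, (n c + 34 * ‖ν c‖ * r) = ∑ c ∈ gd M, n c + 34 * r * ∑ c ∈ gd M, ‖ν c‖ := by
      rw [Finset.sum_add_distrib, Finset.mul_sum]
      congr 1
      exact Finset.sum_congr rfl fun c _ => by ring
    have h3 : 34 * r * ∑ c ∈ gd M, ‖ν c‖ ≤ 34 * r * (C₇ * M ^ 2 * (N / s)) :=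
      mul_le_mul_of_nonneg_left H4 (by positivity)
    have h4 : 34 * r * (C₇ * M ^ 2 * (N / s)) = 34 * C₇ * M * N := by
      rw [hr]
      field_simp
    have h5 : C₇ * (1 + Real.log M) * N ≤ C₇ * M * N := by
      have : 0 ≤ C₇ * N := by positivity
      nlinarith
    have h6 : C₇ * M * N ≤ C * M * N := by
      have : 0 ≤ M * N := by positivity
      nlinarith
    nlinarith
  · intro ε H₀ hε hε1 hH₀ S hS hSc
    have h1 : ∀ c ∈ S, gr φ (p + s * ct M c) r ≤ (2 + 34 / ε) * n c := by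
      intro c hc
      have hcg := hS hc
      obtain ⟨hg1, hg2⟩ := hSc c hc
      have hs1 := hsingle c hcg
      obtain ⟨hn0, hn1⟩ := H2 c hcg
      have hd : 0 ≤ 34 / ε * n c := by positivity
      rcases le_or_gt H₀ ‖ν c‖ with hν | hν
      · have h2 := (hg2 (ν c) hν).trans_le hn1
        have h3 : 0 ≤ SS (ν c) φ (p + s * ct M c) (2 * r) := sn_nonneg2 _ _
        have h4 : Real.exp (ε * (‖ν c‖ * r)) < Real.exp (n c) := lt_of_mul_lt_mul_right h2 h3
        have h5 : ε * (‖ν c‖ * r) < n c := Real.exp_lt_exp.1 h4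
        have h6 : 34 * ‖ν c‖ * r ≤ 34 / ε * n c := by
          have h7 : ‖ν c‖ * r ≤ n c / ε := by
            rw [le_div_iff₀ hε]
            linarith
          have e : 34 / ε * n c = 34 * (n c / ε) := by ring
          rw [e]
          linarith
        linarith
      · have h2 : 34 * ‖ν c‖ * r ≤ 34 * H₀ * r := by
          have : ‖ν c‖ * r ≤ H₀ * r := mul_le_mul_of_nonneg_right hν.le hr0.le
          linarith
        linarith
    calc ∑ c ∈ S, gr φ (p + s * ct M c) r ≤ ∑ c ∈ S, (2 + 34 / ε) * n c := Finset.sum_le_sum h1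
      _ = (2 + 34 / ε) * ∑ c ∈ S, n c := (Finset.mul_sum _ _ _).symm
      _ ≤ _ := mul_le_mul_of_nonneg_left (hsum S hS) (by positivity)

end Pool.Agent.Q73.AD
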