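import Pool.Agent.Q73.AD.StmZ
import Pool.Agent.Q73.AD.YK0

/-!
# A point near a square far from the boundary is in a small square
-/

set_option autoImplicit false

namespace Pool.Agent.Q73.AD

lemma z3_one (M m L β : ℕ) (t : ℝ) (hM : 2 ≤ M) (hm : 0 < m) (hL : 0 < L) (h1 : 5 * M ≤ β)
    (h2 : β + 5 * M < m) (h3 : |t - (-1 + (2 * (β : ℝ) + 1) / m)| ≤ 8 * M / m) :
    ∃ γ : ℕ, γ < m * L ∧
      |t - (-1 + (2 * (γ : ℝ) + 1) / ((m * L : ℕ) : ℝ))| ≤ 1 / ((m * L : ℕ) : ℝ) ∧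
      |((γ / L : ℕ) : ℤ) - β| ≤ 5 * M := by
  have hm' : (0 : ℝ) < m := by exact_mod_cast hm
  have hL' : (0 : ℝ) < L := by exact_mod_cast hL
  have hM' : (2 : ℝ) ≤ M := by exact_mod_cast hM
  have h1' : 5 * (M : ℝ) ≤ β := by exact_mod_cast h1
  have h2' : (β : ℝ) + 5 * M < m := by exact_mod_cast h2
  obtain ⟨a1, a2⟩ := abs_le.1 h3
  have b1 : (β : ℝ) + 1 / 2 - 4 * M ≤ m * (t + 1) / 2 := by
    have e1 := mul_le_mul_of_nonneg_left a1 hm'.le
    have e2 : (m : ℝ) * (-(8 * M / m)) = -(8 * M) := by field_simp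
    have e3 : (m : ℝ) * (t - (-1 + (2 * (β : ℝ) + 1) / m)) = m * (t + 1) - (2 * β + 1) := by
      field_simp
      ring
    rw [e2, e3] at e1
    linarith
  have b2 : (m : ℝ) * (t + 1) / 2 ≤ β + 1 / 2 + 4 * M := by
    have e1 := mul_le_mul_of_nonneg_left a2 hm'.le
    have e2 : (m : ℝ) * (8 * M / m) = 8 * M := by field_simp
    have e3 : (m : ℝ) * (t - (-1 + (2 * (β : ℝ) + 1) / m)) = m * (t + 1) - (2 * β + 1) := by
      field_simp
      ring
    rw [e2, e3] at e1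
    linarith
  set X : ℝ := L * (m * (t + 1) / 2) with hX
  have c1 : L * ((β : ℝ) + 1 / 2 - 4 * M) ≤ X := mul_le_mul_of_nonneg_left b1 hL'.le
  have c2 : X ≤ L * ((β : ℝ) + 1 / 2 + 4 * M) := mul_le_mul_of_nonneg_left b2 hL'.le
  have c0 : 0 ≤ X := le_trans (mul_nonneg hL'.le (by linarith)) c1
  have c3 : X < ((m * L : ℕ) : ℝ) := by
    refine c2.trans_lt ?_
    push_cast
    rw [mul_comm (m : ℝ)]
    exact mul_lt_mul_of_pos_left (by linarith) hL'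
  have d1 : ((⌊X⌋₊ : ℕ) : ℝ) ≤ X := Nat.floor_le c0
  have d2 : X < (⌊X⌋₊ : ℕ) + 1 := Nat.lt_floor_add_one X
  refine ⟨⌊X⌋₊, ?_, ?_, ?_⟩
  · have : ((⌊X⌋₊ : ℕ) : ℝ) < ((m * L : ℕ) : ℝ) := d1.trans_lt c3
    exact_mod_cast this
  · have hn : (0 : ℝ) < ((m * L : ℕ) : ℝ) := by
      push_cast
      positivity
    have e1 : t - (-1 + (2 * ((⌊X⌋₊ : ℕ) : ℝ) + 1) / ((m * L : ℕ) : ℝ)) =
        (2 * (X - (⌊X⌋₊ : ℕ)) - 1) / ((m * L : ℕ) : ℝ) := by
      rw [hX]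
      push_cast
      field_simp
      ring
    rw [e1, abs_div, abs_of_pos hn]
    refine div_le_div_of_nonneg_right ?_ hn.le
    rw [abs_le]
    constructor <;> linarith
  · set q := ⌊X⌋₊ / L with hq
    have e1 : q * L ≤ ⌊X⌋₊ := Nat.div_mul_le_self _ _
    have e2 : ⌊X⌋₊ + 1 ≤ (q + 1) * L := by
      have := Nat.lt_mul_div_succ ⌊X⌋₊ hL
      rw [← hq, mul_comm] at this
      exact this
    have e1' : (q : ℝ) * L ≤ (⌊X⌋₊ : ℕ) := by exact_mod_cast e1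
    have e2' : ((⌊X⌋₊ : ℕ) : ℝ) + 1 ≤ (q + 1) * L := by exact_mod_cast e2
    have f1 : (q : ℝ) ≤ β + 1 / 2 + 4 * M := by
      have : (q : ℝ) * L ≤ (β + 1 / 2 + 4 * M) * L := by linarith
      exact le_of_mul_le_mul_right this hL'
    have f2 : (β : ℝ) + 1 / 2 - 4 * M ≤ q + 1 := by
      have : ((β : ℝ) + 1 / 2 - 4 * M) * L ≤ (q + 1) * L := by linarith
      exact le_of_mul_le_mul_right this hL'
    have g : |((q : ℤ) : ℝ) - ((β : ℤ) : ℝ)| ≤ ((5 * M : ℤ) : ℝ) := by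
      push_cast
      rw [abs_le]
      constructor <;> linarith
    exact_mod_cast g

theorem tz3 : Z3 := by
  intro M i l₁ s p y b hM hs hb h1 h2 h3 h4 h5
  have hMr : (0 : ℝ) < M := by
    have : 0 < M := by omega
    exact_mod_cast this
  have hm : 0 < M ^ (i + 1) := by positivity
  have hL : 0 < M ^ l₁ := by positivity
  have hcast : (8 : ℝ) * M / ((M ^ (i + 1) : ℕ) : ℝ) = 8 / M ^ i := by
    push_cast
    rw [pow_succ]
    field_simp
  have hre : |(y - p).re / s - (-1 + (2 * (b.1 : ℝ) + 1) / ((M ^ (i + 1) : ℕ) : ℝ))| ≤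
      8 * M / ((M ^ (i + 1) : ℕ) : ℝ) := by
    have e1 := (Complex.abs_re_le_norm _).trans h5
    have e2 : (y - (p + s * ct (M ^ (i + 1)) b)).re =
        s * ((y - p).re / s - (-1 + (2 * (b.1 : ℝ) + 1) / ((M ^ (i + 1) : ℕ) : ℝ))) := by
      simp only [ct, Complex.sub_re, Complex.add_re, Complex.re_ofReal_mul]
      field_simp
      ring
    rw [e2, abs_mul, abs_of_pos hs] at e1
    rw [hcast]
    have e3 : 8 * (s / (M : ℝ) ^ i) = s * (8 / M ^ i) := by ring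
    rw [e3] at e1
    exact le_of_mul_le_mul_left e1 hs
  have him : |(y - p).im / s - (-1 + (2 * (b.2 : ℝ) + 1) / ((M ^ (i + 1) : ℕ) : ℝ))| ≤
      8 * M / ((M ^ (i + 1) : ℕ) : ℝ) := by
    have e1 := (Complex.abs_im_le_norm _).trans h5
    have e2 : (y - (p + s * ct (M ^ (i + 1)) b)).im =
        s * ((y - p).im / s - (-1 + (2 * (b.2 : ℝ) + 1) / ((M ^ (i + 1) : ℕ) : ℝ))) := by
      simp only [ct, Complex.sub_im, Complex.add_im, Complex.im_ofReal_mul]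
      field_simp
      ring
    rw [e2, abs_mul, abs_of_pos hs] at e1
    rw [hcast]
    have e3 : 8 * (s / (M : ℝ) ^ i) = s * (8 / M ^ i) := by ring
    rw [e3] at e1
    exact le_of_mul_le_mul_left e1 hs
  obtain ⟨γ, a1, a2, a3⟩ := z3_one M (M ^ (i + 1)) (M ^ l₁) b.1 _ hM hm hL h1 h2 hre
  obtain ⟨γ', a1', a2', a3'⟩ := z3_one M (M ^ (i + 1)) (M ^ l₁) b.2 _ hM hm hL h3 h4 him
  rw [← pow_add] at a1 a2 a1' a2'
  have hn : (0 : ℝ) < ((M ^ (i + 1 + l₁) : ℕ) : ℝ) := by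
    push_cast
    positivity
  refine ⟨(γ, γ'), ?_, ?_, a3, a3'⟩
  · rw [mem_gd]
    exact ⟨a1, a1'⟩
  · refine (Complex.norm_le_abs_re_add_abs_im _).trans ?_
    have e2 : (y - (p + s * ct (M ^ (i + 1 + l₁)) (γ, γ'))).re =
        s * ((y - p).re / s - (-1 + (2 * (γ : ℝ) + 1) / ((M ^ (i + 1 + l₁) : ℕ) : ℝ))) := by
      simp only [ct, Complex.sub_re, Complex.add_re, Complex.re_ofReal_mul]
      field_simp
      ring
    have e3 : (y - (p + s * ct (M ^ (i + 1 + l₁)) (γ, γ'))).im =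
        s * ((y - p).im / s - (-1 + (2 * (γ' : ℝ) + 1) / ((M ^ (i + 1 + l₁) : ℕ) : ℝ))) := by
      simp only [ct, Complex.sub_im, Complex.add_im, Complex.im_ofReal_mul]
      field_simp
      ring
    rw [e2, e3, abs_mul, abs_mul, abs_of_pos hs]
    have f1 := mul_le_mul_of_nonneg_left a2 hs.le
    have f2 := mul_le_mul_of_nonneg_left a2' hs.le
    have f3 : 2 * (s / (M : ℝ) ^ (i + 1 + l₁)) =
        s * (1 / ((M ^ (i + 1 + l₁) : ℕ) : ℝ)) + s * (1 / ((M ^ (i + 1 + l₁) : ℕ) : ℝ)) := by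
      push_cast
      ring
    rw [f3]
    exact add_le_add f1 f2

end Pool.Agent.Q73.AD
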