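import Pool.Agent.Q73.AD.StmG

/-!
# G4: the average doubling index on a closed surface, from G1, G2, G3 (helper121)
-/

set_option autoImplicit false
open MeasureTheory Filter Topology Complex Metric
open scoped ContDiff

namespace Pool.Agent.Q73.AD

namespace TG4

universe u v

theorem sn_mono {X : Type*} {f : X → ℝ} {E F : Set X} (h : E ⊆ F) (hE : E.Nonempty)
    (hb : BddAbove ((fun x => |f x|) '' Set.univ)) : sn f E ≤ sn f F := by
  unfold sn
  exact csSup_le_csSup (hb.mono (Set.image_mono (Set.subset_univ _))) (hE.image _) (Set.image_mono h)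

theorem le_sn {X : Type*} {f : X → ℝ} (hb : BddAbove ((fun x => |f x|) '' Set.univ)) (x : X) :
    |f x| ≤ sn f Set.univ := by
  unfold sn
  exact le_csSup hb ⟨x, trivial, rfl⟩

theorem cont {M : Type u} {ι : Type v} [MetricSpace M] {U : ι → Set ℂ} {φ : ι → ℂ → M}
    {ρ : ι → ℂ → ℝ} (hA : Atl U φ ρ) {lam : ℝ} {f : M → ℝ} (hf : Eig U φ ρ lam f) : Continuous f := by
  rw [continuous_iff_continuousAt]
  intro x
  obtain ⟨i, z, hz, rfl⟩ := hA.cover x
  rw [ContinuousAt]
  intro N hN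
  obtain ⟨O, hON, hO, hzO⟩ := _root_.mem_nhds_iff.1 hN
  have hc : ContinuousOn (fun z => f (φ i z)) (U i) := (hf i).1.continuousOn
  have hS : IsOpen (U i ∩ (fun z => f (φ i z)) ⁻¹' O) := hc.isOpen_inter_preimage (hA.dom i) hO
  have h1 := hA.opn i _ hS Set.inter_subset_left
  refine mem_map.2 (mem_of_superset (h1.mem_nhds ⟨z, ⟨hz, hzO⟩, rfl⟩) ?_)
  rintro y ⟨w, ⟨-, hw⟩, rfl⟩
  exact hON hw

theorem le_sum_of {n : ℕ} (f : Fin n → ℝ) (h : ∀ a, 0 < f a) (a : Fin n) : f a ≤ 1 + ∑ a, f a := by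
  have := Finset.single_le_sum (f := f) (fun a _ => (h a).le) (Finset.mem_univ a)
  linarith

theorem dbl_le {M : Type u} [MetricSpace M] {f : M → ℝ} (hb : BddAbove ((fun x => |f x|) '' Set.univ))
    {x : M} {r r' E : ℝ} (hr' : 0 < r') (hrr : r' ≤ r) (hpos : ∀ r, 0 < r → 0 < sn f (ball x r))
    (h : sn f Set.univ ≤ Real.exp E * sn f (ball x r')) : dbl f x r ≤ E / Real.log 2 := by
  have hr : 0 < r := hr'.trans_le hrr
  have h1 : sn f (ball x (2 * r)) ≤ sn f Set.univ := sn_mono (Set.subset_univ _) ⟨x, mem_ball_self (by linarith)⟩ hb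
  have h2 : sn f (ball x r') ≤ sn f (ball x r) := sn_mono (ball_subset_ball hrr) ⟨x, mem_ball_self hr'⟩ hb
  have h3 : sn f (ball x (2 * r)) / sn f (ball x r) ≤ Real.exp E := by
    rw [div_le_iff₀ (hpos r hr)]
    exact h1.trans (h.trans (mul_le_mul_of_nonneg_left h2 (Real.exp_pos _).le))
  unfold dbl
  rw [Real.logb]
  apply div_le_div_of_nonneg_right _ (Real.log_pos (by norm_num)).le
  rw [Real.log_le_iff_le_exp (div_pos (hpos _ (by linarith)) (hpos _ hr))]
  exact h3

end TG4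

open TG4

/-- G4 -/
theorem tg4.{u, v} (h1 : G1.{u, v}) (h2 : G2.{u, v}) (h3 : G3.{u}) : G4.{u, v} := by
  classical
  intro M ι _ _ _ U φ ρ hA C C₁ C₂ ε hC hC₁ hC₂ hε
  obtain ⟨n, i, z, R, c, L, δ, hG, hcov⟩ := h2 M ι U φ ρ hA
  choose r₀ hr₀ h3' using fun a => h3 M (φ (i a)) (ρ (i a)) (U (i a)) (z a) (R a) c L δ C C₁ ε (hG a) hC hC₁ hε
  choose Cg hCg hgr using fun a => h1 M ι U φ ρ hA (r₀ a) (hr₀ a)
  choose A hA0 lam₀ hlam₀ hfin using fun a => h3' a (Cg a) (hCg a)
  obtain ⟨Λ, hΛ⟩ : ∃ Λ : ℝ, Λ = 1 + ∑ a, lam₀ a := ⟨_, rfl⟩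
  have hΛ0 : 0 < Λ := by
    rw [hΛ]
    have := Finset.sum_nonneg fun a (_ : a ∈ Finset.univ) => (hlam₀ a).le
    linarith
  have hsΛ : 0 < √Λ := Real.sqrt_pos.2 hΛ0
  obtain ⟨Cg', hCg', hgr'⟩ := h1 M ι U φ ρ hA (C / √Λ) (by positivity)
  have hAs : 0 ≤ ∑ a, A a := Finset.sum_nonneg fun a _ => (hA0 a).le
  have hlog : 0 < Real.log 2 := Real.log_pos (by norm_num)
  refine ⟨C₂ * (∑ a, A a) + Cg' * (1 + √Λ) / Real.log 2 + 1, by positivity, ?_⟩
  intro lam f κ _ b hlam hf hne hnc hcard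
  have hb : BddAbove ((fun x => |f x|) '' Set.univ) :=
    isCompact_univ.bddAbove_image (cont hA hf).abs.continuousOn
  have hpos : ∀ (x : M) (r : ℝ), 0 < r → 0 < sn f (ball x r) := by
    intro x r hr
    obtain ⟨Cr, -, hgrr⟩ := h1 M ι U φ ρ hA r hr
    obtain ⟨x₀, hx₀⟩ := hne
    have h4 := (abs_pos.2 hx₀).trans_le ((le_sn hb x₀).trans (hgrr lam f hlam.le hf x))
    exact (mul_pos_iff_of_pos_left (Real.exp_pos _)).1 h4
  have hcardp : (0 : ℝ) < Fintype.card κ := lt_of_lt_of_le (by positivity) hcard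
  have hrp : 1 ≤ (1 + lam) ^ ε := Real.one_le_rpow (by linarith) hε.le
  have hsl : 0 < √lam := Real.sqrt_pos.2 hlam
  rcases le_or_gt Λ lam with hcase | hcase
  · -- large eigenvalues
    choose asg hasg using fun j => hcov (b j)
    have hpart : ∀ a : Fin n, ∑ j : {j : κ // asg j = a}, dbl f (b j) (C / √lam) ≤ A a * lam ^ (1 + ε) := by
      intro a
      apply hfin a lam f {j : κ // asg j = a} (fun j => b j)
      · refine le_trans ?_ hcase
        rw [hΛ]
        exact le_sum_of lam₀ hlam₀ a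
      · exact (hf (i a)).1
      · exact (hf (i a)).2
      · exact hb
      · exact hpos
      · exact fun x => hgr a lam f hlam.le hf x
      · intro x
        refine le_trans ?_ (hnc x)
        have h5 : Set.ncard {j : {j : κ // asg j = a} | x ∈ ball (b j) (C / √lam)} ≤
            Set.ncard {j : κ | x ∈ ball (b j) (C / √lam)} := by
          rw [← Set.ncard_image_of_injective _ (Subtype.val_injective (p := fun j : κ => asg j = a))]
          apply Set.ncard_le_ncard _ (Set.toFinite _)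
          rintro y ⟨w, hw, rfl⟩
          exact hw
        exact_mod_cast h5
      · rintro ⟨j, hj⟩
        have := hasg j
        rw [hj] at this
        exact this
    have hsum : ∑ j, dbl f (b j) (C / √lam) ≤ (∑ a, A a) * lam ^ (1 + ε) := by
      rw [← Finset.sum_fiberwise Finset.univ asg, Finset.sum_mul]
      refine Finset.sum_le_sum fun a _ => ?_
      refine le_trans (le_of_eq ?_) (hpart a)
      rw [Finset.sum_subtype (Finset.univ.filter fun j => asg j = a) (p := fun j => asg j = a) (by simp)]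
    rw [div_le_iff₀ hcardp]
    have hle : lam ^ ε ≤ (1 + lam) ^ ε := Real.rpow_le_rpow hlam.le (by linarith) hε.le
    have hl0 : 0 < lam ^ ε := Real.rpow_pos_of_pos hlam ε
    calc ∑ j, dbl f (b j) (C / √lam) ≤ (∑ a, A a) * lam ^ (1 + ε) := hsum
      _ = (C₂ * ∑ a, A a) * lam ^ ε * (C₂⁻¹ * lam) := by
          rw [Real.rpow_add hlam, Real.rpow_one]
          field_simp
      _ ≤ (C₂ * (∑ a, A a) + Cg' * (1 + √Λ) / Real.log 2 + 1) * (1 + lam) ^ ε * Fintype.card κ := by
          have h6 : 0 ≤ Cg' * (1 + √Λ) / Real.log 2 := by positivity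
          gcongr
          linarith
  · -- small eigenvalues
    have hd : ∀ j, dbl f (b j) (C / √lam) ≤ Cg' * (1 + √Λ) / Real.log 2 := by
      intro j
      apply dbl_le hb (r' := C / √Λ) (by positivity)
        (div_le_div_of_nonneg_left hC.le hsl (Real.sqrt_le_sqrt hcase.le)) (hpos (b j))
      refine (hgr' lam f hlam.le hf (b j)).trans ?_
      apply mul_le_mul_of_nonneg_right _ (hpos (b j) _ (by positivity)).le
      apply Real.exp_le_exp.2
      apply mul_le_mul_of_nonneg_left _ hCg'.le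
      have := Real.sqrt_le_sqrt hcase.le
      linarith
    have hsum : ∑ j, dbl f (b j) (C / √lam) ≤ Fintype.card κ * (Cg' * (1 + √Λ) / Real.log 2) := by
      refine (Finset.sum_le_card_nsmul _ _ _ fun j _ => hd j).trans ?_
      rw [nsmul_eq_mul, Finset.card_univ]
    rw [div_le_iff₀ hcardp]
    refine hsum.trans ?_
    rw [mul_comm]
    apply mul_le_mul_of_nonneg_right _ hcardp.le
    have h6 : 0 ≤ Cg' * (1 + √Λ) / Real.log 2 := by positivity
    have h7 : 0 ≤ C₂ * ∑ a, A a := by positivity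
    calc Cg' * (1 + √Λ) / Real.log 2 ≤ (C₂ * (∑ a, A a) + Cg' * (1 + √Λ) / Real.log 2 + 1) * 1 := by linarith
      _ ≤ _ := mul_le_mul_of_nonneg_left hrp (by linarith)

end Pool.Agent.Q73.AD
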