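import Pool.Agent.Q73.AD.StmZ
import Pool.Agent.Q73.AD.YY0
import Pool.Agent.Q73.AD.TG3

/-!
# Z6: from squares to small discs, from Z1 and Z2 (helper178)
-/

set_option autoImplicit false
open MeasureTheory Filter Topology Complex Metric
open scoped ContDiff

namespace Pool.Agent.Q73.AD

namespace TZ6

open Pool.Agent.Q73.NL

/-- the position of a point in the square -/
lemma pos_ct {n : ℕ} (hn : 0 < n) {s : ℝ} (hs : 0 < s) {p w : ℂ} (h1 : |(w - p).re| ≤ s)
    (h2 : |(w - p).im| ≤ s) : ∃ b ∈ gd n, ‖w - (p + s * ct n b)‖ ≤ 2 * (s / n) := by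
  have hn0 : (0 : ℝ) < n := by exact_mod_cast hn
  have hsc : ∀ t : ℝ, |t| ≤ s → |t / s| ≤ 1 := fun t ht => by
    rw [abs_div, abs_of_pos hs, div_le_one hs]; exact ht
  obtain ⟨k1, hk1⟩ := sub1 hn (hsc _ h1)
  obtain ⟨k2, hk2⟩ := sub1 hn (hsc _ h2)
  refine ⟨((k1 : ℕ), (k2 : ℕ)), mem_gd.2 ⟨k1.2, k2.2⟩, ?_⟩
  refine (Complex.norm_le_abs_re_add_abs_im _).trans ?_
  have e1 : (w - (p + s * ct n ((k1 : ℕ), (k2 : ℕ)))).re =
      s * ((w - p).re / s - (-1 + (2 * ((k1 : ℕ) : ℝ) + 1) / n)) := by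
    simp only [ct, Complex.sub_re, Complex.add_re, Complex.mul_re, Complex.ofReal_re, Complex.ofReal_im]
    field_simp
    ring
  have e2 : (w - (p + s * ct n ((k1 : ℕ), (k2 : ℕ)))).im =
      s * ((w - p).im / s - (-1 + (2 * ((k2 : ℕ) : ℝ) + 1) / n)) := by
    simp only [ct, Complex.sub_im, Complex.add_im, Complex.mul_im, Complex.ofReal_re, Complex.ofReal_im]
    field_simp
    ring
  rw [e1, e2, abs_mul, abs_mul, abs_of_pos hs]
  have h3 := mul_le_mul_of_nonneg_left hk1 hs.le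
  have h4 := mul_le_mul_of_nonneg_left hk2 hs.le
  have e3 : s * (1 / (n : ℝ)) = s / n := by ring
  rw [e3] at h3 h4
  linarith

/-- the disc around a subsquare is in the large disc -/
lemma sub_ct {n : ℕ} {b : ℕ × ℕ} (hb : b ∈ gd n) {s : ℝ} (hs : 0 < s) (p : ℂ) :
    closedBall (p + s * ct n b) (32 * (s / n)) ⊆ closedBall p (32 * s) := by
  obtain ⟨h1, h2⟩ := ct_abs hb
  have hn : (0 : ℝ) < n := by
    rw [mem_gd] at hb
    have : 0 < n := by omega
    exact_mod_cast this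
  have hn1 : (1 : ℝ) ≤ n := by
    rw [mem_gd] at hb
    have : 1 ≤ n := by omega
    exact_mod_cast this
  refine closedBall_subset_closedBall' ?_
  rw [dist_eq_norm]
  have e : p + s * ct n b - p = s * ct n b := by ring
  rw [e, norm_mul, Complex.norm_of_nonneg hs.le]
  have h3 : ‖ct n b‖ ≤ 2 * (1 - 1 / n) := by
    refine (Complex.norm_le_abs_re_add_abs_im _).trans ?_
    linarith
  have h4 : (1 : ℝ) / n ≤ 1 := by
    rw [div_le_one hn]; exact hn1
  have e2 : 32 * (s / n) = s * (32 * (1 / n)) := by ring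
  rw [e2, ← mul_add]
  calc s * (32 * (1 / n) + ‖ct n b‖) ≤ s * 32 := by
        apply mul_le_mul_of_nonneg_left _ hs.le
        linarith
    _ = 32 * s := by ring

lemma loc_sub {lam L s : ℝ} {p : ℂ} {ρ φ : ℂ → ℝ} (h : Loc lam L s p ρ φ) {n : ℕ} {b : ℕ × ℕ}
    (hb : b ∈ gd n) : Loc lam L (s / n) (p + s * ct n b) ρ φ := by
  have hn : (0 : ℝ) < n := by
    rw [mem_gd] at hb
    have : 0 < n := by omega
    exact_mod_cast this
  have hn1 : (1 : ℝ) ≤ n := by
    rw [mem_gd] at hb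
    have : 1 ≤ n := by omega
    exact_mod_cast this
  have hs := h.s_pos
  have hsub := sub_ct hb hs p
  refine ⟨h.lam_pos, by positivity, (div_le_self hs.le hn1).trans h.s_le, ?_, ?_⟩
  · exact fun z hz => h.sol z (hsub hz)
  · exact fun z r hr hz => h.pos z r hr (hz.trans hsub)

lemma loc_bd {lam L s : ℝ} {p : ℂ} {ρ φ : ℂ → ℝ} (h : Loc lam L s p ρ φ) :
    ∃ B : ℝ, ∀ z ∈ closedBall p (32 * s), |φ z| ≤ B := by
  have hc : ContinuousOn (fun z => |φ z|) (closedBall p (32 * s)) := by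
    intro z hz
    exact ((h.sol z hz).1.continuousAt.abs).continuousWithinAt
  obtain ⟨B, hB⟩ := (isCompact_closedBall p (32 * s)).bddAbove_image hc
  exact ⟨B, fun z hz => hB ⟨z, hz, rfl⟩⟩

lemma sn_mono' {φ : ℂ → ℝ} {E F : Set ℂ} {B : ℝ} (hB : ∀ z ∈ F, |φ z| ≤ B) (h : E ⊆ F) :
    sn φ E ≤ sn φ F :=
  sn_le2 (sn_nonneg2 _ _) fun _ hx => le_sn2 hB (h hx)

lemma gr_nonneg {lam L s : ℝ} {p : ℂ} {ρ φ : ℂ → ℝ} (h : Loc lam L s p ρ φ) : 0 ≤ gr φ p s := by
  obtain ⟨B, hB⟩ := loc_bd h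
  have hs := h.s_pos
  have h1 : closedBall p (2 * s) ⊆ closedBall p (32 * s) := closedBall_subset_closedBall (by linarith)
  have h2 := h.pos p (2 * s) (by positivity) h1
  unfold gr
  apply Real.log_nonneg
  rw [one_le_div h2]
  exact sn_mono' hB h1

end TZ6

open TZ6

theorem tz6 (h1 : Z1) (h2 : Z2) : Z6 := by
  classical
  obtain ⟨M, s₁, hM2, hs₁, hZ1⟩ := h1
  obtain ⟨C2, hC2, hZ2⟩ := h2
  refine ⟨s₁, hs₁, ?_⟩
  intro s L G₀ r R C₁ hs hss₁ hL hG₀ hr hR hC₁
  obtain ⟨C, A, hC, hA, hZ⟩ := hZ1 L G₀ hL hG₀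
  have hMr : (2 : ℝ) ≤ M := by exact_mod_cast hM2
  have hM0 : (0 : ℝ) < M := by linarith
  obtain ⟨C', hC'⟩ : ∃ C' : ℝ, C' = C + R + r + 1 := ⟨_, rfl⟩
  have hC'0 : 0 < C' := by rw [hC']; positivity
  obtain ⟨m, hm⟩ : ∃ m : ℕ, m = ⌈C2 + 2 * (M * C' / r)⌉₊ + 4 := ⟨_, rfl⟩
  have hm1 : C2 + 2 * (M * C' / r) + 4 ≤ m := by
    rw [hm]; push_cast
    linarith [Nat.le_ceil (C2 + 2 * (M * C' / r))]
  have hq0 : 0 < M * C' / r := by positivity
  have hm4 : (4 : ℝ) ≤ m := by linarith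
  have hmC : C2 ≤ m := by linarith
  have hmr : 2 * (M * C' / r) ≤ m := by linarith
  have hm0 : (0 : ℝ) < m := by linarith
  have hm0' : 0 < m := by exact_mod_cast hm0
  obtain ⟨T, hT, hZ2'⟩ := hZ2 m hmC L hL
  obtain ⟨D, hD⟩ : ∃ D : ℝ, D = C2 * (1 + Real.log m) := ⟨_, rfl⟩
  have hlogm : 0 ≤ Real.log m := Real.log_nonneg (by linarith)
  have hD0 : 0 < D := by rw [hD]; positivity
  refine ⟨C₁ * (m ^ 2 * (D * (A * (M * C') + T * (1 + M * C')))) * (s ^ 2 / C' ^ 2), (C' / s) ^ 2,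
    by positivity, by positivity, ?_⟩
  intro lam p ρ φ κ _ w hlam hloc hgr hw hcard
  have hlam0 : 0 < lam := hloc.lam_pos
  obtain ⟨sl, hsl⟩ : ∃ sl : ℝ, sl = Real.sqrt lam := ⟨_, rfl⟩
  rw [← hsl] at hgr hcard ⊢
  have hsl0 : 0 < sl := by rw [hsl]; exact Real.sqrt_pos.2 hlam0
  have hslsq : sl ^ 2 = lam := by rw [hsl]; exact Real.sq_sqrt hlam0.le
  have hsl2 : C' / s ≤ sl := by rw [hsl]; exact Real.le_sqrt_of_sq_le hlam
  have hx1 : 1 ≤ sl * s / C' := by
    rw [le_div_iff₀ hC'0, one_mul]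
    rw [div_le_iff₀ hs] at hsl2
    exact hsl2
  obtain ⟨J, hJ1, hJ2⟩ := exists_nat_pow_near hx1 (show (1 : ℝ) < M by linarith)
  obtain ⟨n, hn⟩ : ∃ n : ℕ, n = M ^ J := ⟨_, rfl⟩
  have hncast : (n : ℝ) = (M : ℝ) ^ J := by rw [hn]; push_cast; rfl
  have hn0 : 0 < n := by rw [hn]; positivity
  have hn0' : (0 : ℝ) < n := by exact_mod_cast hn0
  obtain ⟨t, ht⟩ : ∃ t : ℝ, t = s / n := ⟨_, rfl⟩
  have ht0 : 0 < t := by rw [ht]; positivity
  have hst : s = n * t := by rw [ht]; field_simp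
  -- the scale
  have hlow : C' ≤ sl * t := by
    rw [le_div_iff₀ hC'0, ← hncast] at hJ1
    rw [ht, mul_div_assoc', le_div_iff₀ hn0']
    linarith
  have hupp : sl * t < M * C' := by
    rw [div_lt_iff₀ hC'0, pow_succ, ← hncast] at hJ2
    rw [ht, mul_div_assoc', div_lt_iff₀ hn0']
    linarith
  have hZa := hZ lam s p ρ φ J hloc hss₁ (by
    rw [← hsl, ← hncast, ← ht]
    refine le_trans ?_ hlow
    rw [hC']; linarith) (by rw [← hsl]; exact hgr)
  rw [← hsl, ← hncast, ← ht, ← hn] at hZa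
  -- positions
  have hRt : R / sl ≤ t := by
    rw [div_le_iff₀ hsl0]
    have : R ≤ C' := by rw [hC']; linarith
    linarith
  have hrt : r / sl ≤ t := by
    rw [div_le_iff₀ hsl0]
    have : r ≤ C' := by rw [hC']; linarith
    linarith
  have htm : 2 * (t / m) ≤ r / sl := by
    rw [le_div_iff₀ hsl0]
    have e : 2 * (t / m) * sl = 2 * (sl * t) / m := by ring
    rw [e, div_le_iff₀ hm0]
    have h5 : 2 * (M * C' / r) * r = 2 * (M * C') := by field_simp
    have h6 := mul_le_mul_of_nonneg_right hmr hr.le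
    rw [h5] at h6
    linarith
  choose b hb hbw using fun i => pos_ct (n := n * m) (by positivity) hs (hw i).1 (hw i).2
  have hbw' : ∀ i, ‖w i - (p + s * ct (n * m) (b i))‖ ≤ 2 * (t / m) := by
    intro i
    refine (hbw i).trans (le_of_eq ?_)
    rw [ht]; push_cast
    field_simp
  have ha : ∀ i, anc m (b i) ∈ gd n := fun i => anc_mem (hb i)
  have hc : ∀ i, md m (b i) ∈ gd m := fun i => md_mem hm0' _
  have hdist : ∀ i, ‖w i - (p + s * ct n (anc m (b i)))‖ ≤ 2 * t := by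
    intro i
    have e0 : ct (n * m) (b i) = ct n (anc m (b i)) + (1 / (n : ℝ) : ℝ) * ct m (md m (b i)) := by
      conv_lhs => rw [← ch_anc_md m (b i)]
      exact ct_ch hn0 hm0' _ _
    have e1 : (w i - (p + s * ct n (anc m (b i)))) =
        (w i - (p + s * ct (n * m) (b i))) + (t : ℂ) * ct m (md m (b i)) := by
      rw [e0, ht]
      push_cast
      ring
    rw [e1]
    refine (norm_add_le _ _).trans ?_
    rw [norm_mul, Complex.norm_of_nonneg ht0.le]
    have h5 := hbw' i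
    have h6 := ct_norm (hc i)
    have h7 : Real.sqrt 2 ≤ 3 / 2 := by
      rw [Real.sqrt_le_left (by norm_num)]; norm_num
    have h8 : t / m ≤ t / 4 := div_le_div_of_nonneg_left ht0.le (by norm_num) hm4
    have h9 : t * ‖ct m (md m (b i))‖ ≤ t * (3 / 2) := mul_le_mul_of_nonneg_left (h6.trans h7) ht0.le
    linarith
  -- the growth exponents of the squares
  obtain ⟨g, hg⟩ : ∃ g : ℕ × ℕ → ℝ, g = fun a => gr φ (p + s * ct n a) t := ⟨_, rfl⟩
  have hloca : ∀ a ∈ gd n, Loc lam L t (p + s * ct n a) ρ φ := by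
    intro a ha'
    rw [ht]
    exact loc_sub hloc ha'
  have hg0 : ∀ a ∈ gd n, 0 ≤ g a := by
    intro a ha'
    rw [hg]
    exact gr_nonneg (hloca a ha')
  have hterm : ∀ i, Real.log (sn φ (closedBall (w i) (R / sl)) / sn φ (closedBall (w i) (r / sl))) ≤
      D * (g (anc m (b i)) + T * (1 + sl * t)) := by
    intro i
    have hl := hloca _ (ha i)
    obtain ⟨B, hB⟩ := loc_bd hl
    have hgi := hg0 _ (ha i)
    have hT0 : 0 ≤ T * (1 + sl * t) := by positivity
    have h5 := (hZ2' lam t (g (anc m (b i)) + T * (1 + sl * t)) (p + s * ct n (anc m (b i))) ρ φ hl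
      (by rw [← hsl]; linarith) (by
        have h6 : g (anc m (b i)) = gr φ (p + s * ct n (anc m (b i))) t := by rw [hg]
        rw [h6]; linarith)).1 (w i)
      (by rw [mem_closedBall, dist_eq_norm]; exact hdist i)
    rw [← hD] at h5
    have hsub1 : closedBall (w i) (R / sl) ⊆ closedBall (p + s * ct n (anc m (b i))) (32 * t) := by
      refine closedBall_subset_closedBall' ?_
      rw [dist_eq_norm]
      linarith [hdist i]
    have hsub2 : closedBall (w i) (r / sl) ⊆ closedBall (p + s * ct n (anc m (b i))) (32 * t) := by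
      refine closedBall_subset_closedBall' ?_
      rw [dist_eq_norm]
      linarith [hdist i]
    have hsub3 : closedBall (w i) (t / m) ⊆ closedBall (w i) (r / sl) := by
      apply closedBall_subset_closedBall
      have : 0 < t / m := by positivity
      linarith
    have hp1 := hl.pos (w i) (R / sl) (by positivity) hsub1
    have hp2 := hl.pos (w i) (r / sl) (by positivity) hsub2
    rw [Real.log_le_iff_le_exp (div_pos hp1 hp2), div_le_iff₀ hp2]
    calc _ ≤ _ := sn_mono' hB hsub1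
      _ ≤ _ := h5
      _ ≤ _ := by
        apply mul_le_mul_of_nonneg_left _ (Real.exp_pos _).le
        exact sn_mono' (fun z hz => hB z (hsub2 hz)) hsub3
  -- counting
  have hcnt : ∀ b₀ : ℕ × ℕ, ((Finset.univ.filter fun i => b i = b₀).card : ℝ) ≤ C₁ := by
    intro b₀
    refine le_trans ?_ (hcard (p + s * ct (n * m) b₀))
    rw [← Set.ncard_coe_finset]
    have : ((Finset.univ.filter fun i => b i = b₀) : Set κ) ⊆
        {i | ‖(p + s * ct (n * m) b₀) - w i‖ ≤ r / sl} := by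
      intro i hi
      have hi' : b i = b₀ := by simpa using hi
      have h5 := hbw' i
      rw [hi', norm_sub_rev] at h5
      exact h5.trans htm
    exact_mod_cast Set.ncard_le_ncard this (Set.toFinite _)
  obtain ⟨F, hF⟩ : ∃ F : ℕ × ℕ → ℝ, F = fun a => D * (g a + T * (1 + sl * t)) := ⟨_, rfl⟩
  have hF0 : ∀ a ∈ gd n, 0 ≤ F a := by
    intro a ha'
    rw [hF]
    have := hg0 a ha'
    positivity
  have hsum1 : ∑ i, F (anc m (b i)) ≤ C₁ * ∑ b₀ ∈ gd (n * m), F (anc m b₀) := by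
    rw [← Finset.sum_fiberwise_of_maps_to (s := Finset.univ) (t := gd (n * m)) (g := b)
      (fun i _ => hb i), Finset.mul_sum]
    refine Finset.sum_le_sum fun b₀ hb₀ => ?_
    have e3 : ∑ i ∈ Finset.univ.filter (fun i => b i = b₀), F (anc m (b i)) =
        ((Finset.univ.filter (fun i => b i = b₀)).card : ℝ) * F (anc m b₀) := by
      rw [← nsmul_eq_mul, ← Finset.sum_const]
      refine Finset.sum_congr rfl fun i hi => ?_
      rw [Finset.mem_filter] at hi
      rw [hi.2]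
    rw [e3]
    exact mul_le_mul_of_nonneg_right (hcnt b₀) (hF0 _ (anc_mem hb₀))
  have hsum2 : ∑ b₀ ∈ gd (n * m), F (anc m b₀) = (m : ℝ) ^ 2 * ∑ a ∈ gd n, F a := by
    rw [sum_gd_mul, Finset.mul_sum]
    refine Finset.sum_congr rfl fun a _ => ?_
    have : ∑ c ∈ gd m, F (anc m (ch m a c)) = ∑ c ∈ gd m, F a :=
      Finset.sum_congr rfl fun c hc' => by rw [anc_ch hc']
    rw [this, Finset.sum_const, gd_card, nsmul_eq_mul]
    push_cast
    ring
  have hn2 : (n : ℝ) ^ 2 ≤ s ^ 2 / C' ^ 2 * lam := by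
    have h5 : (n : ℝ) * C' ≤ s * sl := by
      rw [hst]
      calc (n : ℝ) * C' ≤ n * (sl * t) := mul_le_mul_of_nonneg_left hlow hn0'.le
        _ = n * t * sl := by ring
    have h6 : ((n : ℝ) * C') ^ 2 ≤ (s * sl) ^ 2 := pow_le_pow_left₀ (by positivity) h5 2
    rw [mul_pow, mul_pow, hslsq] at h6
    have e : s ^ 2 / C' ^ 2 * lam = s ^ 2 * lam / C' ^ 2 := by ring
    rw [e, le_div_iff₀ (by positivity)]
    exact h6
  have hsum3 : ∑ a ∈ gd n, F a ≤ (n : ℝ) ^ 2 * (D * (A * (M * C') + T * (1 + M * C'))) := by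
    have e : ∑ a ∈ gd n, F a = D * (∑ a ∈ gd n, g a + n ^ 2 * (T * (1 + sl * t))) := by
      rw [hF, ← Finset.mul_sum, Finset.sum_add_distrib, Finset.sum_const, gd_card, nsmul_eq_mul]
      push_cast
      ring
    have e2 : (M : ℝ) ^ (2 * J) = (n : ℝ) ^ 2 := by
      rw [hncast, ← pow_mul, mul_comm]
    have h5 : ∑ a ∈ gd n, g a ≤ A * n ^ 2 * (sl * t) := by
      rw [hg]
      rw [e2] at hZa
      exact hZa
    rw [e]
    have h6 : A * n ^ 2 * (sl * t) ≤ A * n ^ 2 * (M * C') :=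
      mul_le_mul_of_nonneg_left hupp.le (by positivity)
    have h7 : (n : ℝ) ^ 2 * (T * (1 + sl * t)) ≤ n ^ 2 * (T * (1 + M * C')) := by
      apply mul_le_mul_of_nonneg_left _ (by positivity)
      apply mul_le_mul_of_nonneg_left _ (by linarith)
      linarith
    calc D * (∑ a ∈ gd n, g a + n ^ 2 * (T * (1 + sl * t))) ≤
        D * (A * n ^ 2 * (M * C') + n ^ 2 * (T * (1 + M * C'))) := by
          apply mul_le_mul_of_nonneg_left _ hD0.le
          linarith
      _ = _ := by ring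
  calc ∑ i, Real.log (sn φ (closedBall (w i) (R / sl)) / sn φ (closedBall (w i) (r / sl)))
      ≤ ∑ i, F (anc m (b i)) := Finset.sum_le_sum fun i _ => by rw [hF]; exact hterm i
    _ ≤ C₁ * ((m : ℝ) ^ 2 * ∑ a ∈ gd n, F a) := by rw [← hsum2]; exact hsum1
    _ ≤ C₁ * ((m : ℝ) ^ 2 * ((n : ℝ) ^ 2 * (D * (A * (M * C') + T * (1 + M * C'))))) := by
        apply mul_le_mul_of_nonneg_left _ hC₁.le
        exact mul_le_mul_of_nonneg_left hsum3 (by positivity)
    _ = C₁ * (m ^ 2 * (D * (A * (M * C') + T * (1 + M * C')))) * (n : ℝ) ^ 2 := by ring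
    _ ≤ C₁ * (m ^ 2 * (D * (A * (M * C') + T * (1 + M * C')))) * (s ^ 2 / C' ^ 2 * lam) := by
        apply mul_le_mul_of_nonneg_left hn2
        positivity
    _ = _ := by ring

end Pool.Agent.Q73.AD
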