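import Pool.Agent.Q73.AD.YFin0
import Pool.Agent.Q73.AD.TA1
import Pool.Agent.Q73.AD.TA2
import Pool.Agent.Q73.AD.TA3
import Pool.Agent.Q73.AD.TA4
import Pool.Agent.Q73.AD.TA5
import Pool.Agent.Q73.AD.TB1
import Pool.Agent.Q73.AD.TB2
import Pool.Agent.Q73.AD.TC1
import Pool.Agent.Q73.AD.TC2
import Pool.Agent.Q73.AD.TC3
import Pool.Agent.Q73.AD.TC4
import Pool.Agent.Q73.AD.TC5
import Pool.Agent.Q73.AD.TG1
import Pool.Agent.Q73.AD.TG2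
import Pool.Agent.Q73.AD.YY1
import Pool.Agent.Q73.AD.YY2
import Pool.Agent.Q73.AD.YY3
import Pool.Agent.Q73.AD.YY4
import Pool.Agent.Q73.AD.YCJ
import Pool.Agent.Q73.AD.YPA
import Pool.Agent.Q73.AD.YPB
import Pool.Agent.Q73.AD.YPC
import Pool.Agent.Q73.AD.YTR
import Pool.Agent.Q73.AD.YYL
import Pool.Agent.Q73.AD.YY5
import Pool.Agent.Q73.AD.YY6
import Pool.Agent.Q73.AD.YY7
import Pool.Agent.Q73.AD.YY8
import Pool.Agent.Q73.AD.YY9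
import Pool.Agent.Q73.AD.YY10
import Pool.Agent.Q73.AD.YK1
import Pool.Agent.Q73.AD.YK2
import Pool.Agent.Q73.AD.YK3
import Pool.Agent.Q73.AD.YK4
import Pool.Agent.Q73.AD.YK5
import Pool.Agent.Q73.AD.YK6
import Pool.Agent.Q73.AD.YK7
import Pool.Agent.Q73.AD.YZ1
import Pool.Agent.Q73.AD.YZ2
import Pool.Agent.Q73.AD.YZ3
import Pool.Agent.Q73.AD.YZ4
import Pool.Agent.Q73.AD.YZ5
import Pool.Agent.Q73.AD.YZ6
import Pool.Agent.Q73.AD.YZ7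

/-!
# Assembly of the bounded average doubling index
-/

set_option autoImplicit false

namespace Pool.Agent.Q73.AD

universe u v

theorem fin_c1 : C1 := tc1 (ta4 ta1 ta2 ta3) ta5

theorem fin_c5 : C5 := tc5 tc3

theorem fin_g1 : G1.{u, v} := tg1.{u, v} tb1.{u} tb2.{u} fin_c1 tc2 fin_c5

theorem fin_ptr : PTR := tptr tpa tpb tpc

theorem fin_yl : YL := tyl fin_ptr tc4 fin_c5

theorem fin_y3 : Y3 := ty3 ty1 ty2 ta3

theorem fin_y4 : Y4 := ty4 fin_y3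

theorem fin_y5 : Y5 := ty5 fin_yl tb1.{0} tb2.{0} fin_c1 tc2 tcj

theorem fin_y6 : Y6 := ty6 fin_yl tb1.{0} tb2.{0} fin_y4 tcj

theorem fin_y7 : Y7 := ty7 fin_y5

theorem fin_y8 : Y8 := ty8 fin_y6

theorem fin_y9 : Y9 := ty9 fin_y8

theorem fin_k1 : K1 := tk1 tk2

theorem fin_k7 : K7 := tk7 fin_k1 (tk3 fin_k1 tk2) (tk4 tk2) (tk5 tk2) (tk6 tk2)

theorem fin_z2 : Z2 := tz2 fin_y7

theorem fin_z1 : Z1 := tz1 fin_z2 fin_y9 ty10 tz3 fin_k7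

theorem fin_z6 : Z6 := tz6 fin_z1 fin_z2

theorem fin5 : Z5.{u, v} := tz5.{u, v} fin_g1.{u, v} tg2.{u, v} (tz4.{u} fin_z6)

theorem fin_dbl_nonneg (M : Type u) (ι : Type v) [MetricSpace M] [CompactSpace M] [ConnectedSpace M]
    (U : ι → Set ℂ) (φ : ι → ℂ → M) (ρ : ι → ℂ → ℝ) (h : Atl U φ ρ) (lam : ℝ) (f : M → ℝ)
    (hlam : 0 < lam) (hf : Eig U φ ρ lam f) (hne : ∃ x, f x ≠ 0) (x : M) (r : ℝ) (hr : 0 < r) :
    0 ≤ dbl f x r :=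
  fin_dbl_nonneg0 fin_g1.{u, v} M ι U φ ρ h lam f hlam hf hne x r hr

end Pool.Agent.Q73.AD
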