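import Pool.Agent.Q73.AD.StmQ
import Pool.Agent.H172R3.SM.C
import Pool.Agent.Q176.Had.Calc

/-!
# QA: mean value inequalities and the area of the positivity set in a small disc
-/

set_option autoImplicit false

open MeasureTheory Filter Topology Complex Metric Set
open scoped ContDiff

namespace Pool.Agent.Q73.AD.YQA

open Pool.Agent.Q73.NL Pool.Agent.Q73.AD
open Pool.Agent.H172R3.SM (CM Dr pt norm_pt_sub hasDerivAt_CM hasDerivAt_CM2 tendsto_CM
  tendsto_CM_Dr CM_mono CM_const continuous_CM contDiff_lap)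
open Q176Had (cpt continuous_cpt norm_cpt integral_ball_polar dx_comp dy_comp dx_mul dy_mul dx_add
  dy_add)

/-- circle integral in the form of the polar coordinates -/
noncomputable def cm (c : ℂ) (v : ℂ → ℝ) (r : ℝ) : ℝ :=
  ∫ θ in (-Real.pi)..Real.pi, v (c + cpt r θ)

lemma continuous_cm (c : ℂ) {v : ℂ → ℝ} (hv : Continuous v) : Continuous (cm c v) := by
  unfold cm
  refine intervalIntegral.continuous_parametric_intervalIntegral_of_continuous' ?_ _ _
  exact hv.comp (continuous_const.add continuous_cpt)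

lemma cm_eq (c : ℂ) (v : ℂ → ℝ) {r : ℝ} (hr : 0 < r) : cm c v r = CM c v (Real.log r) := by
  unfold cm CM
  congr 1
  funext θ
  congr 1
  unfold cpt pt
  rw [Complex.exp_add, ← Complex.ofReal_exp, Real.exp_log hr, Complex.exp_mul_I]
  push_cast
  ring

lemma ball_int (c : ℂ) {v : ℂ → ℝ} (hv : Continuous v) {R : ℝ} (hR : 0 < R) :
    ∫ z in ball c R, v z = ∫ r in (0 : ℝ)..R, r * cm c v r := by
  have e1 : ∫ z in ball c R, v z = ∫ z in ball (0 : ℂ) R, v (c + z) := by
    have h := (measurePreserving_add_left (volume : Measure ℂ) c).setIntegral_preimage_emb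
      (measurableEmbedding_addLeft c) v (ball c R)
    have h2 : (fun x => c + x) ⁻¹' ball c R = ball (0 : ℂ) R := by
      ext z
      simp [mem_ball, dist_eq_norm]
    rw [h2] at h
    exact h.symm
  rw [e1, integral_ball_polar (f := fun z => v (c + z)) (hv.comp (by fun_prop)) hR]
  congr 1
  funext r
  rw [intervalIntegral.integral_const_mul]
  rfl

lemma mono_lim {f : ℝ → ℝ} {T L : ℝ} (hf : MonotoneOn f (Iic T)) (hl : Tendsto f atBot (𝓝 L))
    {t : ℝ} (ht : t ≤ T) : L ≤ f t := by
  refine le_of_tendsto hl ?_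
  filter_upwards [eventually_le_atBot t] with s hs
  exact hf (le_trans hs ht) ht hs

lemma anti_lim {f : ℝ → ℝ} {T L : ℝ} (hf : AntitoneOn f (Iic T)) (hl : Tendsto f atBot (𝓝 L))
    {t : ℝ} (ht : t ≤ T) : f t ≤ L := by
  refine ge_of_tendsto hl ?_
  filter_upwards [eventually_le_atBot t] with s hs
  exact hf (le_trans hs ht) ht hs

lemma mono_of_deriv {f f' : ℝ → ℝ} {T : ℝ} (hf : ∀ t, HasDerivAt f (f' t) t)
    (h0 : ∀ t ≤ T, 0 ≤ f' t) : MonotoneOn f (Iic T) := by
  refine monotoneOn_of_deriv_nonneg (convex_Iic T)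
    (fun t _ => (hf t).continuousAt.continuousWithinAt)
    (fun t _ => (hf t).differentiableAt.differentiableWithinAt) fun t ht => ?_
  rw [(hf t).deriv]
  rw [interior_Iic] at ht
  exact h0 t (le_of_lt ht)

lemma anti_of_deriv {f f' : ℝ → ℝ} {T : ℝ} (hf : ∀ t, HasDerivAt f (f' t) t)
    (h0 : ∀ t ≤ T, f' t ≤ 0) : AntitoneOn f (Iic T) := by
  refine antitoneOn_of_deriv_nonpos (convex_Iic T)
    (fun t _ => (hf t).continuousAt.continuousWithinAt)
    (fun t _ => (hf t).differentiableAt.differentiableWithinAt) fun t ht => ?_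
  rw [(hf t).deriv]
  rw [interior_Iic] at ht
  exact h0 t (le_of_lt ht)

lemma hasDerivAt_ex (a : ℝ) (t : ℝ) :
    HasDerivAt (fun t : ℝ => a * Real.exp (2 * t)) (2 * a * Real.exp (2 * t)) t := by
  have h1 : HasDerivAt (fun t : ℝ => 2 * t) 2 t := by simpa using (hasDerivAt_id t).const_mul 2
  have h2 : HasDerivAt (fun t : ℝ => a * Real.exp (2 * t)) (a * (Real.exp (2 * t) * 2)) t :=
    (h1.exp).const_mul a
  rwa [show 2 * a * Real.exp (2 * t) = a * (Real.exp (2 * t) * 2) by ring]

lemma tendsto_ex (a : ℝ) : Tendsto (fun t : ℝ => a * Real.exp (2 * t)) atBot (𝓝 0) := by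
  have h1 : Tendsto (fun t : ℝ => 2 * t) atBot atBot :=
    tendsto_id.const_mul_atBot (by norm_num)
  have h2 := (Real.tendsto_exp_atBot.comp h1).const_mul a
  rw [mul_zero] at h2
  exact h2

lemma lap_eq' (g : ℂ → ℝ) : Pool.Agent.H172R3.SM.lap g = lap g := rfl

lemma exp_le_of_le_log {R t : ℝ} (hR : 0 < R) (ht : t ≤ Real.log R) : Real.exp t ≤ R := by
  rwa [← Real.le_log_iff_exp_le hR]

lemma exp2_le {R t : ℝ} (hR : 0 < R) (ht : t ≤ Real.log R) : Real.exp (2 * t) ≤ R ^ 2 := by
  have h := exp_le_of_le_log hR ht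
  have h2 : Real.exp (2 * t) = Real.exp t ^ 2 := by
    rw [← Real.exp_nat_mul]; norm_num
  rw [h2]
  exact pow_le_pow_left₀ (Real.exp_pos t).le h 2

/-- lower bound for the circle integral -/
lemma circ_lower {v : ℂ → ℝ} (hv : ContDiff ℝ ∞ v) (c : ℂ) {R κ : ℝ} (hR : 0 < R) (hκ : 0 ≤ κ)
    (hκR : κ * R ^ 2 ≤ 1) (h0 : ∀ z ∈ closedBall c R, 0 ≤ v z)
    (h1 : ∀ z ∈ closedBall c R, -(κ * v z) ≤ lap v z) {t : ℝ} (ht : t ≤ Real.log R) :
    4 / 3 * Real.pi * v c ≤ CM c v t := by
  have hpi := Real.pi_pos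
  have hvc : 0 ≤ v c := h0 c (mem_closedBall_self hR.le)
  set M : ℝ → ℝ := CM c v with hM
  set M1 : ℝ → ℝ := CM c (Dr c v) with hM1
  set k : ℝ → ℝ := fun t => 1 - κ / 3 * Real.exp (2 * t) with hk
  set k1 : ℝ → ℝ := fun t => -(2 * κ / 3) * Real.exp (2 * t) with hk1
  have dM : ∀ t, HasDerivAt M (M1 t) t := fun t => hasDerivAt_CM hv c t
  have dM1 : ∀ t, HasDerivAt M1 (Real.exp (2 * t) * CM c (lap v) t) t :=
    fun t => hasDerivAt_CM2 hv c t
  have dk : ∀ t, HasDerivAt k (k1 t) t := by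
    intro t
    have h := (hasDerivAt_ex (κ / 3) t).const_sub 1
    have e : k1 t = -(2 * (κ / 3) * Real.exp (2 * t)) := by rw [hk1]; ring
    rw [e]
    exact h
  have dk1 : ∀ t, HasDerivAt k1 (-(4 * κ / 3) * Real.exp (2 * t)) t := by
    intro t
    have h := hasDerivAt_ex (-(2 * κ / 3)) t
    convert h using 1
    ring
  have hMn : ∀ t ≤ Real.log R, 0 ≤ M t := by
    intro t ht
    have h := CM_mono c (g := fun _ => 0) (h := v) continuous_const hv.continuous t (fun z hz =>
      h0 z (by rw [mem_closedBall, dist_eq_norm, hz]; exact exp_le_of_le_log hR ht))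
    rw [CM_const, mul_zero] at h
    exact h
  have hL : ∀ t ≤ Real.log R, -(κ * M t) ≤ CM c (lap v) t := by
    intro t ht
    have h := CM_mono c (g := fun z => -(κ * v z)) (h := lap v)
      (continuous_const.mul hv.continuous).neg (contDiff_lap hv).continuous t (fun z hz =>
      h1 z (by rw [mem_closedBall, dist_eq_norm, hz]; exact exp_le_of_le_log hR ht))
    have e : CM c (fun z => -(κ * v z)) t = -(κ * M t) := by
      simp only [hM]
      unfold CM
      rw [intervalIntegral.integral_neg, intervalIntegral.integral_const_mul]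
    rw [e] at h
    exact h
  have hex : ∀ t ≤ Real.log R, κ * Real.exp (2 * t) ≤ 1 := fun t ht =>
    (mul_le_mul_of_nonneg_left (exp2_le hR ht) hκ).trans hκR
  have hkb : ∀ t ≤ Real.log R, 2 / 3 ≤ k t ∧ k t ≤ 1 := by
    intro t ht
    have h2 := hex t ht
    have h3 : 0 ≤ κ * Real.exp (2 * t) := mul_nonneg hκ (Real.exp_pos _).le
    simp only [hk]
    constructor <;> nlinarith
  set W : ℝ → ℝ := fun t => M1 t * k t - M t * k1 t with hW
  have dW : ∀ t, HasDerivAt W (Real.exp (2 * t) * CM c (lap v) t * k t + M1 t * k1 t -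
      (M1 t * k1 t + M t * (-(4 * κ / 3) * Real.exp (2 * t)))) t := fun t =>
    ((dM1 t).mul (dk t)).sub ((dM t).mul (dk1 t))
  have mW : MonotoneOn W (Iic (Real.log R)) := by
    refine mono_of_deriv dW fun t ht => ?_
    have h2 := hkb t ht
    have h3 := hMn t ht
    have h4 := hL t ht
    have h5 := Real.exp_pos (2 * t)
    have h6 : -(κ * M t) * k t ≤ CM c (lap v) t * k t :=
      mul_le_mul_of_nonneg_right h4 (by linarith)
    have h7 : 0 ≤ κ * M t * (4 / 3 - k t) := by
      have := mul_nonneg hκ h3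
      exact mul_nonneg this (by linarith)
    have h8 : Real.exp (2 * t) * CM c (lap v) t * k t + M1 t * k1 t -
      (M1 t * k1 t + M t * (-(4 * κ / 3) * Real.exp (2 * t))) =
      Real.exp (2 * t) * (CM c (lap v) t * k t + 4 / 3 * (κ * M t)) := by ring
    rw [h8]
    refine mul_nonneg h5.le ?_
    nlinarith
  have tk : Tendsto k atBot (𝓝 1) := by
    have h := (tendsto_ex (κ / 3)).const_sub 1
    rw [sub_zero] at h
    exact h
  have tk1 : Tendsto k1 atBot (𝓝 0) := tendsto_ex _
  have tM : Tendsto M atBot (𝓝 (2 * Real.pi * v c)) := tendsto_CM hv.continuous c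
  have tM1 : Tendsto M1 atBot (𝓝 0) := tendsto_CM_Dr hv c
  have tW : Tendsto W atBot (𝓝 0) := by
    have h := (tM1.mul tk).sub (tM.mul tk1)
    simp only [zero_mul, mul_zero, sub_zero] at h
    exact h
  have hW0 : ∀ t ≤ Real.log R, 0 ≤ W t := fun t ht => mono_lim mW tW ht
  -- the quotient, only where k is nonzero: use the function `M - λ k`
  by_contra hcon
  push Not at hcon
  -- compare on `Iic t` : `M / k` is monotone
  have hmon : MonotoneOn (fun s => M s / k s) (Iic (Real.log R)) := by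
    have hcont : ContinuousOn (fun s => M s / k s) (Iic (Real.log R)) := by
      refine ContinuousOn.div (fun s _ => (dM s).continuousAt.continuousWithinAt)
        (fun s _ => (dk s).continuousAt.continuousWithinAt) fun s hs => ?_
      have := (hkb s hs).1
      linarith
    have hder : ∀ s ≤ Real.log R, HasDerivAt (fun s => M s / k s)
        ((M1 s * k s - M s * k1 s) / k s ^ 2) s := by
      intro s hs
      have := (hkb s hs).1
      exact (dM s).div (dk s) (by linarith)
    refine monotoneOn_of_deriv_nonneg (convex_Iic _) hcont (fun s hs => ?_) fun s hs => ?_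
    · rw [interior_Iic] at hs
      exact (hder s (le_of_lt hs)).differentiableAt.differentiableWithinAt
    · rw [interior_Iic] at hs
      rw [(hder s (le_of_lt hs)).deriv]
      exact div_nonneg (hW0 s (le_of_lt hs)) (sq_nonneg _)
  have tq : Tendsto (fun s => M s / k s) atBot (𝓝 (2 * Real.pi * v c)) := by
    have h := tM.div tk one_ne_zero
    rw [div_one] at h
    exact h
  have h2 := mono_lim hmon tq ht
  have h3 := hkb t ht
  rw [le_div_iff₀ (by linarith)] at h2
  have h4 : 2 * Real.pi * v c * (2 / 3) ≤ 2 * Real.pi * v c * k t :=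
    mul_le_mul_of_nonneg_left h3.1 (by positivity)
  have h5 : CM c v t = M t := rfl
  have hcon' : M t < 4 / 3 * Real.pi * v c := hcon
  linarith

/-- mean value inequality for `lap v ≥ - κ v` -/
lemma mvp {v : ℂ → ℝ} (hv : ContDiff ℝ ∞ v) (c : ℂ) {R κ : ℝ} (hR : 0 < R) (hκ : 0 ≤ κ)
    (hκR : κ * R ^ 2 ≤ 1) (h0 : ∀ z ∈ closedBall c R, 0 ≤ v z)
    (h1 : ∀ z ∈ closedBall c R, -(κ * v z) ≤ lap v z) :
    v c * (Real.pi * R ^ 2) ≤ 3 / 2 * ∫ z in ball c R, v z := by
  rw [ball_int c hv.continuous hR]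
  have h2 : ∫ r in (0 : ℝ)..R, r * (4 / 3 * Real.pi * v c) ≤ ∫ r in (0 : ℝ)..R, r * cm c v r := by
    refine intervalIntegral.integral_mono_on hR.le
      (Continuous.intervalIntegrable (by fun_prop) _ _)
      ((continuous_id.mul (continuous_cm c hv.continuous)).intervalIntegrable _ _) ?_
    intro r hr
    rcases eq_or_lt_of_le hr.1 with h | h
    · rw [← h, zero_mul, zero_mul]
    · rw [cm_eq c v h]
      refine mul_le_mul_of_nonneg_left ?_ h.le
      exact circ_lower hv c hR hκ hκR h0 h1 (Real.log_le_log h hr.2)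
  rw [intervalIntegral.integral_mul_const, integral_id] at h2
  nlinarith

/-- upper bound for the circle integral -/
lemma circ_upper {v : ℂ → ℝ} (hv : ContDiff ℝ ∞ v) (c : ℂ) {R κ f : ℝ} (hR : 0 < R) (hκ : 0 ≤ κ)
    (hf : 0 ≤ f)
    (hκR : κ * R ^ 2 ≤ 1 / 10) (h0 : ∀ z ∈ closedBall c R, 0 ≤ v z)
    (h1 : ∀ z ∈ closedBall c R, lap v z ≤ κ * v z + f) {t : ℝ} (ht : t ≤ Real.log R) :
    CM c v t ≤ 31 / 30 * (2 * Real.pi * v c + 31 / 60 * Real.pi * f * R ^ 2) := by
  have hpi := Real.pi_pos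
  have hvc : 0 ≤ v c := h0 c (mem_closedBall_self hR.le)
  set M : ℝ → ℝ := CM c v with hM
  set M1 : ℝ → ℝ := CM c (Dr c v) with hM1
  set k : ℝ → ℝ := fun t => 1 + κ / 3 * Real.exp (2 * t) with hk
  set k1 : ℝ → ℝ := fun t => 2 * κ / 3 * Real.exp (2 * t) with hk1
  have dM : ∀ t, HasDerivAt M (M1 t) t := fun t => hasDerivAt_CM hv c t
  have dM1 : ∀ t, HasDerivAt M1 (Real.exp (2 * t) * CM c (lap v) t) t :=
    fun t => hasDerivAt_CM2 hv c t
  have dk : ∀ t, HasDerivAt k (k1 t) t := by
    intro t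
    have h := (hasDerivAt_ex (κ / 3) t).const_add 1
    have e : k1 t = 2 * (κ / 3) * Real.exp (2 * t) := by rw [hk1]; ring
    rw [e]
    exact h
  have dk1 : ∀ t, HasDerivAt k1 (4 * κ / 3 * Real.exp (2 * t)) t := by
    intro t
    have h := hasDerivAt_ex (2 * κ / 3) t
    convert h using 1
    ring
  have hMn : ∀ t ≤ Real.log R, 0 ≤ M t := by
    intro t ht
    have h := CM_mono c (g := fun _ => 0) (h := v) continuous_const hv.continuous t (fun z hz =>
      h0 z (by rw [mem_closedBall, dist_eq_norm, hz]; exact exp_le_of_le_log hR ht))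
    rw [CM_const, mul_zero] at h
    exact h
  have hL : ∀ t ≤ Real.log R, CM c (lap v) t ≤ κ * M t + 2 * Real.pi * f := by
    intro t ht
    have h := CM_mono c (g := lap v) (h := fun z => κ * v z + f)
      (contDiff_lap hv).continuous ((continuous_const.mul hv.continuous).add continuous_const) t
      (fun z hz => h1 z (by rw [mem_closedBall, dist_eq_norm, hz]; exact exp_le_of_le_log hR ht))
    have e : CM c (fun z => κ * v z + f) t = κ * M t + 2 * Real.pi * f := by
      rw [Pool.Agent.H172R3.SM.CM_add c (g := fun z => κ * v z) (h := fun _ => f)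
        (continuous_const.mul hv.continuous) continuous_const, CM_const]
      congr 1
      simp only [hM]
      unfold CM
      rw [intervalIntegral.integral_const_mul]
    rw [e] at h
    exact h
  have hex : ∀ t ≤ Real.log R, κ * Real.exp (2 * t) ≤ 1 / 10 := fun t ht =>
    (mul_le_mul_of_nonneg_left (exp2_le hR ht) hκ).trans hκR
  have hkp : ∀ t, 1 ≤ k t := by
    intro t
    have h3 : 0 ≤ κ / 3 * Real.exp (2 * t) := by positivity
    simp only [hk]
    linarith
  have hkb : ∀ t ≤ Real.log R, k t ≤ 31 / 30 := by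
    intro t ht
    have h2 := hex t ht
    simp only [hk]
    linarith
  set A : ℝ := 31 / 30 * Real.pi * f with hA
  have hA0 : 0 ≤ A := by positivity
  set W : ℝ → ℝ := fun t => M1 t * k t - M t * k1 t - A * Real.exp (2 * t) with hW
  have dW : ∀ t, HasDerivAt W (Real.exp (2 * t) * CM c (lap v) t * k t + M1 t * k1 t -
      (M1 t * k1 t + M t * (4 * κ / 3 * Real.exp (2 * t))) - 2 * A * Real.exp (2 * t)) t := fun t =>
    (((dM1 t).mul (dk t)).sub ((dM t).mul (dk1 t))).sub (hasDerivAt_ex A t)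
  have mW : AntitoneOn W (Iic (Real.log R)) := by
    refine anti_of_deriv dW fun t ht => ?_
    have h2 := hkb t ht
    have h2' := hkp t
    have h3 := hMn t ht
    have h4 := hL t ht
    have h5 := Real.exp_pos (2 * t)
    have h6 : CM c (lap v) t * k t ≤ (κ * M t + 2 * Real.pi * f) * k t :=
      mul_le_mul_of_nonneg_right h4 (by linarith)
    have h7 : 0 ≤ κ * M t * (4 / 3 - k t) := by
      have := mul_nonneg hκ h3
      exact mul_nonneg this (by linarith)
    have h9 : 2 * Real.pi * f * k t ≤ 2 * A := by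
      rw [hA]
      have : 0 ≤ 2 * Real.pi * f := by positivity
      nlinarith
    have h8 : Real.exp (2 * t) * CM c (lap v) t * k t + M1 t * k1 t -
      (M1 t * k1 t + M t * (4 * κ / 3 * Real.exp (2 * t))) - 2 * A * Real.exp (2 * t) =
      -(Real.exp (2 * t) * (-(CM c (lap v) t * k t) + 4 / 3 * (κ * M t) + 2 * A)) := by ring
    rw [h8, neg_nonpos]
    refine mul_nonneg h5.le ?_
    nlinarith
  have tk : Tendsto k atBot (𝓝 1) := by
    have h := (tendsto_ex (κ / 3)).const_add 1
    rw [add_zero] at h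
    exact h
  have tk1 : Tendsto k1 atBot (𝓝 0) := tendsto_ex _
  have tM : Tendsto M atBot (𝓝 (2 * Real.pi * v c)) := tendsto_CM hv.continuous c
  have tM1 : Tendsto M1 atBot (𝓝 0) := tendsto_CM_Dr hv c
  have tW : Tendsto W atBot (𝓝 0) := by
    have h := ((tM1.mul tk).sub (tM.mul tk1)).sub (tendsto_ex A)
    simp only [zero_mul, mul_zero, sub_zero] at h
    exact h
  have hW0 : ∀ t ≤ Real.log R, W t ≤ 0 := fun t ht => anti_lim mW tW ht
  set Q : ℝ → ℝ := fun s => M s / k s - A / 2 * Real.exp (2 * s) with hQ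
  have dQ : ∀ s, HasDerivAt Q ((M1 s * k s - M s * k1 s) / k s ^ 2 -
      2 * (A / 2) * Real.exp (2 * s)) s := by
    intro s
    have := hkp s
    exact ((dM s).div (dk s) (by linarith)).sub (hasDerivAt_ex (A / 2) s)
  have aQ : AntitoneOn Q (Iic (Real.log R)) := by
    refine anti_of_deriv dQ fun s hs => ?_
    have h2 := hW0 s hs
    have h3 := hkp s
    have h4 := Real.exp_pos (2 * s)
    have h5 : M1 s * k s - M s * k1 s ≤ A * Real.exp (2 * s) := by
      simp only [hW] at h2
      linarith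
    have h6 : (M1 s * k s - M s * k1 s) / k s ^ 2 ≤ A * Real.exp (2 * s) := by
      rw [div_le_iff₀ (by positivity)]
      have h7 : 0 ≤ A * Real.exp (2 * s) := mul_nonneg hA0 h4.le
      have h8 : 1 ≤ k s ^ 2 := one_le_pow₀ h3
      nlinarith
    linarith
  have tQ : Tendsto Q atBot (𝓝 (2 * Real.pi * v c)) := by
    have h := (tM.div tk one_ne_zero).sub (tendsto_ex (A / 2))
    rw [div_one, sub_zero] at h
    exact h
  have h2 := anti_lim aQ tQ ht
  have h3 := hkp t
  have h4 := hkb t ht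
  have h5 : CM c v t = M t := rfl
  have h6 : M t / k t ≤ 2 * Real.pi * v c + A / 2 * R ^ 2 := by
    simp only [hQ] at h2
    have h7 : A / 2 * Real.exp (2 * t) ≤ A / 2 * R ^ 2 :=
      mul_le_mul_of_nonneg_left (exp2_le hR ht) (by linarith)
    linarith
  rw [div_le_iff₀ (by linarith)] at h6
  show M t ≤ _
  refine h6.trans ?_
  have h8 : 0 ≤ 2 * Real.pi * v c + A / 2 * R ^ 2 := by positivity
  have h9 : 2 * Real.pi * v c + A / 2 * R ^ 2 =
      2 * Real.pi * v c + 31 / 60 * Real.pi * f * R ^ 2 := by rw [hA]; ring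
  rw [← h9, mul_comm (31 / 30 : ℝ)]
  exact mul_le_mul_of_nonneg_left h4 h8

/-- mean value inequality for `lap v ≤ κ v + f` -/
lemma mvm {v : ℂ → ℝ} (hv : ContDiff ℝ ∞ v) (c : ℂ) {R κ f : ℝ} (hR : 0 < R) (hκ : 0 ≤ κ)
    (hf : 0 ≤ f)
    (hκR : κ * R ^ 2 ≤ 1 / 10) (h0 : ∀ z ∈ closedBall c R, 0 ≤ v z)
    (h1 : ∀ z ∈ closedBall c R, lap v z ≤ κ * v z + f) :
    ∫ z in ball c R, v z ≤ 31 / 30 * Real.pi * R ^ 2 * (v c + f * R ^ 2) := by
  have hpi := Real.pi_pos
  rw [ball_int c hv.continuous hR]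
  set B : ℝ := 31 / 30 * (2 * Real.pi * v c + 31 / 60 * Real.pi * f * R ^ 2) with hB
  have h2 : ∫ r in (0 : ℝ)..R, r * cm c v r ≤ ∫ r in (0 : ℝ)..R, r * B := by
    refine intervalIntegral.integral_mono_on hR.le
      ((continuous_id.mul (continuous_cm c hv.continuous)).intervalIntegrable _ _)
      (Continuous.intervalIntegrable (by fun_prop) _ _) ?_
    intro r hr
    rcases eq_or_lt_of_le hr.1 with h | h
    · rw [← h, zero_mul, zero_mul]
    · rw [cm_eq c v h]
      refine mul_le_mul_of_nonneg_left ?_ h.le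
      exact circ_upper hv c hR hκ hf hκR h0 h1 (Real.log_le_log h hr.2)
  rw [intervalIntegral.integral_mul_const, integral_id] at h2
  refine h2.trans ?_
  rw [hB]
  have h3 : 0 ≤ Real.pi * R ^ 2 * (f * R ^ 2) := by positivity
  nlinarith

lemma lap_comp {F F1 F2 : ℝ → ℝ} (h1 : ∀ x, HasDerivAt F (F1 x) x)
    (h2 : ∀ x, HasDerivAt F1 (F2 x) x) {f : ℂ → ℝ} (hf : ContDiff ℝ ∞ f) (z : ℂ) :
    lap (fun z => F (f z)) z = F2 (f z) * (dx f z ^ 2 + dy f z ^ 2) + F1 (f z) * lap f z := by
  have hd : ∀ z, DifferentiableAt ℝ f z := fun z => hf.differentiable (by simp) z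
  have hx : ContDiff ℝ ∞ (dx f) := Pool.Agent.H172R3.SM.contDiff_dx hf
  have hy : ContDiff ℝ ∞ (dy f) := Pool.Agent.H172R3.SM.contDiff_dy hf
  have hdx : ∀ z, DifferentiableAt ℝ (dx f) z := fun z => hx.differentiable (by simp) z
  have hdy : ∀ z, DifferentiableAt ℝ (dy f) z := fun z => hy.differentiable (by simp) z
  have hF1 : ∀ z, DifferentiableAt ℝ (fun z => F1 (f z)) z := fun z =>
    ((h2 (f z)).comp_hasFDerivAt z (hd z).hasFDerivAt).differentiableAt
  have e1 : dx (fun z => F (f z)) = fun z => F1 (f z) * dx f z :=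
    funext fun z => dx_comp (hd z) (h1 (f z))
  have e2 : dy (fun z => F (f z)) = fun z => F1 (f z) * dy f z :=
    funext fun z => dy_comp (hd z) (h1 (f z))
  have e3 : dx (fun z => F1 (f z) * dx f z) z =
      F1 (f z) * dx (dx f) z + dx f z * dx (fun z => F1 (f z)) z := dx_mul (hF1 z) (hdx z)
  have e4 : dy (fun z => F1 (f z) * dy f z) z =
      F1 (f z) * dy (dy f) z + dy f z * dy (fun z => F1 (f z)) z := dy_mul (hF1 z) (hdy z)
  have e5 : dx (fun z => F1 (f z)) z = F2 (f z) * dx f z := dx_comp (hd z) (h2 (f z))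
  have e6 : dy (fun z => F1 (f z)) z = F2 (f z) * dy f z := dy_comp (hd z) (h2 (f z))
  unfold lap
  rw [e1, e2, e3, e4, e5, e6]
  ring

/-- smooth approximation of the positive part -/
noncomputable def ph (η x : ℝ) : ℝ := (x + Real.sqrt (x ^ 2 + η ^ 2)) / 2

section ph

variable {η : ℝ} (hη : 0 < η)
include hη

lemma q_pos (x : ℝ) : 0 < Real.sqrt (x ^ 2 + η ^ 2) := Real.sqrt_pos.2 (by positivity)

lemma q_sq (x : ℝ) : Real.sqrt (x ^ 2 + η ^ 2) ^ 2 = x ^ 2 + η ^ 2 := Real.sq_sqrt (by positivity)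

lemma abs_le_q (x : ℝ) : |x| ≤ Real.sqrt (x ^ 2 + η ^ 2) :=
  Real.abs_le_sqrt (by nlinarith [hη])

lemma hasDerivAt_q (x : ℝ) : HasDerivAt (fun x => Real.sqrt (x ^ 2 + η ^ 2))
    (x / Real.sqrt (x ^ 2 + η ^ 2)) x := by
  have h1 : HasDerivAt (fun x : ℝ => x ^ 2 + η ^ 2) (2 * x) x := by
    simpa using (hasDerivAt_pow 2 x).add_const (η ^ 2)
  have h2 := h1.sqrt (by positivity)
  have e : x / Real.sqrt (x ^ 2 + η ^ 2) = 2 * x / (2 * Real.sqrt (x ^ 2 + η ^ 2)) := by
    rw [mul_div_mul_left _ _ two_ne_zero]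
  rw [e]
  exact h2

lemma hasDerivAt_ph (x : ℝ) : HasDerivAt (ph η) ((1 + x / Real.sqrt (x ^ 2 + η ^ 2)) / 2) x :=
  ((hasDerivAt_id x).add (hasDerivAt_q hη x)).div_const 2

lemma hasDerivAt_ph1 (x : ℝ) : HasDerivAt (fun x => (1 + x / Real.sqrt (x ^ 2 + η ^ 2)) / 2)
    (η ^ 2 / Real.sqrt (x ^ 2 + η ^ 2) ^ 3 / 2) x := by
  have hq := q_pos hη x
  have h := (((hasDerivAt_id x).div (hasDerivAt_q hη x) hq.ne').const_add 1).div_const 2
  have e : η ^ 2 / Real.sqrt (x ^ 2 + η ^ 2) ^ 3 / 2 =
      (1 * Real.sqrt (x ^ 2 + η ^ 2) - id x * (x / Real.sqrt (x ^ 2 + η ^ 2))) /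
        Real.sqrt (x ^ 2 + η ^ 2) ^ 2 / 2 := by
    have h2 := q_sq hη x
    set q := Real.sqrt (x ^ 2 + η ^ 2) with hqd
    have h3 : η ^ 2 = q ^ 2 - x ^ 2 := by linarith
    rw [h3]
    simp only [id]
    field_simp
  rw [e]
  exact h

lemma ph_nonneg (x : ℝ) : 0 ≤ ph η x := by
  unfold ph
  have h1 := abs_le_q hη x
  have h2 := neg_abs_le x
  linarith

lemma le_ph (x : ℝ) : x ≤ ph η x := by
  unfold ph
  have h1 := abs_le_q hη x
  have h2 := le_abs_self x
  linarith

lemma ph_le (x : ℝ) {S : ℝ} (h0 : 0 ≤ S) (hx : x ≤ S) : ph η x ≤ S + η / 2 := by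
  unfold ph
  have h1 : Real.sqrt (x ^ 2 + η ^ 2) ≤ |x| + η := by
    rw [Real.sqrt_le_left (by positivity)]
    have := abs_nonneg x
    nlinarith [sq_abs x]
  rcases le_total 0 x with h | h
  · rw [abs_of_nonneg h] at h1
    linarith
  · rw [abs_of_nonpos h] at h1
    linarith

lemma ph1_nonneg (x : ℝ) : 0 ≤ (1 + x / Real.sqrt (x ^ 2 + η ^ 2)) / 2 := by
  have hq := q_pos hη x
  have h1 := abs_le_q hη x
  have h2 := neg_abs_le x
  have h3 : -1 ≤ x / Real.sqrt (x ^ 2 + η ^ 2) := by
    rw [le_div_iff₀ hq]; linarith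
  linarith

lemma ph1_le (x : ℝ) : |x| * ((1 + x / Real.sqrt (x ^ 2 + η ^ 2)) / 2) ≤ ph η x := by
  have hq := q_pos hη x
  have h1 := abs_le_q hη x
  have h3 : |x| * ((1 + x / Real.sqrt (x ^ 2 + η ^ 2)) / 2) =
      |x| / Real.sqrt (x ^ 2 + η ^ 2) * ((x + Real.sqrt (x ^ 2 + η ^ 2)) / 2) := by
    field_simp
    ring
  rw [h3]
  have h4 : |x| / Real.sqrt (x ^ 2 + η ^ 2) ≤ 1 := by
    rw [div_le_one hq]; exact h1
  have h5 := ph_nonneg hη x
  have h6 := mul_le_mul_of_nonneg_right h4 h5
  rw [one_mul] at h6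
  exact h6

lemma contDiff_ph : ContDiff ℝ ∞ (ph η) := by
  unfold ph
  refine (contDiff_id.add (ContDiff.sqrt ?_ fun x => ?_)).div_const 2
  · exact (contDiff_id.pow 2).add contDiff_const
  · positivity

end ph

/-- the value at the centre is bounded by the area of the positivity set -/
lemma pos_bound {H : ℂ → ℝ} (hH : ContDiff ℝ ∞ H) (c : ℂ) {R κ S : ℝ} (hR : 0 < R) (hκ : 0 ≤ κ)
    (hS : 0 ≤ S) (hκR : κ * R ^ 2 ≤ 1) (h1 : ∀ z ∈ closedBall c R, |lap H z| ≤ κ * |H z|)
    (h2 : ∀ z ∈ ball c R, H z ≤ S) :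
    H c * (Real.pi * R ^ 2) ≤ 3 / 2 * (S * (volume {z : ℂ | z ∈ ball c R ∧ 0 < H z}).toReal) := by
  have hpi := Real.pi_pos
  set E : Set ℂ := {z : ℂ | z ∈ ball c R ∧ 0 < H z} with hE
  have hEo : IsOpen E := isOpen_ball.inter (isOpen_lt continuous_const hH.continuous)
  have hEs : E ⊆ ball c R := fun z hz => hz.1
  have hvb : (volume (ball c R)).toReal = Real.pi * R ^ 2 := by
    rw [Complex.volume_ball]
    simp [ENNReal.toReal_ofReal hR.le]
    ring
  have hfin : volume (ball c R) ≠ ⊤ := measure_ball_lt_top.ne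
  haveI : IsFiniteMeasure (volume.restrict (ball c R)) := isFiniteMeasure_restrict.2 hfin
  refine le_of_forall_pos_le_add fun e he => ?_
  set η : ℝ := e / (Real.pi * R ^ 2) with hηd
  have hη : 0 < η := by positivity
  set v : ℂ → ℝ := fun z => ph η (H z) with hv
  have hvs : ContDiff ℝ ∞ v := (contDiff_ph hη).comp hH
  have h3 := mvp hvs c hR hκ hκR (fun z _ => ph_nonneg hη _) (fun z hz => by
    have e1 : lap v z = _ := lap_comp (hasDerivAt_ph hη) (hasDerivAt_ph1 hη) hH z
    rw [e1]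
    have h4 := h1 z hz
    have h5 := ph1_nonneg hη (H z)
    have h6 := ph1_le hη (H z)
    have h7 : 0 ≤ η ^ 2 / Real.sqrt (H z ^ 2 + η ^ 2) ^ 3 / 2 * (dx H z ^ 2 + dy H z ^ 2) := by
      positivity
    have h8 : -(κ * |H z|) ≤ lap H z := (abs_le.1 h4).1
    have h9 := mul_le_mul_of_nonneg_left h8 h5
    have h10 := mul_le_mul_of_nonneg_left h6 hκ
    have h11 : v z = ph η (H z) := rfl
    rw [h11]
    nlinarith)
  have h4 : ∫ z in ball c R, v z ≤ ∫ z in ball c R, (E.indicator (fun _ => S) z + η / 2) := by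
    refine setIntegral_mono_on ?_ ?_ measurableSet_ball fun z hz => ?_
    · exact (hvs.continuous.continuousOn.integrableOn_compact
        (isCompact_closedBall c R)).mono_set ball_subset_closedBall
    · refine Integrable.add ?_ ?_
      · exact ((integrable_const S).indicator hEo.measurableSet)
      · exact integrable_const _
    · by_cases hzE : z ∈ E
      · rw [indicator_of_mem hzE]
        exact ph_le hη _ hS (h2 z hz)
      · rw [indicator_of_notMem hzE]
        have : H z ≤ 0 := by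
          by_contra hc
          push Not at hc
          exact hzE ⟨hz, hc⟩
        exact ph_le hη _ le_rfl this
  have h5 : ∫ z in ball c R, (E.indicator (fun _ => S) z + η / 2) =
      S * (volume E).toReal + η / 2 * (Real.pi * R ^ 2) := by
    rw [integral_add ((integrable_const S).indicator hEo.measurableSet) (integrable_const _),
      integral_indicator hEo.measurableSet, Measure.restrict_restrict hEo.measurableSet,
      inter_eq_left.2 hEs, setIntegral_const, setIntegral_const, smul_eq_mul, smul_eq_mul]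
    simp only [Measure.real]
    rw [hvb]
    ring
  rw [h5] at h4
  have h6 : H c ≤ v c := le_ph hη (H c)
  have h7 : H c * (Real.pi * R ^ 2) ≤ v c * (Real.pi * R ^ 2) :=
    mul_le_mul_of_nonneg_right h6 (by positivity)
  have h8 : η * (Real.pi * R ^ 2) = e := by
    rw [hηd]
    field_simp
  nlinarith

lemma lap_congr {f g : ℂ → ℝ} {z : ℂ} (h : f =ᶠ[𝓝 z] g) : lap f z = lap g z := by
  have h1 : dx f =ᶠ[𝓝 z] dx g := by
    filter_upwards [h.eventually_nhds] with y hy
    have hy' : f =ᶠ[𝓝 y] g := hy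
    unfold dx
    rw [hy'.fderiv_eq]
  have h2 : dy f =ᶠ[𝓝 z] dy g := by
    filter_upwards [h.eventually_nhds] with y hy
    have hy' : f =ᶠ[𝓝 y] g := hy
    unfold dy
    rw [hy'.fderiv_eq]
  have e1 : dx (dx f) z = dx (dx g) z := by
    show fderiv ℝ (dx f) z 1 = fderiv ℝ (dx g) z 1
    rw [h1.fderiv_eq]
  have e2 : dy (dy f) z = dy (dy g) z := by
    show fderiv ℝ (dy f) z I = fderiv ℝ (dy g) z I
    rw [h2.fderiv_eq]
  unfold lap
  rw [e1, e2]

/-- extension to a smooth function on the plane -/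
lemma exists_glob {h : ℂ → ℝ} {w : ℂ} {r r' : ℝ} (hr' : 0 < r') (hrr : r' < r)
    (hh : ∀ z ∈ ball w r, ContDiffAt ℝ ∞ h z) :
    ∃ H : ℂ → ℝ, ContDiff ℝ ∞ H ∧ ∀ z ∈ closedBall w r', H =ᶠ[𝓝 z] h := by
  set χ : ContDiffBump w := ⟨r' + (r - r') / 3, r' + 2 * (r - r') / 3, by linarith, by linarith⟩
    with hχ
  have hin : χ.rIn = r' + (r - r') / 3 := rfl
  have hout : χ.rOut = r' + 2 * (r - r') / 3 := rfl
  refine ⟨fun z => χ z * h z, ?_, ?_⟩
  · rw [contDiff_iff_contDiffAt]
    intro z
    by_cases hz : z ∈ ball w r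
    · exact χ.contDiffAt.mul (hh z hz)
    · have h1 : z ∉ tsupport χ := by
        rw [χ.tsupport_eq, mem_closedBall, hout]
        rw [mem_ball] at hz
        push Not at hz ⊢
        linarith
      have h2 : (χ : ℂ → ℝ) =ᶠ[𝓝 z] 0 := notMem_tsupport_iff_eventuallyEq.1 h1
      have h3 : (fun z => χ z * h z) =ᶠ[𝓝 z] fun _ => 0 := by
        filter_upwards [h2] with y hy
        rw [hy]
        simp
      exact contDiffAt_const.congr_of_eventuallyEq h3
  · intro z hz
    have h1 : z ∈ ball w χ.rIn := by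
      rw [mem_ball, hin]
      rw [mem_closedBall] at hz
      linarith
    filter_upwards [χ.eventuallyEq_one_of_mem_ball h1] with y hy
    rw [hy]
    simp

end Pool.Agent.Q73.AD.YQA

namespace Pool.Agent.Q73.AD

open YQA Pool.Agent.Q73.NL

theorem tqa : QA := by
  refine ⟨1 / 500, by norm_num, ?_⟩
  intro K r w h hK hr hh hw0 hS0 hSK
  have hpi := Real.pi_pos
  have hpi3 := Real.pi_gt_three
  set S := sn h (closedBall w r) with hSd
  have hcont : ContinuousOn h (closedBall w r) := fun z hz =>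
    (hh z hz).1.continuousAt.continuousWithinAt
  obtain ⟨B, hB⟩ := (isCompact_closedBall w r).exists_bound_of_continuousOn hcont
  have hbdd : BddAbove ((fun x => |h x|) '' closedBall w r) := by
    refine ⟨B, ?_⟩
    rintro _ ⟨z, hz, rfl⟩
    exact hB z hz
  have hleS : ∀ z ∈ closedBall w r, |h z| ≤ S := fun z hz => le_csSup hbdd ⟨z, hz, rfl⟩
  obtain ⟨H, hHs, hHe⟩ := exists_glob (h := h) (w := w) (r := r) (r' := 9 / 10 * r)
    (by linarith) (by linarith) fun z hz => (hh z (ball_subset_closedBall hz)).1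
  have hHv : ∀ z ∈ closedBall w (9 / 10 * r), H z = h z := fun z hz => (hHe z hz).eq_of_nhds
  have hsub : closedBall w (9 / 10 * r) ⊆ closedBall w r := closedBall_subset_closedBall (by linarith)
  set κ : ℝ := 1 / (10 * r ^ 2) with hκd
  have hκ : 0 < κ := by positivity
  have hκr : κ * r ^ 2 = 1 / 10 := by rw [hκd]; field_simp
  have hlap : ∀ z ∈ closedBall w (9 / 10 * r), |lap H z| ≤ κ * |H z| := by
    intro z hz
    rw [lap_congr (hHe z hz), hHv z hz]
    have h1 := (hh z (hsub hz)).2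
    have h2 : |lap h z| = κ * (10 * (r ^ 2 * |lap h z|)) := by
      rw [hκd]; field_simp
    rw [h2]
    exact mul_le_mul_of_nonneg_left (by linarith) hκ.le
  set δ : ℝ := (volume {z : ℂ | z ∈ ball w r ∧ 0 < h z}).toReal with hδ
  have hδ0 : 0 ≤ δ := ENNReal.toReal_nonneg
  set A : ℝ := 75 / (2 * Real.pi * r ^ 2) * (S * δ) with hA
  have hA0 : 0 ≤ A := by positivity
  have hAeq : A * (Real.pi * r ^ 2) = 75 / 2 * (S * δ) := by
    rw [hA]; field_simp
  -- step 1
  have hstep1 : ∀ x ∈ closedBall w (7 / 10 * r), H x ≤ A := by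
    intro x hx
    have hsx : closedBall x (r / 5) ⊆ closedBall w (9 / 10 * r) := by
      refine closedBall_subset_closedBall' ?_
      rw [mem_closedBall] at hx
      linarith
    have h1 := pos_bound hHs x (R := r / 5) (κ := κ) (S := S) (by linarith) hκ.le hS0.le
      (by nlinarith) (fun z hz => hlap z (hsx hz)) (fun z hz => by
        have hz' := hsx (ball_subset_closedBall hz)
        rw [hHv z hz']
        exact (le_abs_self _).trans (hleS z (hsub hz')))
    have h2 : (volume {z : ℂ | z ∈ ball x (r / 5) ∧ 0 < H z}).toReal ≤ δ := by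
      refine ENNReal.toReal_mono ?_ (measure_mono ?_)
      · exact ((measure_mono (fun z hz => hz.1)).trans_lt measure_ball_lt_top).ne
      · rintro z ⟨hz1, hz2⟩
        have hz' := hsx (ball_subset_closedBall hz1)
        refine ⟨?_, by rwa [hHv z hz'] at hz2⟩
        rw [mem_ball]
        rw [mem_closedBall] at hz'
        linarith
    have h3 : S * (volume {z : ℂ | z ∈ ball x (r / 5) ∧ 0 < H z}).toReal ≤ S * δ :=
      mul_le_mul_of_nonneg_left h2 hS0.le
    have h4 : H x * (Real.pi * r ^ 2) ≤ A * (Real.pi * r ^ 2) := by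
      rw [hAeq]
      nlinarith
    exact le_of_mul_le_mul_right h4 (by positivity)
  have hsub7 : closedBall w (7 / 10 * r) ⊆ closedBall w (9 / 10 * r) :=
    closedBall_subset_closedBall (by linarith)
  -- step 2
  set u : ℂ → ℝ := fun z => A - H z with hu
  have hus : ContDiff ℝ ∞ u := contDiff_const.sub hHs
  have hlapu : ∀ (a : ℝ) (z : ℂ), lap (fun z => a - H z) z = -lap H z := by
    intro a z
    have h1 : ∀ x, HasDerivAt (fun x : ℝ => a - x) (-1) x := fun x => by
      simpa using (hasDerivAt_id x).const_sub a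
    have h2 : ∀ x : ℝ, HasDerivAt (fun _ : ℝ => (-1 : ℝ)) 0 x := fun x => hasDerivAt_const x _
    have h3 : lap (fun z => a - H z) z = 0 * (dx H z ^ 2 + dy H z ^ 2) + -1 * lap H z :=
      lap_comp h1 h2 hHs z
    rw [h3]
    ring
  have habs : ∀ z, |H z| ≤ |u z| + A := by
    intro z
    have h1 : H z = A - u z := by simp only [hu]; ring
    rw [h1]
    have h2 := abs_sub A (u z)
    rw [abs_of_nonneg hA0] at h2
    linarith
  have hu0 : ∀ z ∈ closedBall w (7 / 10 * r), 0 ≤ u z := fun z hz => by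
    have := hstep1 z hz
    simp only [hu]
    linarith
  have huw : u w = A := by
    have h1 := hHv w (mem_closedBall_self (by linarith))
    simp only [hu]
    rw [h1, hw0, sub_zero]
  have h2 := mvm hus w (R := 7 / 10 * r) (κ := κ) (f := κ * A) (by linarith) hκ.le (by positivity)
    (by nlinarith) hu0 (fun z hz => by
      have h3 := hlap z (hsub7 hz)
      have h4 := habs z
      rw [abs_of_nonneg (hu0 z hz)] at h4
      have h5 : lap u z = -lap H z := hlapu A z
      rw [h5]
      have h6 := neg_abs_le (lap H z)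
      have h7 := mul_le_mul_of_nonneg_left h4 hκ.le
      linarith)
  rw [huw] at h2
  have h2' : ∫ z in ball w (7 / 10 * r), u z ≤ 54 / 100 * (Real.pi * r ^ 2 * A) := by
    refine h2.trans ?_
    have e1 : κ * A * (7 / 10 * r) ^ 2 = 49 / 1000 * A := by
      have : κ * A * (7 / 10 * r) ^ 2 = 49 / 100 * (κ * r ^ 2) * A := by ring
      rw [this, hκr]; ring
    rw [e1]
    have : 0 ≤ Real.pi * r ^ 2 * A := by positivity
    nlinarith
  -- step 3
  have hstep3 : ∀ x ∈ closedBall w (r / 2), |H x| ≤ 39 * A := by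
    intro x hx
    have hsx : closedBall x (r / 5) ⊆ closedBall w (7 / 10 * r) := by
      refine closedBall_subset_closedBall' ?_
      rw [mem_closedBall] at hx
      linarith
    have hxm : x ∈ closedBall w (7 / 10 * r) := hsx (mem_closedBall_self (by linarith))
    set v : ℂ → ℝ := fun z => 2 * A - H z with hv
    have hvs : ContDiff ℝ ∞ v := contDiff_const.sub hHs
    have hvu : ∀ z, v z = u z + A := fun z => by simp only [hv, hu]; ring
    have h3 := mvp hvs x (R := r / 5) (κ := κ) (by linarith) hκ.le (by nlinarith)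
      (fun z hz => by
        have := hu0 z (hsx hz)
        rw [hvu]
        linarith) (fun z hz => by
        have h3 := hlap z (hsub7 (hsx hz))
        have h4 := habs z
        rw [abs_of_nonneg (hu0 z (hsx hz)), ← hvu] at h4
        have h5 : lap v z = -lap H z := hlapu (2 * A) z
        rw [h5]
        have h6 := le_abs_self (lap H z)
        have h7 := mul_le_mul_of_nonneg_left h4 hκ.le
        linarith)
    have hint : ∀ g : ℂ → ℝ, Continuous g → IntegrableOn g (ball w (7 / 10 * r)) := fun g hg =>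
      (hg.continuousOn.integrableOn_compact (isCompact_closedBall w _)).mono_set
        ball_subset_closedBall
    have h4 : ∫ z in ball x (r / 5), v z ≤ ∫ z in ball w (7 / 10 * r), v z := by
      refine setIntegral_mono_set (hint v hvs.continuous) ?_ ?_
      · refine (ae_restrict_iff' measurableSet_ball).2 (Eventually.of_forall fun z hz => ?_)
        have := hu0 z (ball_subset_closedBall hz)
        show 0 ≤ v z
        rw [hvu]
        linarith
      · refine LE.le.eventuallyLE (ball_subset_ball' ?_)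
        rw [mem_closedBall] at hx
        linarith
    have hvb : (volume (ball w (7 / 10 * r))).toReal = Real.pi * (7 / 10 * r) ^ 2 := by
      rw [Complex.volume_ball]
      simp [ENNReal.toReal_ofReal (by linarith : (0 : ℝ) ≤ 7 / 10 * r)]
      ring
    have h5 : ∫ z in ball w (7 / 10 * r), v z =
        (∫ z in ball w (7 / 10 * r), u z) + A * (Real.pi * (7 / 10 * r) ^ 2) := by
      have e : ∀ z, v z = u z + A := hvu
      rw [show v = fun z => u z + A from funext e, integral_add (hint u hus.continuous)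
        (hint _ continuous_const), setIntegral_const, smul_eq_mul]
      simp only [Measure.real]
      rw [hvb]
      ring
    have h6 : v x * (Real.pi * r ^ 2) ≤ 39 * A * (Real.pi * r ^ 2) := by
      have : 0 ≤ Real.pi * r ^ 2 * A := by positivity
      nlinarith
    have h7 : v x ≤ 39 * A := le_of_mul_le_mul_right h6 (by positivity)
    have h8 := habs x
    rw [abs_of_nonneg (hu0 x hxm), ← hvu] at h8
    linarith
  have hsn : sn h (closedBall w (r / 2)) ≤ 39 * A := by
    refine csSup_le ⟨_, ⟨w, mem_closedBall_self (by linarith), rfl⟩⟩ ?_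
    rintro _ ⟨z, hz, rfl⟩
    have h1 := hstep3 z hz
    have h2 : z ∈ closedBall w (9 / 10 * r) := closedBall_subset_closedBall (by linarith) hz
    rw [hHv z h2] at h1
    exact h1
  have h8 : S ≤ K * (39 * A) := hSK.trans (mul_le_mul_of_nonneg_left hsn (by linarith))
  have h9 : S * (Real.pi * r ^ 2) ≤ S * (K * (2925 / 2) * δ) := by
    have h10 := mul_le_mul_of_nonneg_right h8 (by positivity : (0 : ℝ) ≤ Real.pi * r ^ 2)
    have h11 : K * (39 * A) * (Real.pi * r ^ 2) = S * (K * (2925 / 2) * δ) := by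
      have : K * (39 * A) * (Real.pi * r ^ 2) = K * 39 * (A * (Real.pi * r ^ 2)) := by ring
      rw [this, hAeq]; ring
    linarith
  have h10 : Real.pi * r ^ 2 ≤ K * (2925 / 2) * δ := le_of_mul_le_mul_left h9 hS0
  have hK0 : 0 < K := by linarith
  rw [div_le_iff₀ hK0]
  have h11 : 3 * r ^ 2 ≤ Real.pi * r ^ 2 := mul_le_mul_of_nonneg_right hpi3.le (sq_nonneg r)
  have h12 : 0 ≤ K * δ := by positivity
  nlinarith

end Pool.Agent.Q73.AD
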