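import Pool.Agent.Q73.AD.StmQ
import Pool.Agent.Q73.NL.T4

/-!
# QB: squares which are large compared with the wavelength contain zeros
-/

set_option autoImplicit false
open MeasureTheory Filter Topology Complex Metric
open scoped ContDiff ComplexConjugate

namespace Pool.Agent.Q73.AD

open Pool.Agent.Q73.NL

lemma qb_compact (w : ℂ) (r : ℝ) : IsCompact {z : ℂ | |(z - w).re| ≤ r ∧ |(z - w).im| ≤ r} := by
  refine Metric.isCompact_of_isClosed_isBounded ?_ ?_
  · refine IsClosed.inter ?_ ?_
    · exact isClosed_le (f := fun z : ℂ => |(z - w).re|) (by fun_prop) continuous_const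
    · exact isClosed_le (f := fun z : ℂ => |(z - w).im|) (by fun_prop) continuous_const
  · refine (Metric.isBounded_closedBall (x := w) (r := 2 * r)).subset ?_
    rintro z ⟨h1, h2⟩
    rw [mem_closedBall, dist_eq_norm]
    refine (Complex.norm_le_abs_re_add_abs_im _).trans ?_
    linarith

lemma qb_conn (w : ℂ) (r : ℝ) : IsPreconnected {z : ℂ | |(z - w).re| ≤ r ∧ |(z - w).im| ≤ r} := by
  apply Convex.isPreconnected
  intro z hz z' hz' a b ha hb hab
  have e1 : (a • z + b • z' - w).re = a * (z - w).re + b * (z' - w).re := by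
    simp only [Complex.add_re, Complex.sub_re, Complex.real_smul, Complex.mul_re, Complex.ofReal_re,
      Complex.ofReal_im, zero_mul, sub_zero]
    linear_combination w.re * hab
  have e2 : (a • z + b • z' - w).im = a * (z - w).im + b * (z' - w).im := by
    simp only [Complex.add_im, Complex.sub_im, Complex.real_smul, Complex.mul_im, Complex.ofReal_re,
      Complex.ofReal_im, zero_mul, add_zero]
    linear_combination w.im * hab
  obtain ⟨h1, h2⟩ := hz
  obtain ⟨h3, h4⟩ := hz'
  constructor
  · rw [e1]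
    calc |a * (z - w).re + b * (z' - w).re| ≤ |a * (z - w).re| + |b * (z' - w).re| := abs_add_le _ _
      _ = a * |(z - w).re| + b * |(z' - w).re| := by rw [abs_mul, abs_mul, abs_of_nonneg ha, abs_of_nonneg hb]
      _ ≤ a * r + b * r := by gcongr
      _ = r := by rw [← add_mul, hab, one_mul]
  · rw [e2]
    calc |a * (z - w).im + b * (z' - w).im| ≤ |a * (z - w).im| + |b * (z' - w).im| := abs_add_le _ _
      _ = a * |(z - w).im| + b * |(z' - w).im| := by rw [abs_mul, abs_mul, abs_of_nonneg ha, abs_of_nonneg hb]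
      _ ≤ a * r + b * r := by gcongr
      _ = r := by rw [← add_mul, hab, one_mul]

lemma qb_main (lam ρ₀ r : ℝ) (w : ℂ) (ρ h : ℂ → ℝ) (hlam : 0 < lam) (hr : 0 < r)
    (hbig : Real.pi ^ 2 < 2 * ρ₀ * lam * r ^ 2)
    (hsol : ∀ z : ℂ, |(z - w).re| ≤ r → |(z - w).im| ≤ r →
      ContDiffAt ℝ ∞ h z ∧ ρ₀ ≤ ρ z ∧ lap h z + lam * ρ z * h z = 0)
    (hpos : ∀ z : ℂ, |(z - w).re| ≤ r → |(z - w).im| ≤ r → 0 < h z) : False := by
  set Q : Set ℂ := {z : ℂ | |(z - w).re| ≤ r ∧ |(z - w).im| ≤ r} with hQ
  set a : ℝ := Real.pi / (2 * r) with ha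
  have ha0 : 0 < a := by rw [ha]; have := Real.pi_pos; positivity
  have har : a * r = Real.pi / 2 := by rw [ha]; field_simp
  set φ : ℂ → ℝ := fun z => Real.cos (a * (z - w).re) * Real.cos (a * (z - w).im) with hφ
  have hφc : Continuous φ := by
    rw [hφ]
    fun_prop
  have hhc : ContinuousOn h Q := fun z hz =>
    (hsol z hz.1 hz.2).1.continuousAt.continuousWithinAt
  have hwQ : w ∈ Q := by
    refine ⟨?_, ?_⟩ <;> simp [hr.le]
  obtain ⟨y, hy, hmax⟩ := (qb_compact w r).exists_isMaxOn ⟨w, hwQ⟩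
    (hφc.continuousOn.div hhc fun z hz => (hpos z hz.1 hz.2).ne')
  set m : ℝ := φ y / h y with hm
  have hhy : 0 < h y := hpos y hy.1 hy.2
  have hmpos : 0 < m := by
    have h1 : φ w / h w ≤ m := hmax hwQ
    have h2 : φ w = 1 := by rw [hφ]; simp
    rw [h2] at h1
    have := hpos w hwQ.1 hwQ.2
    exact lt_of_lt_of_le (by positivity) h1
  have hφy : φ y = m * h y := by rw [hm, div_mul_cancel₀ _ hhy.ne']
  have hφpos : 0 < φ y := by rw [hφy]; positivity
  have hge : ∀ z ∈ Q, 0 ≤ m * h z - φ z := by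
    intro z hz
    have h1 : φ z / h z ≤ m := hmax hz
    rw [div_le_iff₀ (hpos z hz.1 hz.2)] at h1
    linarith
  -- the maximum is attained in the interior
  have hre : |(y - w).re| < r := by
    refine lt_of_le_of_ne hy.1 fun h => ?_
    have h1 : Real.cos (a * (y - w).re) = 0 := by
      rw [← Real.cos_abs, abs_mul, abs_of_pos ha0, h, har, Real.cos_pi_div_two]
    have h2 : φ y = 0 := by rw [hφ]; simp only; rw [h1, zero_mul]
    linarith
  have him : |(y - w).im| < r := by
    refine lt_of_le_of_ne hy.2 fun h => ?_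
    have h1 : Real.cos (a * (y - w).im) = 0 := by
      rw [← Real.cos_abs, abs_mul, abs_of_pos ha0, h, har, Real.cos_pi_div_two]
    have h2 : φ y = 0 := by rw [hφ]; simp only; rw [h1, mul_zero]
    linarith
  have hnhds : ∀ᶠ z in 𝓝 y, z ∈ Q := by
    have hop : IsOpen {z : ℂ | |(z - w).re| < r ∧ |(z - w).im| < r} := by
      refine IsOpen.inter ?_ ?_
      · exact isOpen_lt (f := fun z : ℂ => |(z - w).re|) (by fun_prop) continuous_const
      · exact isOpen_lt (f := fun z : ℂ => |(z - w).im|) (by fun_prop) continuous_const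
    filter_upwards [hop.mem_nhds (show y ∈ {z : ℂ | |(z - w).re| < r ∧ |(z - w).im| < r} from
      ⟨hre, him⟩)] with z hz
    exact ⟨hz.1.le, hz.2.le⟩
  obtain ⟨hsm, hρy, heq⟩ := hsol y hy.1 hy.2
  have hsm2 : ContDiffAt ℝ 2 h y := hsm.of_le (by norm_cast)
  have key : ∀ (e : ℂ) (p p' : ℝ → ℝ) (P : ℝ), (∀ s, φ (y + s • e) = p s) →
      (∀ s, HasDerivAt p (p' s) s) → HasDerivAt p' P 0 →
      0 ≤ m * fderiv ℝ (fun w => fderiv ℝ h w e) y e - P := by
    intro e p p' P hp hp' hP
    obtain ⟨h1, h2⟩ := line_der e hsm2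
    refine snd_test (h := fun s => m * h (y + s • e) - p s)
      (h' := fun s => m * fderiv ℝ h (y + s • e) e - p' s) ?_ ((h2.const_mul m).sub hP) ?_
    · filter_upwards [h1] with s hs
      exact (hs.const_mul m).sub (hp' s)
    · have h3 : Tendsto (fun s : ℝ => y + s • e) (𝓝 0) (𝓝 y) := by
        have := (line_cont y e).tendsto 0
        simpa using this
      filter_upwards [h3.eventually hnhds] with s hs
      have h4 := hge _ hs
      rw [hp] at h4
      have h5 : m * h (y + (0 : ℝ) • e) - p 0 = 0 := by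
        rw [← hp, zero_smul, add_zero, hφy, sub_self]
      rw [h5]
      exact h4
  have re1 : ∀ s : ℝ, (y + s • (1 : ℂ) - w).re = (y - w).re + s := by
    intro s
    simp
    ring
  have im1 : ∀ s : ℝ, (y + s • (1 : ℂ) - w).im = (y - w).im := by
    intro s
    simp
  have re2 : ∀ s : ℝ, (y + s • I - w).re = (y - w).re := by
    intro s
    simp
  have im2 : ∀ s : ℝ, (y + s • I - w).im = (y - w).im + s := by
    intro s
    simp
    ring
  have hx := key 1 (fun s => Real.cos (a * ((y - w).re + s)) * Real.cos (a * (y - w).im))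
    (fun s => -Real.sin (a * ((y - w).re + s)) * a * Real.cos (a * (y - w).im))
    (-(a ^ 2 * φ y)) (by
      intro s
      show Real.cos (a * (y + s • (1 : ℂ) - w).re) * Real.cos (a * (y + s • (1 : ℂ) - w).im) = _
      rw [re1, im1]) (by
      intro s
      have h1 : HasDerivAt (fun s : ℝ => a * ((y - w).re + s)) (a * 1) s :=
        ((hasDerivAt_id s).const_add _).const_mul a
      have h2 := (h1.cos).mul_const (Real.cos (a * (y - w).im))
      rwa [mul_one] at h2) (by
      have h1 : HasDerivAt (fun s : ℝ => a * ((y - w).re + s)) (a * 1) 0 :=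
        ((hasDerivAt_id (0 : ℝ)).const_add _).const_mul a
      have h2 : HasDerivAt (fun s => -Real.sin (a * ((y - w).re + s)) * a *
        Real.cos (a * (y - w).im)) _ 0 :=
        ((h1.sin).neg.mul_const a).mul_const (Real.cos (a * (y - w).im))
      refine h2.congr_deriv ?_
      rw [hφ]
      simp only [add_zero]
      ring)
  have hy' := key I (fun s => Real.cos (a * (y - w).re) * Real.cos (a * ((y - w).im + s)))
    (fun s => Real.cos (a * (y - w).re) * (-Real.sin (a * ((y - w).im + s)) * a))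
    (-(a ^ 2 * φ y)) (by
      intro s
      show Real.cos (a * (y + s • I - w).re) * Real.cos (a * (y + s • I - w).im) = _
      rw [re2, im2]) (by
      intro s
      have h1 : HasDerivAt (fun s : ℝ => a * ((y - w).im + s)) (a * 1) s :=
        ((hasDerivAt_id s).const_add _).const_mul a
      have h2 := (h1.cos).const_mul (Real.cos (a * (y - w).re))
      rwa [mul_one] at h2) (by
      have h1 : HasDerivAt (fun s : ℝ => a * ((y - w).im + s)) (a * 1) 0 :=
        ((hasDerivAt_id (0 : ℝ)).const_add _).const_mul a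
      have h2 : HasDerivAt (fun s => Real.cos (a * (y - w).re) *
        (-Real.sin (a * ((y - w).im + s)) * a)) _ 0 :=
        ((h1.sin).neg.mul_const a).const_mul (Real.cos (a * (y - w).re))
      refine h2.congr_deriv ?_
      rw [hφ]
      simp only [add_zero]
      ring)
  have hl : lap h y = fderiv ℝ (fun w => fderiv ℝ h w 1) y 1 + fderiv ℝ (fun w => fderiv ℝ h w I) y I := rfl
  have h1 : 0 ≤ m * lap h y + 2 * a ^ 2 * φ y := by
    rw [hl]; linarith
  have h2 : lap h y = -(lam * ρ y * h y) := by linarith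
  rw [h2] at h1
  have h3 : 0 ≤ φ y * (2 * a ^ 2 - lam * ρ y) := by
    have : m * -(lam * ρ y * h y) + 2 * a ^ 2 * φ y = φ y * (2 * a ^ 2 - lam * ρ y) := by
      rw [hφy]; ring
    rw [← this]; exact h1
  have h4 : 0 ≤ 2 * a ^ 2 - lam * ρ y := nonneg_of_mul_nonneg_right h3 hφpos
  have h5 : lam * ρ₀ ≤ lam * ρ y := mul_le_mul_of_nonneg_left hρy hlam.le
  have h6 : 2 * (a * r) ^ 2 = Real.pi ^ 2 / 2 := by rw [har]; ring
  have h7 : lam * ρ₀ * r ^ 2 ≤ 2 * a ^ 2 * r ^ 2 := by
    apply mul_le_mul_of_nonneg_right _ (by positivity)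
    linarith
  nlinarith

/-- QB -/
theorem tqb : QB := by
  intro lam ρ₀ r w ρ h hlam hρ hr hbig hsol
  by_contra hno
  push Not at hno
  have hhc : ContinuousOn h {z : ℂ | |(z - w).re| ≤ r ∧ |(z - w).im| ≤ r} := fun z hz =>
    (hsol z hz.1 hz.2).1.continuousAt.continuousWithinAt
  by_cases hall : ∀ z : ℂ, |(z - w).re| ≤ r → |(z - w).im| ≤ r → 0 < h z
  · exact qb_main lam ρ₀ r w ρ h hlam hr hbig hsol hall
  · push Not at hall
    obtain ⟨z₁, h1, h2, h3⟩ := hall
    refine qb_main lam ρ₀ r w ρ (fun z => -h z) hlam hr hbig ?_ ?_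
    · intro z hz1 hz2
      obtain ⟨g1, g2, g3⟩ := hsol z hz1 hz2
      refine ⟨g1.neg, g2, ?_⟩
      have e1 : dx (fun z => -h z) = fun z => -dx h z := by
        funext z
        unfold dx
        rw [fderiv_fun_neg]
        rfl
      have e2 : dy (fun z => -h z) = fun z => -dy h z := by
        funext z
        unfold dy
        rw [fderiv_fun_neg]
        rfl
      have e3 : lap (fun z => -h z) z = -lap h z := by
        unfold lap
        rw [e1, e2]
        have e4 : dx (fun z => -dx h z) z = -dx (dx h) z := by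
          rw [show dx (fun z => -dx h z) z = fderiv ℝ (fun z => -dx h z) z 1 from rfl, fderiv_fun_neg]
          rfl
        have e5 : dy (fun z => -dy h z) z = -dy (dy h) z := by
          rw [show dy (fun z => -dy h z) z = fderiv ℝ (fun z => -dy h z) z I from rfl, fderiv_fun_neg]
          rfl
        rw [e4, e5]; ring
      rw [e3]
      linarith
    · intro z hz1 hz2
      by_contra hcon
      have hneg : 0 < h z := by
        have h4 := hno z hz1 hz2
        have h5 : 0 ≤ h z := by linarith
        exact lt_of_le_of_ne h5 (Ne.symm h4)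
      obtain ⟨z₂, hz₂, hz₃⟩ := (qb_conn w r).intermediate_value (a := z₁) (b := z) ⟨h1, h2⟩ ⟨hz1, hz2⟩
        hhc ⟨h3, hneg.le⟩
      exact hno z₂ hz₂.1 hz₂.2 hz₃

end Pool.Agent.Q73.AD
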