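import Pool.Agent.Q73.AD.StmQ

/-!
# QD: the area of the positivity set in a square of fixed size
-/

set_option autoImplicit false
open MeasureTheory Filter Topology Complex Metric
open scoped ContDiff ComplexConjugate

namespace Pool.Agent.Q73.AD

open Pool.Agent.Q73.NL

namespace YQD

/-- centres of the squares -/
noncomputable def cc (p : ℂ) (n : ℕ) (t : ℝ) (i : Fin n × Fin n) : ℂ :=
  p + ((2 * (i.1 : ℝ) + 1 - n) * t : ℝ) + ((2 * (i.2 : ℝ) + 1 - n) * t : ℝ) * I

lemma cc_re (p : ℂ) (n : ℕ) (t : ℝ) (i : Fin n × Fin n) :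
    (cc p n t i).re = p.re + (2 * (i.1 : ℝ) + 1 - n) * t := by
  unfold cc; simp

lemma cc_im (p : ℂ) (n : ℕ) (t : ℝ) (i : Fin n × Fin n) :
    (cc p n t i).im = p.im + (2 * (i.2 : ℝ) + 1 - n) * t := by
  unfold cc; simp

lemma fin_abs {n : ℕ} (j : Fin n) : |2 * (j : ℝ) + 1 - n| ≤ n - 1 := by
  have h1 : (j : ℝ) + 1 ≤ n := by exact_mod_cast j.2
  have h2 : (0 : ℝ) ≤ j := by positivity
  rw [abs_le]
  constructor <;> linarith

lemma fin_sep {n : ℕ} {j k : Fin n} {t u : ℝ} (ht : 0 < t)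
    (h1 : |u - (2 * (j : ℝ) + 1 - n) * t| < t) (h2 : |u - (2 * (k : ℝ) + 1 - n) * t| < t) : j = k := by
  by_contra hne
  rw [abs_lt] at h1 h2
  rcases lt_or_gt_of_ne (fun h => hne (Fin.ext h) : (j : ℕ) ≠ k) with h | h
  · have h3 : (j : ℝ) + 1 ≤ k := by exact_mod_cast h
    nlinarith [h1.1, h1.2, h2.1, h2.2]
  · have h3 : (k : ℝ) + 1 ≤ j := by exact_mod_cast h
    nlinarith [h1.1, h1.2, h2.1, h2.2]

end YQD

open YQD

set_option maxHeartbeats 2000000 in
/-- QD -/
theorem tqd (h6 : Z6) (hA : QA) (hB : QB) : QD := by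
  classical
  obtain ⟨s₁, hs₁, h6⟩ := h6
  obtain ⟨cA, hcA, hA⟩ := hA
  refine ⟨s₁, hs₁, ?_⟩
  intro s L G₀ ρ₀ hs hss hL hG₀ hρ₀
  obtain ⟨a, ha⟩ : ∃ a : ℝ, a = Real.sqrt (1 / (10 * L)) := ⟨_, rfl⟩
  have hLp : 0 < L := by linarith
  have ha0 : 0 < a := by rw [ha]; positivity
  have ha2 : a ^ 2 * L = 1 / 10 := by
    rw [ha, Real.sq_sqrt (by positivity)]; field_simp
  obtain ⟨d₀, hd₀⟩ : ∃ d₀ : ℝ, d₀ = Real.sqrt (Real.pi ^ 2 / ρ₀) := ⟨_, rfl⟩
  have hpi := Real.pi_pos
  have hd₀0 : 0 < d₀ := by rw [hd₀]; positivity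
  have hd₀2 : ρ₀ * d₀ ^ 2 = Real.pi ^ 2 := by
    rw [hd₀, Real.sq_sqrt (by positivity)]; field_simp
  obtain ⟨d, hd⟩ : ∃ d : ℝ, d = d₀ + a := ⟨_, rfl⟩
  have hd0 : 0 < d := by rw [hd]; positivity
  obtain ⟨A, lamZ, hA0, hlamZ, hZ⟩ := h6 s L G₀ (a / 2) a 1 hs hss hL hG₀ (by positivity) ha0 one_pos
  obtain ⟨c₁, hc₁⟩ : ∃ c₁ : ℝ, c₁ = s ^ 2 / (4 * d ^ 2) := ⟨_, rfl⟩
  have hc₁0 : 0 < c₁ := by rw [hc₁]; positivity
  obtain ⟨K, hK⟩ : ∃ K : ℝ, K = Real.exp (2 * A / c₁) := ⟨_, rfl⟩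
  have hK1 : 1 ≤ K := by rw [hK]; exact Real.one_le_exp (by positivity)
  refine ⟨c₁ / 2 * (cA * a ^ 2 / K), max lamZ (d / s) ^ 2 + lamZ, by positivity, by positivity, ?_⟩
  intro lam p ρ φ hlam hLoc hρ hgr
  have hlam0 : 0 < lam := hLoc.lam_pos
  obtain ⟨q, hq⟩ : ∃ q : ℝ, q = Real.sqrt lam := ⟨_, rfl⟩
  have hq0 : 0 < q := by rw [hq]; exact Real.sqrt_pos.2 hlam0
  have hq2 : q ^ 2 = lam := by rw [hq]; exact Real.sq_sqrt hlam0.le
  have hqd : d / s ≤ q := by
    have h1 : max lamZ (d / s) ^ 2 ≤ q ^ 2 := by rw [hq2]; linarith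
    have h2 : max lamZ (d / s) ≤ q := (sq_le_sq₀ (by positivity) hq0.le).1 h1
    exact (le_max_right _ _).trans h2
  have hlamZ' : lamZ ≤ lam := by
    have : 0 ≤ max lamZ (d / s) ^ 2 := by positivity
    linarith
  -- the number of squares
  obtain ⟨n, hn⟩ : ∃ n : ℕ, n = ⌊s * q / d⌋₊ := ⟨_, rfl⟩
  have hx1 : 1 ≤ s * q / d := by
    rw [le_div_iff₀ hd0]
    rw [div_le_iff₀ hs] at hqd
    linarith
  have hn1 : 1 ≤ n := by rw [hn]; exact Nat.le_floor (by simpa using hx1)
  have hnle : (n : ℝ) ≤ s * q / d := by rw [hn]; exact Nat.floor_le (by positivity)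
  have hnge : s * q / d / 2 ≤ n := by
    have h1 : s * q / d < n + 1 := by rw [hn]; exact Nat.lt_floor_add_one _
    have h2 : (1 : ℝ) ≤ n := by exact_mod_cast hn1
    linarith
  have hn2 : c₁ * lam ≤ (n : ℝ) ^ 2 := by
    have h1 : (s * q / d / 2) ^ 2 ≤ (n : ℝ) ^ 2 := pow_le_pow_left₀ (by positivity) hnge 2
    refine le_trans (le_of_eq ?_) h1
    rw [hc₁, ← hq2]; field_simp; ring
  have hn0 : (0 : ℝ) < n := by exact_mod_cast hn1
  have hnd : n * (d / q) ≤ s := by
    rw [le_div_iff₀ hd0] at hnle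
    rw [← mul_div_assoc, div_le_iff₀ hq0]
    exact hnle
  obtain ⟨t, ht⟩ : ∃ t : ℝ, t = d / q := ⟨_, rfl⟩
  have ht0 : 0 < t := by rw [ht]; positivity
  have htsum : t = d₀ / q + a / q := by rw [ht, hd, add_div]
  rw [← ht] at hnd
  -- points close to the centre of a square are in the big square
  have hbig : ∀ (i : Fin n × Fin n) (z : ℂ), |(z - cc p n t i).re| ≤ t → |(z - cc p n t i).im| ≤ t →
      |(z - p).re| ≤ s ∧ |(z - p).im| ≤ s := by
    intro i z h1 h2
    have e1 : (z - p).re = (z - cc p n t i).re + (2 * (i.1 : ℝ) + 1 - n) * t := by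
      rw [Complex.sub_re, Complex.sub_re, cc_re]; ring
    have e2 : (z - p).im = (z - cc p n t i).im + (2 * (i.2 : ℝ) + 1 - n) * t := by
      rw [Complex.sub_im, Complex.sub_im, cc_im]; ring
    constructor
    · rw [e1]
      refine (abs_add_le _ _).trans ?_
      rw [abs_mul, abs_of_pos ht0]
      have := mul_le_mul_of_nonneg_right (fin_abs i.1) ht0.le
      rw [sub_mul, one_mul] at this
      linarith
    · rw [e2]
      refine (abs_add_le _ _).trans ?_
      rw [abs_mul, abs_of_pos ht0]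
      have := mul_le_mul_of_nonneg_right (fin_abs i.2) ht0.le
      rw [sub_mul, one_mul] at this
      linarith
  have hball2 : ∀ z : ℂ, |(z - p).re| ≤ s → |(z - p).im| ≤ s → z ∈ closedBall p (2 * s) := by
    intro z h1 h2
    rw [mem_closedBall, dist_eq_norm]
    refine (Complex.norm_le_abs_re_add_abs_im _).trans ?_
    linarith
  have h232 : closedBall p (2 * s) ⊆ closedBall p (32 * s) :=
    closedBall_subset_closedBall (by linarith)
  have hd₀t : d₀ / q ≤ t := by rw [htsum]; have : 0 < a / q := by positivity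
                               linarith
  -- the zeros
  have hzero : ∀ i : Fin n × Fin n, ∃ z : ℂ, |(z - cc p n t i).re| ≤ d₀ / q ∧
      |(z - cc p n t i).im| ≤ d₀ / q ∧ φ z = 0 := by
    intro i
    refine hB lam ρ₀ (d₀ / q) (cc p n t i) ρ φ hlam0 hρ₀ (by positivity) ?_ ?_
    · have h1 : 2 * ρ₀ * lam * (d₀ / q) ^ 2 = 2 * (ρ₀ * d₀ ^ 2) := by
        rw [← hq2]; field_simp
      rw [h1, hd₀2]
      have : 0 < Real.pi ^ 2 := by positivity
      linarith
    · intro z hz1 hz2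
      obtain ⟨g1, g2⟩ := hbig i z (hz1.trans hd₀t) (hz2.trans hd₀t)
      have hz := h232 (hball2 z g1 g2)
      obtain ⟨f1, -, -, -, -, f2⟩ := hLoc.sol z hz
      exact ⟨f1, hρ z hz, f2⟩
  choose w hw1 hw2 hw3 using hzero
  have hqa : 0 < a / q := by positivity
  -- discs
  have hdisc : ∀ (i : Fin n × Fin n) (z : ℂ), ‖z - w i‖ < a / q →
      |(z - cc p n t i).re| < t ∧ |(z - cc p n t i).im| < t := by
    intro i z hz
    have e1 : (z - cc p n t i).re = (z - w i).re + (w i - cc p n t i).re := by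
      simp only [Complex.sub_re]; ring
    have e2 : (z - cc p n t i).im = (z - w i).im + (w i - cc p n t i).im := by
      simp only [Complex.sub_im]; ring
    have h1 := Complex.abs_re_le_norm (z - w i)
    have h2 := Complex.abs_im_le_norm (z - w i)
    constructor
    · rw [e1]
      refine lt_of_le_of_lt (abs_add_le _ _) ?_
      have := hw1 i
      linarith [htsum]
    · rw [e2]
      refine lt_of_le_of_lt (abs_add_le _ _) ?_
      have := hw2 i
      linarith [htsum]
  have hcdisc : ∀ (i : Fin n × Fin n), closedBall (w i) (a / q) ⊆ closedBall p (2 * s) := by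
    intro i z hz
    rw [mem_closedBall, dist_eq_norm] at hz
    have e1 : (z - cc p n t i).re = (z - w i).re + (w i - cc p n t i).re := by
      simp only [Complex.sub_re]; ring
    have e2 : (z - cc p n t i).im = (z - w i).im + (w i - cc p n t i).im := by
      simp only [Complex.sub_im]; ring
    have h1 := Complex.abs_re_le_norm (z - w i)
    have h2 := Complex.abs_im_le_norm (z - w i)
    have g1 : |(z - cc p n t i).re| ≤ t := by
      rw [e1]
      refine (abs_add_le _ _).trans ?_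
      have := hw1 i
      linarith [htsum]
    have g2 : |(z - cc p n t i).im| ≤ t := by
      rw [e2]
      refine (abs_add_le _ _).trans ?_
      have := hw2 i
      linarith [htsum]
    obtain ⟨f1, f2⟩ := hbig i z g1 g2
    exact hball2 z f1 f2
  have hsepd : ∀ (i i' : Fin n × Fin n) (z : ℂ), ‖z - w i‖ < a / q → ‖z - w i'‖ < a / q → i = i' := by
    intro i i' z h1 h2
    obtain ⟨g1, g2⟩ := hdisc i z h1
    obtain ⟨g3, g4⟩ := hdisc i' z h2
    refine Prod.ext ?_ ?_
    · refine fin_sep (t := t) (u := (z - p).re) ht0 ?_ ?_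
      · have e : (z - p).re - (2 * (i.1 : ℝ) + 1 - n) * t = (z - cc p n t i).re := by
          rw [Complex.sub_re, Complex.sub_re, cc_re]; ring
        rw [e]; exact g1
      · have e : (z - p).re - (2 * (i'.1 : ℝ) + 1 - n) * t = (z - cc p n t i').re := by
          rw [Complex.sub_re, Complex.sub_re, cc_re]; ring
        rw [e]; exact g3
    · refine fin_sep (t := t) (u := (z - p).im) ht0 ?_ ?_
      · have e : (z - p).im - (2 * (i.2 : ℝ) + 1 - n) * t = (z - cc p n t i).im := by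
          rw [Complex.sub_im, Complex.sub_im, cc_im]; ring
        rw [e]; exact g2
      · have e : (z - p).im - (2 * (i'.2 : ℝ) + 1 - n) * t = (z - cc p n t i').im := by
          rw [Complex.sub_im, Complex.sub_im, cc_im]; ring
        rw [e]; exact g4
  -- Z6
  have hsum := hZ lam p ρ φ (Fin n × Fin n) w hlamZ' hLoc hgr
    (fun i => hbig i (w i) ((hw1 i).trans hd₀t) ((hw2 i).trans hd₀t)) (by
      intro x
      have h1 : Set.ncard {i | ‖x - w i‖ ≤ a / 2 / Real.sqrt lam} ≤ 1 := by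
        rw [Set.ncard_le_one (Set.toFinite _)]
        intro i hi i' hi'
        have hhalf : a / 2 / Real.sqrt lam < a / q := by
          rw [← hq]
          apply div_lt_div_of_pos_right _ hq0
          linarith
        exact hsepd i i' x (lt_of_le_of_lt hi hhalf) (lt_of_le_of_lt hi' hhalf)
      exact_mod_cast h1)
  rw [← hq] at hsum
  obtain ⟨ℓ, hℓ⟩ : ∃ ℓ : Fin n × Fin n → ℝ, ℓ = fun i => Real.log (sn φ (closedBall (w i) (a / q)) /
      sn φ (closedBall (w i) (a / 2 / q))) := ⟨_, rfl⟩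
  have hpos1 : ∀ i, 0 < sn φ (closedBall (w i) (a / q)) := fun i =>
    hLoc.pos _ _ (by positivity) ((hcdisc i).trans h232)
  have hsubhalf : ∀ i, closedBall (w i) (a / 2 / q) ⊆ closedBall (w i) (a / q) := fun i =>
    closedBall_subset_closedBall (by apply div_le_div_of_nonneg_right _ hq0.le; linarith)
  have hpos2 : ∀ i, 0 < sn φ (closedBall (w i) (a / 2 / q)) := fun i =>
    hLoc.pos _ _ (by positivity) ((hsubhalf i).trans ((hcdisc i).trans h232))
  have hcont : ContinuousOn φ (closedBall p (32 * s)) := fun z hz =>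
    (hLoc.sol z hz).1.continuousAt.continuousWithinAt
  have hℓ0 : ∀ i, 0 ≤ ℓ i := by
    intro i
    rw [hℓ]
    apply Real.log_nonneg
    rw [one_le_div (hpos2 i)]
    unfold sn
    refine csSup_le_csSup ?_ ((nonempty_closedBall.2 (by positivity)).image _)
      (Set.image_mono (hsubhalf i))
    exact (isCompact_closedBall _ _).bddAbove_image
      ((hcont.mono ((hcdisc i).trans h232)).abs)
  have hsum' : ∑ i, ℓ i ≤ A * lam := by rw [hℓ]; exact hsum
  -- the good discs
  set T : Finset (Fin n × Fin n) := Finset.univ.filter fun i => ℓ i ≤ 2 * A / c₁ with hT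
  have hTcard : (n : ℝ) ^ 2 / 2 ≤ T.card := by
    by_contra hcon
    push Not at hcon
    have hcardu : (Finset.univ : Finset (Fin n × Fin n)).card = n ^ 2 := by
      rw [Finset.card_univ, Fintype.card_prod, Fintype.card_fin]; ring
    have hsplit := Finset.card_filter_add_card_filter_not (s := (Finset.univ : Finset (Fin n × Fin n)))
      (fun i => ℓ i ≤ 2 * A / c₁)
    rw [hcardu, ← hT] at hsplit
    have hbad : (n : ℝ) ^ 2 / 2 <
        ((Finset.univ : Finset (Fin n × Fin n)).filter fun i => ¬ ℓ i ≤ 2 * A / c₁).card := by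
      have : (T.card : ℝ) + ((Finset.univ : Finset (Fin n × Fin n)).filter
          fun i => ¬ ℓ i ≤ 2 * A / c₁).card = (n : ℝ) ^ 2 := by exact_mod_cast hsplit
      linarith
    have h1 : ((Finset.univ : Finset (Fin n × Fin n)).filter fun i => ¬ ℓ i ≤ 2 * A / c₁).card •
        (2 * A / c₁) ≤ ∑ i ∈ (Finset.univ : Finset (Fin n × Fin n)).filter
          (fun i => ¬ ℓ i ≤ 2 * A / c₁), ℓ i := by
      refine Finset.card_nsmul_le_sum _ _ _ fun i hi => ?_
      exact (not_le.1 (Finset.mem_filter.1 hi).2).le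
    have h2 : ∑ i ∈ (Finset.univ : Finset (Fin n × Fin n)).filter
          (fun i => ¬ ℓ i ≤ 2 * A / c₁), ℓ i ≤ ∑ i, ℓ i :=
      Finset.sum_le_sum_of_subset_of_nonneg (Finset.filter_subset _ _) fun i _ _ => hℓ0 i
    rw [nsmul_eq_mul] at h1
    have h3 : (n : ℝ) ^ 2 / 2 * (2 * A / c₁) < A * lam := by
      have h4 : (n : ℝ) ^ 2 / 2 * (2 * A / c₁) < ((Finset.univ : Finset (Fin n × Fin n)).filter
          fun i => ¬ ℓ i ≤ 2 * A / c₁).card * (2 * A / c₁) :=
        mul_lt_mul_of_pos_right hbad (by positivity)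
      linarith
    have h5 : A * lam ≤ (n : ℝ) ^ 2 / 2 * (2 * A / c₁) := by
      have h6 : (n : ℝ) ^ 2 / 2 * (2 * A / c₁) = A * ((n : ℝ) ^ 2 / c₁) := by field_simp
      rw [h6]
      apply mul_le_mul_of_nonneg_left _ hA0.le
      rw [le_div_iff₀ hc₁0]
      linarith
    linarith
  have hgood : ∀ i ∈ T, cA * (a / q) ^ 2 / K ≤
      volume.real {z : ℂ | z ∈ ball (w i) (a / q) ∧ 0 < φ z} := by
    intro i hi
    have hi' : ℓ i ≤ 2 * A / c₁ := (Finset.mem_filter.1 hi).2
    have hsn : sn φ (closedBall (w i) (a / q)) ≤ K * sn φ (closedBall (w i) (a / q / 2)) := by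
      have e : a / q / 2 = a / 2 / q := by ring
      rw [e, ← div_le_iff₀ (hpos2 i), hK]
      rw [hℓ] at hi'
      exact (Real.log_le_iff_le_exp (div_pos (hpos1 i) (hpos2 i))).1 hi'
    refine hA K (a / q) (w i) φ hK1 (by positivity) ?_ (hw3 i) (hpos1 i) hsn
    intro z hz
    have hz' := h232 (hcdisc i hz)
    obtain ⟨f1, -, f3, f4, -, f2⟩ := hLoc.sol z hz'
    refine ⟨f1, ?_⟩
    have h4 : lap φ z = -(lam * ρ z * φ z) := by linarith
    rw [h4, abs_neg, abs_mul, abs_mul, abs_of_pos hlam0, abs_of_nonneg f3]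
    calc (a / q) ^ 2 * (lam * ρ z * |φ z|) ≤ (a / q) ^ 2 * (lam * L * |φ z|) := by gcongr
      _ = (a ^ 2 * L) * |φ z| := by rw [← hq2]; field_simp
      _ = |φ z| / 10 := by rw [ha2]; ring
  -- the sum of the areas
  have hopen : ∀ i, MeasurableSet {z : ℂ | z ∈ ball (w i) (a / q) ∧ 0 < φ z} := by
    intro i
    have h1 : ContinuousOn φ (ball (w i) (a / q)) :=
      hcont.mono (ball_subset_closedBall.trans ((hcdisc i).trans h232))
    exact (h1.isOpen_inter_preimage isOpen_ball isOpen_Ioi).measurableSet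
  have hdisj : (T : Set (Fin n × Fin n)).PairwiseDisjoint
      (fun i => {z : ℂ | z ∈ ball (w i) (a / q) ∧ 0 < φ z}) := by
    intro i _ i' _ hne
    rw [Function.onFun, Set.disjoint_left]
    rintro z ⟨h1, -⟩ ⟨h2, -⟩
    rw [mem_ball, dist_eq_norm] at h1 h2
    exact hne (hsepd i i' z h1 h2)
  have hfinite : volume {z : ℂ | z ∈ closedBall p (2 * s) ∧ 0 < φ z} ≠ ⊤ :=
    (lt_of_le_of_lt (measure_mono (fun z hz => hz.1)) measure_closedBall_lt_top).ne
  have hunion : volume.real (⋃ i ∈ T, {z : ℂ | z ∈ ball (w i) (a / q) ∧ 0 < φ z}) ≤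
      volume.real {z : ℂ | z ∈ closedBall p (2 * s) ∧ 0 < φ z} := by
    refine measureReal_mono ?_ hfinite
    intro z hz
    simp only [Set.mem_iUnion] at hz
    obtain ⟨i, _, hz1, hz2⟩ := hz
    exact ⟨hcdisc i (ball_subset_closedBall hz1), hz2⟩
  rw [measureReal_biUnion_finset hdisj (fun i _ => hopen i) (fun i _ =>
    (lt_of_le_of_lt (measure_mono (fun z hz => hz.1)) measure_ball_lt_top).ne)] at hunion
  refine le_trans ?_ hunion
  refine le_trans ?_ (Finset.card_nsmul_le_sum T _ _ hgood)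
  rw [nsmul_eq_mul]
  have h7 : cA * (a / q) ^ 2 / K = cA * a ^ 2 / K / lam := by rw [← hq2]; field_simp
  rw [h7]
  have h8 : 0 < cA * a ^ 2 / K := by positivity
  calc c₁ / 2 * (cA * a ^ 2 / K) = (c₁ * lam / 2) * (cA * a ^ 2 / K / lam) := by field_simp
    _ ≤ T.card * (cA * a ^ 2 / K / lam) := by
      apply mul_le_mul_of_nonneg_right _ (by positivity)
      linarith

end Pool.Agent.Q73.AD
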