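import Pool.Agent.Q73.AD.StmQ

/-!
# QF: the two-dimensional Hausdorff measure
-/

set_option autoImplicit false
open MeasureTheory Filter Topology Complex Metric
open scoped ContDiff ComplexConjugate NNReal ENNReal

namespace Pool.Agent.Q73.AD

open Pool.Agent.Q73.NL

universe u v

lemma qf_lip : LipschitzWith 1 (Complex.measurableEquivPi : ℂ → (Fin 2 → ℝ)) := by
  refine LipschitzWith.of_dist_le_mul fun z w => ?_
  rw [NNReal.coe_one, one_mul, dist_pi_le_iff dist_nonneg]
  intro i
  rw [Complex.measurableEquivPi_apply, Complex.measurableEquivPi_apply, dist_eq_norm z w]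
  fin_cases i
  · simp only [Fin.zero_eta, Matrix.cons_val_zero]
    rw [Real.dist_eq, ← Complex.sub_re]
    exact Complex.abs_re_le_norm _
  · simp only [Fin.mk_one, Matrix.cons_val_one, Matrix.cons_val_fin_one]
    rw [Real.dist_eq, ← Complex.sub_im]
    exact Complex.abs_im_le_norm _

lemma qf_lip' : LipschitzWith 2 (Complex.measurableEquivPi.symm : (Fin 2 → ℝ) → ℂ) := by
  refine LipschitzWith.of_dist_le_mul fun p q => ?_
  rw [Complex.measurableEquivPi_symm_apply, Complex.measurableEquivPi_symm_apply, dist_eq_norm]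
  have h0 : |p 0 - q 0| ≤ dist p q := by
    rw [← Real.dist_eq]; exact dist_le_pi_dist p q 0
  have h1 : |p 1 - q 1| ≤ dist p q := by
    rw [← Real.dist_eq]; exact dist_le_pi_dist p q 1
  refine (Complex.norm_le_abs_re_add_abs_im _).trans ?_
  simp only [Complex.sub_re, Complex.add_re, Complex.ofReal_re, Complex.mul_re, Complex.I_re,
    mul_zero, Complex.ofReal_im, Complex.I_im, mul_one, sub_self, add_zero, Complex.sub_im,
    Complex.add_im, Complex.mul_im, zero_add]
  rw [show ((2 : ℝ≥0) : ℝ) = 2 by rfl]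
  linarith

lemma qf_vol (E : Set ℂ) : volume ((Complex.measurableEquivPi : ℂ → (Fin 2 → ℝ)) '' E) = volume E := by
  have h := Complex.volume_preserving_equiv_pi.measure_preimage_equiv
    ((Complex.measurableEquivPi : ℂ → (Fin 2 → ℝ)) '' E)
  rw [Set.preimage_image_eq _ Complex.measurableEquivPi.injective] at h
  exact h.symm

lemma qf_haus : (μH[2] : Measure (Fin 2 → ℝ)) = volume := by
  have h := hausdorffMeasure_pi_real (ι := Fin 2)
  rw [Fintype.card_fin] at h
  norm_num at h
  exact h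

lemma qf_le (E : Set ℂ) : volume E ≤ (μH[2] : Measure ℂ) E := by
  rw [← qf_vol E, ← qf_haus]
  have := (qf_lip.lipschitzOnWith (s := E)).hausdorffMeasure_image_le (d := 2) (by norm_num)
  simpa using this

lemma qf_fin {E : Set ℂ} (h : volume E < ⊤) : (μH[2] : Measure ℂ) E < ⊤ := by
  have h1 := (qf_lip'.lipschitzOnWith (s := (Complex.measurableEquivPi : ℂ → (Fin 2 → ℝ)) '' E)).hausdorffMeasure_image_le
    (d := 2) (by norm_num)
  rw [← Set.image_comp] at h1
  have h2 : (Complex.measurableEquivPi.symm : (Fin 2 → ℝ) → ℂ) ∘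
      (Complex.measurableEquivPi : ℂ → (Fin 2 → ℝ)) = id := by
    funext z; simp
  rw [h2, Set.image_id, qf_haus, qf_vol] at h1
  refine lt_of_le_of_lt h1 ?_
  refine ENNReal.mul_lt_top ?_ h
  exact ENNReal.rpow_lt_top_of_nonneg (by norm_num) (by simp)

/-- QF -/
theorem tqf : QF.{u, v} := by
  intro M _ _ _
  constructor
  · intro c hc
    refine ⟨c ^ 2, by positivity, ?_⟩
    intro φ E hE
    have hinj : Set.InjOn φ E := by
      intro w hw w' hw' h
      have h1 := hE w hw w' hw'
      rw [h, dist_self] at h1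
      have h2 : ‖w - w'‖ ≤ 0 := by
        by_contra hcon
        push Not at hcon
        have := mul_pos hc hcon
        linarith
      exact sub_eq_zero.1 (norm_le_zero_iff.1 h2)
    have himg : (Function.invFunOn φ E) '' (φ '' E) = E := by
      ext z
      constructor
      · rintro ⟨_, ⟨w, hw, rfl⟩, rfl⟩
        exact Function.invFunOn_mem ⟨w, hw, rfl⟩
      · intro hz
        refine ⟨φ z, ⟨z, hz, rfl⟩, ?_⟩
        exact hinj.leftInvOn_invFunOn hz
    have hlip : LipschitzOnWith (Real.toNNReal c)⁻¹ (Function.invFunOn φ E) (φ '' E) := by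
      refine LipschitzOnWith.of_dist_le_mul ?_
      rintro _ ⟨w, hw, rfl⟩ _ ⟨w', hw', rfl⟩
      rw [hinj.leftInvOn_invFunOn hw, hinj.leftInvOn_invFunOn hw', dist_eq_norm,
        NNReal.coe_inv, Real.coe_toNNReal c hc.le, inv_mul_eq_div, le_div_iff₀ hc, mul_comm]
      exact hE w hw w' hw'
    have h1 := hlip.hausdorffMeasure_image_le (d := 2) (by norm_num)
    rw [himg] at h1
    have h2 := (qf_le E).trans h1
    have hc0 : (Real.toNNReal c : ℝ≥0) ≠ 0 := by
      rw [Ne, Real.toNNReal_eq_zero]; linarith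
    have h3 : (((Real.toNNReal c)⁻¹ : ℝ≥0) : ℝ≥0∞) = (ENNReal.ofReal c)⁻¹ := by
      rw [ENNReal.coe_inv hc0]; rfl
    rw [h3] at h2
    have hof : ENNReal.ofReal (c ^ 2) = (ENNReal.ofReal c) ^ 2 := ENNReal.ofReal_pow hc.le 2
    have hofne : ENNReal.ofReal c ≠ 0 := by
      rw [Ne, ENNReal.ofReal_eq_zero]; linarith
    have h4 : ((ENNReal.ofReal c)⁻¹ : ℝ≥0∞) ^ (2 : ℝ) = ((ENNReal.ofReal c) ^ 2)⁻¹ := by
      rw [show (2 : ℝ) = ((2 : ℕ) : ℝ) by norm_num, ENNReal.rpow_natCast, ENNReal.inv_pow]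
    rw [h4] at h2
    rw [hof]
    calc (ENNReal.ofReal c) ^ 2 * volume E ≤
        (ENNReal.ofReal c) ^ 2 * (((ENNReal.ofReal c) ^ 2)⁻¹ * μH[2] (φ '' E)) :=
          mul_le_mul_right h2 _
      _ = μH[2] (φ '' E) := by
          rw [← mul_assoc, ENNReal.mul_inv_cancel (pow_ne_zero 2 hofne)
            (ENNReal.pow_ne_top ENNReal.ofReal_ne_top), one_mul]
  · intro ι _ U φ ρ hA
    refine isCompact_univ.measure_lt_top_of_nhdsWithin fun x _ => ?_
    obtain ⟨i, z, hz, rfl⟩ := hA.cover x
    obtain ⟨r, c, hr, hc, hsub, hl⟩ := hA.lip i z hz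
    refine ⟨φ i '' ball z r, ?_, ?_⟩
    · rw [nhdsWithin_univ]
      exact (hA.opn i _ isOpen_ball hsub).mem_nhds ⟨z, mem_ball_self hr, rfl⟩
    · have hlip : LipschitzOnWith (Real.toNNReal c)⁻¹ (φ i) (ball z r) := by
        refine LipschitzOnWith.of_dist_le_mul ?_
        intro w hw w' hw'
        rw [NNReal.coe_inv, Real.coe_toNNReal c hc.le, inv_mul_eq_div, le_div_iff₀ hc, mul_comm,
          dist_eq_norm w w']
        exact (hl w hw w' hw').2
      have h1 := hlip.hausdorffMeasure_image_le (d := 2) (by norm_num)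
      refine lt_of_le_of_lt h1 (ENNReal.mul_lt_top ?_ (qf_fin measure_ball_lt_top))
      exact ENNReal.rpow_lt_top_of_nonneg (by norm_num) (by simp)

end Pool.Agent.Q73.AD
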