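import Pool.Agent.Q73.AD.StmQ
import Pool.Agent.Q73.AD.TG4

/-!
# QG: the area of the positivity set, large eigenvalues
-/

set_option autoImplicit false
open MeasureTheory Filter Topology Complex Metric
open scoped ContDiff ComplexConjugate

namespace Pool.Agent.Q73.AD

open Pool.Agent.Q73.NL

universe u v

namespace YQG

open TG4

lemma sn_le {X : Type*} {M : Type u} {f : M → ℝ} (hb : BddAbove ((fun x => |f x|) '' Set.univ))
    (φ : X → M) {E : Set X} (hE : E.Nonempty) : sn (fun z => f (φ z)) E ≤ sn f Set.univ := by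
  unfold sn
  refine csSup_le_csSup hb (hE.image _) ?_
  rintro _ ⟨z, _, rfl⟩
  exact ⟨φ z, trivial, rfl⟩

lemma le_sn' {X : Type*} {M : Type u} {f : M → ℝ} (hb : BddAbove ((fun x => |f x|) '' Set.univ))
    (φ : X → M) {E : Set X} {B : Set M} (hB : B.Nonempty) (h : B ⊆ φ '' E) :
    sn f B ≤ sn (fun z => f (φ z)) E := by
  unfold sn
  refine csSup_le_csSup ?_ (hB.image _) ?_
  · refine hb.mono ?_
    rintro _ ⟨z, _, rfl⟩
    exact ⟨φ z, trivial, rfl⟩
  · rintro _ ⟨y, hy, rfl⟩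
    obtain ⟨z, hz, rfl⟩ := h hy
    exact ⟨z, hz, rfl⟩

/-- positivity of the suprema -/
lemma pos_sn {M : Type u} {ι : Type v} [MetricSpace M] [CompactSpace M] [ConnectedSpace M]
    (h1 : G1.{u, v}) {U : ι → Set ℂ} {φ : ι → ℂ → M} {ρ : ι → ℂ → ℝ} (hA : Atl U φ ρ) {lam : ℝ}
    {f : M → ℝ} (hlam : 0 ≤ lam) (hf : Eig U φ ρ lam f) (hne : ∃ x, f x ≠ 0) (x : M) {r : ℝ}
    (hr : 0 < r) : 0 < sn f (ball x r) := by
  have hb : BddAbove ((fun x => |f x|) '' Set.univ) :=
    isCompact_univ.bddAbove_image (cont hA hf).abs.continuousOn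
  obtain ⟨Cr, -, hgrr⟩ := h1 M ι U φ ρ hA r hr
  obtain ⟨x₀, hx₀⟩ := hne
  have h4 := (abs_pos.2 hx₀).trans_le ((le_sn hb x₀).trans (hgrr lam f hlam hf x))
  exact (mul_pos_iff_of_pos_left (Real.exp_pos _)).1 h4

end YQG

open YQG TG4

/-- QG -/
theorem tqg (h1 : G1.{u, v}) (hD : QD) (hF : QF.{u, v}) : QG.{u, v} := by
  intro M ι _ _ _ _ _ U φ ρ hA hρpos
  obtain ⟨s₁, hs₁, hD⟩ := hD
  obtain ⟨i, z, hz, -⟩ := hA.cover (Classical.arbitrary M)
  obtain ⟨r₀, c₀, hr₀, hc₀, hball, hlip⟩ := hA.lip i z hz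
  obtain ⟨s, hs⟩ : ∃ s : ℝ, s = min s₁ (min 1 (r₀ / 64)) := ⟨_, rfl⟩
  have hs0 : 0 < s := by rw [hs]; positivity
  have hss₁ : s ≤ s₁ := by rw [hs]; exact min_le_left _ _
  have hs1 : s ≤ 1 := by rw [hs]; exact (min_le_right _ _).trans (min_le_left _ _)
  have hsr : s ≤ r₀ / 64 := by rw [hs]; exact (min_le_right _ _).trans (min_le_right _ _)
  have hcb : closedBall z (32 * s) ⊆ ball z r₀ := closedBall_subset_ball (by linarith)
  have hcomp : IsCompact (closedBall z (32 * s)) := isCompact_closedBall _ _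
  have hc1 : ContinuousOn (ρ i) (U i) := (hA.dens i).continuousOn
  have hc2 : ContinuousOn (fderiv ℝ (ρ i)) (U i) :=
    (hA.dens i).continuousOn_fderiv_of_isOpen (hA.dom i) le_rfl
  obtain ⟨L1, hL1⟩ := hcomp.exists_bound_of_continuousOn (hc1.mono (hcb.trans hball))
  obtain ⟨L2, hL2⟩ := hcomp.exists_bound_of_continuousOn (hc2.mono (hcb.trans hball))
  obtain ⟨L, hL⟩ : ∃ L : ℝ, L = max 1 (max L1 L2) := ⟨_, rfl⟩
  have hLL1 : L1 ≤ L := by rw [hL]; exact (le_max_left _ _).trans (le_max_right _ _)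
  have hLL2 : L2 ≤ L := by rw [hL]; exact (le_max_right _ _).trans (le_max_right _ _)
  have hL1' : 1 ≤ L := by rw [hL]; exact le_max_left _ _
  obtain ⟨y, hy, hmin⟩ := hcomp.exists_isMinOn ⟨z, mem_closedBall_self (by positivity)⟩
    (hc1.mono (hcb.trans hball))
  have hρ₀ : 0 < ρ i y := hρpos i y (hball (hcb hy))
  have hO : IsOpen (φ i '' ball z (2 * s)) :=
    hA.opn i _ isOpen_ball ((ball_subset_closedBall.trans
      ((closedBall_subset_closedBall (by linarith)).trans hcb)).trans hball)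
  obtain ⟨r, hr, hrsub⟩ := Metric.isOpen_iff.1 hO (φ i z) ⟨z, mem_ball_self (by positivity), rfl⟩
  obtain ⟨C, hC, hgr⟩ := h1 M ι U φ ρ hA r hr
  obtain ⟨cD, lamD, hcD, hlamD, hD'⟩ := hD s L (2 * C / s) (ρ i y) hs0 hss₁ hL1' (by positivity) hρ₀
  obtain ⟨hF1, hF2⟩ := hF M
  obtain ⟨c', hc', hF1'⟩ := hF1 c₀ hc₀
  have hfin : μH[2] (Set.univ : Set M) < ⊤ := hF2 ι U φ ρ hA
  refine ⟨c' * cD, max 1 lamD, by positivity, by positivity, ?_⟩
  intro lam f hlam hf hne
  have hlam1 : 1 ≤ lam := (le_max_left _ _).trans hlam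
  have hlam0 : 0 < lam := by linarith
  have hb : BddAbove ((fun x => |f x|) '' Set.univ) :=
    isCompact_univ.bddAbove_image (cont hA hf).abs.continuousOn
  have hpos : ∀ (x : M) {r : ℝ}, 0 < r → 0 < sn f (ball x r) := fun x r hr =>
    pos_sn h1 hA hlam0.le hf hne x hr
  have hposc : ∀ (z' : ℂ) (r' : ℝ), 0 < r' → closedBall z' r' ⊆ closedBall z (32 * s) →
      0 < sn (fun w => f (φ i w)) (closedBall z' r') := by
    intro z' r' hr' hsub
    have hO' : IsOpen (φ i '' ball z' r') :=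
      hA.opn i _ isOpen_ball ((ball_subset_closedBall.trans (hsub.trans hcb)).trans hball)
    obtain ⟨r'', hr'', hsub''⟩ := Metric.isOpen_iff.1 hO' (φ i z') ⟨z', mem_ball_self hr', rfl⟩
    refine (hpos (φ i z') hr'').trans_le (le_sn' hb (φ i) ⟨φ i z', mem_ball_self hr''⟩ ?_)
    exact hsub''.trans (Set.image_mono ball_subset_closedBall)
  have hLoc : Loc lam L s z (ρ i) (fun w => f (φ i w)) := by
    refine ⟨hlam0, hs0, hs1, ?_, hposc⟩
    intro w hw
    have hwU : w ∈ U i := hball (hcb hw)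
    have hnh : U i ∈ 𝓝 w := (hA.dom i).mem_nhds hwU
    refine ⟨(hf i).1.contDiffAt hnh, (hA.dens i).contDiffAt hnh, (hρpos i w hwU).le, ?_, ?_,
      (hf i).2 w hwU⟩
    · have := hL1 w hw
      rw [Real.norm_eq_abs] at this
      exact (le_abs_self _).trans (this.trans hLL1)
    · exact (hL2 w hw).trans hLL2
  have hsq : 1 ≤ Real.sqrt lam := by
    rw [show (1 : ℝ) = Real.sqrt 1 by simp]
    exact Real.sqrt_le_sqrt hlam1
  have hgrb : gr (fun w => f (φ i w)) z s ≤ 2 * C / s * (Real.sqrt lam * s) := by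
    unfold gr
    have hp1 := hposc z (32 * s) (by positivity) subset_rfl
    have hp2 := hposc z (2 * s) (by positivity) (closedBall_subset_closedBall (by linarith))
    have h2 : sn (fun w => f (φ i w)) (closedBall z (32 * s)) /
        sn (fun w => f (φ i w)) (closedBall z (2 * s)) ≤ Real.exp (C * (1 + Real.sqrt lam)) := by
      rw [div_le_iff₀ hp2]
      refine (sn_le hb (φ i) ⟨z, mem_closedBall_self (by positivity)⟩).trans
        ((hgr lam f hlam0.le hf (φ i z)).trans ?_)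
      apply mul_le_mul_of_nonneg_left _ (Real.exp_pos _).le
      exact le_sn' hb (φ i) ⟨φ i z, mem_ball_self hr⟩
        (hrsub.trans (Set.image_mono ball_subset_closedBall))
    have h3 := Real.log_le_log (div_pos hp1 hp2) h2
    rw [Real.log_exp] at h3
    refine h3.trans ?_
    have h4 : 2 * C / s * (Real.sqrt lam * s) = 2 * C * Real.sqrt lam := by field_simp
    rw [h4]
    nlinarith
  have hvol := hD' lam z (ρ i) (fun w => f (φ i w)) ((le_max_right _ _).trans hlam) hLoc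
    (fun w hw => hmin hw) hgrb
  have hEsub : ∀ w ∈ {w : ℂ | w ∈ closedBall z (2 * s) ∧ 0 < f (φ i w)}, w ∈ ball z r₀ :=
    fun w hw => hcb (closedBall_subset_closedBall (by linarith) hw.1)
  have hF := hF1' (φ i) {w : ℂ | w ∈ closedBall z (2 * s) ∧ 0 < f (φ i w)}
    (fun w hw w' hw' => (hlip w (hEsub w hw) w' (hEsub w' hw')).1)
  have hsub : φ i '' {w : ℂ | w ∈ closedBall z (2 * s) ∧ 0 < f (φ i w)} ⊆ {x | 0 < f x} := by
    rintro _ ⟨w, hw, rfl⟩
    exact hw.2
  have hne_top : μH[2] {x : M | 0 < f x} ≠ ⊤ :=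
    (lt_of_le_of_lt (measure_mono (Set.subset_univ _)) hfin).ne
  have h5 := ENNReal.toReal_mono hne_top (hF.trans (measure_mono hsub))
  rw [ENNReal.toReal_mul, ENNReal.toReal_ofReal hc'.le] at h5
  refine le_trans ?_ h5
  exact mul_le_mul_of_nonneg_left hvol hc'.le

end Pool.Agent.Q73.AD
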