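import Pool.Agent.Q73.AD.YQG
import Pool.Agent.Q73.NL.T4

/-!
# QH: the area of the positivity set, bounded eigenvalues
-/

set_option autoImplicit false
open MeasureTheory Filter Topology Complex Metric
open scoped ContDiff ComplexConjugate

namespace Pool.Agent.Q73.AD

open Pool.Agent.Q73.NL

universe u v

namespace YQH

lemma lap_neg (h : ℂ → ℝ) (z : ℂ) : lap (fun z => -h z) z = -lap h z := by
  have e1 : dx (fun z => -h z) = fun z => -dx h z := by
    funext z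
    unfold dx
    rw [fderiv_fun_neg]
    rfl
  have e2 : dy (fun z => -h z) = fun z => -dy h z := by
    funext z
    unfold dy
    rw [fderiv_fun_neg]
    rfl
  unfold lap
  rw [e1, e2]
  have e4 : dx (fun z => -dx h z) z = -dx (dx h) z := by
    rw [show dx (fun z => -dx h z) z = fderiv ℝ (fun z => -dx h z) z 1 from rfl, fderiv_fun_neg]
    rfl
  have e5 : dy (fun z => -dy h z) z = -dy (dy h) z := by
    rw [show dy (fun z => -dy h z) z = fderiv ℝ (fun z => -dy h z) z I from rfl, fderiv_fun_neg]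
    rfl
  rw [e4, e5]; ring

/-- the Laplacian at a local minimum -/
lemma lap_min {h : ℂ → ℝ} {z : ℂ} (hs : ContDiffAt ℝ 2 h z) (hm : IsLocalMin h z) : 0 ≤ lap h z := by
  have key : ∀ e : ℂ, 0 ≤ fderiv ℝ (fun w => fderiv ℝ h w e) z e := by
    intro e
    obtain ⟨h1, h2⟩ := line_der e hs
    refine snd_test h1 h2 ?_
    have h3 : Tendsto (fun s : ℝ => z + s • e) (𝓝 0) (𝓝 z) := by
      have := (line_cont z e).tendsto 0
      simpa using this
    have h4 := h3.eventually hm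
    filter_upwards [h4] with s hs
    have h5 : h (z + (0 : ℝ) • e) = h z := by rw [zero_smul, add_zero]
    rw [h5]
    exact hs
  exact add_nonneg (key 1) (key I)

/-- eigenfunctions are nonpositive at a minimum -/
lemma min_nonpos {M : Type u} {ι : Type v} [MetricSpace M]
    {U : ι → Set ℂ} {φ : ι → ℂ → M} {ρ : ι → ℂ → ℝ} (hA : Atl U φ ρ)
    (hρ : ∀ i, ∀ z ∈ U i, 0 < ρ i z) {lam : ℝ} (hlam : 0 < lam) {f : M → ℝ}
    (hf : Eig U φ ρ lam f) {x : M} (hx : ∀ y, f x ≤ f y) : f x ≤ 0 := by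
  obtain ⟨i, z, hz, rfl⟩ := hA.cover x
  have hnh : U i ∈ 𝓝 z := (hA.dom i).mem_nhds hz
  have h1 : ContDiffAt ℝ 2 (fun z => f (φ i z)) z := ((hf i).1.contDiffAt hnh).of_le (by norm_cast)
  have h2 := lap_min h1 (Filter.Eventually.of_forall fun w => hx (φ i w))
  have h3 := (hf i).2 z hz
  by_contra hcon
  push Not at hcon
  have h4 : 0 < lam * ρ i z * f (φ i z) := mul_pos (mul_pos hlam (hρ i z hz)) hcon
  linarith

lemma eig_neg {M : Type u} {ι : Type v} {U : ι → Set ℂ} {φ : ι → ℂ → M} {ρ : ι → ℂ → ℝ}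
    {lam : ℝ} {f : M → ℝ} (hf : Eig U φ ρ lam f) : Eig U φ ρ lam (fun x => -f x) := by
  intro i
  refine ⟨(hf i).1.neg, fun z hz => ?_⟩
  rw [lap_neg (fun z => f (φ i z))]
  have := (hf i).2 z hz
  linarith

lemma has_zero {M : Type u} {ι : Type v} [MetricSpace M] [CompactSpace M] [ConnectedSpace M]
    {U : ι → Set ℂ} {φ : ι → ℂ → M} {ρ : ι → ℂ → ℝ} (hA : Atl U φ ρ)
    (hρ : ∀ i, ∀ z ∈ U i, 0 < ρ i z) {lam : ℝ} (hlam : 0 < lam) {f : M → ℝ}
    (hf : Eig U φ ρ lam f) : ∃ x, f x = 0 := by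
  have hc : Continuous f := TG4.cont hA hf
  obtain ⟨x₁, -, h1⟩ := isCompact_univ.exists_isMinOn (Set.univ_nonempty (α := M)) hc.continuousOn
  obtain ⟨x₂, -, h2⟩ := isCompact_univ.exists_isMaxOn (Set.univ_nonempty (α := M)) hc.continuousOn
  have h3 : f x₁ ≤ 0 := min_nonpos hA hρ hlam hf fun y => h1 (Set.mem_univ y)
  have h4 : -f x₂ ≤ 0 := min_nonpos hA hρ hlam (eig_neg hf) (x := x₂) fun y =>
    neg_le_neg (h2 (Set.mem_univ y))
  obtain ⟨x, hx⟩ := mem_range_of_exists_le_of_exists_ge hc ⟨x₁, h3⟩ ⟨x₂, by linarith⟩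
  exact ⟨x, hx⟩

lemma exists_lb {n : ℕ} (v : Fin n → ℝ) (hv : ∀ a, 0 < v a) : ∃ m : ℝ, 0 < m ∧ ∀ a, m ≤ v a := by
  rcases isEmpty_or_nonempty (Fin n) with h | h
  · exact ⟨1, one_pos, fun a => (h.false a).elim⟩
  · obtain ⟨a, ha⟩ := Finite.exists_min v
    exact ⟨v a, hv a, ha⟩

end YQH

open YQG YQH TG4

/-- QH -/
theorem tqh (h1 : G1.{u, v}) (h2 : G2.{u, v}) (hA : QA) (hF : QF.{u, v}) : QH.{u, v} := by
  intro M ι _ _ _ _ _ U φ ρ hAt hρpos lam₀ hlam₀
  obtain ⟨cA, hcA, hQA⟩ := hA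
  obtain ⟨n, i, z, R, c, L, δ, hG, hcov⟩ := h2 M ι U φ ρ hAt
  obtain ⟨hF1, hF2⟩ := hF M
  have hfin : μH[2] (Set.univ : Set M) < ⊤ := hF2 ι U φ ρ hAt
  have hc : ∀ a : Fin n, 0 < c := fun a => (hG a).c_pos
  have hL : ∀ a : Fin n, 1 ≤ L := fun a => (hG a).L_ge
  have hδ : ∀ a : Fin n, 0 < δ := fun a => (hG a).δ_pos
  -- constants for every piece
  have hpiece : ∀ a : Fin n, ∃ v : ℝ, 0 < v ∧ ∀ (lam : ℝ) (f : M → ℝ), 0 < lam → lam ≤ lam₀ →
      Eig U φ ρ lam f → (∃ x, f x ≠ 0) → ∀ w ∈ closedBall (z a) (R a), f (φ (i a) w) = 0 →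
      v ≤ (μH[2] {x | 0 < f x}).toReal := by
    intro a
    obtain ⟨c', hc', hF1'⟩ := hF1 c (hc a)
    have hRp := (hG a).R_pos
    have hLp : 0 < L := by linarith [hL a]
    obtain ⟨r, hr⟩ : ∃ r : ℝ, r = min (R a / 2) (Real.sqrt (1 / (10 * lam₀ * L))) := ⟨_, rfl⟩
    have hr0 : 0 < r := by rw [hr]; positivity
    have hrR : r ≤ R a / 2 := by rw [hr]; exact min_le_left _ _
    have hrs : r ^ 2 * (lam₀ * L) ≤ 1 / 10 := by
      have h3 : r ≤ Real.sqrt (1 / (10 * lam₀ * L)) := by rw [hr]; exact min_le_right _ _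
      have h4 : r ^ 2 ≤ 1 / (10 * lam₀ * L) := by
        calc r ^ 2 ≤ Real.sqrt (1 / (10 * lam₀ * L)) ^ 2 := pow_le_pow_left₀ hr0.le h3 2
          _ = 1 / (10 * lam₀ * L) := Real.sq_sqrt (by positivity)
      calc r ^ 2 * (lam₀ * L) ≤ 1 / (10 * lam₀ * L) * (lam₀ * L) := by gcongr
        _ = 1 / 10 := by field_simp
    obtain ⟨r', hr'⟩ : ∃ r' : ℝ, r' = min (c * r / 2) δ / 2 := ⟨_, rfl⟩
    have hcp := hc a
    have hδp := hδ a
    have hr'0 : 0 < r' := by rw [hr']; positivity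
    have hr'1 : r' ≤ c * r / 2 / 2 := by rw [hr']; gcongr; exact min_le_left _ _
    have hr'2 : r' ≤ δ / 2 := by rw [hr']; gcongr; exact min_le_right _ _
    obtain ⟨C, hC, hgr⟩ := h1 M ι U φ ρ hAt r' hr'0
    obtain ⟨K, hK⟩ : ∃ K : ℝ, K = Real.exp (C * (1 + Real.sqrt lam₀)) := ⟨_, rfl⟩
    have hK1 : 1 ≤ K := by rw [hK]; exact Real.one_le_exp (by positivity)
    refine ⟨c' * (cA * r ^ 2 / K), by positivity, ?_⟩
    intro lam f hlam hlam' hf hne w hw hfw
    have hb : BddAbove ((fun x => |f x|) '' Set.univ) :=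
      isCompact_univ.bddAbove_image (cont hAt hf).abs.continuousOn
    have hwr : closedBall w r ⊆ closedBall (z a) (2 * R a) := by
      refine closedBall_subset_closedBall' ?_
      have : dist w (z a) ≤ R a := hw
      linarith
    have hsub : ball (φ (i a) w) r' ⊆ φ (i a) '' closedBall w (r / 2) := by
      intro y hy
      have hw' : w ∈ closedBall (z a) (3 * R a / 2) := closedBall_subset_closedBall (by linarith) hw
      obtain ⟨w', hw'', rfl⟩ := (hG a).surj w hw' (ball_subset_ball (by linarith) hy)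
      refine ⟨w', ?_, rfl⟩
      have h3 := ((hG a).lip w' hw'' w (closedBall_subset_closedBall (by linarith) hw)).1
      have h4 : dist (φ (i a) w') (φ (i a) w) < r' := hy
      rw [mem_closedBall, dist_eq_norm]
      have h5 : c * ‖w' - w‖ ≤ c * (r / 2) := by linarith
      exact le_of_mul_le_mul_left h5 hcp
    have hposr : 0 < sn (fun z => f (φ (i a) z)) (closedBall w (r / 2)) :=
      (pos_sn h1 hAt hlam.le hf hne (φ (i a) w) hr'0).trans_le
        (le_sn' hb (φ (i a)) ⟨_, mem_ball_self hr'0⟩ hsub)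
    have hsnr : sn (fun z => f (φ (i a) z)) (closedBall w r) ≤
        K * sn (fun z => f (φ (i a) z)) (closedBall w (r / 2)) := by
      refine (sn_le hb (φ (i a)) ⟨w, mem_closedBall_self hr0.le⟩).trans
        ((hgr lam f hlam.le hf (φ (i a) w)).trans ?_)
      have h3 := le_sn' hb (φ (i a)) ⟨_, mem_ball_self hr'0⟩ hsub
      have h4 : Real.exp (C * (1 + Real.sqrt lam)) ≤ K := by
        rw [hK]
        apply Real.exp_le_exp.2
        gcongr
      exact mul_le_mul h4 h3 (pos_sn h1 hAt hlam.le hf hne _ hr'0).le (by linarith)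
    have hposr' : 0 < sn (fun z => f (φ (i a) z)) (closedBall w r) := by
      by_contra hcon
      push Not at hcon
      have hsubr : sn (fun z => f (φ (i a) z)) (closedBall w (r / 2)) ≤
          sn (fun z => f (φ (i a) z)) (closedBall w r) := by
        refine sn_mono (closedBall_subset_closedBall (by linarith))
          ⟨w, mem_closedBall_self (by linarith)⟩ ?_
        refine hb.mono ?_
        rintro _ ⟨z', _, rfl⟩
        exact ⟨φ (i a) z', trivial, rfl⟩
      linarith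
    have hvol := hQA K r w (fun z => f (φ (i a) z)) hK1 hr0 (by
      intro z' hz'
      have hzU : z' ∈ U (i a) := (hG a).sub (hwr hz')
      have hnh : U (i a) ∈ 𝓝 z' := (hAt.dom (i a)).mem_nhds hzU
      refine ⟨(hf (i a)).1.contDiffAt hnh, ?_⟩
      have h3 := (hf (i a)).2 z' hzU
      have h4 : lap (fun z => f (φ (i a) z)) z' = -(lam * ρ (i a) z' * f (φ (i a) z')) := by linarith
      rw [h4, abs_neg, abs_mul, abs_mul, abs_of_pos hlam]
      have h5 : |ρ (i a) z'| ≤ L := ((hG a).bd z' (hwr hz')).1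
      calc r ^ 2 * (lam * |ρ (i a) z'| * |f (φ (i a) z')|) ≤
          r ^ 2 * (lam₀ * L * |f (φ (i a) z')|) := by gcongr
        _ = (r ^ 2 * (lam₀ * L)) * |f (φ (i a) z')| := by ring
        _ ≤ 1 / 10 * |f (φ (i a) z')| := by gcongr
        _ = |f (φ (i a) z')| / 10 := by ring) hfw hposr' hsnr
    have hEsub : ∀ w' ∈ {z' : ℂ | z' ∈ ball w r ∧ 0 < f (φ (i a) z')},
        w' ∈ closedBall (z a) (2 * R a) := fun w' hw' => hwr (ball_subset_closedBall hw'.1)
    have hF' := hF1' (φ (i a)) {z' : ℂ | z' ∈ ball w r ∧ 0 < f (φ (i a) z')}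
      (fun w₁ hw₁ w₂ hw₂ => ((hG a).lip w₁ (hEsub w₁ hw₁) w₂ (hEsub w₂ hw₂)).1)
    have hsub' : φ (i a) '' {z' : ℂ | z' ∈ ball w r ∧ 0 < f (φ (i a) z')} ⊆ {x | 0 < f x} := by
      rintro _ ⟨w', hw', rfl⟩
      exact hw'.2
    have hne_top : μH[2] {x : M | 0 < f x} ≠ ⊤ :=
      (lt_of_le_of_lt (measure_mono (Set.subset_univ _)) hfin).ne
    have h5 := ENNReal.toReal_mono hne_top (hF'.trans (measure_mono hsub'))
    rw [ENNReal.toReal_mul, ENNReal.toReal_ofReal hc'.le] at h5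
    refine le_trans ?_ h5
    exact mul_le_mul_of_nonneg_left hvol hc'.le
  choose v hv0 hv using hpiece
  obtain ⟨m, hm0, hm⟩ := exists_lb v hv0
  refine ⟨m, hm0, ?_⟩
  intro lam f hlam hlam' hf hne
  obtain ⟨x₀, hx₀⟩ := has_zero hAt hρpos hlam hf
  obtain ⟨a, w, hw, hwx⟩ := hcov x₀
  refine (hm a).trans (hv a lam f hlam hlam' hf hne w hw ?_)
  rw [hwx]; exact hx₀

end Pool.Agent.Q73.AD
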