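import Pool.Agent.Q73.AD.Fin
import Pool.Agent.Q73.AD.YQA
import Pool.Agent.Q73.AD.YQB
import Pool.Agent.Q73.AD.YQD
import Pool.Agent.Q73.AD.YQF
import Pool.Agent.Q73.AD.YQG
import Pool.Agent.Q73.AD.YQH

/-!
# Assembly of the quasi-symmetry of the nodal domains
-/

set_option autoImplicit false
open MeasureTheory

namespace Pool.Agent.Q73.AD

universe u v

theorem finq_d : QD := tqd fin_z6 tqa tqb

theorem finq_g : QG.{u, v} := tqg fin_g1.{u, v} finq_d tqf.{u, v}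

theorem finq_h : QH.{u, v} := tqh fin_g1.{u, v} tg2.{u, v} tqa tqf.{u, v}

theorem finq : ∀ (M : Type u) (ι : Type v) [MetricSpace M] [CompactSpace M] [ConnectedSpace M]
    [MeasurableSpace M] [BorelSpace M] (U : ι → Set ℂ) (φ : ι → ℂ → M) (ρ : ι → ℂ → ℝ),
    Atl U φ ρ → (∀ i, ∀ z ∈ U i, 0 < ρ i z) →
    ∃ c : ℝ, 0 < c ∧ ∀ (lam : ℝ) (f : M → ℝ), 0 < lam → Eig U φ ρ lam f →
      (∃ x, f x ≠ 0) → c ≤ (μH[2] {x | 0 < f x}).toReal :=
  finq0 finq_g.{u, v} finq_h.{u, v}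

end Pool.Agent.Q73.AD
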