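import Mathlib
import Pool.Agent.Q73.NL.Stm

/-!
# The average doubling index of eigenfunctions on smooth surfaces: statements of the lemmas

`ℂ` is the plane; `dx`, `dy`, `lap` are the partial derivatives and the Laplacian
(`Pool.Agent.Q73.NL`).

Main idea. If `Δφ_j + q_j φ_j = 0`, `|q_j|, |∇q_j| ≤ κ_j²` and `N_j / κ_j → ∞` then the limits `w` of
`|φ_j|^(1/N_j)` are log-subharmonic (Carleman inequality with the weight `e^(-N(x - a x²))` in a conformal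
coordinate). Hence the growth exponent of a solution at the scale `1/M` is on the average at most
`C log M / M` times the growth exponent at the scale `1`, if the latter is much larger than `κ`. Iteration
over the scales gives average doubling index `≤ A (1 + lam)^ε` at the wavelength scale.
-/

set_option autoImplicit false
open MeasureTheory Filter Topology Complex Metric
open scoped ContDiff

namespace Pool.Agent.Q73.AD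

open Pool.Agent.Q73.NL

noncomputable section

/-! ### The Carleman inequality -/

/-- the weight function -/
def psi (a : ℝ) (z : ℂ) : ℝ := z.re - a * z.re ^ 2

/-- A1: the Carleman inequality -/
def A1 : Prop := ∀ (a N κ R : ℝ) (q w : ℂ → ℝ), 0 < a → 0 < N → 0 < R → 4 * a * R ≤ 1 →
  κ ^ 2 ≤ a * N ^ 2 → ContDiff ℝ ∞ w → HasCompactSupport w → tsupport w ⊆ ball 0 R →
  (∀ z ∈ ball (0 : ℂ) R, ContDiffAt ℝ 1 q z ∧ |dx q z| ≤ κ ^ 2) →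
  a * N ^ 3 * ∫ z, Real.exp (-2 * N * psi a z) * w z ^ 2 ≤
    ∫ z, Real.exp (-2 * N * psi a z) * (lap w z + q z * w z) ^ 2

/-- A2: the weighted Caccioppoli inequality -/
def A2 : Prop := ∀ (a N κ R : ℝ) (q h χ : ℂ → ℝ), 0 < a → 0 < N → 0 < R → 4 * a * R ≤ 1 →
  ContDiff ℝ ∞ χ → HasCompactSupport χ → tsupport χ ⊆ ball 0 R →
  (∀ z ∈ ball (0 : ℂ) R, ContDiffAt ℝ ∞ h z ∧ |q z| ≤ κ ^ 2 ∧ lap h z + q z * h z = 0) →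
  ∫ z, Real.exp (-2 * N * psi a z) * χ z ^ 2 * (dx h z ^ 2 + dy h z ^ 2) ≤
    ∫ z, Real.exp (-2 * N * psi a z) *
      (8 * (dx χ z ^ 2 + dy χ z ^ 2) + (18 * N ^ 2 + 2 * κ ^ 2) * χ z ^ 2) * h z ^ 2

/-- A3: local boundedness of solutions -/
def A3 : Prop := ∃ C : ℝ, 0 < C ∧ ∀ (z₀ : ℂ) (r κ : ℝ) (q h : ℂ → ℝ), 0 < r →
  (∀ z ∈ closedBall z₀ r, ContDiffAt ℝ ∞ h z ∧ |q z| ≤ κ ^ 2 ∧ lap h z + q z * h z = 0) →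
  h z₀ ^ 2 ≤ C * (1 + κ ^ 2 * r ^ 2) ^ 2 / r ^ 2 * ∫ z in ball z₀ r, h z ^ 2

/-- A4: propagation of smallness from an annulus -/
def A4 : Prop := ∀ a R : ℝ, 0 < a → 0 < R → 4 * a * R ≤ 1 → ∃ C : ℝ, 1 ≤ C ∧
  ∀ (N κ B s : ℝ) (q h : ℂ → ℝ), 1 ≤ κ → C * κ ≤ N → 0 < s → 8 * s ≤ R →
  (∀ z ∈ ball (0 : ℂ) R, ContDiffAt ℝ ∞ h z ∧ ContDiffAt ℝ 1 q z ∧ |q z| ≤ κ ^ 2 ∧
    |dx q z| ≤ κ ^ 2 ∧ lap h z + q z * h z = 0) →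
  (∀ z : ℂ, R / 4 ≤ ‖z‖ → ‖z‖ ≤ 3 * R / 4 → Real.exp (-N * psi a z) * |h z| ≤ B) →
  ∀ z ∈ closedBall (0 : ℂ) s, |h z| ≤ C * N ^ 2 / s * Real.exp (2 * N * s) * B

/-- A5: the Laplacian in a conformal coordinate -/
def A5 : Prop := ∀ (F : ℂ → ℂ) (h : ℂ → ℝ) (z : ℂ), AnalyticAt ℂ F z → ContDiffAt ℝ 2 h (F z) →
  lap (fun ζ => h (F ζ)) z = ‖deriv F z‖ ^ 2 * lap h (F z)

/-! ### Limits -/

/-- the supremum of `|f|` on `E` -/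
def sn {X : Type*} (f : X → ℝ) (E : Set X) : ℝ := sSup ((fun x => |f x|) '' E)

/-- a sequence of solutions in `D` with exponents `N j` much larger than `κ j` -/
structure Seq (D : Set ℂ) (N κ : ℕ → ℝ) (q φ : ℕ → ℂ → ℝ) : Prop where
  one : ∀ j, 1 ≤ κ j
  ratio : Tendsto (fun j => N j / κ j) atTop atTop
  smooth : ∀ j, ContDiffOn ℝ ∞ (φ j) D
  qsmooth : ∀ j, ContDiffOn ℝ 1 (q j) D
  qb : ∀ j, ∀ z ∈ D, |q j z| ≤ κ j ^ 2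
  dqb : ∀ j, ∀ z ∈ D, ‖fderiv ℝ (q j) z‖ ≤ κ j ^ 2
  eq : ∀ j, ∀ z ∈ D, lap (φ j) z + q j z * φ j z = 0
  bd : ∀ j, ∀ z ∈ D, |φ j z| ≤ 1

/-- `W E` is the limit of `(sup_E |φ j|)^(1 / N j)` along the ultrafilter, for the subsets `E` of `D` -/
def IsLim {X : Type*} (𝒰 : Ultrafilter ℕ) (N : ℕ → ℝ) (φ : ℕ → X → ℝ) (D : Set X)
    (W : Set X → ℝ) : Prop :=
  ∀ E ⊆ D, Tendsto (fun j => sn (φ j) E ^ (1 / N j)) 𝒰 (𝓝 (W E))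

/-- `w` is the density of the set function `W` -/
structure Env {X : Type*} [PseudoMetricSpace X] (D : Set X) (W : Set X → ℝ) (w : X → ℝ) : Prop where
  le : ∀ x ∈ D, ∀ r, 0 < r → ball x r ⊆ D → w x ≤ W (ball x r)
  ex : ∀ x ∈ D, ∀ t, w x < t → ∃ r, 0 < r ∧ ball x r ⊆ D ∧ W (ball x r) < t

/-- elementary properties of the limit set function -/
structure LimProp {X : Type*} (𝒰 : Ultrafilter ℕ) (N : ℕ → ℝ) (φ : ℕ → X → ℝ) (D : Set X)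
    (W : Set X → ℝ) : Prop where
  nonneg : ∀ E ⊆ D, 0 ≤ W E
  le_one : ∀ E ⊆ D, W E ≤ 1
  mono : ∀ E F, E ⊆ F → F ⊆ D → W E ≤ W F
  union : ∀ E F, E ⊆ D → F ⊆ D → W (E ∪ F) = max (W E) (W F)
  empty : W ∅ = 0
  lt : ∀ E ⊆ D, ∀ t, W E < t → ∀ᶠ j in (𝒰 : Filter ℕ), ∀ x ∈ E, |φ j x| ≤ t ^ N j
  le : ∀ E ⊆ D, ∀ t, 0 ≤ t → (∀ᶠ j in (𝒰 : Filter ℕ), ∀ x ∈ E, |φ j x| ≤ t ^ N j) → W E ≤ t

/-- B1: existence and elementary properties of the limits -/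
def B1.{u} : Prop := ∀ (X : Type u) (𝒰 : Ultrafilter ℕ) (N : ℕ → ℝ) (φ : ℕ → X → ℝ) (D : Set X),
  (∀ j, 0 < N j) → (∀ j, ∀ x ∈ D, |φ j x| ≤ 1) →
  (∃ W, IsLim 𝒰 N φ D W) ∧ ∀ W, IsLim 𝒰 N φ D W → LimProp 𝒰 N φ D W

/-- B2: the density: existence, bounds, semicontinuity, compact sets -/
def B2.{u} : Prop := ∀ (X : Type u) [PseudoMetricSpace X] (𝒰 : Ultrafilter ℕ) (N : ℕ → ℝ) (φ : ℕ → X → ℝ)
  (D : Set X) (W : Set X → ℝ), IsOpen D → LimProp 𝒰 N φ D W →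
  (∃ w, Env D W w) ∧ ∀ w, Env D W w →
    (∀ x ∈ D, 0 ≤ w x ∧ w x ≤ 1) ∧ UpperSemicontinuousOn w D ∧
    (∀ E ⊆ D, IsOpen E → ∀ x ∈ E, w x ≤ W E) ∧
    (∀ K ⊆ D, IsCompact K → ∀ t, 0 < t → (∀ x ∈ K, w x < t) → W K < t) ∧
    (∀ K ⊆ D, IsCompact K → 0 < W K → ∃ x ∈ K, W K ≤ w x)

/-! ### Log-subharmonicity -/

/-- no contact from above with `exp` of a strictly superharmonic function, noncritical case -/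
def NC1 (D : Set ℂ) (w : ℂ → ℝ) : Prop := ∀ (x₀ : ℂ) (G : ℂ → ℂ) (ε r : ℝ), x₀ ∈ D → 0 < w x₀ →
  AnalyticAt ℂ G x₀ → deriv G x₀ ≠ 0 → 0 < ε → 0 < r → ball x₀ r ⊆ D →
  ¬ ∀ x ∈ ball x₀ r, w x ≤ w x₀ * Real.exp ((G x - G x₀).re - ε * ‖x - x₀‖ ^ 2)

/-- no contact from above with `exp` of a strictly superharmonic function -/
def NC (D : Set ℂ) (w : ℂ → ℝ) : Prop := ∀ (x₀ : ℂ) (G : ℂ → ℂ) (ε r : ℝ), x₀ ∈ D → 0 < w x₀ →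
  AnalyticAt ℂ G x₀ → 0 < ε → 0 < r → ball x₀ r ⊆ D →
  ¬ ∀ x ∈ ball x₀ r, w x ≤ w x₀ * Real.exp ((G x - G x₀).re - ε * ‖x - x₀‖ ^ 2)

/-- C1: the limits of solutions have no noncritical contact (from A4, A5) -/
def C1 : Prop := ∀ (𝒰 : Ultrafilter ℕ) (D : Set ℂ) (N κ : ℕ → ℝ) (q φ : ℕ → ℂ → ℝ) (W : Set ℂ → ℝ)
  (w : ℂ → ℝ), (𝒰 : Filter ℕ) ≤ atTop → IsOpen D → Seq D N κ q φ → LimProp 𝒰 N φ D W → Env D W w →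
  NC1 D w

/-- C2: removal of the condition on the gradient -/
def C2 : Prop := ∀ (D : Set ℂ) (w : ℂ → ℝ), IsOpen D → (∀ x ∈ D, 0 ≤ w x) →
  UpperSemicontinuousOn w D → NC1 D w → NC D w

/-- C3: comparison with harmonic polynomials in discs -/
def C3 : Prop := ∀ (D : Set ℂ) (w : ℂ → ℝ) (x₀ : ℂ) (r : ℝ) (p : Polynomial ℂ), IsOpen D →
  (∀ x ∈ D, 0 ≤ w x) → UpperSemicontinuousOn w D → NC D w → 0 < r → closedBall x₀ r ⊆ D →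
  (∀ x ∈ sphere x₀ r, w x ≤ Real.exp (p.eval x).re) → w x₀ ≤ Real.exp (p.eval x₀).re

/-- C4: the three circle inequality -/
def C4 : Prop := ∀ (D : Set ℂ) (w : ℂ → ℝ) (x₀ : ℂ) (r R k : ℝ), IsOpen D →
  (∀ x ∈ D, 0 ≤ w x) → UpperSemicontinuousOn w D → NC D w → 0 < r → r < R → closedBall x₀ R ⊆ D →
  0 ≤ k → (∀ x ∈ closedBall x₀ R, w x ≤ 1) → (∀ x ∈ closedBall x₀ r, w x ≤ Real.exp (-k)) →
  ∀ x ∈ closedBall x₀ R, r ≤ ‖x - x₀‖ → w x ≤ (‖x - x₀‖ / R) ^ (k / Real.log (R / r))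

/-- C5: the mean value inequality -/
def C5 : Prop := ∀ (D : Set ℂ) (w : ℂ → ℝ), IsOpen D → (∀ x ∈ D, 0 ≤ w x ∧ w x ≤ 1) →
  UpperSemicontinuousOn w D → NC D w → ∀ (x₀ : ℂ) (r : ℝ), 0 < r → closedBall x₀ r ⊆ D →
  w x₀ * (Real.pi * r ^ 2) ≤ ∫ x in ball x₀ r, w x

/-! ### Potential theory -/

/-- the centres of the `M²` subsquares of the square `[-1, 1]²` -/
def cen (M : ℕ) (a : Fin M × Fin M) : ℂ :=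
  ⟨-1 + (2 * (a.1 : ℝ) + 1) / M, -1 + (2 * (a.2 : ℝ) + 1) / M⟩

/-- P1: the mean square oscillation of a bounded function with the mean value inequality -/
def P1 : Prop := ∃ C : ℝ, 0 < C ∧ ∀ (w : ℂ → ℝ) (r : ℝ), 0 < r → r ≤ 1 → Measurable w →
  (∀ x, 0 ≤ w x ∧ w x ≤ 1) →
  (∀ x ∈ ball (0 : ℂ) 3, w x * (Real.pi * r ^ 2) ≤ ∫ y in ball x r, w y) →
  ∫ x in ball (0 : ℂ) 2, (∫ y in ball x r, (w y - (∫ t in ball x r, w t) / (Real.pi * r ^ 2)) ^ 2) ≤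
    C * r ^ 4

/-- P2: oscillation of a log-subharmonic function on small discs; `w` is only relevant in `ball 0 4` -/
def P2 : Prop := ∀ K : ℝ, 8 ≤ K → ∃ C : ℝ, 0 < C ∧ ∀ (M : ℕ) (w : ℂ → ℝ) (s t : Fin M × Fin M → ℝ),
  C ≤ M → Measurable w → (∀ x, 0 ≤ w x ∧ w x ≤ 1) →
  (∀ (x : ℂ) (r : ℝ), x ∈ ball (0 : ℂ) 3 → 0 < r → r ≤ 1 →
    w x * (Real.pi * r ^ 2) ≤ ∫ y in ball x r, w y) →
  (∀ a, ∃ x ∈ closedBall (cen M a) (K / M), s a ≤ w x) →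
  (∀ a, ∀ x ∈ ball (cen M a) (1 / M), w x ≤ t a) →
  ∑ a, (s a - t a) ≤ C * M

/-! ### The one-step lemma and the iteration -/

/-- `O1`: one step: growth exponents on the `M²` subsquares -/
def O1 : Prop := ∀ K : ℝ, 8 ≤ K → ∃ C : ℝ, 0 < C ∧ ∀ M : ℕ, C ≤ M → ∃ T : ℝ, 0 < T ∧
  ∀ (κ N : ℝ) (q φ : ℂ → ℝ), 1 ≤ κ → T * κ ≤ N →
  (∀ z ∈ closedBall (0 : ℂ) K, ContDiffAt ℝ ∞ φ z ∧ ContDiffAt ℝ 1 q z ∧ |q z| ≤ κ ^ 2 ∧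
    ‖fderiv ℝ q z‖ ≤ κ ^ 2 ∧ lap φ z + q z * φ z = 0) →
  sn φ (closedBall 0 K) ≤ Real.exp N * sn φ (closedBall 0 1) →
  ∃ n : Fin M × Fin M → ℝ, (∀ a, 0 ≤ n a ∧
    sn φ (closedBall (cen M a) (K / M)) ≤ Real.exp (n a) * sn φ (closedBall (cen M a) (1 / M))) ∧
    ∑ a, n a ≤ C * (1 + Real.log M) * M * N

/-- `O2`: one step, scaled: equation `Δφ + lam ρ φ = 0` with `|ρ|, |∇ρ| ≤ L` -/
def O2 : Prop := ∀ K : ℝ, 8 ≤ K → ∃ C : ℝ, 0 < C ∧ ∀ M : ℕ, C ≤ M → ∀ L : ℝ, 1 ≤ L →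
  ∃ T : ℝ, 0 < T ∧ ∀ (lam h N : ℝ) (p : ℂ) (ρ φ : ℂ → ℝ), 0 ≤ lam → 0 < h → h ≤ 1 →
  T * (1 + Real.sqrt lam * h) ≤ N →
  (∀ z ∈ closedBall p (K * h), ContDiffAt ℝ ∞ φ z ∧ ContDiffAt ℝ 1 ρ z ∧ |ρ z| ≤ L ∧
    ‖fderiv ℝ ρ z‖ ≤ L ∧ lap φ z + lam * ρ z * φ z = 0) →
  sn φ (closedBall p (K * h)) ≤ Real.exp N * sn φ (closedBall p h) →
  ∃ n : Fin M × Fin M → ℝ, (∀ a, 0 ≤ n a ∧
    sn φ (closedBall (p + h * cen M a) (K * (h / M))) ≤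
      Real.exp (n a) * sn φ (closedBall (p + h * cen M a) (h / M))) ∧
    ∑ a, n a ≤ C * (1 + Real.log M) * M * N

/-- `O3`: iteration -/
def O3 : Prop := ∀ K ε : ℝ, 8 ≤ K → 0 < ε → ∃ M : ℕ, 2 ≤ M ∧ ∀ L : ℝ, 1 ≤ L → ∃ C : ℝ, 0 < C ∧
  ∀ (lam h n₀ : ℝ) (p : ℂ) (ρ φ : ℂ → ℝ), 0 ≤ lam → 0 < h → h ≤ 1 → 0 ≤ n₀ →
  (∀ z ∈ closedBall p (K * h), ContDiffAt ℝ ∞ φ z ∧ ContDiffAt ℝ 1 ρ z ∧ |ρ z| ≤ L ∧
    ‖fderiv ℝ ρ z‖ ≤ L ∧ lap φ z + lam * ρ z * φ z = 0) →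
  sn φ (closedBall p (K * h)) ≤ Real.exp n₀ * sn φ (closedBall p h) →
  ∀ J : ℕ, ∃ n : Fin (M ^ J) × Fin (M ^ J) → ℝ, (∀ a, 0 ≤ n a ∧
    sn φ (closedBall (p + h * cen (M ^ J) a) (K * (h / (M ^ J : ℕ)))) ≤
      Real.exp (n a) * sn φ (closedBall (p + h * cen (M ^ J) a) (h / (M ^ J : ℕ)))) ∧
    ∑ a, n a ≤ C * (((M : ℝ) ^ J) ^ (1 + ε) * (n₀ + Real.sqrt lam * h) + ((M : ℝ) ^ J) ^ 2)

end

end Pool.Agent.Q73.AD
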