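import Pool.Agent.Q73.AD.Stm

/-!
# The average doubling index on smooth surfaces: statements of the global part

`M` is a compact connected surface given by conformal charts; the distance is locally comparable with
the Euclidean distance in the charts.
-/

set_option autoImplicit false
open MeasureTheory Filter Topology Complex Metric
open scoped ContDiff

namespace Pool.Agent.Q73.AD

open Pool.Agent.Q73.NL

noncomputable section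

universe u v

/-- conformal charts `φ i : U i → M` with conformal factors `ρ i` of class `C¹`; the distance of `M` is
locally comparable with the Euclidean distance in the charts -/
structure Atl {M : Type u} {ι : Type v} [MetricSpace M] (U : ι → Set ℂ) (φ : ι → ℂ → M)
    (ρ : ι → ℂ → ℝ) : Prop where
  dom : ∀ i, IsOpen (U i)
  inj : ∀ i, Set.InjOn (φ i) (U i)
  opn : ∀ i (S : Set ℂ), IsOpen S → S ⊆ U i → IsOpen (φ i '' S)
  cover : ∀ x : M, ∃ i, x ∈ φ i '' U i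
  lip : ∀ i, ∀ z ∈ U i, ∃ r c : ℝ, 0 < r ∧ 0 < c ∧ ball z r ⊆ U i ∧
    ∀ w ∈ ball z r, ∀ w' ∈ ball z r, c * ‖w - w'‖ ≤ dist (φ i w) (φ i w') ∧
      c * dist (φ i w) (φ i w') ≤ ‖w - w'‖
  dens : ∀ i, ContDiffOn ℝ 1 (ρ i) (U i)

/-- `f` is a smooth function with `Δ(f∘φ i) + lam (ρ i) (f∘φ i) = 0` in the charts -/
def Eig {M : Type u} {ι : Type v} (U : ι → Set ℂ) (φ : ι → ℂ → M) (ρ : ι → ℂ → ℝ) (lam : ℝ)
    (f : M → ℝ) : Prop :=
  ∀ i, ContDiffOn ℝ ∞ (fun z => f (φ i z)) (U i) ∧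
    ∀ z ∈ U i, lap (fun z => f (φ i z)) z + lam * ρ i z * f (φ i z) = 0

/-- G1: growth at the unit scale -/
def G1 : Prop := ∀ (M : Type u) (ι : Type v) [MetricSpace M] [CompactSpace M] [ConnectedSpace M]
  (U : ι → Set ℂ) (φ : ι → ℂ → M) (ρ : ι → ℂ → ℝ), Atl U φ ρ → ∀ r : ℝ, 0 < r →
  ∃ C : ℝ, 0 < C ∧ ∀ (lam : ℝ) (f : M → ℝ), 0 ≤ lam → Eig U φ ρ lam f → ∀ x : M,
    sn f Set.univ ≤ Real.exp (C * (1 + Real.sqrt lam)) * sn f (ball x r)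

/-- a good piece of a chart: `B = closedBall z (2R)` -/
structure Good {M : Type u} [MetricSpace M] (φ : ℂ → M) (ρ : ℂ → ℝ) (V : Set ℂ) (z : ℂ)
    (R c L δ : ℝ) : Prop where
  R_pos : 0 < R
  R_le : R ≤ 1
  c_pos : 0 < c
  c_le : c ≤ 1
  L_ge : 1 ≤ L
  δ_pos : 0 < δ
  opn : IsOpen V
  sub : closedBall z (2 * R) ⊆ V
  lip : ∀ w ∈ closedBall z (2 * R), ∀ w' ∈ closedBall z (2 * R),
    c * ‖w - w'‖ ≤ dist (φ w) (φ w') ∧ c * dist (φ w) (φ w') ≤ ‖w - w'‖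
  smooth : ContDiffOn ℝ 1 ρ V
  bd : ∀ w ∈ closedBall z (2 * R), |ρ w| ≤ L ∧ ‖fderiv ℝ ρ w‖ ≤ L
  surj : ∀ w ∈ closedBall z (3 * R / 2), ball (φ w) δ ⊆ φ '' closedBall z (2 * R)

/-- G2: a closed surface is covered by finitely many good pieces -/
def G2 : Prop := ∀ (M : Type u) (ι : Type v) [MetricSpace M] [CompactSpace M]
  (U : ι → Set ℂ) (φ : ι → ℂ → M) (ρ : ι → ℂ → ℝ), Atl U φ ρ →
  ∃ (n : ℕ) (i : Fin n → ι) (z : Fin n → ℂ) (R : Fin n → ℝ) (c L δ : ℝ),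
    (∀ a, Good (φ (i a)) (ρ (i a)) (U (i a)) (z a) (R a) c L δ) ∧
    ∀ x : M, ∃ a, x ∈ φ (i a) '' closedBall (z a) (R a)

/-- the doubling index of `f` on the disc with centre `x` and radius `r` -/
def dbl {M : Type u} [MetricSpace M] (f : M → ℝ) (x : M) (r : ℝ) : ℝ :=
  Real.logb 2 (sn f (ball x (2 * r)) / sn f (ball x r))

/-- G3: the sum of the doubling indices over the discs with centres in a good piece -/
def G3 : Prop := ∀ (M : Type u) [MetricSpace M] (φ : ℂ → M) (ρ : ℂ → ℝ) (V : Set ℂ) (z : ℂ)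
  (R c L δ C C₁ ε : ℝ), Good φ ρ V z R c L δ → 0 < C → 0 < C₁ → 0 < ε →
  ∃ r₀ : ℝ, 0 < r₀ ∧ ∀ Cg : ℝ, 0 < Cg → ∃ A : ℝ, 0 < A ∧ ∃ lam₀ : ℝ, 0 < lam₀ ∧
  ∀ (lam : ℝ) (f : M → ℝ) (κ : Type) [Fintype κ] (b : κ → M), lam₀ ≤ lam →
    ContDiffOn ℝ ∞ (fun w => f (φ w)) V →
    (∀ w ∈ V, lap (fun w => f (φ w)) w + lam * ρ w * f (φ w) = 0) →
    BddAbove ((fun x => |f x|) '' Set.univ) → (∀ x r, 0 < r → 0 < sn f (ball x r)) →
    (∀ x : M, sn f Set.univ ≤ Real.exp (Cg * (1 + Real.sqrt lam)) * sn f (ball x r₀)) →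
    (∀ x : M, (Set.ncard {i | x ∈ ball (b i) (C / Real.sqrt lam)} : ℝ) ≤ C₁) →
    (∀ i, b i ∈ φ '' closedBall z R) →
    ∑ i, dbl f (b i) (C / Real.sqrt lam) ≤ A * lam ^ (1 + ε)

/-- G4: the average doubling index -/
def G4 : Prop := ∀ (M : Type u) (ι : Type v) [MetricSpace M] [CompactSpace M] [ConnectedSpace M]
  (U : ι → Set ℂ) (φ : ι → ℂ → M) (ρ : ι → ℂ → ℝ), Atl U φ ρ →
  ∀ C C₁ C₂ ε : ℝ, 0 < C → 0 < C₁ → 0 < C₂ → 0 < ε → ∃ A : ℝ, 0 < A ∧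
  ∀ (lam : ℝ) (f : M → ℝ) (κ : Type) [Fintype κ] (b : κ → M), 0 < lam → Eig U φ ρ lam f →
    (∃ x, f x ≠ 0) →
    (∀ x : M, (Set.ncard {i | x ∈ ball (b i) (C / Real.sqrt lam)} : ℝ) ≤ C₁) →
    C₂⁻¹ * lam ≤ Fintype.card κ →
    (∑ i, dbl f (b i) (C / Real.sqrt lam)) / Fintype.card κ ≤ A * (1 + lam) ^ ε

end

end Pool.Agent.Q73.AD
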