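import Pool.Agent.Q73.AD.StmG

/-!
# Second moments of the doubling index: the mean square versions of P2, O1, O2, O3, G3, G4
-/

set_option autoImplicit false
open MeasureTheory Filter Topology Complex Metric
open scoped ContDiff

namespace Pool.Agent.Q73.AD

open Pool.Agent.Q73.NL

noncomputable section

universe u v

/-- P2L: mean square oscillation of a log-subharmonic function on small discs -/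
def P2L : Prop := ∀ K : ℝ, 8 ≤ K → ∃ C : ℝ, 0 < C ∧ ∀ (M : ℕ) (w : ℂ → ℝ) (s t : Fin M × Fin M → ℝ),
  C ≤ M → Measurable w → (∀ x, 0 ≤ w x ∧ w x ≤ 1) →
  (∀ (x : ℂ) (r : ℝ), x ∈ ball (0 : ℂ) 3 → 0 < r → r ≤ 1 →
    w x * (Real.pi * r ^ 2) ≤ ∫ y in ball x r, w y) →
  (∀ a, ∃ x ∈ closedBall (cen M a) (K / M), s a ≤ w x) →
  (∀ a, ∀ x ∈ ball (cen M a) (1 / M), w x ≤ t a) →
  ∑ a, (max (s a - t a) 0) ^ 2 ≤ C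

/-- O1L: one step -/
def O1L : Prop := ∀ K : ℝ, 8 ≤ K → ∃ C : ℝ, 0 < C ∧ ∀ M : ℕ, C ≤ M → ∃ T : ℝ, 0 < T ∧
  ∀ (κ N : ℝ) (q φ : ℂ → ℝ), 1 ≤ κ → T * κ ≤ N →
  (∀ z ∈ closedBall (0 : ℂ) K, ContDiffAt ℝ ∞ φ z ∧ ContDiffAt ℝ 1 q z ∧ |q z| ≤ κ ^ 2 ∧
    ‖fderiv ℝ q z‖ ≤ κ ^ 2 ∧ lap φ z + q z * φ z = 0) →
  sn φ (closedBall 0 K) ≤ Real.exp N * sn φ (closedBall 0 1) →
  ∃ n : Fin M × Fin M → ℝ, (∀ a, 0 ≤ n a ∧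
    sn φ (closedBall (cen M a) (K / M)) ≤ Real.exp (n a) * sn φ (closedBall (cen M a) (1 / M))) ∧
    ∑ a, n a ^ 2 ≤ C * (1 + Real.log M) ^ 2 * N ^ 2

/-- `O2L`: one step, scaled -/
def O2L : Prop := ∀ K : ℝ, 8 ≤ K → ∃ C : ℝ, 0 < C ∧ ∀ M : ℕ, C ≤ M → ∀ L : ℝ, 1 ≤ L →
  ∃ T : ℝ, 0 < T ∧ ∀ (lam h N : ℝ) (p : ℂ) (ρ φ : ℂ → ℝ), 0 ≤ lam → 0 < h → h ≤ 1 →
  T * (1 + Real.sqrt lam * h) ≤ N →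
  (∀ z ∈ closedBall p (K * h), ContDiffAt ℝ ∞ φ z ∧ ContDiffAt ℝ 1 ρ z ∧ |ρ z| ≤ L ∧
    ‖fderiv ℝ ρ z‖ ≤ L ∧ lap φ z + lam * ρ z * φ z = 0) →
  sn φ (closedBall p (K * h)) ≤ Real.exp N * sn φ (closedBall p h) →
  ∃ n : Fin M × Fin M → ℝ, (∀ a, 0 ≤ n a ∧
    sn φ (closedBall (p + h * cen M a) (K * (h / M))) ≤
      Real.exp (n a) * sn φ (closedBall (p + h * cen M a) (h / M))) ∧
    ∑ a, n a ^ 2 ≤ C * (1 + Real.log M) ^ 2 * N ^ 2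

/-- `O3L`: iteration -/
def O3L : Prop := ∀ K ε : ℝ, 8 ≤ K → 0 < ε → ∃ M : ℕ, 2 ≤ M ∧ ∀ L : ℝ, 1 ≤ L → ∃ C : ℝ, 0 < C ∧
  ∀ (lam h n₀ : ℝ) (p : ℂ) (ρ φ : ℂ → ℝ), 0 ≤ lam → 0 < h → h ≤ 1 → 0 ≤ n₀ →
  (∀ z ∈ closedBall p (K * h), ContDiffAt ℝ ∞ φ z ∧ ContDiffAt ℝ 1 ρ z ∧ |ρ z| ≤ L ∧
    ‖fderiv ℝ ρ z‖ ≤ L ∧ lap φ z + lam * ρ z * φ z = 0) →
  sn φ (closedBall p (K * h)) ≤ Real.exp n₀ * sn φ (closedBall p h) →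
  ∀ J : ℕ, ∃ n : Fin (M ^ J) × Fin (M ^ J) → ℝ, (∀ a, 0 ≤ n a ∧
    sn φ (closedBall (p + h * cen (M ^ J) a) (K * (h / (M ^ J : ℕ)))) ≤
      Real.exp (n a) * sn φ (closedBall (p + h * cen (M ^ J) a) (h / (M ^ J : ℕ)))) ∧
    ∑ a, n a ^ 2 ≤ C * (((M : ℝ) ^ J) ^ ε * (n₀ ^ 2 + lam * h ^ 2) + ((M : ℝ) ^ J) ^ 2)

/-- G3L: the sum of the squares of the doubling indices over the discs with centres in a good piece -/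
def G3L : Prop := ∀ (M : Type u) [MetricSpace M] (φ : ℂ → M) (ρ : ℂ → ℝ) (V : Set ℂ) (z : ℂ)
  (R c L δ C C₁ ε : ℝ), Good φ ρ V z R c L δ → 0 < C → 0 < C₁ → 0 < ε →
  ∃ r₀ : ℝ, 0 < r₀ ∧ ∀ Cg : ℝ, 0 < Cg → ∃ A : ℝ, 0 < A ∧ ∃ lam₀ : ℝ, 0 < lam₀ ∧
  ∀ (lam : ℝ) (f : M → ℝ) (κ : Type) [Fintype κ] (b : κ → M), lam₀ ≤ lam →
    ContDiffOn ℝ ∞ (fun w => f (φ w)) V →
    (∀ w ∈ V, lap (fun w => f (φ w)) w + lam * ρ w * f (φ w) = 0) →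
    BddAbove ((fun x => |f x|) '' Set.univ) → (∀ x r, 0 < r → 0 < sn f (ball x r)) →
    (∀ x : M, sn f Set.univ ≤ Real.exp (Cg * (1 + Real.sqrt lam)) * sn f (ball x r₀)) →
    (∀ x : M, (Set.ncard {i | x ∈ ball (b i) (C / Real.sqrt lam)} : ℝ) ≤ C₁) →
    (∀ i, b i ∈ φ '' closedBall z R) →
    ∑ i, dbl f (b i) (C / Real.sqrt lam) ^ 2 ≤ A * lam ^ (1 + ε)

/-- G4L: the mean square of the doubling index -/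
def G4L : Prop := ∀ (M : Type u) (ι : Type v) [MetricSpace M] [CompactSpace M] [ConnectedSpace M]
  (U : ι → Set ℂ) (φ : ι → ℂ → M) (ρ : ι → ℂ → ℝ), Atl U φ ρ →
  ∀ C C₁ C₂ ε : ℝ, 0 < C → 0 < C₁ → 0 < C₂ → 0 < ε → ∃ A : ℝ, 0 < A ∧
  ∀ (lam : ℝ) (f : M → ℝ) (κ : Type) [Fintype κ] (b : κ → M), 0 < lam → Eig U φ ρ lam f →
    (∃ x, f x ≠ 0) →
    (∀ x : M, (Set.ncard {i | x ∈ ball (b i) (C / Real.sqrt lam)} : ℝ) ≤ C₁) →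
    C₂⁻¹ * lam ≤ Fintype.card κ →
    (∑ i, dbl f (b i) (C / Real.sqrt lam) ^ 2) / Fintype.card κ ≤ A * (1 + lam) ^ ε

end

end Pool.Agent.Q73.AD
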