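import Pool.Agent.Q73.AD.StmZ

/-!
# Quasi-symmetry of the positivity and the negativity set: statements
-/

set_option autoImplicit false
open MeasureTheory Filter Topology Complex Metric
open scoped ContDiff ComplexConjugate

namespace Pool.Agent.Q73.AD

open Pool.Agent.Q73.NL

noncomputable section

universe u v

/-- QA: in a small disc (compared with the wavelength) with centre at a zero and bounded doubling the
positive part is large -/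
def QA : Prop := ∃ c : ℝ, 0 < c ∧ ∀ (K r : ℝ) (w : ℂ) (h : ℂ → ℝ), 1 ≤ K → 0 < r →
  (∀ z ∈ closedBall w r, ContDiffAt ℝ ∞ h z ∧ r ^ 2 * |lap h z| ≤ |h z| / 10) → h w = 0 →
  0 < sn h (closedBall w r) → sn h (closedBall w r) ≤ K * sn h (closedBall w (r / 2)) →
  c * r ^ 2 / K ≤ (volume {z : ℂ | z ∈ ball w r ∧ 0 < h z}).toReal

/-- QB: squares of half side `> π / √(2 ρ₀ lam)` contain zeros -/
def QB : Prop := ∀ (lam ρ₀ r : ℝ) (w : ℂ) (ρ h : ℂ → ℝ), 0 < lam → 0 < ρ₀ → 0 < r →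
  Real.pi ^ 2 < 2 * ρ₀ * lam * r ^ 2 →
  (∀ z : ℂ, |(z - w).re| ≤ r → |(z - w).im| ≤ r →
    ContDiffAt ℝ ∞ h z ∧ ρ₀ ≤ ρ z ∧ lap h z + lam * ρ z * h z = 0) →
  ∃ z : ℂ, |(z - w).re| ≤ r ∧ |(z - w).im| ≤ r ∧ h z = 0

/-- QD: the area of the positivity set in a square of fixed size -/
def QD : Prop := ∃ s₁ : ℝ, 0 < s₁ ∧ ∀ s L G₀ ρ₀ : ℝ, 0 < s → s ≤ s₁ → 1 ≤ L → 0 ≤ G₀ → 0 < ρ₀ →
  ∃ c lam₀ : ℝ, 0 < c ∧ 0 < lam₀ ∧ ∀ (lam : ℝ) (p : ℂ) (ρ φ : ℂ → ℝ), lam₀ ≤ lam →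
    Loc lam L s p ρ φ → (∀ z ∈ closedBall p (32 * s), ρ₀ ≤ ρ z) →
    gr φ p s ≤ G₀ * (Real.sqrt lam * s) →
    c ≤ (volume {z : ℂ | z ∈ closedBall p (2 * s) ∧ 0 < φ z}).toReal

/-- QF: the two-dimensional Hausdorff measure: lower bound for images of subsets of the plane under
expanding maps, finiteness on closed surfaces -/
def QF : Prop := ∀ (M : Type u) [MetricSpace M] [MeasurableSpace M] [BorelSpace M],
  (∀ c : ℝ, 0 < c → ∃ c' : ℝ, 0 < c' ∧ ∀ (φ : ℂ → M) (E : Set ℂ),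
    (∀ w ∈ E, ∀ w' ∈ E, c * ‖w - w'‖ ≤ dist (φ w) (φ w')) →
    ENNReal.ofReal c' * volume E ≤ μH[2] (φ '' E)) ∧
  ∀ (ι : Type v) [CompactSpace M] (U : ι → Set ℂ) (φ : ι → ℂ → M) (ρ : ι → ℂ → ℝ), Atl U φ ρ →
    μH[2] (Set.univ : Set M) < ⊤

/-- QG: the area of the positivity set, large eigenvalues -/
def QG : Prop := ∀ (M : Type u) (ι : Type v) [MetricSpace M] [CompactSpace M] [ConnectedSpace M]
  [MeasurableSpace M] [BorelSpace M] (U : ι → Set ℂ) (φ : ι → ℂ → M) (ρ : ι → ℂ → ℝ),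
  Atl U φ ρ → (∀ i, ∀ z ∈ U i, 0 < ρ i z) →
  ∃ c lam₀ : ℝ, 0 < c ∧ 0 < lam₀ ∧ ∀ (lam : ℝ) (f : M → ℝ), lam₀ ≤ lam → Eig U φ ρ lam f →
    (∃ x, f x ≠ 0) → c ≤ (μH[2] {x | 0 < f x}).toReal

/-- QH: the area of the positivity set, bounded eigenvalues -/
def QH : Prop := ∀ (M : Type u) (ι : Type v) [MetricSpace M] [CompactSpace M] [ConnectedSpace M]
  [MeasurableSpace M] [BorelSpace M] (U : ι → Set ℂ) (φ : ι → ℂ → M) (ρ : ι → ℂ → ℝ),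
  Atl U φ ρ → (∀ i, ∀ z ∈ U i, 0 < ρ i z) → ∀ lam₀ : ℝ, 0 < lam₀ →
  ∃ c : ℝ, 0 < c ∧ ∀ (lam : ℝ) (f : M → ℝ), 0 < lam → lam ≤ lam₀ → Eig U φ ρ lam f →
    (∃ x, f x ≠ 0) → c ≤ (μH[2] {x | 0 < f x}).toReal

end

end Pool.Agent.Q73.AD
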