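import Pool.Agent.Q73.AD.StmY

/-!
# The average doubling index on smooth surfaces is bounded: assembly and global part, statements
-/

set_option autoImplicit false
open MeasureTheory Filter Topology Complex Metric
open scoped ContDiff ComplexConjugate

namespace Pool.Agent.Q73.AD

open Pool.Agent.Q73.NL

noncomputable section

universe u v

/-- Z2: the growth exponents of the subsquares -/
def Z2 : Prop := ∃ C : ℝ, 1 ≤ C ∧ ∀ M : ℕ, C ≤ M → ∀ L : ℝ, 1 ≤ L → ∃ T : ℝ, 1 ≤ T ∧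
  ∀ (lam s N : ℝ) (p : ℂ) (ρ φ : ℂ → ℝ), Loc lam L s p ρ φ → T * (1 + Real.sqrt lam * s) ≤ N →
  gr φ p s ≤ N →
  (∀ z ∈ closedBall p (2 * s), sn φ (closedBall p (32 * s)) ≤
    Real.exp (C * (1 + Real.log M) * N) * sn φ (closedBall z (s / M))) ∧
  (∀ c ∈ gd M, gr φ (p + s * ct M c) (s / M) ≤ C * (1 + Real.log M) * N) ∧
  (∑ c ∈ gd M, gr φ (p + s * ct M c) (s / M) ≤ 35 * C * M * N) ∧
  ∀ (ε H : ℝ), 0 < ε → ε ≤ 1 → 0 ≤ H → ∀ S ⊆ gd M,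
    (∀ c ∈ S, 68 * H * (s / M) < gr φ (p + s * ct M c) (s / M) ∧
      ∀ ν : ℂ, H ≤ ‖ν‖ → Real.exp (ε * (‖ν‖ * (s / M))) * SS ν φ (p + s * ct M c) (2 * (s / M)) <
        SS ν φ (p + s * ct M c) (32 * (s / M))) →
    ∑ c ∈ S, gr φ (p + s * ct M c) (s / M) ≤ (2 + 34 / ε) * (C * (1 + Real.log M) * N)

/-- Z3: a point near a square far from the boundary is in a small square -/
def Z3 : Prop := ∀ (M i l₁ : ℕ) (s : ℝ) (p y : ℂ) (b : ℕ × ℕ), 2 ≤ M → 0 < s →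
  b ∈ gd (M ^ (i + 1)) → 5 * M ≤ b.1 → b.1 + 5 * M < M ^ (i + 1) → 5 * M ≤ b.2 →
  b.2 + 5 * M < M ^ (i + 1) → ‖y - (p + s * ct (M ^ (i + 1)) b)‖ ≤ 8 * (s / M ^ i) →
  ∃ c ∈ gd (M ^ (i + 1 + l₁)),
    ‖y - (p + s * ct (M ^ (i + 1 + l₁)) c)‖ ≤ 2 * (s / M ^ (i + 1 + l₁)) ∧
    |((anc (M ^ l₁) c).1 : ℤ) - b.1| ≤ 5 * M ∧ |((anc (M ^ l₁) c).2 : ℤ) - b.2| ≤ 5 * M

/-- Z1: the total growth exponent of the squares at the wavelength scale -/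
def Z1 : Prop := ∃ (M : ℕ) (s₁ : ℝ), 2 ≤ M ∧ 0 < s₁ ∧ ∀ L G₀ : ℝ, 1 ≤ L → 0 ≤ G₀ →
  ∃ C A : ℝ, 1 ≤ C ∧ 1 ≤ A ∧ ∀ (lam s : ℝ) (p : ℂ) (ρ φ : ℂ → ℝ) (J : ℕ), Loc lam L s p ρ φ →
  s ≤ s₁ → C ≤ Real.sqrt lam * (s / M ^ J) → gr φ p s ≤ G₀ * (Real.sqrt lam * s) →
  ∑ a ∈ gd (M ^ J), gr φ (p + s * ct (M ^ J) a) (s / M ^ J) ≤
    A * (M : ℝ) ^ (2 * J) * (Real.sqrt lam * (s / M ^ J))

/-- Z6: the sum of the doubling exponents of the discs of radius `≍ 1 / √lam` with centres in a square -/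
def Z6 : Prop := ∃ s₁ : ℝ, 0 < s₁ ∧ ∀ s L G₀ r R C₁ : ℝ, 0 < s → s ≤ s₁ → 1 ≤ L → 0 ≤ G₀ →
  0 < r → 0 < R → 0 < C₁ → ∃ A lam₀ : ℝ, 0 < A ∧ 0 < lam₀ ∧
  ∀ (lam : ℝ) (p : ℂ) (ρ φ : ℂ → ℝ) (κ : Type) [Fintype κ] (w : κ → ℂ), lam₀ ≤ lam →
    Loc lam L s p ρ φ → gr φ p s ≤ G₀ * (Real.sqrt lam * s) →
    (∀ i, |(w i - p).re| ≤ s ∧ |(w i - p).im| ≤ s) →
    (∀ x : ℂ, (Set.ncard {i | ‖x - w i‖ ≤ r / Real.sqrt lam} : ℝ) ≤ C₁) →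
    ∑ i, Real.log (sn φ (closedBall (w i) (R / Real.sqrt lam)) /
      sn φ (closedBall (w i) (r / Real.sqrt lam))) ≤ A * lam

/-- Z4: the sum of the doubling indices over the discs with centres in a good piece -/
def Z4 : Prop := ∀ (M : Type u) [MetricSpace M] (φ : ℂ → M) (ρ : ℂ → ℝ) (V : Set ℂ) (z : ℂ)
  (R c L δ C C₁ : ℝ), Good φ ρ V z R c L δ → (∀ w ∈ V, 0 ≤ ρ w) → 0 < C → 0 < C₁ →
  ∃ r₀ : ℝ, 0 < r₀ ∧ ∀ Cg : ℝ, 0 < Cg → ∃ A : ℝ, 0 < A ∧ ∃ lam₀ : ℝ, 0 < lam₀ ∧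
  ∀ (lam : ℝ) (f : M → ℝ) (κ : Type) [Fintype κ] (b : κ → M), lam₀ ≤ lam →
    ContDiffOn ℝ ∞ (fun w => f (φ w)) V →
    (∀ w ∈ V, lap (fun w => f (φ w)) w + lam * ρ w * f (φ w) = 0) →
    BddAbove ((fun x => |f x|) '' Set.univ) → (∀ x r, 0 < r → 0 < sn f (ball x r)) →
    (∀ x : M, sn f Set.univ ≤ Real.exp (Cg * (1 + Real.sqrt lam)) * sn f (ball x r₀)) →
    (∀ x : M, (Set.ncard {i | x ∈ ball (b i) (C / Real.sqrt lam)} : ℝ) ≤ C₁) →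
    (∀ i, b i ∈ φ '' closedBall z R) →
    ∑ i, dbl f (b i) (C / Real.sqrt lam) ≤ A * lam

/-- Z5: the average doubling index -/
def Z5 : Prop := ∀ (M : Type u) (ι : Type v) [MetricSpace M] [CompactSpace M] [ConnectedSpace M]
  (U : ι → Set ℂ) (φ : ι → ℂ → M) (ρ : ι → ℂ → ℝ), Atl U φ ρ → (∀ i, ∀ z ∈ U i, 0 ≤ ρ i z) →
  ∀ C C₁ C₂ : ℝ, 0 < C → 0 < C₁ → 0 < C₂ → ∃ A : ℝ, 0 < A ∧
  ∀ (lam : ℝ) (f : M → ℝ) (κ : Type) [Fintype κ] (b : κ → M), 0 < lam → Eig U φ ρ lam f →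
    (∃ x, f x ≠ 0) →
    (∀ x : M, (Set.ncard {i | x ∈ ball (b i) (C / Real.sqrt lam)} : ℝ) ≤ C₁) →
    C₂⁻¹ * lam ≤ Fintype.card κ →
    (∑ i, dbl f (b i) (C / Real.sqrt lam)) / Fintype.card κ ≤ A

/-- Z7: the number of discs of a covering -/
def Z7 : Prop := ∀ (M : Type u) (ι : Type v) [MetricSpace M] [CompactSpace M] [Nonempty M]
  (U : ι → Set ℂ) (φ : ι → ℂ → M) (ρ : ι → ℂ → ℝ), Atl U φ ρ → ∀ C : ℝ, 0 < C → ∃ c : ℝ, 0 < c ∧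
  ∀ (lam : ℝ) (κ : Type) [Fintype κ] (b : κ → M), 0 < lam →
    (∀ y : M, ∃ i, y ∈ ball (b i) (C / Real.sqrt lam)) → c * lam ≤ Fintype.card κ

end

end Pool.Agent.Q73.AD
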