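import Pool.Agent.Q73.AD.StmG

/-!
# G2: a closed surface is covered by finitely many good pieces (helper121)
-/

set_option autoImplicit false
open MeasureTheory Filter Topology Complex Metric
open scoped ContDiff

namespace Pool.Agent.Q73.AD

namespace TG2

universe u v

theorem pos_lb {α : Type*} (t : Finset α) (f : α → ℝ) (h : ∀ x ∈ t, 0 < f x) :
    ∃ c : ℝ, 0 < c ∧ c ≤ 1 ∧ ∀ x ∈ t, c ≤ f x := by
  classical
  induction t using Finset.induction_on with
  | empty => exact ⟨1, one_pos, le_rfl, fun x hx => absurd hx (Finset.notMem_empty x)⟩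
  | insert a t ha ih =>
    obtain ⟨c, h1, h2, h3⟩ := ih fun x hx => h x (Finset.mem_insert_of_mem hx)
    refine ⟨min c (f a), lt_min h1 (h a (Finset.mem_insert_self a t)), (min_le_left _ _).trans h2, fun x hx => ?_⟩
    rcases Finset.mem_insert.1 hx with rfl | hx
    · exact min_le_right _ _
    · exact (min_le_left _ _).trans (h3 x hx)

theorem one_ub {α : Type*} (t : Finset α) (f : α → ℝ) : ∃ L : ℝ, 1 ≤ L ∧ ∀ x ∈ t, f x ≤ L := by
  classical
  induction t using Finset.induction_on with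
  | empty => exact ⟨1, le_rfl, fun x hx => absurd hx (Finset.notMem_empty x)⟩
  | insert a t ha ih =>
    obtain ⟨L, h1, h2⟩ := ih
    refine ⟨max L (f a), h1.trans (le_max_left _ _), fun x hx => ?_⟩
    rcases Finset.mem_insert.1 hx with rfl | hx
    · exact le_max_right _ _
    · exact (h2 x hx).trans (le_max_left _ _)

theorem good_mono {M : Type u} [MetricSpace M] {φ : ℂ → M} {ρ : ℂ → ℝ} {V : Set ℂ} {z : ℂ}
    {R c L δ c' L' δ' : ℝ} (h : Good φ ρ V z R c L δ) (hc : 0 < c') (hc' : c' ≤ c) (hL : L ≤ L') (hδ : 0 < δ')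
    (hδ' : δ' ≤ δ) : Good φ ρ V z R c' L' δ' where
  R_pos := h.R_pos
  R_le := h.R_le
  c_pos := hc
  c_le := hc'.trans h.c_le
  L_ge := h.L_ge.trans hL
  δ_pos := hδ
  opn := h.opn
  sub := h.sub
  lip := fun w hw w' hw' => by
    obtain ⟨h1, h2⟩ := h.lip w hw w' hw'
    exact ⟨(mul_le_mul_of_nonneg_right hc' (norm_nonneg _)).trans h1,
      (mul_le_mul_of_nonneg_right hc' dist_nonneg).trans h2⟩
  smooth := h.smooth
  bd := fun w hw => ⟨(h.bd w hw).1.trans hL, (h.bd w hw).2.trans hL⟩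
  surj := fun w hw => (ball_subset_ball hδ').trans (h.surj w hw)

theorem good_local {M : Type u} {ι : Type v} [MetricSpace M] {U : ι → Set ℂ} {φ : ι → ℂ → M}
    {ρ : ι → ℂ → ℝ} (hA : Atl U φ ρ) (x : M) : ∃ (i : ι) (z : ℂ) (R c L δ : ℝ),
    Good (φ i) (ρ i) (U i) z R c L δ ∧ φ i '' closedBall z R ∈ 𝓝 x := by
  obtain ⟨i, z, hz, hzx⟩ := hA.cover x
  obtain ⟨r, c, hr, hc, hb, hl⟩ := hA.lip i z hz
  obtain ⟨R, hR⟩ : ∃ R : ℝ, R = min 1 (r / 3) := ⟨_, rfl⟩
  have hR0 : 0 < R := by rw [hR]; exact lt_min one_pos (by linarith)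
  have hR1 : R ≤ 1 := by rw [hR]; exact min_le_left _ _
  have hR2 : R ≤ r / 3 := by rw [hR]; exact min_le_right _ _
  have hsub : closedBall z (2 * R) ⊆ ball z r := closedBall_subset_ball (by linarith)
  have hcomp : IsCompact (closedBall z (2 * R)) := isCompact_closedBall _ _
  have hc1 : ContinuousOn (ρ i) (U i) := (hA.dens i).continuousOn
  have hc2 : ContinuousOn (fderiv ℝ (ρ i)) (U i) := (hA.dens i).continuousOn_fderiv_of_isOpen (hA.dom i) le_rfl
  obtain ⟨L1, hL1⟩ := hcomp.exists_bound_of_continuousOn (hc1.mono (hsub.trans hb))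
  obtain ⟨L2, hL2⟩ := hcomp.exists_bound_of_continuousOn (hc2.mono (hsub.trans hb))
  -- the surjectivity
  have hφc : ContinuousOn (φ i) (ball z r) := by
    intro w hw
    rw [ContinuousWithinAt, tendsto_iff_dist_tendsto_zero]
    have h1 : Tendsto (fun w' : ℂ => c⁻¹ * ‖w' - w‖) (𝓝[ball z r] w) (𝓝 0) := by
      have : Continuous fun w' : ℂ => c⁻¹ * ‖w' - w‖ := by fun_prop
      have h2 := (this.tendsto w).mono_left (nhdsWithin_le_nhds (s := ball z r))
      simpa using h2
    refine squeeze_zero' (Eventually.of_forall fun _ => dist_nonneg) ?_ h1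
    filter_upwards [self_mem_nhdsWithin] with w' hw'
    have h2 := (hl w' hw' w hw).2
    rw [inv_mul_eq_div, le_div_iff₀ hc, mul_comm]
    exact h2
  have hK : IsCompact (φ i '' closedBall z (3 * R / 2)) := by
    apply (isCompact_closedBall _ _).image_of_continuousOn
    exact hφc.mono (closedBall_subset_ball (by linarith))
  have hO : IsOpen (φ i '' ball z (2 * R)) :=
    hA.opn i _ isOpen_ball ((ball_subset_closedBall.trans hsub).trans hb)
  obtain ⟨δ, hδ, hth⟩ := hK.exists_thickening_subset_open hO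
    (Set.image_mono (closedBall_subset_ball (by linarith)))
  refine ⟨i, z, R, min c 1, max 1 (max L1 L2), δ, ?_, ?_⟩
  · refine ⟨hR0, hR1, lt_min hc one_pos, min_le_right _ _, le_max_left _ _, hδ, hA.dom i, hsub.trans hb, ?_,
      hA.dens i, ?_, ?_⟩
    · intro w hw w' hw'
      obtain ⟨h1, h2⟩ := hl w (hsub hw) w' (hsub hw')
      exact ⟨(mul_le_mul_of_nonneg_right (min_le_left _ _) (norm_nonneg _)).trans h1,
        (mul_le_mul_of_nonneg_right (min_le_left _ _) dist_nonneg).trans h2⟩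
    · intro w hw
      have h1 := hL1 w hw
      rw [Real.norm_eq_abs] at h1
      exact ⟨h1.trans ((le_max_left _ _).trans (le_max_right _ _)),
        (hL2 w hw).trans ((le_max_right _ _).trans (le_max_right _ _))⟩
    · intro w hw
      have h1 : ball (φ i w) δ ⊆ thickening δ (φ i '' closedBall z (3 * R / 2)) :=
        ball_subset_thickening (Set.mem_image_of_mem _ hw) δ
      exact (h1.trans hth).trans (Set.image_mono ball_subset_closedBall)
  · have hO' : IsOpen (φ i '' ball z R) := by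
      apply hA.opn i _ isOpen_ball
      exact ((ball_subset_ball (by linarith)).trans (ball_subset_closedBall.trans hsub)).trans hb
    refine mem_of_superset (hO'.mem_nhds ?_) (Set.image_mono ball_subset_closedBall)
    exact ⟨z, mem_ball_self hR0, hzx⟩

end TG2

open TG2

/-- G2 -/
theorem tg2.{u, v} : G2.{u, v} := by
  classical
  intro M ι _ _ U φ ρ hA
  choose i z R c L δ hG hn using fun x => good_local hA x
  obtain ⟨t, ht⟩ := CompactSpace.elim_nhds_subcover (fun x => φ (i x) '' closedBall (z x) (R x)) hn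
  obtain ⟨c', h1, -, h3⟩ := pos_lb t c fun x _ => (hG x).c_pos
  obtain ⟨δ', k1, -, k3⟩ := pos_lb t δ fun x _ => (hG x).δ_pos
  obtain ⟨L', -, l2⟩ := one_ub t L
  let e : Fin t.card ≃ t := t.equivFin.symm
  refine ⟨t.card, fun a => i (e a), fun a => z (e a), fun a => R (e a), c', L', δ', fun a => ?_, fun x => ?_⟩
  · exact good_mono (hG (e a)) h1 (h3 _ (e a).2) (l2 _ (e a).2) k1 (k3 _ (e a).2)
  · have hx : x ∈ ⋃ y ∈ t, φ (i y) '' closedBall (z y) (R y) := by
      rw [ht]; trivial
    rw [Set.mem_iUnion₂] at hx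
    obtain ⟨y, hy, hxy⟩ := hx
    refine ⟨e.symm ⟨y, hy⟩, ?_⟩
    simp only [Equiv.apply_symm_apply]
    exact hxy

end Pool.Agent.Q73.AD
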