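import Pool.Agent.Q73.AD.TG3
import Pool.Agent.Q73.AD.StmL

/-!
# G3L: the sum of the squares of the doubling indices over the discs with centres in a good piece
(adapted from TG3, helper24, by helper211)
-/

set_option autoImplicit false
open MeasureTheory Filter Topology Complex Metric
open scoped ContDiff ComplexConjugate

namespace Pool.Agent.Q73.AD

open Pool.Agent.Q73.NL

universe u

theorem tg3L (hO3 : O3L) : G3L.{u} := by
  intro M _ φ ρ V z R c L δ C C₁ ε hG hC hC₁ hε
  classical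
  have hc := hG.c_pos
  have hc1 := hG.c_le
  have hR := hG.R_pos
  have hR1 := hG.R_le
  have hδ := hG.δ_pos
  set K : ℝ := 8 / c ^ 2 + 3 with hK
  have hK11 : 11 ≤ K := by
    have : 8 ≤ 8 / c ^ 2 := by
      rw [le_div_iff₀ (by positivity)]
      nlinarith
    rw [hK]; linarith
  obtain ⟨M', hM2, hO⟩ := hO3 K ε (by linarith) hε
  have hM'2 : (2 : ℝ) ≤ M' := by exact_mod_cast hM2
  have hM'0 : (0 : ℝ) < M' := by linarith
  set h₁ : ℝ := R / (2 * (K + 4)) with hh₁
  have hh₁0 : 0 < h₁ := by positivity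
  have hh₁R : (K + 4) * h₁ = R / 2 := by rw [hh₁]; field_simp
  refine ⟨min δ (c * (h₁ / M')), by positivity, fun Cg hCg => ?_⟩
  obtain ⟨C₀, hC₀, hO'⟩ := hO L hG.L_ge
  set τ : ℝ := c * C / 4 with hτ
  have hτ0 : 0 < τ := by positivity
  set B : ℝ := h₁ / τ with hB
  have hB0 : 0 < B := by positivity
  set Q : ℕ := ⌈M' * (K + 4)⌉₊ + 1 with hQ
  have hlog2 : 0 < Real.log 2 := Real.log_pos (by norm_num)
  refine ⟨C₁ / Real.log 2 ^ 2 * (2 * Q + 1) ^ 2 * (C₀ * (B ^ ε * (4 * Cg ^ 2 + 1) + B ^ 2)), by positivity,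
    max 1 (max ((τ / h₁) ^ 2) ((2 * C / δ) ^ 2)), by positivity, ?_⟩
  intro lam f κ _ b hlam hsm heq hbdd hpos hgrow hcard hb
  have hlam1 : 1 ≤ lam := (le_max_left _ _).trans hlam
  have hlam2 : (τ / h₁) ^ 2 ≤ lam := (le_max_left _ _).trans ((le_max_right _ _).trans hlam)
  have hlam3 : (2 * C / δ) ^ 2 ≤ lam := (le_max_right _ _).trans ((le_max_right _ _).trans hlam)
  set sl : ℝ := Real.sqrt lam with hsl
  have hsl1 : 1 ≤ sl := Real.one_le_sqrt.2 hlam1
  have hsl0 : 0 < sl := by linarith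
  have hsl2 : τ / h₁ ≤ sl := Real.le_sqrt_of_sq_le hlam2
  have hsl3 : 2 * C / δ ≤ sl := Real.le_sqrt_of_sq_le hlam3
  have hslsq : sl ^ 2 = lam := Real.sq_sqrt (by linarith)
  -- the scale
  have hx1 : 1 ≤ h₁ * sl / τ := by
    rw [le_div_iff₀ hτ0, one_mul]
    rw [div_le_iff₀ hh₁0] at hsl2
    linarith
  obtain ⟨J, hJ1, hJ2⟩ := exists_nat_pow_near hx1 (show (1 : ℝ) < M' by linarith)
  set n : ℕ := M' ^ J with hn
  have hn0 : 0 < n := by rw [hn]; positivity
  have hncast : (n : ℝ) = (M' : ℝ) ^ J := by rw [hn]; push_cast; rfl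
  have hnr : (0 : ℝ) < n := by exact_mod_cast hn0
  have hn1 : (1 : ℝ) ≤ n := by exact_mod_cast hn0
  set h : ℝ := n * τ / sl with hh
  have hh0 : 0 < h := by positivity
  have hhh₁ : h ≤ h₁ := by
    rw [hh, div_le_iff₀ hsl0, hncast]
    rw [le_div_iff₀ hτ0] at hJ1
    linarith
  have hhlow : h₁ / M' < h := by
    rw [hh, div_lt_div_iff₀ hM'0 hsl0, hncast]
    rw [pow_succ, div_lt_iff₀ hτ0] at hJ2
    linarith
  have hh' : h / n = τ / sl := by rw [hh]; field_simp
  have hhK : (K + 4) * h ≤ R / 2 := by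
    rw [← hh₁R]
    exact mul_le_mul_of_nonneg_left hhh₁ (by linarith)
  have hKh0 : 0 < K * h := by positivity
  have hhn : h / n ≤ h := div_le_self hh0.le hn1
  have hh1 : h ≤ 1 := by nlinarith
  -- boundedness
  obtain ⟨Bf, hBf⟩ := hbdd
  have hBf' : ∀ x, |f x| ≤ Bf := fun x => hBf ⟨x, Set.mem_univ _, rfl⟩
  -- the bound of one root
  have hlam00 : 0 < lam := by linarith
  set Bd : ℝ := C₀ * (((M' : ℝ) ^ J) ^ ε * ((Cg * (1 + sl)) ^ 2 + lam * h ^ 2) +
    ((M' : ℝ) ^ J) ^ 2) with hBd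
  have hBd0 : 0 ≤ Bd := by rw [hBd]; positivity
  have hroot : ∀ m : ℤ × ℤ, ∃ nn : Fin n × Fin n → ℝ, (∀ a, 0 ≤ nn a) ∧ ∑ a, nn a ^ 2 ≤ Bd ∧
      (‖rt z h m - z‖ ≤ R + 2 * h → ∀ a, sn (fun w => f (φ w)) (closedBall (rt z h m + h * cen n a) (K * (h / n))) ≤
        Real.exp (nn a) * sn (fun w => f (φ w)) (closedBall (rt z h m + h * cen n a) (h / n))) := by
    intro m
    by_cases hgood : ‖rt z h m - z‖ ≤ R + 2 * h
    · set p := rt z h m with hp
      have hpz : p ∈ closedBall z (3 * R / 2) := by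
        rw [mem_closedBall, dist_eq_norm]
        nlinarith
      have hsubK : closedBall p (K * h) ⊆ closedBall z (2 * R) := by
        refine closedBall_subset_closedBall' ?_
        rw [dist_eq_norm]
        nlinarith
      have hVn : ∀ y ∈ V, V ∈ 𝓝 y := fun y hy => hG.opn.mem_nhds hy
      have hstart : sn (fun w => f (φ w)) (closedBall p (K * h)) ≤
          Real.exp (Cg * (1 + sl)) * sn (fun w => f (φ w)) (closedBall p h) := by
        have h1 : sn (fun w => f (φ w)) (closedBall p (K * h)) ≤ sn f Set.univ :=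
          sn_le2 (sn_nonneg2 _ _) fun w _ => le_sn2 (fun x _ => hBf' x) (Set.mem_univ (φ w))
        have h2 : sn f (ball (φ p) (min δ (c * (h₁ / M')))) ≤ sn (fun w => f (φ w)) (closedBall p h) := by
          refine sn_le2 (sn_nonneg2 _ _) fun x hx => ?_
          have hx1 : x ∈ ball (φ p) δ := ball_subset_ball (min_le_left _ _) hx
          obtain ⟨w, hw, rfl⟩ := hG.surj p hpz hx1
          have h3 := (hG.lip w hw p (closedBall_subset_closedBall (by linarith) hpz)).1
          have h4 : dist (φ w) (φ p) < c * (h₁ / M') := lt_of_lt_of_le hx (min_le_right _ _)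
          have h5 : ‖w - p‖ < h₁ / M' := lt_of_mul_lt_mul_left (h3.trans_lt h4) hc.le
          have h6 : w ∈ closedBall p h := by
            rw [mem_closedBall, dist_eq_norm]
            linarith
          exact le_sn2 (f := fun w => f (φ w)) (fun w' _ => hBf' (φ w')) h6
        calc _ ≤ sn f Set.univ := h1
          _ ≤ _ := hgrow (φ p)
          _ ≤ _ := mul_le_mul_of_nonneg_left h2 (Real.exp_pos _).le
      obtain ⟨nn, hnn1, hnn2⟩ := hO' lam h (Cg * (1 + sl)) p ρ (fun w => f (φ w)) (by linarith) hh0 hh1 (by positivity)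
        (fun y hy => by
          have hy2 := hsubK hy
          have hyV := hG.sub hy2
          exact ⟨(hsm y hyV).contDiffAt (hVn y hyV), (hG.smooth y hyV).contDiffAt (hVn y hyV), (hG.bd y hy2).1,
            (hG.bd y hy2).2, heq y hyV⟩) hstart J
      exact ⟨nn, fun a => (hnn1 a).1, hnn2, fun _ a => (hnn1 a).2⟩
    · exact ⟨fun _ => 0, fun _ => le_rfl, by simpa using hBd0, fun hg => absurd hg hgood⟩
  choose nn hnn0 hnnS hnnE using hroot
  -- the position of the discs
  choose y hyR hyb using hb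
  have hyR' : ∀ i, ‖y i - z‖ ≤ R := fun i => by
    have := hyR i
    rwa [mem_closedBall, dist_eq_norm] at this
  choose m a hm1 hm2 hm3 hm4 using fun i => locate hh0 (hyR' i) hn0
  -- the centres of the subsquares
  have hp1 : ∀ i, ‖rt z h (m i) - z‖ ≤ R + 2 * h := fun i => by
    have e : rt z h (m i) - z = (y i - z) - (y i - rt z h (m i)) := by ring
    rw [e]
    refine (norm_sub_le _ _).trans ?_
    linarith [hyR' i, hm1 i]
  have hp2 : ∀ i, ∀ w ∈ closedBall (rt z h (m i) + h * cen n (a i)) (h / n), w ∈ closedBall z (2 * R) := by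
    intro i w hw
    rw [mem_closedBall, dist_eq_norm] at hw ⊢
    have e : w - z = (w - (rt z h (m i) + h * cen n (a i))) - (y i - (rt z h (m i) + h * cen n (a i))) + (y i - z) := by
      ring
    rw [e]
    refine (norm_add_le _ _).trans ?_
    have h1 := norm_sub_le (w - (rt z h (m i) + h * cen n (a i))) (y i - (rt z h (m i) + h * cen n (a i)))
    have h2 := hyR' i
    have h3 := hm4 i
    have h4 : 3 * (h / n) ≤ R := by nlinarith
    linarith
  have hy2R : ∀ i, y i ∈ closedBall z (2 * R) := fun i =>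
    closedBall_subset_closedBall (by linarith) (hyR i)
  -- the discs contain the image of the subsquare
  have hin : ∀ i, ∀ w ∈ closedBall (rt z h (m i) + h * cen n (a i)) (h / n), φ w ∈ ball (b i) (C / sl) := by
    intro i w hw
    have h1 := (hG.lip w (hp2 i w hw) (y i) (hy2R i)).2
    rw [mem_closedBall, dist_eq_norm] at hw
    have h2 : ‖w - y i‖ ≤ 3 * (h / n) := by
      have e : w - y i = (w - (rt z h (m i) + h * cen n (a i))) - (y i - (rt z h (m i) + h * cen n (a i))) := by ring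
      rw [e]
      refine (norm_sub_le _ _).trans ?_
      linarith [hm4 i]
    rw [mem_ball, ← hyb i]
    have h3 : 3 * (h / n) < c * (C / sl) := by
      rw [hh', hτ]
      have : 0 < c * C / sl := by positivity
      have e : 3 * (c * C / 4 / sl) = 3 / 4 * (c * C / sl) := by ring
      have e2 : c * (C / sl) = c * C / sl := by ring
      rw [e, e2]
      linarith
    have h4 : c * dist (φ w) (φ (y i)) < c * (C / sl) := lt_of_le_of_lt (h1.trans h2) h3
    exact lt_of_mul_lt_mul_left h4 hc.le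
  -- the doubled discs are in the image of the large disc
  have hout : ∀ i, ∀ x ∈ ball (b i) (2 * (C / sl)), ∃ w ∈ closedBall (rt z h (m i) + h * cen n (a i)) (K * (h / n)),
      φ w = x := by
    intro i x hx
    have h2Cδ : 2 * (C / sl) ≤ δ := by
      rw [div_le_iff₀ hδ] at hsl3
      have e : 2 * (C / sl) = 2 * C / sl := by ring
      rw [e, div_le_iff₀ hsl0]
      linarith
    rw [← hyb i] at hx
    obtain ⟨w, hw, rfl⟩ := hG.surj (y i) (closedBall_subset_closedBall (by linarith) (hyR i))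
      (ball_subset_ball h2Cδ hx)
    refine ⟨w, ?_, rfl⟩
    have h1 := (hG.lip w hw (y i) (hy2R i)).1
    rw [mem_ball] at hx
    rw [mem_closedBall, dist_eq_norm]
    have h2 : ‖w - y i‖ ≤ 8 / c ^ 2 * (h / n) := by
      have h3 : c * ‖w - y i‖ ≤ c * (8 / c ^ 2 * (h / n)) := by
        refine (h1.trans hx.le).trans (le_of_eq ?_)
        rw [hh', hτ]
        field_simp
        norm_num
      exact le_of_mul_le_mul_left h3 hc
    have e : w - (rt z h (m i) + h * cen n (a i)) = (w - y i) + (y i - (rt z h (m i) + h * cen n (a i))) := by ring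
    rw [e]
    refine (norm_add_le _ _).trans ?_
    have h5 : 0 < h / n := by positivity
    have h6 := hm4 i
    rw [hK]
    nlinarith
  -- the doubling index of one disc
  have hdbl : ∀ i, dbl f (b i) (C / sl) ≤ nn (m i) (a i) / Real.log 2 := by
    intro i
    have h1 := hnnE (m i) (hp1 i) (a i)
    have hr0 : 0 < C / sl := by positivity
    have h2 : sn f (ball (b i) (2 * (C / sl))) ≤
        sn (fun w => f (φ w)) (closedBall (rt z h (m i) + h * cen n (a i)) (K * (h / n))) := by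
      refine sn_le2 (sn_nonneg2 _ _) fun x hx => ?_
      obtain ⟨w, hw, rfl⟩ := hout i x hx
      exact le_sn2 (f := fun w => f (φ w)) (fun w' _ => hBf' (φ w')) hw
    have h3 : sn (fun w => f (φ w)) (closedBall (rt z h (m i) + h * cen n (a i)) (h / n)) ≤
        sn f (ball (b i) (C / sl)) := by
      refine sn_le2 (sn_nonneg2 _ _) fun w hw => ?_
      exact le_sn2 (fun x _ => hBf' x) (hin i w hw)
    have hp := hpos (b i) (C / sl) hr0
    have hp2 := hpos (b i) (2 * (C / sl)) (by linarith)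
    have h4 : sn f (ball (b i) (2 * (C / sl))) / sn f (ball (b i) (C / sl)) ≤ Real.exp (nn (m i) (a i)) := by
      rw [div_le_iff₀ hp]
      calc _ ≤ _ := h2
        _ ≤ _ := h1
        _ ≤ _ := mul_le_mul_of_nonneg_left h3 (Real.exp_pos _).le
    unfold dbl Real.logb
    refine div_le_div_of_nonneg_right ?_ hlog2.le
    have h5 := Real.log_le_log (div_pos hp2 hp) h4
    rwa [Real.log_exp] at h5
  -- the number of discs of one subsquare
  have hcnt : ∀ (m₀ : ℤ × ℤ) (a₀ : Fin n × Fin n),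
      ((Finset.univ.filter fun i => (m i, a i) = (m₀, a₀)).card : ℝ) ≤ C₁ := by
    intro m₀ a₀
    refine le_trans ?_ (hcard (φ (rt z h m₀ + h * cen n a₀)))
    rw [← Set.ncard_coe_finset]
    have : ((Finset.univ.filter fun i => (m i, a i) = (m₀, a₀)) : Set κ) ⊆
        {i | φ (rt z h m₀ + h * cen n a₀) ∈ ball (b i) (C / sl)} := by
      intro i hi
      have hi' : (m i, a i) = (m₀, a₀) := by simpa using hi
      obtain ⟨e1, e2⟩ := Prod.mk.inj hi'
      have h1 := hin i (rt z h (m i) + h * cen n (a i)) (mem_closedBall_self (by positivity))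
      rw [e1, e2] at h1
      exact h1
    exact_mod_cast Set.ncard_le_ncard this (Set.toFinite _)
  -- the index set of the roots
  set IS : Finset (ℤ × ℤ) := Finset.Icc (-(Q : ℤ)) Q ×ˢ Finset.Icc (-(Q : ℤ)) Q with hIS
  have hIScard : (IS.card : ℝ) = (2 * Q + 1) ^ 2 := by
    rw [hIS, Finset.card_product, Int.card_Icc]
    have : ((Q : ℤ) + 1 - -(Q : ℤ)).toNat = 2 * Q + 1 := by omega
    rw [this]
    push_cast
    ring
  have hmIS : ∀ i, m i ∈ IS := by
    intro i
    have hQr : R / (2 * h) + 1 ≤ Q := by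
      have h1 : R / (2 * h) ≤ M' * (K + 4) := by
        rw [div_le_iff₀ (by positivity)]
        have h2 : h₁ < M' * h := by
          rw [div_lt_iff₀ hM'0] at hhlow
          linarith
        have h3 : (K + 4) * h₁ ≤ (K + 4) * (M' * h) := mul_le_mul_of_nonneg_left h2.le (by linarith)
        rw [hh₁R] at h3
        linarith
      have h2 : M' * (K + 4) ≤ ⌈M' * (K + 4)⌉₊ := Nat.le_ceil _
      rw [hQ]
      push_cast
      linarith
    have key : ∀ k : ℤ, |(k : ℝ)| ≤ R / (2 * h) + 1 → k ∈ Finset.Icc (-(Q : ℤ)) Q := by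
      intro k hk
      have h1 := abs_le.1 (hk.trans hQr)
      rw [Finset.mem_Icc]
      constructor
      · have : ((-(Q : ℤ) : ℤ) : ℝ) ≤ k := by push_cast; linarith [h1.1]
        exact_mod_cast this
      · have : (k : ℝ) ≤ ((Q : ℤ) : ℝ) := by push_cast; linarith [h1.2]
        exact_mod_cast this
    rw [hIS, Finset.mem_product]
    exact ⟨key _ (hm2 i), key _ (hm3 i)⟩
  -- the sum
  have hsum1 : ∑ i, nn (m i) (a i) ^ 2 ≤ C₁ * ((2 * Q + 1) ^ 2 * Bd) := by
    have e1 : ∑ i, nn (m i) (a i) ^ 2 = ∑ x ∈ IS ×ˢ (Finset.univ : Finset (Fin n × Fin n)),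
        ∑ i ∈ Finset.univ.filter (fun i => (m i, a i) = x), nn (m i) (a i) ^ 2 :=
      (Finset.sum_fiberwise_of_maps_to (fun i _ => Finset.mem_product.2 ⟨hmIS i, Finset.mem_univ _⟩) _).symm
    rw [e1]
    have e2 : ∀ x ∈ IS ×ˢ (Finset.univ : Finset (Fin n × Fin n)),
        ∑ i ∈ Finset.univ.filter (fun i => (m i, a i) = x), nn (m i) (a i) ^ 2 ≤
          C₁ * nn x.1 x.2 ^ 2 := by
      intro x _
      have e3 : ∑ i ∈ Finset.univ.filter (fun i => (m i, a i) = x), nn (m i) (a i) ^ 2 =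
          ((Finset.univ.filter (fun i => (m i, a i) = x)).card : ℝ) * nn x.1 x.2 ^ 2 := by
        rw [← nsmul_eq_mul, ← Finset.sum_const]
        refine Finset.sum_congr rfl fun i hi => ?_
        rw [Finset.mem_filter] at hi
        rw [← hi.2]
      rw [e3]
      exact mul_le_mul_of_nonneg_right (hcnt x.1 x.2) (sq_nonneg _)
    refine (Finset.sum_le_sum e2).trans ?_
    rw [← Finset.mul_sum]
    refine mul_le_mul_of_nonneg_left ?_ hC₁.le
    rw [Finset.sum_product]
    calc ∑ x ∈ IS, ∑ y : Fin n × Fin n, nn x y ^ 2 ≤ ∑ x ∈ IS, Bd := Finset.sum_le_sum fun x _ => hnnS x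
      _ = (2 * Q + 1) ^ 2 * Bd := by rw [Finset.sum_const, nsmul_eq_mul, hIScard]
  -- the size of the bound
  have hBdle : Bd ≤ C₀ * (B ^ ε * (4 * Cg ^ 2 + 1) + B ^ 2) * lam ^ (1 + ε) := by
    have hlam0 : 0 < lam := by linarith
    have hMJ : (M' : ℝ) ^ J ≤ B * sl := by
      refine hJ1.trans (le_of_eq ?_)
      rw [hB]; ring
    have hMJ0 : 0 < (M' : ℝ) ^ J := by positivity
    have h1 : ((M' : ℝ) ^ J) ^ ε ≤ B ^ ε * sl ^ ε := by
      rw [← Real.mul_rpow hB0.le hsl0.le]
      exact Real.rpow_le_rpow hMJ0.le hMJ hε.le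
    have hsllam : sl ≤ lam := by
      rw [← hslsq]
      nlinarith
    have h2 : (Cg * (1 + sl)) ^ 2 + lam * h ^ 2 ≤ (4 * Cg ^ 2 + 1) * lam := by
      have h3 : lam * h ^ 2 ≤ lam * 1 :=
        mul_le_mul_of_nonneg_left (pow_le_one₀ hh0.le hh1) hlam0.le
      have h4 : (Cg * (1 + sl)) ^ 2 ≤ (Cg * (2 * sl)) ^ 2 :=
        pow_le_pow_left₀ (by positivity) (mul_le_mul_of_nonneg_left (by linarith) hCg.le) 2
      have h5 : (Cg * (2 * sl)) ^ 2 = 4 * Cg ^ 2 * lam := by
        rw [← hslsq]; ring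
      rw [h5] at h4
      linarith
    have h3 : sl ^ ε * lam ≤ lam ^ (1 + ε) := by
      have e1 : lam ^ (1 + ε) = lam ^ ε * lam := by
        rw [add_comm, Real.rpow_add hlam0, Real.rpow_one]
      rw [e1]
      exact mul_le_mul_of_nonneg_right (Real.rpow_le_rpow hsl0.le hsllam hε.le) hlam0.le
    have h4 : ((M' : ℝ) ^ J) ^ 2 ≤ B ^ 2 * lam ^ (1 + ε) := by
      have h5 : ((M' : ℝ) ^ J) ^ 2 ≤ (B * sl) ^ 2 := pow_le_pow_left₀ hMJ0.le hMJ 2
      rw [mul_pow, hslsq] at h5
      have h6 : lam ≤ lam ^ (1 + ε) := by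
        calc lam = lam ^ (1 : ℝ) := (Real.rpow_one _).symm
          _ ≤ _ := Real.rpow_le_rpow_of_exponent_le hlam1 (by linarith)
      exact h5.trans (mul_le_mul_of_nonneg_left h6 (by positivity))
    have h5 : ((M' : ℝ) ^ J) ^ ε * ((Cg * (1 + sl)) ^ 2 + lam * h ^ 2) ≤
        (B ^ ε * (4 * Cg ^ 2 + 1)) * lam ^ (1 + ε) := by
      calc _ ≤ (B ^ ε * sl ^ ε) * ((4 * Cg ^ 2 + 1) * lam) :=
            mul_le_mul h1 h2 (by positivity) (by positivity)
        _ = (B ^ ε * (4 * Cg ^ 2 + 1)) * (sl ^ ε * lam) := by ring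
        _ ≤ _ := mul_le_mul_of_nonneg_left h3 (by positivity)
    rw [hBd, mul_assoc C₀]
    refine mul_le_mul_of_nonneg_left ?_ hC₀.le
    calc _ ≤ (B ^ ε * (4 * Cg ^ 2 + 1)) * lam ^ (1 + ε) + B ^ 2 * lam ^ (1 + ε) := add_le_add h5 h4
      _ = _ := by ring
  have hdbl0 : ∀ i, 0 ≤ dbl f (b i) (C / sl) := by
    intro i
    unfold dbl
    have hr0 : 0 < C / sl := by positivity
    refine Real.logb_nonneg one_lt_two ?_
    rw [one_le_div (hpos (b i) _ hr0)]
    exact sn_le2 (sn_nonneg2 _ _) fun x hx =>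
      le_sn2 (fun w _ => hBf' w) (ball_subset_ball (by linarith) hx)
  calc ∑ i, dbl f (b i) (C / sl) ^ 2 ≤ ∑ i, nn (m i) (a i) ^ 2 / Real.log 2 ^ 2 :=
        Finset.sum_le_sum fun i _ => by
          rw [← div_pow]
          exact pow_le_pow_left₀ (hdbl0 i) (hdbl i) 2
    _ = (∑ i, nn (m i) (a i) ^ 2) / Real.log 2 ^ 2 := (Finset.sum_div _ _ _).symm
    _ ≤ (C₁ * ((2 * Q + 1) ^ 2 * Bd)) / Real.log 2 ^ 2 :=
        div_le_div_of_nonneg_right hsum1 (by positivity)
    _ = (C₁ / Real.log 2 ^ 2 * (2 * Q + 1) ^ 2) * Bd := by ring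
    _ ≤ (C₁ / Real.log 2 ^ 2 * (2 * Q + 1) ^ 2) *
        (C₀ * (B ^ ε * (4 * Cg ^ 2 + 1) + B ^ 2) * lam ^ (1 + ε)) :=
        mul_le_mul_of_nonneg_left hBdle (by positivity)
    _ = _ := by ring

end Pool.Agent.Q73.AD
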