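import Pool.Agent.Q73.AD.TG4
import Pool.Agent.Q73.AD.StmL

/-!
# G4L: the mean square of the doubling index (adapted from TG4, helper121, by helper211)
-/

set_option autoImplicit false
open MeasureTheory Filter Topology Complex Metric
open scoped ContDiff

namespace Pool.Agent.Q73.AD

open TG4

theorem TG4.dbl_nonneg {M : Type*} [MetricSpace M] {f : M → ℝ}
    (hb : BddAbove ((fun x => |f x|) '' Set.univ)) {x : M} {r : ℝ} (hr : 0 < r)
    (hpos : ∀ (x : M) (r : ℝ), 0 < r → 0 < sn f (ball x r)) : 0 ≤ dbl f x r := by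
  unfold dbl
  refine Real.logb_nonneg one_lt_two ?_
  rw [one_le_div (hpos x r hr)]
  exact sn_mono (ball_subset_ball (by linarith)) ⟨x, mem_ball_self hr⟩ hb

/-- G4L -/
theorem tg4L.{u, v} (h1 : G1.{u, v}) (h2 : G2.{u, v}) (h3 : G3L.{u}) : G4L.{u, v} := by
  classical
  intro M ι _ _ _ U φ ρ hA C C₁ C₂ ε hC hC₁ hC₂ hε
  obtain ⟨n, i, z, R, c, L, δ, hG, hcov⟩ := h2 M ι U φ ρ hA
  choose r₀ hr₀ h3' using fun a => h3 M (φ (i a)) (ρ (i a)) (U (i a)) (z a) (R a) c L δ C C₁ ε (hG a) hC hC₁ hε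
  choose Cg hCg hgr using fun a => h1 M ι U φ ρ hA (r₀ a) (hr₀ a)
  choose A hA0 lam₀ hlam₀ hfin using fun a => h3' a (Cg a) (hCg a)
  obtain ⟨Λ, hΛ⟩ : ∃ Λ : ℝ, Λ = 1 + ∑ a, lam₀ a := ⟨_, rfl⟩
  have hΛ0 : 0 < Λ := by
    rw [hΛ]
    have := Finset.sum_nonneg fun a (_ : a ∈ Finset.univ) => (hlam₀ a).le
    linarith
  have hsΛ : 0 < √Λ := Real.sqrt_pos.2 hΛ0
  obtain ⟨Cg', hCg', hgr'⟩ := h1 M ι U φ ρ hA (C / √Λ) (by positivity)
  have hAs : 0 ≤ ∑ a, A a := Finset.sum_nonneg fun a _ => (hA0 a).le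
  have hlog : 0 < Real.log 2 := Real.log_pos (by norm_num)
  refine ⟨C₂ * (∑ a, A a) + (Cg' * (1 + √Λ) / Real.log 2) ^ 2 + 1, by positivity, ?_⟩
  intro lam f κ _ b hlam hf hne hnc hcard
  have hb : BddAbove ((fun x => |f x|) '' Set.univ) :=
    isCompact_univ.bddAbove_image (cont hA hf).abs.continuousOn
  have hpos : ∀ (x : M) (r : ℝ), 0 < r → 0 < sn f (ball x r) := by
    intro x r hr
    obtain ⟨Cr, -, hgrr⟩ := h1 M ι U φ ρ hA r hr
    obtain ⟨x₀, hx₀⟩ := hne
    have h4 := (abs_pos.2 hx₀).trans_le ((le_sn hb x₀).trans (hgrr lam f hlam.le hf x))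
    exact (mul_pos_iff_of_pos_left (Real.exp_pos _)).1 h4
  have hcardp : (0 : ℝ) < Fintype.card κ := lt_of_lt_of_le (by positivity) hcard
  have hrp : 1 ≤ (1 + lam) ^ ε := Real.one_le_rpow (by linarith) hε.le
  have hsl : 0 < √lam := Real.sqrt_pos.2 hlam
  rcases le_or_gt Λ lam with hcase | hcase
  · -- large eigenvalues
    choose asg hasg using fun j => hcov (b j)
    have hpart : ∀ a : Fin n, ∑ j : {j : κ // asg j = a}, dbl f (b j) (C / √lam) ^ 2 ≤ A a * lam ^ (1 + ε) := by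
      intro a
      apply hfin a lam f {j : κ // asg j = a} (fun j => b j)
      · refine le_trans ?_ hcase
        rw [hΛ]
        exact le_sum_of lam₀ hlam₀ a
      · exact (hf (i a)).1
      · exact (hf (i a)).2
      · exact hb
      · exact hpos
      · exact fun x => hgr a lam f hlam.le hf x
      · intro x
        refine le_trans ?_ (hnc x)
        have h5 : Set.ncard {j : {j : κ // asg j = a} | x ∈ ball (b j) (C / √lam)} ≤
            Set.ncard {j : κ | x ∈ ball (b j) (C / √lam)} := by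
          rw [← Set.ncard_image_of_injective _ (Subtype.val_injective (p := fun j : κ => asg j = a))]
          apply Set.ncard_le_ncard _ (Set.toFinite _)
          rintro y ⟨w, hw, rfl⟩
          exact hw
        exact_mod_cast h5
      · rintro ⟨j, hj⟩
        have := hasg j
        rw [hj] at this
        exact this
    have hsum : ∑ j, dbl f (b j) (C / √lam) ^ 2 ≤ (∑ a, A a) * lam ^ (1 + ε) := by
      rw [← Finset.sum_fiberwise Finset.univ asg, Finset.sum_mul]
      refine Finset.sum_le_sum fun a _ => ?_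
      refine le_trans (le_of_eq ?_) (hpart a)
      rw [Finset.sum_subtype (Finset.univ.filter fun j => asg j = a) (p := fun j => asg j = a) (by simp)]
    rw [div_le_iff₀ hcardp]
    have hle : lam ^ ε ≤ (1 + lam) ^ ε := Real.rpow_le_rpow hlam.le (by linarith) hε.le
    have hl0 : 0 < lam ^ ε := Real.rpow_pos_of_pos hlam ε
    calc ∑ j, dbl f (b j) (C / √lam) ^ 2 ≤ (∑ a, A a) * lam ^ (1 + ε) := hsum
      _ = (C₂ * ∑ a, A a) * lam ^ ε * (C₂⁻¹ * lam) := by
          rw [Real.rpow_add hlam, Real.rpow_one]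
          field_simp
      _ ≤ (C₂ * (∑ a, A a) + (Cg' * (1 + √Λ) / Real.log 2) ^ 2 + 1) * (1 + lam) ^ ε * Fintype.card κ := by
          have h6 : 0 ≤ (Cg' * (1 + √Λ) / Real.log 2) ^ 2 := by positivity
          gcongr
          linarith
  · -- small eigenvalues
    have hd : ∀ j, dbl f (b j) (C / √lam) ≤ Cg' * (1 + √Λ) / Real.log 2 := by
      intro j
      apply dbl_le hb (r' := C / √Λ) (by positivity)
        (div_le_div_of_nonneg_left hC.le hsl (Real.sqrt_le_sqrt hcase.le)) (hpos (b j))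
      refine (hgr' lam f hlam.le hf (b j)).trans ?_
      apply mul_le_mul_of_nonneg_right _ (hpos (b j) _ (by positivity)).le
      apply Real.exp_le_exp.2
      apply mul_le_mul_of_nonneg_left _ hCg'.le
      have := Real.sqrt_le_sqrt hcase.le
      linarith
    have hsum : ∑ j, dbl f (b j) (C / √lam) ^ 2 ≤ Fintype.card κ * (Cg' * (1 + √Λ) / Real.log 2) ^ 2 := by
      refine (Finset.sum_le_card_nsmul _ _ _ fun j _ => pow_le_pow_left₀
        (dbl_nonneg hb (by positivity) hpos) (hd j) 2).trans ?_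
      rw [nsmul_eq_mul, Finset.card_univ]
    rw [div_le_iff₀ hcardp]
    refine hsum.trans ?_
    rw [mul_comm]
    apply mul_le_mul_of_nonneg_right _ hcardp.le
    have h6 : 0 ≤ (Cg' * (1 + √Λ) / Real.log 2) ^ 2 := by positivity
    have h7 : 0 ≤ C₂ * ∑ a, A a := by positivity
    calc (Cg' * (1 + √Λ) / Real.log 2) ^ 2 ≤
        (C₂ * (∑ a, A a) + (Cg' * (1 + √Λ) / Real.log 2) ^ 2 + 1) * 1 := by linarith
      _ ≤ _ := mul_le_mul_of_nonneg_left hrp (by linarith)

end Pool.Agent.Q73.AD
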