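import Pool.Agent.Q73.AD.TO1
import Pool.Agent.Q73.AD.StmL

/-!
# O1L: the one step lemma by compactness, with squares (adapted from TO1, helper24, by helper211)
-/

set_option autoImplicit false
open MeasureTheory Filter Topology Complex Metric
open scoped ContDiff ComplexConjugate

namespace Pool.Agent.Q73.AD

open Pool.Agent.Q73.NL

/-- the limit part of the one step lemma, with squares -/
theorem coreL (hB2 : B2.{0}) (hC4 : C4) (hC5 : C5) {K CP : ℝ} (hK : 8 ≤ K)
    (hP : ∀ (M : ℕ) (w : ℂ → ℝ) (s t : Fin M × Fin M → ℝ),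
      CP ≤ M → Measurable w → (∀ x, 0 ≤ w x ∧ w x ≤ 1) →
      (∀ (x : ℂ) (r : ℝ), x ∈ ball (0 : ℂ) 3 → 0 < r → r ≤ 1 →
        w x * (Real.pi * r ^ 2) ≤ ∫ y in ball x r, w y) →
      (∀ a, ∃ x ∈ closedBall (cen M a) (K / M), s a ≤ w x) →
      (∀ a, ∀ x ∈ ball (cen M a) (1 / M), w x ≤ t a) →
      ∑ a, (max (s a - t a) 0) ^ 2 ≤ CP)
    {M : ℕ} (hM : CP ≤ M) (hM2 : 2 ≤ M) {𝒰 : Ultrafilter ℕ} {N : ℕ → ℝ} {ψ : ℕ → ℂ → ℝ} {W : Set ℂ → ℝ}
    {w : ℂ → ℝ} (hL : LimProp 𝒰 N ψ (ball (0 : ℂ) K) W) (hw : Env (ball (0 : ℂ) K) W w)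
    (hNC : NC (ball (0 : ℂ) K) w) (hW1 : Real.exp (-1) ≤ W (closedBall 0 1)) :
    (∀ a, 0 < W (closedBall (cen M a) (1 / M))) ∧
    (∀ a, 0 < W (closedBall (cen M a) (K / M))) ∧
    ∑ a, (Real.log (W (closedBall (cen M a) (K / M))) -
      Real.log (W (closedBall (cen M a) (1 / M)))) ^ 2 ≤
      ((4 * Real.log (2 * K * M) + 1) * Real.exp 1) ^ 2 * CP := by
  classical
  set D : Set ℂ := ball (0 : ℂ) K with hD
  have hDo : IsOpen D := isOpen_ball
  obtain ⟨hw01, husc, hopen, -, hcomp⟩ := (hB2 ℂ 𝒰 N ψ D W hDo hL).2 w hw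
  have hMr : (2 : ℝ) ≤ M := by exact_mod_cast hM2
  have hM0 : (0 : ℝ) < M := by linarith
  have hK0 : 0 < K := by linarith
  -- sizes
  have hKM1 : 1 < K * M := by nlinarith
  have hlKM : 0 < Real.log (K * M) := Real.log_pos hKM1
  have hl2 : Real.log (K * M) ≤ Real.log (2 * K * M) := by
    refine Real.log_le_log (by linarith) ?_
    nlinarith
  set T : ℝ := 4 * Real.log (2 * K * M) + 1 with hT
  have hT0 : 0 < T := by rw [hT]; linarith
  have hT1 : 1 < T := by rw [hT]; linarith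
  have hsub : ∀ (a : Fin M × Fin M) (r : ℝ), r ≤ K / 2 → closedBall (cen M a) r ⊆ D := by
    intro a r hr
    rw [hD]
    intro x hx
    rw [mem_closedBall, dist_eq_norm] at hx
    rw [mem_ball, dist_zero_right]
    calc ‖x‖ = ‖(x - cen M a) + cen M a‖ := by rw [sub_add_cancel]
      _ ≤ ‖x - cen M a‖ + ‖cen M a‖ := norm_add_le _ _
      _ < K := by linarith [cen_norm_le a]
  have hKMle : K / M ≤ K / 2 := div_le_div_of_nonneg_left hK0.le (by norm_num) hMr
  have h1Mle : (1 : ℝ) / M ≤ K / 2 := by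
    calc (1 : ℝ) / M ≤ K / M := div_le_div_of_nonneg_right (by linarith) hM0.le
      _ ≤ _ := hKMle
  have h1sub : closedBall (0 : ℂ) 1 ⊆ D := closedBall_subset_ball (by linarith)
  -- the point where `w` is large
  obtain ⟨x₁, hx₁, hwx₁⟩ := hcomp _ h1sub (isCompact_closedBall _ _) ((Real.exp_pos _).trans_le hW1)
  have hwx₁' : Real.exp (-1) ≤ w x₁ := hW1.trans hwx₁
  rw [mem_closedBall, dist_zero_right] at hx₁
  -- the claim
  have hclaim : ∀ a : Fin M × Fin M, ∃ y ∈ closedBall (cen M a) (1 / (2 * M)), Real.exp (-T) < w y := by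
    intro a
    by_contra hcon
    push Not at hcon
    set p := cen M a with hp
    have hp2 : ‖p‖ ≤ 2 := cen_norm_le a
    have hd : ‖x₁ - p‖ ≤ 3 := (norm_sub_le _ _).trans (by linarith)
    have hr0 : (0 : ℝ) < 1 / (2 * M) := by positivity
    have hrR : (1 : ℝ) / (2 * M) < K / 2 := by
      have : (1 : ℝ) / (2 * M) ≤ 1 / M := by
        apply one_div_le_one_div_of_le hM0
        linarith
      have h3 : (1 : ℝ) / M ≤ 1 / 2 := one_div_le_one_div_of_le (by norm_num) hMr
      linarith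
    have h4 := hC4 D w p (1 / (2 * M)) (K / 2) T hDo (fun x hx => (hw01 x hx).1) husc hNC hr0 hrR
      (hsub a _ le_rfl) hT0.le (fun x hx => (hw01 x (hsub a _ le_rfl hx)).2) hcon
    have hx₁in : x₁ ∈ closedBall p (K / 2) := by
      rw [mem_closedBall, dist_eq_norm]; linarith
    rcases lt_or_ge ‖x₁ - p‖ (1 / (2 * M)) with hlt | hge
    · have h5 := hcon x₁ (by rw [mem_closedBall, dist_eq_norm]; exact hlt.le)
      have h6 : Real.exp (-T) < Real.exp (-1) := Real.exp_lt_exp.2 (by linarith)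
      linarith
    · have h5 := h4 x₁ hx₁in hge
      have h6 : K / 2 / (1 / (2 * M)) = K * M := by field_simp
      rw [h6] at h5
      set α : ℝ := T / Real.log (K * M) with hα
      have hα4 : 4 < α := by
        rw [hα, lt_div_iff₀ hlKM, hT]
        linarith
      have h7 : ‖x₁ - p‖ / (K / 2) ≤ Real.exp (-(1 / 4)) := by
        have h8 : ‖x₁ - p‖ / (K / 2) ≤ 3 / 4 := by
          rw [div_le_iff₀ (by positivity)]
          linarith
        have h9 := Real.add_one_le_exp (-(1 / 4 : ℝ))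
        linarith
      have h8 : (‖x₁ - p‖ / (K / 2)) ^ α ≤ Real.exp (-(1 / 4)) ^ α :=
        Real.rpow_le_rpow (by positivity) h7 (by linarith)
      rw [← Real.exp_mul] at h8
      have h9 : Real.exp (-(1 / 4) * α) < Real.exp (-1) := Real.exp_lt_exp.2 (by linarith)
      linarith
  -- lower bounds for `W`
  have hsmall : ∀ a : Fin M × Fin M, Real.exp (-T) < W (closedBall (cen M a) (1 / M)) := by
    intro a
    obtain ⟨y, hy, hwy⟩ := hclaim a
    refine hwy.trans_le ?_
    have hb : ball y (1 / (2 * M)) ⊆ closedBall (cen M a) (1 / M) := by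
      refine (ball_subset_ball' (ε₂ := 1 / M) ?_).trans ball_subset_closedBall
      rw [mem_closedBall] at hy
      have : (1 : ℝ) / (2 * M) + 1 / (2 * M) = 1 / M := by field_simp; norm_num
      linarith
    have hyD : y ∈ D := hsub a _ h1Mle (hb (mem_ball_self (by positivity)))
    exact (hw.le y hyD _ (by positivity) (hb.trans (hsub a _ h1Mle))).trans (hL.mono _ _ hb (hsub a _ h1Mle))
  have hmono : ∀ a : Fin M × Fin M, W (closedBall (cen M a) (1 / M)) ≤ W (closedBall (cen M a) (K / M)) := fun a =>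
    hL.mono _ _ (closedBall_subset_closedBall (div_le_div_of_nonneg_right (by linarith) hM0.le)) (hsub a _ hKMle)
  have hpos1 : ∀ a : Fin M × Fin M, 0 < W (closedBall (cen M a) (1 / M)) := fun a => (Real.exp_pos _).trans (hsmall a)
  have hposK : ∀ a : Fin M × Fin M, 0 < W (closedBall (cen M a) (K / M)) := fun a => (hpos1 a).trans_le (hmono a)
  refine ⟨hpos1, hposK, ?_⟩
  -- the root
  have hT' : 0 < 1 / T := one_div_pos.2 hT0
  have hmean := hC5 D (om D w T) hDo (fun x _ => ⟨om_nonneg hw01 x, om_le hT0 hw01 x⟩) (om_usc hT0 hw01 husc)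
    (om_NC hT0 hw01 hNC)
  have hsum := hP M (om D w T) (fun a => W (closedBall (cen M a) (K / M)) ^ (1 / T))
    (fun a => W (closedBall (cen M a) (1 / M)) ^ (1 / T)) hM (om_meas hDo hT0 hw01 husc)
    (fun x => ⟨om_nonneg hw01 x, om_le hT0 hw01 x⟩) (fun x r hx hr hr1 => hmean x r hr (by
      rw [hD]
      intro y hy
      rw [mem_closedBall, dist_eq_norm] at hy
      rw [mem_ball, dist_zero_right] at hx ⊢
      calc ‖y‖ = ‖(y - x) + x‖ := by rw [sub_add_cancel]
        _ ≤ ‖y - x‖ + ‖x‖ := norm_add_le _ _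
        _ < K := by linarith))
    (fun a => by
      obtain ⟨y, hy, hwy⟩ := hcomp _ (hsub a _ hKMle) (isCompact_closedBall _ _) (hposK a)
      refine ⟨y, hy, ?_⟩
      rw [om_mem (hsub a _ hKMle hy)]
      exact Real.rpow_le_rpow (hposK a).le hwy hT'.le)
    (fun a x hx => by
      have hxD : x ∈ D := hsub a _ h1Mle (ball_subset_closedBall hx)
      rw [om_mem hxD]
      refine Real.rpow_le_rpow (hw01 x hxD).1 ?_ hT'.le
      exact (hopen _ (ball_subset_closedBall.trans (hsub a _ h1Mle)) isOpen_ball x hx).trans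
        (hL.mono _ _ ball_subset_closedBall (hsub a _ h1Mle)))
  -- the logarithms
  have hterm : ∀ a : Fin M × Fin M, Real.log (W (closedBall (cen M a) (K / M))) -
      Real.log (W (closedBall (cen M a) (1 / M))) ≤ T * Real.exp 1 *
        (W (closedBall (cen M a) (K / M)) ^ (1 / T) - W (closedBall (cen M a) (1 / M)) ^ (1 / T)) := by
    intro a
    set A := W (closedBall (cen M a) (K / M)) with hA
    set B := W (closedBall (cen M a) (1 / M)) with hB
    have hA0 : 0 < A := hposK a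
    have hB0 : 0 < B := hpos1 a
    set s := A ^ (1 / T) with hs
    set t := B ^ (1 / T) with ht
    have hs0 : 0 < s := Real.rpow_pos_of_pos hA0 _
    have ht0 : 0 < t := Real.rpow_pos_of_pos hB0 _
    have hst : t ≤ s := Real.rpow_le_rpow hB0.le (hmono a) hT'.le
    have ht1 : Real.exp (-1) ≤ t := by
      have h1 := Real.rpow_le_rpow (Real.exp_pos _).le (hsmall a).le hT'.le
      rw [← Real.exp_mul] at h1
      have h2 : -T * (1 / T) = -1 := by field_simp
      rwa [h2] at h1
    have hlA : Real.log A = T * Real.log s := by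
      rw [hs, Real.log_rpow hA0]; field_simp
    have hlB : Real.log B = T * Real.log t := by
      rw [ht, Real.log_rpow hB0]; field_simp
    rw [hlA, hlB, ← mul_sub, mul_assoc]
    refine mul_le_mul_of_nonneg_left ?_ hT0.le
    have h3 : Real.log s - Real.log t = Real.log (s / t) := (Real.log_div hs0.ne' ht0.ne').symm
    have h4 : Real.log (s / t) ≤ s / t - 1 := Real.log_le_sub_one_of_pos (by positivity)
    have h5 : s / t - 1 = (s - t) * (1 / t) := by field_simp
    have h6 : 1 / t ≤ Real.exp 1 := by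
      rw [div_le_iff₀ ht0]
      calc (1 : ℝ) = Real.exp 1 * Real.exp (-1) := by rw [← Real.exp_add]; norm_num
        _ ≤ _ := mul_le_mul_of_nonneg_left ht1 (Real.exp_pos _).le
    rw [h3]
    calc Real.log (s / t) ≤ (s - t) * (1 / t) := by rw [← h5]; exact h4
      _ ≤ (s - t) * Real.exp 1 := mul_le_mul_of_nonneg_left h6 (by linarith)
      _ = _ := mul_comm _ _
  have hterm2 : ∀ a : Fin M × Fin M, (Real.log (W (closedBall (cen M a) (K / M))) -
      Real.log (W (closedBall (cen M a) (1 / M)))) ^ 2 ≤ (T * Real.exp 1) ^ 2 *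
        (max (W (closedBall (cen M a) (K / M)) ^ (1 / T) -
          W (closedBall (cen M a) (1 / M)) ^ (1 / T)) 0) ^ 2 := by
    intro a
    have h1 : 0 ≤ Real.log (W (closedBall (cen M a) (K / M))) -
        Real.log (W (closedBall (cen M a) (1 / M))) := by
      have := Real.log_le_log (hpos1 a) (hmono a)
      linarith
    rw [← mul_pow]
    refine pow_le_pow_left₀ h1 ((hterm a).trans ?_) 2
    exact mul_le_mul_of_nonneg_left (le_max_left _ _) (by positivity)
  calc _ ≤ ∑ a : Fin M × Fin M, (T * Real.exp 1) ^ 2 *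
        (max (W (closedBall (cen M a) (K / M)) ^ (1 / T) -
          W (closedBall (cen M a) (1 / M)) ^ (1 / T)) 0) ^ 2 :=
        Finset.sum_le_sum fun a _ => hterm2 a
    _ = (T * Real.exp 1) ^ 2 * ∑ a : Fin M × Fin M,
        (max (W (closedBall (cen M a) (K / M)) ^ (1 / T) -
          W (closedBall (cen M a) (1 / M)) ^ (1 / T)) 0) ^ 2 :=
        (Finset.mul_sum _ _ _).symm
    _ ≤ (T * Real.exp 1) ^ 2 * CP := mul_le_mul_of_nonneg_left hsum (by positivity)

/-- **the one step lemma**, with squares -/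
theorem to1L (hB1 : B1.{0}) (hB2 : B2.{0}) (hC1 : C1) (hC2 : C2) (hC4 : C4) (hC5 : C5)
    (hP2 : P2L) : O1L := by
  intro K hK
  obtain ⟨CP, hCP, hP⟩ := hP2 K hK
  have hK0 : 0 < K := by linarith
  have hl2K : 0 < Real.log (2 * K) := Real.log_pos (by linarith)
  refine ⟨9 * CP * (4 * Real.log (2 * K) + 5) ^ 2 + CP + 2, by positivity, fun M hM => ?_⟩
  set C : ℝ := 9 * CP * (4 * Real.log (2 * K) + 5) ^ 2 + CP + 2 with hC
  have hCP' : 0 < 9 * CP * (4 * Real.log (2 * K) + 5) ^ 2 := by positivity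
  have hM2r : (2 : ℝ) ≤ M := by linarith
  have hM2 : 2 ≤ M := by exact_mod_cast hM2r
  have hM0 : (0 : ℝ) < M := by linarith
  have hCPM : CP ≤ M := by linarith
  have hlM : 0 ≤ Real.log M := Real.log_nonneg (by linarith)
  have hKMle : K / M ≤ K / 2 := div_le_div_of_nonneg_left hK0.le (by norm_num) hM2r
  have h1MK : (1 : ℝ) / M ≤ K / M := div_le_div_of_nonneg_right (by linarith) hM0.le
  have h1Mle : (1 : ℝ) / M ≤ K / 2 := h1MK.trans hKMle
  by_contra hcon
  push Not at hcon
  have hex := fun j : ℕ => hcon ((j : ℝ) + 1) (by positivity)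
  choose κ N q φ hκ hN heq hsn hn using hex
  have hκ0 : ∀ j, 0 < κ j := fun j => by linarith [hκ j]
  have hN0 : ∀ j, 0 < N j := fun j => by
    have h1 := hN j
    have h2 : 0 < ((j : ℝ) + 1) * κ j := mul_pos (by positivity) (hκ0 j)
    linarith
  set D : Set ℂ := ball (0 : ℂ) K with hD
  have hDK : D ⊆ closedBall 0 K := ball_subset_closedBall
  have h1sub : closedBall (0 : ℂ) 1 ⊆ D := closedBall_subset_ball (by linarith)
  -- boundedness
  have hbd : ∀ j, ∃ B : ℝ, ∀ x ∈ closedBall (0 : ℂ) K, |φ j x| ≤ B := fun j => by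
    have h1 : ContinuousOn (φ j) (closedBall (0 : ℂ) K) := fun x hx =>
      (heq j x hx).1.continuousAt.continuousWithinAt
    obtain ⟨B, hB⟩ := (isCompact_closedBall (0 : ℂ) K).exists_bound_of_continuousOn h1
    exact ⟨B, fun x hx => hB x hx⟩
  set S : ℕ → ℝ := fun j => sn (φ j) (closedBall 0 K) with hS
  have hφS : ∀ j, ∀ x ∈ closedBall (0 : ℂ) K, |φ j x| ≤ S j := fun j x hx => by
    obtain ⟨B, hB⟩ := hbd j
    exact le_sn2 hB hx
  have hS0 : ∀ j, 0 < S j := fun j => by
    by_contra hneg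
    rw [not_lt] at hneg
    have h1 : ∀ x ∈ closedBall (0 : ℂ) K, |φ j x| ≤ 0 := fun x hx => (hφS j x hx).trans hneg
    have h2 := hn j (fun _ => 0) fun a => ⟨le_rfl, by
      rw [Real.exp_zero, one_mul]
      refine (sn_le2 le_rfl fun x hx => h1 x (hDK (cen_sub hK a hKMle hx))).trans (sn_nonneg2 _ _)⟩
    have h20 : ∑ a : Fin M × Fin M, ((fun _ => (0 : ℝ)) a) ^ 2 = 0 := by simp
    rw [h20] at h2
    have h3 : 0 ≤ C * (1 + Real.log M) ^ 2 * N j ^ 2 := by
      have := (hN0 j).le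
      have hC0 : 0 < C := by linarith
      positivity
    linarith
  set ψ : ℕ → ℂ → ℝ := fun j x => (S j)⁻¹ * φ j x with hψ
  have hψ1 : ∀ j, ∀ x ∈ closedBall (0 : ℂ) K, |ψ j x| ≤ 1 := fun j x hx => by
    simp only [hψ]
    rw [abs_mul, abs_of_pos (inv_pos.2 (hS0 j)), inv_mul_le_iff₀ (hS0 j), mul_one]
    exact hφS j x hx
  have hsnψ : ∀ j (E : Set ℂ), sn (ψ j) E = (S j)⁻¹ * sn (φ j) E := fun j E =>
    sn_const_mul' (inv_pos.2 (hS0 j)).le (φ j) E
  -- the sequence
  have hseq : Seq D N κ q ψ := by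
    refine ⟨hκ, ?_, fun j z hz => ?_, fun j z hz => ?_, fun j z hz => ?_, fun j z hz => ?_, fun j z hz => ?_,
      fun j z hz => hψ1 j z (hDK hz)⟩
    · refine tendsto_atTop_mono (fun j => ?_) (tendsto_natCast_atTop_atTop (R := ℝ))
      rw [le_div_iff₀ (hκ0 j)]
      refine le_trans ?_ (hN j)
      exact mul_le_mul_of_nonneg_right (by linarith) (hκ0 j).le
    · exact (contDiffAt_const.mul (heq j z (hDK hz)).1).contDiffWithinAt
    · exact (heq j z (hDK hz)).2.1.contDiffWithinAt
    · exact (heq j z (hDK hz)).2.2.1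
    · exact (heq j z (hDK hz)).2.2.2.1
    · have h1 := (heq j z (hDK hz)).2.2.2.2
      simp only [hψ]
      rw [lap_const_mul']
      calc _ = (S j)⁻¹ * (lap (φ j) z + q j z * φ j z) := by ring
        _ = 0 := by rw [h1, mul_zero]
  -- the limit
  set 𝒰 : Ultrafilter ℕ := Filter.hyperfilter ℕ with h𝒰
  have h𝒰le : (𝒰 : Filter ℕ) ≤ atTop := Nat.hyperfilter_le_atTop
  obtain ⟨⟨W, hW⟩, hLP⟩ := hB1 ℂ 𝒰 N ψ D hN0 (fun j x hx => hψ1 j x (hDK hx))
  have hL := hLP W hW
  obtain ⟨⟨w, hw⟩, hprops⟩ := hB2 ℂ 𝒰 N ψ D W isOpen_ball hL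
  obtain ⟨hw01, husc, -⟩ := hprops w hw
  have hNC : NC D w := hC2 D w isOpen_ball (fun x hx => (hw01 x hx).1) husc
    (hC1 𝒰 D N κ q ψ W w h𝒰le isOpen_ball hseq hL hw)
  have hW1 : Real.exp (-1) ≤ W (closedBall 0 1) := by
    refine ge_of_tendsto' (hW _ h1sub) fun j => ?_
    have h1 : Real.exp (-N j) ≤ sn (ψ j) (closedBall 0 1) := by
      rw [hsnψ, Real.exp_neg, ← one_div, ← one_div, one_div_mul_eq_div, div_le_div_iff₀ (Real.exp_pos _) (hS0 j), one_mul,
        mul_comm]
      exact hsn j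
    have h2 := Real.rpow_le_rpow (Real.exp_pos _).le h1 (one_div_pos.2 (hN0 j)).le
    rw [← Real.exp_mul] at h2
    have h3 : -N j * (1 / N j) = -1 := by
      have := (hN0 j).ne'
      field_simp
    rwa [h3] at h2
  obtain ⟨hpos1, hposK, hsum⟩ := coreL hB2 hC4 hC5 hK hP hCPM hM2 hL hw hNC hW1
  -- the growth exponents
  set L : ℕ → Set ℂ → ℝ := fun j E => Real.log (sn (ψ j) E ^ (1 / N j)) with hLdef
  have hlim : Tendsto (fun j => ∑ a : Fin M × Fin M, (L j (closedBall (cen M a) (K / M)) -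
      L j (closedBall (cen M a) (1 / M))) ^ 2) 𝒰 (𝓝 (∑ a : Fin M × Fin M,
        (Real.log (W (closedBall (cen M a) (K / M))) -
          Real.log (W (closedBall (cen M a) (1 / M)))) ^ 2)) := by
    refine tendsto_finsetSum _ fun a _ => Tendsto.pow (Tendsto.sub ?_ ?_) 2
    · exact (hW _ (cen_sub hK a hKMle)).log (hposK a).ne'
    · exact (hW _ (cen_sub hK a h1Mle)).log (hpos1 a).ne'
  have hev : ∀ᶠ j in (𝒰 : Filter ℕ), ∀ a : Fin M × Fin M, 0 < sn (ψ j) (closedBall (cen M a) (1 / M)) := by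
    rw [Filter.eventually_all]
    intro a
    filter_upwards [(hW _ (cen_sub hK a h1Mle)).eventually_const_lt (hpos1 a)] with j hj
    refine lt_of_le_of_ne (sn_nonneg2 _ _) fun h0 => ?_
    rw [← h0, Real.zero_rpow (one_div_pos.2 (hN0 j)).ne'] at hj
    exact lt_irrefl _ hj
  have hev2 : ∀ᶠ j in (𝒰 : Filter ℕ), C * (1 + Real.log M) ^ 2 ≤ ∑ a : Fin M × Fin M,
      (L j (closedBall (cen M a) (K / M)) - L j (closedBall (cen M a) (1 / M))) ^ 2 := by
    filter_upwards [hev] with j hj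
    have hmono : ∀ a : Fin M × Fin M, sn (ψ j) (closedBall (cen M a) (1 / M)) ≤
        sn (ψ j) (closedBall (cen M a) (K / M)) := fun a =>
      sn_le2 (sn_nonneg2 _ _) fun x hx => le_sn2
        (fun y hy => hψ1 j y (hDK (cen_sub hK a hKMle hy))) (closedBall_subset_closedBall h1MK hx)
    have hposj : ∀ a : Fin M × Fin M, 0 < sn (ψ j) (closedBall (cen M a) (K / M)) := fun a =>
      (hj a).trans_le (hmono a)
    have h1 := hn j (fun a => Real.log (sn (ψ j) (closedBall (cen M a) (K / M))) -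
      Real.log (sn (ψ j) (closedBall (cen M a) (1 / M)))) fun a => ⟨by
        have := Real.log_le_log (hj a) (hmono a)
        linarith, by
        rw [Real.exp_sub, Real.exp_log (hposj a), Real.exp_log (hj a), hsnψ, hsnψ]
        have h2 : sn (φ j) (closedBall (cen M a) (1 / M)) ≠ 0 := by
          intro h0
          have := hj a
          rw [hsnψ, h0, mul_zero] at this
          exact lt_irrefl _ this
        have h3 := (hS0 j).ne'
        refine le_of_eq ?_
        field_simp⟩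
    have h2 : ∑ a : Fin M × Fin M, ((fun a => Real.log (sn (ψ j) (closedBall (cen M a) (K / M))) -
        Real.log (sn (ψ j) (closedBall (cen M a) (1 / M)))) a) ^ 2 =
        N j ^ 2 * ∑ a : Fin M × Fin M,
        (L j (closedBall (cen M a) (K / M)) - L j (closedBall (cen M a) (1 / M))) ^ 2 := by
      rw [Finset.mul_sum]
      refine Finset.sum_congr rfl fun a _ => ?_
      rw [← mul_pow]
      congr 1
      simp only [hLdef]
      rw [Real.log_rpow (hposj a), Real.log_rpow (hj a)]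
      have := (hN0 j).ne'
      field_simp
    rw [h2] at h1
    have h3 : N j ^ 2 * (C * (1 + Real.log M) ^ 2) < N j ^ 2 * ∑ a : Fin M × Fin M,
        (L j (closedBall (cen M a) (K / M)) - L j (closedBall (cen M a) (1 / M))) ^ 2 := by
      calc _ = C * (1 + Real.log M) ^ 2 * N j ^ 2 := by ring
        _ < _ := h1
    exact (lt_of_mul_lt_mul_left h3 (pow_pos (hN0 j) 2).le).le
  have hfin := ge_of_tendsto hlim hev2
  have hfin2 := hfin.trans hsum
  -- comparison of the constants
  have e1 : Real.log (2 * K * M) = Real.log (2 * K) + Real.log M :=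
    Real.log_mul (by positivity) hM0.ne'
  have h1 : 4 * Real.log (2 * K * M) + 1 ≤ (4 * Real.log (2 * K) + 5) * (1 + Real.log M) := by
    rw [e1]
    nlinarith [mul_nonneg hl2K.le hlM]
  have h2 : Real.exp 1 ≤ 3 := by
    have := Real.exp_one_lt_d9
    linarith
  have h3 : (4 * Real.log (2 * K * M) + 1) * Real.exp 1 ≤
      ((4 * Real.log (2 * K) + 5) * (1 + Real.log M)) * 3 :=
    mul_le_mul h1 h2 (Real.exp_pos _).le (by positivity)
  have hl3 : 0 ≤ Real.log (2 * K * M) := by
    rw [e1]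
    linarith
  have h3' : ((4 * Real.log (2 * K * M) + 1) * Real.exp 1) ^ 2 * CP ≤
      (((4 * Real.log (2 * K) + 5) * (1 + Real.log M)) * 3) ^ 2 * CP := by
    refine mul_le_mul_of_nonneg_right (pow_le_pow_left₀ ?_ h3 2) hCP.le
    have := (Real.exp_pos 1).le
    positivity
  have h4 : (((4 * Real.log (2 * K) + 5) * (1 + Real.log M)) * 3) ^ 2 * CP <
      C * (1 + Real.log M) ^ 2 := by
    have h5 : 0 < (CP + 2) * (1 + Real.log M) ^ 2 := by positivity
    have h6 : C * (1 + Real.log M) ^ 2 =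
        (((4 * Real.log (2 * K) + 5) * (1 + Real.log M)) * 3) ^ 2 * CP +
        (CP + 2) * (1 + Real.log M) ^ 2 := by
      rw [hC]; ring
    linarith
  linarith

end Pool.Agent.Q73.AD
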