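import Pool.Agent.Q73.AD.TO2
import Pool.Agent.Q73.AD.StmL

/-!
# O2L: the one step lemma, scaled (adapted from TO2, helper24, by helper211)
-/

set_option autoImplicit false
open MeasureTheory Filter Topology Complex Metric
open scoped ContDiff ComplexConjugate

namespace Pool.Agent.Q73.AD

open Pool.Agent.Q73.NL

theorem to2L (hO1 : O1L) : O2L := by
  intro K hK
  obtain ⟨C, hC, h1⟩ := hO1 K hK
  refine ⟨C, hC, fun M hM L hL => ?_⟩
  obtain ⟨T, hT, h2⟩ := h1 M hM
  have hL0 : 0 < L := by linarith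
  have hsL : 0 < Real.sqrt L := Real.sqrt_pos.2 hL0
  refine ⟨T * Real.sqrt L, by positivity, fun lam h N p ρ φ hlam hh hh1 hN heq hsn => ?_⟩
  set κ : ℝ := Real.sqrt (1 + lam * h ^ 2 * L) with hκ
  have hκ2 : κ ^ 2 = 1 + lam * h ^ 2 * L := Real.sq_sqrt (by positivity)
  have hκ1 : 1 ≤ κ := by
    rw [hκ]
    refine Real.one_le_sqrt.2 ?_
    have : 0 ≤ lam * h ^ 2 * L := by positivity
    linarith
  have hκle : κ ≤ Real.sqrt L * (1 + Real.sqrt lam * h) := by
    rw [hκ]
    refine Real.sqrt_le_iff.2 ⟨by positivity, ?_⟩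
    rw [mul_pow, Real.sq_sqrt hL0.le]
    have e : (1 + Real.sqrt lam * h) ^ 2 = 1 + 2 * (Real.sqrt lam * h) + lam * h ^ 2 := by
      have := Real.sq_sqrt hlam
      calc _ = 1 + 2 * (Real.sqrt lam * h) + (Real.sqrt lam) ^ 2 * h ^ 2 := by ring
        _ = _ := by rw [this]
    rw [e]
    have h3 : 0 ≤ L * (2 * (Real.sqrt lam * h)) := by positivity
    nlinarith
  have hmem : ∀ y ∈ closedBall (0 : ℂ) K, p + h * y ∈ closedBall p (K * h) := by
    intro y hy
    have := (mem_aff (p := p) hh).2 hy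
    rwa [mul_zero, add_zero, mul_comm h K] at this
  have haff : ∀ (n : WithTop ℕ∞) (f : ℂ → ℝ) (y : ℂ), ContDiffAt ℝ n f (p + h * y) →
      ContDiffAt ℝ n (fun y : ℂ => f (p + h * y)) y := by
    intro n f y hf
    exact hf.comp y (by fun_prop)
  obtain ⟨n, hn, hsum⟩ := h2 κ N (fun y => lam * h ^ 2 * ρ (p + h * y)) (fun y => φ (p + h * y)) hκ1 (by
      refine le_trans ?_ hN
      calc T * κ ≤ T * (Real.sqrt L * (1 + Real.sqrt lam * h)) := mul_le_mul_of_nonneg_left hκle hT.le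
        _ = _ := by ring) (fun y hy => by
      obtain ⟨a1, a2, a3, a4, a5⟩ := heq _ (hmem y hy)
      have hlh : 0 ≤ lam * h ^ 2 := by positivity
      refine ⟨haff _ _ _ a1, contDiffAt_const.mul (haff _ _ _ a2), ?_, ?_, ?_⟩
      · rw [abs_mul, abs_of_nonneg hlh, hκ2]
        have := mul_le_mul_of_nonneg_left a3 hlh
        linarith
      · have e : fderiv ℝ (fun y : ℂ => lam * h ^ 2 * ρ (p + h * y)) y =
            (lam * h ^ 2) • (h • fderiv ℝ ρ (p + h * y)) := by
          have e1 := fderiv_const_smul_field (𝕜 := ℝ) (f := fun y : ℂ => ρ (p + h * y)) (lam * h ^ 2)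
          have e2 := congrFun e1 y
          rw [← fderiv_aff]
          exact e2
        rw [e, norm_smul, norm_smul, Real.norm_eq_abs, Real.norm_eq_abs, abs_of_nonneg hlh, abs_of_pos hh, hκ2]
        have h5 : h * ‖fderiv ℝ ρ (p + h * y)‖ ≤ 1 * L :=
          mul_le_mul hh1 a4 (norm_nonneg _) zero_le_one
        have h6 := mul_le_mul_of_nonneg_left h5 hlh
        linarith
      · rw [lap_aff]
        calc _ = h ^ 2 * (lap φ (p + h * y) + lam * ρ (p + h * y) * φ (p + h * y)) := by ring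
          _ = 0 := by rw [a5, mul_zero]) (by
      rw [sn_aff φ hh, sn_aff φ hh, mul_zero, add_zero, mul_one, mul_comm h K]
      exact hsn)
  refine ⟨n, fun a => ⟨(hn a).1, ?_⟩, hsum⟩
  have h3 := (hn a).2
  rw [sn_aff φ hh, sn_aff φ hh] at h3
  have e1 : h * (K / M) = K * (h / M) := by ring
  have e2 : h * (1 / (M : ℝ)) = h / M := by ring
  rwa [e1, e2] at h3

end Pool.Agent.Q73.AD
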