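import Pool.Agent.Q73.AD.Stm

/-! # Project AD of helper73: iteration over the scales (JOB AD-17) -/

set_option autoImplicit false
open MeasureTheory Filter Topology Complex Metric
open scoped ContDiff

namespace Pool.Agent.Q73.AD

open Pool.Agent.Q73.NL

/-- pairs of digits -/
def digE (M J : ℕ) : (Fin (M ^ J) × Fin M) ≃ Fin (M ^ (J + 1)) :=
  finProdFinEquiv.trans (finCongr (pow_succ M J).symm)

lemma digE_val (M J : ℕ) (x : Fin (M ^ J) × Fin M) : ((digE M J x : Fin (M ^ (J + 1))) : ℕ) = x.2 + M * x.1 := rfl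

lemma cen_dig (M J : ℕ) (hM : 0 < M) (b : Fin (M ^ J) × Fin (M ^ J)) (c : Fin M × Fin M) :
    cen (M ^ (J + 1)) (digE M J (b.1, c.1), digE M J (b.2, c.2)) =
      cen (M ^ J) b + ((1 / (M : ℝ) ^ J : ℝ) : ℂ) * cen M c := by
  have hM' : (M : ℝ) ≠ 0 := by positivity
  unfold cen
  apply Complex.ext
  · rw [Complex.add_re, Complex.re_ofReal_mul]
    simp only [digE_val]
    push_cast
    field_simp
    ring
  · rw [Complex.add_im, Complex.im_ofReal_mul]
    simp only [digE_val]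
    push_cast
    field_simp
    ring

lemma cen_norm (M : ℕ) (hM : 0 < M) (a : Fin M × Fin M) : ‖cen M a‖ ≤ 2 * (1 - 1 / (M : ℝ)) := by
  have hM' : (0 : ℝ) < M := by exact_mod_cast hM
  have key : ∀ x : Fin M, |(-1 + (2 * (x : ℝ) + 1) / M)| ≤ 1 - 1 / (M : ℝ) := by
    intro x
    have h1 : (x : ℝ) + 1 ≤ M := by exact_mod_cast x.2
    have h2 : (0 : ℝ) ≤ x := by positivity
    rw [abs_le]
    constructor
    · have : (1 : ℝ) / M ≤ (2 * (x : ℝ) + 1) / M := by gcongr; linarith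
      linarith
    · have : (2 * (x : ℝ) + 1) / M ≤ (2 * M - 1) / M := by gcongr; linarith
      have e : (2 * (M : ℝ) - 1) / M = 2 - 1 / M := by field_simp
      rw [e] at this
      linarith
  refine (Complex.norm_le_abs_re_add_abs_im _).trans ?_
  have h1 := key a.1
  have h2 := key a.2
  unfold cen
  simp only
  linarith

lemma choose_M (C ε : ℝ) (hε : 0 < ε) : ∃ M : ℕ, 2 ≤ M ∧ C ≤ M ∧
    max 2 (C * (1 + Real.log M)) ≤ (M : ℝ) ^ ε ∧ 2 * max 2 (C * (1 + Real.log M)) ≤ M := by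
  have h1 : ∀ δ : ℝ, 0 < δ → ∀ A : ℝ, ∀ᶠ x : ℝ in atTop, A * (1 + Real.log x) ≤ x ^ δ := by
    intro δ hδ A
    have h2 : (fun x : ℝ => A * (1 + Real.log x)) =o[atTop] fun x => x ^ δ := by
      apply Asymptotics.IsLittleO.const_mul_left
      apply Asymptotics.IsLittleO.add
      · exact Asymptotics.isLittleO_const_left.2 (Or.inr (by
          refine tendsto_norm_atTop_atTop.comp (tendsto_rpow_atTop hδ)))
      · exact isLittleO_log_rpow_atTop hδ
    filter_upwards [h2.bound one_pos, eventually_ge_atTop (0 : ℝ)] with x hx hx0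
    rw [one_mul, Real.norm_of_nonneg (Real.rpow_nonneg hx0 δ)] at hx
    exact (Real.le_norm_self _).trans hx
  have h2 : ∀ δ : ℝ, 0 < δ → ∀ A : ℝ, ∀ᶠ x : ℝ in atTop, A ≤ x ^ δ := fun δ hδ A =>
    (tendsto_rpow_atTop hδ).eventually_ge_atTop A
  have h3 : ∀ᶠ x : ℝ in atTop, C ≤ x ∧ 2 ≤ x ^ ε ∧ C * (1 + Real.log x) ≤ x ^ ε ∧ 4 ≤ x ∧
      (2 * C) * (1 + Real.log x) ≤ x ^ (1 : ℝ) := by
    filter_upwards [eventually_ge_atTop C, h2 ε hε 2, h1 ε hε C, eventually_ge_atTop (4 : ℝ),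
      h1 1 one_pos (2 * C)] with x a b c d e
    exact ⟨a, b, c, d, e⟩
  have h4 := tendsto_natCast_atTop_atTop.eventually h3
  obtain ⟨M, hM⟩ := h4.exists
  obtain ⟨a, b, c, d, e⟩ := hM
  rw [Real.rpow_one] at e
  refine ⟨M, ?_, a, max_le b c, ?_⟩
  · have : (2 : ℝ) ≤ M := by linarith
    exact_mod_cast this
  · rw [mul_max_of_nonneg _ _ (by norm_num : (0 : ℝ) ≤ 2)]
    refine max_le (by linarith) ?_
    rw [← mul_assoc]
    exact e

lemma fin_bd (T n₀ s P B Q : ℝ) (hT : 0 < T) (hn₀ : 0 ≤ n₀) (hs0 : 0 ≤ s) (hP : 0 < P) (hB0 : 0 ≤ B)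
    (hB : B ≤ Q) : P * (B * n₀ + 2 * T * s * (B - 1) + 2 * T * P) ≤
      (2 * T + 2) * (P * Q * (n₀ + s) + P ^ 2) := by
  have h3 : B * n₀ + 2 * T * s * (B - 1) + 2 * T * P ≤ (2 * T + 2) * (Q * (n₀ + s) + P) := by
    have a1 : B * n₀ ≤ Q * n₀ := mul_le_mul_of_nonneg_right hB hn₀
    have a2 : B * s ≤ Q * s := mul_le_mul_of_nonneg_right hB hs0
    have a3 : 0 ≤ Q * n₀ := mul_nonneg (hB0.trans hB) hn₀
    have a4 : 0 ≤ Q * s := mul_nonneg (hB0.trans hB) hs0
    nlinarith [mul_nonneg hT.le a3, mul_nonneg hT.le a4, mul_nonneg hT.le hs0,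
      mul_le_mul_of_nonneg_left a2 hT.le]
  calc P * (B * n₀ + 2 * T * s * (B - 1) + 2 * T * P) ≤ P * ((2 * T + 2) * (Q * (n₀ + s) + P)) := by
        gcongr
    _ = (2 * T + 2) * (P * Q * (n₀ + s) + P ^ 2) := by ring

/-- JOB AD-17 -/
theorem to3 (h2 : O2) : O3 := by
  intro K ε hK hε
  obtain ⟨C₂, hC₂, hO⟩ := h2 K hK
  obtain ⟨M, hM2, hCM, hβ1, hβ2⟩ := choose_M C₂ ε hε
  obtain ⟨β, hβ⟩ : ∃ β, β = max 2 (C₂ * (1 + Real.log M)) := ⟨_, rfl⟩
  rw [← hβ] at hβ1 hβ2
  have hβ0 : 2 ≤ β := by rw [hβ]; exact le_max_left _ _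
  have hβC : C₂ * (1 + Real.log M) ≤ β := by rw [hβ]; exact le_max_right _ _
  have hM0 : 0 < M := by omega
  have hMr : (0 : ℝ) < M := by exact_mod_cast hM0
  refine ⟨M, hM2, fun L hL => ?_⟩
  obtain ⟨T, hT, hstep⟩ := hO M hCM L hL
  refine ⟨2 * T + 2, by linarith, ?_⟩
  intro lam h n₀ p ρ φ hlam hh hh1 hn₀ heq hd
  obtain ⟨s, hs⟩ : ∃ s, s = Real.sqrt lam * h := ⟨_, rfl⟩
  have hs0 : 0 ≤ s := by rw [hs]; positivity
  have main : ∀ J : ℕ, ∃ n : Fin (M ^ J) × Fin (M ^ J) → ℝ, (∀ a, 0 ≤ n a ∧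
      sn φ (closedBall (p + h * cen (M ^ J) a) (K * (h / (M ^ J : ℕ)))) ≤
      Real.exp (n a) * sn φ (closedBall (p + h * cen (M ^ J) a) (h / (M ^ J : ℕ)))) ∧
      ∑ a, n a ≤ (M : ℝ) ^ J * (β ^ J * n₀ + 2 * T * s * (β ^ J - 1) + 2 * T * (M : ℝ) ^ J) := by
    intro J
    induction J with
    | zero =>
      refine ⟨fun _ => n₀, fun a => ⟨hn₀, ?_⟩, ?_⟩
      · have hc : cen (M ^ 0) a = 0 := by
          have h1 : ∀ x : Fin (M ^ 0), (x : ℕ) = 0 := fun x => by
            have h3 : (x : ℕ) < M ^ 0 := x.2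
            have h4 : M ^ 0 = 1 := pow_zero M
            omega
          unfold cen
          rw [h1, h1]
          apply Complex.ext <;> simp
        have h5 : h / ((M ^ 0 : ℕ) : ℝ) = h := by simp
        rw [hc, mul_zero, add_zero, h5]
        exact hd
      · rw [Finset.sum_const, Finset.card_univ, Fintype.card_prod, Fintype.card_fin, pow_zero,
          pow_zero, pow_zero]
        simp only [mul_one, one_smul, one_mul, sub_self, mul_zero, add_zero]
        linarith
    | succ J ih =>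
      obtain ⟨n, hn, hsum⟩ := ih
      have hMJ : (0 : ℝ) < (M : ℝ) ^ J := pow_pos hMr J
      have hMJ1 : (1 : ℝ) ≤ (M : ℝ) ^ J := one_le_pow₀ (by exact_mod_cast hM0)
      have hcast : ((M ^ J : ℕ) : ℝ) = (M : ℝ) ^ J := by push_cast; rfl
      have hhJ : 0 < h / (M : ℝ) ^ J := div_pos hh hMJ
      have hhJ1 : h / (M : ℝ) ^ J ≤ 1 := (div_le_self hh.le hMJ1).trans hh1
      have hdat : ∀ a : Fin (M ^ J) × Fin (M ^ J), ∃ m : Fin M × Fin M → ℝ, (∀ c, 0 ≤ m c ∧
          sn φ (closedBall ((p + h * cen (M ^ J) a) + (h / (M : ℝ) ^ J : ℝ) * cen M c)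
            (K * ((h / (M : ℝ) ^ J) / M))) ≤
          Real.exp (m c) * sn φ (closedBall ((p + h * cen (M ^ J) a) + (h / (M : ℝ) ^ J : ℝ) * cen M c)
            ((h / (M : ℝ) ^ J) / M))) ∧
          ∑ c, m c ≤ C₂ * (1 + Real.log M) * M *
            (n a + T * (1 + Real.sqrt lam * (h / (M : ℝ) ^ J))) := by
        intro a
        refine hstep lam (h / (M : ℝ) ^ J) (n a + T * (1 + Real.sqrt lam * (h / (M : ℝ) ^ J)))
          (p + h * cen (M ^ J) a) ρ φ hlam hhJ hhJ1 ?_ ?_ ?_
        · have := (hn a).1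
          linarith
        · intro z hz
          apply heq
          rw [mem_closedBall] at hz ⊢
          have h3 : dist (p + h * cen (M ^ J) a) p ≤ h * (2 * (1 - 1 / (M : ℝ) ^ J)) := by
            rw [dist_eq_norm, add_sub_cancel_left, norm_mul, Complex.norm_real,
              Real.norm_of_nonneg hh.le]
            have h4 := cen_norm (M ^ J) (pow_pos hM0 J) a
            rw [hcast] at h4
            gcongr
          have h5 := dist_triangle z (p + h * cen (M ^ J) a) p
          have h6 : (0 : ℝ) ≤ 1 - 1 / (M : ℝ) ^ J := by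
            have : 1 / (M : ℝ) ^ J ≤ 1 := (div_le_one hMJ).2 hMJ1
            linarith
          have h7 : h * (2 * (1 - 1 / (M : ℝ) ^ J)) ≤ h * (K * (1 - 1 / (M : ℝ) ^ J)) := by
            gcongr
            linarith
          have h8 : K * (h / (M : ℝ) ^ J) + h * (K * (1 - 1 / (M : ℝ) ^ J)) = K * h := by
            field_simp
            ring
          linarith
        · have h3 := (hn a).2
          rw [hcast] at h3
          refine h3.trans ?_
          have h4 : 0 ≤ sn φ (closedBall (p + h * cen (M ^ J) a) (h / (M : ℝ) ^ J)) :=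
            Real.sSup_nonneg (by rintro _ ⟨x, -, rfl⟩; exact abs_nonneg _)
          have h5 : 0 ≤ T * (1 + Real.sqrt lam * (h / (M : ℝ) ^ J)) := by positivity
          gcongr
          linarith
      choose m hm hmsum using hdat
      refine ⟨fun x => m ((((digE M J).symm x.1).1, ((digE M J).symm x.2).1))
        (((digE M J).symm x.1).2, ((digE M J).symm x.2).2), fun x => ?_, ?_⟩
      · obtain ⟨y1, hy1⟩ := (digE M J).surjective x.1
        obtain ⟨y2, hy2⟩ := (digE M J).surjective x.2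
        have hx : x = (digE M J y1, digE M J y2) := Prod.ext hy1.symm hy2.symm
        subst hx
        simp only [Equiv.symm_apply_apply]
        have h3 := hm (y1.1, y2.1) (y1.2, y2.2)
        have h4 : p + (h : ℂ) * cen (M ^ (J + 1)) (digE M J y1, digE M J y2) =
            (p + h * cen (M ^ J) (y1.1, y2.1)) + (h / (M : ℝ) ^ J : ℝ) * cen M (y1.2, y2.2) := by
          have := cen_dig M J hM0 (y1.1, y2.1) (y1.2, y2.2)
          simp only at this
          rw [this]
          push_cast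
          ring
        have h5 : h / ((M ^ (J + 1) : ℕ) : ℝ) = (h / (M : ℝ) ^ J) / M := by
          push_cast
          rw [pow_succ, div_div]
        rw [h4, h5]
        exact h3
      · have e1 : ∑ x : Fin (M ^ (J + 1)) × Fin (M ^ (J + 1)),
            m ((((digE M J).symm x.1).1, ((digE M J).symm x.2).1))
              (((digE M J).symm x.1).2, ((digE M J).symm x.2).2) =
            ∑ a : Fin (M ^ J) × Fin (M ^ J), ∑ c : Fin M × Fin M, m a c := by
          rw [← Equiv.sum_comp (Equiv.prodCongr (digE M J) (digE M J))]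
          simp only [Equiv.prodCongr_apply, Prod.map_fst, Prod.map_snd, Equiv.symm_apply_apply]
          rw [← Equiv.sum_comp (Equiv.prodProdProdComm (Fin (M ^ J)) (Fin (M ^ J)) (Fin M) (Fin M)),
            Fintype.sum_prod_type]
          rfl
        rw [e1]
        have e2 : ∑ a : Fin (M ^ J) × Fin (M ^ J), ∑ c : Fin M × Fin M, m a c ≤
            ∑ a : Fin (M ^ J) × Fin (M ^ J), β * M *
              (n a + T * (1 + Real.sqrt lam * (h / (M : ℝ) ^ J))) := by
          refine Finset.sum_le_sum fun a _ => (hmsum a).trans ?_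
          have h3 : 0 ≤ n a + T * (1 + Real.sqrt lam * (h / (M : ℝ) ^ J)) := by
            have := (hn a).1
            positivity
          gcongr
        refine e2.trans ?_
        rw [← Finset.mul_sum, Finset.sum_add_distrib, Finset.sum_const, Finset.card_univ,
          Fintype.card_prod, Fintype.card_fin, nsmul_eq_mul]
        push_cast
        have e3 : Real.sqrt lam * (h / (M : ℝ) ^ J) = s / (M : ℝ) ^ J := by rw [hs]; ring
        rw [e3]
        obtain ⟨P, hP⟩ : ∃ P, P = (M : ℝ) ^ J := ⟨_, rfl⟩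
        obtain ⟨B, hB⟩ : ∃ B, B = β ^ J := ⟨_, rfl⟩
        rw [pow_succ, pow_succ, ← hP, ← hB]
        rw [← hP, ← hB] at hsum
        rw [← hP] at hMJ hMJ1
        have e4 : P * P * (T * (1 + s / P)) = P * (T * P + T * s) := by
          field_simp
        rw [e4]
        have hβM : 0 ≤ β * M := by positivity
        have e5 : β * M * (∑ a, n a + P * (T * P + T * s)) ≤
            β * M * (P * (B * n₀ + 2 * T * s * (B - 1) + 2 * T * P) + P * (T * P + T * s)) := by
          gcongr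
        refine e5.trans ?_
        have e6 : P * M * (B * β * n₀ + 2 * T * s * (B * β - 1) + 2 * T * (P * M)) -
            β * M * (P * (B * n₀ + 2 * T * s * (B - 1) + 2 * T * P) + P * (T * P + T * s)) =
            M * P * (T * s * (β - 2) + T * P * (2 * M - 3 * β)) := by
          ring
        have e7 : 0 ≤ M * P * (T * s * (β - 2) + T * P * (2 * M - 3 * β)) := by
          have a1 : 0 ≤ T * s * (β - 2) := mul_nonneg (by positivity) (by linarith)
          have a2 : 0 ≤ T * P * (2 * M - 3 * β) := mul_nonneg (by positivity) (by linarith)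
          positivity
        linarith
  intro J
  obtain ⟨n, hn, hsum⟩ := main J
  refine ⟨n, hn, hsum.trans ?_⟩
  have hMJ : (0 : ℝ) < (M : ℝ) ^ J := pow_pos hMr J
  have hB : β ^ J ≤ ((M : ℝ) ^ J) ^ ε := by
    calc β ^ J ≤ ((M : ℝ) ^ ε) ^ J := by gcongr
      _ = ((M : ℝ) ^ J) ^ ε := by
        rw [← Real.rpow_natCast, ← Real.rpow_mul hMr.le, ← Real.rpow_natCast, ← Real.rpow_mul hMr.le, mul_comm]
  have hr : ((M : ℝ) ^ J) ^ (1 + ε) = (M : ℝ) ^ J * ((M : ℝ) ^ J) ^ ε := by
    rw [Real.rpow_add hMJ, Real.rpow_one]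
  rw [hr, ← hs]
  have hB0 : (0 : ℝ) ≤ β ^ J := pow_nonneg (by linarith) J
  exact fin_bd T n₀ s _ _ _ hT hn₀ hs0 hMJ hB0 hB

end Pool.Agent.Q73.AD
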