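import Pool.Agent.Q73.AD.TO2L
import Pool.Agent.Q73.AD.TO1

/-!
# O3L: the iteration over the scales, with squares (helper211)
-/

set_option autoImplicit false
open MeasureTheory Filter Topology Complex Metric
open scoped ContDiff ComplexConjugate

namespace Pool.Agent.Q73.AD

open Pool.Agent.Q73.NL

lemma cen_norm_le2 {n : ℕ} (hn : 0 < n) (a : Fin n × Fin n) : ‖cen n a‖ ≤ 2 * (1 - 1 / (n : ℝ)) := by
  have h0 : (0 : ℝ) < n := by exact_mod_cast hn
  have h1 : ∀ i : Fin n, |-1 + (2 * (i : ℝ) + 1) / n| ≤ 1 - 1 / n := by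
    intro i
    have hi : ((i : ℕ) : ℝ) + 1 ≤ n := by exact_mod_cast i.2
    have hi0 : (0 : ℝ) ≤ ((i : ℕ) : ℝ) := Nat.cast_nonneg _
    rw [abs_le]
    constructor
    · have : 1 / (n : ℝ) ≤ (2 * (i : ℝ) + 1) / n := by gcongr; linarith
      linarith
    · have : (2 * (i : ℝ) + 1) / n ≤ (2 * n - 1) / n := by gcongr; linarith
      have e : (2 * (n : ℝ) - 1) / n = 2 - 1 / n := by field_simp
      linarith
  refine (Complex.norm_le_abs_re_add_abs_im _).trans ?_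
  have e1 : (cen n a).re = -1 + (2 * (a.1 : ℝ) + 1) / n := rfl
  have e2 : (cen n a).im = -1 + (2 * (a.2 : ℝ) + 1) / n := rfl
  rw [e1, e2]
  linarith [h1 a.1, h1 a.2]

lemma choose_scale (C₂ ε : ℝ) (hC : 0 < C₂) (hε : 0 < ε) :
    ∃ M : ℕ, 2 ≤ M ∧ C₂ ≤ M ∧ max 4 (C₂ * (1 + Real.log M) ^ 2) ≤ (M : ℝ) ^ ε ∧
      2 * max 4 (C₂ * (1 + Real.log M) ^ 2) ≤ (M : ℝ) ^ 2 := by
  set δ : ℝ := min ε 2 with hδ
  have hδ0 : 0 < δ := lt_min hε two_pos
  have hδε : δ ≤ ε := min_le_left _ _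
  have hδ2 : δ ≤ 2 := min_le_right _ _
  have hc : 0 < 1 / Real.sqrt (2 * C₂) := by positivity
  have hlo : (fun x : ℝ => 1 + Real.log x) =o[atTop] fun x : ℝ => x ^ (δ / 2) := by
    refine Asymptotics.IsLittleO.add ?_ (isLittleO_log_rpow_atTop (by positivity))
    refine (Asymptotics.isLittleO_const_left_of_ne one_ne_zero).2 ?_
    exact tendsto_norm_atTop_atTop.comp (tendsto_rpow_atTop (by positivity))
  have h1 := hlo.def hc
  have h2 : ∀ᶠ x : ℝ in atTop, 8 ≤ x ^ δ := (tendsto_rpow_atTop hδ0).eventually_ge_atTop 8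
  have h3 : ∀ᶠ x : ℝ in atTop, max 2 C₂ ≤ x := eventually_ge_atTop _
  obtain ⟨M, hM1, hM2, hM3⟩ := (tendsto_natCast_atTop_atTop (R := ℝ)).eventually
    (h1.and (h2.and h3)) |>.exists
  have hMr2 : (2 : ℝ) ≤ M := (le_max_left _ _).trans hM3
  have hMr1 : (1 : ℝ) ≤ M := by linarith
  have hM0 : (0 : ℝ) < M := by linarith
  have hlog : 0 ≤ Real.log M := Real.log_nonneg hMr1
  have h4 : 2 * (C₂ * (1 + Real.log M) ^ 2) ≤ (M : ℝ) ^ δ := by
    rw [Real.norm_eq_abs, Real.norm_eq_abs, abs_of_nonneg (by linarith),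
      abs_of_nonneg (Real.rpow_nonneg hM0.le _)] at hM1
    have h5 := pow_le_pow_left₀ (by linarith) hM1 2
    rw [mul_pow, div_pow, one_pow, Real.sq_sqrt (by positivity)] at h5
    have h6 : ((M : ℝ) ^ (δ / 2)) ^ 2 = (M : ℝ) ^ δ := by
      rw [← Real.rpow_natCast, ← Real.rpow_mul hM0.le]
      congr 1
      push_cast
      ring
    rw [h6] at h5
    calc 2 * (C₂ * (1 + Real.log M) ^ 2) ≤ 2 * (C₂ * (1 / (2 * C₂) * (M : ℝ) ^ δ)) := by gcongr
      _ = (M : ℝ) ^ δ := by field_simp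
  have h7 : 2 * max 4 (C₂ * (1 + Real.log M) ^ 2) ≤ (M : ℝ) ^ δ := by
    rw [mul_max_of_nonneg _ _ (by norm_num)]
    refine max_le ?_ h4
    linarith
  have h8 : 0 ≤ max 4 (C₂ * (1 + Real.log M) ^ 2) := le_max_of_le_left (by norm_num)
  refine ⟨M, by exact_mod_cast hMr2, (le_max_right _ _).trans hM3, ?_, ?_⟩
  · have := Real.rpow_le_rpow_of_exponent_le hMr1 hδε
    linarith
  · have := Real.rpow_le_rpow_of_exponent_le hMr1 hδ2
    rw [Real.rpow_two] at this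
    linarith

/-- the growth exponents on the subsquares -/
def GrE (K h : ℝ) (p : ℂ) (φ : ℂ → ℝ) (m : ℕ) (s : ℝ) : Prop :=
  ∃ n : Fin m × Fin m → ℝ, (∀ a, 0 ≤ n a ∧
    sn φ (closedBall (p + h * cen m a) (K * (h / m))) ≤
      Real.exp (n a) * sn φ (closedBall (p + h * cen m a) (h / m))) ∧
    ∑ a, n a ^ 2 ≤ s

/-- the subsquares of the subsquares -/
def subE (m M : ℕ) : (Fin m × Fin m) × (Fin M × Fin M) ≃ Fin (m * M) × Fin (m * M) :=
  (Equiv.prodProdProdComm _ _ _ _).trans (Equiv.prodCongr finProdFinEquiv finProdFinEquiv)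

lemma cen_subE {m M : ℕ} (hm : 0 < m) (hM : 0 < M) (b : Fin m × Fin m) (c : Fin M × Fin M) :
    cen (m * M) (subE m M (b, c)) = cen m b + (1 / (m : ℝ) : ℝ) * cen M c := by
  have hm0 : (m : ℝ) ≠ 0 := by positivity
  have hM0 : (M : ℝ) ≠ 0 := by positivity
  have key : ∀ (x : Fin m) (y : Fin M),
      -1 + (2 * ((finProdFinEquiv (x, y) : Fin (m * M)) : ℝ) + 1) / ((m * M : ℕ) : ℝ) =
        (-1 + (2 * (x : ℝ) + 1) / m) + 1 / (m : ℝ) * (-1 + (2 * (y : ℝ) + 1) / M) := by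
    intro x y
    rw [finProdFinEquiv_apply_val]
    push_cast
    field_simp
    ring
  apply Complex.ext
  · rw [Complex.add_re, Complex.re_ofReal_mul]
    exact key b.1 c.1
  · rw [Complex.add_im, Complex.im_ofReal_mul]
    exact key b.2 c.2

theorem GrE_step {K L C T : ℝ} (hK : 8 ≤ K) (hC : 0 < C) (hT : 0 < T) {M : ℕ} (hM : 0 < M)
    (hstep : ∀ (lam h N : ℝ) (p : ℂ) (ρ φ : ℂ → ℝ), 0 ≤ lam → 0 < h → h ≤ 1 →
      T * (1 + Real.sqrt lam * h) ≤ N →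
      (∀ z ∈ closedBall p (K * h), ContDiffAt ℝ ∞ φ z ∧ ContDiffAt ℝ 1 ρ z ∧ |ρ z| ≤ L ∧
        ‖fderiv ℝ ρ z‖ ≤ L ∧ lap φ z + lam * ρ z * φ z = 0) →
      sn φ (closedBall p (K * h)) ≤ Real.exp N * sn φ (closedBall p h) →
      ∃ n : Fin M × Fin M → ℝ, (∀ a, 0 ≤ n a ∧
        sn φ (closedBall (p + h * cen M a) (K * (h / M))) ≤
          Real.exp (n a) * sn φ (closedBall (p + h * cen M a) (h / M))) ∧
        ∑ a, n a ^ 2 ≤ C * (1 + Real.log M) ^ 2 * N ^ 2)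
    {lam h : ℝ} {p : ℂ} {ρ φ : ℂ → ℝ} (hlam : 0 ≤ lam) (hh : 0 < h) (hh1 : h ≤ 1)
    (heq : ∀ z ∈ closedBall p (K * h), ContDiffAt ℝ ∞ φ z ∧ ContDiffAt ℝ 1 ρ z ∧ |ρ z| ≤ L ∧
        ‖fderiv ℝ ρ z‖ ≤ L ∧ lap φ z + lam * ρ z * φ z = 0)
    {m : ℕ} (hm : 0 < m) {s γ : ℝ} (hγ : C * (1 + Real.log M) ^ 2 ≤ γ)
    (hg : GrE K h p φ m s) :
    GrE K h p φ (m * M) (γ * (s + 2 * T ^ 2 * (m : ℝ) ^ 2 + 2 * T ^ 2 * (lam * h ^ 2))) := by
  obtain ⟨n, hn, hns⟩ := hg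
  have hm0 : (0 : ℝ) < m := by exact_mod_cast hm
  have hm1 : (1 : ℝ) ≤ m := by exact_mod_cast hm
  have hM0 : (0 : ℝ) < M := by exact_mod_cast hM
  have hhm : 0 < h / m := by positivity
  have hhm1 : h / m ≤ 1 := (div_le_self hh.le hm1).trans hh1
  have hb : ∀ b : Fin m × Fin m, ∃ n' : Fin M × Fin M → ℝ, (∀ a, 0 ≤ n' a ∧
        sn φ (closedBall (p + h * cen m b + (h / m : ℝ) * cen M a) (K * (h / m / M))) ≤
          Real.exp (n' a) * sn φ (closedBall (p + h * cen m b + (h / m : ℝ) * cen M a) (h / m / M))) ∧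
        ∑ a, n' a ^ 2 ≤ C * (1 + Real.log M) ^ 2 *
          (max (n b) (T * (1 + Real.sqrt lam * (h / m)))) ^ 2 := by
    intro b
    refine hstep lam (h / m) _ (p + h * cen m b) ρ φ hlam hhm hhm1 (le_max_right _ _) ?_ ?_
    · intro z hz
      refine heq z ?_
      refine closedBall_subset_closedBall' ?_ hz
      rw [dist_eq_norm]
      have e1 : p + h * cen m b - p = h * cen m b := by ring
      rw [e1, norm_mul, Complex.norm_real, Real.norm_eq_abs, abs_of_pos hh]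
      have h1 := mul_le_mul_of_nonneg_left (cen_norm_le2 hm b) hh.le
      have h2 : K * (h / m) = h * (K * (1 / m)) := by ring
      have h3 : h * (K * (1 / (m : ℝ)) + 2 * (1 - 1 / m)) ≤ h * K := by
        refine mul_le_mul_of_nonneg_left ?_ hh.le
        have h4 : 1 / (m : ℝ) ≤ 1 := by rw [div_le_one hm0]; exact hm1
        nlinarith
      nlinarith
    · refine (hn b).2.trans ?_
      exact mul_le_mul_of_nonneg_right (Real.exp_le_exp.2 (le_max_left _ _)) (sn_nonneg2 _ _)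
  choose n' hn' hns' using hb
  refine ⟨fun a => n' ((subE m M).symm a).1 ((subE m M).symm a).2, ?_, ?_⟩
  · intro a
    obtain ⟨⟨b, c⟩, rfl⟩ := (subE m M).surjective a
    have h1 := hn' b c
    simp only [Equiv.symm_apply_apply]
    refine ⟨h1.1, ?_⟩
    have e1 : p + h * cen m b + (h / m : ℝ) * cen M c =
        p + h * cen (m * M) (subE m M (b, c)) := by
      rw [cen_subE hm hM]
      push_cast
      ring
    have e2 : h / m / M = h / ((m * M : ℕ) : ℝ) := by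
      push_cast
      rw [div_div]
    have h2 := h1.2
    rw [e1, e2] at h2
    exact h2
  · have e1 : ∑ a, (n' ((subE m M).symm a).1 ((subE m M).symm a).2) ^ 2 = ∑ b, ∑ c, (n' b c) ^ 2 := by
      rw [Equiv.sum_comp (subE m M).symm (fun x => (n' x.1 x.2) ^ 2), Fintype.sum_prod_type]
    rw [e1]
    have hγ0 : 0 ≤ γ := le_trans (by positivity) hγ
    have hterm : ∀ b, ∑ c, (n' b c) ^ 2 ≤
        γ * (n b ^ 2 + (2 * T ^ 2 + 2 * T ^ 2 * (lam * (h / m) ^ 2))) := by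
      intro b
      refine (hns' b).trans ?_
      have h2 : (max (n b) (T * (1 + Real.sqrt lam * (h / m)))) ^ 2 ≤
          n b ^ 2 + (2 * T ^ 2 + 2 * T ^ 2 * (lam * (h / m) ^ 2)) := by
        have h3 : (T * (1 + Real.sqrt lam * (h / m))) ^ 2 ≤
            2 * T ^ 2 + 2 * T ^ 2 * (lam * (h / m) ^ 2) := by
          have h4 : (1 + Real.sqrt lam * (h / m)) ^ 2 ≤ 2 + 2 * (lam * (h / m) ^ 2) := by
            have h5 : (Real.sqrt lam * (h / m)) ^ 2 = lam * (h / m) ^ 2 := by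
              rw [mul_pow, Real.sq_sqrt hlam]
            nlinarith [sq_nonneg (1 - Real.sqrt lam * (h / m))]
          rw [mul_pow]
          have := mul_le_mul_of_nonneg_left h4 (sq_nonneg T)
          linarith
        rcases le_total (n b) (T * (1 + Real.sqrt lam * (h / m))) with h6 | h6
        · rw [max_eq_right h6]
          have := sq_nonneg (n b)
          linarith
        · rw [max_eq_left h6]
          have : 0 ≤ 2 * T ^ 2 + 2 * T ^ 2 * (lam * (h / m) ^ 2) := by positivity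
          linarith
      exact mul_le_mul hγ h2 (sq_nonneg _) hγ0
    refine (Finset.sum_le_sum fun b _ => hterm b).trans ?_
    rw [← Finset.mul_sum, Finset.sum_add_distrib, Finset.sum_const, Finset.card_univ,
      Fintype.card_prod, Fintype.card_fin, nsmul_eq_mul]
    refine mul_le_mul_of_nonneg_left ?_ hγ0
    have e2 : ((m * m : ℕ) : ℝ) * (2 * T ^ 2 + 2 * T ^ 2 * (lam * (h / m) ^ 2)) =
        2 * T ^ 2 * (m : ℝ) ^ 2 + 2 * T ^ 2 * (lam * h ^ 2) := by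
      push_cast
      field_simp
    rw [e2]
    linarith

lemma GrE_mono {K h : ℝ} {p : ℂ} {φ : ℂ → ℝ} {m : ℕ} {s s' : ℝ} (hs : s ≤ s')
    (hg : GrE K h p φ m s) : GrE K h p φ m s' := by
  obtain ⟨n, hn, hns⟩ := hg
  exact ⟨n, hn, hns.trans hs⟩

theorem to3L (h : O2L) : O3L := by
  intro K ε hK hε
  obtain ⟨C₂, hC₂, h2⟩ := h K hK
  obtain ⟨M, hM2, hCM, hMε, hMsq⟩ := choose_scale C₂ ε hC₂ hε
  refine ⟨M, hM2, fun L hL => ?_⟩
  obtain ⟨T, hT, hstep⟩ := h2 M hCM L hL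
  refine ⟨1 + 4 * T ^ 2, by positivity, ?_⟩
  intro lam h n₀ p ρ φ hlam hh hh1 hn₀ heq hsn J
  have hM0 : 0 < M := by omega
  have hMr : (0 : ℝ) < M := by exact_mod_cast hM0
  set γ : ℝ := max 4 (C₂ * (1 + Real.log M) ^ 2) with hγ
  have hγ4 : 4 ≤ γ := le_max_left _ _
  have hγC : C₂ * (1 + Real.log M) ^ 2 ≤ γ := le_max_right _ _
  set A : ℝ := 2 * T ^ 2 * (lam * h ^ 2) with hA
  have hA0 : 0 ≤ A := by positivity
  have hT2 : 0 ≤ 2 * T ^ 2 := by positivity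
  have key : ∀ J : ℕ, GrE K h p φ (M ^ J)
      (γ ^ J * (n₀ ^ 2 + 2 * A) - 2 * A + 2 * T ^ 2 * ((M : ℝ) ^ J) ^ 2) := by
    intro J
    induction J with
    | zero =>
      refine ⟨fun _ => n₀, fun a => ⟨hn₀, ?_⟩, ?_⟩
      · have ha : cen (M ^ 0) a = 0 := by
          have h1 : (M ^ 0 : ℕ) = 1 := pow_zero M
          have h3 := cen_norm_le2 (n := M ^ 0) (by rw [h1]; norm_num) a
          have h4 : ((M ^ 0 : ℕ) : ℝ) = 1 := by rw [h1]; norm_num
          rw [h4] at h3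
          have h5 : ‖cen (M ^ 0) a‖ ≤ 0 := by linarith
          exact norm_le_zero_iff.1 h5
        have h4 : ((M ^ 0 : ℕ) : ℝ) = 1 := by rw [pow_zero]; norm_num
        rw [ha, mul_zero, add_zero, h4, div_one]
        exact hsn
      · rw [Finset.sum_const, Finset.card_univ, Fintype.card_prod, Fintype.card_fin]
        simp only [pow_zero, mul_one, one_smul, one_pow, one_mul]
        linarith
    | succ J ih =>
      have h1 := GrE_step hK hC₂ hT hM0 hstep hlam hh hh1 heq (pow_pos hM0 J) hγC ih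
      rw [← pow_succ] at h1
      refine GrE_mono ?_ h1
      have e1 : ((M ^ J : ℕ) : ℝ) = (M : ℝ) ^ J := by push_cast; rfl
      rw [e1, ← hA]
      set X : ℝ := ((M : ℝ) ^ J) ^ 2 with hX
      have hX0 : 0 ≤ X := sq_nonneg _
      have e2 : ((M : ℝ) ^ (J + 1)) ^ 2 = X * (M : ℝ) ^ 2 := by rw [hX, pow_succ]; ring
      rw [e2, pow_succ γ J]
      have h3 : 0 ≤ (γ - 2) * A := mul_nonneg (by linarith) hA0
      have h4 : 2 * T ^ 2 * X * (2 * γ) ≤ 2 * T ^ 2 * X * (M : ℝ) ^ 2 :=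
        mul_le_mul_of_nonneg_left hMsq (mul_nonneg hT2 hX0)
      linarith
  obtain ⟨n, hn, hns⟩ := key J
  refine ⟨n, hn, hns.trans ?_⟩
  have hMJ : (0 : ℝ) < (M : ℝ) ^ J := by positivity
  have h5 : γ ^ J ≤ ((M : ℝ) ^ J) ^ ε := by
    have h6 := pow_le_pow_left₀ (by linarith) hMε J
    refine h6.trans (le_of_eq ?_)
    rw [← Real.rpow_natCast, ← Real.rpow_natCast, ← Real.rpow_mul hMr.le, ← Real.rpow_mul hMr.le,
      mul_comm]
  have h6 : 0 ≤ lam * h ^ 2 := by positivity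
  have h7 : 0 < ((M : ℝ) ^ J) ^ ε := Real.rpow_pos_of_pos hMJ _
  calc γ ^ J * (n₀ ^ 2 + 2 * A) - 2 * A + 2 * T ^ 2 * ((M : ℝ) ^ J) ^ 2
      ≤ ((M : ℝ) ^ J) ^ ε * (n₀ ^ 2 + 2 * A) + 2 * T ^ 2 * ((M : ℝ) ^ J) ^ 2 := by
        have : γ ^ J * (n₀ ^ 2 + 2 * A) ≤ ((M : ℝ) ^ J) ^ ε * (n₀ ^ 2 + 2 * A) :=
          mul_le_mul_of_nonneg_right h5 (by positivity)
        linarith
    _ ≤ (1 + 4 * T ^ 2) * (((M : ℝ) ^ J) ^ ε * (n₀ ^ 2 + lam * h ^ 2) + ((M : ℝ) ^ J) ^ 2) := by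
        have h8 : 0 ≤ ((M : ℝ) ^ J) ^ ε * (4 * T ^ 2 * n₀ ^ 2 + lam * h ^ 2) := by positivity
        have h9 : 0 ≤ (1 + 2 * T ^ 2) * ((M : ℝ) ^ J) ^ 2 := by positivity
        rw [hA]
        nlinarith

end Pool.Agent.Q73.AD
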