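import Pool.Agent.Q73.AD.Stm

/-!
# Job AD-13: the mean square oscillation of a bounded function with the mean value inequality
-/

set_option autoImplicit false
open MeasureTheory Filter Topology Complex Metric
open scoped ContDiff ComplexConjugate

namespace Pool.Agent.Q73.AD

open Pool.Agent.Q73.NL

namespace TP

/-- the cut-off function -/
noncomputable def chi (x : ℂ) : ℝ := (max 0 (8 - ‖x‖ ^ 2)) ^ 2 / 16

lemma chi_cont : Continuous chi := by
  unfold chi
  fun_prop

lemma chi_nonneg (x : ℂ) : 0 ≤ chi x := by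
  unfold chi
  positivity

lemma chi_le (x : ℂ) : chi x ≤ 4 := by
  unfold chi
  have h1 : max 0 (8 - ‖x‖ ^ 2) ≤ 8 := max_le (by norm_num) (by nlinarith [sq_nonneg ‖x‖])
  have h2 : (max 0 (8 - ‖x‖ ^ 2)) ^ 2 ≤ 8 ^ 2 := pow_le_pow_left₀ (le_max_left _ _) h1 2
  linarith

lemma chi_one {x : ℂ} (hx : x ∈ ball (0 : ℂ) 2) : 1 ≤ chi x := by
  unfold chi
  rw [mem_ball_zero_iff] at hx
  have h0 : 0 ≤ ‖x‖ := norm_nonneg x
  have h1 : 4 ≤ max 0 (8 - ‖x‖ ^ 2) := le_trans (by nlinarith) (le_max_right _ _)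
  have h2 : (4 : ℝ) ^ 2 ≤ (max 0 (8 - ‖x‖ ^ 2)) ^ 2 := pow_le_pow_left₀ (by norm_num) h1 2
  linarith

lemma chi_zero {x : ℂ} (hx : x ∉ ball (0 : ℂ) 3) : chi x = 0 := by
  unfold chi
  rw [mem_ball_zero_iff, not_lt] at hx
  rw [max_eq_left (by nlinarith)]
  norm_num

lemma sq_pos_le (s t : ℝ) : (max 0 s) ^ 2 ≤ (max 0 t) ^ 2 + 2 * max 0 t * (s - t) + (s - t) ^ 2 := by
  rcases le_total 0 t with ht | ht
  · rw [max_eq_right ht]
    rcases le_total 0 s with hs | hs
    · rw [max_eq_right hs]
      nlinarith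
    · rw [max_eq_left hs]
      nlinarith [sq_nonneg s]
  · rw [max_eq_left ht]
    rcases le_total 0 s with hs | hs
    · rw [max_eq_right hs]
      nlinarith
    · rw [max_eq_left hs]
      nlinarith [sq_nonneg (s - t)]

lemma chi_mid {y z : ℂ} {r : ℝ} (hr1 : r ≤ 1) (hy : ‖y‖ ≤ 4) (hz : ‖z‖ ≤ r) :
    chi (y + z) + chi (y - z) ≤ 2 * chi y + 81 / 8 * r ^ 2 := by
  have hz0 : 0 ≤ ‖z‖ := norm_nonneg z
  have hy0 : 0 ≤ ‖y‖ := norm_nonneg y
  have hpar : ‖y + z‖ ^ 2 + ‖y - z‖ ^ 2 = 2 * (‖y‖ ^ 2 + ‖z‖ ^ 2) := by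
    have := parallelogram_law_with_norm ℝ y z
    nlinarith
  have h1 := sq_pos_le (8 - ‖y + z‖ ^ 2) (8 - ‖y‖ ^ 2)
  have h2 := sq_pos_le (8 - ‖y - z‖ ^ 2) (8 - ‖y‖ ^ 2)
  have hm : 0 ≤ max 0 (8 - ‖y‖ ^ 2) := le_max_left _ _
  have a1 : ‖y + z‖ ≤ ‖y‖ + ‖z‖ := norm_add_le _ _
  have a2 : ‖y - z‖ ≤ ‖y‖ + ‖z‖ := norm_sub_le _ _
  have a3 : ‖y‖ - ‖z‖ ≤ ‖y + z‖ := by
    have := norm_sub_norm_le y (-z)
    rwa [norm_neg, sub_neg_eq_add] at this
  have a4 : ‖y‖ - ‖z‖ ≤ ‖y - z‖ := norm_sub_norm_le _ _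
  have n1 : 0 ≤ ‖y + z‖ := norm_nonneg _
  have n2 : 0 ≤ ‖y - z‖ := norm_nonneg _
  have hr0 : 0 ≤ r := hz0.trans hz
  have key : ∀ u : ℝ, 0 ≤ u → u ≤ ‖y‖ + ‖z‖ → ‖y‖ - ‖z‖ ≤ u →
      ((8 - u ^ 2) - (8 - ‖y‖ ^ 2)) ^ 2 ≤ 81 * r ^ 2 := by
    intro u hu hu1 hu2
    have e1 : |(8 - u ^ 2) - (8 - ‖y‖ ^ 2)| ≤ 9 * r := by
      rw [abs_le]
      constructor <;> nlinarith
    calc ((8 - u ^ 2) - (8 - ‖y‖ ^ 2)) ^ 2 = |(8 - u ^ 2) - (8 - ‖y‖ ^ 2)| ^ 2 := (sq_abs _).symm
      _ ≤ (9 * r) ^ 2 := pow_le_pow_left₀ (abs_nonneg _) e1 2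
      _ = 81 * r ^ 2 := by ring
  have k1 := key _ n1 a1 a3
  have k2 := key _ n2 a2 a4
  unfold chi
  have h3 : 2 * max 0 (8 - ‖y‖ ^ 2) * (8 - ‖y + z‖ ^ 2 - (8 - ‖y‖ ^ 2)) +
      2 * max 0 (8 - ‖y‖ ^ 2) * (8 - ‖y - z‖ ^ 2 - (8 - ‖y‖ ^ 2)) ≤ 0 := by
    have e2 : 2 * max 0 (8 - ‖y‖ ^ 2) * (8 - ‖y + z‖ ^ 2 - (8 - ‖y‖ ^ 2)) +
      2 * max 0 (8 - ‖y‖ ^ 2) * (8 - ‖y - z‖ ^ 2 - (8 - ‖y‖ ^ 2)) =
        -(2 * max 0 (8 - ‖y‖ ^ 2) * (2 * ‖z‖ ^ 2)) := by
      linear_combination (-2 * max 0 (8 - ‖y‖ ^ 2)) * hpar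
    rw [e2]
    have : 0 ≤ 2 * max 0 (8 - ‖y‖ ^ 2) * (2 * ‖z‖ ^ 2) := by positivity
    linarith
  linarith

lemma vol_ball (x : ℂ) {r : ℝ} (hr : 0 < r) :
    (volume : Measure ℂ).real (ball x r) = Real.pi * r ^ 2 := by
  rw [Measure.real, Complex.volume_ball, ENNReal.toReal_mul, ENNReal.toReal_pow,
    ENNReal.toReal_ofReal hr.le, mul_comm]
  rfl

lemma intOn {f : ℂ → ℝ} (hf : Measurable f) {M : ℝ} (hb : ∀ x, |f x| ≤ M) {s : Set ℂ}
    (hs : volume s ≠ ⊤) : IntegrableOn f s :=
  Measure.integrableOn_of_bounded hs hf.aestronglyMeasurable (M := M)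
    (ae_of_all _ fun x => by rw [Real.norm_eq_abs]; exact hb x)

/-- integral of the cut-off function over discs -/
lemma J_le {y : ℂ} {r : ℝ} (hr : 0 < r) (hr1 : r ≤ 1) (hy : ‖y‖ ≤ 4) :
    ∫ x, (ball y r).indicator chi x ≤ Real.pi * r ^ 2 * chi y + 81 / 16 * (Real.pi * r ^ 4) := by
  set F : ℂ → ℝ := (ball y r).indicator chi with hF
  have hFi : Integrable F := by
    rw [hF, integrable_indicator_iff measurableSet_ball]
    exact intOn chi_cont.measurable (M := 4)
      (fun x => by rw [abs_of_nonneg (chi_nonneg x)]; exact chi_le x) measure_ball_lt_top.ne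
  have e1 : ∫ z, F (y + z) = ∫ x, F x := integral_add_left_eq_self F y
  have e2 : ∫ z, F (y - z) = ∫ x, F x := integral_sub_left_eq_self F volume y
  have i1 : Integrable (fun z => F (y + z)) := hFi.comp_add_left y
  have i2 : Integrable (fun z => F (y - z)) := hFi.comp_sub_left y
  have h1 : ∫ z, (F (y + z) + F (y - z)) ≤
      ∫ z, (ball (0 : ℂ) r).indicator (fun _ => 2 * chi y + 81 / 8 * r ^ 2) z := by
    refine integral_mono (i1.add i2) ?_ ?_
    · rw [integrable_indicator_iff measurableSet_ball]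
      exact integrableOn_const measure_ball_lt_top.ne
    · intro z
      simp only
      by_cases hz : z ∈ ball (0 : ℂ) r
      · have hz' : ‖z‖ < r := mem_ball_zero_iff.mp hz
        have m1 : y + z ∈ ball y r := by
          rw [mem_ball, dist_eq_norm, add_sub_cancel_left]
          exact hz'
        have m2 : y - z ∈ ball y r := by
          rw [mem_ball, dist_eq_norm, sub_sub_cancel_left, norm_neg]
          exact hz'
        rw [hF, Set.indicator_of_mem m1, Set.indicator_of_mem m2, Set.indicator_of_mem hz]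
        exact chi_mid hr1 hy hz'.le
      · have hz' : ¬ ‖z‖ < r := fun h => hz (mem_ball_zero_iff.mpr h)
        have m1 : y + z ∉ ball y r := by
          rw [mem_ball, dist_eq_norm, add_sub_cancel_left]
          exact hz'
        have m2 : y - z ∉ ball y r := by
          rw [mem_ball, dist_eq_norm, sub_sub_cancel_left, norm_neg]
          exact hz'
        rw [hF, Set.indicator_of_notMem m1, Set.indicator_of_notMem m2,
          Set.indicator_of_notMem hz, add_zero]
  have h2 : ∫ z, (ball (0 : ℂ) r).indicator (fun _ => 2 * chi y + 81 / 8 * r ^ 2) z =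
      Real.pi * r ^ 2 * (2 * chi y + 81 / 8 * r ^ 2) := by
    rw [integral_indicator measurableSet_ball, setIntegral_const, vol_ball 0 hr, smul_eq_mul]
  rw [integral_add i1 i2, e1, e2, h2] at h1
  nlinarith

end TP

open TP

/-- job AD-13 -/
theorem tp1 : P1 := by
  refine ⟨81 * Real.pi ^ 2, by positivity, ?_⟩
  intro w r hr hr1 hw hb hmv
  set a : ℝ := Real.pi * r ^ 2 with ha
  have hapos : 0 < a := by positivity
  have hwabs : ∀ x, |w x| ≤ 1 := fun x => by rw [abs_of_nonneg (hb x).1]; exact (hb x).2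
  have hw2 : Measurable (fun x => w x ^ 2) := hw.pow_const 2
  have hw2abs : ∀ x, |w x ^ 2| ≤ 1 := fun x => by
    rw [abs_of_nonneg (sq_nonneg _)]
    exact pow_le_one₀ (hb x).1 (hb x).2
  have hfin : ∀ x : ℂ, volume (ball x r) ≠ ⊤ := fun x => measure_ball_lt_top.ne
  -- the oscillation
  set m : ℂ → ℝ := fun x => (∫ t in ball x r, w t) / a with hm
  set I : ℂ → ℝ := fun x => ∫ y in ball x r, w y ^ 2 with hI
  have hV : ∀ x, ∫ y in ball x r, (w y - m x) ^ 2 = I x - a * m x ^ 2 := by
    intro x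
    have e1 : ∫ y in ball x r, (w y - m x) ^ 2 =
        ∫ y in ball x r, ((w y ^ 2 - 2 * m x * w y) + m x ^ 2) :=
      integral_congr_ae (ae_of_all _ fun y => by ring)
    have i1 : IntegrableOn (fun y => w y ^ 2) (ball x r) := intOn hw2 hw2abs (hfin x)
    have i2 : IntegrableOn (fun y => 2 * m x * w y) (ball x r) :=
      (intOn hw hwabs (hfin x)).const_mul _
    have i3 : IntegrableOn (fun y => w y ^ 2 - 2 * m x * w y) (ball x r) := i1.sub i2
    rw [e1, integral_add i3 (integrableOn_const (hfin x)), integral_sub i1 i2,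
      setIntegral_const, vol_ball x hr, smul_eq_mul, integral_const_mul]
    have e2 : ∫ t in ball x r, w t = a * m x := by
      rw [hm]
      field_simp
    rw [e2, hI, ← ha]
    ring
  have hV0 : ∀ x, 0 ≤ ∫ y in ball x r, (w y - m x) ^ 2 := fun x =>
    integral_nonneg fun y => sq_nonneg _
  have hVg : ∀ x ∈ ball (0 : ℂ) 3, ∫ y in ball x r, (w y - m x) ^ 2 ≤ I x - a * w x ^ 2 := by
    intro x hx
    rw [hV x]
    have h1 : w x ≤ m x := by
      rw [hm]
      simp only
      rw [le_div_iff₀ hapos]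
      exact hmv x hx
    have h2 : w x ^ 2 ≤ m x ^ 2 := pow_le_pow_left₀ (hb x).1 h1 2
    have := mul_le_mul_of_nonneg_left h2 hapos.le
    linarith
  -- the kernel
  set F : ℂ → ℂ → ℝ := fun x y => chi x * (ball x r).indicator (fun y => w y ^ 2) y with hF
  have hFsymm : ∀ x y, F x y = w y ^ 2 * (ball y r).indicator chi x := by
    intro x y
    rw [hF]
    simp only
    by_cases h : y ∈ ball x r
    · rw [Set.indicator_of_mem h, Set.indicator_of_mem (mem_ball_comm.mp h), mul_comm]
    · rw [Set.indicator_of_notMem h, Set.indicator_of_notMem (fun h' => h (mem_ball_comm.mp h')),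
        mul_zero, mul_zero]
  have hFint : Integrable (Function.uncurry F) ((volume : Measure ℂ).prod volume) := by
    have hmeas : Measurable (Function.uncurry F) := by
      have hS : MeasurableSet {p : ℂ × ℂ | dist p.2 p.1 < r} :=
        (isOpen_lt (by fun_prop) continuous_const).measurableSet
      have e : Function.uncurry F = {p : ℂ × ℂ | dist p.2 p.1 < r}.indicator
          (fun p => chi p.1 * w p.2 ^ 2) := by
        funext ⟨x, y⟩
        simp only [Function.uncurry_apply_pair, hF]
        by_cases h : y ∈ ball x r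
        · rw [Set.indicator_of_mem h,
            Set.indicator_of_mem (show (x, y) ∈ {p : ℂ × ℂ | dist p.2 p.1 < r} from h)]
        · rw [Set.indicator_of_notMem h,
            Set.indicator_of_notMem (show (x, y) ∉ {p : ℂ × ℂ | dist p.2 p.1 < r} from h),
            mul_zero]
      rw [e]
      exact ((chi_cont.measurable.comp measurable_fst).mul
        (hw2.comp measurable_snd)).indicator hS
    have hsupp : Function.support (Function.uncurry F) ⊆ closedBall (0 : ℂ) 3 ×ˢ closedBall 0 4 := by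
      rintro ⟨x, y⟩ hxy
      have h1 : F x y ≠ 0 := hxy
      have h2 : x ∈ ball (0 : ℂ) 3 := by
        by_contra h
        apply h1
        rw [hF]
        simp only
        rw [chi_zero h, zero_mul]
      have h3 : y ∈ ball x r := by
        by_contra h
        apply h1
        rw [hF]
        simp only
        rw [Set.indicator_of_notMem h, mul_zero]
      refine ⟨ball_subset_closedBall h2, ?_⟩
      rw [mem_closedBall]
      rw [mem_ball] at h2 h3
      have := dist_triangle y x 0
      simp only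
      linarith
    rw [← integrableOn_iff_integrable_of_support_subset hsupp]
    refine Measure.integrableOn_of_bounded (M := 4) ?_ hmeas.aestronglyMeasurable ?_
    · rw [Measure.prod_prod]
      exact ENNReal.mul_ne_top measure_closedBall_lt_top.ne measure_closedBall_lt_top.ne
    · refine ae_of_all _ ?_
      rintro ⟨x, y⟩
      rw [Function.uncurry_apply_pair, hFsymm, Real.norm_eq_abs, abs_mul]
      have h1 : |(ball y r).indicator chi x| ≤ 4 := by
        by_cases h : x ∈ ball y r
        · rw [Set.indicator_of_mem h, abs_of_nonneg (chi_nonneg x)]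
          exact chi_le x
        · rw [Set.indicator_of_notMem h, abs_zero]
          norm_num
      calc |w y ^ 2| * |(ball y r).indicator chi x| ≤ 1 * 4 :=
            mul_le_mul (hw2abs y) h1 (abs_nonneg _) zero_le_one
        _ = 4 := by norm_num
  have hFx : ∀ x, ∫ y, F x y = chi x * I x := by
    intro x
    rw [hF]
    simp only
    rw [integral_const_mul, integral_indicator measurableSet_ball]
  have hFy : ∀ y, ∫ x, F x y = w y ^ 2 * ∫ x, (ball y r).indicator chi x := by
    intro y
    rw [← integral_const_mul]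
    exact integral_congr_ae (ae_of_all _ fun x => hFsymm x y)
  have hswap : ∫ x, chi x * I x = ∫ y, w y ^ 2 * ∫ x, (ball y r).indicator chi x := by
    have := integral_integral_swap hFint
    simp only [hFx, hFy] at this
    exact this
  have hi1 : Integrable (fun x => chi x * I x) := by
    have := hFint.integral_prod_left
    simpa only [Function.uncurry_apply_pair, hFx] using this
  have hi2 : Integrable (fun y => w y ^ 2 * ∫ x, (ball y r).indicator chi x) := by
    have := hFint.integral_prod_right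
    simpa only [Function.uncurry_apply_pair, hFy] using this
  have hi3 : Integrable (fun x => chi x * w x ^ 2) := by
    have hs : Function.support (fun x => chi x * w x ^ 2) ⊆ closedBall (0 : ℂ) 3 := by
      intro x hx
      by_contra h
      apply hx
      simp only
      rw [chi_zero (fun h' => h (ball_subset_closedBall h')), zero_mul]
    rw [← integrableOn_iff_integrable_of_support_subset hs]
    refine intOn (chi_cont.measurable.mul hw2) (M := 4) (fun x => ?_) measure_closedBall_lt_top.ne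
    show |chi x * w x ^ 2| ≤ 4
    rw [abs_mul, abs_of_nonneg (chi_nonneg x)]
    calc chi x * |w x ^ 2| ≤ 4 * 1 :=
          mul_le_mul (chi_le x) (hw2abs x) (abs_nonneg _) (by norm_num)
      _ = 4 := by norm_num
  -- the first estimate
  have h1 : ∫ x in ball (0 : ℂ) 2, (∫ y in ball x r, (w y - m x) ^ 2) ≤
      ∫ x, (chi x * I x - a * (chi x * w x ^ 2)) := by
    rw [← integral_indicator measurableSet_ball]
    refine integral_mono_of_nonneg (ae_of_all _ fun x => ?_) (hi1.sub (hi3.const_mul a))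
      (ae_of_all _ fun x => ?_)
    · exact Set.indicator_nonneg (fun x _ => hV0 x) x
    · simp only
      by_cases h3 : x ∈ ball (0 : ℂ) 3
      · have hg0 : 0 ≤ I x - a * w x ^ 2 := (hV0 x).trans (hVg x h3)
        have e : chi x * I x - a * (chi x * w x ^ 2) = chi x * (I x - a * w x ^ 2) := by ring
        rw [e]
        by_cases h2 : x ∈ ball (0 : ℂ) 2
        · rw [Set.indicator_of_mem h2]
          calc ∫ y in ball x r, (w y - m x) ^ 2 ≤ 1 * (I x - a * w x ^ 2) := by
                rw [one_mul]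
                exact hVg x h3
            _ ≤ chi x * (I x - a * w x ^ 2) := mul_le_mul_of_nonneg_right (chi_one h2) hg0
        · rw [Set.indicator_of_notMem h2]
          exact mul_nonneg (chi_nonneg x) hg0
      · have h2 : x ∉ ball (0 : ℂ) 2 := fun h => h3 (ball_subset_ball (by norm_num) h)
        rw [Set.indicator_of_notMem h2, chi_zero h3]
        simp
  -- the second estimate
  have h2 : ∫ x, (chi x * I x - a * (chi x * w x ^ 2)) =
      ∫ y, (w y ^ 2 * (∫ x, (ball y r).indicator chi x) - a * (chi y * w y ^ 2)) := by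
    rw [integral_sub hi1 (hi3.const_mul a), integral_sub hi2 (hi3.const_mul a), hswap]
  have h3 : ∫ y, (w y ^ 2 * (∫ x, (ball y r).indicator chi x) - a * (chi y * w y ^ 2)) ≤
      ∫ y, (closedBall (0 : ℂ) 4).indicator (fun _ => 81 / 16 * (Real.pi * r ^ 4)) y := by
    refine integral_mono (hi2.sub (hi3.const_mul a)) ?_ fun y => ?_
    · rw [integrable_indicator_iff measurableSet_closedBall]
      exact integrableOn_const measure_closedBall_lt_top.ne
    · simp only
      by_cases hy : y ∈ closedBall (0 : ℂ) 4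
      · rw [Set.indicator_of_mem hy]
        have hJ := J_le hr hr1 (mem_closedBall_zero_iff.mp hy)
        rw [← ha] at hJ
        have hc : 0 ≤ 81 / 16 * (Real.pi * r ^ 4) := by positivity
        have hw0 : 0 ≤ w y ^ 2 := sq_nonneg _
        have hw1 : w y ^ 2 ≤ 1 := pow_le_one₀ (hb y).1 (hb y).2
        calc w y ^ 2 * (∫ x, (ball y r).indicator chi x) - a * (chi y * w y ^ 2)
            = w y ^ 2 * ((∫ x, (ball y r).indicator chi x) - a * chi y) := by ring
          _ ≤ w y ^ 2 * (81 / 16 * (Real.pi * r ^ 4)) :=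
            mul_le_mul_of_nonneg_left (by linarith) hw0
          _ ≤ 81 / 16 * (Real.pi * r ^ 4) := mul_le_of_le_one_left hc hw1
      · rw [Set.indicator_of_notMem hy]
        have hy' : 4 < ‖y‖ := by
          rw [mem_closedBall_zero_iff, not_le] at hy
          exact hy
        have e1 : ∫ x, (ball y r).indicator chi x = 0 := by
          refine integral_eq_zero_of_ae (ae_of_all _ fun x => ?_)
          show (ball y r).indicator chi x = 0
          by_cases h : x ∈ ball y r
          · rw [Set.indicator_of_mem h]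
            refine chi_zero ?_
            rw [mem_ball_zero_iff, not_lt]
            rw [mem_ball, dist_eq_norm] at h
            have := norm_sub_norm_le y x
            rw [norm_sub_rev] at this
            linarith
          · exact Set.indicator_of_notMem h _
        have e2 : chi y = 0 := chi_zero (by
          rw [mem_ball_zero_iff, not_lt]
          linarith)
        rw [e1, e2]
        simp
  have hvol4 : (volume : Measure ℂ).real (closedBall 0 4) = 16 * Real.pi := by
    rw [Measure.real, Complex.volume_closedBall, ENNReal.toReal_mul, ENNReal.toReal_pow,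
      ENNReal.toReal_ofReal (by norm_num)]
    simp only [ENNReal.coe_toReal, NNReal.coe_real_pi]
    norm_num
  rw [integral_indicator measurableSet_closedBall, setIntegral_const, hvol4, smul_eq_mul] at h3
  calc ∫ x in ball (0 : ℂ) 2, (∫ y in ball x r, (w y - m x) ^ 2)
      ≤ 16 * Real.pi * (81 / 16 * (Real.pi * r ^ 4)) := h1.trans (h2 ▸ h3)
    _ = 81 * Real.pi ^ 2 * r ^ 4 := by ring

end Pool.Agent.Q73.AD
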