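import Pool.Agent.Q73.AD.Stm

/-! Project AD (helper73), job AD-14: oscillation on small discs from the mean square oscillation. -/

set_option autoImplicit false

open MeasureTheory Filter Topology Complex Metric Set Function
open scoped ContDiff

namespace Pool.Agent.Q73.AD

open Pool.Agent.Q73.NL

lemma p2_vol (p : ℂ) (δ : ℝ) (hδ : 0 ≤ δ) : (volume : Measure ℂ).real (ball p δ) = Real.pi * δ ^ 2 := by
  rw [Measure.real, Complex.volume_ball, ENNReal.toReal_mul, ENNReal.toReal_pow,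
    ENNReal.toReal_ofReal hδ]
  simp [mul_comm]

lemma p2_fin (p : ℂ) (δ : ℝ) : (volume : Measure ℂ) (ball p δ) ≠ ⊤ := measure_ball_lt_top.ne

lemma p2_intOn {f : ℂ → ℝ} (hf : Measurable f) (B : ℝ) (hb : ∀ x, |f x| ≤ B) (p : ℂ) (δ : ℝ) :
    IntegrableOn f (ball p δ) :=
  Measure.integrableOn_of_bounded (M := B) (p2_fin p δ) hf.aestronglyMeasurable
    (Eventually.of_forall fun x => by rw [Real.norm_eq_abs]; exact hb x)

/-- the basic estimate -/
lemma p2_key (w : ℂ → ℝ) (hw : Measurable w) (hb : ∀ x, 0 ≤ w x ∧ w x ≤ 1) (y p : ℂ)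
    (r δ μ l : ℝ) (hδ : 0 < δ) (hsub : ball p δ ⊆ ball y r) (hl : 0 < l) (ε : ℝ)
    (hε : ε = 1 ∨ ε = -1) :
    ε * ∫ z in ball p δ, (w z - μ) ≤
      l * (Real.pi * δ ^ 2) / 2 + (∫ z in ball y r, (w z - μ) ^ 2) / (2 * l) := by
  have hbd : ∀ x, |w x - μ| ≤ 1 + |μ| := by
    intro x
    have h1 := abs_sub (w x) μ
    have h2 : |w x| ≤ 1 := by rw [abs_of_nonneg (hb x).1]; exact (hb x).2
    linarith
  have hm : Measurable fun z => w z - μ := hw.sub_const μ
  have hm2 : Measurable fun z => (w z - μ) ^ 2 := hm.pow_const 2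
  have hbd2 : ∀ x, |(w x - μ) ^ 2| ≤ (1 + |μ|) ^ 2 := by
    intro x
    rw [abs_pow]
    have := hbd x
    have h0 := abs_nonneg (w x - μ)
    nlinarith
  have i1 : IntegrableOn (fun z => w z - μ) (ball p δ) := p2_intOn hm _ hbd p δ
  have i2 : IntegrableOn (fun z => (w z - μ) ^ 2) (ball p δ) := p2_intOn hm2 _ hbd2 p δ
  have i3 : IntegrableOn (fun z => (w z - μ) ^ 2) (ball y r) := p2_intOn hm2 _ hbd2 y r
  rw [← integral_const_mul]
  have h1 : ∫ z in ball p δ, ε * (w z - μ) ≤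
      ∫ z in ball p δ, (l / 2 + 1 / (2 * l) * (w z - μ) ^ 2) := by
    refine integral_mono (i1.const_mul ε) ?_ fun z => ?_
    · refine Integrable.add ?_ (i2.const_mul _)
      exact integrableOn_const (hs := p2_fin p δ)
    · simp only
      have h2 : ε ^ 2 = 1 := by rcases hε with h | h <;> rw [h] <;> norm_num
      have h3 : 0 ≤ (l - ε * (w z - μ)) ^ 2 := sq_nonneg _
      have h4 : ε * (w z - μ) * (2 * l) ≤ (l / 2 + 1 / (2 * l) * (w z - μ) ^ 2) * (2 * l) := by
        have e : (l / 2 + 1 / (2 * l) * (w z - μ) ^ 2) * (2 * l) = l ^ 2 + (w z - μ) ^ 2 := by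
          field_simp
        rw [e]
        nlinarith
      exact le_of_mul_le_mul_right h4 (by positivity)
  refine h1.trans ?_
  have i4 : Integrable (fun _ : ℂ => l / 2) (volume.restrict (ball p δ)) :=
    integrableOn_const (hs := p2_fin p δ)
  have i5 : Integrable (fun z : ℂ => 1 / (2 * l) * (w z - μ) ^ 2) (volume.restrict (ball p δ)) :=
    i2.const_mul _
  rw [integral_add i4 i5, setIntegral_const,
    integral_const_mul, p2_vol p δ hδ.le, smul_eq_mul]
  have h5 : ∫ z in ball p δ, (w z - μ) ^ 2 ≤ ∫ z in ball y r, (w z - μ) ^ 2 :=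
    setIntegral_mono_set i3 (Eventually.of_forall fun z => sq_nonneg _)
      (Eventually.of_forall hsub)
  have h6 : 1 / (2 * l) * ∫ z in ball p δ, (w z - μ) ^ 2 ≤
      (∫ z in ball y r, (w z - μ) ^ 2) / (2 * l) := by
    rw [one_div, inv_mul_eq_div]
    gcongr
  linarith

/-- measurability of integrals over moving balls -/
lemma p2_meas (f : ℂ → ℂ → ℝ) (hf : Measurable (uncurry f)) (r : ℝ) :
    StronglyMeasurable fun y => ∫ z in ball y r, f y z := by
  have h1 : (fun y => ∫ z in ball y r, f y z) =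
      fun y => ∫ z, ({p : ℂ × ℂ | dist p.2 p.1 < r}.indicator (uncurry f)) (y, z) := by
    funext y
    rw [← integral_indicator measurableSet_ball]
    rfl
  rw [h1]
  have h2 : MeasurableSet {p : ℂ × ℂ | dist p.2 p.1 < r} :=
    (isOpen_lt (continuous_snd.dist continuous_fst) continuous_const).measurableSet
  exact (hf.indicator h2).stronglyMeasurable.integral_prod_right'

lemma p2_cen (M : ℕ) (hM : 0 < M) (a : Fin M × Fin M) : ‖cen M a‖ + 1 / (M : ℝ) ≤ 2 := by
  have hM' : (1 : ℝ) ≤ M := by exact_mod_cast hM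
  have h0 : (0 : ℝ) < M := by linarith
  have h1 : ∀ i : Fin M, |-1 + (2 * (i : ℝ) + 1) / M| ≤ 1 - 1 / M := by
    intro i
    have hi : ((i : ℕ) : ℝ) + 1 ≤ M := by exact_mod_cast i.2
    have hi0 : (0 : ℝ) ≤ ((i : ℕ) : ℝ) := Nat.cast_nonneg _
    rw [abs_le]
    constructor
    · have : 1 / (M : ℝ) ≤ (2 * (i : ℝ) + 1) / M := by gcongr; linarith
      linarith
    · have : (2 * (i : ℝ) + 1) / M ≤ (2 * M - 1) / M := by gcongr; linarith
      have e : (2 * (M : ℝ) - 1) / M = 2 - 1 / M := by field_simp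
      linarith
  have h2 : ‖cen M a‖ ^ 2 ≤ 2 * (1 - 1 / (M : ℝ)) ^ 2 := by
    rw [← normSq_eq_norm_sq, normSq_apply]
    have e1 : (cen M a).re = -1 + (2 * (a.1 : ℝ) + 1) / M := rfl
    have e2 : (cen M a).im = -1 + (2 * (a.2 : ℝ) + 1) / M := rfl
    have h3 := h1 a.1
    have h4 := h1 a.2
    rw [e1, e2]
    have h5 := abs_nonneg (-1 + (2 * (a.1 : ℝ) + 1) / M)
    have h6 := abs_nonneg (-1 + (2 * (a.2 : ℝ) + 1) / M)
    have h7 : (-1 + (2 * (a.1 : ℝ) + 1) / M) ^ 2 ≤ (1 - 1 / (M : ℝ)) ^ 2 := by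
      rw [← sq_abs]; gcongr
    have h8 : (-1 + (2 * (a.2 : ℝ) + 1) / M) ^ 2 ≤ (1 - 1 / (M : ℝ)) ^ 2 := by
      rw [← sq_abs]; gcongr
    nlinarith
  have h9 : 1 / (M : ℝ) ≤ 1 := by rw [div_le_one h0]; exact hM'
  have h10 : 0 < 1 / (M : ℝ) := by positivity
  set u := 1 / (M : ℝ)
  by_contra hc
  push Not at hc
  have h11 : (2 - u) ^ 2 < ‖cen M a‖ ^ 2 := by
    have : 0 ≤ 2 - u := by linarith
    gcongr
    linarith
  nlinarith

lemma p2_cen_sep (M : ℕ) (hM : 0 < M) (a b : Fin M × Fin M) (h : a ≠ b) :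
    2 / (M : ℝ) ≤ dist (cen M a) (cen M b) := by
  have h0 : (0 : ℝ) < M := by exact_mod_cast hM
  have key : ∀ i j : Fin M, i ≠ j → 2 / (M : ℝ) ≤
      |(-1 + (2 * (i : ℝ) + 1) / M) - (-1 + (2 * (j : ℝ) + 1) / M)| := by
    intro i j hij
    have e : (-1 + (2 * (i : ℝ) + 1) / M) - (-1 + (2 * (j : ℝ) + 1) / M) =
        2 / M * ((i : ℝ) - j) := by field_simp; ring
    rw [e, abs_mul, abs_of_pos (by positivity : (0 : ℝ) < 2 / M)]
    have h1 : (1 : ℝ) ≤ |((i : ℕ) : ℝ) - ((j : ℕ) : ℝ)| := by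
      have hne : ((i : ℕ) : ℤ) - ((j : ℕ) : ℤ) ≠ 0 := by
        intro h2
        apply hij
        ext
        omega
      have := Int.one_le_abs hne
      have e2 : |((i : ℕ) : ℝ) - ((j : ℕ) : ℝ)| = ((|((i : ℕ) : ℤ) - ((j : ℕ) : ℤ)| : ℤ) : ℝ) := by
        push_cast
        rfl
      rw [e2]
      exact_mod_cast this
    have h2 : (0 : ℝ) < 2 / M := by positivity
    nlinarith
  rw [dist_eq_norm]
  by_cases h1 : a.1 = b.1
  · have h2 : a.2 ≠ b.2 := fun h3 => h (Prod.ext h1 h3)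
    refine (key a.2 b.2 h2).trans ?_
    exact abs_im_le_norm (cen M a - cen M b)
  · refine (key a.1 b.1 h1).trans ?_
    exact abs_re_le_norm (cen M a - cen M b)

theorem tp2 (h1 : P1) : P2 := by
  obtain ⟨C1, hC1, hP⟩ := h1
  intro K hK
  refine ⟨K + 3 + 1 / 2 + 2 * C1 * (K + 3) ^ 4 / Real.pi ^ 2, by positivity, ?_⟩
  intro M w s t hCM hw hb hmv hs ht
  have hpi := Real.pi_pos
  have hpos : 0 ≤ 2 * C1 * (K + 3) ^ 4 / Real.pi ^ 2 := by positivity
  have hMr : K + 3 ≤ (M : ℝ) := by linarith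
  have hM0 : (0 : ℝ) < M := by linarith
  have hM : 0 < M := by exact_mod_cast hM0
  set r : ℝ := (K + 3) / M with hr
  have hr0 : 0 < r := by positivity
  have hr1 : r ≤ 1 := by rw [hr, div_le_one hM0]; exact hMr
  set δ : ℝ := 1 / (M : ℝ) with hδ
  have hδ0 : 0 < δ := by positivity
  have hδ1 : δ ≤ 1 := by rw [hδ, div_le_one hM0]; linarith
  set β : ℝ := Real.pi * δ ^ 2 with hβ
  have hβ0 : 0 < β := by positivity
  set m : ℂ → ℝ := fun x => (∫ t in ball x r, w t) / (Real.pi * r ^ 2) with hm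
  set V : ℂ → ℝ := fun x => ∫ y in ball x r, (w y - m x) ^ 2 with hV
  have hV1 : ∫ x in ball (0 : ℂ) 2, V x ≤ C1 * r ^ 4 :=
    hP w r hr0 hr1 hw hb fun x hx => hmv x r hx hr0 hr1
  have hmm : Measurable m := by
    have h2 : Measurable fun x => ∫ t in ball x r, w t :=
      (p2_meas (fun _ z => w z) (hw.comp measurable_snd) r).measurable
    exact h2.div_const _
  have hVm : StronglyMeasurable V := by
    refine p2_meas (fun x y => (w y - m x) ^ 2) ?_ r
    exact ((hw.comp measurable_snd).sub (hmm.comp measurable_fst)).pow_const 2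
  have hm01 : ∀ x, 0 ≤ m x ∧ m x ≤ 1 := by
    intro x
    have i0 : IntegrableOn w (ball x r) :=
      p2_intOn hw 1 (fun x => by rw [abs_of_nonneg (hb x).1]; exact (hb x).2) x r
    constructor
    · exact div_nonneg (integral_nonneg fun z => (hb z).1) (by positivity)
    · simp only [hm]
      rw [div_le_one (by positivity)]
      have h2 : ∫ t in ball x r, w t ≤ ∫ _t in ball x r, (1 : ℝ) :=
        integral_mono i0 (integrableOn_const (hs := p2_fin x r)) fun z => (hb z).2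
      rw [setIntegral_const, p2_vol x r hr0.le, smul_eq_mul, mul_one] at h2
      exact h2
  have hV0 : ∀ x, 0 ≤ V x := fun x => integral_nonneg fun z => sq_nonneg _
  have hVb : ∀ x, |V x| ≤ Real.pi * r ^ 2 := by
    intro x
    rw [abs_of_nonneg (hV0 x)]
    have hmeas : Measurable fun y => (w y - m x) ^ 2 := (hw.sub_const _).pow_const 2
    have hle : ∀ y, (w y - m x) ^ 2 ≤ 1 := by
      intro y
      have h2 := hb y
      have h3 := hm01 x
      nlinarith
    have i0 : IntegrableOn (fun y => (w y - m x) ^ 2) (ball x r) :=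
      p2_intOn hmeas 1 (fun y => by rw [abs_of_nonneg (sq_nonneg _)]; exact hle y) x r
    have h2 : ∫ y in ball x r, (w y - m x) ^ 2 ≤ ∫ _y in ball x r, (1 : ℝ) :=
      integral_mono i0 (integrableOn_const (hs := p2_fin x r)) hle
    rw [setIntegral_const, p2_vol x r hr0.le, smul_eq_mul, mul_one] at h2
    exact h2
  have hVi : ∀ (p : ℂ) (d : ℝ), IntegrableOn V (ball p d) := fun p d =>
    p2_intOn hVm.measurable _ hVb p d
  -- the pointwise bound
  have hpt : ∀ a, ∀ y ∈ ball (cen M a) δ, (max (s a - t a) 0) ^ 2 * β ≤ 4 * V y := by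
    intro a y hy
    rcases le_or_gt (s a - t a) 0 with hneg | hσ
    · rw [max_eq_right hneg]
      have := hV0 y
      nlinarith
    rw [max_eq_left hσ.le]
    set σ := s a - t a with hσd
    obtain ⟨x, hx, hsx⟩ := hs a
    rw [mem_ball] at hy
    rw [mem_closedBall] at hx
    have e1 : K / (M : ℝ) + 3 * δ = r := by rw [hδ, hr]; ring
    have hsub1 : ball x δ ⊆ ball y r := by
      intro z hz
      rw [mem_ball] at hz ⊢
      have h2 := dist_triangle4 z x (cen M a) y
      rw [dist_comm (cen M a) y] at h2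
      linarith
    have hsub2 : ball (cen M a) δ ⊆ ball y r := by
      intro z hz
      rw [mem_ball] at hz ⊢
      have h2 := dist_triangle z (cen M a) y
      rw [dist_comm (cen M a) y] at h2
      have : 0 ≤ K / (M : ℝ) := by positivity
      linarith
    have hx3 : x ∈ ball (0 : ℂ) 3 := by
      rw [mem_ball, dist_zero_right]
      have h2 := p2_cen M hM a
      have h3 : ‖x‖ ≤ dist x (cen M a) + ‖cen M a‖ := by
        rw [dist_eq_norm]
        have e : x = (x - cen M a) + cen M a := by ring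
        conv_lhs => rw [e]
        exact norm_add_le _ _
      linarith
    have i0 : ∀ p : ℂ, IntegrableOn w (ball p δ) := fun p =>
      p2_intOn hw 1 (fun x => by rw [abs_of_nonneg (hb x).1]; exact (hb x).2) p δ
    have e2 : ∀ p : ℂ, ∫ z in ball p δ, (w z - m y) = (∫ z in ball p δ, w z) - m y * β := by
      intro p
      rw [integral_sub (i0 p) (integrableOn_const (hs := p2_fin p δ)), setIntegral_const,
        p2_vol p δ hδ0.le, smul_eq_mul]
      ring
    have h4 : s a * β ≤ ∫ z in ball x δ, w z :=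
      (mul_le_mul_of_nonneg_right hsx hβ0.le).trans (hmv x δ hx3 hδ0 hδ1)
    have h5 : ∫ z in ball (cen M a) δ, w z ≤ t a * β := by
      have h6 : ∫ z in ball (cen M a) δ, w z ≤ ∫ _z in ball (cen M a) δ, t a :=
        setIntegral_mono_on (i0 _) (integrableOn_const (hs := p2_fin _ δ)) measurableSet_ball
          fun z hz => ht a z hz
      rw [setIntegral_const, p2_vol _ δ hδ0.le, smul_eq_mul] at h6
      linarith
    have k1 := p2_key w hw hb y x r δ (m y) (σ / 2) hδ0 hsub1 (by positivity) 1 (Or.inl rfl)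
    have k2 := p2_key w hw hb y (cen M a) r δ (m y) (σ / 2) hδ0 hsub2 (by positivity) (-1)
      (Or.inr rfl)
    rw [e2] at k1 k2
    have e3 : (∫ z in ball y r, (w z - m y) ^ 2) = V y := rfl
    rw [e3] at k1 k2
    have e4 : V y / (2 * (σ / 2)) = V y / σ := by congr 1; ring
    rw [e4] at k1 k2
    have k3 : σ * β ≤ σ / 2 * β + 2 * (V y / σ) := by
      rw [hσd]
      rw [hσd] at k1 k2
      nlinarith
    have k4 : σ * (σ * β) ≤ σ * (σ / 2 * β + 2 * (V y / σ)) := mul_le_mul_of_nonneg_left k3 hσ.le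
    have e5 : σ * (σ / 2 * β + 2 * (V y / σ)) = σ ^ 2 * β / 2 + 2 * V y := by
      field_simp
    rw [e5] at k4
    nlinarith
  -- integrate
  have hsum1 : ∀ a, (max (s a - t a) 0) ^ 2 * β ^ 2 ≤ 4 * ∫ y in ball (cen M a) δ, V y := by
    intro a
    have h2 : ∫ _y in ball (cen M a) δ, (max (s a - t a) 0) ^ 2 * β ≤
        ∫ y in ball (cen M a) δ, 4 * V y :=
      setIntegral_mono_on (integrableOn_const (hs := p2_fin _ δ)) ((hVi _ _).const_mul 4)
        measurableSet_ball (hpt a)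
    rw [setIntegral_const, p2_vol _ δ hδ0.le, smul_eq_mul, integral_const_mul] at h2
    calc (max (s a - t a) 0) ^ 2 * β ^ 2 = Real.pi * δ ^ 2 * ((max (s a - t a) 0) ^ 2 * β) := by
          rw [hβ]; ring
      _ ≤ _ := h2
  have hdisj : Pairwise (Disjoint on fun a : Fin M × Fin M => ball (cen M a) δ) := by
    intro a b hab
    refine ball_disjoint_ball ?_
    have := p2_cen_sep M hM a b hab
    have e : δ + δ = 2 / (M : ℝ) := by rw [hδ]; ring
    rw [e]
    exact this
  have hsum2 : ∑ a, ∫ y in ball (cen M a) δ, V y ≤ ∫ x in ball (0 : ℂ) 2, V x := by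
    rw [← integral_iUnion_fintype (fun a => measurableSet_ball) hdisj fun a => hVi _ _]
    refine setIntegral_mono_set (hVi 0 2) (Eventually.of_forall fun z => hV0 z)
      (Eventually.of_forall ?_)
    refine iUnion_subset fun a => ?_
    refine ball_subset_ball' ?_
    rw [dist_zero_right, add_comm]
    exact p2_cen M hM a
  have hsum3 : (∑ a, (max (s a - t a) 0) ^ 2) * β ^ 2 ≤ 4 * (C1 * r ^ 4) := by
    rw [Finset.sum_mul]
    calc ∑ a, (max (s a - t a) 0) ^ 2 * β ^ 2 ≤ ∑ a, 4 * ∫ y in ball (cen M a) δ, V y :=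
          Finset.sum_le_sum fun a _ => hsum1 a
      _ = 4 * ∑ a, ∫ y in ball (cen M a) δ, V y := by rw [Finset.mul_sum]
      _ ≤ 4 * (C1 * r ^ 4) := by linarith
  have hsum4 : ∑ a, (max (s a - t a) 0) ^ 2 ≤ 4 * C1 * (K + 3) ^ 4 / Real.pi ^ 2 := by
    have e1 : β ^ 2 = Real.pi ^ 2 / M ^ 4 := by rw [hβ, hδ]; field_simp
    have e2 : r ^ 4 = (K + 3) ^ 4 / M ^ 4 := by rw [hr, div_pow]
    rw [e1, e2] at hsum3
    have h2 : (0 : ℝ) < (M : ℝ) ^ 4 := by positivity
    have h3 := mul_le_mul_of_nonneg_right hsum3 h2.le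
    have e3 : (∑ a, (max (s a - t a) 0) ^ 2) * (Real.pi ^ 2 / (M : ℝ) ^ 4) * (M : ℝ) ^ 4 =
        (∑ a, (max (s a - t a) 0) ^ 2) * Real.pi ^ 2 := by field_simp
    have e4 : 4 * (C1 * ((K + 3) ^ 4 / (M : ℝ) ^ 4)) * (M : ℝ) ^ 4 = 4 * C1 * (K + 3) ^ 4 := by
      field_simp
    rw [e3, e4] at h3
    rw [le_div_iff₀ (by positivity)]
    exact h3
  calc ∑ a, (s a - t a) ≤ ∑ a : Fin M × Fin M, (1 / (2 * (M : ℝ)) +
        (M : ℝ) / 2 * (max (s a - t a) 0) ^ 2) := by
        refine Finset.sum_le_sum fun a _ => ?_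
        have h2 : s a - t a ≤ max (s a - t a) 0 := le_max_left _ _
        set u := max (s a - t a) 0
        have h3 : 0 ≤ (1 / (M : ℝ) - u) ^ 2 := sq_nonneg _
        have h4 : u ≤ 1 / (2 * (M : ℝ)) + (M : ℝ) / 2 * u ^ 2 := by
          have e : 1 / (2 * (M : ℝ)) + (M : ℝ) / 2 * u ^ 2 - u = (M : ℝ) / 2 * (1 / (M : ℝ) - u) ^ 2 := by
            field_simp
            ring
          have : 0 ≤ (M : ℝ) / 2 * (1 / (M : ℝ) - u) ^ 2 := by positivity
          linarith
        linarith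
    _ = (M : ℝ) / 2 + (M : ℝ) / 2 * ∑ a, (max (s a - t a) 0) ^ 2 := by
        rw [Finset.sum_add_distrib, ← Finset.mul_sum, Finset.sum_const, Finset.card_univ,
          Fintype.card_prod, Fintype.card_fin, nsmul_eq_mul]
        push_cast
        congr 1
        field_simp
    _ ≤ (M : ℝ) / 2 + (M : ℝ) / 2 * (4 * C1 * (K + 3) ^ 4 / Real.pi ^ 2) := by gcongr
    _ = (1 / 2 + 2 * C1 * (K + 3) ^ 4 / Real.pi ^ 2) * M := by ring
    _ ≤ (K + 3 + 1 / 2 + 2 * C1 * (K + 3) ^ 4 / Real.pi ^ 2) * M := by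
        gcongr
        linarith

end Pool.Agent.Q73.AD
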