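import Pool.Agent.Q73.AD.TP2
import Pool.Agent.Q73.AD.StmL

/-! Project AD (helper73), job AD-14L: mean square oscillation on small discs (adapted from TP2,
helper198, by helper211). -/

set_option autoImplicit false

open MeasureTheory Filter Topology Complex Metric Set Function
open scoped ContDiff

namespace Pool.Agent.Q73.AD

open Pool.Agent.Q73.NL

theorem tp2L (h1 : P1) : P2L := by
  obtain ⟨C1, hC1, hP⟩ := h1
  intro K hK
  refine ⟨K + 3 + 4 * C1 * (K + 3) ^ 4 / Real.pi ^ 2, by positivity, ?_⟩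
  intro M w s t hCM hw hb hmv hs ht
  have hpi := Real.pi_pos
  have hpos : 0 ≤ 4 * C1 * (K + 3) ^ 4 / Real.pi ^ 2 := by positivity
  have hMr : K + 3 ≤ (M : ℝ) := by linarith
  have hM0 : (0 : ℝ) < M := by linarith
  have hM : 0 < M := by exact_mod_cast hM0
  set r : ℝ := (K + 3) / M with hr
  have hr0 : 0 < r := by positivity
  have hr1 : r ≤ 1 := by rw [hr, div_le_one hM0]; exact hMr
  set δ : ℝ := 1 / (M : ℝ) with hδ
  have hδ0 : 0 < δ := by positivity
  have hδ1 : δ ≤ 1 := by rw [hδ, div_le_one hM0]; linarith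
  set β : ℝ := Real.pi * δ ^ 2 with hβ
  have hβ0 : 0 < β := by positivity
  set m : ℂ → ℝ := fun x => (∫ t in ball x r, w t) / (Real.pi * r ^ 2) with hm
  set V : ℂ → ℝ := fun x => ∫ y in ball x r, (w y - m x) ^ 2 with hV
  have hV1 : ∫ x in ball (0 : ℂ) 2, V x ≤ C1 * r ^ 4 :=
    hP w r hr0 hr1 hw hb fun x hx => hmv x r hx hr0 hr1
  have hmm : Measurable m := by
    have h2 : Measurable fun x => ∫ t in ball x r, w t :=
      (p2_meas (fun _ z => w z) (hw.comp measurable_snd) r).measurable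
    exact h2.div_const _
  have hVm : StronglyMeasurable V := by
    refine p2_meas (fun x y => (w y - m x) ^ 2) ?_ r
    exact ((hw.comp measurable_snd).sub (hmm.comp measurable_fst)).pow_const 2
  have hm01 : ∀ x, 0 ≤ m x ∧ m x ≤ 1 := by
    intro x
    have i0 : IntegrableOn w (ball x r) :=
      p2_intOn hw 1 (fun x => by rw [abs_of_nonneg (hb x).1]; exact (hb x).2) x r
    constructor
    · exact div_nonneg (integral_nonneg fun z => (hb z).1) (by positivity)
    · simp only [hm]
      rw [div_le_one (by positivity)]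
      have h2 : ∫ t in ball x r, w t ≤ ∫ _t in ball x r, (1 : ℝ) :=
        integral_mono i0 (integrableOn_const (hs := p2_fin x r)) fun z => (hb z).2
      rw [setIntegral_const, p2_vol x r hr0.le, smul_eq_mul, mul_one] at h2
      exact h2
  have hV0 : ∀ x, 0 ≤ V x := fun x => integral_nonneg fun z => sq_nonneg _
  have hVb : ∀ x, |V x| ≤ Real.pi * r ^ 2 := by
    intro x
    rw [abs_of_nonneg (hV0 x)]
    have hmeas : Measurable fun y => (w y - m x) ^ 2 := (hw.sub_const _).pow_const 2
    have hle : ∀ y, (w y - m x) ^ 2 ≤ 1 := by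
      intro y
      have h2 := hb y
      have h3 := hm01 x
      nlinarith
    have i0 : IntegrableOn (fun y => (w y - m x) ^ 2) (ball x r) :=
      p2_intOn hmeas 1 (fun y => by rw [abs_of_nonneg (sq_nonneg _)]; exact hle y) x r
    have h2 : ∫ y in ball x r, (w y - m x) ^ 2 ≤ ∫ _y in ball x r, (1 : ℝ) :=
      integral_mono i0 (integrableOn_const (hs := p2_fin x r)) hle
    rw [setIntegral_const, p2_vol x r hr0.le, smul_eq_mul, mul_one] at h2
    exact h2
  have hVi : ∀ (p : ℂ) (d : ℝ), IntegrableOn V (ball p d) := fun p d =>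
    p2_intOn hVm.measurable _ hVb p d
  -- the pointwise bound
  have hpt : ∀ a, ∀ y ∈ ball (cen M a) δ, (max (s a - t a) 0) ^ 2 * β ≤ 4 * V y := by
    intro a y hy
    rcases le_or_gt (s a - t a) 0 with hneg | hσ
    · rw [max_eq_right hneg]
      have := hV0 y
      nlinarith
    rw [max_eq_left hσ.le]
    set σ := s a - t a with hσd
    obtain ⟨x, hx, hsx⟩ := hs a
    rw [mem_ball] at hy
    rw [mem_closedBall] at hx
    have e1 : K / (M : ℝ) + 3 * δ = r := by rw [hδ, hr]; ring
    have hsub1 : ball x δ ⊆ ball y r := by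
      intro z hz
      rw [mem_ball] at hz ⊢
      have h2 := dist_triangle4 z x (cen M a) y
      rw [dist_comm (cen M a) y] at h2
      linarith
    have hsub2 : ball (cen M a) δ ⊆ ball y r := by
      intro z hz
      rw [mem_ball] at hz ⊢
      have h2 := dist_triangle z (cen M a) y
      rw [dist_comm (cen M a) y] at h2
      have : 0 ≤ K / (M : ℝ) := by positivity
      linarith
    have hx3 : x ∈ ball (0 : ℂ) 3 := by
      rw [mem_ball, dist_zero_right]
      have h2 := p2_cen M hM a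
      have h3 : ‖x‖ ≤ dist x (cen M a) + ‖cen M a‖ := by
        rw [dist_eq_norm]
        have e : x = (x - cen M a) + cen M a := by ring
        conv_lhs => rw [e]
        exact norm_add_le _ _
      linarith
    have i0 : ∀ p : ℂ, IntegrableOn w (ball p δ) := fun p =>
      p2_intOn hw 1 (fun x => by rw [abs_of_nonneg (hb x).1]; exact (hb x).2) p δ
    have e2 : ∀ p : ℂ, ∫ z in ball p δ, (w z - m y) = (∫ z in ball p δ, w z) - m y * β := by
      intro p
      rw [integral_sub (i0 p) (integrableOn_const (hs := p2_fin p δ)), setIntegral_const,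
        p2_vol p δ hδ0.le, smul_eq_mul]
      ring
    have h4 : s a * β ≤ ∫ z in ball x δ, w z :=
      (mul_le_mul_of_nonneg_right hsx hβ0.le).trans (hmv x δ hx3 hδ0 hδ1)
    have h5 : ∫ z in ball (cen M a) δ, w z ≤ t a * β := by
      have h6 : ∫ z in ball (cen M a) δ, w z ≤ ∫ _z in ball (cen M a) δ, t a :=
        setIntegral_mono_on (i0 _) (integrableOn_const (hs := p2_fin _ δ)) measurableSet_ball
          fun z hz => ht a z hz
      rw [setIntegral_const, p2_vol _ δ hδ0.le, smul_eq_mul] at h6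
      linarith
    have k1 := p2_key w hw hb y x r δ (m y) (σ / 2) hδ0 hsub1 (by positivity) 1 (Or.inl rfl)
    have k2 := p2_key w hw hb y (cen M a) r δ (m y) (σ / 2) hδ0 hsub2 (by positivity) (-1)
      (Or.inr rfl)
    rw [e2] at k1 k2
    have e3 : (∫ z in ball y r, (w z - m y) ^ 2) = V y := rfl
    rw [e3] at k1 k2
    have e4 : V y / (2 * (σ / 2)) = V y / σ := by congr 1; ring
    rw [e4] at k1 k2
    have k3 : σ * β ≤ σ / 2 * β + 2 * (V y / σ) := by
      rw [hσd]
      rw [hσd] at k1 k2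
      nlinarith
    have k4 : σ * (σ * β) ≤ σ * (σ / 2 * β + 2 * (V y / σ)) := mul_le_mul_of_nonneg_left k3 hσ.le
    have e5 : σ * (σ / 2 * β + 2 * (V y / σ)) = σ ^ 2 * β / 2 + 2 * V y := by
      field_simp
    rw [e5] at k4
    nlinarith
  -- integrate
  have hsum1 : ∀ a, (max (s a - t a) 0) ^ 2 * β ^ 2 ≤ 4 * ∫ y in ball (cen M a) δ, V y := by
    intro a
    have h2 : ∫ _y in ball (cen M a) δ, (max (s a - t a) 0) ^ 2 * β ≤
        ∫ y in ball (cen M a) δ, 4 * V y :=
      setIntegral_mono_on (integrableOn_const (hs := p2_fin _ δ)) ((hVi _ _).const_mul 4)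
        measurableSet_ball (hpt a)
    rw [setIntegral_const, p2_vol _ δ hδ0.le, smul_eq_mul, integral_const_mul] at h2
    calc (max (s a - t a) 0) ^ 2 * β ^ 2 = Real.pi * δ ^ 2 * ((max (s a - t a) 0) ^ 2 * β) := by
          rw [hβ]; ring
      _ ≤ _ := h2
  have hdisj : Pairwise (Disjoint on fun a : Fin M × Fin M => ball (cen M a) δ) := by
    intro a b hab
    refine ball_disjoint_ball ?_
    have := p2_cen_sep M hM a b hab
    have e : δ + δ = 2 / (M : ℝ) := by rw [hδ]; ring
    rw [e]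
    exact this
  have hsum2 : ∑ a, ∫ y in ball (cen M a) δ, V y ≤ ∫ x in ball (0 : ℂ) 2, V x := by
    rw [← integral_iUnion_fintype (fun a => measurableSet_ball) hdisj fun a => hVi _ _]
    refine setIntegral_mono_set (hVi 0 2) (Eventually.of_forall fun z => hV0 z)
      (Eventually.of_forall ?_)
    refine iUnion_subset fun a => ?_
    refine ball_subset_ball' ?_
    rw [dist_zero_right, add_comm]
    exact p2_cen M hM a
  have hsum3 : (∑ a, (max (s a - t a) 0) ^ 2) * β ^ 2 ≤ 4 * (C1 * r ^ 4) := by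
    rw [Finset.sum_mul]
    calc ∑ a, (max (s a - t a) 0) ^ 2 * β ^ 2 ≤ ∑ a, 4 * ∫ y in ball (cen M a) δ, V y :=
          Finset.sum_le_sum fun a _ => hsum1 a
      _ = 4 * ∑ a, ∫ y in ball (cen M a) δ, V y := by rw [Finset.mul_sum]
      _ ≤ 4 * (C1 * r ^ 4) := by linarith
  have hsum4 : ∑ a, (max (s a - t a) 0) ^ 2 ≤ 4 * C1 * (K + 3) ^ 4 / Real.pi ^ 2 := by
    have e1 : β ^ 2 = Real.pi ^ 2 / M ^ 4 := by rw [hβ, hδ]; field_simp
    have e2 : r ^ 4 = (K + 3) ^ 4 / M ^ 4 := by rw [hr, div_pow]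
    rw [e1, e2] at hsum3
    have h2 : (0 : ℝ) < (M : ℝ) ^ 4 := by positivity
    have h3 := mul_le_mul_of_nonneg_right hsum3 h2.le
    have e3 : (∑ a, (max (s a - t a) 0) ^ 2) * (Real.pi ^ 2 / (M : ℝ) ^ 4) * (M : ℝ) ^ 4 =
        (∑ a, (max (s a - t a) 0) ^ 2) * Real.pi ^ 2 := by field_simp
    have e4 : 4 * (C1 * ((K + 3) ^ 4 / (M : ℝ) ^ 4)) * (M : ℝ) ^ 4 = 4 * C1 * (K + 3) ^ 4 := by
      field_simp
    rw [e3, e4] at h3
    rw [le_div_iff₀ (by positivity)]
    exact h3
  linarith

end Pool.Agent.Q73.AD
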