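import Pool.Agent.Q73.AD.StmR

/-!
# Job AD-22 (helper202): the geodesic distance is locally comparable with the Euclidean distance
-/

set_option autoImplicit false
open MeasureTheory Filter Topology Complex Metric
open scoped ContDiff

namespace Pool.Agent.Q73.AD

open Pool.Agent.Q73.NL

noncomputable section

universe u v

namespace TR1

/-- the test function: the distance of `w` in the chart, cut off at `r` -/
def GG {M : Type u} (φ : ℂ → M) (w : ℂ) (r : ℝ) (x : M) : ℝ :=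
  open Classical in
  if h : ∃ w' ∈ closedBall w r, φ w' = x then ‖h.choose - w‖ else r

theorem GG_phi {M : Type u} {φ : ℂ → M} {U : Set ℂ} {w : ℂ} {r : ℝ} (hinj : Set.InjOn φ U)
    (hsub : closedBall w r ⊆ U) {y : ℂ} (hy : y ∈ U) : GG φ w r (φ y) = min r ‖y - w‖ := by
  classical
  unfold GG
  split_ifs with h
  · have h1 := h.choose_spec
    have h2 : h.choose = y := hinj (hsub h1.1) hy h1.2
    rw [h2]
    have h3 : ‖y - w‖ ≤ r := by
      have h4 := h1.1
      rw [h2] at h4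
      exact mem_closedBall_iff_norm.1 h4
    rw [min_eq_right h3]
  · have h3 : r < ‖y - w‖ := by
      by_contra hcon
      exact h ⟨y, mem_closedBall_iff_norm.2 (not_lt.1 hcon), rfl⟩
    rw [min_eq_left h3.le]

theorem GG_out {M : Type u} {φ : ℂ → M} {w : ℂ} {r : ℝ} {x : M}
    (hx : x ∉ φ '' closedBall w r) : GG φ w r x = r := by
  classical
  unfold GG
  rw [dif_neg]
  rintro ⟨w', h1, h2⟩
  exact hx ⟨w', h1, h2⟩

variable {M : Type u} {ι : Type v} [MetricSpace M] {U : ι → Set ℂ} {φ : ι → ℂ → M}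
  {ρ : ι → ℂ → ℝ}

/-- the estimate for one piece -/
theorem piece (hR : Riem U φ ρ) (i : ι) {w : ℂ} {r m : ℝ} (hr : 0 < r) (hm : 0 < m)
    (hsub : closedBall w r ⊆ U i) (hρ : ∀ y ∈ closedBall w r, m ≤ Real.sqrt (ρ i y))
    (j : ι) (γ : ℝ → ℂ) (hγ : ContDiff ℝ 1 γ) (hγU : ∀ t ∈ Set.Icc (0 : ℝ) 1, γ t ∈ U j) :
    m * (GG (φ i) w r (φ j (γ 1)) - GG (φ i) w r (φ j (γ 0))) ≤
      ∫ t in (0 : ℝ)..1, Real.sqrt (ρ j (γ t)) * ‖deriv γ t‖ := by
  obtain ⟨g, hg⟩ : ∃ g : ℝ → ℝ, g = fun t => GG (φ i) w r (φ j (γ t)) := ⟨_, rfl⟩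
  obtain ⟨q, hq⟩ : ∃ q : ℝ → ℝ, q = fun t => Real.sqrt (ρ j (γ t)) * ‖deriv γ t‖ := ⟨_, rfl⟩
  have hγc : Continuous γ := hγ.continuous
  have hVo : IsOpen (γ ⁻¹' U j) := (hR.dom j).preimage hγc
  have hqc : ContinuousOn q (γ ⁻¹' U j) := by
    rw [hq]
    refine ContinuousOn.mul ?_ ?_
    · refine Real.continuous_sqrt.comp_continuousOn ?_
      exact ((hR.dens j).continuousOn).comp hγc.continuousOn (fun t ht => ht)
    · exact ((hγ.continuous_deriv le_rfl).norm).continuousOn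
  have hsubV : Set.Icc (0 : ℝ) 1 ⊆ γ ⁻¹' U j := hγU
  have hq0 : ∀ t, 0 ≤ q t := by
    intro t
    rw [hq]
    positivity
  have hxc : ∀ t ∈ Set.Icc (0 : ℝ) 1, ContinuousAt (fun t => φ j (γ t)) t := by
    intro t ht
    exact ContinuousAt.comp (f := γ) (g := φ j)
      ((hR.cont j).continuousAt ((hR.dom j).mem_nhds (hγU t ht))) hγc.continuousAt
  have hK : IsClosed (φ i '' closedBall w r) :=
    ((isCompact_closedBall w r).image_of_continuousOn ((hR.cont i).mono hsub)).isClosed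
  -- local description
  have hloc : ∀ t ∈ Set.Icc (0 : ℝ) 1, (∀ᶠ t' in 𝓝 t, g t' = r) ∨
      ∃ y : ℝ → ℂ, y t ∈ closedBall w r ∧ DifferentiableAt ℝ y t ∧
        (∀ᶠ t' in 𝓝 t, g t' = min r ‖y t' - w‖) ∧ m * ‖deriv y t‖ ≤ q t := by
    intro t ht
    by_cases hx : φ j (γ t) ∈ φ i '' closedBall w r
    · right
      obtain ⟨w', hw', he⟩ := hx
      obtain ⟨τ, h1, h2, h3, h4⟩ := hR.trans j i (γ t) (hγU t ht) w' (hsub hw') he.symm
      have hd : HasDerivAt (fun t' => τ (γ t')) (fderiv ℝ τ (γ t) (deriv γ t)) t :=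
        h3.hasFDerivAt.comp_hasDerivAt t
          ((hγ.differentiable one_ne_zero).differentiableAt.hasDerivAt)
      refine ⟨fun t' => τ (γ t'), ?_, hd.differentiableAt, ?_, ?_⟩
      · change τ (γ t) ∈ closedBall w r
        rw [h1]
        exact hw'
      · filter_upwards [hγc.continuousAt.eventually h2] with t' ht'
        rw [hg]
        change GG (φ i) w r (φ j (γ t')) = _
        rw [← ht'.2]
        exact GG_phi (hR.inj i) hsub ht'.1
      · rw [hd.deriv, hq]
        change m * ‖fderiv ℝ τ (γ t) (deriv γ t)‖ ≤ Real.sqrt (ρ j (γ t)) * ‖deriv γ t‖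
        have h5 := h4 (deriv γ t)
        have h6 : Real.sqrt (ρ i w') * ‖fderiv ℝ τ (γ t) (deriv γ t)‖ =
            Real.sqrt (ρ j (γ t)) * ‖deriv γ t‖ := by
          have h7 := congrArg Real.sqrt h5
          rwa [Real.sqrt_mul' _ (sq_nonneg _), Real.sqrt_mul' _ (sq_nonneg _),
            Real.sqrt_sq (norm_nonneg _), Real.sqrt_sq (norm_nonneg _)] at h7
        rw [← h6]
        exact mul_le_mul_of_nonneg_right (hρ w' hw') (norm_nonneg _)
    · left
      have h1 : ∀ᶠ t' in 𝓝 t, φ j (γ t') ∈ (φ i '' closedBall w r)ᶜ :=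
        (hxc t ht).eventually (hK.isOpen_compl.mem_nhds hx)
      filter_upwards [h1] with t' ht'
      rw [hg]
      exact GG_out ht'
  have hgc : ContinuousOn g (Set.Icc 0 1) := by
    intro t ht
    apply ContinuousAt.continuousWithinAt
    rcases hloc t ht with h | ⟨y, h1, h2, h3, _⟩
    · exact (continuousAt_const (y := r)).congr (h.mono fun _ h' => h'.symm)
    · have h4 : ContinuousAt (fun t' => min r ‖y t' - w‖) t :=
        continuousAt_const.min ((h2.continuousAt.sub continuousAt_const).norm)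
      exact h4.congr (h3.mono fun _ h' => h'.symm)
  have hqi : IntervalIntegrable q volume 0 1 := by
    refine ContinuousOn.intervalIntegrable ?_
    rw [Set.uIcc_of_le zero_le_one]
    exact hqc.mono hsubV
  have hB : ∀ t ∈ Set.Icc (0 : ℝ) 1, HasDerivAt (fun t => ∫ s in (0 : ℝ)..t, q s) (q t) t := by
    intro t ht
    refine intervalIntegral.integral_hasDerivAt_right ?_ ?_ ?_
    · refine hqi.mono_set ?_
      rw [Set.uIcc_of_le zero_le_one, Set.uIcc_of_le ht.1]
      exact Set.Icc_subset_Icc le_rfl ht.2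
    · exact hqc.stronglyMeasurableAtFilter hVo t (hsubV ht)
    · exact hqc.continuousAt (hVo.mem_nhds (hsubV ht))
  have hB2 : ∀ t ∈ Set.Icc (0 : ℝ) 1,
      HasDerivAt (fun t => g 0 + (∫ s in (0 : ℝ)..t, q s) / m) (q t / m) t :=
    fun t ht => ((hB t ht).div_const m).const_add (g 0)
  have key := image_le_of_liminf_slope_right_le_deriv_boundary (f := g) (a := 0) (b := 1) hgc
    (B := fun t => g 0 + (∫ s in (0 : ℝ)..t, q s) / m) (B' := fun t => q t / m)
    (by simp) (fun t ht => (hB2 t ht).continuousAt.continuousWithinAt)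
    (fun t ht => (hB2 t (Set.Ico_subset_Icc_self ht)).hasDerivWithinAt) ?_
    (Set.right_mem_Icc.2 zero_le_one)
  · have h1 : g 1 - g 0 ≤ (∫ s in (0 : ℝ)..1, q s) / m := by
      have h2 : g 1 ≤ g 0 + (∫ s in (0 : ℝ)..1, q s) / m := key
      linarith
    rw [le_div_iff₀ hm, mul_comm] at h1
    rw [hg, hq] at h1
    exact h1
  · intro t ht s hs
    have ht' := Set.Ico_subset_Icc_self ht
    have hs' : q t / m < s := hs
    refine Eventually.frequently ?_
    rcases hloc t ht' with h | ⟨y, h1, h2, h3, h4⟩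
    · have h5 : g t = r := h.self_of_nhds
      have h6 : ∀ᶠ t' in 𝓝[>] t, g t' = r := nhdsWithin_le_nhds h
      filter_upwards [h6] with t' ht1
      have h7 : 0 ≤ q t / m := div_nonneg (hq0 t) hm.le
      rw [slope_def_field, h5, ht1, sub_self, zero_div]
      linarith
    · have h5 : g t = min r ‖y t - w‖ := h3.self_of_nhds
      have h6 : min r ‖y t - w‖ = ‖y t - w‖ := min_eq_right (mem_closedBall_iff_norm.1 h1)
      have h7 : ‖deriv y t‖ ≤ q t / m := by
        rw [le_div_iff₀ hm, mul_comm]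
        exact h4
      have h8 : Tendsto (fun t' => ‖slope y t t'‖) (𝓝[>] t) (𝓝 ‖deriv y t‖) := by
        have h9 := (hasDerivAt_iff_tendsto_slope.1 h2.hasDerivAt).norm
        exact h9.mono_left (nhdsWithin_mono t fun a ha => ne_of_gt ha)
      have h10 : ∀ᶠ t' in 𝓝[>] t, ‖slope y t t'‖ < s :=
        h8.eventually_lt_const (lt_of_le_of_lt h7 hs')
      filter_upwards [h10, nhdsWithin_le_nhds h3, self_mem_nhdsWithin] with t' k1 k2 k3
      have k3' : 0 < t' - t := sub_pos.2 k3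
      refine lt_of_le_of_lt ?_ k1
      rw [slope_def_field, k2, h5, h6, slope_def_module, norm_smul, norm_inv, Real.norm_eq_abs,
        abs_of_pos k3', div_eq_inv_mul]
      refine mul_le_mul_of_nonneg_left ?_ (inv_nonneg.2 k3'.le)
      have k4 : min r ‖y t' - w‖ ≤ ‖y t' - w‖ := min_le_right _ _
      have k5 : ‖y t' - w‖ ≤ ‖y t' - y t‖ + ‖y t - w‖ := norm_sub_le_norm_sub_add_norm_sub _ _ _
      linarith

/-- the lower bound -/
theorem lower (hR : Riem U φ ρ) (i : ι) {w w' : ℂ} {r m : ℝ} (hr : 0 < r) (hm : 0 < m)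
    (hsub : closedBall w r ⊆ U i) (hρ : ∀ y ∈ closedBall w r, m ≤ Real.sqrt (ρ i y))
    (hw' : ‖w' - w‖ ≤ r) {l : ℝ} (hl : l ∈ Lengths U φ ρ (φ i w) (φ i w')) :
    m * ‖w' - w‖ ≤ l := by
  obtain ⟨n, j, γ, P, hP0, hPn, hk, hl⟩ := hl
  have h1 : ∀ k ≤ n, m * (GG (φ i) w r (P k) - GG (φ i) w r (P 0)) ≤
      ∑ k ∈ Finset.range k, ∫ t in (0 : ℝ)..1, Real.sqrt (ρ (j k) (γ k t)) * ‖deriv (γ k) t‖ := by
    intro k
    induction k with
    | zero =>
      intro _
      simp
    | succ k ih =>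
      intro hkn
      rw [Finset.sum_range_succ]
      have h2 := ih (by omega)
      obtain ⟨q1, q2, q3, q4⟩ := hk k (by omega)
      have h3 := piece hR i hr hm hsub hρ (j k) (γ k) q1 q2
      rw [q3, q4] at h3
      linarith
  have h2 := h1 n le_rfl
  have hwU : w ∈ U i := hsub (mem_closedBall_self hr.le)
  have hw'U : w' ∈ U i := hsub (mem_closedBall_iff_norm.2 hw')
  rw [hP0, hPn, GG_phi (hR.inj i) hsub hw'U, GG_phi (hR.inj i) hsub hwU, sub_self, norm_zero,
    min_eq_right hr.le, min_eq_right hw', sub_zero] at h2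
  rw [hl]
  exact h2

/-- lengths are nonnegative -/
theorem len_nonneg {x y : M} {l : ℝ} (hl : l ∈ Lengths U φ ρ x y) : 0 ≤ l := by
  obtain ⟨n, j, γ, P, -, -, -, rfl⟩ := hl
  refine Finset.sum_nonneg fun k _ => ?_
  exact intervalIntegral.integral_nonneg zero_le_one fun t _ => by positivity

/-- a segment in a chart -/
theorem seg (hR : Riem U φ ρ) (i : ι) {z : ℂ} {r L : ℝ} (hsub : ball z r ⊆ U i)
    (hρ : ∀ y ∈ ball z r, Real.sqrt (ρ i y) ≤ L) {w w' : ℂ} (hw : w ∈ ball z r)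
    (hw' : w' ∈ ball z r) : ∃ l ∈ Lengths U φ ρ (φ i w) (φ i w'), l ≤ L * ‖w - w'‖ := by
  obtain ⟨γ, hγ⟩ : ∃ γ : ℝ → ℂ, γ = fun t => w + t • (w' - w) := ⟨_, rfl⟩
  have hγc : ContDiff ℝ 1 γ := by
    rw [hγ]
    fun_prop
  have hγm : ∀ t ∈ Set.Icc (0 : ℝ) 1, γ t ∈ ball z r := by
    intro t ht
    have h1 := (convex_ball z r).add_smul_sub_mem hw hw' ht
    rw [hγ]
    exact h1
  have hγd : ∀ t, deriv γ t = w' - w := by
    intro t
    have h1 : HasDerivAt γ (w' - w) t := by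
      rw [hγ]
      have h2 := ((hasDerivAt_id t).smul_const (w' - w)).const_add w
      rw [one_smul] at h2
      exact h2
    exact h1.deriv
  refine ⟨∫ t in (0 : ℝ)..1, Real.sqrt (ρ i (γ t)) * ‖deriv γ t‖, ?_, ?_⟩
  · refine ⟨1, fun _ => i, fun _ => γ, fun k => if k = 0 then φ i w else φ i w', by simp, by simp,
      ?_, by simp⟩
    intro k hk
    obtain rfl : k = 0 := by omega
    refine ⟨hγc, fun t ht => hsub (hγm t ht), ?_, ?_⟩
    · rw [hγ]
      simp
    · rw [hγ]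
      simp
  · have hc : ContinuousOn (fun t => Real.sqrt (ρ i (γ t)) * ‖deriv γ t‖) (Set.uIcc 0 1) := by
      rw [Set.uIcc_of_le zero_le_one]
      refine ContinuousOn.mul ?_ ?_
      · refine Real.continuous_sqrt.comp_continuousOn ?_
        exact ((hR.dens i).continuousOn).comp hγc.continuous.continuousOn
          (fun t ht => hsub (hγm t ht))
      · exact ((hγc.continuous_deriv le_rfl).norm).continuousOn
    have h1 : ∫ t in (0 : ℝ)..1, Real.sqrt (ρ i (γ t)) * ‖deriv γ t‖ ≤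
        ∫ _ in (0 : ℝ)..1, L * ‖w - w'‖ := by
      refine intervalIntegral.integral_mono_on zero_le_one hc.intervalIntegrable
        intervalIntegrable_const ?_
      intro t ht
      rw [hγd, norm_sub_rev w' w]
      exact mul_le_mul_of_nonneg_right (hρ _ (hγm t ht)) (norm_nonneg _)
    rw [intervalIntegral.integral_const, sub_zero, one_smul] at h1
    exact h1

end TR1

open TR1

/-- JOB AD-22. -/
theorem tr1 : R1.{u, v} := by
  intro M ι _ U φ ρ hR
  refine ⟨hR.dom, hR.inj, hR.opn, hR.cover, ?_, hR.dens⟩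
  intro i z hz
  obtain ⟨e, he, hsubE⟩ := Metric.isOpen_iff.1 (hR.dom i) z hz
  obtain ⟨r, hr, hrd⟩ : ∃ r : ℝ, 0 < r ∧ r = e / 3 := ⟨e / 3, by positivity, rfl⟩
  have hsub2 : closedBall z (2 * r) ⊆ U i := by
    refine Set.Subset.trans ?_ hsubE
    exact closedBall_subset_ball (by linarith)
  have hcomp := isCompact_closedBall z (2 * r)
  have hcont : ContinuousOn (fun y => Real.sqrt (ρ i y)) (closedBall z (2 * r)) :=
    Real.continuous_sqrt.comp_continuousOn (((hR.dens i).continuousOn).mono hsub2)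
  have hne : (closedBall z (2 * r)).Nonempty := ⟨z, mem_closedBall_self (by positivity)⟩
  obtain ⟨z1, hz1, hmin⟩ := hcomp.exists_isMinOn hne hcont
  obtain ⟨z2, hz2, hmax⟩ := hcomp.exists_isMaxOn hne hcont
  obtain ⟨m, hm⟩ : ∃ m : ℝ, m = Real.sqrt (ρ i z1) := ⟨_, rfl⟩
  obtain ⟨L, hL⟩ : ∃ L : ℝ, L = Real.sqrt (ρ i z2) := ⟨_, rfl⟩
  have hm0 : 0 < m := by
    rw [hm]
    exact Real.sqrt_pos.2 (hR.pos i z1 (hsub2 hz1))
  have hL0 : 0 < L := by
    rw [hL]
    exact Real.sqrt_pos.2 (hR.pos i z2 (hsub2 hz2))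
  have hlo : ∀ y ∈ closedBall z (2 * r), m ≤ Real.sqrt (ρ i y) := by
    intro y hy
    rw [hm]
    exact hmin hy
  have hhi : ∀ y ∈ closedBall z (2 * r), Real.sqrt (ρ i y) ≤ L := by
    intro y hy
    rw [hL]
    exact hmax hy
  have hb : ball z (r / 2) ⊆ closedBall z (2 * r) :=
    ball_subset_closedBall.trans (closedBall_subset_closedBall (by linarith))
  refine ⟨r / 2, min m (1 / L), by positivity, lt_min hm0 (by positivity), hb.trans hsub2, ?_⟩
  intro w hw w' hw'
  obtain ⟨l, hl, hlL⟩ := seg hR i (hb.trans hsub2) (fun y hy => hhi y (hb hy)) hw hw'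
  have hd : dist (φ i w) (φ i w') ≤ L * ‖w - w'‖ := by
    rw [hR.geod]
    exact (csInf_le ⟨0, fun l hl => len_nonneg hl⟩ hl).trans hlL
  have hww : ‖w' - w‖ ≤ r := by
    have h1 := mem_ball_iff_norm.1 hw
    have h2 := mem_ball_iff_norm.1 hw'
    have h3 : ‖w' - w‖ ≤ ‖w' - z‖ + ‖z - w‖ := norm_sub_le_norm_sub_add_norm_sub _ _ _
    rw [norm_sub_rev z w] at h3
    linarith
  have hcb : closedBall w r ⊆ closedBall z (2 * r) := by
    intro y hy
    have h1 := mem_closedBall_iff_norm.1 hy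
    have h2 := mem_ball_iff_norm.1 hw
    refine mem_closedBall_iff_norm.2 ?_
    have h3 : ‖y - z‖ ≤ ‖y - w‖ + ‖w - z‖ := norm_sub_le_norm_sub_add_norm_sub _ _ _
    linarith
  have hd2 : m * ‖w - w'‖ ≤ dist (φ i w) (φ i w') := by
    rw [hR.geod, norm_sub_rev w w']
    refine le_csInf ⟨l, hl⟩ fun l' hl' => ?_
    exact lower hR i hr hm0 (hcb.trans hsub2) (fun y hy => hlo y (hcb hy)) hww hl'
  constructor
  · exact (mul_le_mul_of_nonneg_right (min_le_left _ _) (norm_nonneg _)).trans hd2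
  · calc min m (1 / L) * dist (φ i w) (φ i w') ≤ 1 / L * dist (φ i w) (φ i w') :=
          mul_le_mul_of_nonneg_right (min_le_right _ _) dist_nonneg
      _ ≤ 1 / L * (L * ‖w - w'‖) := mul_le_mul_of_nonneg_left hd (by positivity)
      _ = ‖w - w'‖ := by field_simp

end

end Pool.Agent.Q73.AD
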