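import Pool.Agent.Q73.AD.StmY
import Pool.Agent.Q73.AD.YY0
import Pool.Agent.Q73.AD.TA5

/-!
# Affine changes of coordinates (helper261): for the jobs AY-13 and AY-14
-/

set_option autoImplicit false
open MeasureTheory Filter Topology Complex Metric
open scoped ContDiff ComplexConjugate Pointwise

namespace Pool.Agent.Q73.AD

open Pool.Agent.Q73.NL

lemma afc_mem {p c α : ℂ} {r : ℝ} (hα : α ≠ 0) {y : ℂ} :
    p + α * y ∈ closedBall (p + α * c) (‖α‖ * r) ↔ y ∈ closedBall c r := by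
  rw [mem_closedBall, mem_closedBall, dist_eq_norm, dist_eq_norm]
  have : p + α * y - (p + α * c) = α * (y - c) := by ring
  rw [this, norm_mul]
  exact mul_le_mul_iff_right₀ (norm_pos_iff.2 hα)

lemma afc_sn (f : ℂ → ℝ) {p c α : ℂ} {r : ℝ} (hα : α ≠ 0) :
    sn (fun y : ℂ => f (p + α * y)) (closedBall c r) = sn f (closedBall (p + α * c) (‖α‖ * r)) := by
  unfold sn
  congr 1
  ext t
  constructor
  · rintro ⟨y, hy, rfl⟩
    exact ⟨p + α * y, (afc_mem hα).2 hy, rfl⟩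
  · rintro ⟨z, hz, rfl⟩
    have e : z = p + α * ((z - p) / α) := by field_simp; ring
    rw [e] at hz
    exact ⟨(z - p) / α, (afc_mem hα).1 hz, by simp only; rw [← e]⟩

lemma sn_cmul (g : ℂ → ℝ) {k : ℝ} (hk : 0 ≤ k) (E : Set ℂ) :
    sn (fun y : ℂ => k * g y) E = k * sn g E := by
  unfold sn
  have h1 : (fun x : ℂ => |k * g x|) '' E = k • ((fun x : ℂ => |g x|) '' E) := by
    ext t
    constructor
    · rintro ⟨y, hy, rfl⟩
      refine Set.mem_smul_set.2 ⟨|g y|, ⟨y, hy, rfl⟩, ?_⟩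
      simp only [smul_eq_mul, abs_mul, abs_of_nonneg hk]
    · intro ht
      obtain ⟨u, ⟨y, hy, rfl⟩, rfl⟩ := Set.mem_smul_set.1 ht
      refine ⟨y, hy, ?_⟩
      simp only [smul_eq_mul, abs_mul, abs_of_nonneg hk]
  rw [h1, Real.sSup_smul_of_nonneg hk, smul_eq_mul]

lemma afc_SS (ν : ℂ) (φ : ℂ → ℝ) {p c α : ℂ} {r : ℝ} (hα : α ≠ 0) :
    SS ν φ (p + α * c) (‖α‖ * r) =
      Real.exp (-(conj ν * p).re) * SS (conj α * ν) (fun y : ℂ => φ (p + α * y)) c r := by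
  unfold SS
  rw [← afc_sn (cj ν φ) hα, ← sn_cmul _ (Real.exp_pos _).le]
  congr 1
  funext y
  unfold cj
  rw [← mul_assoc, ← Real.exp_add]
  congr 2
  have h1 : conj ν * (p + α * y) = conj ν * p + conj (conj α * ν) * y := by
    rw [map_mul, Complex.conj_conj]
    ring
  rw [h1, Complex.add_re]
  ring

lemma afc_fderiv (f : ℂ → ℝ) (p α : ℂ) (y : ℂ) (hf : DifferentiableAt ℝ f (p + α * y)) :
    ‖fderiv ℝ (fun y : ℂ => f (p + α * y)) y‖ ≤ ‖α‖ * ‖fderiv ℝ f (p + α * y)‖ := by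
  have hl : HasFDerivAt (fun y : ℂ => p + α * y) ((ContinuousLinearMap.mul ℝ ℂ) α) y := by
    have := ((ContinuousLinearMap.mul ℝ ℂ) α).hasFDerivAt (x := y)
    exact this.const_add p
  have h2 := (hf.hasFDerivAt.comp y hl).fderiv
  have h3 : (fun y : ℂ => f (p + α * y)) = f ∘ fun y : ℂ => p + α * y := rfl
  rw [h3, h2]
  refine (ContinuousLinearMap.opNorm_comp_le _ _).trans ?_
  rw [mul_comm]
  refine mul_le_mul_of_nonneg_right ?_ (norm_nonneg _)
  refine ContinuousLinearMap.opNorm_le_bound _ (norm_nonneg _) fun x => ?_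
  rw [ContinuousLinearMap.mul_apply', norm_mul]

lemma afc_contDiffAt (n : WithTop ℕ∞) (f : ℂ → ℝ) (p α : ℂ) (y : ℂ) (hf : ContDiffAt ℝ n f (p + α * y)) :
    ContDiffAt ℝ n (fun y : ℂ => f (p + α * y)) y :=
  hf.comp y (by fun_prop)

lemma afc_lap (f : ℂ → ℝ) (p α : ℂ) (y : ℂ) (hf : ContDiffAt ℝ 2 f (p + α * y)) :
    lap (fun y : ℂ => f (p + α * y)) y = ‖α‖ ^ 2 * lap f (p + α * y) := by
  have h := ta5 (fun y : ℂ => p + α * y) f y (by fun_prop) hf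
  rw [h]
  have hd : deriv (fun y : ℂ => p + α * y) y = α := by
    have h1 : HasDerivAt (fun y : ℂ => p + α * y) (α * 1) y :=
      ((hasDerivAt_id y).const_mul α).const_add p
    rw [h1.deriv, mul_one]
  rw [hd]

/-- the rescaled solution -/
lemma afc_sol {lam L s : ℝ} {p α : ℂ} {ρ φ : ℂ → ℝ} (h : Loc lam L s p ρ φ) (hα : ‖α‖ = s) {y : ℂ}
    (hy : y ∈ closedBall (0 : ℂ) 32) :
    ContDiffAt ℝ ∞ (fun y : ℂ => φ (p + α * y)) y ∧
    ContDiffAt ℝ 1 (fun y : ℂ => lam * s ^ 2 * ρ (p + α * y)) y ∧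
    0 ≤ lam * s ^ 2 * ρ (p + α * y) ∧ lam * s ^ 2 * ρ (p + α * y) ≤ lam * s ^ 2 * L ∧
    ‖fderiv ℝ (fun y : ℂ => lam * s ^ 2 * ρ (p + α * y)) y‖ ≤ s * (lam * s ^ 2 * L) ∧
    lap (fun y : ℂ => φ (p + α * y)) y + lam * s ^ 2 * ρ (p + α * y) * φ (p + α * y) = 0 := by
  have hs := h.s_pos
  have hα0 : α ≠ 0 := by
    intro h0
    rw [h0, norm_zero] at hα
    exact hs.ne hα
  have hmem : p + α * y ∈ closedBall p (32 * s) := by
    have := (afc_mem (p := p) (c := 0) (r := 32) hα0).2 hy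
    rwa [mul_zero, add_zero, hα, mul_comm] at this
  obtain ⟨a1, a2, a3, a4, a5, a6⟩ := h.sol _ hmem
  have hlh : 0 ≤ lam * s ^ 2 := mul_nonneg h.lam_pos.le (sq_nonneg _)
  refine ⟨afc_contDiffAt _ _ _ _ _ a1, contDiffAt_const.mul (afc_contDiffAt _ _ _ _ _ a2),
    mul_nonneg hlh a3, mul_le_mul_of_nonneg_left a4 hlh, ?_, ?_⟩
  · have e1 := fderiv_const_smul_field (𝕜 := ℝ) (f := fun y : ℂ => ρ (p + α * y)) (lam * s ^ 2)
    have e2 : fderiv ℝ (fun y : ℂ => lam * s ^ 2 * ρ (p + α * y)) y =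
        (lam * s ^ 2) • fderiv ℝ (fun y : ℂ => ρ (p + α * y)) y := congrFun e1 y
    rw [e2, norm_smul, Real.norm_eq_abs, abs_of_nonneg hlh]
    have h5 := afc_fderiv ρ p α y (a2.differentiableAt (by norm_num))
    have h6 : ‖fderiv ℝ (fun y : ℂ => ρ (p + α * y)) y‖ ≤ s * L := by
      refine h5.trans ?_
      rw [hα]
      exact mul_le_mul_of_nonneg_left a5 hs.le
    calc _ ≤ lam * s ^ 2 * (s * L) := mul_le_mul_of_nonneg_left h6 hlh
      _ = _ := by ring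
  · rw [afc_lap φ p α y (a1.of_le (by norm_cast)), hα]
    calc _ = s ^ 2 * (lap φ (p + α * y) + lam * ρ (p + α * y) * φ (p + α * y)) := by ring
      _ = 0 := by rw [a6, mul_zero]

end Pool.Agent.Q73.AD
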