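import Pool.Agent.Q73.AD.StmQ
import Pool.Agent.Q73.AD.TG4L

/-!
# Final small steps
-/

set_option autoImplicit false
open MeasureTheory Filter Topology Complex Metric
open scoped ContDiff

namespace Pool.Agent.Q73.AD

open TG4

universe u v

theorem fin_dbl_nonneg0 (h1 : G1.{u, v}) (M : Type u) (ι : Type v) [MetricSpace M] [CompactSpace M]
    [ConnectedSpace M] (U : ι → Set ℂ) (φ : ι → ℂ → M) (ρ : ι → ℂ → ℝ) (h : Atl U φ ρ) (lam : ℝ)
    (f : M → ℝ) (hlam : 0 < lam) (hf : Eig U φ ρ lam f) (hne : ∃ x, f x ≠ 0) (x : M) (r : ℝ)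
    (hr : 0 < r) : 0 ≤ dbl f x r := by
  have hc : Continuous f := cont h hf
  have hb : BddAbove ((fun x => |f x|) '' Set.univ) := by
    have : IsCompact ((fun x => |f x|) '' (Set.univ : Set M)) :=
      isCompact_univ.image (continuous_abs.comp hc)
    exact this.bddAbove
  have hpos0 : 0 < sn f Set.univ := by
    obtain ⟨y, hy⟩ := hne
    exact lt_of_lt_of_le (abs_pos.2 hy) (le_sn hb y)
  refine TG4.dbl_nonneg hb hr fun y s hs => ?_
  obtain ⟨C, -, hC⟩ := h1 M ι U φ ρ h s hs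
  have h2 := hC lam f hlam.le hf y
  by_contra hcon
  push Not at hcon
  have : Real.exp (C * (1 + Real.sqrt lam)) * sn f (ball y s) ≤ 0 :=
    mul_nonpos_of_nonneg_of_nonpos (Real.exp_pos _).le hcon
  linarith

theorem finq0 (hG : QG.{u, v}) (hH : QH.{u, v}) : ∀ (M : Type u) (ι : Type v) [MetricSpace M]
    [CompactSpace M] [ConnectedSpace M] [MeasurableSpace M] [BorelSpace M] (U : ι → Set ℂ)
    (φ : ι → ℂ → M) (ρ : ι → ℂ → ℝ), Atl U φ ρ → (∀ i, ∀ z ∈ U i, 0 < ρ i z) →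
    ∃ c : ℝ, 0 < c ∧ ∀ (lam : ℝ) (f : M → ℝ), 0 < lam → Eig U φ ρ lam f →
      (∃ x, f x ≠ 0) → c ≤ (μH[2] {x | 0 < f x}).toReal := by
  intro M ι _ _ _ _ _ U φ ρ hA hρ
  obtain ⟨c, lam₀, hc, hlam₀, h1⟩ := hG M ι U φ ρ hA hρ
  obtain ⟨c', hc', h2⟩ := hH M ι U φ ρ hA hρ lam₀ hlam₀
  refine ⟨min c c', lt_min hc hc', fun lam f hlam hf hne => ?_⟩
  rcases le_total lam₀ lam with h | h
  · exact (min_le_left _ _).trans (h1 lam f h hf hne)
  · exact (min_le_right _ _).trans (h2 lam f hlam h hf hne)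

end Pool.Agent.Q73.AD
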