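import Pool.Agent.Q73.AD.YK2

/-!
# Common lemmas on sums over the squares of the stopping time argument, by helper224
-/

set_option autoImplicit false

namespace Pool.Agent.Q73.AD

/-- the area of a square of level `i` -/
noncomputable def wtK (M i : ℕ) : ℝ := ((M : ℝ) ^ (2 * i))⁻¹

theorem wt_nonneg (M i : ℕ) : 0 ≤ wtK M i := by unfold wtK; positivity

theorem wt_add (M i j : ℕ) : wtK M (i + j) = wtK M i * wtK M j := by
  unfold wtK
  rw [mul_add, pow_add, mul_inv]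

theorem wt_zero (M : ℕ) : wtK M 0 = 1 := by simp [wtK]

theorem wt_mul {M : ℕ} (hM : 0 < M) (i : ℕ) : (M : ℝ) ^ (2 * i) * wtK M i = 1 := by
  unfold wtK
  have : (0 : ℝ) < M := by exact_mod_cast hM
  field_simp

/-- comparison of sums with the help of a map -/
theorem sum_cover {α β : Type*} (S : Finset α) (T : Finset β) (F : α → ℝ) (G : β → ℝ)
    (hG : ∀ y ∈ T, 0 ≤ G y) (φ : β → α) (h : ∀ x ∈ S, ∃ y ∈ T, φ y = x ∧ F x ≤ G y) :
    ∑ x ∈ S, F x ≤ ∑ y ∈ T, G y := by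
  classical
  rcases S.eq_empty_or_nonempty with rfl | ⟨x0, hx0⟩
  · rw [Finset.sum_empty]
    exact Finset.sum_nonneg hG
  have : Nonempty β := by
    obtain ⟨y0, _, _⟩ := h x0 hx0
    exact ⟨y0⟩
  choose! f hf1 hf2 hf3 using h
  have hinj : Set.InjOn f (S : Set α) := by
    intro x hx y hy hxy
    rw [← hf2 x hx, ← hf2 y hy, hxy]
  calc ∑ x ∈ S, F x ≤ ∑ x ∈ S, G (f x) := Finset.sum_le_sum fun x hx => hf3 x hx
    _ = ∑ y ∈ S.image f, G y := (Finset.sum_image hinj).symm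
    _ ≤ ∑ y ∈ T, G y := by
        refine Finset.sum_le_sum_of_subset_of_nonneg ?_ fun y hy _ => hG y hy
        intro y hy
        obtain ⟨x, hx, rfl⟩ := Finset.mem_image.mp hy
        exact hf1 x hx

section

variable {M : ℕ} {Lin : ℕ → ℕ × ℕ → Prop} {Rel : ℕ → ℕ × ℕ → Finset (ℕ × (ℕ × ℕ))}

theorem ws_eq (J : ℕ) (P : ℕ → ℕ × ℕ → Prop) [∀ i, DecidablePred (P i)] (f : ℕ → ℕ × ℕ → ℝ) :
    ws M J P f = ∑ i ∈ Finset.range (J + 1), ∑ a ∈ (gd (M ^ i)).filter (P i), wtK M i * f i a := by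
  unfold ws wtK
  refine Finset.sum_congr rfl fun i _ => ?_
  refine Finset.sum_congr ?_ fun _ _ => rfl
  ext a
  simp

theorem ws_nonneg (J : ℕ) (P : ℕ → ℕ × ℕ → Prop) (f : ℕ → ℕ × ℕ → ℝ) (hf : ∀ i a, 0 ≤ f i a) :
    0 ≤ ws M J P f := by
  classical
  rw [ws_eq]
  exact Finset.sum_nonneg fun i _ => Finset.sum_nonneg fun a _ => mul_nonneg (wt_nonneg _ _) (hf _ _)

/-- the square `b` of level `i + 1` is released by the square that captures its parent -/
def Rl (M : ℕ) (Lin : ℕ → ℕ × ℕ → Prop) (Rel : ℕ → ℕ × ℕ → Finset (ℕ × (ℕ × ℕ)))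
    (i : ℕ) (b : ℕ × ℕ) : Prop :=
  ∃ P, cap M Lin Rel i (anc M b) = some P ∧
    (i + 1 - P.1, md (M ^ (i + 1 - P.1)) b) ∈ Rel P.1 P.2

/-- the capturing square is a start -/
theorem start_of_cap {j : ℕ} {b : ℕ × ℕ} {P : ℕ × (ℕ × ℕ)} (h : cap M Lin Rel j b = some P) :
    Start M Lin Rel P.1 P.2 := by
  obtain ⟨h1, h2, _, h4, _⟩ := k2_claim1 j b P h
  have := h4 P.1 le_rfl h1
  rw [h2] at this
  exact this

theorem cap_mem {j : ℕ} {b : ℕ × ℕ} {P : ℕ × (ℕ × ℕ)} (h : cap M Lin Rel j b = some P)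
    (hb : b ∈ gd (M ^ j)) : P.2 ∈ gd (M ^ P.1) := by
  obtain ⟨h1, h2, _, h4, _⟩ := k2_claim1 j b P h
  rw [← h2]
  apply anc_mem
  rw [← pow_add, Nat.add_sub_cancel' h1]
  exact hb

open Classical in
/-- the sum over the released squares -/
theorem released_sum (J : ℕ) (h : ℕ → ℕ × ℕ → ℝ)
    (hh : ∀ i a, 0 ≤ h i a) :
    ∑ i ∈ Finset.range J, ∑ b ∈ (gd (M ^ (i + 1))).filter (Rl M Lin Rel i),
        wtK M (i + 1) * h (i + 1) b ≤
      ws M J (Start M Lin Rel) (fun i a => ∑ r ∈ Rel i a, ((M : ℝ) ^ (2 * r.1))⁻¹ *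
        h (i + r.1) (ch (M ^ r.1) a r.2)) := by
  rw [ws_eq]
  simp_rw [Finset.mul_sum]
  rw [Finset.sum_sigma', Finset.sum_sigma', Finset.sum_sigma']
  refine sum_cover _ _ _ _ ?_ (fun y => ⟨y.1.1 + y.2.1 - 1, ch (M ^ y.2.1) y.1.2 y.2.2⟩) ?_
  · intro y _
    have h1 := wt_nonneg M y.1.1
    have h2 : 0 ≤ ((M : ℝ) ^ (2 * y.2.1))⁻¹ := by positivity
    have h3 := hh (y.1.1 + y.2.1) (ch (M ^ y.2.1) y.1.2 y.2.2)
    positivity
  · rintro ⟨i, b⟩ hx
    simp only [Finset.mem_sigma, Finset.mem_range, Finset.mem_filter] at hx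
    obtain ⟨hi, hb, P, hP, hR⟩ := hx
    obtain ⟨p1, p2, _, _, _⟩ := k2_claim1 i (anc M b) P hP
    have hbm : anc M b ∈ gd (M ^ i) := anc_mem (by rw [← pow_succ]; exact hb)
    have hs := start_of_cap hP
    have hm := cap_mem hP hbm
    rw [k2_anc_succ i P.1 p1 b] at p2
    have hch : ch (M ^ (i + 1 - P.1)) P.2 (md (M ^ (i + 1 - P.1)) b) = b := by
      rw [← p2]
      exact ch_anc_md _ _
    refine ⟨⟨⟨P.1, P.2⟩, (i + 1 - P.1, md (M ^ (i + 1 - P.1)) b)⟩, ?_, ?_, ?_⟩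
    · simp only [Finset.mem_sigma, Finset.mem_range, Finset.mem_filter]
      exact ⟨⟨by omega, hm, hs⟩, hR⟩
    · simp only [hch]
      have : P.1 + (i + 1 - P.1) - 1 = i := by omega
      rw [this]
    · simp only [hch]
      have e : P.1 + (i + 1 - P.1) = i + 1 := by omega
      have e2 : wtK M (i + 1) = wtK M P.1 * wtK M (i + 1 - P.1) := by rw [← wt_add, e]
      rw [e, e2]
      unfold wtK
      rw [mul_assoc]

/-- the mass of the squares with uncaptured parent -/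
theorem sum_child (hM : 0 < M) (i : ℕ) (P : ℕ × ℕ → Prop) [DecidablePred P]
    [DecidablePred fun b => P (anc M b)] :
    ∑ _b ∈ (gd (M ^ (i + 1))).filter (fun b => P (anc M b)), wtK M (i + 1)
      = ∑ _a ∈ (gd (M ^ i)).filter P, wtK M i := by
  rw [Finset.sum_filter, Finset.sum_filter, pow_succ, sum_gd_mul]
  refine Finset.sum_congr rfl fun a _ => ?_
  have h1 : ∀ c ∈ gd M, (if P (anc M (ch M a c)) then wtK M (i + 1) else 0)
      = if P a then wtK M (i + 1) else 0 := by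
    intro c hc
    simp only [anc_ch hc]
  rw [Finset.sum_congr rfl h1, Finset.sum_const, gd_card]
  split_ifs
  · rw [wt_add, nsmul_eq_mul]
    unfold wtK
    have : (0 : ℝ) < M := by exact_mod_cast hM
    push_cast
    field_simp
  · simp

end

end Pool.Agent.Q73.AD
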