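import Pool.Agent.Q73.AD.StmY
import Pool.Agent.Q73.AD.TA4
import Pool.Agent.Helper676.CS5

/-!
# PB, first part: the logarithmic potential (helper285)
-/

set_option autoImplicit false
open MeasureTheory Filter Topology Complex Metric
open scoped ContDiff ComplexConjugate

namespace Pool.Agent.Q73.AD

open Pool.Agent.Q73.NL

namespace PBx

lemma lap_eq_laplacian {f : ℂ → ℝ} (hf : ContDiff ℝ 2 f) (z : ℂ) :
    Laplacian.laplacian f z = lap f z := by
  rw [InnerProductSpace.laplacian_eq_iteratedFDeriv_complexPlane]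
  have key : ∀ v : ℂ, iteratedFDeriv ℝ 2 f z ![v, v]
      = fderiv ℝ (fun w => fderiv ℝ f w v) z v := by
    intro v
    rw [iteratedFDeriv_two_apply]
    simp only [Matrix.cons_val_zero, Matrix.cons_val_one]
    have hd : DifferentiableAt ℝ (fderiv ℝ f) z :=
      ((hf.fderiv_right (m := 1) (by norm_num)).differentiable one_ne_zero) z
    have := fderiv_clm_apply (c := fderiv ℝ f) (u := fun _ => v) hd (differentiableAt_const v)
    rw [this]
    simp
  simp only [key]
  rfl

lemma cd2 {f : ℂ → ℝ} (hf : ContDiff ℝ ∞ f) : ContDiff ℝ 2 f := by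
  exact_mod_cast contDiff_infty.1 hf 2

lemma lap_cd {f : ℂ → ℝ} (hf : ContDiff ℝ ∞ f) : ContDiff ℝ ∞ (lap f) :=
  (cd_d 1 (cd_d 1 hf)).add (cd_d I (cd_d I hf))

lemma lap_zero_of {f : ℂ → ℝ} {z : ℂ} (hz : z ∉ tsupport f) : dx f z = 0 ∧ dy f z = 0 ∧ lap f z = 0 := by
  have h : f =ᶠ[𝓝 z] fun _ => 0 := notMem_tsupport_iff_eventuallyEq.1 hz
  exact ev_const h

lemma lap_cs {f : ℂ → ℝ} (hf : HasCompactSupport f) : HasCompactSupport (lap f) :=
  HasCompactSupport.intro (K := tsupport f) hf fun _ hx => (lap_zero_of hx).2.2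

/-- Green's identity -/
lemma green {v φ : ℂ → ℝ} (hv : ContDiff ℝ ∞ v) (hφ : ContDiff ℝ ∞ φ) (hc : HasCompactSupport φ) :
    ∫ x, v x * lap φ x = ∫ x, lap v x * φ x := by
  have h := Pool.Agent.Helper676.CSLog.green (cd2 hv) (cd2 hφ) hc
  simp only [lap_eq_laplacian (cd2 hv), lap_eq_laplacian (cd2 hφ)] at h
  exact h

lemma lap_shift (F : ℂ → ℝ) (x z : ℂ) : lap (fun z => F (x + z)) z = lap F (x + z) := by
  have h : ∀ (G : ℂ → ℝ) (e : ℂ), (fun z => fderiv ℝ (fun z => G (x + z)) z e) =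
      fun z => fderiv ℝ G (x + z) e := by
    intro G e
    funext z
    rw [fderiv_comp_add_left]
  have h1 : lap (fun z => F (x + z)) z =
      fderiv ℝ (fun z => fderiv ℝ (fun z => F (x + z)) z 1) z 1 +
      fderiv ℝ (fun z => fderiv ℝ (fun z => F (x + z)) z I) z I := rfl
  rw [h1, h F 1, h F I]
  have h2 := congrFun (h (fun z => fderiv ℝ F z 1) 1) z
  have h3 := congrFun (h (fun z => fderiv ℝ F z I) I) z
  exact congrArg₂ (· + ·) h2 h3

/-- the fundamental solution -/
lemma fund {F : ℂ → ℝ} (hF : ContDiff ℝ ∞ F) (hc : HasCompactSupport F) (x : ℂ) :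
    ∫ y, Real.log ‖x - y‖ * lap F y = 2 * Real.pi * F x := by
  have hF' : ContDiff ℝ ∞ (fun z => F (x + z)) := hF.comp (contDiff_const.add contDiff_id)
  have hc' : HasCompactSupport (fun z => F (x + z)) := by
    have := hc.comp_homeomorph (Homeomorph.addLeft x)
    exact this
  have h := Pool.Agent.Helper676.CSLog.integral_log_laplacian (cd2 hF') hc'
  simp only [lap_eq_laplacian (cd2 hF'), lap_shift, add_zero] at h
  rw [← h, ← integral_add_left_eq_self (μ := (volume : Measure ℂ)) (fun y => Real.log ‖x - y‖ * lap F y) x]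
  refine integral_congr_ae (Eventually.of_forall fun z => ?_)
  have : x - (x + z) = -z := by ring
  simp only [this, norm_neg]

/-- the logarithm of the distance -/
lemma log_fderiv {x y : ℂ} (h : y ≠ x) (e : ℂ) :
    fderiv ℝ (fun y : ℂ => Real.log ‖y - x‖) y e = (e / (y - x)).re := by
  have h0 : y - x ≠ 0 := sub_ne_zero.2 h
  have hn : ‖y - x‖ ^ 2 ≠ 0 := pow_ne_zero 2 (norm_ne_zero_iff.2 h0)
  have e1 : (fun y : ℂ => Real.log ‖y - x‖) = fun y => (1 / 2) * Real.log (‖y - x‖ ^ 2) := by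
    funext y
    rw [Real.log_pow]
    push_cast
    ring
  have h1 : HasFDerivAt (fun y : ℂ => ‖y - x‖ ^ 2) (2 • (innerSL ℝ (y - x))) y := by
    have h2 := (hasStrictFDerivAt_norm_sq (y - x)).hasFDerivAt.comp y ((hasFDerivAt_id y).sub_const x)
    exact h2
  have h2 := (h1.log hn).const_mul (1 / 2 : ℝ)
  rw [e1, h2.fderiv]
  have e2 : (e / (y - x)).re = (e.re * (y - x).re + e.im * (y - x).im) / ‖y - x‖ ^ 2 := by
    rw [Complex.div_re, ← Complex.normSq_eq_norm_sq]
    ring
  have e3 : inner ℝ (y - x) e = (y - x).re * e.re + (y - x).im * e.im := by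
    rw [Complex.inner]
    simp [Complex.mul_re]
    ring
  rw [e2]
  simp only [smul_apply, smul_eq_mul, nsmul_eq_mul]
  rw [innerSL_apply_apply, e3]
  field_simp
  push_cast
  ring

/-- the cut-off -/
noncomputable def bump : ContDiffBump (0 : ℂ) := ⟨1 / 3, 1 / 2, by norm_num, by norm_num⟩

/-- the smooth function which is equal to `log ‖y - x‖` for `‖y - x‖ ≥ 1 / 2` -/
noncomputable def psl (x y : ℂ) : ℝ := (1 - bump (y - x)) * Real.log ‖y - x‖

lemma psl_cd (x : ℂ) : ContDiff ℝ ∞ (psl x) := by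
  rw [contDiff_iff_contDiffAt]
  intro y
  by_cases h : y = x
  · have h1 : psl x =ᶠ[𝓝 y] fun _ => 0 := by
      have : ball x (1 / 3) ∈ 𝓝 y := by
        rw [h]
        exact ball_mem_nhds x (by norm_num)
      filter_upwards [this] with z hz
      unfold psl
      rw [bump.one_of_mem_closedBall, sub_self, zero_mul]
      rw [mem_closedBall, dist_zero_right]
      rw [mem_ball, dist_eq_norm] at hz
      exact hz.le
    exact contDiffAt_const.congr_of_eventuallyEq h1
  · have h1 : ContDiffAt ℝ ∞ (fun y : ℂ => Real.log ‖y - x‖) y := by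
      refine ContDiffAt.log ?_ (norm_ne_zero_iff.2 (sub_ne_zero.2 h))
      exact (contDiffAt_id.sub contDiffAt_const).norm ℝ (sub_ne_zero.2 h)
    have h2 : ContDiffAt ℝ ∞ (fun y : ℂ => 1 - bump (y - x)) y :=
      contDiffAt_const.sub (bump.contDiff.comp (contDiff_id.sub contDiff_const)).contDiffAt
    exact h2.mul h1

lemma psl_eq {x y : ℂ} (h : 1 / 2 ≤ ‖y - x‖) : psl x y = Real.log ‖y - x‖ := by
  unfold psl
  rw [bump.zero_of_le_dist (by rw [dist_zero_right]; exact h), sub_zero, one_mul]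

lemma psl_fderiv {x y : ℂ} (h : 1 / 2 < ‖y - x‖) (e : ℂ) :
    fderiv ℝ (psl x) y e = (e / (y - x)).re := by
  have h1 : psl x =ᶠ[𝓝 y] fun y => Real.log ‖y - x‖ := by
    have hc : ContinuousAt (fun y : ℂ => ‖y - x‖) y := by fun_prop
    filter_upwards [hc.eventually (lt_mem_nhds h)] with z hz
    exact psl_eq hz.le
  rw [h1.fderiv_eq, log_fderiv]
  rintro rfl
  rw [sub_self, norm_zero] at h
  norm_num at h

end PBx

end Pool.Agent.Q73.AD
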