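import Pool.Agent.Q73.AD.StmY
import Pool.Agent.Q73.AD.TO1

/-!
# Shared lemmas for Y5 and Y6: from the limit to the members of the sequence (helper280)
-/

set_option autoImplicit false
open MeasureTheory Filter Topology Complex Metric
open scoped ContDiff ComplexConjugate

namespace Pool.Agent.Q73.AD

open Pool.Agent.Q73.NL

namespace Y5L

variable {𝒰 : Ultrafilter ℕ} {N : ℕ → ℝ} {ψ : ℕ → ℂ → ℝ} {D : Set ℂ} {W : Set ℂ → ℝ} {w : ℂ → ℝ}

/-- large values near a point with positive density -/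
lemma ev_large (hL : LimProp 𝒰 N ψ D W) (hw : Env D W w) {x : ℂ} (hx : x ∈ D) (h0 : 0 < w x)
    {r : ℝ} (hr : 0 < r) (hb : ball x r ⊆ D) {δ : ℝ} (hδ : 0 < δ) :
    ∀ᶠ j in (𝒰 : Filter ℕ), ∃ y ∈ ball x r, (Real.exp (-δ) * w x) ^ N j < |ψ j y| := by
  by_contra hcon
  rw [← Ultrafilter.eventually_not] at hcon
  have h1 := hL.le (ball x r) hb (Real.exp (-δ) * w x) (by positivity) (by
    filter_upwards [hcon] with j hj y hy
    by_contra h
    exact hj ⟨y, hy, not_le.1 h⟩)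
  have h2 := hw.le x hx r hr hb
  have h3 : Real.exp (-δ) < 1 := by
    rw [Real.exp_lt_one_iff]
    linarith
  nlinarith

/-- comparison of the suprema of the conjugated functions on two discs -/
lemma ev_comp (hB1 : B1.{0}) (hB2 : B2.{0}) (hJ : CJ) (hN : ∀ j, 0 < N j)
    (hψ : ∀ j, ∀ z ∈ ball (0 : ℂ) 32, |ψ j z| ≤ 1)
    (hL : LimProp 𝒰 N ψ (ball (0 : ℂ) 32) W) (hw : Env (ball (0 : ℂ) 32) W w) {M : ℝ} (hM : 40 ≤ M)
    {p ζ y : ℂ} {n δ : ℝ} {pj : ℕ → ℂ} (hp : ‖p‖ ≤ 2) (hpj : Tendsto pj 𝒰 (𝓝 p))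
    (hy : y ∈ ball p (19 / (10 * M))) (h0 : 0 < w y)
    (hmain : ∀ x ∈ closedBall p (33 / M), w x * Real.exp (-(conj ζ * x).re) ≤
      Real.exp n * (w y * Real.exp (-(conj ζ * y).re))) (hδ : 0 < δ) :
    ∀ᶠ j in (𝒰 : Filter ℕ), sn (fun z => Real.exp (-(N j * (conj ζ * z).re)) * ψ j z)
      (closedBall (pj j) (32 / M)) ≤ Real.exp (N j * (n + δ)) *
        sn (fun z => Real.exp (-(N j * (conj ζ * z).re)) * ψ j z) (closedBall (pj j) (2 / M)) := by
  have hM0 : 0 < M := by linarith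
  have h33 : 33 / M ≤ 1 := by
    rw [div_le_one hM0]
    linarith
  have hMi : 0 < 1 / M := by positivity
  set ψ' : ℕ → ℂ → ℝ := fun j z => Real.exp (-(N j * ((conj ζ * z).re + ‖ζ‖ * 32))) * ψ j z with hψ'
  have hin : ∀ z ∈ ball (0 : ℂ) 32, 0 ≤ (conj ζ * z).re + ‖ζ‖ * 32 := by
    intro z hz
    rw [mem_ball, dist_zero_right] at hz
    have h1 := (abs_le.1 (Complex.abs_re_le_norm (conj ζ * z))).1
    rw [norm_mul, Complex.norm_conj] at h1
    have h2 : ‖ζ‖ * ‖z‖ ≤ ‖ζ‖ * 32 := mul_le_mul_of_nonneg_left hz.le (norm_nonneg _)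
    linarith
  have hψ'1 : ∀ j, ∀ z ∈ ball (0 : ℂ) 32, |ψ' j z| ≤ 1 := by
    intro j z hz
    simp only [hψ']
    rw [abs_mul, abs_of_pos (Real.exp_pos _)]
    have h1 : Real.exp (-(N j * ((conj ζ * z).re + ‖ζ‖ * 32))) ≤ 1 := by
      rw [Real.exp_le_one_iff]
      have := mul_nonneg (hN j).le (hin z hz)
      linarith
    calc _ ≤ 1 * 1 := mul_le_mul h1 (hψ j z hz) (abs_nonneg _) zero_le_one
      _ = 1 := one_mul 1
  obtain ⟨⟨W', hW'⟩, hLP⟩ := hB1 ℂ 𝒰 N ψ' (ball 0 32) hN hψ'1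
  have hL' := hLP W' hW'
  have hE' := hJ 𝒰 32 N ψ W W' w ζ (by norm_num) hN hψ hL hw hL'
  set w' : ℂ → ℝ := fun z => w z * Real.exp (-((conj ζ * z).re + ‖ζ‖ * 32)) with hw'
  obtain ⟨-, -, -, hcomp, -⟩ := (hB2 ℂ 𝒰 N ψ' (ball 0 32) W' isOpen_ball hL').2 w' hE'
  have hcb : ∀ q : ℂ, ‖q - p‖ ≤ 1 / M → ∀ r : ℝ, r ≤ 33 / M → closedBall q r ⊆ ball (0 : ℂ) 32 := by
    intro q hq r hr x hx
    rw [mem_closedBall, dist_eq_norm] at hx
    rw [mem_ball, dist_zero_right]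
    have h1 : 1 / M ≤ 33 / M := div_le_div_of_nonneg_right (by norm_num) hM0.le
    calc ‖x‖ = ‖(x - q) + (q - p) + p‖ := by congr 1; ring
      _ ≤ ‖x - q‖ + ‖q - p‖ + ‖p‖ := norm_add₃_le
      _ < 32 := by linarith
  have hyp : ‖y - p‖ < 19 / (10 * M) := by rwa [mem_ball, dist_eq_norm] at hy
  have h19 : 19 / (10 * M) = 19 / 10 * (1 / M) := by field_simp
  have h20 : 1 / (20 * M) = 1 / 20 * (1 / M) := by field_simp
  have e33 : 33 / M = 33 * (1 / M) := by ring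
  have e32 : 32 / M = 32 * (1 / M) := by ring
  have e2 : 2 / M = 2 * (1 / M) := by ring
  have hyD : y ∈ ball (0 : ℂ) 32 := by
    refine hcb p (by rw [sub_self, norm_zero]; exact hMi.le) (33 / M) le_rfl ?_
    rw [mem_closedBall, dist_eq_norm, e33]
    rw [h19] at hyp
    linarith
  have hw'y : 0 < w' y := mul_pos h0 (Real.exp_pos _)
  -- the large disc
  have hK1 : closedBall p (33 / M) ⊆ ball (0 : ℂ) 32 :=
    hcb p (by rw [sub_self, norm_zero]; exact hMi.le) (33 / M) le_rfl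
  have hcW : W' (closedBall p (33 / M)) < Real.exp (n + δ / 2) * w' y := by
    refine hcomp _ hK1 (isCompact_closedBall _ _) _ (by positivity) fun x hx => ?_
    have h1 := hmain x hx
    have h2 : w' x ≤ Real.exp n * w' y := by
      simp only [hw']
      have e1 : ∀ z : ℂ, Real.exp (-((conj ζ * z).re + ‖ζ‖ * 32)) =
          Real.exp (-(conj ζ * z).re) * Real.exp (-(‖ζ‖ * 32)) := by
        intro z
        rw [← Real.exp_add]
        congr 1
        ring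
      rw [e1, e1]
      calc w x * (Real.exp (-(conj ζ * x).re) * Real.exp (-(‖ζ‖ * 32)))
          = (w x * Real.exp (-(conj ζ * x).re)) * Real.exp (-(‖ζ‖ * 32)) := by ring
        _ ≤ (Real.exp n * (w y * Real.exp (-(conj ζ * y).re))) * Real.exp (-(‖ζ‖ * 32)) :=
          mul_le_mul_of_nonneg_right h1 (Real.exp_pos _).le
        _ = _ := by ring
    refine h2.trans_lt ?_
    refine mul_lt_mul_of_pos_right ?_ hw'y
    exact Real.exp_lt_exp.2 (by linarith)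
  have hev1 := hL'.lt _ hK1 _ hcW
  -- the small disc
  have hbsub : ball y (1 / (20 * M)) ⊆ ball (0 : ℂ) 32 := by
    intro x hx
    refine hK1 ?_
    rw [mem_ball, dist_eq_norm, h20] at hx
    rw [mem_closedBall, dist_eq_norm, e33]
    rw [h19] at hyp
    calc ‖x - p‖ = ‖(x - y) + (y - p)‖ := by congr 1; ring
      _ ≤ ‖x - y‖ + ‖y - p‖ := norm_add_le _ _
      _ ≤ 33 * (1 / M) := by linarith
  have hev2 := ev_large hL' hE' hyD hw'y (by positivity : 0 < 1 / (20 * M)) hbsub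
    (by positivity : 0 < δ / 2)
  have hev3 : ∀ᶠ j in (𝒰 : Filter ℕ), ‖pj j - p‖ < 1 / (20 * M) := by
    have := (tendsto_iff_norm_sub_tendsto_zero.1 hpj).eventually_lt_const
      (by positivity : (0 : ℝ) < 1 / (20 * M))
    exact this
  filter_upwards [hev1, hev2, hev3] with j h1 h2 h3
  obtain ⟨x₀, hx₀, h2⟩ := h2
  have hfac : ∀ z, Real.exp (-(N j * (conj ζ * z).re)) * ψ j z = Real.exp (N j * (‖ζ‖ * 32)) * ψ' j z := by
    intro z
    simp only [hψ']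
    rw [← mul_assoc, ← Real.exp_add]
    congr 2
    ring
  simp only [hfac]
  rw [sn_const_mul' (Real.exp_pos _).le, sn_const_mul' (Real.exp_pos _).le,
    mul_left_comm (Real.exp (N j * (n + δ)))]
  refine mul_le_mul_of_nonneg_left ?_ (Real.exp_pos _).le
  have hq : ‖pj j - p‖ ≤ 1 / M := by
    rw [h20] at h3
    linarith
  have hA : sn (ψ' j) (closedBall (pj j) (32 / M)) ≤ (Real.exp (n + δ / 2) * w' y) ^ N j := by
    refine sn_le2 (by positivity) fun x hx => h1 x ?_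
    rw [mem_closedBall, dist_eq_norm, e32] at hx
    rw [mem_closedBall, dist_eq_norm, e33]
    calc ‖x - p‖ = ‖(x - pj j) + (pj j - p)‖ := by congr 1; ring
      _ ≤ ‖x - pj j‖ + ‖pj j - p‖ := norm_add_le _ _
      _ ≤ 33 * (1 / M) := by linarith
  have hB : (Real.exp (-(δ / 2)) * w' y) ^ N j ≤ sn (ψ' j) (closedBall (pj j) (2 / M)) := by
    refine h2.le.trans (le_sn2 (c := 1) (fun x hx => hψ'1 j x (hcb _ hq _ ?_ hx)) ?_)
    · rw [e2, e33]
      linarith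
    · rw [mem_ball, dist_eq_norm, h20] at hx₀
      rw [mem_closedBall, dist_eq_norm, e2]
      rw [h19] at hyp
      rw [h20] at h3
      calc ‖x₀ - pj j‖ = ‖(x₀ - y) + (y - p) - (pj j - p)‖ := by congr 1; ring
        _ ≤ ‖(x₀ - y) + (y - p)‖ + ‖pj j - p‖ := norm_sub_le _ _
        _ ≤ ‖x₀ - y‖ + ‖y - p‖ + ‖pj j - p‖ := by linarith [norm_add_le (x₀ - y) (y - p)]
        _ ≤ 2 * (1 / M) := by linarith
  refine hA.trans (le_trans (le_of_eq ?_) (mul_le_mul_of_nonneg_left hB (Real.exp_pos _).le))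
  rw [Real.mul_rpow (Real.exp_pos _).le hw'y.le, Real.mul_rpow (Real.exp_pos _).le hw'y.le,
    ← Real.exp_mul, ← Real.exp_mul, ← mul_assoc, ← Real.exp_add]
  congr 2
  ring

/-- the supremum of the members of the sequence on small discs is not small -/
lemma ev_low (hψ : ∀ j, ∀ z ∈ ball (0 : ℂ) 32, |ψ j z| ≤ 1)
    (hL : LimProp 𝒰 N ψ (ball (0 : ℂ) 32) W) (hw : Env (ball (0 : ℂ) 32) W w) (hN : ∀ j, 0 < N j)
    {R c ρ : ℝ} (hR : 0 < R) (hRρ : R + 4 * ρ < 32) (hρ : 0 < ρ)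
    (hYL : ∀ z : ℂ, ‖z‖ ≤ R → ∃ x ∈ ball z (2 * ρ), Real.exp (-c) ≤ w x) :
    ∀ᶠ j in (𝒰 : Filter ℕ), ∀ z : ℂ, ‖z‖ ≤ R →
      Real.exp (-((c + 1) * N j)) ≤ sn (ψ j) (closedBall z (4 * ρ)) := by
  by_contra hcon
  rw [← Ultrafilter.eventually_not] at hcon
  classical
  have hch : ∀ j : ℕ, ∃ z : ℂ, ‖z‖ ≤ R ∧ ((¬ ∀ z : ℂ, ‖z‖ ≤ R →
      Real.exp (-((c + 1) * N j)) ≤ sn (ψ j) (closedBall z (4 * ρ))) →
      sn (ψ j) (closedBall z (4 * ρ)) < Real.exp (-((c + 1) * N j))) := by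
    intro j
    by_cases h : ∀ z : ℂ, ‖z‖ ≤ R → Real.exp (-((c + 1) * N j)) ≤ sn (ψ j) (closedBall z (4 * ρ))
    · exact ⟨0, by rw [norm_zero]; exact hR.le, fun h' => absurd h h'⟩
    · push Not at h
      obtain ⟨z, hz, hz2⟩ := h
      exact ⟨z, hz, fun _ => hz2⟩
  choose zj hzj hzj2 using hch
  have hcomp : IsCompact (closedBall (0 : ℂ) R) := isCompact_closedBall _ _
  obtain ⟨z, hz, hlim⟩ : ∃ z ∈ closedBall (0 : ℂ) R, Tendsto zj 𝒰 (𝓝 z) := by
    have h1 := hcomp.ultrafilter_le_nhds (𝒰.map zj) (by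
      rw [Filter.le_principal_iff]
      refine Filter.mem_map.2 (Filter.Eventually.of_forall fun j => ?_)
      show zj j ∈ closedBall (0 : ℂ) R
      rw [mem_closedBall, dist_zero_right]
      exact hzj j)
    obtain ⟨z, hz, h1⟩ := h1
    exact ⟨z, hz, h1⟩
  rw [mem_closedBall, dist_zero_right] at hz
  obtain ⟨x, hx, hwx⟩ := hYL z hz
  rw [mem_ball, dist_eq_norm] at hx
  have hxD : x ∈ ball (0 : ℂ) 32 := by
    rw [mem_ball, dist_zero_right]
    calc ‖x‖ = ‖(x - z) + z‖ := by rw [sub_add_cancel]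
      _ ≤ ‖x - z‖ + ‖z‖ := norm_add_le _ _
      _ < 32 := by linarith
  have hbD : ball x ρ ⊆ ball (0 : ℂ) 32 := by
    intro y hy
    rw [mem_ball, dist_eq_norm] at hy
    rw [mem_ball, dist_zero_right]
    calc ‖y‖ = ‖(y - x) + (x - z) + z‖ := by congr 1; ring
      _ ≤ ‖y - x‖ + ‖x - z‖ + ‖z‖ := norm_add₃_le
      _ < 32 := by linarith
  have hwx0 : 0 < w x := (Real.exp_pos _).trans_le hwx
  have hev1 := ev_large hL hw hxD hwx0 hρ hbD one_pos
  have hev2 : ∀ᶠ j in (𝒰 : Filter ℕ), ‖zj j - z‖ < ρ :=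
    (tendsto_iff_norm_sub_tendsto_zero.1 hlim).eventually_lt_const hρ
  obtain ⟨j, h1, h2, h3⟩ := (hev1.and (hev2.and hcon)).exists
  have h4 := hzj2 j h3
  obtain ⟨y, hy, hy2⟩ := h1
  rw [mem_ball, dist_eq_norm] at hy
  have h5 : |ψ j y| ≤ sn (ψ j) (closedBall (zj j) (4 * ρ)) := by
    refine le_sn2 (c := 1) (fun t ht => hψ j t ?_) ?_
    · rw [mem_closedBall, dist_eq_norm] at ht
      rw [mem_ball, dist_zero_right]
      calc ‖t‖ = ‖(t - zj j) + zj j‖ := by rw [sub_add_cancel]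
        _ ≤ ‖t - zj j‖ + ‖zj j‖ := norm_add_le _ _
        _ < 32 := by linarith [hzj j]
    · rw [mem_closedBall, dist_eq_norm]
      calc ‖y - zj j‖ = ‖(y - x) + (x - z) - (zj j - z)‖ := by congr 1; ring
        _ ≤ ‖(y - x) + (x - z)‖ + ‖zj j - z‖ := norm_sub_le _ _
        _ ≤ ‖y - x‖ + ‖x - z‖ + ‖zj j - z‖ := by linarith [norm_add_le (y - x) (x - z)]
        _ ≤ 4 * ρ := by linarith
  have h6 : Real.exp (-((c + 1) * N j)) ≤ (Real.exp (-1) * w x) ^ N j := by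
    have h7 : Real.exp (-((c + 1) * N j)) = (Real.exp (-1) * Real.exp (-c)) ^ N j := by
      rw [← Real.exp_add, ← Real.exp_mul]
      congr 1
      ring
    rw [h7]
    exact Real.rpow_le_rpow (by positivity) (mul_le_mul_of_nonneg_left hwx (Real.exp_pos _).le) (hN j).le
  linarith

end Y5L

end Pool.Agent.Q73.AD
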