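import Pool.Agent.Q73.AD.StmY
import Pool.Agent.Q73.AD.YY0
import Pool.Agent.Q73.AD.TB1

/-!
# Linear squares: stopping by induction over the levels
-/

set_option autoImplicit false
open MeasureTheory Filter Topology Complex Metric
open scoped ContDiff ComplexConjugate

namespace Pool.Agent.Q73.AD

open Pool.Agent.Q73.NL

namespace Y9P

/-! ### Elementary facts on suprema -/

lemma re_split (ν p x : ℂ) : (conj ν * x).re = (conj ν * p).re + (conj ν * (x - p)).re := by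
  rw [← Complex.add_re]
  congr 1
  ring

lemma re_abs_le (ν z : ℂ) : |(conj ν * z).re| ≤ ‖ν‖ * ‖z‖ := by
  refine (Complex.abs_re_le_norm _).trans ?_
  rw [norm_mul, RCLike.norm_conj]

lemma cj_eq (ν : ℂ) (φ : ℂ → ℝ) (x : ℂ) : |cj ν φ x| = Real.exp (-(conj ν * x).re) * |φ x| := by
  rw [cj, abs_mul, abs_of_pos (Real.exp_pos _)]

lemma cj_bd {ν p : ℂ} {φ : ℂ → ℝ} {R c : ℝ} (_ : 0 ≤ R) (h : ∀ x ∈ closedBall p R, |φ x| ≤ c) :
    ∃ c', ∀ x ∈ closedBall p R, |cj ν φ x| ≤ c' := by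
  refine ⟨Real.exp (‖ν‖ * (‖p‖ + R)) * c, fun x hx => ?_⟩
  rw [cj_eq]
  have h1 : ‖x‖ ≤ ‖p‖ + R := by
    have h2 : ‖x - p‖ ≤ R := by rw [← dist_eq_norm]; exact hx
    calc ‖x‖ = ‖p + (x - p)‖ := by congr 1; ring
      _ ≤ ‖p‖ + ‖x - p‖ := norm_add_le _ _
      _ ≤ _ := by linarith
  have h3 := re_abs_le ν x
  have h4 : -(conj ν * x).re ≤ ‖ν‖ * (‖p‖ + R) :=
    (neg_le_abs _).trans (h3.trans (mul_le_mul_of_nonneg_left h1 (norm_nonneg _)))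
  have h5 : 0 ≤ c := (abs_nonneg _).trans (h x hx)
  calc Real.exp (-(conj ν * x).re) * |φ x| ≤ Real.exp (‖ν‖ * (‖p‖ + R)) * |φ x| :=
        mul_le_mul_of_nonneg_right (Real.exp_le_exp.2 h4) (abs_nonneg _)
    _ ≤ _ := mul_le_mul_of_nonneg_left (h x hx) (Real.exp_pos _).le

lemma sn_le_cj {ν : ℂ} {φ : ℂ → ℝ} {E : Set ℂ} {c t : ℝ} (hb : ∀ x ∈ E, |cj ν φ x| ≤ c)
    (ht : ∀ x ∈ E, (conj ν * x).re ≤ t) : sn φ E ≤ Real.exp t * sn (cj ν φ) E := by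
  refine sn_le' (mul_nonneg (Real.exp_pos _).le (sn_nonneg' _ _)) fun x hx => ?_
  have h1 : |φ x| = Real.exp ((conj ν * x).re) * |cj ν φ x| := by
    rw [cj_eq, ← mul_assoc, ← Real.exp_add, add_neg_cancel, Real.exp_zero, one_mul]
  rw [h1]
  exact mul_le_mul (Real.exp_le_exp.2 (ht x hx)) (le_sn' hb hx) (abs_nonneg _) (Real.exp_pos _).le

lemma cj_le_sn {ν : ℂ} {φ : ℂ → ℝ} {E : Set ℂ} {c t : ℝ} (hb : ∀ x ∈ E, |φ x| ≤ c)
    (ht : ∀ x ∈ E, t ≤ (conj ν * x).re) : sn (cj ν φ) E ≤ Real.exp (-t) * sn φ E := by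
  refine sn_le' (mul_nonneg (Real.exp_pos _).le (sn_nonneg' _ _)) fun x hx => ?_
  rw [cj_eq]
  exact mul_le_mul (Real.exp_le_exp.2 (neg_le_neg (ht x hx))) (le_sn' hb hx) (abs_nonneg _)
    (Real.exp_pos _).le

/-- boundedness of a solution -/
lemma loc_bd {lam L s : ℝ} {p : ℂ} {ρ φ : ℂ → ℝ} (h : Loc lam L s p ρ φ) :
    ∃ c, ∀ x ∈ closedBall p (32 * s), |φ x| ≤ c := by
  have h1 : ContinuousOn φ (closedBall p (32 * s)) := fun z hz =>
    (h.sol z hz).1.continuousAt.continuousWithinAt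
  obtain ⟨c, hc⟩ := (isCompact_closedBall p (32 * s)).exists_bound_of_continuousOn h1
  exact ⟨c, fun x hx => hc x hx⟩

lemma ball_re {ν p x : ℂ} {r : ℝ} (hx : x ∈ closedBall p r) :
    |(conj ν * (x - p)).re| ≤ ‖ν‖ * r := by
  refine (re_abs_le ν _).trans (mul_le_mul_of_nonneg_left ?_ (norm_nonneg _))
  rw [← dist_eq_norm]
  exact hx

lemma gr_nonneg {lam L s : ℝ} {p : ℂ} {ρ φ : ℂ → ℝ} (h : Loc lam L s p ρ φ) : 0 ≤ gr φ p s := by
  obtain ⟨c, hc⟩ := loc_bd h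
  have hs := h.s_pos
  have hsub : closedBall p (2 * s) ⊆ closedBall p (32 * s) := closedBall_subset_closedBall (by linarith)
  have h1 : 0 < sn φ (closedBall p (2 * s)) := h.pos p (2 * s) (by linarith) hsub
  refine Real.log_nonneg ?_
  rw [le_div_iff₀ h1, one_mul]
  exact sn_mono' hc hsub

lemma gr_le {lam L s : ℝ} {p : ℂ} {ρ φ : ℂ → ℝ} (h : Loc lam L s p ρ φ) {ν : ℂ} {n : ℝ}
    (hn : SS ν φ p (32 * s) ≤ Real.exp n * SS ν φ p (2 * s)) : gr φ p s ≤ n + 34 * (‖ν‖ * s) := by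
  obtain ⟨c, hc⟩ := loc_bd h
  have hs := h.s_pos
  have hsub : closedBall p (2 * s) ⊆ closedBall p (32 * s) := closedBall_subset_closedBall (by linarith)
  have h1 : 0 < sn φ (closedBall p (2 * s)) := h.pos p (2 * s) (by linarith) hsub
  have h2 : 0 < sn φ (closedBall p (32 * s)) := h.pos p (32 * s) (by linarith) le_rfl
  obtain ⟨c', hc'⟩ := cj_bd (ν := ν) (by linarith : (0:ℝ) ≤ 32 * s) hc
  have h3 : sn φ (closedBall p (32 * s)) ≤
      Real.exp ((conj ν * p).re + ‖ν‖ * (32 * s)) * sn (cj ν φ) (closedBall p (32 * s)) := by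
    refine sn_le_cj hc' fun x hx => ?_
    rw [re_split ν p x]
    linarith [le_abs_self (conj ν * (x - p)).re, ball_re (ν := ν) hx]
  have h4 : sn (cj ν φ) (closedBall p (2 * s)) ≤
      Real.exp (-((conj ν * p).re - ‖ν‖ * (2 * s))) * sn φ (closedBall p (2 * s)) := by
    refine cj_le_sn (fun x hx => hc x (hsub hx)) fun x hx => ?_
    rw [re_split ν p x]
    linarith [neg_abs_le (conj ν * (x - p)).re, ball_re (ν := ν) hx]
  rw [gr, Real.log_le_iff_le_exp (div_pos h2 h1), div_le_iff₀ h1]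
  calc sn φ (closedBall p (32 * s)) ≤ Real.exp ((conj ν * p).re + ‖ν‖ * (32 * s)) *
        (Real.exp n * (Real.exp (-((conj ν * p).re - ‖ν‖ * (2 * s))) * sn φ (closedBall p (2 * s)))) := by
        refine h3.trans (mul_le_mul_of_nonneg_left ?_ (Real.exp_pos _).le)
        exact hn.trans (mul_le_mul_of_nonneg_left h4 (Real.exp_pos _).le)
    _ = Real.exp (n + 34 * (‖ν‖ * s)) * sn φ (closedBall p (2 * s)) := by
        rw [← mul_assoc, ← mul_assoc, ← Real.exp_add, ← Real.exp_add]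
        congr 2
        ring

lemma le_gr {lam L s : ℝ} {p : ℂ} {ρ φ : ℂ → ℝ} (h : Loc lam L s p ρ φ) {ν : ℂ} {n : ℝ} (hν : ν ≠ 0)
    (hn : ∀ z : ℂ, ‖z - p‖ ≤ 8 * s → SS ν φ p (32 * s) ≤ Real.exp n * SS ν φ z s) :
    5 * (‖ν‖ * s) - n ≤ gr φ p s := by
  obtain ⟨c, hc⟩ := loc_bd h
  have hs := h.s_pos
  have hν0 : 0 < ‖ν‖ := norm_pos_iff.2 hν
  have hsub : closedBall p (2 * s) ⊆ closedBall p (32 * s) := closedBall_subset_closedBall (by linarith)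
  have h1 : 0 < sn φ (closedBall p (2 * s)) := h.pos p (2 * s) (by linarith) hsub
  have h2 : 0 < sn φ (closedBall p (32 * s)) := h.pos p (32 * s) (by linarith) le_rfl
  obtain ⟨c', hc'⟩ := cj_bd (ν := ν) (by linarith : (0:ℝ) ≤ 32 * s) hc
  obtain ⟨z, hz⟩ : ∃ z : ℂ, z = p + ((8 * s / ‖ν‖ : ℝ) : ℂ) * ν := ⟨_, rfl⟩
  have hzp : z - p = ((8 * s / ‖ν‖ : ℝ) : ℂ) * ν := by rw [hz]; ring
  have hzn : ‖z - p‖ = 8 * s := by
    rw [hzp, norm_mul, Complex.norm_real, Real.norm_eq_abs, abs_of_pos (by positivity)]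
    field_simp
  have hzre : (conj ν * (z - p)).re = 8 * (‖ν‖ * s) := by
    have h5 : conj ν * (z - p) = ((8 * s / ‖ν‖ * ‖ν‖ ^ 2 : ℝ) : ℂ) := by
      rw [hzp]
      have h6 : conj ν * ν = ((‖ν‖ ^ 2 : ℝ) : ℂ) := by
        rw [mul_comm, Complex.mul_conj, Complex.normSq_eq_norm_sq]
      calc conj ν * (((8 * s / ‖ν‖ : ℝ) : ℂ) * ν) = ((8 * s / ‖ν‖ : ℝ) : ℂ) * (conj ν * ν) := by ring
        _ = _ := by rw [h6]; push_cast; ring
    rw [h5, Complex.ofReal_re]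
    field_simp
  have hsub2 : closedBall z s ⊆ closedBall p (32 * s) := by
    intro x hx
    rw [mem_closedBall, dist_eq_norm] at *
    calc ‖x - p‖ = ‖(x - z) + (z - p)‖ := by congr 1; ring
      _ ≤ ‖x - z‖ + ‖z - p‖ := norm_add_le _ _
      _ ≤ 32 * s := by linarith
  -- lower bound on the large disc
  have h3 : sn (cj ν φ) (closedBall z s) ≤
      Real.exp (-((conj ν * p).re + 7 * (‖ν‖ * s))) * sn φ (closedBall z s) := by
    refine cj_le_sn (fun x hx => hc x (hsub2 hx)) fun x hx => ?_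
    have h4 := re_split ν p z
    rw [re_split ν z x]
    linarith [neg_abs_le (conj ν * (x - z)).re, ball_re (ν := ν) hx]
  have h4 : sn φ (closedBall p (2 * s)) ≤
      Real.exp ((conj ν * p).re + ‖ν‖ * (2 * s)) * sn (cj ν φ) (closedBall p (2 * s)) := by
    refine sn_le_cj (fun x hx => hc' x (hsub hx)) fun x hx => ?_
    rw [re_split ν p x]
    linarith [le_abs_self (conj ν * (x - p)).re, ball_re (ν := ν) hx]
  have h5 : sn (cj ν φ) (closedBall p (2 * s)) ≤ Real.exp n * sn (cj ν φ) (closedBall z s) :=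
    (sn_mono' hc' hsub).trans (hn z hzn.le)
  have h6 : sn φ (closedBall z s) ≤ sn φ (closedBall p (32 * s)) := sn_mono' hc hsub2
  rw [gr, Real.le_log_iff_exp_le (div_pos h2 h1), le_div_iff₀ h1]
  calc Real.exp (5 * (‖ν‖ * s) - n) * sn φ (closedBall p (2 * s))
      ≤ Real.exp (5 * (‖ν‖ * s) - n) * (Real.exp ((conj ν * p).re + ‖ν‖ * (2 * s)) *
        (Real.exp n * (Real.exp (-((conj ν * p).re + 7 * (‖ν‖ * s))) *
          sn φ (closedBall p (32 * s))))) := by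
        refine mul_le_mul_of_nonneg_left ?_ (Real.exp_pos _).le
        refine h4.trans (mul_le_mul_of_nonneg_left ?_ (Real.exp_pos _).le)
        refine h5.trans (mul_le_mul_of_nonneg_left ?_ (Real.exp_pos _).le)
        exact h3.trans (mul_le_mul_of_nonneg_left h6 (Real.exp_pos _).le)
    _ = sn φ (closedBall p (32 * s)) := by
        rw [← mul_assoc, ← mul_assoc, ← mul_assoc, ← Real.exp_add, ← Real.exp_add, ← Real.exp_add]
        rw [show 5 * (‖ν‖ * s) - n + ((conj ν * p).re + ‖ν‖ * (2 * s)) + n +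
          -((conj ν * p).re + 7 * (‖ν‖ * s)) = 0 by ring, Real.exp_zero, one_mul]

/-- subsquares -/
lemma loc_sub {lam L s : ℝ} {p : ℂ} {ρ φ : ℂ → ℝ} (h : Loc lam L s p ρ φ) {m : ℕ} {a : ℕ × ℕ}
    (ha : a ∈ gd m) : Loc lam L (s / m) (p + s * ct m a) ρ φ := by
  have hm : 0 < m := by rw [mem_gd] at ha; omega
  have hm' : (1 : ℝ) ≤ m := by exact_mod_cast hm
  have hs := h.s_pos
  have hsub : closedBall (p + s * ct m a) (32 * (s / m)) ⊆ closedBall p (32 * s) := by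
    rcases Nat.lt_or_ge m 2 with h2 | h2
    · have h3 : m = 1 := by omega
      subst h3
      rw [ct_one a ha]
      simp
    · have h3 : (2 : ℝ) ≤ m := by exact_mod_cast h2
      intro x hx
      rw [mem_closedBall, dist_eq_norm] at *
      have h4 : ‖(s : ℂ) * ct m a‖ ≤ s * 2 := by
        rw [norm_mul, Complex.norm_real, Real.norm_eq_abs, abs_of_pos hs]
        refine mul_le_mul_of_nonneg_left ((ct_norm ha).trans ?_) hs.le
        rw [Real.sqrt_le_left (by norm_num)]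
        norm_num
      have h5 : s / m ≤ s / 2 := div_le_div_of_nonneg_left hs.le (by norm_num) h3
      calc ‖x - p‖ = ‖(x - (p + s * ct m a)) + s * ct m a‖ := by congr 1; ring
        _ ≤ ‖x - (p + s * ct m a)‖ + ‖(s : ℂ) * ct m a‖ := norm_add_le _ _
        _ ≤ 32 * s := by linarith
  exact ⟨h.lam_pos, by positivity, (div_le_self hs.le hm').trans h.s_le,
    fun z hz => h.sol z (hsub hz), fun z r hr hz => h.pos z r hr (hz.trans hsub)⟩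


/-! ### The term of a released square, and the shift of the indices -/

/-- the contribution of a released square -/
noncomputable def tm (M : ℕ) (ν₀ : ℂ) (φ : ℂ → ℝ) (p : ℂ) (s : ℝ) (r : ℕ × (ℕ × ℕ)) : ℝ :=
  ((M : ℝ) ^ (2 * r.1))⁻¹ *
    (1 + gr φ (p + s * ct (M ^ r.1) r.2) (s / M ^ r.1) / (‖ν₀‖ * (s / M ^ r.1)))

/-- the index in the large square of a square given by its index in the subsquare `a` -/
def sh (M : ℕ) (a : ℕ × ℕ) (r : ℕ × (ℕ × ℕ)) : ℕ × (ℕ × ℕ) := (r.1 + 1, ch (M ^ r.1) a r.2)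

lemma ct_sh {M : ℕ} (hM : 0 < M) (p : ℂ) (s : ℝ) (a : ℕ × ℕ) (k : ℕ) (c : ℕ × ℕ) :
    p + s * ct (M ^ (k + 1)) (ch (M ^ k) a c) = p + s * ct M a + ((s / M : ℝ) : ℂ) * ct (M ^ k) c := by
  rw [pow_succ' M k, ct_ch hM (pow_pos hM k)]
  push_cast
  ring

lemma tm_sh {M : ℕ} (hM : 0 < M) (ν₀ : ℂ) (φ : ℂ → ℝ) (p : ℂ) (s : ℝ) (a : ℕ × ℕ)
    (r : ℕ × (ℕ × ℕ)) :
    tm M ν₀ φ p s (sh M a r) = ((M : ℝ) ^ 2)⁻¹ * tm M ν₀ φ (p + s * ct M a) (s / M) r := by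
  have hM' : (M : ℝ) ≠ 0 := by positivity
  have h1 : s / (M : ℝ) ^ (r.1 + 1) = s / M / M ^ r.1 := by
    rw [pow_succ']
    field_simp
  simp only [tm, sh]
  rw [ct_sh hM, h1, show 2 * (r.1 + 1) = 2 + 2 * r.1 by ring, pow_add, mul_inv]
  ring

lemma tm_nonneg {lam L s : ℝ} {p : ℂ} {ρ φ : ℂ → ℝ} (h : Loc lam L s p ρ φ) {M : ℕ} (ν₀ : ℂ)
    {r : ℕ × (ℕ × ℕ)} (hr : r.2 ∈ gd (M ^ r.1)) : 0 ≤ tm M ν₀ φ p s r := by
  have h1 := loc_sub h hr
  have h2 := gr_nonneg h1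
  have h3 := h1.s_pos
  push_cast at h2 h3
  unfold tm
  positivity

lemma sh_inj {M : ℕ} {a : ℕ × ℕ} {r r' : ℕ × (ℕ × ℕ)} (hr : r.2 ∈ gd (M ^ r.1))
    (hr' : r'.2 ∈ gd (M ^ r'.1)) (h : sh M a r = sh M a r') : r = r' := by
  obtain ⟨k, c⟩ := r
  obtain ⟨k', c'⟩ := r'
  simp only [sh, Prod.mk.injEq, add_left_inj] at h
  obtain ⟨rfl, h2⟩ := h
  have h3 : c = c' := (ch_inj hr hr' h2).2
  rw [h3]

/-- a sum of nonnegative terms over a union -/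
lemma sum_biUnion_le' {α β : Type*} [DecidableEq α] [DecidableEq β] (t : Finset α) (g : α → Finset β)
    (f : β → ℝ) (hf : ∀ a ∈ t, ∀ b ∈ g a, 0 ≤ f b) :
    ∑ b ∈ t.biUnion g, f b ≤ ∑ a ∈ t, ∑ b ∈ g a, f b := by
  induction t using Finset.induction_on with
  | empty => simp
  | insert a t ha ih =>
    rw [Finset.biUnion_insert, Finset.sum_insert ha]
    have h1 : ∑ b ∈ g a ∪ t.biUnion g, f b + ∑ b ∈ g a ∩ t.biUnion g, f b =
        ∑ b ∈ g a, f b + ∑ b ∈ t.biUnion g, f b := Finset.sum_union_inter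
    have h2 : 0 ≤ ∑ b ∈ g a ∩ t.biUnion g, f b := by
      refine Finset.sum_nonneg fun b hb => ?_
      exact hf a (Finset.mem_insert_self a t) b (Finset.mem_inter.1 hb).1
    have h3 := ih fun x hx b hb => hf x (Finset.mem_insert_of_mem hx) b hb
    linarith

/-- the ancestors of a square of the subsquare `a` -/
lemma anc_sh {M k k' : ℕ} (hM : 0 < M) (hk : k' ≤ k) (a c : ℕ × ℕ) :
    anc (M ^ (k - k')) (ch (M ^ k) a c) = ch (M ^ k') a (anc (M ^ (k - k')) c) := by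
  have h1 : M ^ k = M ^ k' * M ^ (k - k') := by rw [← pow_add]; congr 1; omega
  have h2 : ch (M ^ k) a c =
      ch (M ^ (k - k')) (ch (M ^ k') a (anc (M ^ (k - k')) c)) (md (M ^ (k - k')) c) := by
    rw [ch_ch, ch_anc_md, ← h1]
  rw [h2, anc_ch (md_mem (pow_pos hM _) c)]

/-- the threshold for the growth exponent -/
noncomputable def thr (T x r : ℝ) : ℝ := T * (1 + Real.log (2 * (x * r)) + 2 * r * (x * r))

lemma thr_le {T x r y : ℝ} (hT : 1 ≤ T) (hy : 1 ≤ y) (h : y ≤ x * r) :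
    thr T x r ≤ (3 * T / Real.sqrt y + 2 * T * r) * (x * r) := by
  obtain ⟨z, hz⟩ : ∃ z : ℝ, z = x * r := ⟨_, rfl⟩
  rw [← hz] at h
  have hz1 : 1 ≤ z := hy.trans h
  have hz0 : 0 < z := by linarith
  have hy0 : 0 < y := by linarith
  have h1 : 1 + Real.log (2 * z) ≤ 3 * Real.sqrt z := by
    have h2 : Real.log (2 * z) = Real.log 2 + 2 * Real.log (Real.sqrt z) := by
      rw [Real.log_mul (by norm_num) hz0.ne', Real.log_sqrt hz0.le]
      ring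
    have h3 := Real.log_le_sub_one_of_pos (Real.sqrt_pos.2 hz0)
    have h4 : Real.log 2 < 0.6931471808 := Real.log_two_lt_d9
    have h5 : 1 ≤ Real.sqrt z := by rw [Real.one_le_sqrt]; exact hz1
    rw [h2]
    linarith
  have h2 : Real.sqrt z ≤ z / Real.sqrt y := by
    rw [le_div_iff₀ (Real.sqrt_pos.2 hy0)]
    calc Real.sqrt z * Real.sqrt y ≤ Real.sqrt z * Real.sqrt z :=
          mul_le_mul_of_nonneg_left (Real.sqrt_le_sqrt h) (Real.sqrt_nonneg _)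
      _ = z := Real.mul_self_sqrt hz0.le
  unfold thr
  rw [← hz]
  have h3 : 3 * T * Real.sqrt z ≤ 3 * T * (z / Real.sqrt y) :=
    mul_le_mul_of_nonneg_left h2 (by linarith)
  have h4 : T * (1 + Real.log (2 * z)) ≤ T * (3 * Real.sqrt z) :=
    mul_le_mul_of_nonneg_left h1 (by linarith)
  calc T * (1 + Real.log (2 * z) + 2 * r * z) = T * (1 + Real.log (2 * z)) + 2 * T * r * z := by ring
    _ ≤ 3 * T * (z / Real.sqrt y) + 2 * T * r * z := by linarith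
    _ = _ := by ring

/-- the sum of the first powers of `1 / 4` -/
noncomputable def gs (J : ℕ) : ℝ := ∑ k ∈ Finset.range J, (1 / 4 : ℝ) ^ k

lemma gs_le (J : ℕ) : gs J ≤ 4 / 3 := by
  unfold gs
  rw [geom_sum_eq (by norm_num)]
  have h : (0 : ℝ) < (1 / 4 : ℝ) ^ J := by positivity
  rw [div_le_iff_of_neg (by norm_num)]
  linarith

/-- the error term -/
noncomputable def er (A T B : ℝ) (J : ℕ) (s : ℝ) : ℝ := A * T * (3 / Real.sqrt B * gs J + 4 * s)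

lemma er_step {A T B x s : ℝ} {M J : ℕ} (hA : 0 ≤ A) (hT : 1 ≤ T) (hB : 1 ≤ B) (hs : 0 < s) (hx : 0 < x)
    (hM : 16 ≤ M) (h : B * M ^ J ≤ x * (s / M)) :
    A * (thr T x (s / M) / (x * (s / M))) + er A T B J (s / M) ≤ er A T B (J + 1) s := by
  have hM' : (16 : ℝ) ≤ M := by exact_mod_cast hM
  have hM0 : (0 : ℝ) < M := by linarith
  have hr : 0 < s / M := by positivity
  have hp : (1 : ℝ) ≤ M ^ J := one_le_pow₀ (by linarith)
  have h1 : 1 ≤ B * M ^ J := by nlinarith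
  have h2 := thr_le hT h1 h
  have h3 : thr T x (s / M) / (x * (s / M)) ≤ 3 * T / Real.sqrt (B * M ^ J) + 2 * T * (s / M) := by
    rw [div_le_iff₀ (by positivity)]
    exact h2
  have hB0 : 0 < Real.sqrt B := Real.sqrt_pos.2 (by linarith)
  have h4 : Real.sqrt B * 4 ^ J ≤ Real.sqrt (B * M ^ J) := by
    rw [Real.sqrt_mul (by linarith)]
    refine mul_le_mul_of_nonneg_left ?_ hB0.le
    refine Real.le_sqrt_of_sq_le ?_
    rw [← pow_mul, mul_comm J 2, pow_mul]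
    exact pow_le_pow_left₀ (by norm_num) (by linarith) J
  have h5 : 3 * T / Real.sqrt (B * M ^ J) ≤ T * (3 / Real.sqrt B * (1 / 4) ^ J) := by
    calc 3 * T / Real.sqrt (B * M ^ J) ≤ 3 * T / (Real.sqrt B * 4 ^ J) :=
          div_le_div_of_nonneg_left (by linarith) (by positivity) h4
      _ = T * (3 / Real.sqrt B * (1 / 4) ^ J) := by
          rw [one_div, inv_pow]
          field_simp
  have h6 : s / M ≤ s / 16 := div_le_div_of_nonneg_left hs.le (by norm_num) hM'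
  have h7 : gs (J + 1) = gs J + (1 / 4) ^ J := by
    unfold gs
    rw [Finset.sum_range_succ]
  unfold er
  rw [h7]
  have h8 : A * (thr T x (s / M) / (x * (s / M))) ≤
      A * (T * (3 / Real.sqrt B * (1 / 4) ^ J) + 2 * T * (s / M)) :=
    mul_le_mul_of_nonneg_left (h3.trans (by linarith)) hA
  have h9 : 0 ≤ A * T := by positivity
  have h10 : A * T * (6 * (s / M)) ≤ A * T * (4 * s) :=
    mul_le_mul_of_nonneg_left (by linarith) h9
  calc _ ≤ A * (T * (3 / Real.sqrt B * (1 / 4) ^ J) + 2 * T * (s / M)) +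
        A * T * (3 / Real.sqrt B * gs J + 4 * (s / M)) := by linarith
    _ = A * T * (3 / Real.sqrt B * (gs J + (1 / 4) ^ J)) + A * T * (6 * (s / M)) := by ring
    _ ≤ A * T * (3 / Real.sqrt B * (gs J + (1 / 4) ^ J)) + A * T * (4 * s) := by linarith
    _ = _ := by ring


lemma thr_nonneg {T x r : ℝ} (hT : 1 ≤ T) (hr : 0 ≤ r) (h : 1 ≤ x * r) : 0 ≤ thr T x r := by
  unfold thr
  have h1 : 0 ≤ Real.log (2 * (x * r)) := Real.log_nonneg (by linarith)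
  positivity

lemma gs_nonneg (J : ℕ) : 0 ≤ gs J := Finset.sum_nonneg fun _ _ => by positivity

lemma er_nonneg {A T B : ℝ} (J : ℕ) {s : ℝ} (hA : 0 ≤ A) (hT : 1 ≤ T) (hs : 0 ≤ s) :
    0 ≤ er A T B J s := by
  unfold er
  have h1 := gs_nonneg J
  positivity

/-- the conclusion of the one-step lemma -/
def Step (C T ε₀ : ℝ) (M : ℕ) : Prop :=
  ∀ (lam L s N : ℝ) (p ν : ℂ) (ρ φ : ℂ → ℝ), Loc lam L s p ρ φ → lam * L ≤ ‖ν‖ ^ 2 →
  1 ≤ ‖ν‖ * s → T * (1 + Real.log (‖ν‖ * s) + s * (‖ν‖ * s)) ≤ N → N ≤ ε₀ * (‖ν‖ * s) →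
  SS ν φ p (32 * s) ≤ Real.exp N * SS ν φ p (2 * s) →
  (∀ z : ℂ, ‖z - p‖ ≤ 8 * s → SS ν φ p (32 * s) ≤ Real.exp (C * N) * SS ν φ z s) ∧
  ∃ (ν' : ℕ × ℕ → ℂ) (n : ℕ × ℕ → ℝ), (∀ a ∈ gd M, 0 ≤ n a ∧
      SS (ν' a) φ (p + s * ct M a) (32 * (s / M)) ≤
        Real.exp (n a) * SS (ν' a) φ (p + s * ct M a) (2 * (s / M))) ∧
    ∑ a ∈ gd M, n a ≤ C * (1 + Real.log M) * N ∧ ∑ a ∈ gd M, ‖ν' a - ν‖ ≤ C * M ^ 2 * (N / s)

/-- the one-step lemma for the data of a good square -/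
lemma good_step {C T ε₀ ε₁ : ℝ} {M : ℕ} (hC : 1 ≤ C) (hT : 1 ≤ T) (hε1 : 0 < ε₁) (hε2 : ε₁ ≤ ε₀ / 2)
    (hε3 : ε₁ * (8 * C) ≤ 1) (h8 : Step C T ε₀ M) {lam L : ℝ} {ν₀ : ℂ} {ρ φ : ℂ → ℝ}
    (hν : 4 * (lam * L) ≤ ‖ν₀‖ ^ 2) {s N : ℝ} {p ν : ℂ} (hL : Loc lam L s p ρ φ)
    (hN : thr T ‖ν₀‖ s ≤ N) (hB : 2 ≤ ‖ν₀‖ * s)
    (hS : SS ν φ p (32 * s) ≤ Real.exp N * SS ν φ p (2 * s)) (h1 : N ≤ ε₁ * (‖ν₀‖ * s))
    (h2 : ‖ν - ν₀‖ ≤ ‖ν₀‖ / 2) :
    (‖ν₀‖ * s ≤ gr φ p s ∧ gr φ p s ≤ 52 * (‖ν₀‖ * s)) ∧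
    ∃ (ν' : ℕ × ℕ → ℂ) (n : ℕ × ℕ → ℝ), (∀ a ∈ gd M, 0 ≤ n a ∧
      SS (ν' a) φ (p + s * ct M a) (32 * (s / M)) ≤
        Real.exp (n a) * SS (ν' a) φ (p + s * ct M a) (2 * (s / M))) ∧
    ∑ a ∈ gd M, n a ≤ C * (1 + Real.log M) * N ∧
    ∑ a ∈ gd M, ‖ν' a - ν‖ ≤ C * M ^ 2 * (N / s) := by
  have hs := hL.s_pos
  have hx : 0 < ‖ν₀‖ * s := by linarith
  have hx0 : 0 < ‖ν₀‖ := pos_of_mul_pos_left hx hs.le
  have h3 : ‖ν‖ ≤ 3 / 2 * ‖ν₀‖ := by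
    calc ‖ν‖ = ‖(ν - ν₀) + ν₀‖ := by congr 1; ring
      _ ≤ ‖ν - ν₀‖ + ‖ν₀‖ := norm_add_le _ _
      _ ≤ _ := by linarith
  have h4 : ‖ν₀‖ / 2 ≤ ‖ν‖ := by
    have : ‖ν₀‖ ≤ ‖ν - ν₀‖ + ‖ν‖ := by
      calc ‖ν₀‖ = ‖ν - (ν - ν₀)‖ := by congr 1; ring
        _ ≤ ‖ν‖ + ‖ν - ν₀‖ := norm_sub_le _ _
        _ = _ := by ring
    linarith
  have hν0 : 0 < ‖ν‖ := by linarith
  have h5 : ‖ν‖ * s ≤ 3 / 2 * (‖ν₀‖ * s) := by nlinarith
  have h6 : (‖ν₀‖ * s) / 2 ≤ ‖ν‖ * s := by nlinarith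
  have h7 : lam * L ≤ ‖ν‖ ^ 2 := by nlinarith
  have h9 : T * (1 + Real.log (‖ν‖ * s) + s * (‖ν‖ * s)) ≤ N := by
    refine le_trans ?_ hN
    unfold thr
    refine mul_le_mul_of_nonneg_left ?_ (by linarith)
    have h10 : Real.log (‖ν‖ * s) ≤ Real.log (2 * (‖ν₀‖ * s)) :=
      Real.log_le_log (by positivity) (by linarith)
    have h11 : s * (‖ν‖ * s) ≤ s * (2 * (‖ν₀‖ * s)) := mul_le_mul_of_nonneg_left (by linarith) hs.le
    linarith
  have h10 : N ≤ ε₀ * (‖ν‖ * s) := by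
    refine h1.trans ?_
    have : ε₁ * (‖ν₀‖ * s) ≤ ε₀ / 2 * (‖ν₀‖ * s) := mul_le_mul_of_nonneg_right hε2 hx.le
    have h12 : ε₀ * ((‖ν₀‖ * s) / 2) ≤ ε₀ * (‖ν‖ * s) := mul_le_mul_of_nonneg_left h6 (by linarith)
    linarith
  obtain ⟨ha, hb⟩ := h8 lam L s N p ν ρ φ hL h7 (by linarith) h9 h10 hS
  refine ⟨⟨?_, ?_⟩, hb⟩
  · have h11 := le_gr hL (norm_pos_iff.1 hν0) ha
    have h12 : C * N ≤ C * (ε₁ * (‖ν₀‖ * s)) := mul_le_mul_of_nonneg_left h1 (by linarith)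
    have h13 : C * (ε₁ * (‖ν₀‖ * s)) ≤ 1 / 8 * (‖ν₀‖ * s) := by
      have : C * ε₁ ≤ 1 / 8 := by linarith
      calc C * (ε₁ * (‖ν₀‖ * s)) = C * ε₁ * (‖ν₀‖ * s) := by ring
        _ ≤ _ := mul_le_mul_of_nonneg_right this hx.le
    linarith
  · have h11 := gr_le hL hS
    have h12 : ε₁ ≤ 1 := by nlinarith
    have h13 : ε₁ * (‖ν₀‖ * s) ≤ 1 * (‖ν₀‖ * s) := mul_le_mul_of_nonneg_right h12 hx.le
    linarith

/-- a bad square is released at once -/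
lemma bad_case {ε₁ T B A : ℝ} {M : ℕ} (hT : 1 ≤ T) (hε1 : 0 < ε₁) (hA : A = 35 / ε₁ + 1)
    {lam L : ℝ} {ν₀ : ℂ} {ρ φ : ℂ → ℝ} (J : ℕ) {s N : ℝ} {p ν : ℂ} (hL : Loc lam L s p ρ φ)
    (hN : 0 ≤ N) (hx : 0 < ‖ν₀‖ * s) (hS : SS ν φ p (32 * s) ≤ Real.exp N * SS ν φ p (2 * s))
    (hg : ¬ (N ≤ ε₁ * (‖ν₀‖ * s) ∧ ‖ν - ν₀‖ ≤ ‖ν₀‖ / 2)) :
    ∃ R : Finset (ℕ × (ℕ × ℕ)), (∀ r ∈ R, r.1 ≤ J ∧ r.2 ∈ gd (M ^ r.1)) ∧
      ∑ r ∈ R, tm M ν₀ φ p s r ≤ A * (N / (‖ν₀‖ * s)) + 104 * (‖ν - ν₀‖ / ‖ν₀‖) + er A T B J s ∧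
      (∀ k ≤ J, ∀ b ∈ gd (M ^ k), (∀ k' ≤ k, (k', anc (M ^ (k - k')) b) ∉ R) →
        ‖ν₀‖ * (s / M ^ k) ≤ gr φ (p + s * ct (M ^ k) b) (s / M ^ k) ∧
        gr φ (p + s * ct (M ^ k) b) (s / M ^ k) ≤ 52 * (‖ν₀‖ * (s / M ^ k))) ∧
      (N ≤ ε₁ * (‖ν₀‖ * s) → ‖ν - ν₀‖ ≤ ‖ν₀‖ / 2 → ∀ r ∈ R, 1 ≤ r.1) := by
  have hs := hL.s_pos
  have hx0 : 0 < ‖ν₀‖ := pos_of_mul_pos_left hx hs.le
  have hA0 : 0 ≤ A := by rw [hA]; positivity
  refine ⟨{(0, (0, 0))}, ?_, ?_, ?_, ?_⟩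
  · intro r hr
    rw [Finset.mem_singleton] at hr
    subst hr
    refine ⟨Nat.zero_le _, ?_⟩
    rw [mem_gd]
    simp
  · rw [Finset.sum_singleton]
    have hmem : ((0 : ℕ), (0 : ℕ)) ∈ gd 1 := by rw [mem_gd]; simp
    have h1 : tm M ν₀ φ p s (0, (0, 0)) = 1 + gr φ p s / (‖ν₀‖ * s) := by
      simp only [tm]
      rw [mul_zero, pow_zero, pow_zero, ct_one _ hmem, mul_zero, add_zero, div_one, inv_one,
        one_mul]
    rw [h1]
    obtain ⟨e, he⟩ : ∃ e : ℝ, e = N / (‖ν₀‖ * s) := ⟨_, rfl⟩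
    obtain ⟨d, hd⟩ : ∃ d : ℝ, d = ‖ν - ν₀‖ / ‖ν₀‖ := ⟨_, rfl⟩
    have he0 : 0 ≤ e := by rw [he]; positivity
    have hd0 : 0 ≤ d := by rw [hd]; positivity
    have h2 := gr_le hL hS
    have h3 : ‖ν‖ ≤ (1 + d) * ‖ν₀‖ := by
      have h4 : d * ‖ν₀‖ = ‖ν - ν₀‖ := by rw [hd]; field_simp
      calc ‖ν‖ = ‖(ν - ν₀) + ν₀‖ := by congr 1; ring
        _ ≤ ‖ν - ν₀‖ + ‖ν₀‖ := norm_add_le _ _
        _ = _ := by rw [← h4]; ring
    have h5 : gr φ p s / (‖ν₀‖ * s) ≤ e + 34 * (1 + d) := by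
      rw [div_le_iff₀ hx]
      have h6 : e * (‖ν₀‖ * s) = N := by rw [he]; field_simp
      have h7 : ‖ν‖ * s ≤ (1 + d) * ‖ν₀‖ * s := mul_le_mul_of_nonneg_right h3 hs.le
      calc gr φ p s ≤ N + 34 * (‖ν‖ * s) := h2
        _ ≤ e * (‖ν₀‖ * s) + 34 * ((1 + d) * ‖ν₀‖ * s) := by linarith
        _ = _ := by ring
    have h8 : 1 ≤ e / ε₁ + 2 * d := by
      by_contra hcon
      push Not at hcon
      refine hg ⟨?_, ?_⟩
      · have h9 : e / ε₁ < 1 := by linarith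
        rw [div_lt_one hε1, he, div_lt_iff₀ hx] at h9
        exact h9.le
      · have h9 : 0 ≤ e / ε₁ := by positivity
        have h10 : d < 1 / 2 := by linarith
        rw [hd, div_lt_iff₀ hx0] at h10
        linarith
    have h9 := er_nonneg (B := B) J hA0 hT hs.le
    have h10 : A * e = 35 * (e / ε₁) + e := by rw [hA]; ring
    rw [← he, ← hd, h10]
    linarith
  · intro k _ b hb hR
    exfalso
    refine hR 0 (Nat.zero_le _) ?_
    rw [Finset.mem_singleton, Nat.sub_zero]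
    have h1 : anc (M ^ k) b = (0, 0) := by
      rw [mem_gd] at hb
      ext
      · exact Nat.div_eq_of_lt hb.1
      · exact Nat.div_eq_of_lt hb.2
    rw [h1]
  · intro h1 h2
    exact absurd ⟨h1, h2⟩ hg

/-- the induction over the levels -/
lemma main {C T ε₀ ε₁ B : ℝ} {M : ℕ} (hC : 1 ≤ C) (hM : 16 ≤ M)
    (hMC : C * (1 + Real.log M) / M ≤ 1 / 4) (hT : 1 ≤ T) (hε1 : 0 < ε₁) (hε2 : ε₁ ≤ ε₀ / 2)
    (hε3 : ε₁ * (8 * C) ≤ 1) (hB : 2 ≤ B) (h8 : Step C T ε₀ M) {lam L : ℝ} {ν₀ : ℂ} {ρ φ : ℂ → ℝ}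
    (hν : 4 * (lam * L) ≤ ‖ν₀‖ ^ 2) (J : ℕ) :
    ∀ (s N : ℝ) (p ν : ℂ), Loc lam L s p ρ φ → thr T ‖ν₀‖ s ≤ N → B * M ^ J ≤ ‖ν₀‖ * s →
    SS ν φ p (32 * s) ≤ Real.exp N * SS ν φ p (2 * s) →
    ∃ R : Finset (ℕ × (ℕ × ℕ)), (∀ r ∈ R, r.1 ≤ J ∧ r.2 ∈ gd (M ^ r.1)) ∧
      ∑ r ∈ R, tm M ν₀ φ p s r ≤ (35 / ε₁ + 1) * (N / (‖ν₀‖ * s)) + 104 * (‖ν - ν₀‖ / ‖ν₀‖) +
        er (35 / ε₁ + 1) T B J s ∧
      (∀ k ≤ J, ∀ b ∈ gd (M ^ k), (∀ k' ≤ k, (k', anc (M ^ (k - k')) b) ∉ R) →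
        ‖ν₀‖ * (s / M ^ k) ≤ gr φ (p + s * ct (M ^ k) b) (s / M ^ k) ∧
        gr φ (p + s * ct (M ^ k) b) (s / M ^ k) ≤ 52 * (‖ν₀‖ * (s / M ^ k))) ∧
      (N ≤ ε₁ * (‖ν₀‖ * s) → ‖ν - ν₀‖ ≤ ‖ν₀‖ / 2 → ∀ r ∈ R, 1 ≤ r.1) := by
  classical
  have hM0 : 0 < M := by omega
  have hM' : (16 : ℝ) ≤ M := by exact_mod_cast hM
  have hMr : (0 : ℝ) < M := by linarith
  obtain ⟨A, hA⟩ : ∃ A : ℝ, A = 35 / ε₁ + 1 := ⟨_, rfl⟩
  rw [← hA]
  have hA1 : 280 * C ≤ A := by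
    have h1 : 8 * C ≤ 1 / ε₁ := by rw [le_div_iff₀ hε1]; linarith
    have h2 : 35 / ε₁ = 35 * (1 / ε₁) := by ring
    rw [hA, h2]
    linarith
  have hA0 : 0 ≤ A := by linarith
  have hC' : ε₁ ≤ 1 := by nlinarith
  induction J with
  | zero =>
    intro s N p ν hL hN hBs hS
    have hs := hL.s_pos
    have hB2 : 2 ≤ ‖ν₀‖ * s := by
      rw [pow_zero, mul_one] at hBs
      linarith
    have hx : 0 < ‖ν₀‖ * s := by linarith
    have hx0 : 0 < ‖ν₀‖ := pos_of_mul_pos_left hx hs.le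
    have hN0 : 0 ≤ N := (thr_nonneg hT hs.le (by linarith)).trans hN
    have her : 0 ≤ er A T B 0 s := er_nonneg 0 hA0 hT hs.le
    by_cases hg : N ≤ ε₁ * (‖ν₀‖ * s) ∧ ‖ν - ν₀‖ ≤ ‖ν₀‖ / 2
    · obtain ⟨h1, _⟩ := good_step hC hT hε1 hε2 hε3 h8 hν hL hN hB2 hS hg.1 hg.2
      refine ⟨∅, fun r hr => absurd hr (Finset.notMem_empty r), ?_, ?_, ?_⟩
      · rw [Finset.sum_empty]
        positivity
      · intro k hk b hb _
        have hk0 : k = 0 := by omega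
        subst hk0
        rw [pow_zero] at *
        rw [pow_zero, ct_one b hb, mul_zero, add_zero, div_one]
        exact h1
      · intro _ _ r hr
        exact absurd hr (Finset.notMem_empty r)
    · exact bad_case hT hε1 hA 0 hL hN0 hx hS hg
  | succ J ih =>
    intro s N p ν hL hN hBs hS
    have hs := hL.s_pos
    have hpow : (1 : ℝ) ≤ (M : ℝ) ^ (J + 1) := one_le_pow₀ (by linarith)
    have hB2 : 2 ≤ ‖ν₀‖ * s := by nlinarith
    have hx : 0 < ‖ν₀‖ * s := by linarith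
    have hx0 : 0 < ‖ν₀‖ := pos_of_mul_pos_left hx hs.le
    have hN0 : 0 ≤ N := (thr_nonneg hT hs.le (by linarith)).trans hN
    by_cases hg : N ≤ ε₁ * (‖ν₀‖ * s) ∧ ‖ν - ν₀‖ ≤ ‖ν₀‖ / 2
    swap
    · exact bad_case hT hε1 hA (J + 1) hL hN0 hx hS hg
    obtain ⟨h0, ν', n, hn, hn1, hn2⟩ := good_step hC hT hε1 hε2 hε3 h8 hν hL hN hB2 hS hg.1 hg.2
    have hBs' : B * (M : ℝ) ^ J ≤ ‖ν₀‖ * (s / M) := by
      rw [pow_succ] at hBs
      calc B * (M : ℝ) ^ J = B * ((M : ℝ) ^ J * M) / M := by field_simp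
        _ ≤ ‖ν₀‖ * s / M := div_le_div_of_nonneg_right hBs hMr.le
        _ = _ := by ring
    have hsM : 0 < s / M := by positivity
    have hch : ∀ a : ℕ × ℕ, ∃ R : Finset (ℕ × (ℕ × ℕ)), a ∈ gd M →
        (∀ r ∈ R, r.1 ≤ J ∧ r.2 ∈ gd (M ^ r.1)) ∧
        ∑ r ∈ R, tm M ν₀ φ (p + s * ct M a) (s / M) r ≤
          A * (max (n a) (thr T ‖ν₀‖ (s / M)) / (‖ν₀‖ * (s / M))) + 104 * (‖ν' a - ν₀‖ / ‖ν₀‖) +
          er A T B J (s / M) ∧
        (∀ k ≤ J, ∀ b ∈ gd (M ^ k), (∀ k' ≤ k, (k', anc (M ^ (k - k')) b) ∉ R) →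
          ‖ν₀‖ * (s / M / M ^ k) ≤
            gr φ (p + s * ct M a + ((s / M : ℝ) : ℂ) * ct (M ^ k) b) (s / M / M ^ k) ∧
          gr φ (p + s * ct M a + ((s / M : ℝ) : ℂ) * ct (M ^ k) b) (s / M / M ^ k) ≤
            52 * (‖ν₀‖ * (s / M / M ^ k))) := by
      intro a
      by_cases ha : a ∈ gd M
      · obtain ⟨R, hR1, hR2, hR3, _⟩ := ih (s / M) (max (n a) (thr T ‖ν₀‖ (s / M)))
          (p + s * ct M a) (ν' a) (loc_sub hL ha) (le_max_right _ _) hBs'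
          ((hn a ha).2.trans (mul_le_mul_of_nonneg_right (Real.exp_le_exp.2 (le_max_left _ _))
            (sn_nonneg' _ _)))
        exact ⟨R, fun _ => ⟨hR1, hR2, hR3⟩⟩
      · exact ⟨∅, fun h => absurd h ha⟩
    choose R hR using hch
    refine ⟨(gd M).biUnion fun a => (R a).image (sh M a), ?_, ?_, ?_, ?_⟩
    · intro r hr
      rw [Finset.mem_biUnion] at hr
      obtain ⟨a, ha, hr⟩ := hr
      rw [Finset.mem_image] at hr
      obtain ⟨r', hr', rfl⟩ := hr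
      obtain ⟨h1, h2⟩ := (hR a ha).1 r' hr'
      refine ⟨Nat.succ_le_succ h1, ?_⟩
      show ch (M ^ r'.1) a r'.2 ∈ gd (M ^ (r'.1 + 1))
      rw [pow_succ']
      exact ch_mem ha h2
    · have hnn : ∀ a ∈ gd M, ∀ b ∈ (R a).image (sh M a), 0 ≤ tm M ν₀ φ p s b := by
        intro a ha b hb
        rw [Finset.mem_image] at hb
        obtain ⟨r', hr', rfl⟩ := hb
        refine tm_nonneg hL ν₀ ?_
        show ch (M ^ r'.1) a r'.2 ∈ gd (M ^ (r'.1 + 1))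
        rw [pow_succ']
        exact ch_mem ha ((hR a ha).1 r' hr').2
      have h1 := sum_biUnion_le' (gd M) (fun a => (R a).image (sh M a)) (tm M ν₀ φ p s) hnn
      have h2 : ∑ a ∈ gd M, ∑ b ∈ (R a).image (sh M a), tm M ν₀ φ p s b ≤
          ∑ a ∈ gd M, ((M : ℝ) ^ 2)⁻¹ * (A * ((n a + thr T ‖ν₀‖ (s / M)) / (‖ν₀‖ * (s / M))) +
            104 * ((‖ν' a - ν‖ + ‖ν - ν₀‖) / ‖ν₀‖) + er A T B J (s / M)) := by
        refine Finset.sum_le_sum fun a ha => ?_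
        rw [Finset.sum_image fun r hr r' hr' h => sh_inj ((hR a ha).1 r hr).2
          ((hR a ha).1 r' hr').2 h]
        rw [Finset.sum_congr rfl fun r _ => tm_sh hM0 ν₀ φ p s a r, ← Finset.mul_sum]
        refine mul_le_mul_of_nonneg_left ((hR a ha).2.1.trans ?_) (by positivity)
        have h3 : max (n a) (thr T ‖ν₀‖ (s / M)) ≤ n a + thr T ‖ν₀‖ (s / M) := by
          have h4 : 0 ≤ thr T ‖ν₀‖ (s / M) := by
            refine thr_nonneg hT hsM.le (le_trans ?_ hBs')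
            have : (1 : ℝ) ≤ (M : ℝ) ^ J := one_le_pow₀ (by linarith)
            nlinarith
          exact max_le (by linarith) (by linarith [(hn a ha).1])
        have h5 : ‖ν' a - ν₀‖ ≤ ‖ν' a - ν‖ + ‖ν - ν₀‖ := by
          calc ‖ν' a - ν₀‖ = ‖(ν' a - ν) + (ν - ν₀)‖ := by congr 1; ring
            _ ≤ _ := norm_add_le _ _
        gcongr
      have h3 : ∑ a ∈ gd M, ((M : ℝ) ^ 2)⁻¹ * (A * ((n a + thr T ‖ν₀‖ (s / M)) / (‖ν₀‖ * (s / M))) +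
            104 * ((‖ν' a - ν‖ + ‖ν - ν₀‖) / ‖ν₀‖) + er A T B J (s / M)) =
          ((M : ℝ) ^ 2)⁻¹ * (A * ((∑ a ∈ gd M, n a) / (‖ν₀‖ * (s / M))) +
            104 * ((∑ a ∈ gd M, ‖ν' a - ν‖) / ‖ν₀‖)) +
          (A * (thr T ‖ν₀‖ (s / M) / (‖ν₀‖ * (s / M))) + 104 * (‖ν - ν₀‖ / ‖ν₀‖) +
            er A T B J (s / M)) := by
        rw [← Finset.mul_sum, Finset.sum_add_distrib, Finset.sum_add_distrib, ← Finset.mul_sum,
          ← Finset.mul_sum, ← Finset.sum_div, ← Finset.sum_div, Finset.sum_add_distrib,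
          Finset.sum_add_distrib, Finset.sum_const, Finset.sum_const, Finset.sum_const, gd_card,
          nsmul_eq_mul, nsmul_eq_mul, nsmul_eq_mul]
        push_cast
        field_simp
        ring
      have h4 : ((M : ℝ) ^ 2)⁻¹ * (A * ((∑ a ∈ gd M, n a) / (‖ν₀‖ * (s / M)))) ≤
          1 / 4 * (A * (N / (‖ν₀‖ * s))) := by
        calc ((M : ℝ) ^ 2)⁻¹ * (A * ((∑ a ∈ gd M, n a) / (‖ν₀‖ * (s / M))))
            ≤ ((M : ℝ) ^ 2)⁻¹ * (A * ((C * (1 + Real.log M) * N) / (‖ν₀‖ * (s / M)))) := by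
              gcongr
          _ = C * (1 + Real.log M) / M * (A * (N / (‖ν₀‖ * s))) := by
              field_simp
          _ ≤ _ := by
              refine mul_le_mul_of_nonneg_right hMC ?_
              positivity
      have h5 : ((M : ℝ) ^ 2)⁻¹ * (104 * ((∑ a ∈ gd M, ‖ν' a - ν‖) / ‖ν₀‖)) ≤
          3 / 4 * (A * (N / (‖ν₀‖ * s))) := by
        calc ((M : ℝ) ^ 2)⁻¹ * (104 * ((∑ a ∈ gd M, ‖ν' a - ν‖) / ‖ν₀‖))
            ≤ ((M : ℝ) ^ 2)⁻¹ * (104 * ((C * M ^ 2 * (N / s)) / ‖ν₀‖)) := by gcongr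
          _ = 104 * C * (N / (‖ν₀‖ * s)) := by field_simp
          _ ≤ 3 / 4 * A * (N / (‖ν₀‖ * s)) := by
              refine mul_le_mul_of_nonneg_right (by linarith) ?_
              positivity
          _ = _ := by ring
      have h6 := er_step (A := A) (T := T) (B := B) (J := J) hA0 hT (by linarith : (1:ℝ) ≤ B) hs hx0 hM
        hBs'
      calc _ ≤ _ := h1
        _ ≤ _ := h2
        _ = _ := h3
        _ ≤ _ := by
            rw [mul_add]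
            linarith
    · intro k hk b hb hno
      rcases Nat.eq_zero_or_pos k with hk0 | hk0
      · subst hk0
        rw [pow_zero] at *
        rw [pow_zero, ct_one b hb, mul_zero, add_zero, div_one]
        exact h0
      · obtain ⟨k, rfl⟩ : ∃ k', k = k' + 1 := ⟨k - 1, by omega⟩
        obtain ⟨a, ha⟩ : ∃ a, a = anc (M ^ k) b := ⟨_, rfl⟩
        obtain ⟨c, hc⟩ : ∃ c, c = md (M ^ k) b := ⟨_, rfl⟩
        have hb1 : b = ch (M ^ k) a c := by rw [ha, hc, ch_anc_md]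
        have hcm : c ∈ gd (M ^ k) := by rw [hc]; exact md_mem (pow_pos hM0 k) b
        have ham : a ∈ gd M := by
          rw [ha]
          refine anc_mem ?_
          rwa [← pow_succ']
        have h1 := (hR a ham).2.2 k (by omega) c hcm ?_
        · have h2 : s / (M : ℝ) ^ (k + 1) = s / M / M ^ k := by
            rw [pow_succ']
            field_simp
          rw [hb1, ct_sh hM0, h2]
          exact h1
        · intro k' hk' hmem
          refine hno (k' + 1) (by omega) ?_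
          rw [Finset.mem_biUnion]
          refine ⟨a, ham, ?_⟩
          rw [Finset.mem_image]
          refine ⟨_, hmem, ?_⟩
          show (k' + 1, ch (M ^ k') a (anc (M ^ (k - k')) c)) = (k' + 1, anc (M ^ (k + 1 - (k' + 1))) b)
          rw [show k + 1 - (k' + 1) = k - k' by omega, hb1, anc_sh hM0 hk']
    · intro _ _ r hr
      rw [Finset.mem_biUnion] at hr
      obtain ⟨a, ha, hr⟩ := hr
      rw [Finset.mem_image] at hr
      obtain ⟨r', hr', rfl⟩ := hr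
      show 1 ≤ r'.1 + 1
      omega


end Y9P

open Y9P in
/-- descendants of a linear square -/
theorem ty9 (h : Y8) : Y9 := by
  obtain ⟨C, hC, h8⟩ := h
  obtain ⟨M₀, hM₀⟩ : ∃ M₀ : ℕ, M₀ = ⌈144 * C ^ 2⌉₊ + 16 := ⟨_, rfl⟩
  refine ⟨M₀, by omega, fun θ M hθ hθ1 hM => ?_⟩
  have hM16 : 16 ≤ M := by omega
  have hM' : (16 : ℝ) ≤ M := by exact_mod_cast hM16
  have hMr : (0 : ℝ) < M := by linarith
  have hMC2 : 144 * C ^ 2 ≤ M := by
    have h1 : 144 * C ^ 2 ≤ (⌈144 * C ^ 2⌉₊ : ℝ) := Nat.le_ceil _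
    have h2 : ((⌈144 * C ^ 2⌉₊ : ℕ) : ℝ) ≤ M := by
      have : ⌈144 * C ^ 2⌉₊ ≤ M := by omega
      exact_mod_cast this
    exact h1.trans h2
  have hCM : C ≤ M := by nlinarith
  have hMC : C * (1 + Real.log M) / M ≤ 1 / 4 := by
    have h1 : Real.log M ≤ 2 * (Real.sqrt M - 1) := by
      have h3 := Real.log_le_sub_one_of_pos (Real.sqrt_pos.2 hMr)
      rw [Real.log_sqrt hMr.le] at h3
      linarith
    have h2 : 12 * C ≤ Real.sqrt M := by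
      refine Real.le_sqrt_of_sq_le ?_
      linarith
    have h3 : Real.sqrt M * Real.sqrt M = M := Real.mul_self_sqrt hMr.le
    rw [div_le_iff₀ hMr]
    have h4 : C * (1 + Real.log M) ≤ C * (3 * Real.sqrt M) :=
      mul_le_mul_of_nonneg_left (by linarith [Real.sqrt_nonneg (M : ℝ)]) (by linarith)
    have h5 : C * (3 * Real.sqrt M) ≤ 1 / 4 * (Real.sqrt M * Real.sqrt M) := by
      have := mul_le_mul_of_nonneg_right h2 (Real.sqrt_nonneg (M : ℝ))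
      linarith
    rw [h3] at h5
    linarith
  obtain ⟨T, ε₀, hT, hε0, hε01, hst⟩ := h8 M hCM
  obtain ⟨ε₁, hε1⟩ : ∃ ε₁ : ℝ, ε₁ = min (ε₀ / 2) (1 / (8 * C)) := ⟨_, rfl⟩
  have hε1p : 0 < ε₁ := by rw [hε1]; exact lt_min (by linarith) (by positivity)
  have hε2 : ε₁ ≤ ε₀ / 2 := by rw [hε1]; exact min_le_left _ _
  have hε3 : ε₁ * (8 * C) ≤ 1 := by
    have : ε₁ ≤ 1 / (8 * C) := by rw [hε1]; exact min_le_right _ _
    rwa [le_div_iff₀ (by linarith)] at this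
  obtain ⟨A, hA⟩ : ∃ A : ℝ, A = 35 / ε₁ + 1 := ⟨_, rfl⟩
  have hA1 : 1 ≤ A := by
    have : 0 < 35 / ε₁ := by positivity
    linarith
  obtain ⟨ε, hε⟩ : ∃ ε : ℝ, ε = min ε₁ (θ / (4 * A)) := ⟨_, rfl⟩
  have hεp : 0 < ε := by rw [hε]; exact lt_min hε1p (by positivity)
  have hεle : ε ≤ ε₁ := by rw [hε]; exact min_le_left _ _
  have hεA : A * ε ≤ θ / 4 := by
    have h1 : ε ≤ θ / (4 * A) := by rw [hε]; exact min_le_right _ _
    calc A * ε ≤ A * (θ / (4 * A)) := mul_le_mul_of_nonneg_left h1 (by linarith)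
      _ = θ / 4 := by field_simp
  obtain ⟨B, hB⟩ : ∃ B : ℝ, B = max 2 (max ((32 * (A * T) / θ) ^ 2) ((6 * T / ε) ^ 2)) := ⟨_, rfl⟩
  have hB2 : 2 ≤ B := by rw [hB]; exact le_max_left _ _
  have hB3 : 32 * (A * T) / θ ≤ Real.sqrt B := by
    refine Real.le_sqrt_of_sq_le ?_
    rw [hB]
    exact (le_max_left _ _).trans (le_max_right _ _)
  have hB4 : 6 * T / ε ≤ Real.sqrt B := by
    refine Real.le_sqrt_of_sq_le ?_
    rw [hB]
    exact (le_max_right _ _).trans (le_max_right _ _)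
  have hBs : 0 < Real.sqrt B := Real.sqrt_pos.2 (by linarith)
  refine ⟨ε, B, min (θ / (32 * (A * T))) (ε / (4 * T)), hεp, ?_, by linarith,
    lt_min (by positivity) (by positivity), ?_⟩
  · have : ε₁ ≤ 1 := by nlinarith
    linarith
  intro lam L s p ν₀ ρ φ J hL hs1 hν hBJ hS
  have hs := hL.s_pos
  have hMJ : (0 : ℝ) < (M : ℝ) ^ J := by positivity
  have hMJ1 : (1 : ℝ) ≤ (M : ℝ) ^ J := one_le_pow₀ (by linarith)
  have hBJ' : B * (M : ℝ) ^ J ≤ ‖ν₀‖ * s := by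
    calc B * (M : ℝ) ^ J ≤ ‖ν₀‖ * (s / M ^ J) * (M : ℝ) ^ J :=
          mul_le_mul_of_nonneg_right hBJ hMJ.le
      _ = _ := by field_simp
  have hBx : B ≤ ‖ν₀‖ * s := by
    have : B * 1 ≤ B * (M : ℝ) ^ J := mul_le_mul_of_nonneg_left hMJ1 (by linarith)
    linarith
  have hx : 0 < ‖ν₀‖ * s := by linarith
  have hx0 : 0 < ‖ν₀‖ := pos_of_mul_pos_left hx hs.le
  have hthr : thr T ‖ν₀‖ s ≤ ε * (‖ν₀‖ * s) := by
    refine (thr_le hT (by linarith : (1:ℝ) ≤ B) hBx).trans (mul_le_mul_of_nonneg_right ?_ hx.le)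
    have h1 : 3 * T / Real.sqrt B ≤ ε / 2 := by
      rw [div_le_iff₀ hBs]
      rw [div_le_iff₀ hεp] at hB4
      linarith
    have h2 : s ≤ ε / (4 * T) := hs1.trans (min_le_right _ _)
    rw [le_div_iff₀ (by linarith)] at h2
    linarith
  obtain ⟨R, hR1, hR2, hR3, hR4⟩ := main (B := B) hC hM16 hMC hT hε1p hε2 hε3 hB2 hst hν J s
    (ε * (‖ν₀‖ * s)) p ν₀ hL hthr hBJ' hS
  rw [← hA] at hR2
  have htot : ∑ r ∈ R, tm M ν₀ φ p s r ≤ θ := by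
    refine hR2.trans ?_
    have h1 : ε * (‖ν₀‖ * s) / (‖ν₀‖ * s) = ε := by field_simp
    rw [h1, sub_self, norm_zero, zero_div, mul_zero, add_zero]
    have h2 : er A T B J s ≤ θ / 4 := by
      unfold er
      have h3 : 3 / Real.sqrt B * gs J ≤ 4 / Real.sqrt B := by
        calc 3 / Real.sqrt B * gs J ≤ 3 / Real.sqrt B * (4 / 3) :=
              mul_le_mul_of_nonneg_left (gs_le J) (by positivity)
          _ = _ := by ring
      have h4 : A * T * (4 / Real.sqrt B) ≤ θ / 8 := by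
        rw [div_le_iff₀ hθ] at hB3
        calc A * T * (4 / Real.sqrt B) = 32 * (A * T) / (8 * Real.sqrt B) := by ring
          _ ≤ Real.sqrt B * θ / (8 * Real.sqrt B) := by gcongr
          _ = θ / 8 := by field_simp
      have h5 : A * T * (4 * s) ≤ θ / 8 := by
        have h6 : s ≤ θ / (32 * (A * T)) := hs1.trans (min_le_left _ _)
        rw [le_div_iff₀ (by positivity)] at h6
        linarith
      have h7 : 0 < A * T := by positivity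
      calc A * T * (3 / Real.sqrt B * gs J + 4 * s) ≤ A * T * (4 / Real.sqrt B + 4 * s) :=
            mul_le_mul_of_nonneg_left (by linarith) h7.le
        _ = A * T * (4 / Real.sqrt B) + A * T * (4 * s) := by ring
        _ ≤ _ := by linarith
    linarith
  have hg : ∀ r ∈ R, 0 ≤ gr φ (p + s * ct (M ^ r.1) r.2) (s / M ^ r.1) := by
    intro r hr
    have h1 := gr_nonneg (loc_sub hL (hR1 r hr).2)
    push_cast at h1
    exact h1
  refine ⟨R, fun r hr => ⟨hR4 (mul_le_mul_of_nonneg_right hεle hx.le)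
    (by rw [sub_self, norm_zero]; positivity) r hr, (hR1 r hr).1, (hR1 r hr).2⟩, ?_, ?_, hR3⟩
  · refine le_trans (Finset.sum_le_sum fun r hr => ?_) htot
    have h1 := hg r hr
    unfold tm
    have h2 : 0 ≤ gr φ (p + s * ct (M ^ r.1) r.2) (s / M ^ r.1) / (‖ν₀‖ * (s / M ^ r.1)) := by
      positivity
    have h3 : 0 ≤ ((M : ℝ) ^ (2 * r.1))⁻¹ := by positivity
    nlinarith
  · have h1 : θ * ‖ν₀‖ ≥ (∑ r ∈ R, tm M ν₀ φ p s r) * ‖ν₀‖ :=
      mul_le_mul_of_nonneg_right htot hx0.le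
    refine le_trans ?_ h1
    rw [Finset.sum_mul]
    refine Finset.sum_le_sum fun r hr => ?_
    have h2 := hg r hr
    unfold tm
    have h4 : 0 < s / (M : ℝ) ^ r.1 := by positivity
    rw [mul_assoc]
    refine mul_le_mul_of_nonneg_left ?_ (by positivity)
    rw [add_mul]
    have h5 : gr φ (p + s * ct (M ^ r.1) r.2) (s / M ^ r.1) / (‖ν₀‖ * (s / M ^ r.1)) * ‖ν₀‖ =
        gr φ (p + s * ct (M ^ r.1) r.2) (s / M ^ r.1) / (s / M ^ r.1) := by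
      field_simp
    rw [h5]
    linarith

end Pool.Agent.Q73.AD
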