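import Pool.Agent.Q73.AD.StmZ

/-!
# The number of discs of a covering is at least `c lam`
-/

set_option autoImplicit false
open MeasureTheory Filter Topology Complex Metric
open scoped ContDiff ComplexConjugate

namespace Pool.Agent.Q73.AD

open Pool.Agent.Q73.NL

universe u v

/-- a covering of a disc of radius `r` by `card κ` discs of radius `t` -/
lemma cover_area {κ : Type} [Fintype κ] (z : ℂ) (r t : ℝ) (w : κ → ℂ) (hr : 0 ≤ r) (ht : 0 ≤ t)
    (h : closedBall z r ⊆ ⋃ k, closedBall (w k) t) : r ^ 2 ≤ Fintype.card κ * t ^ 2 := by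
  have h1 : volume (closedBall z r) ≤ ∑ k, volume (closedBall (w k) t) := by
    refine (measure_mono h).trans ?_
    refine (measure_iUnion_le _).trans ?_
    rw [tsum_fintype]
  simp only [Complex.volume_closedBall, Finset.sum_const, Finset.card_univ, nsmul_eq_mul] at h1
  rw [← mul_assoc] at h1
  have hpi : ((NNReal.pi : NNReal) : ENNReal) ≠ 0 := by
    simp [NNReal.pi_ne_zero]
  have h2 : ENNReal.ofReal r ^ 2 ≤ (Fintype.card κ : ENNReal) * ENNReal.ofReal t ^ 2 := by
    by_contra hcon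
    push Not at hcon
    have := (ENNReal.mul_lt_mul_iff_left hpi ENNReal.coe_ne_top).2 hcon
    exact absurd h1 (not_le.2 this)
  rw [← ENNReal.ofReal_pow hr, ← ENNReal.ofReal_pow ht, ← ENNReal.ofReal_natCast,
    ← ENNReal.ofReal_mul (by positivity)] at h2
  exact (ENNReal.ofReal_le_ofReal_iff (by positivity)).1 h2

/-- AY-30: the number of discs of a covering is at least `c lam` -/
theorem tz7 : Z7.{u, v} := by
  intro M ι _ _ _ U φ ρ hA C hC
  obtain ⟨x₀⟩ := (inferInstance : Nonempty M)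
  obtain ⟨i, z, hz, -⟩ := hA.cover x₀
  obtain ⟨r, c, hr, hc, hsub, hlip⟩ := hA.lip i z hz
  refine ⟨c ^ 2 * r ^ 2 / (16 * C ^ 2), by positivity, ?_⟩
  intro lam κ _ b hlam hcov
  have hs : 0 < Real.sqrt lam := Real.sqrt_pos.2 hlam
  classical
  let w : κ → ℂ := fun k =>
    if h : ∃ w ∈ closedBall z (r / 2), φ i w ∈ ball (b k) (C / Real.sqrt lam) then h.choose else 0
  have hsubr : closedBall z (r / 2) ⊆ ball z r := closedBall_subset_ball (by linarith)
  have h1 : closedBall z (r / 2) ⊆ ⋃ k, closedBall (w k) (2 * C / (c * Real.sqrt lam)) := by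
    intro y hy
    obtain ⟨k, hk⟩ := hcov (φ i y)
    have h : ∃ w ∈ closedBall z (r / 2), φ i w ∈ ball (b k) (C / Real.sqrt lam) := ⟨y, hy, hk⟩
    have hw : w k = h.choose := dif_pos h
    obtain ⟨h2, h3⟩ := h.choose_spec
    rw [← hw] at h2 h3
    rw [Set.mem_iUnion]
    refine ⟨k, ?_⟩
    rw [mem_closedBall, dist_eq_norm]
    have h4 := (hlip y (hsubr hy) (w k) (hsubr h2)).1
    have h5 : dist (φ i y) (φ i (w k)) ≤ 2 * (C / Real.sqrt lam) := by
      have h6 := dist_triangle_right (φ i y) (φ i (w k)) (b k)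
      rw [mem_ball] at hk h3
      linarith
    rw [le_div_iff₀ (by positivity)]
    have h7 : c * ‖y - w k‖ ≤ 2 * (C / Real.sqrt lam) := h4.trans h5
    calc ‖y - w k‖ * (c * Real.sqrt lam) = (c * ‖y - w k‖) * Real.sqrt lam := by ring
      _ ≤ 2 * (C / Real.sqrt lam) * Real.sqrt lam := mul_le_mul_of_nonneg_right h7 hs.le
      _ = 2 * C := by field_simp
  have h2 := cover_area z (r / 2) _ w (by positivity) (by positivity) h1
  have h3 : (2 * C / (c * Real.sqrt lam)) ^ 2 = 4 * C ^ 2 / (c ^ 2 * lam) := by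
    rw [div_pow, mul_pow, mul_pow, Real.sq_sqrt hlam.le]
    ring
  rw [h3, ← mul_div_assoc, le_div_iff₀ (by positivity)] at h2
  rw [div_mul_eq_mul_div, div_le_iff₀ (by positivity)]
  nlinarith

end Pool.Agent.Q73.AD
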